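import Pool.Agent.MP42.U.Block

/-!
# Stars over a contour (owner helper86)

The unused docks of a level: dock `j` has the legs `y j` (host corner), `a j` (corner `3`, on a circle
of class `O`) and `b j` (corner `4`, on a circle of class `E`); the legs come in the cyclic order
`y a b`, all legs are different, and the stars do not cross.
-/

set_option autoImplicit false

namespace Pool.Agent.MP42.U

/-- the three legs -/
inductive Lg3
  | y
  | a
  | b
  deriving DecidableEq, Fintype

/-- **star data** over a contour; `cls z`: the circle `z` is of class `E` -/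
structure Stars {C α : Type*} [LinearOrder α] (Ct : Contour C α) (cls : C → Prop) (J : Type*) where
  leg : J → Lg3 → α
  /-- all legs are different -/
  inj : ∀ i j s t, leg i s = leg j t → i = j ∧ s = t
  /-- corner `3` is on a circle of class `O` -/
  clsA : ∀ j, ¬ cls (Ct.pt (leg j .a))
  /-- corner `4` is on a circle of class `E` -/
  clsB : ∀ j, cls (Ct.pt (leg j .b))
  /-- the cyclic order `y a b` -/
  cyc : ∀ j, (leg j .b < leg j .y ∧ leg j .y < leg j .a) ∨
    (leg j .a < leg j .b ∧ leg j .b < leg j .y) ∨
    (leg j .y < leg j .a ∧ leg j .a < leg j .b)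
  /-- between two legs of a star: all legs of another one or none -/
  nc : ∀ i j, i ≠ j → ∀ s t, leg i s < leg i t →
    (∀ u, leg i s < leg j u ∧ leg j u < leg i t) ∨
    (∀ u, ¬ (leg i s < leg j u ∧ leg j u < leg i t))

namespace Stars

variable {C α J : Type*} [LinearOrder α] {Ct : Contour C α} {cls : C → Prop}
  (S : Stars Ct cls J)

/-- the host leg -/
def y (j : J) : α := S.leg j .y

/-- the leg at corner `3` -/
def a (j : J) : α := S.leg j .a

/-- the leg at corner `4` -/
def b (j : J) : α := S.leg j .b

/-- the port: `t j = true`: corner `4`, `t j = false`: corner `3` -/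
def port (t : J → Bool) (j : J) : α := if t j then S.b j else S.a j

lemma leg_inj {j : J} {s t : Lg3} (h : S.leg j s = S.leg j t) : s = t := (S.inj j j s t h).2

lemma y_inj : Function.Injective S.y := fun i j h => (S.inj i j _ _ h).1
lemma a_inj : Function.Injective S.a := fun i j h => (S.inj i j _ _ h).1
lemma b_inj : Function.Injective S.b := fun i j h => (S.inj i j _ _ h).1

lemma y_ne_a (i j : J) : S.y i ≠ S.a j := fun h => by cases (S.inj i j _ _ h).2
lemma y_ne_b (i j : J) : S.y i ≠ S.b j := fun h => by cases (S.inj i j _ _ h).2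
lemma a_ne_b (i j : J) : S.a i ≠ S.b j := fun h => by cases (S.inj i j _ _ h).2

lemma port_eq (t : J → Bool) (j : J) : S.port t j = S.a j ∨ S.port t j = S.b j := by
  unfold port
  by_cases h : t j
  · simp [h]
  · simp [h]

lemma port_inj (t : J → Bool) : Function.Injective (S.port t) := by
  intro i j h
  rcases S.port_eq t i with h1 | h1 <;> rcases S.port_eq t j with h2 | h2 <;> rw [h1, h2] at h
  · exact S.a_inj h
  · exact absurd h (S.a_ne_b i j)
  · exact absurd h.symm (S.a_ne_b j i)
  · exact S.b_inj h

lemma y_ne_port (t : J → Bool) (i j : J) : S.y i ≠ S.port t j := by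
  rcases S.port_eq t j with h | h <;> rw [h]
  · exact S.y_ne_a i j
  · exact S.y_ne_b i j

/-- between two legs of a star: all legs of another star or none, as a test on one leg -/
lemma nc_iff {i j : J} (hij : i ≠ j) {s t : Lg3} (h : S.leg i s < S.leg i t) (u v : Lg3) :
    (S.leg i s < S.leg j u ∧ S.leg j u < S.leg i t) ↔
      (S.leg i s < S.leg j v ∧ S.leg j v < S.leg i t) := by
  rcases S.nc i j hij s t h with h1 | h1
  · exact ⟨fun _ => h1 v, fun _ => h1 u⟩
  · exact ⟨fun h2 => absurd h2 (h1 u), fun h2 => absurd h2 (h1 v)⟩

/-- the side of a leg of a star: all legs of another star are on one side of the chord -/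
lemma side {i j : J} (hij : i ≠ j) {s t : Lg3} (h : S.leg i s < S.leg i t) (u v : Lg3)
    (h1 : S.leg i s < S.leg j u) (h2 : S.leg j u < S.leg i t) :
    S.leg i s < S.leg j v ∧ S.leg j v < S.leg i t := (S.nc_iff hij h u v).1 ⟨h1, h2⟩

end Stars

end Pool.Agent.MP42.U
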