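import Mathlib

/-!
# Project MP42: units of a circle (lists of items in reading order)

Items are odd (`od`) or even, some odd items are ports (`po`). If no two ports are adjacent among the
odd items then the list is an optional front part `m ++ [x]` (`m` even, `x` a port: the only uncancelled
port) followed by units: `ev i` (even), `fr i` (odd, no port), `br f m x` (a bracket: an odd item `f`
which is no port, even items `m`, a port `x`).
-/

set_option autoImplicit false

namespace Pool.Agent.MP42.U

/-- the units -/
inductive It (I : Type*)
  | ev (i : I)
  | fr (i : I)
  | br (f : I) (m : List I) (x : I)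

namespace It

variable {I : Type*}

/-- the items of a unit -/
def fl : It I → List I
  | ev i => [i]
  | fr i => [i]
  | br f m x => f :: (m ++ [x])

/-- the kinds of the items of a unit are right -/
def Good (od po : I → Prop) : It I → Prop
  | ev i => ¬ od i
  | fr i => od i ∧ ¬ po i
  | br f m x => od f ∧ ¬ po f ∧ (∀ i ∈ m, ¬ od i) ∧ po x

end It

variable {I : Type*}

/-- no two adjacent ports -/
def NoAdj (od po : I → Prop) (is : List I) : Prop :=
  ∀ l1 x m x' l2, is = l1 ++ x :: (m ++ x' :: l2) → (∀ i ∈ m, ¬ od i) → po x → ¬ po x'

/-- **the decomposition into units** -/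
theorem exists_units {od po : I → Prop} : ∀ {is : List I},
    NoAdj od po is → ∃ (p : Option (List I × I)) (us : List (It I)),
      is = (p.elim [] fun q => q.1 ++ [q.2]) ++ us.flatMap It.fl ∧
      (∀ q ∈ p, (∀ i ∈ q.1, ¬ od i) ∧ po q.2) ∧ ∀ u ∈ us, u.Good od po := by
  intro is
  induction is with
  | nil =>
    intro _
    exact ⟨none, [], rfl, by simp, by simp⟩
  | cons i is ih =>
    intro h
    have h' : NoAdj od po is := by
      intro l1 x m x' l2 h1 h2
      exact h (i :: l1) x m x' l2 (by rw [h1]; rfl) h2
    obtain ⟨p, us, h1, h2, h3⟩ := ih h'
    by_cases hi : od i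
    · by_cases hp : po i
      · cases p with
        | none =>
          refine ⟨some ([], i), us, ?_, ?_, h3⟩
          · rw [h1]; rfl
          · intro q hq
            simp only [Option.mem_def, Option.some.injEq] at hq
            rw [← hq]
            exact ⟨by simp, hp⟩
        | some q =>
          exfalso
          obtain ⟨h4, h5⟩ := h2 q rfl
          refine h [] i q.1 q.2 (us.flatMap It.fl) ?_ h4 hp h5
          rw [h1]
          simp
      · cases p with
        | none =>
          refine ⟨none, It.fr i :: us, ?_, by simp, ?_⟩
          · rw [h1]; rfl
          · intro u hu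
            rcases List.mem_cons.1 hu with rfl | hu
            · exact ⟨hi, hp⟩
            · exact h3 u hu
        | some q =>
          obtain ⟨h4, h5⟩ := h2 q rfl
          refine ⟨none, It.br i q.1 q.2 :: us, ?_, by simp, ?_⟩
          · rw [h1]
            simp [It.fl]
          · intro u hu
            rcases List.mem_cons.1 hu with rfl | hu
            · exact ⟨hi, hp, h4, h5⟩
            · exact h3 u hu
    · cases p with
      | none =>
        refine ⟨none, It.ev i :: us, ?_, by simp, ?_⟩
        · rw [h1]; rfl
        · intro u hu
          rcases List.mem_cons.1 hu with rfl | hu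
          · exact hi
          · exact h3 u hu
      | some q =>
        obtain ⟨h4, h5⟩ := h2 q rfl
        refine ⟨some (i :: q.1, q.2), us, ?_, ?_, h3⟩
        · rw [h1]; rfl
        · intro q' hq'
          simp only [Option.mem_def, Option.some.injEq] at hq'
          rw [← hq']
          refine ⟨?_, h5⟩
          intro i' hi'
          rcases List.mem_cons.1 hi' with rfl | hi'
          · exact hi
          · exact h4 i' hi'

end Pool.Agent.MP42.U
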