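import Mathlib

/-!
# Project MP42: the parity rule

Positions are elements of a linear order `α` (root-linear contour order). A dock `j : J` has the
corners `b j < y j < a j`, the docks do not cross. `L` is the set of the other used letters, an even
number of them between `b j` and `a j` (they are the ends of chords which do not cross the dock).
`parity_rule`: one can choose used ports `x j ∈ {b j, a j}` such that the number of used letters before
every used port has the parity `φ`. Then the number of used letters strictly between two used ports is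
odd (`odd_between`), so two used ports of one circle are never consecutive odd items (`odd_item`).
-/

namespace Pool.Agent.MP42.U

/-- docks of the kind `b < y < a` -/
structure Docks (J α : Type*) [LinearOrder α] where
  b : J → α
  y : J → α
  a : J → α
  b_lt_y : ∀ j, b j < y j
  y_lt_a : ∀ j, y j < a j
  b_inj : Function.Injective b
  y_inj : Function.Injective y
  a_inj : Function.Injective a
  y_ne_b : ∀ i j, y i ≠ b j
  y_ne_a : ∀ i j, y i ≠ a j
  b_ne_a : ∀ i j, b i ≠ a j
  /-- a dock with smaller `b` is completely to the left of `b j`, or it encloses `[b j, a j]`, and its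
  `y` is not between `b j` and `a j` -/
  cross : ∀ i j, b i < b j → a i < b j ∨ (a j < a i ∧ (y i < b j ∨ a j < y i))

namespace Docks

variable {J α : Type*} [LinearOrder α] (D : Docks J α)

/-- the number of letters before `t`, for the docks in `s` -/
def cnt (L : Finset α) (s : Finset J) (x : J → α) (t : α) : ℕ :=
  (s.filter (fun i => D.y i < t)).card + (s.filter (fun i => x i < t)).card +
    (L.filter (fun l => l < t)).card

variable {D}

private theorem card_insert {s : Finset J} [DecidableEq J] {j : J} (hj : j ∉ s) (p : J → Prop)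
    [DecidablePred p] :
    ((insert j s).filter p).card = (s.filter p).card + if p j then 1 else 0 := by
  rw [Finset.filter_insert]
  split_ifs with h
  · rw [Finset.card_insert_of_notMem (fun h1 => hj (Finset.mem_filter.1 h1).1)]
  · rfl

theorem b_lt_a (D : Docks J α) (j : J) : D.b j < D.a j := (D.b_lt_y j).trans (D.y_lt_a j)

/-- the docks one after the other, in the order of `b` -/
theorem exists_choice (D : Docks J α) {L : Finset α}
    (hL : ∀ j, Even (L.filter (fun l => D.b j ≤ l ∧ l < D.a j)).card) (φ : ℕ) (s : Finset J) :
    ∃ x : J → α, (∀ j, x j = D.b j ∨ x j = D.a j) ∧ ∀ j ∈ s, Even (D.cnt L s x (x j) + φ) := by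
  classical
  refine Finset.induction_on_max_value (s := s) (motive := fun s => ∃ x : J → α,
    (∀ j, x j = D.b j ∨ x j = D.a j) ∧ ∀ j ∈ s, Even (D.cnt L s x (x j) + φ)) D.b
    ⟨D.b, fun j => Or.inl rfl, fun j hj => absurd hj (Finset.notMem_empty j)⟩ ?_
  intro j s hj hmax ⟨x, hx, hev⟩
  have hlt : ∀ i ∈ s, D.b i < D.b j := fun i hi =>
    lt_of_le_of_ne (hmax i hi) (fun h => hj (D.b_inj h ▸ hi))
  -- the earlier docks have no letter in `[b j, a j)`
  have hout : ∀ i ∈ s, ∀ z, z = D.y i ∨ z = x i → (z < D.a j ↔ z < D.b j) := by
    intro i hi z hz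
    have hba := D.b_lt_a j
    have hbi := hlt i hi
    rcases D.cross i j hbi with h | ⟨h, h'⟩
    · have h1 : z < D.b j := by
        rcases hz with rfl | rfl
        · exact (D.y_lt_a i).trans h
        · rcases hx i with h2 | h2
          · rw [h2]; exact hbi
          · rw [h2]; exact h
      exact ⟨fun _ => h1, fun _ => h1.trans hba⟩
    · rcases hz with rfl | rfl
      · rcases h' with h' | h'
        · exact ⟨fun _ => h', fun _ => h'.trans hba⟩
        · exact ⟨fun h2 => absurd h2 (not_lt.2 h'.le),
            fun h2 => absurd (h2.trans hba) (not_lt.2 h'.le)⟩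
      · rcases hx i with h2 | h2
        · rw [h2]
          exact ⟨fun _ => hbi, fun _ => hbi.trans hba⟩
        · rw [h2]
          exact ⟨fun h3 => absurd h3 (not_lt.2 h.le),
            fun h3 => absurd (h3.trans hba) (not_lt.2 h.le)⟩
  -- so the count at `a j` is the count at `b j`, up to an even number
  have hab : ∃ e, D.cnt L s x (D.a j) = D.cnt L s x (D.b j) + 2 * e := by
    obtain ⟨e, he⟩ := hL j
    refine ⟨e, ?_⟩
    have e1 : s.filter (fun i => D.y i < D.a j) = s.filter (fun i => D.y i < D.b j) :=
      Finset.filter_congr fun i hi => hout i hi _ (Or.inl rfl)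
    have e2 : s.filter (fun i => x i < D.a j) = s.filter (fun i => x i < D.b j) :=
      Finset.filter_congr fun i hi => hout i hi _ (Or.inr rfl)
    have e3 : (L.filter (fun l => l < D.a j)).card =
        (L.filter (fun l => l < D.b j)).card + (L.filter (fun l => D.b j ≤ l ∧ l < D.a j)).card := by
      rw [← Finset.card_union_of_disjoint]
      · congr 1
        ext l
        simp only [Finset.mem_filter, Finset.mem_union]
        constructor
        · rintro ⟨h1, h2⟩
          rcases lt_or_ge l (D.b j) with h3 | h3
          · exact Or.inl ⟨h1, h3⟩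
          · exact Or.inr ⟨h1, h3, h2⟩
        · rintro (⟨h1, h2⟩ | ⟨h1, _, h2⟩)
          · exact ⟨h1, h2.trans (D.b_lt_a j)⟩
          · exact ⟨h1, h2⟩
      · rw [Finset.disjoint_left]
        intro l h1 h2
        exact absurd (Finset.mem_filter.1 h1).2 (not_lt.2 (Finset.mem_filter.1 h2).2.1)
    unfold cnt
    rw [e1, e2, e3, he]
    ring
  obtain ⟨e, he⟩ := hab
  -- the new choice
  set z : α := if Even (D.cnt L s x (D.b j) + φ) then D.b j else D.a j with hz
  have hzj : z = D.b j ∨ z = D.a j := by
    rw [hz]; split_ifs <;> simp
  refine ⟨Function.update x j z, fun i => ?_, fun i hi => ?_⟩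
  · rcases eq_or_ne i j with rfl | h
    · rw [Function.update_self]; exact hzj
    · rw [Function.update_of_ne h]; exact hx i
  -- the count with the new dock
  have hcnt : ∀ t, D.cnt L (insert j s) (Function.update x j z) t =
      D.cnt L s x t + ((if D.y j < t then 1 else 0) + if z < t then 1 else 0) := by
    intro t
    unfold cnt
    rw [card_insert hj, card_insert hj, Function.update_self]
    have e1 : s.filter (fun i => Function.update x j z i < t) = s.filter (fun i => x i < t) :=
      Finset.filter_congr fun i hi => by
        have hne : i ≠ j := fun h => hj (h ▸ hi)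
        rw [Function.update_of_ne hne]
    rw [e1]
    ring
  rw [hcnt]
  rcases Finset.mem_insert.1 hi with rfl | hi
  · rw [Function.update_self, if_neg (lt_irrefl z)]
    rw [hz]
    split_ifs with h1 h2 h2
    · exact absurd h2 (not_lt.2 (D.b_lt_y i).le)
    · simpa using h1
    · rw [he]
      rw [Nat.not_even_iff_odd] at h1
      have h3 : D.cnt L s x (D.b i) + 2 * e + (1 + 0) + φ =
          (D.cnt L s x (D.b i) + φ) + 1 + 2 * e := by ring
      rw [h3]
      exact (h1.add_odd odd_one).add (even_two_mul e)
    · exact absurd (D.y_lt_a i) h2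
  · have hij : i ≠ j := fun h => hj (h ▸ hi)
    rw [Function.update_of_ne hij]
    have h1 := hev i hi
    -- both letters of `j` are before `x i`, or both are not
    have h2 : (D.y j < x i ↔ z < x i) := by
      have hbi := hlt i hi
      have hyj := D.b_lt_y j
      have hya := D.y_lt_a j
      rcases hx i with h3 | h3
      · rw [h3]
        constructor
        · intro h4
          exact absurd (hyj.trans h4) (not_lt.2 hbi.le)
        · intro h4
          rcases hzj with h5 | h5
          · rw [h5] at h4
            exact absurd h4 (not_lt.2 hbi.le)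
          · rw [h5] at h4
            exact hya.trans h4
      · rw [h3]
        rcases D.cross i j hbi with h | ⟨h, _⟩
        · constructor
          · intro h4
            exact absurd ((hyj.trans h4).trans h) (lt_irrefl _)
          · intro h4
            rcases hzj with h5 | h5
            · rw [h5] at h4
              exact absurd (h4.trans h) (lt_irrefl _)
            · rw [h5] at h4
              exact hya.trans h4
        · refine ⟨fun _ => ?_, fun _ => hya.trans h⟩
          rcases hzj with h5 | h5
          · rw [h5]; exact (hyj.trans hya).trans h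
          · rw [h5]; exact h
    by_cases h3 : z < x i
    · rw [if_pos (h2.2 h3), if_pos h3]
      have h4 : D.cnt L s x (x i) + (1 + 1) + φ = (D.cnt L s x (x i) + φ) + 2 := by ring
      rw [h4]
      exact h1.add even_two
    · rw [if_neg (fun h => h3 (h2.1 h)), if_neg h3]
      simpa using h1

variable (D)

/-- the used letters -/
def used [Fintype J] [DecidableEq α] (x : J → α) (L : Finset α) : Finset α :=
  Finset.univ.image D.y ∪ Finset.univ.image x ∪ L

variable {D}

private theorem x_ne {x : J → α} (hx : ∀ j, x j = D.b j ∨ x j = D.a j) :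
    Function.Injective x ∧ ∀ i j, D.y i ≠ x j := by
  constructor
  · intro i j h
    rcases hx i with h1 | h1 <;> rcases hx j with h2 | h2 <;> rw [h1, h2] at h
    · exact D.b_inj h
    · exact absurd h (D.b_ne_a _ _)
    · exact absurd h.symm (D.b_ne_a _ _)
    · exact D.a_inj h
  · intro i j h
    rcases hx j with h1 | h1 <;> rw [h1] at h
    · exact D.y_ne_b _ _ h
    · exact D.y_ne_a _ _ h

private theorem cnt_eq [Fintype J] [DecidableEq α] {L : Finset α} {x : J → α}
    (hx : ∀ j, x j = D.b j ∨ x j = D.a j)
    (hLd : ∀ j, D.b j ∉ L ∧ D.y j ∉ L ∧ D.a j ∉ L) (t : α) :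
    D.cnt L Finset.univ x t = ((D.used x L).filter (fun u => u < t)).card := by
  classical
  obtain ⟨hinj, hne⟩ := x_ne hx
  have hxL : ∀ j, x j ∉ L := fun j => by
    rcases hx j with h | h <;> rw [h]
    · exact (hLd j).1
    · exact (hLd j).2.2
  unfold used
  rw [Finset.filter_union, Finset.filter_union, Finset.card_union_of_disjoint,
    Finset.card_union_of_disjoint]
  · rw [Finset.filter_image, Finset.filter_image, Finset.card_image_of_injective _ D.y_inj,
      Finset.card_image_of_injective _ hinj]
    rfl
  · rw [Finset.disjoint_left]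
    intro u h1 h2
    obtain ⟨i, _, hi⟩ := Finset.mem_image.1 (Finset.mem_filter.1 h1).1
    obtain ⟨j, _, hj⟩ := Finset.mem_image.1 (Finset.mem_filter.1 h2).1
    exact hne i j (hi.trans hj.symm)
  · rw [Finset.disjoint_left]
    intro u h1 h2
    have h3 := (Finset.mem_filter.1 h2).1
    rcases Finset.mem_union.1 h1 with h1 | h1
    · obtain ⟨i, _, hi⟩ := Finset.mem_image.1 (Finset.mem_filter.1 h1).1
      exact (hLd i).2.1 (hi ▸ h3)
    · obtain ⟨i, _, hi⟩ := Finset.mem_image.1 (Finset.mem_filter.1 h1).1
      exact hxL i (hi ▸ h3)

/-- **the parity rule** -/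
theorem parity_rule [Fintype J] [DecidableEq α] (D : Docks J α) {L : Finset α}
    (hL : ∀ j, Even (L.filter (fun l => D.b j < l ∧ l < D.a j)).card)
    (hLd : ∀ j, D.b j ∉ L ∧ D.y j ∉ L ∧ D.a j ∉ L) (φ : ℕ) :
    ∃ x : J → α, (∀ j, x j = D.b j ∨ x j = D.a j) ∧
      ∀ j, Even (((D.used x L).filter (fun u => u < x j)).card + φ) := by
  classical
  have hL' : ∀ j, Even (L.filter (fun l => D.b j ≤ l ∧ l < D.a j)).card := by
    intro j
    have e : L.filter (fun l => D.b j ≤ l ∧ l < D.a j) =
        L.filter (fun l => D.b j < l ∧ l < D.a j) :=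
      Finset.filter_congr fun l hl => by
        constructor
        · rintro ⟨h1, h2⟩
          exact ⟨lt_of_le_of_ne h1 (fun h => (hLd j).1 (h ▸ hl)), h2⟩
        · rintro ⟨h1, h2⟩
          exact ⟨h1.le, h2⟩
    rw [e]
    exact hL j
  obtain ⟨x, hx, h⟩ := D.exists_choice hL' φ Finset.univ
  refine ⟨x, hx, fun j => ?_⟩
  rw [← cnt_eq hx hLd]
  exact h j (Finset.mem_univ j)

/-- an odd number of used letters stands strictly between two used ports -/
theorem odd_between [Fintype J] [DecidableEq α] {L : Finset α} {x : J → α} {φ : ℕ}
    (h : ∀ j, Even (((D.used x L).filter (fun u => u < x j)).card + φ)) {i j : J}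
    (hij : x i < x j) :
    Odd ((D.used x L).filter (fun u => x i < u ∧ u < x j)).card := by
  classical
  have hi : x i ∈ D.used x L := by
    unfold used
    exact Finset.mem_union_left _ (Finset.mem_union_right _
      (Finset.mem_image_of_mem _ (Finset.mem_univ i)))
  have e : (D.used x L).filter (fun u => u < x j) =
      (D.used x L).filter (fun u => u < x i) ∪
        insert (x i) ((D.used x L).filter (fun u => x i < u ∧ u < x j)) := by
    ext u
    simp only [Finset.mem_filter, Finset.mem_union, Finset.mem_insert]
    constructor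
    · rintro ⟨h1, h2⟩
      rcases lt_trichotomy u (x i) with h3 | h3 | h3
      · exact Or.inl ⟨h1, h3⟩
      · exact Or.inr (Or.inl h3)
      · exact Or.inr (Or.inr ⟨h1, h3, h2⟩)
    · rintro (⟨h1, h2⟩ | h1 | ⟨h1, _, h2⟩)
      · exact ⟨h1, h2.trans hij⟩
      · rw [h1]; exact ⟨hi, hij⟩
      · exact ⟨h1, h2⟩
  have e2 : ((D.used x L).filter (fun u => u < x j)).card =
      ((D.used x L).filter (fun u => u < x i)).card +
        (((D.used x L).filter (fun u => x i < u ∧ u < x j)).card + 1) := by
    rw [e, Finset.card_union_of_disjoint, Finset.card_insert_of_notMem]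
    · intro h1
      exact absurd (Finset.mem_filter.1 h1).2.1 (lt_irrefl _)
    · rw [Finset.disjoint_left]
      intro u h1 h2
      have h3 := (Finset.mem_filter.1 h1).2
      rcases Finset.mem_insert.1 h2 with h4 | h4
      · rw [h4] at h3
        exact absurd h3 (lt_irrefl _)
      · exact absurd (h3.trans (Finset.mem_filter.1 h4).2.1) (lt_irrefl _)
  have h1 := h i
  have h2 := h j
  rw [e2] at h2
  rw [Nat.even_add] at h1 h2
  rw [Nat.even_add, Nat.even_add_one] at h2
  rw [← Nat.not_even_iff_odd]
  tauto

/-- if the letters between two used ports are distributed to items, one item is odd -/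
theorem odd_item [Fintype J] [DecidableEq α] {L : Finset α} {x : J → α} {φ : ℕ}
    (h : ∀ j, Even (((D.used x L).filter (fun u => u < x j)).card + φ)) {i j : J}
    (hij : x i < x j) {ι : Type*} (I : Finset ι) (S : ι → Finset α)
    (hdis : ∀ m ∈ I, ∀ n ∈ I, m ≠ n → Disjoint (S m) (S n))
    (hcov : (D.used x L).filter (fun u => x i < u ∧ u < x j) = I.biUnion S) :
    ∃ m ∈ I, Odd (S m).card := by
  classical
  by_contra hcon
  push Not at hcon
  have h1 := odd_between h hij
  rw [hcov, Finset.card_biUnion hdis] at h1
  rw [← Nat.not_even_iff_odd] at h1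
  apply h1
  exact Finset.even_sum _ (fun m hm => Nat.not_odd_iff_even.1 (hcon m hm))

/-- the other letters are the ends `p k`, `q k` of chords which do not cross the docks -/
theorem even_ends [DecidableEq α] {K : Type*} [Fintype K] {p q : K → α}
    (hp : Function.Injective p) (hq : Function.Injective q) (hpq : ∀ k l, p k ≠ q l) {u v : α}
    (hc : ∀ k, (u < p k ∧ p k < v) ↔ (u < q k ∧ q k < v)) :
    Even ((Finset.univ.image p ∪ Finset.univ.image q).filter (fun l => u < l ∧ l < v)).card := by
  classical
  rw [Finset.filter_union, Finset.card_union_of_disjoint]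
  · rw [Finset.filter_image, Finset.filter_image, Finset.card_image_of_injective _ hp,
      Finset.card_image_of_injective _ hq]
    have e : Finset.univ.filter (fun k => u < q k ∧ q k < v) =
        Finset.univ.filter (fun k => u < p k ∧ p k < v) :=
      Finset.filter_congr fun k _ => (hc k).symm
    rw [e]
    exact Even.add_self _
  · rw [Finset.disjoint_left]
    intro l h1 h2
    obtain ⟨k, _, hk⟩ := Finset.mem_image.1 (Finset.mem_filter.1 h1).1
    obtain ⟨k', _, hk'⟩ := Finset.mem_image.1 (Finset.mem_filter.1 h2).1
    exact hpq k k' (hk.trans hk'.symm)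

end Docks

end Pool.Agent.MP42.U
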