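import Pool.Agent.MP42.U.Block
import Pool.Agent.MP42.U.Par
import Pool.Agent.MP42.U.Dec

/-!
# Project MP42: the tree side of (O1)

`Inst C J α`: a plane rooted tree in contour order with classes `cls` (E: reading order = contour
order), real / not real own links, omitted docks `b < y < a`, other chords (`L0`, `mate`), the port
`xN z` of the own dock of `z` (the first item read).
`Inst.Reading`: a choice `x` of the ports and for every circle the list `rd z` of its items in reading
order, cut into units.  `Inst.exists_reading`: the parity rule.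
`Inst.Reading.conn`: a function on the items with the property `MI` on every circle is constant.
-/

set_option autoImplicit false
set_option linter.unusedSectionVars false

namespace Pool.Agent.MP42.U

/-- the data of the tree side -/
structure Inst (C J α : Type*) [LinearOrder α] extends Contour C α, Docks J α where
  /-- class E -/
  cls : C → Prop
  /-- the own link is real -/
  real : C → Prop
  cls_b : ∀ j, cls (pt (b j))
  cls_a : ∀ j, ¬ cls (pt (a j))
  /-- subtrees hanging on a link which is not real consist of whole clusters -/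
  clu : ∀ c, c ≠ r → ¬ real c → ∀ j, (lo c ≤ b j ∧ b j ≤ hi c) ↔ (lo c ≤ a j ∧ a j ≤ hi c)
  /-- the other used letters -/
  L0 : Finset α
  mate : α → α
  mate_mem : ∀ q ∈ L0, mate q ∈ L0
  mate_mate : ∀ q ∈ L0, mate (mate q) = q
  mate_ne : ∀ q ∈ L0, mate q ≠ q
  mate_in : ∀ j, ∀ q ∈ L0, b j < q → q < a j → b j < mate q ∧ mate q < a j
  b_L0 : ∀ j, b j ∉ L0
  y_L0 : ∀ j, y j ∉ L0
  a_L0 : ∀ j, a j ∉ L0
  /-- the port of the own dock -/
  xN : C → Option α
  xN_root : xN r = none
  xN_mem : ∀ z, ∀ p ∈ xN z, p ∈ L0 ∧ pt p = z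
  xN_pt : ∀ z, ∀ p ∈ xN z, ∀ q, pt q = z → (q ∈ L0 ∨ ∃ j, q = b j ∨ q = y j ∨ q = a j) →
    q ≠ p → (cls z → p < q) ∧ (¬ cls z → q < p)
  xN_ch : ∀ z, ∀ p ∈ xN z, ∀ c, c ≠ r → par c = z → (cls z → p < lo c) ∧ (¬ cls z → hi c < p)

namespace Inst

variable {C J α : Type*} [LinearOrder α] (G : Inst C J α)

/-- `i` is read before `i'` on the circle `z` -/
def Bef (z : C) (i i' : α ⊕ C) : Prop :=
  (G.cls z → G.ihi i < G.ilo i') ∧ (¬ G.cls z → G.ihi i' < G.ilo i)

/-- a used omitted port -/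
def Po (x : J → α) (i : α ⊕ C) : Prop := ∃ j, i = Sum.inl (x j)

/-- an odd item -/
def Od (L : Finset α) (i : α ⊕ C) : Prop := Odd (G.lt L i).card

/-- the condition of a circle: `o` = value of the own link, `b` = value of the fused strand -/
def MI (xn : Option α) (p : Option (List (α ⊕ C) × (α ⊕ C))) (us : List (It (α ⊕ C)))
    (o : ZMod 2) (val : α ⊕ C → ZMod 2) : Prop :=
  ∃ b, (xn = none ∨ p = none → b = o) ∧ (∀ x ∈ xn, val (Sum.inl x) = b) ∧
    (∀ q ∈ p, val q.2 = b ∧ ∀ i ∈ q.1, val i = b) ∧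
    ∀ u ∈ us, match u with
      | It.ev i => val i = o ∨ ((∀ c, i = Sum.inr c → ¬ G.real c) ∧ val i = b)
      | It.fr i => val i = o
      | It.br f m x => val f = val x ∧ ∀ i ∈ m, val i = val x

/-- the front part of a circle -/
def front (xn : Option α) (p : Option (List (α ⊕ C) × (α ⊕ C))) : List (α ⊕ C) :=
  (xn.elim [] fun x => [Sum.inl x]) ++ (p.elim [] fun q => q.1 ++ [q.2])

variable [Fintype C] [Fintype J] [DecidableEq α]

/-- ports and units -/
structure Reading where
  x : J → α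
  hx : ∀ j, x j = G.b j ∨ x j = G.a j
  p : C → Option (List (α ⊕ C) × (α ⊕ C))
  us : C → List (It (α ⊕ C))
  rd : C → List (α ⊕ C)
  rd_eq : ∀ z, rd z = front (G.xN z) (p z) ++ (us z).flatMap It.fl
  nodup : ∀ z, (rd z).Nodup
  mem_rd : ∀ z i, i ∈ rd z ↔ i ∈ G.items (G.used x G.L0) z
  bef : ∀ z, (rd z).Pairwise (G.Bef z)
  p_spec : ∀ z, ∀ q ∈ p z, (∀ i ∈ q.1, ¬ G.Od (G.used x G.L0) i) ∧ Po x q.2
  us_spec : ∀ z, ∀ u ∈ us z, u.Good (G.Od (G.used x G.L0)) (Po x)

/-! ### Letters -/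

lemma b_lt_a (j : J) : G.b j < G.a j := (G.b_lt_y j).trans (G.y_lt_a j)

lemma mem_used {x : J → α} {q : α} : q ∈ G.used x G.L0 ↔
    (∃ j, q = G.y j) ∨ (∃ j, q = x j) ∨ q ∈ G.L0 := by
  simp only [Docks.used, Finset.mem_union, Finset.mem_image, Finset.mem_univ, true_and,
    eq_comm (a := q), or_assoc]

lemma mem_items' {L : Finset α} {z : C} {i : α ⊕ C} :
    i ∈ G.items L z ↔ (∀ p, i = Sum.inl p → p ∈ L) ∧ G.host i = z ∧ i ≠ Sum.inr G.r :=
  G.toContour.mem_items

lemma od_letter {L : Finset α} {p : α} (hp : p ∈ L) : G.Od L (Sum.inl p : α ⊕ C) := by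
  unfold Od
  rw [G.lt_inl hp, Finset.card_singleton]; exact odd_one

lemma letter_of_od {L : Finset α} {p : α} (h : G.Od L (Sum.inl p : α ⊕ C)) : p ∈ L := by
  obtain ⟨q, hq⟩ := Finset.card_pos.1 h.pos
  obtain ⟨h1, h2, h3⟩ := G.mem_lt.1 hq
  simp only [Contour.ilo_inl, Contour.ihi_inl] at h2 h3
  rwa [le_antisymm h3 h2] at h1

/-- the two ends of the chord of a dock are on the same side of every dock interval -/
lemma in_iff {x : J → α} (hx : ∀ j, x j = G.b j ∨ x j = G.a j) (i j : J) :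
    (G.b i ≤ G.y j ∧ G.y j ≤ G.a i) ↔ (G.b i ≤ x j ∧ x j ≤ G.a i) := by
  have h1 := G.b_lt_y j
  have h2 := G.y_lt_a j
  have h3 := G.b_lt_a i
  have hxj : G.b j ≤ x j ∧ x j ≤ G.a j := by
    rcases hx j with h | h <;> rw [h]
    · exact ⟨le_rfl, (h1.trans h2).le⟩
    · exact ⟨(h1.trans h2).le, le_rfl⟩
  rcases eq_or_ne i j with rfl | hij
  · exact ⟨fun _ => hxj, fun _ => ⟨h1.le, h2.le⟩⟩
  · rcases lt_or_gt_of_ne (fun h => hij (G.b_inj h)) with h | h
    · rcases G.cross i j h with h4 | ⟨h4, -⟩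
      · constructor
        · rintro ⟨-, h5⟩
          exact absurd (h4.trans h1) (not_lt.2 h5)
        · rintro ⟨-, h5⟩
          exact absurd (h4.trans_le hxj.1) (not_lt.2 h5)
      · exact ⟨fun _ => ⟨h.le.trans hxj.1, hxj.2.trans h4.le⟩,
          fun _ => ⟨(h.trans h1).le, (h2.trans h4).le⟩⟩
    · rcases G.cross j i h with h4 | ⟨h4, h5⟩
      · constructor
        · rintro ⟨h6, -⟩
          exact absurd (h2.trans h4) (not_lt.2 h6)
        · rintro ⟨h6, -⟩
          exact absurd (hxj.2.trans_lt h4) (not_lt.2 h6)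
      · constructor
        · rintro ⟨h6, h7⟩
          rcases h5 with h5 | h5
          · exact absurd h5 (not_lt.2 h6)
          · exact absurd h5 (not_lt.2 h7)
        · rintro ⟨h6, h7⟩
          rcases hx j with h8 | h8
          · rw [h8] at h6
            exact absurd h (not_lt.2 h6)
          · rw [h8] at h7
            exact absurd h4 (not_lt.2 h7)

lemma sum_used {x : J → α} (hx : ∀ j, x j = G.b j ∨ x j = G.a j) (W : α → ZMod 2)
    (hW : ∀ j, W (G.y j) = W (x j)) (hm : ∀ q ∈ G.L0, W (G.mate q) = W q) (i : J) :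
    ∑ q ∈ G.used x G.L0 with (G.b i ≤ q ∧ q ≤ G.a i), W q = 0 := by
  have hxi : Function.Injective x := by
    intro j k h
    rcases hx j with h1 | h1 <;> rcases hx k with h2 | h2 <;> rw [h1, h2] at h
    · exact G.b_inj h
    · exact absurd h (G.b_ne_a _ _)
    · exact absurd h.symm (G.b_ne_a _ _)
    · exact G.a_inj h
  have hyx : ∀ j k, G.y j ≠ x k := by
    intro j k h
    rcases hx k with h1 | h1 <;> rw [h1] at h
    · exact G.y_ne_b _ _ h
    · exact G.y_ne_a _ _ h
  have hxL : ∀ j, x j ∉ G.L0 := by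
    intro j
    rcases hx j with h | h <;> rw [h]
    · exact G.b_L0 j
    · exact G.a_L0 j
  unfold Docks.used
  rw [Finset.filter_union, Finset.filter_union, Finset.sum_union, Finset.sum_union]
  · have e1 : ∑ q ∈ (Finset.univ.image G.y).filter (fun q => G.b i ≤ q ∧ q ≤ G.a i), W q =
        ∑ j with (G.b i ≤ G.y j ∧ G.y j ≤ G.a i), W (G.y j) := by
      rw [Finset.filter_image, Finset.sum_image (fun _ _ _ _ h => G.y_inj h)]
    have e2 : ∑ q ∈ (Finset.univ.image x).filter (fun q => G.b i ≤ q ∧ q ≤ G.a i), W q =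
        ∑ j with (G.b i ≤ x j ∧ x j ≤ G.a i), W (x j) := by
      rw [Finset.filter_image, Finset.sum_image (fun _ _ _ _ h => hxi h)]
    have e3 : ∑ j with (G.b i ≤ G.y j ∧ G.y j ≤ G.a i), W (G.y j) =
        ∑ j with (G.b i ≤ x j ∧ x j ≤ G.a i), W (x j) := by
      refine Finset.sum_congr ?_ fun j _ => hW j
      exact Finset.filter_congr fun j _ => G.in_iff hx i j
    have e4 : ∑ q ∈ G.L0 with (G.b i ≤ q ∧ q ≤ G.a i), W q = 0 := by
      refine (clo_of_chords (V := W) G.mate G.mate_mem G.mate_mate G.mate_ne hm ?_).1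
      intro q hq h1 h2
      have h3 : G.b i < q := lt_of_le_of_ne h1 (fun h => G.b_L0 i (by rw [h]; exact hq))
      have h4 : q < G.a i := lt_of_le_of_ne h2 (fun h => G.a_L0 i (by rw [← h]; exact hq))
      obtain ⟨h5, h6⟩ := G.mate_in i q hq h3 h4
      exact ⟨h5.le, h6.le⟩
    rw [e1, e2, e3, e4, add_zero]
    exact Graph.b_add _
  · rw [Finset.disjoint_left]
    intro q h1 h2
    obtain ⟨j, -, h3⟩ := Finset.mem_image.1 (Finset.mem_filter.1 h1).1
    obtain ⟨k, -, h4⟩ := Finset.mem_image.1 (Finset.mem_filter.1 h2).1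
    exact hyx j k (h3.trans h4.symm)
  · rw [Finset.disjoint_left]
    intro q h1 h2
    have h3 := (Finset.mem_filter.1 h2).1
    rcases Finset.mem_union.1 (Finset.mem_filter.1 (by
        simpa [Finset.filter_union] using h1 : q ∈ Finset.filter
          (fun q => G.b i ≤ q ∧ q ≤ G.a i) (Finset.univ.image G.y ∪ Finset.univ.image x))).1
      with h4 | h4
    · obtain ⟨j, -, h5⟩ := Finset.mem_image.1 h4
      exact G.y_L0 j (by rw [h5]; exact h3)
    · obtain ⟨j, -, h5⟩ := Finset.mem_image.1 h4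
      exact hxL j (by rw [h5]; exact h3)

namespace Reading

variable {G} (R : G.Reading)

/-- the used letters -/
abbrev L : Finset α := G.used R.x G.L0

lemma x_mem (j : J) : R.x j ∈ R.L := G.mem_used.2 (Or.inr (Or.inl ⟨j, rfl⟩))

lemma L0_mem {q : α} (hq : q ∈ G.L0) : q ∈ R.L := G.mem_used.2 (Or.inr (Or.inr hq))

/-- the two members of a pair, in reading order -/
def Pr (z : C) (i i' : α ⊕ C) : Prop :=
  (∃ m, It.br i m i' ∈ R.us z) ∨ ∃ x ∈ G.xN z, ∃ q ∈ R.p z, i = Sum.inl x ∧ i' = q.2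

/-- the segments of a circle -/
def segs (z : C) : List (List (α ⊕ C)) := front (G.xN z) (R.p z) :: (R.us z).map It.fl

lemma rd_flatten (z : C) : R.rd z = (R.segs z).flatten := by
  rw [R.rd_eq z, segs, List.flatten_cons, List.flatMap_def]

lemma seg_bef (z : C) : (∀ s ∈ R.segs z, s.Pairwise (G.Bef z)) ∧
    (R.segs z).Pairwise fun s t => ∀ a ∈ s, ∀ b ∈ t, G.Bef z a b := by
  have h := R.bef z
  rw [R.rd_flatten z, List.pairwise_flatten] at h
  exact h

lemma pr_seg {z : C} {i i' : α ⊕ C} (h : R.Pr z i i') : ∃ m, i :: (m ++ [i']) ∈ R.segs z := by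
  rcases h with ⟨m, hm⟩ | ⟨x, hx, q, hq, rfl, rfl⟩
  · exact ⟨m, List.mem_cons_of_mem _ (List.mem_map.2 ⟨_, hm, rfl⟩)⟩
  · refine ⟨q.1, ?_⟩
    unfold segs front
    rw [Option.mem_def.1 hx, Option.mem_def.1 hq]
    exact List.mem_cons_self

lemma seg_mem {z : C} {s : List (α ⊕ C)} (hs : s ∈ R.segs z) {i : α ⊕ C} (hi : i ∈ s) :
    i ∈ R.rd z := by
  rw [R.rd_flatten z]
  exact List.mem_flatten.2 ⟨s, hs, hi⟩

lemma seg_mid {z : C} {i i' : α ⊕ C} {m : List (α ⊕ C)} (hs : i :: (m ++ [i']) ∈ R.segs z) :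
    G.Bef z i i' ∧ ∀ k ∈ m, G.Bef z i k ∧ G.Bef z k i' := by
  have h := (R.seg_bef z).1 _ hs
  rw [List.pairwise_cons, List.pairwise_append] at h
  obtain ⟨h1, -, -, h2⟩ := h
  refine ⟨h1 i' (by simp), fun k hk => ⟨h1 k (by simp [hk]), h2 k hk i' (by simp)⟩⟩

lemma pr_host {z : C} {i i' : α ⊕ C} (h : R.Pr z i i') :
    (G.host i = z ∧ i ≠ Sum.inr G.r) ∧ (G.host i' = z ∧ i' ≠ Sum.inr G.r) := by
  obtain ⟨m, hm⟩ := R.pr_seg h
  have h1 := (R.mem_rd z i).1 (R.seg_mem hm (by simp))
  have h2 := (R.mem_rd z i').1 (R.seg_mem hm (by simp))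
  exact ⟨(G.mem_items'.1 h1).2, (G.mem_items'.1 h2).2⟩

lemma pr_od {z : C} {i i' : α ⊕ C} (h : R.Pr z i i') :
    G.Od R.L i ∧ Po R.x i' := by
  rcases h with ⟨m, hm⟩ | ⟨x, hx, q, hq, rfl, rfl⟩
  · have h1 := R.us_spec z _ hm
    exact ⟨h1.1, h1.2.2.2⟩
  · exact ⟨G.od_letter (R.L0_mem (G.xN_mem z x hx).1), (R.p_spec z q hq).2⟩

lemma po_od {i : α ⊕ C} (h : Po R.x i) : G.Od R.L i := by
  obtain ⟨j, rfl⟩ := h
  exact G.od_letter (R.x_mem j)

/-- two pairs of one circle -/
lemma pr_disj {z : C} {i i' k k' : α ⊕ C} (h : R.Pr z i i') (h' : R.Pr z k k')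
    (hne : ¬ (i = k ∧ i' = k')) : G.Bef z i' k ∨ G.Bef z k' i := by
  obtain ⟨m, hm⟩ := R.pr_seg h
  obtain ⟨n, hn⟩ := R.pr_seg h'
  have hs : i :: (m ++ [i']) ≠ k :: (n ++ [k']) := by
    intro h1
    obtain ⟨h2, h3⟩ := List.cons.inj h1
    have h4 := List.append_inj' h3 (by simp)
    exact hne ⟨h2, by simpa using h4.2⟩
  have hp : (R.segs z).Pairwise fun s t => (∀ a ∈ s, ∀ b ∈ t, G.Bef z a b) ∨
      (∀ a ∈ t, ∀ b ∈ s, G.Bef z a b) := (R.seg_bef z).2.imp fun h => Or.inl h
  have : Std.Symm fun s t : List (α ⊕ C) => (∀ a ∈ s, ∀ b ∈ t, G.Bef z a b) ∨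
      (∀ a ∈ t, ∀ b ∈ s, G.Bef z a b) := ⟨fun s t h => h.symm⟩
  rcases hp.forall hm hn hs with h1 | h1
  · exact Or.inl (h1 i' (by simp) k (by simp))
  · exact Or.inr (h1 k' (by simp) i (by simp))

/-- the type of the pairs -/
def Q : Type _ := {q : C × (α ⊕ C) × (α ⊕ C) // R.Pr q.1 q.2.1 q.2.2}

lemma finite_Q : Finite R.Q := by
  have hF : {i | ∃ z, i ∈ R.rd z}.Finite := by
    have : {i | ∃ z, i ∈ R.rd z} = ⋃ z, {i | i ∈ R.rd z} := by ext i; simp
    rw [this]
    exact Set.finite_iUnion fun z => List.finite_toSet _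
  have : {q : C × (α ⊕ C) × (α ⊕ C) | R.Pr q.1 q.2.1 q.2.2}.Finite := by
    refine (Set.Finite.prod Set.finite_univ (Set.Finite.prod hF hF)).subset ?_
    rintro ⟨z, i, i'⟩ h
    obtain ⟨m, hm⟩ := R.pr_seg h
    exact ⟨trivial, ⟨z, R.seg_mem hm (by simp)⟩, ⟨z, R.seg_mem hm (by simp)⟩⟩
  exact this

open Classical in
/-- first member in contour order -/
noncomputable def fs (q : R.Q) : α ⊕ C := if G.cls q.1.1 then q.1.2.1 else q.1.2.2

open Classical in
/-- second member in contour order -/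
noncomputable def sn (q : R.Q) : α ⊕ C := if G.cls q.1.1 then q.1.2.2 else q.1.2.1

/-- the dock of the port of a pair -/
noncomputable def jn (q : R.Q) : J := (R.pr_od q.2).2.choose

lemma jn_spec (q : R.Q) : q.1.2.2 = Sum.inl (R.x (R.jn q)) := (R.pr_od q.2).2.choose_spec

lemma fs_pos {q : R.Q} (h : G.cls q.1.1) : R.fs q = q.1.2.1 := if_pos h
lemma fs_neg {q : R.Q} (h : ¬ G.cls q.1.1) : R.fs q = q.1.2.2 := if_neg h
lemma sn_pos {q : R.Q} (h : G.cls q.1.1) : R.sn q = q.1.2.2 := if_pos h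
lemma sn_neg {q : R.Q} (h : ¬ G.cls q.1.1) : R.sn q = q.1.2.1 := if_neg h

lemma rd_cases {z : C} {i : α ⊕ C} (h : i ∈ R.rd z) : (∃ x ∈ G.xN z, i = Sum.inl x) ∨
    (∃ q ∈ R.p z, i ∈ q.1 ∨ i = q.2) ∨ ∃ u ∈ R.us z, i ∈ u.fl := by
  rw [R.rd_eq z, front, List.mem_append, List.mem_append, List.mem_flatMap] at h
  rcases h with (h | h) | h
  · left
    cases hx : G.xN z with
    | none => rw [hx] at h; simp at h
    | some x => rw [hx] at h; exact ⟨x, rfl, by simpa using h⟩
  · right; left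
    cases hp : R.p z with
    | none => rw [hp] at h; simp at h
    | some q => rw [hp] at h; exact ⟨q, rfl, by simpa using h⟩
  · right; right; exact h

lemma pair_mem {z : C} {i i' : α ⊕ C} (h : R.Pr z i i') (k : α ⊕ C) (hk : k = i ∨ k = i') :
    ∃ q : R.Q, k = R.fs q ∨ k = R.sn q := by
  refine ⟨⟨(z, i, i'), h⟩, ?_⟩
  by_cases hc : G.cls z
  · rw [R.fs_pos (q := ⟨(z, i, i'), h⟩) hc, R.sn_pos (q := ⟨(z, i, i'), h⟩) hc]
    exact hk
  · rw [R.fs_neg (q := ⟨(z, i, i'), h⟩) hc, R.sn_neg (q := ⟨(z, i, i'), h⟩) hc]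
    exact hk.symm

/-- an even child with the value of a pair -/
lemma pair_even {z : C} {i i' : α ⊕ C} (h : R.Pr z i i') {val : α ⊕ C → ZMod 2} {c : C}
    (h1 : val (Sum.inr c) = val i) (h2 : val (Sum.inr c) = val i')
    (h3 : (G.Bef z i (Sum.inr c) ∧ G.Bef z (Sum.inr c) i') ∨
      ∀ j, (G.lo c ≤ G.b j ∧ G.b j ≤ G.hi c) ↔ (G.lo c ≤ G.a j ∧ G.a j ≤ G.hi c)) :
    ∃ q : R.Q, q.1.1 = z ∧ val (Sum.inr c) = val (R.sn q) ∧
      ((G.ihi (R.fs q) < G.lo c ∧ G.hi c < G.ilo (R.sn q)) ∨
        ∀ j, (G.lo c ≤ G.b j ∧ G.b j ≤ G.hi c) ↔ (G.lo c ≤ G.a j ∧ G.a j ≤ G.hi c)) := by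
  refine ⟨⟨(z, i, i'), h⟩, rfl, ?_, ?_⟩
  · by_cases hc : G.cls z
    · rw [R.sn_pos (q := ⟨(z, i, i'), h⟩) hc]; exact h2
    · rw [R.sn_neg (q := ⟨(z, i, i'), h⟩) hc]; exact h1
  · rcases h3 with ⟨h3, h4⟩ | h3
    · left
      by_cases hc : G.cls z
      · rw [R.fs_pos (q := ⟨(z, i, i'), h⟩) hc, R.sn_pos (q := ⟨(z, i, i'), h⟩) hc]
        exact ⟨h3.1 hc, h4.1 hc⟩
      · rw [R.fs_neg (q := ⟨(z, i, i'), h⟩) hc, R.sn_neg (q := ⟨(z, i, i'), h⟩) hc]
        exact ⟨h4.2 hc, h3.2 hc⟩
    · right; exact h3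

/-- the class graph -/
noncomputable def graph (val : α ⊕ C → ZMod 2)
    (hy : ∀ j, val (Sum.inl (G.y j)) = val (Sum.inl (R.x j)))
    (hm : ∀ q ∈ G.L0, val (Sum.inl (G.mate q)) = val (Sum.inl q))
    (hM : ∀ z, G.MI (G.xN z) (R.p z) (R.us z) (val (Sum.inr z)) val) :
    Graph C α R.Q J where
  toContour := G.toContour
  L := R.L
  val := val
  b := G.b
  a := G.a
  b_inj := G.b_inj
  a_inj := G.a_inj
  hba := G.b_lt_a
  nest := fun i j h => (G.cross i j h).imp id And.left
  one := by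
    intro j h1 h2
    have key : ∀ t, t ∈ R.L → (t = G.b j ∨ t = G.a j) → t = R.x j := by
      intro t ht h
      rcases G.mem_used.1 ht with ⟨k, hk⟩ | ⟨k, hk⟩ | hk
      · exfalso
        rcases h with h | h
        · exact G.y_ne_b k j (hk.symm.trans h)
        · exact G.y_ne_a k j (hk.symm.trans h)
      · rcases h with h | h <;> rcases R.hx k with h3 | h3
        · have : k = j := G.b_inj (h3.symm.trans (hk.symm.trans h))
          rw [hk, this]
        · exact absurd (h.symm.trans (hk.trans h3)) (G.b_ne_a j k)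
        · exact absurd (h3.symm.trans (hk.symm.trans h)) (G.b_ne_a k j)
        · have : k = j := G.a_inj (h3.symm.trans (hk.symm.trans h))
          rw [hk, this]
      · exfalso
        rcases h with h | h
        · exact G.b_L0 j (h ▸ hk)
        · exact G.a_L0 j (h ▸ hk)
    exact G.b_ne_a j j ((key _ h1 (Or.inl rfl)).trans (key _ h2 (Or.inr rfl)).symm)
  clo := fun j => G.sum_used R.hx (fun q => val (Sum.inl q)) hy hm j
  clo1 := by
    intro j
    have h := G.sum_used R.hx (fun _ => 1) (fun _ => rfl) (fun _ _ => rfl) j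
    rw [Finset.sum_const, nsmul_eq_mul, mul_one] at h
    exact (ZMod.natCast_eq_zero_iff_even).1 h
  cq := fun q => q.1.1
  fs := R.fs
  sn := R.sn
  E := fun q => G.cls q.1.1
  jn := R.jn
  fs_host := by
    intro q
    by_cases h : G.cls q.1.1
    · rw [R.fs_pos h]; exact (R.pr_host q.2).1.1
    · rw [R.fs_neg h]; exact (R.pr_host q.2).2.1
  sn_host := by
    intro q
    by_cases h : G.cls q.1.1
    · rw [R.sn_pos h]; exact (R.pr_host q.2).2.1
    · rw [R.sn_neg h]; exact (R.pr_host q.2).1.1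
  fs_ne := by
    intro q
    by_cases h : G.cls q.1.1
    · rw [R.fs_pos h]; exact (R.pr_host q.2).1.2
    · rw [R.fs_neg h]; exact (R.pr_host q.2).2.2
  sn_ne := by
    intro q
    by_cases h : G.cls q.1.1
    · rw [R.sn_pos h]; exact (R.pr_host q.2).2.2
    · rw [R.sn_neg h]; exact (R.pr_host q.2).1.2
  fs_odd := by
    intro q
    by_cases h : G.cls q.1.1
    · rw [R.fs_pos h]; exact (R.pr_od q.2).1
    · rw [R.fs_neg h]; exact R.po_od (R.pr_od q.2).2
  sn_odd := by
    intro q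
    by_cases h : G.cls q.1.1
    · rw [R.sn_pos h]; exact R.po_od (R.pr_od q.2).2
    · rw [R.sn_neg h]; exact (R.pr_od q.2).1
  fs_sn := by
    intro q
    obtain ⟨m, hm⟩ := R.pr_seg q.2
    have h1 := (R.seg_mid hm).1
    by_cases h : G.cls q.1.1
    · rw [R.fs_pos h, R.sn_pos h]; exact h1.1 h
    · rw [R.fs_neg h, R.sn_neg h]; exact h1.2 h
  qdisj := by
    rintro ⟨⟨z, i, i'⟩, h⟩ ⟨⟨z', k, k'⟩, h'⟩ hne hz
    simp only at hz
    subst hz
    have hne' : ¬ (i = k ∧ i' = k') := by
      rintro ⟨rfl, rfl⟩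
      exact hne rfl
    by_cases hc : G.cls z
    · rw [R.sn_pos (q := ⟨(z, i, i'), h⟩) hc, R.fs_pos (q := ⟨(z, k, k'), h'⟩) hc,
        R.sn_pos (q := ⟨(z, k, k'), h'⟩) hc, R.fs_pos (q := ⟨(z, i, i'), h⟩) hc]
      rcases R.pr_disj h h' hne' with h1 | h1
      · exact Or.inl (h1.1 hc)
      · exact Or.inr (h1.1 hc)
    · rw [R.sn_neg (q := ⟨(z, i, i'), h⟩) hc, R.fs_neg (q := ⟨(z, k, k'), h'⟩) hc,
        R.sn_neg (q := ⟨(z, k, k'), h'⟩) hc, R.fs_neg (q := ⟨(z, i, i'), h⟩) hc]
      rcases R.pr_disj h h' hne' with h1 | h1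
      · exact Or.inr (h1.2 hc)
      · exact Or.inl (h1.2 hc)
  hE := by
    intro q h
    rw [R.sn_pos h, R.jn_spec q]
    congr 1
    rcases R.hx (R.jn q) with h1 | h1
    · exact h1
    · exfalso
      have h2 := (R.pr_host q.2).2.1
      rw [R.jn_spec q, h1] at h2
      exact G.cls_a (R.jn q) (by
        rw [show G.pt (G.a (R.jn q)) = q.1.1 from h2]; exact h)
  hO := by
    intro q h
    rw [R.fs_neg h, R.jn_spec q]
    congr 1
    rcases R.hx (R.jn q) with h1 | h1
    · exfalso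
      have h2 := (R.pr_host q.2).2.1
      rw [R.jn_spec q, h1] at h2
      exact h (by
        rw [← show G.pt (G.b (R.jn q)) = q.1.1 from h2]; exact G.cls_b _)
    · exact h1
  vq := by
    intro q
    obtain ⟨b, -, h2, h3, h4⟩ := hM q.1.1
    have key : val q.1.2.1 = val q.1.2.2 := by
      rcases q.2 with ⟨m, hm⟩ | ⟨x, hx, p, hp, h5, h6⟩
      · exact (h4 _ hm).1
      · rw [h5, h6, h2 x hx, (h3 p hp).1]
    by_cases h : G.cls q.1.1
    · rw [R.fs_pos h, R.sn_pos h]; exact key
    · rw [R.fs_neg h, R.sn_neg h]; exact key.symm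
  vodd := by
    intro i hi hodd
    have hod : G.Od R.L i := hodd
    have hrd : i ∈ R.rd (G.host i) := by
      refine (R.mem_rd _ _).2 (G.mem_items'.2 ⟨?_, rfl, hi⟩)
      intro p hp
      rw [hp] at hod
      exact G.letter_of_od hod
    obtain ⟨b, h1, h2, h3, h4⟩ := hM (G.host i)
    rcases R.rd_cases hrd with ⟨x, hx, h5⟩ | ⟨q, hq, h5⟩ | ⟨u, hu, h5⟩
    · cases hp : R.p (G.host i) with
      | none =>
        left
        rw [h5, h2 x hx]
        rw [← h5]
        exact h1 (Or.inr hp)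
      | some q => exact Or.inr (R.pair_mem (Or.inr ⟨x, hx, q, hp, rfl, rfl⟩) i (Or.inl h5))
    · rcases h5 with h5 | h5
      · exact absurd hod ((R.p_spec _ q hq).1 i h5)
      · cases hx : G.xN (G.host i) with
        | none =>
          left
          rw [h5, (h3 q hq).1]
          rw [← h5]
          exact h1 (Or.inl hx)
        | some x =>
          exact Or.inr (R.pair_mem (Or.inr ⟨x, hx, q, hq, rfl, rfl⟩) i (Or.inr h5))
    · have h6 := R.us_spec _ u hu
      have h7 := h4 u hu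
      cases u with
      | ev k =>
        have : i = k := by simpa [It.fl] using h5
        rw [this] at hod
        exact absurd hod h6
      | fr k =>
        have : i = k := by simpa [It.fl] using h5
        left
        rw [← this] at h7
        exact h7
      | br f m x =>
        have h8 : i = f ∨ i ∈ m ∨ i = x := by simpa [It.fl] using h5
        rcases h8 with h8 | h8 | h8
        · exact Or.inr (R.pair_mem (Or.inl ⟨m, hu⟩) i (Or.inl h8))
        · exact absurd hod (h6.2.2.1 i h8)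
        · exact Or.inr (R.pair_mem (Or.inl ⟨m, hu⟩) i (Or.inr h8))
  veven := by
    intro c hc hev
    have hod : ¬ G.Od R.L (Sum.inr c) := Nat.not_odd_iff_even.2 hev
    have hrd : Sum.inr c ∈ R.rd (G.par c) := by
      refine (R.mem_rd _ _).2 (G.mem_items'.2 ⟨?_, rfl, fun h => hc (Sum.inr_injective h)⟩)
      intro p hp
      simp at hp
    obtain ⟨b, h1, h2, h3, h4⟩ := hM (G.par c)
    rcases R.rd_cases hrd with ⟨x, hx, h5⟩ | ⟨q, hq, h5⟩ | ⟨u, hu, h5⟩
    · simp at h5
    · rcases h5 with h5 | h5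
      · cases hx : G.xN (G.par c) with
        | none =>
          left
          rw [(h3 q hq).2 _ h5]
          exact h1 (Or.inl hx)
        | some x =>
          right
          have hpr : R.Pr (G.par c) (Sum.inl x) q.2 := Or.inr ⟨x, hx, q, hq, rfl, rfl⟩
          have hseg : Sum.inl x :: (q.1 ++ [q.2]) ∈ R.segs (G.par c) := by
            unfold segs front
            rw [hx, Option.mem_def.1 hq]
            exact List.mem_cons_self
          have hmid := (R.seg_mid hseg).2 _ h5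
          refine R.pair_even hpr ?_ ?_ (Or.inl hmid)
          · rw [(h3 q hq).2 _ h5, h2 x hx]
          · rw [(h3 q hq).2 _ h5, (h3 q hq).1]
      · rw [h5] at hod
        exact absurd (R.po_od (R.p_spec _ q hq).2) hod
    · have h6 := R.us_spec _ u hu
      have h7 := h4 u hu
      cases u with
      | ev k =>
        have hk : k = Sum.inr c := by
          have : Sum.inr c = k := by simpa [It.fl] using h5
          exact this.symm
        subst hk
        rcases h7 with h7 | ⟨h7, h8⟩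
        · left; exact h7
        · cases hx : G.xN (G.par c) with
          | none => left; rw [h8]; exact h1 (Or.inl hx)
          | some x =>
            cases hp : R.p (G.par c) with
            | none => left; rw [h8]; exact h1 (Or.inr hp)
            | some q =>
              right
              refine R.pair_even (i := Sum.inl x) (i' := q.2)
                (Or.inr ⟨x, hx, q, hp, rfl, rfl⟩) ?_ ?_ (Or.inr (G.clu c hc (h7 c rfl)))
              · rw [h8, h2 x hx]
              · rw [h8, (h3 q hp).1]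
      | fr k =>
        have : Sum.inr c = k := by simpa [It.fl] using h5
        rw [this] at hod
        exact absurd h6.1 hod
      | br f m x =>
        have h8 : Sum.inr c = f ∨ Sum.inr c ∈ m ∨ Sum.inr c = x := by
          simpa [It.fl] using h5
        rcases h8 with h8 | h8 | h8
        · rw [h8] at hod
          exact absurd h6.1 hod
        · right
          have hpr : R.Pr (G.par c) f x := Or.inl ⟨m, hu⟩
          have hseg : f :: (m ++ [x]) ∈ R.segs (G.par c) :=
            List.mem_cons_of_mem _ (List.mem_map.2 ⟨_, hu, rfl⟩)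
          have hmid := (R.seg_mid hseg).2 _ h8
          refine R.pair_even hpr ?_ ?_ (Or.inl hmid)
          · rw [h7.2 _ h8, h7.1]
          · exact h7.2 _ h8
        · rw [h8] at hod
          exact absurd (R.po_od h6.2.2.2) hod

open Classical in
/-- the number of odd items of a circle has the parity of the circle -/
theorem even_items (z : C) : Even (((R.rd z).filter fun i => decide (G.Od R.L i)).length +
    (G.lt R.L (Sum.inr z : α ⊕ C)).card) := by
  have h1 := G.sum_items R.L z (fun _ => True) (fun _ => (1 : ZMod 2))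
  simp only [Finset.filter_true, Finset.sum_const, nsmul_eq_mul, mul_one] at h1
  have h2 : ∑ i ∈ G.items R.L z, ((G.lt R.L i).card : ZMod 2) =
      ((R.rd z).map fun i => ((G.lt R.L i).card : ZMod 2)).sum := by
    rw [← List.sum_toFinset _ (R.nodup z)]
    refine Finset.sum_congr ?_ fun _ _ => rfl
    ext i
    rw [List.mem_toFinset, R.mem_rd z i]
  have h3 : ∀ l : List (α ⊕ C), ((l.map fun i => ((G.lt R.L i).card : ZMod 2)).sum) =
      ((l.filter fun i => decide (G.Od R.L i)).length : ZMod 2) := by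
    intro l
    induction l with
    | nil => simp
    | cons i l ih =>
      rw [List.map_cons, List.sum_cons, ih, List.filter_cons]
      by_cases h : G.Od R.L i
      · rw [if_pos (by simpa using h), List.length_cons, Graph.cast_odd h]
        push_cast
        ring
      · rw [if_neg (by simpa using h), Graph.cast_even (Nat.not_odd_iff_even.1 h), zero_add]
  have h4 : (((R.rd z).filter fun i => decide (G.Od R.L i)).length +
      (G.lt R.L (Sum.inr z : α ⊕ C)).card : ℕ) = (0 : ZMod 2) := by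
    push_cast
    rw [← h3, ← h2, ← h1]
    exact Graph.b_add _
  exact (ZMod.natCast_eq_zero_iff_even).1 h4

/-- the number of letters is even -/
theorem even_L : Even R.L.card := by
  have hxi : Function.Injective R.x := by
    intro j k h
    rcases R.hx j with h1 | h1 <;> rcases R.hx k with h2 | h2 <;> rw [h1, h2] at h
    · exact G.b_inj h
    · exact absurd h (G.b_ne_a _ _)
    · exact absurd h.symm (G.b_ne_a _ _)
    · exact G.a_inj h
  have h0 : ∑ q ∈ G.L0, (1 : ZMod 2) = 0 :=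
    Finset.sum_involution (fun q _ => G.mate q) (fun _ _ => Graph.b_add _)
      (fun q hq _ => G.mate_ne q hq) (fun q hq => G.mate_mem q hq)
      (fun q hq => G.mate_mate q hq)
  rw [Finset.sum_const, nsmul_eq_mul, mul_one] at h0
  have h1 := (ZMod.natCast_eq_zero_iff_even).1 h0
  have h2 : R.L.card = Fintype.card J + Fintype.card J + G.L0.card := by
    unfold L Docks.used
    rw [Finset.card_union_of_disjoint, Finset.card_union_of_disjoint,
      Finset.card_image_of_injective _ G.y_inj, Finset.card_image_of_injective _ hxi,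
      Finset.card_univ]
    · rw [Finset.disjoint_left]
      intro q h1 h2
      obtain ⟨j, -, h3⟩ := Finset.mem_image.1 h1
      obtain ⟨k, -, h4⟩ := Finset.mem_image.1 h2
      rcases R.hx k with h5 | h5
      · exact G.y_ne_b j k (h3.trans (h4.symm.trans h5))
      · exact G.y_ne_a j k (h3.trans (h4.symm.trans h5))
    · rw [Finset.disjoint_left]
      intro q h1 h2
      rcases Finset.mem_union.1 h1 with h4 | h4
      · obtain ⟨j, -, h5⟩ := Finset.mem_image.1 h4
        exact G.y_L0 j (by rw [h5]; exact h2)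
      · obtain ⟨j, -, h5⟩ := Finset.mem_image.1 h4
        rcases R.hx j with h6 | h6
        · exact G.b_L0 j (by rw [← h6, h5]; exact h2)
        · exact G.a_L0 j (by rw [← h6, h5]; exact h2)
  rw [h2]
  exact (Even.add_self _).add h1

/-- the root has an even number of letters -/
theorem lt_root : G.lt R.L (Sum.inr G.r : α ⊕ C) = R.L := by
  ext q
  rw [G.mem_lt]
  exact ⟨fun h => h.1, fun h => ⟨h, G.top q⟩⟩

/-- **connectivity of the class graph** -/
theorem conn (val : α ⊕ C → ZMod 2)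
    (hy : ∀ j, val (Sum.inl (G.y j)) = val (Sum.inl (R.x j)))
    (hm : ∀ q ∈ G.L0, val (Sum.inl (G.mate q)) = val (Sum.inl q))
    (hM : ∀ z, G.MI (G.xN z) (R.p z) (R.us z) (val (Sum.inr z)) val) :
    (∀ c, val (Sum.inr c) = val (Sum.inr G.r)) ∧
      ∀ p ∈ R.L, val (Sum.inl p) = val (Sum.inr G.r) := by
  have := R.finite_Q
  have := Fintype.ofFinite R.Q
  exact (R.graph val hy hm hM).const

end Reading

/-! ### The parity rule -/

/-- a list of disjoint items in contour order -/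
lemma exists_sorted : ∀ (n : ℕ) (s : Finset (α ⊕ C)), s.card ≤ n →
    (∀ i ∈ s, ∀ i' ∈ s, i ≠ i' → G.ihi i < G.ilo i' ∨ G.ihi i' < G.ilo i) →
    ∃ l : List (α ⊕ C), l.Nodup ∧ (∀ i, i ∈ l ↔ i ∈ s) ∧
      l.Pairwise fun i i' => G.ihi i < G.ilo i' := by
  classical
  intro n
  induction n with
  | zero =>
    intro s hs _
    have : s = ∅ := Finset.card_eq_zero.1 (Nat.le_zero.1 hs)
    subst this
    exact ⟨[], List.nodup_nil, by simp, List.Pairwise.nil⟩
  | succ n ih =>
    intro s hs hd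
    rcases s.eq_empty_or_nonempty with rfl | hne
    · exact ⟨[], List.nodup_nil, by simp, List.Pairwise.nil⟩
    · obtain ⟨i0, h0, hmin⟩ := s.exists_min_image G.ilo hne
      obtain ⟨l, h1, h2, h3⟩ := ih (s.erase i0) (by
        rw [Finset.card_erase_of_mem h0]; omega) (by
        intro i hi i' hi'
        exact hd i (Finset.mem_of_mem_erase hi) i' (Finset.mem_of_mem_erase hi'))
      refine ⟨i0 :: l, List.nodup_cons.2 ⟨fun h => ?_, h1⟩, ?_,
        List.pairwise_cons.2 ⟨?_, h3⟩⟩
      · exact absurd ((h2 i0).1 h) (Finset.notMem_erase i0 s)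
      · intro i
        rw [List.mem_cons, h2]
        constructor
        · rintro (rfl | h)
          · exact h0
          · exact Finset.mem_of_mem_erase h
        · intro h
          rcases eq_or_ne i i0 with h4 | h4
          · exact Or.inl h4
          · exact Or.inr (Finset.mem_erase.2 ⟨h4, h⟩)
      · intro i hi
        obtain ⟨h4, h5⟩ := Finset.mem_erase.1 ((h2 i).1 hi)
        rcases hd i0 h0 i h5 (Ne.symm h4) with h6 | h6
        · exact h6
        · exact absurd (h6.trans_le (hmin i h5)) (not_lt.2 (G.ile i))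

/-- the items of a circle in reading order -/
lemma exists_rd (L : Finset α) (z : C) : ∃ l : List (α ⊕ C), l.Nodup ∧
    (∀ i, i ∈ l ↔ i ∈ G.items L z) ∧ l.Pairwise (G.Bef z) := by
  obtain ⟨l, h1, h2, h3⟩ := G.exists_sorted _ (G.items L z) le_rfl (by
    intro i hi i' hi' hne
    have hi := G.mem_items'.1 hi
    have hi' := G.mem_items'.1 hi'
    exact G.item_disj (hi.2.1.trans hi'.2.1.symm) hi.2.2 hi'.2.2 hne)
  by_cases hc : G.cls z
  · exact ⟨l, h1, h2, h3.imp fun h => ⟨fun _ => h, fun h' => absurd hc h'⟩⟩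
  · refine ⟨l.reverse, List.nodup_reverse.2 h1, fun i => by rw [List.mem_reverse, h2], ?_⟩
    rw [List.pairwise_reverse]
    exact h3.imp fun h => ⟨fun h' => absurd h' hc, fun _ => h⟩

lemma bef_asymm {z : C} {i i' : α ⊕ C} (h : G.Bef z i i') (h' : G.Bef z i' i) : False := by
  by_cases hc : G.cls z
  · exact absurd ((h.1 hc).trans_le (G.ile _)) (not_lt.2 (((h'.1 hc).trans_le (G.ile _)).le))
  · exact absurd ((h.2 hc).trans_le (G.ile _)) (not_lt.2 (((h'.2 hc).trans_le (G.ile _)).le))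

/-- the port of the own dock is the first item -/
lemma rd_first {x : J → α} (hx : ∀ j, x j = G.b j ∨ x j = G.a j) {z : C} {l : List (α ⊕ C)}
    (hl : ∀ i, i ∈ l ↔ i ∈ G.items (G.used x G.L0) z) (hb : l.Pairwise (G.Bef z)) {p : α}
    (hp : p ∈ G.xN z) : ∃ l', l = Sum.inl p :: l' := by
  obtain ⟨hp0, hpz⟩ := G.xN_mem z p hp
  have hmem : Sum.inl p ∈ l := (hl _).2 (G.mem_items'.2 ⟨fun q hq => by
    rw [← Sum.inl_injective hq]
    exact G.mem_used.2 (Or.inr (Or.inr hp0)), hpz, by simp⟩)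
  cases l with
  | nil => simp at hmem
  | cons i l =>
    rcases List.mem_cons.1 hmem with h | h
    · exact ⟨l, by rw [h]⟩
    · exfalso
      have h1 := (List.pairwise_cons.1 hb).1 _ h
      obtain ⟨e1, e2, e3⟩ := G.mem_items'.1 ((hl i).1 List.mem_cons_self)
      refine G.bef_asymm h1 ?_
      rcases i with q | c
      · have hne : q ≠ p := by
          rintro rfl
          by_cases hc : G.cls z
          · exact absurd (h1.1 hc) (lt_irrefl _)
          · exact absurd (h1.2 hc) (lt_irrefl _)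
        refine G.xN_pt z p hp q e2 ?_ hne
        rcases G.mem_used.1 (e1 q rfl) with ⟨j, hj⟩ | ⟨j, hj⟩ | hj
        · exact Or.inr ⟨j, Or.inr (Or.inl hj)⟩
        · rcases hx j with h5 | h5
          · exact Or.inr ⟨j, Or.inl (hj.trans h5)⟩
          · exact Or.inr ⟨j, Or.inr (Or.inr (hj.trans h5))⟩
        · exact Or.inl hj
      · exact G.xN_ch z p hp c (fun h => e3 (by rw [h])) e2

/-- no two adjacent ports -/
lemma noAdj {x : J → α} {φ : ℕ}
    (hpar : ∀ j, Even (((G.used x G.L0).filter (fun u => u < x j)).card + φ))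
    {z : C} {l : List (α ⊕ C)}
    (hl : ∀ i, i ∈ l ↔ i ∈ G.items (G.used x G.L0) z) (hb : l.Pairwise (G.Bef z)) :
    NoAdj (G.Od (G.used x G.L0)) (Po x) l := by
  classical
  rintro l1 X m X' l2 hll hm ⟨i, rfl⟩ ⟨j, rfl⟩
  have hpos : ∀ k ∈ m, ¬ G.Od (G.used x G.L0) k := hm
  rw [hll, List.pairwise_append, List.pairwise_cons, List.pairwise_append,
    List.pairwise_cons] at hb
  obtain ⟨-, ⟨b1, -, ⟨b2, -⟩, b3⟩, b4⟩ := hb
  have hmi : ∀ k, k ∈ l1 ++ Sum.inl (x i) :: (m ++ Sum.inl (x j) :: l2) →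
      k ∈ G.items (G.used x G.L0) z := fun k hk => (hl k).1 (by rw [hll]; exact hk)
  have hzi : G.pt (x i) = z := (G.mem_items'.1 (hmi (Sum.inl (x i)) (by simp))).2.1
  have hzj : G.pt (x j) = z := (G.mem_items'.1 (hmi (Sum.inl (x j)) (by simp))).2.1
  have hij : G.Bef z (Sum.inl (x i)) (Sum.inl (x j)) := b1 _ (by simp)
  -- the letters between two positions on `z`
  have hitem : ∀ (p q u : α), G.pt p = z → G.pt q = z → p < u → u < q →
      u ∈ G.used x G.L0 → ∃ k ∈ G.items (G.used x G.L0) z, G.ilo k ≤ u ∧ u ≤ G.ihi k := by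
    intro p q u hp hq h1 h2 hu
    have h3 := G.pt_mem p
    have h4 := G.pt_mem q
    rw [hp] at h3
    rw [hq] at h4
    rcases (G.mem z u).1 ⟨h3.1.trans h1.le, h2.le.trans h4.2⟩ with h5 | ⟨c, h5, h6, h7⟩
    · exact ⟨Sum.inl u, G.mem_items'.2 ⟨fun p hp => by rw [← Sum.inl_injective hp]; exact hu,
        h5, by simp⟩, le_rfl, le_rfl⟩
    · exact ⟨Sum.inr c, G.mem_items'.2 ⟨fun p hp => by simp at hp, h6,
        fun h => h5 (Sum.inr_injective h)⟩, h7⟩
  have hdis : ∀ k ∈ m.toFinset, ∀ k' ∈ m.toFinset, k ≠ k' →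
      Disjoint (G.lt (G.used x G.L0) k) (G.lt (G.used x G.L0) k') := by
    intro k hk k' hk' hne
    have e1 := G.mem_items'.1 (hmi k (by simp [List.mem_toFinset.1 hk]))
    have e2 := G.mem_items'.1 (hmi k' (by simp [List.mem_toFinset.1 hk']))
    rw [Finset.disjoint_left]
    intro u h1 h2
    have h1 := G.mem_lt.1 h1
    have h2 := G.mem_lt.1 h2
    rcases G.item_disj (e1.2.1.trans e2.2.1.symm) e1.2.2 e2.2.2 hne with h | h
    · exact absurd (h1.2.2.trans_lt h) (not_lt.2 h2.2.1)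
    · exact absurd (h2.2.2.trans_lt h) (not_lt.2 h1.2.1)
  have hfin : ∀ (i' j' : J), (G.used x G.L0).filter (fun u => x i' < u ∧ u < x j') =
      m.toFinset.biUnion (G.lt (G.used x G.L0)) → x i' < x j' → False := by
    intro i' j' hcov hlt
    obtain ⟨k, hk, hodd⟩ := Docks.odd_item hpar hlt m.toFinset _ hdis hcov
    exact hpos k (List.mem_toFinset.1 hk) hodd
  by_cases hc : G.cls z
  · refine hfin i j ?_ (hij.1 hc)
    ext u
    simp only [Finset.mem_filter, Finset.mem_biUnion, List.mem_toFinset, Contour.mem_lt]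
    constructor
    · rintro ⟨hu, h1, h2⟩
      obtain ⟨k, hk, h3, h4⟩ := hitem _ _ u hzi hzj h1 h2 hu
      have hk := (hl k).2 hk
      rw [hll] at hk
      simp only [List.mem_append, List.mem_cons] at hk
      rcases hk with hk | rfl | hk | rfl | hk
      · have h5 : G.ihi k < x i := (b4 k hk (Sum.inl (x i)) (by simp)).1 hc
        exact absurd (h4.trans_lt h5) (not_lt.2 h1.le)
      · exact absurd (h1.trans_le h4) (lt_irrefl _)
      · exact ⟨k, hk, hu, h3, h4⟩
      · exact absurd (h3.trans_lt h2) (lt_irrefl _)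
      · have h5 : x j < G.ilo k := (b2 k hk).1 hc
        exact absurd (h5.trans_le h3) (not_lt.2 h2.le)
    · rintro ⟨k, hk, hu, h3, h4⟩
      have h5 : x i < G.ilo k := (b1 k (by simp [hk])).1 hc
      have h6 : G.ihi k < x j := (b3 k hk (Sum.inl (x j)) (by simp)).1 hc
      exact ⟨hu, h5.trans_le h3, h4.trans_lt h6⟩
  · refine hfin j i ?_ (hij.2 hc)
    ext u
    simp only [Finset.mem_filter, Finset.mem_biUnion, List.mem_toFinset, Contour.mem_lt]
    constructor
    · rintro ⟨hu, h1, h2⟩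
      obtain ⟨k, hk, h3, h4⟩ := hitem _ _ u hzj hzi h1 h2 hu
      have hk := (hl k).2 hk
      rw [hll] at hk
      simp only [List.mem_append, List.mem_cons] at hk
      rcases hk with hk | rfl | hk | rfl | hk
      · have h5 : x i < G.ilo k := (b4 k hk (Sum.inl (x i)) (by simp)).2 hc
        exact absurd (h5.trans_le h3) (not_lt.2 h2.le)
      · exact absurd (h3.trans_lt h2) (lt_irrefl _)
      · exact ⟨k, hk, hu, h3, h4⟩
      · exact absurd (h1.trans_le h4) (lt_irrefl _)
      · have h5 : G.ihi k < x j := (b2 k hk).2 hc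
        exact absurd (h4.trans_lt h5) (not_lt.2 h1.le)
    · rintro ⟨k, hk, hu, h3, h4⟩
      have h5 : G.ihi k < x i := (b1 k (by simp [hk])).2 hc
      have h6 : x j < G.ilo k := (b3 k hk (Sum.inl (x j)) (by simp)).2 hc
      exact ⟨hu, h6.trans_le h3, h4.trans_lt h5⟩

/-- **the parity rule gives a reading** (`φ` = phase) -/
theorem exists_reading (φ : ℕ) : ∃ R : G.Reading,
    ∀ j, Even (((G.used R.x G.L0).filter (fun u => u < R.x j)).card + φ) := by
  classical
  obtain ⟨x, hx, hpar⟩ := G.toDocks.parity_rule (L := G.L0) (by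
    intro j
    have h := (clo_of_chords (x := G.b j) (y := G.a j) (V := fun _ => (0 : ZMod 2)) G.mate
      G.mate_mem G.mate_mate G.mate_ne (fun _ _ => rfl) (by
        intro q hq h1 h2
        have h3 : G.b j < q := lt_of_le_of_ne h1 (fun h => G.b_L0 j (by rw [h]; exact hq))
        have h4 : q < G.a j := lt_of_le_of_ne h2 (fun h => G.a_L0 j (by rw [← h]; exact hq))
        obtain ⟨h5, h6⟩ := G.mate_in j q hq h3 h4
        exact ⟨h5.le, h6.le⟩)).2
    have e : G.L0.filter (fun l => G.b j < l ∧ l < G.a j) =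
        G.L0.filter (fun l => G.b j ≤ l ∧ l ≤ G.a j) :=
      Finset.filter_congr fun q hq => by
        constructor
        · rintro ⟨h1, h2⟩; exact ⟨h1.le, h2.le⟩
        · rintro ⟨h1, h2⟩
          exact ⟨lt_of_le_of_ne h1 (fun h => G.b_L0 j (by rw [h]; exact hq)),
            lt_of_le_of_ne h2 (fun h => G.a_L0 j (by rw [← h]; exact hq))⟩
    rw [e]
    exact h) (fun j => ⟨G.b_L0 j, G.y_L0 j, G.a_L0 j⟩) φ
  have key : ∀ z, ∃ (p : Option (List (α ⊕ C) × (α ⊕ C))) (us : List (It (α ⊕ C)))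
      (rd : List (α ⊕ C)), rd = front (G.xN z) p ++ us.flatMap It.fl ∧ rd.Nodup ∧
      (∀ i, i ∈ rd ↔ i ∈ G.items (G.used x G.L0) z) ∧ rd.Pairwise (G.Bef z) ∧
      (∀ q ∈ p, (∀ i ∈ q.1, ¬ G.Od (G.used x G.L0) i) ∧ Po x q.2) ∧
      ∀ u ∈ us, u.Good (G.Od (G.used x G.L0)) (Po x) := by
    intro z
    obtain ⟨rd, h1, h2, h3⟩ := G.exists_rd (G.used x G.L0) z
    have h4 := G.noAdj hpar h2 h3
    cases hN : G.xN z with
    | none =>
      obtain ⟨p, us, h5, h6, h7⟩ := exists_units h4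
      exact ⟨p, us, rd, by rw [h5]; rfl, h1, h2, h3, h6, h7⟩
    | some t =>
      obtain ⟨rd', hrd'⟩ := G.rd_first hx h2 h3 hN
      have h4' : NoAdj (G.Od (G.used x G.L0)) (Po x) rd' := by
        intro l1 X m X' l2 e1 e2
        exact h4 (Sum.inl t :: l1) X m X' l2 (by rw [hrd', e1]; rfl) e2
      obtain ⟨p, us, h5, h6, h7⟩ := exists_units h4'
      refine ⟨p, us, rd, ?_, h1, h2, h3, h6, h7⟩
      rw [hrd', h5]
      rfl
  choose p us rd h1 h2 h3 h4 h5 h6 using key
  exact ⟨⟨x, hx, p, us, rd, h1, h2, h3, h4, h5, h6⟩, hpar⟩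

end Inst

end Pool.Agent.MP42.U
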