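import Mathlib

/-!
# Project MP42: blocks, connectivity of the class graph (note 2082)

`block_core`: the order part. `Contour C α`: a plane rooted tree in contour order.
`Graph C α Q J`: docks with corners `b j < a j` (nested or disjoint intervals, closed under the chords:
`clo_of_chords`), at most one of the two corners is a used letter; every circle has pairs of odd items
(cancelled ports with their partners, two fused ports), each pair ends with a used corner `b j` or
starts with a used corner `a j`; all other odd items have the value of the circle, every even child has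
the value of the circle, or of a pair around it, or (a child which is closed, i.e. has both or none of
the corners of every dock in its subtree) of any pair of the circle.
**`Graph.const`: then all values are equal.** No condition on the places of the ports is needed
(no `safe`, no acyclicity), and dropped own links need no special treatment (`val (inr c)` = the value
of the lanes of the own link of `c`).
-/

set_option autoImplicit false
set_option linter.unusedSectionVars false

namespace Pool.Agent.MP42.U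

section core

variable {J K α : Type*} [LinearOrder α]

/-- **the order part**: pairwise disjoint blocks, each of which ends with a corner `b j` (type E) or
starts with a corner `a j` (type O), such that the other corner is in a block again; the intervals
`[b j, a j]` are nested or disjoint. Then there is no block. -/
theorem block_core [Finite K] (b a : J → α) (b_inj : Function.Injective b)
    (a_inj : Function.Injective a) (hba : ∀ j, b j < a j)
    (nest : ∀ i j, b i < b j → a i < b j ∨ a j < a i)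
    (lo hi : K → α) (hlh : ∀ k, lo k ≤ hi k)
    (disj : ∀ k k', k ≠ k' → hi k < lo k' ∨ hi k' < lo k)
    (jn : K → J) (E : K → Prop)
    (hE : ∀ k, E k → hi k = b (jn k)) (hO : ∀ k, ¬ E k → lo k = a (jn k))
    (hne : ∀ k k', E k → ¬ E k' → jn k ≠ jn k')
    (hR : ∀ k, E k → ∃ k', lo k' ≤ a (jn k) ∧ a (jn k) ≤ hi k')
    (hL : ∀ k, ¬ E k → ∃ k', lo k' ≤ b (jn k) ∧ b (jn k) ≤ hi k') : IsEmpty K := by
  classical
  by_contra hK
  rw [not_isEmpty_iff] at hK
  have := Fintype.ofFinite K
  have lo_inj : ∀ k k', lo k = lo k' → k = k' := by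
    intro k k' h
    by_contra hne'
    rcases disj k k' hne' with h1 | h1
    · exact absurd (h ▸ (hlh k).trans_lt h1) (lt_irrefl _)
    · exact absurd (h ▸ (hlh k').trans_lt h1) (lt_irrefl _)
  -- the first block
  obtain ⟨k0, -, hk0⟩ := Finset.exists_min_image (Finset.univ : Finset K) lo Finset.univ_nonempty
  have hEk0 : E k0 := by
    by_contra h
    obtain ⟨k', h1, -⟩ := hL k0 h
    have h2 := hk0 k' (Finset.mem_univ _)
    have h3 := hba (jn k0)
    rw [← hO k0 h] at h3
    exact absurd (h2.trans (h1.trans_lt h3).le) (by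
      intro h4
      exact absurd (h2.trans h1) (not_le.2 h3))
  -- the last block of type E
  obtain ⟨P, hP, hPmax⟩ := Finset.exists_max_image (Finset.univ.filter fun k => E k) lo
    ⟨k0, by simpa using hEk0⟩
  have hEP : E P := by simpa using hP
  have hPmax : ∀ k, E k → lo k ≤ lo P := fun k hk => hPmax k (by simpa using hk)
  -- blocks behind P are of type O
  have hbehind : ∀ k, hi P < lo k → ¬ E k := by
    intro k hk h
    exact absurd (hPmax k h) (not_le.2 ((hlh P).trans_lt hk))
  obtain ⟨k1, h1, h2⟩ := hR P hEP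
  have hbP := hE P hEP
  have haP : hi P < a (jn P) := by rw [hbP]; exact hba _
  have hk1 : hi P < lo k1 := by
    have hne1 : k1 ≠ P := by
      rintro rfl
      exact absurd h2 (not_le.2 haP)
    rcases disj k1 P hne1 with h | h
    · exact absurd (h2.trans_lt h) (not_lt.2 ((hlh P).trans haP.le))
    · exact h
  -- the first block behind P
  obtain ⟨Q, hQ, hQmin⟩ := Finset.exists_min_image (Finset.univ.filter fun k => hi P < lo k) lo
    ⟨k1, by simpa using hk1⟩
  have hPQ : hi P < lo Q := by simpa using hQ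
  have hQmin : ∀ k, hi P < lo k → lo Q ≤ lo k := fun k hk => hQmin k (by simpa using hk)
  have hOQ : ¬ E Q := hbehind Q hPQ
  have haQ := hO Q hOQ
  have hne2 : jn P ≠ jn Q := hne P Q hEP hOQ
  have e1 : a (jn Q) < a (jn P) := by
    refine lt_of_le_of_ne ?_ (fun h => hne2 (a_inj h.symm))
    rw [← haQ]
    exact (hQmin k1 hk1).trans h1
  obtain ⟨k2, h3, h4⟩ := hL Q hOQ
  have hbQ : b (jn Q) < lo Q := by rw [haQ]; exact hba _
  have e2 : b (jn Q) < b (jn P) := by
    refine lt_of_le_of_ne ?_ (fun h => hne2 (b_inj h.symm))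
    rw [← hbP]
    rcases eq_or_ne k2 P with rfl | hne3
    · exact h4
    · rcases disj k2 P hne3 with h | h
      · exact h4.trans (h.le.trans (hlh P))
      · exact absurd ((hQmin k2 h).trans h3) (not_le.2 hbQ)
  rcases nest (jn Q) (jn P) e2 with h | h
  · rw [← haQ, ← hbP] at h
    exact absurd h (not_lt.2 hPQ.le)
  · exact absurd h (not_lt.2 e1.le)

end core


/-! ## Plane trees in contour order -/

/-- a plane rooted tree in contour order: circles `C`, positions `α` on the circles, subtree of `z` =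
the interval `[lo z, hi z]` -/
structure Contour (C α : Type*) [LinearOrder α] where
  r : C
  par : C → C
  dep : C → ℕ
  dep_par : ∀ z, z ≠ r → dep (par z) < dep z
  pt : α → C
  lo : C → α
  hi : C → α
  le : ∀ z, lo z ≤ hi z
  mem : ∀ z p, (lo z ≤ p ∧ p ≤ hi z) ↔
    pt p = z ∨ ∃ c, c ≠ r ∧ par c = z ∧ lo c ≤ p ∧ p ≤ hi c
  top : ∀ p, lo r ≤ p ∧ p ≤ hi r
  disj : ∀ c c', c ≠ r → c' ≠ r → par c = par c' → c ≠ c' → hi c < lo c' ∨ hi c' < lo c
  pt_disj : ∀ c p, c ≠ r → pt p = par c → p < lo c ∨ hi c < p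

namespace Contour

variable {C α : Type*} [LinearOrder α] (D : Contour C α)

/-- one step up -/
def Up (x y : C) : Prop := x ≠ D.r ∧ D.par x = y

/-- first position of an item (a position or a child) -/
def ilo : α ⊕ C → α := Sum.elim id D.lo

/-- last position of an item -/
def ihi : α ⊕ C → α := Sum.elim id D.hi

/-- the circle of an item -/
def host : α ⊕ C → C := Sum.elim D.pt D.par

@[simp] lemma ilo_inl (p : α) : D.ilo (Sum.inl p) = p := rfl
@[simp] lemma ilo_inr (c : C) : D.ilo (Sum.inr c) = D.lo c := rfl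
@[simp] lemma ihi_inl (p : α) : D.ihi (Sum.inl p) = p := rfl
@[simp] lemma ihi_inr (c : C) : D.ihi (Sum.inr c) = D.hi c := rfl
@[simp] lemma host_inl (p : α) : D.host (Sum.inl p) = D.pt p := rfl
@[simp] lemma host_inr (c : C) : D.host (Sum.inr c) = D.par c := rfl

lemma ile (i : α ⊕ C) : D.ilo i ≤ D.ihi i := by
  cases i
  · exact le_rfl
  · exact D.le _

/-- two items of one circle are disjoint -/
lemma item_disj {i i' : α ⊕ C} (h : D.host i = D.host i') (hi : i ≠ Sum.inr D.r)
    (hi' : i' ≠ Sum.inr D.r) (hne : i ≠ i') : D.ihi i < D.ilo i' ∨ D.ihi i' < D.ilo i := by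
  rcases i with p | c <;> rcases i' with p' | c'
  · simp only [ihi_inl, ilo_inl]
    exact lt_or_gt_of_ne (fun h => hne (by rw [h]))
  · simp only [host_inl, host_inr] at h
    simp only [ihi_inl, ilo_inr, ihi_inr, ilo_inl]
    exact D.pt_disj c' p (fun h => hi' (by rw [h])) h
  · simp only [host_inl, host_inr] at h
    simp only [ihi_inl, ilo_inr, ihi_inr, ilo_inl]
    exact (D.pt_disj c p' (fun h => hi (by rw [h])) h.symm).symm
  · simp only [host_inr] at h
    exact D.disj c c' (fun h => hi (by rw [h])) (fun h => hi' (by rw [h])) h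
      (fun h => hne (by rw [h]))

lemma pt_mem (p : α) : D.lo (D.pt p) ≤ p ∧ p ≤ D.hi (D.pt p) := (D.mem _ _).2 (Or.inl rfl)

lemma child_mem {c : C} (hc : c ≠ D.r) {p : α} (h : D.lo c ≤ p ∧ p ≤ D.hi c) :
    D.lo (D.par c) ≤ p ∧ p ≤ D.hi (D.par c) := (D.mem _ _).2 (Or.inr ⟨c, hc, rfl, h⟩)

lemma up_mem {z z' : C} (h : Relation.ReflTransGen D.Up z z') {p : α}
    (hp : D.lo z ≤ p ∧ p ≤ D.hi z) : D.lo z' ≤ p ∧ p ≤ D.hi z' := by
  induction h with
  | refl => exact hp
  | tail _ h ih =>
    have := D.child_mem h.1 ih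
    rwa [h.2] at this

/-- the intervals `[lo z, hi z]` are the subtrees -/
lemma mem_iff [Finite C] {z : C} {p : α} :
    (D.lo z ≤ p ∧ p ≤ D.hi z) ↔ Relation.ReflTransGen D.Up (D.pt p) z := by
  constructor
  · obtain ⟨M, hM⟩ : ∃ M, ∀ c, D.dep c ≤ M := by
      have := Fintype.ofFinite C
      exact ⟨Finset.univ.sup D.dep, fun c => Finset.le_sup (Finset.mem_univ c)⟩
    have key : ∀ (n : ℕ) (z : C), M - D.dep z ≤ n → (D.lo z ≤ p ∧ p ≤ D.hi z) →
        Relation.ReflTransGen D.Up (D.pt p) z := by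
      intro n
      induction n with
      | zero =>
        intro z hz hp
        rcases (D.mem z p).1 hp with h | ⟨c, hc, hcz, -⟩
        · rw [h]
        · have h1 := D.dep_par c hc
          have h2 := hM c
          rw [hcz] at h1
          omega
      | succ n ih =>
        intro z hz hp
        rcases (D.mem z p).1 hp with h | ⟨c, hc, hcz, hcp⟩
        · rw [h]
        · have h1 := D.dep_par c hc
          have h2 := hM c
          rw [hcz] at h1
          exact (ih c (by omega) hcp).tail ⟨hc, hcz⟩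
    exact key _ z le_rfl
  · intro h
    exact D.up_mem h (D.pt_mem p)

lemma item_mem {i : α ⊕ C} (hi : i ≠ Sum.inr D.r) {p : α} (hp : D.ilo i ≤ p ∧ p ≤ D.ihi i) :
    D.lo (D.host i) ≤ p ∧ p ≤ D.hi (D.host i) := by
  rcases i with q | c
  · simp only [ilo_inl, ihi_inl] at hp
    have : p = q := le_antisymm hp.2 hp.1
    rw [this]
    exact D.pt_mem q
  · exact D.child_mem (fun h => hi (by rw [h])) hp


/-! ### Sums over the letters -/

section sums

open Classical in
/-- the letters of an item -/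
noncomputable def lt (L : Finset α) (i : α ⊕ C) : Finset α :=
  L.filter fun q => D.ilo i ≤ q ∧ q ≤ D.ihi i

open Classical in
/-- the items of a circle: its letters and its children -/
noncomputable def items [Fintype C] (L : Finset α) (z : C) : Finset (α ⊕ C) :=
  (L.disjSum Finset.univ).filter fun i => D.host i = z ∧ i ≠ Sum.inr D.r

lemma mem_lt {L : Finset α} {i : α ⊕ C} {q : α} :
    q ∈ D.lt L i ↔ q ∈ L ∧ D.ilo i ≤ q ∧ q ≤ D.ihi i := by
  simp [lt]

lemma mem_items [Fintype C] {L : Finset α} {z : C} {i : α ⊕ C} :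
    i ∈ D.items L z ↔ (∀ p, i = Sum.inl p → p ∈ L) ∧ D.host i = z ∧ i ≠ Sum.inr D.r := by
  classical
  rw [items, Finset.mem_filter]
  refine and_congr_left fun _ => ?_
  cases i <;> simp

lemma lt_inl {L : Finset α} {p : α} (hp : p ∈ L) : D.lt L (Sum.inl p : α ⊕ C) = {p} := by
  ext q
  rw [mem_lt, Finset.mem_singleton]
  simp only [ilo_inl, ihi_inl]
  constructor
  · rintro ⟨-, h1, h2⟩
    exact le_antisymm h2 h1
  · rintro rfl
    exact ⟨hp, le_rfl, le_rfl⟩

open Classical in
lemma sum_items [Fintype C] {M : Type*} [AddCommMonoid M] (L : Finset α) (z : C)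
    (P : α → Prop) (g : α → M) :
    ∑ q ∈ (D.lt L (Sum.inr z : α ⊕ C)).filter P, g q =
      ∑ i ∈ D.items L z, ∑ q ∈ (D.lt L i).filter P, g q := by
  rw [← Finset.sum_biUnion]
  · refine Finset.sum_congr ?_ (fun _ _ => rfl)
    ext q
    simp only [Finset.mem_filter, Finset.mem_biUnion, mem_lt, mem_items, ilo_inr, ihi_inr]
    constructor
    · rintro ⟨⟨hq, h1⟩, hP⟩
      rcases (D.mem z q).1 h1 with h | ⟨c, hc, hcz, h2⟩
      · exact ⟨Sum.inl q, ⟨fun p hp => by rw [← Sum.inl_injective hp]; exact hq, h, by simp⟩,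
          ⟨hq, le_rfl, le_rfl⟩, hP⟩
      · exact ⟨Sum.inr c, ⟨fun p hp => by simp at hp, hcz,
          fun h => hc (Sum.inr_injective h)⟩, ⟨hq, h2⟩, hP⟩
    · rintro ⟨i, ⟨-, h2, h3⟩, ⟨hq, h4⟩, hP⟩
      have := D.item_mem h3 h4
      rw [h2] at this
      exact ⟨⟨hq, this⟩, hP⟩
  · intro i hi i' hi' hne
    have hi := D.mem_items.1 hi
    have hi' := D.mem_items.1 hi'
    rw [Function.onFun, Finset.disjoint_left]
    intro q hq hq'
    have hq := D.mem_lt.1 (Finset.mem_filter.1 hq).1
    have hq' := D.mem_lt.1 (Finset.mem_filter.1 hq').1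
    rcases D.item_disj (hi.2.1.trans hi'.2.1.symm) hi.2.2 hi'.2.2 hne with h | h
    · exact absurd (hq.2.2.trans_lt h) (not_lt.2 hq'.2.1)
    · exact absurd (hq'.2.2.trans_lt h) (not_lt.2 hq.2.1)

end sums

end Contour

/-! ## The class graph -/

/-- **values on the classes of the circles.**
`L` = the used letters, `val (inl p)` = the value of the class of the letter `p`, `val (inr c)` = the
value of the class of the own link of `c` (for the root: the value of its left over class).
An item is odd if it contains an odd number of letters. `fs q`, `sn q` = the first and the second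
member (contour order) of the pair `q` on the circle `cq q` (a cancelled port and its partner, or two
fused ports). A pair ends with the corner `b j` of a dock (`E q`) or starts with the corner `a j`
(`¬ E q`). Every odd item which is in no pair has the value of the own link of its circle; an even
child has this value or the value of a pair, and then it stands between the two members of the pair or
it is closed: every dock has both or none of its corners `b j`, `a j` in its subtree. -/
structure Graph (C α Q J : Type*) [LinearOrder α] extends Contour C α where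
  L : Finset α
  val : α ⊕ C → ZMod 2
  b : J → α
  a : J → α
  b_inj : Function.Injective b
  a_inj : Function.Injective a
  hba : ∀ j, b j < a j
  nest : ∀ i j, b i < b j → a i < b j ∨ a j < a i
  one : ∀ j, b j ∈ L → a j ∉ L
  clo : ∀ j, ∑ q ∈ L with (b j ≤ q ∧ q ≤ a j), val (Sum.inl q) = 0
  clo1 : ∀ j, Even (L.filter fun q => b j ≤ q ∧ q ≤ a j).card
  cq : Q → C
  fs : Q → α ⊕ C
  sn : Q → α ⊕ C
  E : Q → Prop
  jn : Q → J
  fs_host : ∀ q, toContour.host (fs q) = cq q
  sn_host : ∀ q, toContour.host (sn q) = cq q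
  fs_ne : ∀ q, fs q ≠ Sum.inr toContour.r
  sn_ne : ∀ q, sn q ≠ Sum.inr toContour.r
  fs_odd : ∀ q, Odd (toContour.lt L (fs q)).card
  sn_odd : ∀ q, Odd (toContour.lt L (sn q)).card
  fs_sn : ∀ q, toContour.ihi (fs q) < toContour.ilo (sn q)
  qdisj : ∀ q q', q ≠ q' → cq q = cq q' →
    toContour.ihi (sn q) < toContour.ilo (fs q') ∨ toContour.ihi (sn q') < toContour.ilo (fs q)
  hE : ∀ q, E q → sn q = Sum.inl (b (jn q))
  hO : ∀ q, ¬ E q → fs q = Sum.inl (a (jn q))
  vq : ∀ q, val (fs q) = val (sn q)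
  vodd : ∀ i, i ≠ Sum.inr toContour.r → Odd (toContour.lt L i).card →
    val i = val (Sum.inr (toContour.host i)) ∨ ∃ q, i = fs q ∨ i = sn q
  veven : ∀ c, c ≠ toContour.r → Even (toContour.lt L (Sum.inr c)).card →
    val (Sum.inr c) = val (Sum.inr (toContour.par c)) ∨
    ∃ q, cq q = toContour.par c ∧ val (Sum.inr c) = val (sn q) ∧
      ((toContour.ihi (fs q) < toContour.lo c ∧ toContour.hi c < toContour.ilo (sn q)) ∨
        ∀ j, (toContour.lo c ≤ b j ∧ b j ≤ toContour.hi c) ↔
          (toContour.lo c ≤ a j ∧ a j ≤ toContour.hi c))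

namespace Graph

variable {C α Q J : Type*} [LinearOrder α] (G : Graph C α Q J)

lemma b_add (x : ZMod 2) : x + x = 0 := by revert x; decide

lemma cast_odd {n : ℕ} (h : Odd n) : (n : ZMod 2) = 1 := by
  rw [ZMod.natCast_eq_one_iff_odd]; exact h

lemma cast_even {n : ℕ} (h : Even n) : (n : ZMod 2) = 0 := by
  rw [ZMod.natCast_eq_zero_iff_even]; exact h

lemma letter_mem {p : α} (h : Odd (G.lt G.L (Sum.inl p : α ⊕ C)).card) : p ∈ G.L := by
  obtain ⟨q, hq⟩ := Finset.card_pos.1 h.pos
  obtain ⟨h1, h2, h3⟩ := G.mem_lt.1 hq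
  simp only [Contour.ilo_inl, Contour.ihi_inl] at h2 h3
  rwa [le_antisymm h3 h2] at h1

/-- the members of the pairs -/
def mem2 (x : Q × Bool) : α ⊕ C := if x.2 then G.fs x.1 else G.sn x.1

lemma mem2_host (x : Q × Bool) : G.host (G.mem2 x) = G.cq x.1 := by
  unfold mem2; split
  · exact G.fs_host _
  · exact G.sn_host _

lemma mem2_ne (x : Q × Bool) : G.mem2 x ≠ Sum.inr G.r := by
  unfold mem2; split
  · exact G.fs_ne _
  · exact G.sn_ne _

lemma mem2_odd (x : Q × Bool) : Odd (G.lt G.L (G.mem2 x)).card := by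
  unfold mem2; split
  · exact G.fs_odd _
  · exact G.sn_odd _

lemma mem2_val (x : Q × Bool) : G.val (G.mem2 x) = G.val (G.sn x.1) := by
  unfold mem2; split
  · exact G.vq _
  · rfl

lemma mem2_ge (x : Q × Bool) : G.ilo (G.fs x.1) ≤ G.ilo (G.mem2 x) := by
  unfold mem2; split
  · exact le_rfl
  · exact (G.ile _).trans (G.fs_sn _).le

lemma mem2_le (x : Q × Bool) : G.ihi (G.mem2 x) ≤ G.ihi (G.sn x.1) := by
  unfold mem2; split
  · exact (G.fs_sn _).le.trans (G.ile _)
  · exact le_rfl

lemma mem2_inj : Function.Injective G.mem2 := by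
  rintro ⟨q, c⟩ ⟨q', c'⟩ h
  have hq : q = q' := by
    by_contra hne
    have h1 : G.cq q = G.cq q' := by
      have e1 := G.mem2_host (q, c)
      have e2 := G.mem2_host (q', c')
      rw [h] at e1
      exact e1.symm.trans e2
    have h2 := G.mem2_ge (q, c)
    have h3 := G.mem2_le (q, c)
    have h4 := G.mem2_ge (q', c')
    have h5 := G.mem2_le (q', c')
    have h6 := G.ile (G.mem2 (q, c))
    rw [h] at h2 h3 h6
    simp only at h2 h3 h4 h5
    rcases G.qdisj q q' hne h1 with h7 | h7
    · exact absurd ((h6.trans h3).trans_lt h7) (not_lt.2 h4)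
    · exact absurd ((h6.trans h5).trans_lt h7) (not_lt.2 h2)
  subst hq
  have hc : c = c' := by
    by_contra hne
    have h1 : G.fs q = G.sn q := by
      unfold mem2 at h
      cases c <;> cases c' <;> simp_all
    have h2 := G.fs_sn q
    rw [h1] at h2
    exact absurd h2 (not_lt.2 (G.ile _))
  rw [hc]

lemma mem2_items [Fintype C] (x : Q × Bool) : G.mem2 x ∈ G.items G.L (G.cq x.1) := by
  refine G.mem_items.2 ⟨?_, G.mem2_host x, G.mem2_ne x⟩
  intro p hp
  have := G.mem2_odd x
  rw [hp] at this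
  exact G.letter_mem this

variable [Fintype C] [Fintype Q]

open Classical in
/-- the sum over the items of a circle is a sum over its pairs -/
lemma sum_pairs (z : C) (χ : α ⊕ C → ZMod 2) :
    ∑ i ∈ G.items G.L z, χ i * (((G.lt G.L i).card : ZMod 2) *
        (G.val i + G.val (Sum.inr z))) =
      ∑ q with G.cq q = z, (χ (G.fs q) + χ (G.sn q)) * (G.val (G.sn q) + G.val (Sum.inr z)) := by
  set t : α ⊕ C → ZMod 2 := fun i => χ i * (((G.lt G.L i).card : ZMod 2) *
    (G.val i + G.val (Sum.inr z))) with ht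
  have h1 : ∑ i ∈ G.items G.L z, t i =
      ∑ i ∈ (Finset.univ.filter fun x : Q × Bool => G.cq x.1 = z).image G.mem2, t i := by
    symm
    refine Finset.sum_subset ?_ ?_
    · intro i hi
      obtain ⟨x, hx, rfl⟩ := Finset.mem_image.1 hi
      have hx : G.cq x.1 = z := by simpa using hx
      rw [← hx]
      exact G.mem2_items x
    · intro i hi hni
      obtain ⟨-, hi2, hi3⟩ := G.mem_items.1 hi
      rcases Nat.even_or_odd (G.lt G.L i).card with h | h
      · simp only [ht, cast_even h]; ring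
      · rcases G.vodd i hi3 h with h2 | ⟨q, h2⟩
        · rw [hi2] at h2
          simp only [ht, h2, b_add]; ring
        · exfalso
          apply hni
          rcases h2 with h2 | h2
          · refine Finset.mem_image.2 ⟨(q, true), ?_, ?_⟩
            · simp only [Finset.mem_filter, Finset.mem_univ, true_and]
              rw [← G.fs_host, ← h2, hi2]
            · simp [mem2, h2]
          · refine Finset.mem_image.2 ⟨(q, false), ?_, ?_⟩
            · simp only [Finset.mem_filter, Finset.mem_univ, true_and]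
              rw [← G.sn_host, ← h2, hi2]
            · simp [mem2, h2]
  rw [h1, Finset.sum_image (fun x _ y _ h => G.mem2_inj h), Finset.sum_filter,
    Fintype.sum_prod_type, Finset.sum_filter]
  refine Finset.sum_congr rfl fun q _ => ?_
  rw [Fintype.sum_bool]
  by_cases hq : G.cq q = z
  · simp only [hq, if_true, ht, mem2, cast_odd (G.fs_odd q), G.vq q]
    simp only [Bool.false_eq_true, if_false]
    rw [cast_odd (G.sn_odd q)]
    ring
  · simp [hq]

/-- the sum over a subtree -/
lemma sum_lt (i : α ⊕ C) (hi : ∀ p, i = Sum.inl p → p ∈ G.L) :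
    ∑ q ∈ G.lt G.L i, G.val (Sum.inl q) = ((G.lt G.L i).card : ZMod 2) * G.val i := by
  classical
  obtain ⟨M, hM⟩ : ∃ M, ∀ c, G.dep c ≤ M :=
    ⟨Finset.univ.sup G.dep, fun c => Finset.le_sup (Finset.mem_univ c)⟩
  have hletter : ∀ p ∈ G.L, ∑ q ∈ G.lt G.L (Sum.inl p : α ⊕ C), G.val (Sum.inl q) =
      ((G.lt G.L (Sum.inl p : α ⊕ C)).card : ZMod 2) * G.val (Sum.inl p) := by
    intro p hp
    rw [G.lt_inl hp, Finset.sum_singleton, Finset.card_singleton]
    simp
  have key : ∀ (n : ℕ) (z : C), M - G.dep z ≤ n →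
      ∑ q ∈ G.lt G.L (Sum.inr z : α ⊕ C), G.val (Sum.inl q) =
        ((G.lt G.L (Sum.inr z : α ⊕ C)).card : ZMod 2) * G.val (Sum.inr z) := by
    intro n
    induction n with
    | zero =>
      intro z hz
      exact step z (fun c hc hcz => by
        have h1 := G.dep_par c hc
        have h2 := hM c
        rw [hcz] at h1
        omega)
    | succ n ih =>
      intro z hz
      exact step z (fun c hc hcz => by
        have h1 := G.dep_par c hc
        have h2 := hM c
        rw [hcz] at h1
        exact ih c (by omega))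
  rcases i with p | c
  · exact hletter p (hi p rfl)
  · exact key _ c le_rfl
where
  step (z : C) (ih : ∀ c, c ≠ G.r → G.par c = z →
      ∑ q ∈ G.lt G.L (Sum.inr c : α ⊕ C), G.val (Sum.inl q) =
        ((G.lt G.L (Sum.inr c : α ⊕ C)).card : ZMod 2) * G.val (Sum.inr c)) :
      ∑ q ∈ G.lt G.L (Sum.inr z : α ⊕ C), G.val (Sum.inl q) =
        ((G.lt G.L (Sum.inr z : α ⊕ C)).card : ZMod 2) * G.val (Sum.inr z) := by
    classical
    have h1 := G.sum_items G.L z (fun _ => True) (fun q => G.val (Sum.inl q))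
    have h2 := G.sum_items G.L z (fun _ => True) (fun _ => (1 : ZMod 2))
    simp only [Finset.filter_true, Finset.sum_const, nsmul_eq_mul, mul_one] at h1 h2
    have h3 := G.sum_pairs z (fun _ => 1)
    simp only [b_add, zero_mul, Finset.sum_const_zero, one_mul] at h3
    have h4 : ∑ i ∈ G.items G.L z, ∑ q ∈ G.lt G.L i, G.val (Sum.inl q) =
        ∑ i ∈ G.items G.L z, ((G.lt G.L i).card : ZMod 2) * G.val i := by
      refine Finset.sum_congr rfl fun i hi => ?_
      obtain ⟨e1, e2, e3⟩ := G.mem_items.1 hi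
      rcases i with p | c
      · rw [G.lt_inl (e1 p rfl), Finset.sum_singleton, Finset.card_singleton]
        simp
      · exact ih c (fun h => e3 (by rw [h])) e2
    rw [h1, h4, h2, Finset.sum_mul]
    have h5 : ∑ i ∈ G.items G.L z, ((G.lt G.L i).card : ZMod 2) * G.val i +
        ∑ i ∈ G.items G.L z, ((G.lt G.L i).card : ZMod 2) * G.val (Sum.inr z) = 0 := by
      rw [← Finset.sum_add_distrib, ← h3]
      exact Finset.sum_congr rfl fun i _ => by ring
    have key : ∀ x y : ZMod 2, x + y = 0 → x = y := by decide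
    exact key _ _ h5

open Classical in
/-- the sum over the letters of `z` in a cut `P` -/
lemma sum_cut {z : C} (hz : G.val (Sum.inr z) = 0) (P : α → Prop)
    (hP : ∀ p q, p ≤ q → P q → P p)
    (hcut : ∀ i ∈ G.items G.L z, P (G.ihi i) ∨ ¬ P (G.ilo i)) :
    ∑ q ∈ (G.lt G.L (Sum.inr z : α ⊕ C)).filter P, G.val (Sum.inl q) =
      ∑ q with G.cq q = z, ((if P (G.ihi (G.fs q)) then 1 else 0) +
        (if P (G.ihi (G.sn q)) then 1 else 0)) * G.val (G.sn q) := by
  rw [G.sum_items]
  have h1 := G.sum_pairs z (fun i => if P (G.ihi i) then 1 else 0)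
  simp only [hz, add_zero] at h1
  rw [← h1]
  refine Finset.sum_congr rfl fun i hi => ?_
  have hi2 := G.mem_items.1 hi
  rcases hcut i hi with h | h
  · rw [if_pos h, one_mul, ← G.sum_lt i hi2.1, Finset.filter_true_of_mem]
    intro q hq
    exact hP _ _ (G.mem_lt.1 hq).2.2 h
  · have h2 : ¬ P (G.ihi i) := fun h' => h (hP _ _ (G.ile i) h')
    rw [if_neg h2, zero_mul, Finset.filter_false_of_mem, Finset.sum_empty]
    intro q hq h'
    exact h (hP _ _ (G.mem_lt.1 hq).2.1 h')

open Classical in
/-- the sum over the letters in a cut -/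
noncomputable def f (P : α → Prop) : ZMod 2 := ∑ q ∈ G.L.filter P, G.val (Sum.inl q)

open Classical in
lemma f_empty {P : α → Prop} (h : ∀ q, ¬ P q) : G.f P = 0 := by
  unfold f
  rw [Finset.filter_false_of_mem (fun q _ => h q), Finset.sum_empty]

/-- a child in the block of a pair with value 1, or a closed child of value 1 -/
def Blocked (c : C) : Prop :=
  (∃ q, G.cq q = G.par c ∧ G.val (G.sn q) ≠ 0 ∧ G.ilo (G.fs q) ≤ G.lo c ∧
      G.hi c ≤ G.ihi (G.sn q)) ∨
    (G.val (Sum.inr c) ≠ 0 ∧ ∀ j, (G.lo c ≤ G.b j ∧ G.b j ≤ G.hi c) ↔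
      (G.lo c ≤ G.a j ∧ G.a j ≤ G.hi c))

/-- the circles which are in no block -/
inductive Exp : C → Prop
  | root : Exp G.r
  | step (c : C) : c ≠ G.r → Exp (G.par c) → ¬ G.Blocked c → Exp c

lemma exp_par {c : C} (hc : c ≠ G.r) (h : G.Exp c) : G.Exp (G.par c) ∧ ¬ G.Blocked c := by
  cases h with
  | root => exact absurd rfl hc
  | step _ _ h1 h2 => exact ⟨h1, h2⟩

lemma exp_up {z z' : C} (h : Relation.ReflTransGen G.Up z z') (hz : G.Exp z) : G.Exp z' := by
  induction h with
  | refl => exact hz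
  | tail _ h ih =>
    rw [← h.2]
    exact (G.exp_par h.1 ih).1

/-- every position is in a block on an exposed circle, or its circle is exposed -/
lemma cases_pt (z : C) : G.Exp z ∨ ∃ c, c ≠ G.r ∧ G.Exp (G.par c) ∧ G.Blocked c ∧
    Relation.ReflTransGen G.Up z c := by
  have key : ∀ (n : ℕ) (z : C), G.dep z ≤ n → (G.Exp z ∨ ∃ c, c ≠ G.r ∧ G.Exp (G.par c) ∧
      G.Blocked c ∧ Relation.ReflTransGen G.Up z c) := by
    intro n
    induction n with
    | zero =>
      intro z hz
      by_cases h : z = G.r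
      · left; rw [h]; exact Exp.root
      · have := G.dep_par z h
        omega
    | succ n ih =>
      intro z hz
      by_cases h : z = G.r
      · left; rw [h]; exact Exp.root
      · have h1 := G.dep_par z h
        rcases ih (G.par z) (by omega) with h2 | ⟨c, h2, h3, h4, h5⟩
        · by_cases h3 : G.Blocked z
          · right; exact ⟨z, h, h2, h3, Relation.ReflTransGen.refl⟩
          · left; exact Exp.step z h h2 h3
        · right; exact ⟨c, h2, h3, h4, Relation.ReflTransGen.head ⟨h, rfl⟩ h5⟩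
  exact key _ z le_rfl

open Classical in
/-- a lower set of positions which cuts the subtree of `z` -/
lemma f_split {z : C} {P : α → Prop} (h1 : ∀ q, q < G.lo z → P q) (h2 : ∀ q, P q → q ≤ G.hi z) :
    G.f P = G.f (fun q => q < G.lo z) +
      ∑ q ∈ (G.lt G.L (Sum.inr z : α ⊕ C)).filter P, G.val (Sum.inl q) := by
  unfold f
  rw [← Finset.sum_filter_add_sum_filter_not (G.L.filter P) (fun q => q < G.lo z)]
  congr 1
  · refine Finset.sum_congr ?_ fun _ _ => rfl
    ext q
    simp only [Finset.mem_filter]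
    exact ⟨fun h => ⟨h.1.1, h.2⟩, fun h => ⟨⟨h.1, h1 q h.2⟩, h.2⟩⟩
  · refine Finset.sum_congr ?_ fun _ _ => rfl
    ext q
    simp only [Finset.mem_filter, Contour.mem_lt, Contour.ilo_inr, Contour.ihi_inr, not_lt]
    exact ⟨fun h => ⟨⟨h.1.1, h.2, h2 q h.1.2⟩, h.1.2⟩, fun h => ⟨⟨h.1.1, h.2⟩, h.1.2.1⟩⟩

/-- a cut without straddling pairs of value 1 -/
lemma f_zero {z : C} (hz : G.val (Sum.inr z) = 0) (hf : G.f (fun q => q < G.lo z) = 0)
    {P : α → Prop} (hP : ∀ p q, p ≤ q → P q → P p) (h1 : ∀ q, q < G.lo z → P q)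
    (h2 : ∀ q, P q → q ≤ G.hi z)
    (hcut : ∀ i ∈ G.items G.L z, P (G.ihi i) ∨ ¬ P (G.ilo i))
    (hstr : ∀ q, G.cq q = z → G.val (G.sn q) ≠ 0 → P (G.ihi (G.fs q)) → P (G.ihi (G.sn q))) :
    G.f P = 0 := by
  classical
  rw [G.f_split h1 h2, hf, zero_add, G.sum_cut hz P hP hcut]
  refine Finset.sum_eq_zero fun q hq => ?_
  have hq : G.cq q = z := by simpa using hq
  by_cases hv : G.val (G.sn q) = 0
  · rw [hv, mul_zero]
  · have h3 := hstr q hq hv
    by_cases h4 : P (G.ihi (G.sn q))
    · have h5 : P (G.ihi (G.fs q)) := hP _ _ ((G.fs_sn q).le.trans (G.ile _)) h4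
      rw [if_pos h4, if_pos h5, b_add, zero_mul]
    · have h5 : ¬ P (G.ihi (G.fs q)) := fun h => h4 (h3 h)
      rw [if_neg h4, if_neg h5, add_zero, zero_mul]

/-- exposed circles have value zero -/
lemma exp_val (h0 : G.val (Sum.inr G.r) = 0) {z : C} (hz : G.Exp z) :
    G.val (Sum.inr z) = 0 ∧ G.f (fun q => q < G.lo z) = 0 := by
  classical
  induction hz with
  | root =>
    exact ⟨h0, G.f_empty fun q h => absurd (G.top q).1 (not_le.2 h)⟩
  | step c hc hz hb ih =>
    obtain ⟨ih1, ih2⟩ := ih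
    have hval : G.val (Sum.inr c) = 0 := by
      by_contra h
      rcases Nat.even_or_odd (G.lt G.L (Sum.inr c : α ⊕ C)).card with he | ho
      · rcases G.veven c hc he with h1 | ⟨q, h1, h2, h3 | h3⟩
        · exact h (h1.trans ih1)
        · exact hb (Or.inl ⟨q, h1, h2 ▸ h, ((G.ile _).trans_lt h3.1).le,
            (h3.2.trans_le (G.ile _)).le⟩)
        · exact hb (Or.inr ⟨h, h3⟩)
      · rcases G.vodd (Sum.inr c) (fun h => hc (Sum.inr_injective h)) ho with h1 | ⟨q, h1 | h1⟩
        · exact h (h1.trans ih1)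
        · refine hb (Or.inl ⟨q, ?_, ?_, ?_, ?_⟩)
          · rw [← G.fs_host, ← h1]; rfl
          · rw [← G.vq, ← h1]; exact h
          · rw [← h1]; exact le_rfl
          · have := G.fs_sn q
            rw [← h1] at this
            exact this.le.trans (G.ile _)
        · refine hb (Or.inl ⟨q, ?_, ?_, ?_, ?_⟩)
          · rw [← G.sn_host, ← h1]; rfl
          · rw [← h1]; exact h
          · have := G.fs_sn q
            rw [← h1] at this
            exact (G.ile _).trans this.le
          · rw [← h1]; exact le_rfl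
    refine ⟨hval, ?_⟩
    have hcm := G.child_mem hc ⟨le_rfl, G.le c⟩
    have hcne : (Sum.inr c : α ⊕ C) ≠ Sum.inr G.r := fun h => hc (Sum.inr_injective h)
    have hcut : ∀ i : α ⊕ C, G.host i = G.par c → i ≠ Sum.inr G.r →
        G.ihi i < G.lo c ∨ ¬ G.ilo i < G.lo c := by
      intro i hi1 hi2
      by_cases h : i = Sum.inr c
      · right; rw [h]; exact lt_irrefl _
      · rcases G.item_disj (i := i) (i' := Sum.inr c) hi1 hi2 hcne h with h1 | h1
        · left; exact h1
        · right; exact not_lt.2 ((G.le c).trans h1.le)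
    refine G.f_zero ih1 ih2 (P := fun q => q < G.lo c) (fun p q h1 h2 => h1.trans_lt h2)
      (fun q h => h.trans_le hcm.1) (fun q h => h.le.trans hcm.2) ?_ ?_
    · intro i hi
      obtain ⟨-, hi1, hi2⟩ := G.mem_items.1 hi
      exact hcut i hi1 hi2
    · intro q hq hv h1
      by_contra h2
      have h3 : G.hi c ≤ G.ihi (G.sn q) := by
        by_cases h : G.sn q = Sum.inr c
        · rw [h]; exact le_rfl
        · rcases G.item_disj (i := G.sn q) (i' := Sum.inr c) ((G.sn_host q).trans hq)
            (G.sn_ne q) hcne h with h4 | h4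
          · exact absurd h4 h2
          · exact h4.le.trans (G.ile _)
      exact hb (Or.inl ⟨q, hq, hv, ((G.ile _).trans_lt h1).le, h3⟩)

/-- positions in no block -/
lemma pt_zero (h0 : G.val (Sum.inr G.r) = 0) {p : α} (hp : G.Exp (G.pt p))
    (hb : ∀ q, G.cq q = G.pt p → G.val (G.sn q) ≠ 0 →
      ¬ (G.ilo (G.fs q) ≤ p ∧ p ≤ G.ihi (G.sn q))) :
    G.f (fun q => q < p) = 0 ∧ G.f (fun q => q ≤ p) = 0 := by
  obtain ⟨h1, h2⟩ := G.exp_val h0 hp
  have h3 := G.pt_mem p
  constructor
  · refine G.f_zero h1 h2 (fun x y h4 h5 => h4.trans_lt h5) (fun q h => h.trans_le h3.1)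
      (fun q h => h.le.trans h3.2) ?_ ?_
    · intro i hi
      obtain ⟨-, hi1, hi2⟩ := G.mem_items.1 hi
      rcases i with x | c
      · exact Classical.em _
      · rcases G.pt_disj c p (fun h => hi2 (by rw [h])) hi1.symm with h | h
        · right; exact not_lt.2 h.le
        · left; exact h
    · intro q hq hv h4
      by_contra h5
      exact hb q hq hv ⟨((G.ile _).trans_lt h4).le, not_lt.1 h5⟩
  · refine G.f_zero h1 h2 (fun x y h4 h5 => h4.trans h5) (fun q h => h.le.trans h3.1)
      (fun q h => h.trans h3.2) ?_ ?_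
    · intro i hi
      obtain ⟨-, hi1, hi2⟩ := G.mem_items.1 hi
      rcases i with x | c
      · exact Classical.em _
      · rcases G.pt_disj c p (fun h => hi2 (by rw [h])) hi1.symm with h | h
        · right; exact not_le.2 h
        · left; exact h.le
    · intro q hq hv h4
      by_contra h5
      exact hb q hq hv ⟨(G.ile _).trans h4, (not_le.1 h5).le⟩

/-- where the partial sums are not zero -/
lemma in_block (h0 : G.val (Sum.inr G.r) = 0) {p : α}
    (h : G.f (fun q => q < p) ≠ 0 ∨ G.f (fun q => q ≤ p) ≠ 0) :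
    (∃ q, G.Exp (G.cq q) ∧ G.val (G.sn q) ≠ 0 ∧ G.ilo (G.fs q) ≤ p ∧ p ≤ G.ihi (G.sn q)) ∨
    ∃ c, c ≠ G.r ∧ G.Blocked c ∧ (∀ j, (G.lo c ≤ G.b j ∧ G.b j ≤ G.hi c) ↔
      (G.lo c ≤ G.a j ∧ G.a j ≤ G.hi c)) ∧ G.lo c ≤ p ∧ p ≤ G.hi c := by
  rcases G.cases_pt (G.pt p) with h1 | ⟨c, h1, h2, h3, h4⟩
  · left
    by_contra hcon
    push Not at hcon
    obtain ⟨h2, h3⟩ := G.pt_zero h0 h1 (fun q hq hv h => by
      have := hcon q (by rw [hq]; exact h1) hv h.1
      exact absurd h.2 (not_le.2 this))
    rcases h with h | h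
    · exact h h2
    · exact h h3
  · have h5 := G.mem_iff.2 h4
    rcases h3 with ⟨q, h6, h7, h8, h9⟩ | ⟨h6, h7⟩
    · left
      exact ⟨q, by rw [h6]; exact h2, h7, h8.trans h5.1, h5.2.trans h9⟩
    · right
      exact ⟨c, h1, Or.inr ⟨h6, h7⟩, h7, h5.1, h5.2⟩

open Classical in
/-- the partial sum directly before the port of a pair of type E -/
lemma f_E (h0 : G.val (Sum.inr G.r) = 0) {q : Q} (hq : G.Exp (G.cq q)) (hE : G.E q) :
    G.f (fun x => x < G.b (G.jn q)) = G.val (G.sn q) := by
  have hs := G.hE q hE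
  have hpt : G.pt (G.b (G.jn q)) = G.cq q := by
    rw [← G.sn_host q, hs]; rfl
  have h3 := G.pt_mem (G.b (G.jn q))
  rw [hpt] at h3
  obtain ⟨h1, h2⟩ := G.exp_val h0 hq
  have hfs : G.ihi (G.fs q) < G.b (G.jn q) := by
    have := G.fs_sn q
    rw [hs] at this
    exact this
  have hsn : G.ihi (G.sn q) = G.b (G.jn q) := by rw [hs]; rfl
  rw [G.f_split (z := G.cq q) (fun x h => h.trans_le h3.1) (fun x h => h.le.trans h3.2), h2,
    zero_add, G.sum_cut h1 _ (fun x y h4 h5 => h4.trans_lt h5), Finset.sum_eq_single q]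
  · rw [if_pos hfs, if_neg (by rw [hsn]; exact lt_irrefl _)]
    ring
  · intro q' hq' hne
    have hq' : G.cq q' = G.cq q := by simpa using hq'
    rcases G.qdisj q' q hne hq' with h | h
    · have h5 : G.ihi (G.sn q') < G.b (G.jn q) := h.trans_le ((G.ile _).trans hfs.le)
      have h6 : G.ihi (G.fs q') < G.b (G.jn q) := ((G.fs_sn q').trans_le (G.ile _)).trans h5
      rw [if_pos h5, if_pos h6, b_add, zero_mul]
    · rw [hsn] at h
      have h5 : ¬ G.ihi (G.fs q') < G.b (G.jn q) := not_lt.2 (h.le.trans (G.ile _))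
      have h6 : ¬ G.ihi (G.sn q') < G.b (G.jn q) :=
        fun h7 => h5 (((G.fs_sn q').trans_le (G.ile _)).trans h7)
      rw [if_neg h5, if_neg h6, add_zero, zero_mul]
  · intro h
    exact absurd (by simp) h
  · intro i hi
    obtain ⟨-, hi1, hi2⟩ := G.mem_items.1 hi
    rcases i with x | c
    · exact Classical.em _
    · rcases G.pt_disj c (G.b (G.jn q)) (fun h => hi2 (by rw [h])) (hpt.trans hi1.symm)
        with h | h
      · right; exact not_lt.2 h.le
      · left; exact h

open Classical in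
/-- the partial sum up to the port of a pair of type O -/
lemma f_O (h0 : G.val (Sum.inr G.r) = 0) {q : Q} (hq : G.Exp (G.cq q)) (hE : ¬ G.E q) :
    G.f (fun x => x ≤ G.a (G.jn q)) = G.val (G.sn q) := by
  have hs := G.hO q hE
  have hpt : G.pt (G.a (G.jn q)) = G.cq q := by
    rw [← G.fs_host q, hs]; rfl
  have h3 := G.pt_mem (G.a (G.jn q))
  rw [hpt] at h3
  obtain ⟨h1, h2⟩ := G.exp_val h0 hq
  have hfs : G.ihi (G.fs q) = G.a (G.jn q) := by rw [hs]; rfl
  have hsn : G.a (G.jn q) < G.ihi (G.sn q) := by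
    have := (G.fs_sn q).trans_le (G.ile _)
    rwa [hfs] at this
  rw [G.f_split (z := G.cq q) (fun x h => h.le.trans h3.1) (fun x h => h.trans h3.2), h2,
    zero_add, G.sum_cut h1 _ (fun x y h4 h5 => h4.trans h5), Finset.sum_eq_single q]
  · rw [if_pos hfs.le, if_neg (not_le.2 hsn)]
    ring
  · intro q' hq' hne
    have hq' : G.cq q' = G.cq q := by simpa using hq'
    rcases G.qdisj q' q hne hq' with h | h
    · have h7 : G.ilo (G.fs q) = G.a (G.jn q) := by rw [hs]; rfl
      rw [h7] at h
      have h6 : G.ihi (G.fs q') ≤ G.a (G.jn q) :=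
        (((G.fs_sn q').trans_le (G.ile _)).trans h).le
      rw [if_pos h.le, if_pos h6, b_add, zero_mul]
    · have h5 : ¬ G.ihi (G.fs q') ≤ G.a (G.jn q) :=
        not_le.2 (hsn.trans (h.trans_le (G.ile _)))
      have h6 : ¬ G.ihi (G.sn q') ≤ G.a (G.jn q) :=
        fun h7 => h5 (((G.fs_sn q').trans_le (G.ile _)).le.trans h7)
      rw [if_neg h5, if_neg h6, add_zero, zero_mul]
  · intro h
    exact absurd (by simp) h
  · intro i hi
    obtain ⟨-, hi1, hi2⟩ := G.mem_items.1 hi
    rcases i with x | c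
    · exact Classical.em _
    · rcases G.pt_disj c (G.a (G.jn q)) (fun h => hi2 (by rw [h])) (hpt.trans hi1.symm)
        with h | h
      · right; exact not_le.2 h
      · left; exact h.le

/-- closure -/
lemma f_clo (j : J) : G.f (fun x => x ≤ G.a j) = G.f (fun x => x < G.b j) := by
  have key : ∀ s t u : Finset α, (∀ q, q ∈ s ↔ q ∈ t ∨ q ∈ u) → (∀ q, q ∈ t → q ∉ u) →
      ∑ q ∈ s, G.val (Sum.inl q) = ∑ q ∈ t, G.val (Sum.inl q) + ∑ q ∈ u, G.val (Sum.inl q) := by
    classical
    intro s t u h1 h2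
    rw [← Finset.sum_union (Finset.disjoint_left.2 (fun q => h2 q))]
    exact Finset.sum_congr (by ext q; rw [h1, Finset.mem_union]) fun _ _ => rfl
  unfold f
  refine (key _ _ _ ?_ ?_).trans ((congrArg _ (G.clo j)).trans (add_zero _))
  · intro q
    simp only [Finset.mem_filter]
    constructor
    · rintro ⟨h1, h2⟩
      rcases lt_or_ge q (G.b j) with h | h
      · exact Or.inl ⟨h1, h⟩
      · exact Or.inr ⟨h1, h, h2⟩
    · rintro (⟨h1, h2⟩ | ⟨h1, -, h2⟩)
      · exact ⟨h1, h2.le.trans (G.hba j).le⟩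
      · exact ⟨h1, h2⟩
  · intro q
    simp only [Finset.mem_filter]
    rintro ⟨-, h1⟩ ⟨-, h2, -⟩
    exact absurd h1 (not_lt.2 h2)

/-- blocks on different exposed circles are disjoint -/
lemma nested_absurd {q q' : Q} (h : G.cq q ≠ G.cq q')
    (hup : Relation.ReflTransGen G.Up (G.cq q') (G.cq q)) (hexp : G.Exp (G.cq q'))
    (hv : G.val (G.sn q) ≠ 0) {p : α} (hp : G.ilo (G.fs q) ≤ p ∧ p ≤ G.ihi (G.sn q))
    (hp' : G.lo (G.cq q') ≤ p ∧ p ≤ G.hi (G.cq q')) : False := by
  rcases Relation.ReflTransGen.cases_tail hup with h1 | ⟨c, h1, h2, h3⟩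
  · exact h h1
  have hpc := G.up_mem h1 hp'
  have hne : (Sum.inr c : α ⊕ C) ≠ Sum.inr G.r := fun h => h2 (Sum.inr_injective h)
  refine (G.exp_par h2 (G.exp_up h1 hexp)).2 (Or.inl ⟨q, h3.symm, hv, ?_, ?_⟩)
  · by_cases h4 : G.fs q = Sum.inr c
    · rw [h4]; exact le_rfl
    · rcases G.item_disj (i := G.fs q) (i' := Sum.inr c) ((G.fs_host q).trans h3.symm)
        (G.fs_ne q) hne h4 with h5 | h5
      · exact (G.ile _).trans h5.le
      · exact absurd (hpc.2.trans_lt h5) (not_lt.2 hp.1)
  · by_cases h4 : G.sn q = Sum.inr c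
    · rw [h4]; exact le_rfl
    · rcases G.item_disj (i := G.sn q) (i' := Sum.inr c) ((G.sn_host q).trans h3.symm)
        (G.sn_ne q) hne h4 with h5 | h5
      · exact absurd (hp.2.trans_lt h5) (not_lt.2 hpc.1)
      · exact (h5.trans_le (G.ile _)).le

lemma block_mem {q : Q} {p : α} (hp : G.ilo (G.fs q) ≤ p ∧ p ≤ G.ihi (G.sn q)) :
    G.lo (G.cq q) ≤ p ∧ p ≤ G.hi (G.cq q) := by
  have h1 := G.item_mem (G.fs_ne q) ⟨le_rfl, G.ile _⟩
  have h2 := G.item_mem (G.sn_ne q) ⟨G.ile _, le_rfl⟩
  rw [G.fs_host] at h1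
  rw [G.sn_host] at h2
  exact ⟨h1.1.trans hp.1, hp.2.trans h2.2⟩

/-- there is no pair with value 1 on an exposed circle -/
theorem no_block (h0 : G.val (Sum.inr G.r) = 0) {q : Q} (hq : G.Exp (G.cq q)) :
    G.val (G.sn q) = 0 := by
  classical
  have hno : IsEmpty {q : Q // G.Exp (G.cq q) ∧ G.val (G.sn q) ≠ 0} := by
    refine block_core (K := {q : Q // G.Exp (G.cq q) ∧ G.val (G.sn q) ≠ 0}) G.b G.a G.b_inj
      G.a_inj G.hba G.nest (fun k => G.ilo (G.fs k.1)) (fun k => G.ihi (G.sn k.1)) ?_ ?_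
      (fun k => G.jn k.1) (fun k => G.E k.1) ?_ ?_ ?_ ?_ ?_
    · intro k
      exact (G.ile _).trans ((G.fs_sn k.1).le.trans (G.ile _))
    · rintro ⟨k, hk, hv⟩ ⟨k', hk', hv'⟩ hne
      by_cases h : G.cq k = G.cq k'
      · exact G.qdisj k k' (fun h' => hne (by simp [h'])) h
      · by_contra hcon
        push Not at hcon
        have hcon1 : G.ilo (G.fs k') ≤ G.ihi (G.sn k) := hcon.1
        have hcon2 : G.ilo (G.fs k) ≤ G.ihi (G.sn k') := hcon.2
        have e1 : G.ilo (G.fs k) ≤ G.ihi (G.sn k) :=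
          (G.ile _).trans ((G.fs_sn k).le.trans (G.ile _))
        have e2 : G.ilo (G.fs k') ≤ G.ihi (G.sn k') :=
          (G.ile _).trans ((G.fs_sn k').le.trans (G.ile _))
        set p := max (G.ilo (G.fs k)) (G.ilo (G.fs k')) with hp
        have hp1 : G.ilo (G.fs k) ≤ p ∧ p ≤ G.ihi (G.sn k) :=
          ⟨le_max_left _ _, max_le e1 hcon1⟩
        have hp2 : G.ilo (G.fs k') ≤ p ∧ p ≤ G.ihi (G.sn k') :=
          ⟨le_max_right _ _, max_le hcon2 e2⟩
        have m1 := G.block_mem hp1
        have m2 := G.block_mem hp2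
        have r1 := G.mem_iff.1 m1
        have r2 := G.mem_iff.1 m2
        have hru : Relator.RightUnique G.Up := fun x y z hy hz => hy.2.symm.trans hz.2
        rcases Relation.ReflTransGen.total_of_right_unique hru r1 r2 with h3 | h3
        · exact G.nested_absurd (fun h' => h h'.symm) h3 hk hv' hp2 m1
        · exact G.nested_absurd h h3 hk' hv hp1 m2
    · intro k hk
      show G.ihi (G.sn k.1) = _
      rw [G.hE _ hk]; rfl
    · intro k hk
      show G.ilo (G.fs k.1) = _
      rw [G.hO _ hk]; rfl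
    · intro k k' hk hk' h
      have h1 := G.sn_odd k.1
      rw [G.hE _ hk] at h1
      have h2 := G.fs_odd k'.1
      rw [G.hO _ hk', ← h] at h2
      exact G.one _ (G.letter_mem h1) (G.letter_mem h2)
    · rintro ⟨k, hk, hv⟩ hE
      have h1 := G.f_E h0 hk hE
      have h2 := G.f_clo (G.jn k)
      rcases G.in_block h0 (p := G.a (G.jn k)) (Or.inr (by rw [h2, h1]; exact hv)) with
        ⟨q', h3, h4, h5⟩ | ⟨c, h3, h4, h5, h6⟩
      · exact ⟨⟨q', h3, h4⟩, h5⟩
      · exfalso
        have h7 := G.mem_iff.1 ((h5 _).2 h6)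
        have hpt : G.pt (G.b (G.jn k)) = G.cq k := by
          rw [← G.sn_host k, G.hE k hE]; rfl
        rw [hpt] at h7
        exact (G.exp_par h3 (G.exp_up h7 hk)).2 h4
    · rintro ⟨k, hk, hv⟩ hE
      have h1 := G.f_O h0 hk hE
      have h2 := G.f_clo (G.jn k)
      rcases G.in_block h0 (p := G.b (G.jn k)) (Or.inl (by rw [← h2, h1]; exact hv)) with
        ⟨q', h3, h4, h5⟩ | ⟨c, h3, h4, h5, h6⟩
      · exact ⟨⟨q', h3, h4⟩, h5⟩
      · exfalso
        have h7 := G.mem_iff.1 ((h5 _).1 h6)
        have hpt : G.pt (G.a (G.jn k)) = G.cq k := by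
          rw [← G.fs_host k, G.hO k hE]; rfl
        rw [hpt] at h7
        exact (G.exp_par h3 (G.exp_up h7 hk)).2 h4
  by_contra h
  exact hno.false ⟨q, hq, h⟩

/-- all values are zero -/
theorem val_zero (h0 : G.val (Sum.inr G.r) = 0) :
    (∀ c, G.val (Sum.inr c) = 0) ∧ ∀ p ∈ G.L, G.val (Sum.inl p) = 0 := by
  have hexp : ∀ (n : ℕ) (c : C), G.dep c ≤ n → G.Exp c := by
    intro n
    induction n with
    | zero =>
      intro c hc
      by_cases h : c = G.r
      · rw [h]; exact Exp.root
      · have := G.dep_par c h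
        omega
    | succ n ih =>
      intro c hc
      by_cases h : c = G.r
      · rw [h]; exact Exp.root
      · have h1 := G.dep_par c h
        have h2 := ih (G.par c) (by omega)
        refine Exp.step c h h2 ?_
        rintro (⟨q, h3, h4, -⟩ | ⟨h3, -⟩)
        · exact h4 (G.no_block h0 (by rw [h3]; exact h2))
        · have hv := (G.exp_val h0 h2).1
          rcases Nat.even_or_odd (G.lt G.L (Sum.inr c : α ⊕ C)).card with he | ho
          · rcases G.veven c h he with h5 | ⟨q, h5, h6, -⟩
            · exact h3 (h5.trans hv)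
            · exact h3 (h6.trans (G.no_block h0 (by rw [h5]; exact h2)))
          · rcases G.vodd (Sum.inr c) (fun h' => h (Sum.inr_injective h')) ho with h5 | ⟨q, h5⟩
            · exact h3 (h5.trans hv)
            · have hq : G.cq q = G.par c := by
                rcases h5 with h5 | h5
                · rw [← G.fs_host, ← h5]; rfl
                · rw [← G.sn_host, ← h5]; rfl
              have h6 := G.no_block h0 (q := q) (by rw [hq]; exact h2)
              rcases h5 with h5 | h5
              · exact h3 (by rw [h5, G.vq, h6])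
              · exact h3 (by rw [h5, h6])
  have hE : ∀ c, G.Exp c := fun c => hexp _ c le_rfl
  refine ⟨fun c => (G.exp_val h0 (hE c)).1, ?_⟩
  intro p hp
  have hodd : Odd (G.lt G.L (Sum.inl p : α ⊕ C)).card := by
    rw [G.lt_inl hp, Finset.card_singleton]; exact odd_one
  rcases G.vodd (Sum.inl p) (by simp) hodd with h | ⟨q, h | h⟩
  · rw [h]; exact (G.exp_val h0 (hE _)).1
  · rw [h, G.vq]; exact G.no_block h0 (hE _)
  · rw [h]; exact G.no_block h0 (hE _)

/-- **all values are equal** -/
theorem const : (∀ c, G.val (Sum.inr c) = G.val (Sum.inr G.r)) ∧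
    ∀ p ∈ G.L, G.val (Sum.inl p) = G.val (Sum.inr G.r) := by
  set k := G.val (Sum.inr G.r) with hk
  let G' : Graph C α Q J := { G with
    val := fun i => G.val i + k
    clo := by
      intro j
      rw [Finset.sum_add_distrib, G.clo j, Finset.sum_const, nsmul_eq_mul,
        cast_even (G.clo1 j)]
      ring
    vq := fun q => by rw [G.vq q]
    vodd := by
      intro i h1 h2
      rcases G.vodd i h1 h2 with h | h
      · left; rw [h]
      · right; exact h
    veven := by
      intro c h1 h2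
      rcases G.veven c h1 h2 with h | ⟨q, h, h3, h4⟩
      · left; rw [h]
      · right; exact ⟨q, h, by rw [h3], h4⟩ }
  have h0 : G'.val (Sum.inr G'.r) = 0 := b_add k
  obtain ⟨h1, h2⟩ := G'.val_zero h0
  have key : ∀ x y : ZMod 2, x + y = 0 → x = y := by decide
  exact ⟨fun c => key _ _ (h1 c), fun p hp => key _ _ (h2 p hp)⟩

end Graph

/-- closure of an interval under the chords -/
theorem clo_of_chords {α : Type*} [LinearOrder α] {L : Finset α} {V : α → ZMod 2} {x y : α}
    (ch : α → α) (hL : ∀ q ∈ L, ch q ∈ L) (hch : ∀ q ∈ L, ch (ch q) = q)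
    (hne : ∀ q ∈ L, ch q ≠ q) (hV : ∀ q ∈ L, V (ch q) = V q)
    (hxy : ∀ q ∈ L, x ≤ q → q ≤ y → x ≤ ch q ∧ ch q ≤ y) :
    ∑ q ∈ L with (x ≤ q ∧ q ≤ y), V q = 0 ∧ Even (L.filter fun q => x ≤ q ∧ q ≤ y).card := by
  have key : ∀ W : α → ZMod 2, (∀ q ∈ L, W (ch q) = W q) →
      ∑ q ∈ L with (x ≤ q ∧ q ≤ y), W q = 0 := by
    intro W hW
    refine Finset.sum_involution (fun q _ => ch q) ?_ ?_ ?_ ?_
    · intro q hq
      rw [hW q (Finset.mem_filter.1 hq).1]
      exact Graph.b_add _
    · intro q hq _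
      exact hne q (Finset.mem_filter.1 hq).1
    · intro q hq
      obtain ⟨h1, h2, h3⟩ := Finset.mem_filter.1 hq
      exact Finset.mem_filter.2 ⟨hL q h1, hxy q h1 h2 h3⟩
    · intro q hq
      exact hch q (Finset.mem_filter.1 hq).1
  refine ⟨key V hV, ?_⟩
  have h1 := key (fun _ => 1) (fun _ _ => rfl)
  rw [Finset.sum_const, nsmul_eq_mul, mul_one] at h1
  exact (ZMod.natCast_eq_zero_iff_even).1 h1

end Pool.Agent.MP42.U
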