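import Pool.Agent.MP42.U.NodeX0

/-!
# Semantic units

Tokens of type `T`.  A lettered word is a list of pairs (letter, token), `true` = pop, `false` = push.
`SU T ok` = unit: the lettered words in the two states, what the walk does, heights.
`SU.fr t` = free token, `SU.fx t` = forced pop, `SU.ev a b` = even child, `SU.br f m g` = bracket
(closed unit): `f` pushes, the even or closed units `m`, `g` pops, `SU.rx a b m x` = even child with
near+near allowed, even or closed units `m`, a forced pop `x`: together a free token.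
-/

set_option autoImplicit false

namespace Pool.Agent.MP42.U

variable {T : Type*}

/-- the height of a lettered word -/
def hl (w : List (Bool × T)) : ℤ := (w.map fun q => if q.1 then (1 : ℤ) else -1).sum

@[simp] lemma hl_nil : hl ([] : List (Bool × T)) = 0 := rfl

@[simp] lemma hl_cons (q : Bool × T) (w : List (Bool × T)) :
    hl (q :: w) = (if q.1 then 1 else -1) + hl w := by simp [hl]

@[simp] lemma hl_append (w w' : List (Bool × T)) : hl (w ++ w') = hl w + hl w' := by simp [hl]

/-- the heights of the initial segments are in `[-d, e]` -/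
def Par (d e : ℤ) (w : List (Bool × T)) : Prop :=
  ∀ w₁ w₂, w = w₁ ++ w₂ → -d ≤ hl w₁ ∧ hl w₁ ≤ e

lemma Par.mono {d e d' e' : ℤ} {w : List (Bool × T)} (h : Par d e w) (hd : d ≤ d') (he : e ≤ e') :
    Par d' e' w := by
  intro w₁ w₂ hw
  have := h w₁ w₂ hw
  omega

lemma par_append {d e d' e' D E : ℤ} {w w' : List (Bool × T)} (h : Par d e w) (h' : Par d' e' w')
    (h1 : d ≤ D) (h2 : e ≤ E) (h3 : d' - hl w ≤ D) (h4 : hl w + e' ≤ E) : Par D E (w ++ w') := by
  intro w₁ w₂ hw
  rcases List.append_eq_append_iff.1 hw with ⟨a, h5, h6⟩ | ⟨a, h5, h6⟩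
  · have h7 := h' a w₂ h6
    rw [h5, hl_append]
    omega
  · have h7 := h w₁ a h5
    omega

lemma par_nil {d e : ℤ} (h : 0 ≤ d) (h' : 0 ≤ e) : Par d e ([] : List (Bool × T)) := by
  intro w₁ w₂ hw
  have : w₁ = [] := (List.append_eq_nil_iff.1 hw.symm).1
  rw [this, hl_nil]
  omega

lemma par_single {b : Bool} {t : T} {d e : ℤ} (h : 0 ≤ d) (h' : 0 ≤ e)
    (h1 : -d ≤ if b then 1 else -1) (h2 : (if b then 1 else -1) ≤ e) : Par d e [(b, t)] := by
  intro w₁ w₂ hw
  match w₁, hw with
  | [], _ => rw [hl_nil]; omega
  | [q], hw =>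
    simp only [List.cons_append, List.nil_append, List.cons.injEq] at hw
    rw [← hw.1]
    simp only [hl_cons, hl_nil, add_zero]
    exact ⟨h1, h2⟩
  | q :: q' :: w₁, hw => simp at hw

/-- the values on a lettered word -/
def lv (V : T → B) (w : List (Bool × T)) : List (Bool × B) := w.map fun q => (q.1, V q.2)

@[simp] lemma lv_nil (V : T → B) : lv V [] = [] := rfl

@[simp] lemma lv_cons (V : T → B) (q : Bool × T) (w : List (Bool × T)) :
    lv V (q :: w) = (q.1, V q.2) :: lv V w := rfl

@[simp] lemma lv_append (V : T → B) (w w' : List (Bool × T)) :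
    lv V (w ++ w') = lv V w ++ lv V w' := by simp [lv]

lemma ht_lv (V : T → B) (w : List (Bool × T)) : ht (lv V w) = hl w := by
  induction w with
  | nil => rfl
  | cons q w ih => simp [ht, ← ih]

/-- the scalar product over a list of tokens -/
def sp (V V' : T → B) (ts : List T) : B := (ts.map fun x => V x * V' x).sum

@[simp] lemma sp_nil (V V' : T → B) : sp V V' [] = 0 := rfl

@[simp] lemma sp_cons (V V' : T → B) (t : T) (ts : List T) :
    sp V V' (t :: ts) = V t * V' t + sp V V' ts := by simp [sp]

@[simp] lemma sp_append (V V' : T → B) (ts ts' : List T) :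
    sp V V' (ts ++ ts') = sp V V' ts + sp V V' ts' := by simp [sp]

/-- closed walk along a lettered word -/
def Cl (V : T → B) (w : List (Bool × T)) : Prop := ∃ S, Run (lv V w) S S ∧ Deep S

lemma run_deep {w : List (Bool × B)} : ∀ {S S' : ℕ → B} {K : ℕ} {c : B}, Run w S S' →
    (∀ j, K ≤ j → S j = c) → ∀ j, K + w.length ≤ j → S' j = c := by
  induction w with
  | nil =>
    intro S S' K c h hS j hj
    rw [run_nil] at h
    rw [← h]
    exact hS j (by simpa using hj)
  | cons p w ih =>
    obtain ⟨b, a⟩ := p
    intro S S' K c h hS j hj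
    simp only [List.length_cons] at hj
    cases b
    · refine ih (K := K + 1) (S := push a S) h ?_ j (by omega)
      intro i hi
      obtain ⟨i, rfl⟩ : ∃ k, i = k + 1 := ⟨i - 1, by omega⟩
      exact hS i (by omega)
    · refine ih (K := K) (S := tl S) h.2 ?_ j (by omega)
      intro i hi
      exact hS (i + 1) (by omega)

/-- rotation of a closed walk -/
lemma Cl.rot {V : T → B} {w w' : List (Bool × T)} (h : Cl V (w ++ w')) : Cl V (w' ++ w) := by
  obtain ⟨S, h1, K, c, h2⟩ := h
  rw [lv_append, run_append] at h1
  obtain ⟨S₁, h3, h4⟩ := h1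
  refine ⟨S₁, ?_, _, c, run_deep h3 h2⟩
  rw [lv_append, run_append]
  exact ⟨S, h4, h3⟩

/-- the scalar product of two solutions over a closed walk of height two -/
lemma Cl.par {V V' : T → B} {w : List (Bool × T)} (hh : hl w = 2) (h : Cl V w) (h' : Cl V' w) :
    sp V V' (w.map Prod.snd) = 0 := by
  obtain ⟨S, h1, K, c, h2⟩ := h
  obtain ⟨R', h3, K', c', h4⟩ := h'
  have h5 := run_mul (s := fun q : Bool × T => q.1) (V := fun q => V q.2) (V' := fun q => V' q.2)
    h1 h3
  have h6 : ht (w.map fun q => (q.1, V q.2 * V' q.2)) = 2 := by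
    rw [← hh, ← ht_lv (fun t => V t * V' t)]
    rfl
  have h7 := run_parity h5 h6
    (K := max (max K K') (w.map fun q => (q.1, V q.2 * V' q.2)).length) (le_max_right _ _)
  have h8 : vs (w.map fun q => (q.1, V q.2 * V' q.2)) = sp V V' (w.map Prod.snd) := by
    unfold vs sp
    rw [List.map_map, List.map_map]
    rfl
  rw [← h8, h7, h2 _ (by omega), h4 _ (by omega), h2 _ (by omega), h4 _ (by omega)]
  exact b_add_self _

/-- semantic units -/
structure SU (T : Type*) (ok : Bool × T → Prop) where
  /-- the kind -/
  kind : Kind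
  /-- the lettered words -/
  lts : Bool → List (Bool × T)
  /-- the tokens -/
  tks : List T
  ne : tks ≠ []
  lts_snd : ∀ b, (lts b).map Prod.snd = tks
  /-- the value -/
  val : (T → B) → B
  /-- what the walk forces -/
  GC : (T → B) → Prop
  /-- hypothesis on the values -/
  hyp : (T → B) → Prop
  does : ∀ V, hyp V → ∀ b S S', Run (lv V (lts b)) S S' → GC V ∧
    (kind = Kind.odd → Run [(b, val V)] S S') ∧
    (kind = Kind.even → S' = S ∧ val V = S 0) ∧ (kind = Kind.closed → S' = S)
  sum : ∀ V V', GC V → GC V' → sp V V' tks = if kind = Kind.odd then val V * val V' else 0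
  ht : ∀ b, hl (lts b) = if kind = Kind.odd then (if b then 1 else -1) else 0
  /-- depth -/
  dp : ℤ
  bd : ∀ b, Par dp 1 (lts b)
  /-- both states are admissible -/
  free : Prop
  okT : ∀ q ∈ lts true, ok q
  okF : free → ∀ q ∈ lts false, ok q

namespace SU

variable {ok : Bool × T → Prop}

lemma dp_nonneg (u : SU T ok) : 0 ≤ u.dp := by
  have := u.bd true [] _ rfl
  rw [hl_nil] at this
  omega

/-- free token -/
def fr (t : T) (h : ok (true, t)) (h' : ok (false, t)) : SU T ok where
  kind := Kind.odd
  lts := fun b => [(b, t)]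
  tks := [t]
  ne := by simp
  lts_snd := fun b => rfl
  val := fun V => V t
  GC := fun _ => True
  hyp := fun _ => True
  does := fun V _ b S S' h => ⟨trivial, fun _ => h, fun h => by simp at h, fun h => by simp at h⟩
  sum := fun V V' _ _ => by simp
  ht := fun b => by simp
  dp := 1
  bd := fun b => par_single (by omega) (by omega) (by split_ifs <;> omega)
    (by split_ifs <;> omega)
  free := True
  okT := by simpa using h
  okF := fun _ => by simpa using h'

/-- forced pop -/
def fx (t : T) (h : ok (true, t)) : SU T ok where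
  kind := Kind.odd
  lts := fun b => [(b, t)]
  tks := [t]
  ne := by simp
  lts_snd := fun b => rfl
  val := fun V => V t
  GC := fun _ => True
  hyp := fun _ => True
  does := fun V _ b S S' h => ⟨trivial, fun _ => h, fun h => by simp at h, fun h => by simp at h⟩
  sum := fun V V' _ _ => by simp
  ht := fun b => by simp
  dp := 1
  bd := fun b => par_single (by omega) (by omega) (by split_ifs <;> omega)
    (by split_ifs <;> omega)
  free := False
  okT := by simpa using h
  okF := fun h => h.elim

/-- even child -/
def ev (a c : T) (ha : ok (true, a)) (hc : ok (false, c)) : SU T ok where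
  kind := Kind.even
  lts := fun _ => [(true, a), (false, c)]
  tks := [a, c]
  ne := by simp
  lts_snd := fun b => rfl
  val := fun V => V a
  GC := fun V => V a = V c
  hyp := fun V => V a = V c
  does := by
    intro V h1 b S S' h
    have h2 : V a = S 0 ∧ push (V c) (tl S) = S' := h
    refine ⟨h1, fun h => by simp at h, fun _ => ⟨?_, h2.1⟩, fun h => by simp at h⟩
    rw [← h2.2, ← h1, h2.1, push_tl]
  sum := by
    intro V V' h h'
    simp [h, h', b_add_self]
  ht := fun b => by simp
  dp := 0
  bd := by
    intro b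
    have h1 : Par 0 1 [(true, a)] := par_single (by omega) (by omega) (by simp) (by simp)
    have h2 : Par 1 0 [(false, c)] := par_single (by omega) (by omega) (by simp) (by simp)
    exact par_append h1 h2 (by omega) (by omega) (by simp) (by simp)
  free := True
  okT := by simp [ha, hc]
  okF := fun _ => by simp [ha, hc]

/-- the lettered word of a list of even and closed units -/
def wd (m : List (SU T ok)) : List (Bool × T) := m.flatMap fun u => u.lts true

/-- the conditions of a list of even and closed units, all of them on the value `c` -/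
def On (m : List (SU T ok)) (c : B) (V : T → B) : Prop :=
  ∀ u ∈ m, u.GC V ∧ (u.kind = Kind.even → u.val V = c)

lemma wd_cons (u : SU T ok) (m : List (SU T ok)) : wd (u :: m) = u.lts true ++ wd m := rfl

lemma run_wd {m : List (SU T ok)} (hm : ∀ u ∈ m, u.kind ≠ Kind.odd) {V : T → B}
    (hV : ∀ u ∈ m, u.hyp V) : ∀ {S S' : ℕ → B}, Run (lv V (wd m)) S S' →
      S' = S ∧ On m (S 0) V := by
  induction m with
  | nil =>
    intro S S' h
    exact ⟨Eq.symm h, by intro u hu; simp at hu⟩
  | cons u m ih =>
    intro S S' h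
    rw [wd_cons, lv_append, run_append] at h
    obtain ⟨S₁, h1, h2⟩ := h
    obtain ⟨h3, h4, h5, h6⟩ := u.does V (hV u List.mem_cons_self) _ _ _ h1
    have h7 : S₁ = S := by
      rcases hk : u.kind with _ | _ | _
      · exact absurd hk (hm u List.mem_cons_self)
      · exact (h5 hk).1
      · exact h6 hk
    rw [h7] at h2
    obtain ⟨h8, h9⟩ := ih (fun w hw => hm w (List.mem_cons_of_mem _ hw))
      (fun w hw => hV w (List.mem_cons_of_mem _ hw)) h2
    refine ⟨h8, ?_⟩
    intro w hw
    rcases List.mem_cons.1 hw with rfl | hw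
    · exact ⟨h3, fun hk => (h5 hk).2⟩
    · exact h9 w hw

lemma sum_wd {m : List (SU T ok)} (hm : ∀ u ∈ m, u.kind ≠ Kind.odd) {V V' : T → B} {c c' : B}
    (h : On m c V) (h' : On m c' V') : sp V V' (m.flatMap tks) = 0 := by
  induction m with
  | nil => rfl
  | cons u m ih =>
    rw [List.flatMap_cons, sp_append, ih (fun w hw => hm w (List.mem_cons_of_mem _ hw))
      (fun w hw => h w (List.mem_cons_of_mem _ hw)) (fun w hw => h' w (List.mem_cons_of_mem _ hw)),
      u.sum V V' (h u List.mem_cons_self).1 (h' u List.mem_cons_self).1,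
      if_neg (hm u List.mem_cons_self), add_zero]

lemma ht_wd {m : List (SU T ok)} (hm : ∀ u ∈ m, u.kind ≠ Kind.odd) : hl (wd m) = 0 := by
  induction m with
  | nil => rfl
  | cons u m ih =>
    rw [wd_cons, hl_append, ih (fun w hw => hm w (List.mem_cons_of_mem _ hw)), u.ht,
      if_neg (hm u List.mem_cons_self), add_zero]

/-- the maximal depth of a list -/
def dps (m : List (SU T ok)) : ℤ := (m.map SU.dp).foldr max 0

lemma dps_nonneg (m : List (SU T ok)) : 0 ≤ dps m := by
  induction m with
  | nil => exact le_rfl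
  | cons u m ih => exact ih.trans (le_max_right _ _)

lemma dps_le {m : List (SU T ok)} {D : ℤ} (hD : 0 ≤ D) (h : ∀ u ∈ m, u.dp ≤ D) : dps m ≤ D := by
  induction m with
  | nil => exact hD
  | cons u m ih =>
    exact max_le (h u List.mem_cons_self) (ih fun w hw => h w (List.mem_cons_of_mem _ hw))

lemma par_wd {m : List (SU T ok)} (hm : ∀ u ∈ m, u.kind ≠ Kind.odd) : Par (dps m) 1 (wd m) := by
  induction m with
  | nil => exact par_nil le_rfl (by omega)
  | cons u m ih =>
    have h1 := ih fun w hw => hm w (List.mem_cons_of_mem _ hw)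
    have h2 : hl (u.lts true) = 0 := by rw [u.ht, if_neg (hm u List.mem_cons_self)]
    have h3 : dps (u :: m) = max u.dp (dps m) := rfl
    rw [wd_cons, h3]
    refine par_append (u.bd true) h1 (le_max_left _ _) le_rfl ?_ ?_
    · rw [h2, sub_zero]; exact le_max_right _ _
    · rw [h2]; omega

lemma snd_wd (m : List (SU T ok)) : (wd m).map Prod.snd = m.flatMap tks := by
  rw [wd, List.map_flatMap]
  congr 1
  funext u
  exact u.lts_snd true

lemma ok_wd (m : List (SU T ok)) : ∀ q ∈ wd m, ok q := by
  intro q hq
  obtain ⟨u, _, h⟩ := List.mem_flatMap.1 hq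
  exact u.okT q h

/-- bracket -/
def br (f g : SU T ok) (m : List (SU T ok)) (hf : f.kind = Kind.odd) (hg : g.kind = Kind.odd)
    (hm : ∀ u ∈ m, u.kind ≠ Kind.odd) (hfree : f.free) : SU T ok where
  kind := Kind.closed
  lts := fun _ => f.lts false ++ (wd m ++ g.lts true)
  tks := f.tks ++ (m.flatMap tks ++ g.tks)
  ne := by simp [f.ne]
  lts_snd := fun b => by
    rw [List.map_append, List.map_append, f.lts_snd, g.lts_snd, snd_wd]
  val := f.val
  GC := fun V => f.GC V ∧ g.GC V ∧ g.val V = f.val V ∧ On m (f.val V) V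
  hyp := fun V => f.hyp V ∧ g.hyp V ∧ ∀ u ∈ m, u.hyp V
  does := by
    intro V ⟨h1, h2, h3⟩ b S S' h
    rw [lv_append, lv_append, run_append] at h
    obtain ⟨S₁, h4, h5⟩ := h
    rw [run_append] at h5
    obtain ⟨S₂, h6, h7⟩ := h5
    obtain ⟨e1, e2, -, -⟩ := f.does V h1 _ _ _ h4
    obtain ⟨e3, e4, -, -⟩ := g.does V h2 _ _ _ h7
    obtain ⟨e5, e6⟩ := run_wd hm h3 h6
    have e7 : push (f.val V) S = S₁ := e2 hf
    have e8 : g.val V = S₂ 0 ∧ tl S₂ = S' := e4 hg
    rw [e5, ← e7] at e8
    rw [← e7] at e6
    refine ⟨⟨e1, e3, e8.1, e6⟩, fun h => by simp at h, fun h => by simp at h, fun _ => ?_⟩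
    rw [← e8.2, tl_push]
  sum := by
    intro V V' ⟨h1, h2, h3, h4⟩ ⟨h1', h2', h3', h4'⟩
    rw [sp_append, sp_append, f.sum V V' h1 h1', g.sum V V' h2 h2', sum_wd hm h4 h4',
      if_pos hf, if_pos hg, h3, h3', zero_add]
    simp [b_add_self]
  ht := by
    intro b
    rw [hl_append, hl_append, ht_wd hm, f.ht, g.ht, if_pos hf, if_pos hg]
    simp
  dp := max f.dp (1 + max (dps m) g.dp)
  bd := by
    intro b
    have h1 : hl (f.lts false) = -1 := by rw [f.ht, if_pos hf]; simp
    have h2 : Par (max (dps m) g.dp) 1 (wd m ++ g.lts true) := by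
      refine par_append (par_wd hm) (g.bd true) (le_max_left _ _) le_rfl ?_ ?_
      · rw [ht_wd hm, sub_zero]; exact le_max_right _ _
      · rw [ht_wd hm]; omega
    refine par_append (f.bd false) h2 (le_max_left _ _) le_rfl ?_ ?_
    · rw [h1]
      have := le_max_right f.dp (1 + max (dps m) g.dp)
      omega
    · rw [h1]; omega
  free := True
  okT := by
    intro q hq
    rcases List.mem_append.1 hq with hq | hq
    · exact f.okF hfree q hq
    rcases List.mem_append.1 hq with hq | hq
    · exact ok_wd m q hq
    · exact g.okT q hq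
  okF := by
    intro _ q hq
    rcases List.mem_append.1 hq with hq | hq
    · exact f.okF hfree q hq
    rcases List.mem_append.1 hq with hq | hq
    · exact ok_wd m q hq
    · exact g.okT q hq

/-- near+near child and port: together a free token -/
def rx (a c x : T) (m : List (SU T ok)) (hm : ∀ u ∈ m, u.kind ≠ Kind.odd)
    (ha : ok (true, a)) (ha' : ok (false, a)) (hc : ok (false, c)) (hx : ok (true, x)) :
    SU T ok where
  kind := Kind.odd
  lts := fun b => (b, a) :: (false, c) :: (wd m ++ [(true, x)])
  tks := a :: c :: (m.flatMap tks ++ [x])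
  ne := by simp
  lts_snd := fun b => by
    rw [List.map_cons, List.map_cons, List.map_append, snd_wd]
    rfl
  val := fun V => V a
  GC := fun V => V a = V c ∧ V x = V a ∧ On m (V a) V
  hyp := fun V => V a = V c ∧ ∀ u ∈ m, u.hyp V
  does := by
    intro V ⟨h1, h2⟩ b S S' h
    rw [lv_cons, lv_cons, lv_append] at h
    cases b
    · have h3 : Run (lv V (wd m) ++ lv V [(true, x)]) (push (V c) (push (V a) S)) S' := h
      rw [run_append] at h3
      obtain ⟨S₁, h4, h5⟩ := h3
      obtain ⟨h6, h7⟩ := run_wd hm h2 h4
      have h8 : V x = S₁ 0 ∧ tl S₁ = S' := h5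
      rw [h6] at h8
      have h9 : V x = V c ∧ push (V a) S = S' := h8
      have h10 : On m (V c) V := h7
      refine ⟨⟨h1, by rw [h9.1, h1], by rw [h1]; exact h10⟩, fun _ => h9.2,
        fun h => by simp at h, fun h => by simp at h⟩
    · have h3 : V a = S 0 ∧ Run (lv V (wd m) ++ lv V [(true, x)]) (push (V c) (tl S)) S' := h
      obtain ⟨h11, h3⟩ := h3
      rw [run_append] at h3
      obtain ⟨S₁, h4, h5⟩ := h3
      obtain ⟨h6, h7⟩ := run_wd hm h2 h4
      have h8 : V x = S₁ 0 ∧ tl S₁ = S' := h5
      rw [h6] at h8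
      have h9 : V x = V c ∧ tl S = S' := h8
      have h10 : On m (V c) V := h7
      refine ⟨⟨h1, by rw [h9.1, h1], by rw [h1]; exact h10⟩, fun _ => ⟨h11, h9.2⟩,
        fun h => by simp at h, fun h => by simp at h⟩
  sum := by
    intro V V' ⟨h1, h2, h3⟩ ⟨h1', h2', h3'⟩
    rw [sp_cons, sp_cons, sp_append, sum_wd hm h3 h3', sp_cons, sp_nil, h2, h2', h1, h1',
      if_pos rfl, zero_add, add_zero, b_add_self, add_zero]
  ht := by
    intro b
    rw [hl_cons, hl_cons, hl_append, ht_wd hm]
    simp
  dp := 2 + dps m
  bd := by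
    intro b
    have h0 := dps_nonneg m
    have h1 : Par (1 + dps m) 1 ((false, c) :: (wd m ++ [(true, x)])) := by
      have h2 : Par (dps m) 1 (wd m ++ [(true, x)]) := by
        refine par_append (d' := 0) (e' := 1) (par_wd hm) (par_single (by omega) (by omega)
          (by simp) (by simp)) le_rfl le_rfl ?_ ?_
        · rw [ht_wd hm]; omega
        · rw [ht_wd hm]; omega
      have h3 : Par 1 0 [((false, c) : Bool × T)] :=
        par_single (by omega) (by omega) (by simp) (by simp)
      exact par_append h3 h2 (by omega) (by omega) (by simp) (by simp)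
    cases b
    · have h3 : Par 1 0 [((false, a) : Bool × T)] :=
        par_single (by omega) (by omega) (by simp) (by simp)
      exact par_append h3 h1 (by omega) (by omega) (by simp) (by simp)
    · -- here the height behind the first two letters is zero
      have h3 : Par 0 1 [((true, a) : Bool × T)] :=
        par_single (by omega) (by omega) (by simp) (by simp)
      have h4 : Par 1 0 [((false, c) : Bool × T)] :=
        par_single (by omega) (by omega) (by simp) (by simp)
      have h5 : Par 0 1 ([((true, a) : Bool × T)] ++ [(false, c)]) :=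
        par_append h3 h4 (by omega) (by omega) (by simp) (by simp)
      have h2 : Par (dps m) 1 (wd m ++ [(true, x)]) := by
        refine par_append (d' := 0) (e' := 1) (par_wd hm) (par_single (by omega) (by omega)
          (by simp) (by simp)) le_rfl le_rfl ?_ ?_
        · rw [ht_wd hm]; omega
        · rw [ht_wd hm]; omega
      exact par_append h5 h2 (by omega) (by omega) (by simp) (by simp)
  free := True
  okT := by
    intro q hq
    simp only [List.mem_cons, List.mem_append, List.not_mem_nil, or_false] at hq
    rcases hq with rfl | rfl | hq | rfl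
    · exact ha
    · exact hc
    · exact ok_wd m q hq
    · exact hx
  okF := by
    intro _ q hq
    simp only [List.mem_cons, List.mem_append, List.not_mem_nil, or_false] at hq
    rcases hq with rfl | rfl | hq | rfl
    · exact ha'
    · exact hc
    · exact ok_wd m q hq
    · exact hx

end SU

end Pool.Agent.MP42.U
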