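import Pool.Agent.MP42.U.Glob

/-!
# The abstract form

* `glob`: expansion of the nodes in any order.  `M f V` = the condition of a node which is not yet
  expanded (for instance: one value on every class of tokens), `N f σ V` = the condition of the
  expanded node in the state `σ`.  Everything else is the parity of the product of two solutions.
* `nodeR`: the node lemma for a list of units with arbitrary walks.
* `nodeX`: the node lemma with one forced pop directly after the own token, where the own link may be
  dropped.
-/

set_option autoImplicit false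

namespace Pool.Agent.MP42.U

/-! ## All nodes -/

/-- **expansion of all nodes** -/
theorem glob {P St : Type*} [Fintype P] [Nonempty St] {n : ℕ} (lam : P → P) (nd : P → Fin n)
    (lam_lam : ∀ x, lam (lam x) = x) (lam_ne : ∀ x, lam x ≠ x)
    (M : Fin n → (P → B) → Prop) (N : Fin n → St → (P → B) → Prop) (C : Fin n → St → Prop)
    (parM : ∀ f V V', M f V → M f V' → ∑ x with nd x = f, V x * V' x = 0)
    (parN : ∀ f σ V V', C f σ → N f σ V → N f σ V' → ∑ x with nd x = f, V x * V' x = 0)
    (step : ∀ (f : Fin n) (F : Set (P → B)),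
      (∀ V ∈ F, (∀ x, V (lam x) = V x) ∧ ∀ g, f < g → M g V) →
      (∀ V ∈ F, ∀ V' ∈ F, ∑ x with nd x = f, V x * V' x = 0) →
      ∃ σ, C f σ ∧ ∀ V ∈ F, N f σ V → M f V)
    (conn : ∀ V : P → B, (∀ x, V (lam x) = V x) → (∀ f, M f V) → ∀ x y, V x = V y) :
    ∃ σ : Fin n → St, (∀ f, C f (σ f)) ∧
      ∀ V : P → B, (∀ x, V (lam x) = V x) → (∀ f, N f (σ f) V) → ∀ x y, V x = V y := by
  classical
  have key : ∀ k ≤ n, ∃ σ : Fin n → St, (∀ f : Fin n, f.val < k → C f (σ f)) ∧
      ∀ V : P → B, (∀ x, V (lam x) = V x) → (∀ f : Fin n, f.val < k → N f (σ f) V) →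
        (∀ f : Fin n, k ≤ f.val → M f V) → ∀ x y, V x = V y := by
    intro k
    induction k with
    | zero =>
      intro _
      refine ⟨fun _ => Classical.arbitrary St, fun f hf => absurd hf (by omega), ?_⟩
      intro V h1 _ h3
      exact conn V h1 (fun f => h3 f (Nat.zero_le _))
    | succ k ih =>
      intro hk
      obtain ⟨σ, h1, h2⟩ := ih (by omega)
      set g : Fin n := ⟨k, by omega⟩ with hg
      set F : Set (P → B) := {V | (∀ x, V (lam x) = V x) ∧
        (∀ f : Fin n, f.val < k → N f (σ f) V) ∧ (∀ f : Fin n, k + 1 ≤ f.val → M f V)} with hF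
      obtain ⟨τ, h3, h4⟩ := step g F (by
        intro V hV
        exact ⟨hV.1, fun f hf => hV.2.2 f (Fin.lt_def.1 hf)⟩) (by
        intro V hV V' hV'
        have h3 : ∑ x, V x * V' x = 0 := by
          refine Finset.sum_involution (fun x _ => lam x) ?_ ?_ ?_ ?_
          · intro x _
            rw [hV.1, hV'.1]
            exact b_add_self _
          · intro x _ _
            exact lam_ne x
          · intro x _
            exact Finset.mem_univ _
          · intro x _
            exact lam_lam x
        rw [← Finset.sum_fiberwise (s := Finset.univ) (g := nd), Finset.sum_eq_single g] at h3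
        · exact h3
        · intro f _ hfg
          rcases lt_trichotomy f.val k with h4 | h4 | h4
          · exact parN f (σ f) V V' (h1 f h4) (hV.2.1 f h4) (hV'.2.1 f h4)
          · exact absurd (Fin.ext h4) hfg
          · exact parM f V V' (hV.2.2 f h4) (hV'.2.2 f h4)
        · intro h; exact absurd (Finset.mem_univ _) h)
      refine ⟨Function.update σ g τ, ?_, ?_⟩
      · intro f hf
        rcases eq_or_ne f g with rfl | hfg
        · rw [Function.update_self]; exact h3
        · rw [Function.update_of_ne hfg]
          refine h1 f ?_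
          have : f.val ≠ k := fun h => hfg (Fin.ext h)
          omega
      · intro V hV1 hV2 hV3
        have hVF : V ∈ F := by
          refine ⟨hV1, ?_, hV3⟩
          intro f hf
          have h5 := hV2 f (by omega)
          rwa [Function.update_of_ne (by rintro rfl; exact absurd hf (lt_irrefl _))] at h5
        refine h2 V hV1 hVF.2.1 ?_
        intro f hf
        rcases Nat.eq_or_lt_of_le hf with h6 | h6
        · have hfg : f = g := Fin.ext h6.symm
          rw [hfg]
          refine h4 V hVF ?_
          have h7 := hV2 g (by simp [hg])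
          rwa [Function.update_self] at h7
        · exact hV3 f h6
  obtain ⟨σ, h1, h2⟩ := key n le_rfl
  refine ⟨σ, fun f => h1 f f.2, ?_⟩
  intro V hV1 hV2
  exact h2 V hV1 (fun f _ => hV2 f) (fun f hf => absurd f.2 (by omega))

/-- the sum over the last node -/
lemma sum_last {P : Type*} [Fintype P] {n : ℕ} {lam : P → P} {nd : P → Fin n}
    (lam_lam : ∀ x, lam (lam x) = x) (lam_ne : ∀ x, lam x ≠ x) {V : P → B}
    (hV : ∀ x, V (lam x) = V x) {r : Fin n}
    (h : ∀ f, f ≠ r → ∑ x with nd x = f, V x = 0) : ∑ x with nd x = r, V x = 0 := by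
  classical
  have h3 : ∑ x, V x = 0 := by
    refine Finset.sum_involution (fun x _ => lam x) ?_ ?_ ?_ ?_
    · intro x _
      rw [hV]
      exact b_add_self _
    · intro x _ _
      exact lam_ne x
    · intro x _
      exact Finset.mem_univ _
    · intro x _
      exact lam_lam x
  rw [← Finset.sum_fiberwise (s := Finset.univ) (g := nd), Finset.sum_eq_single r] at h3
  · exact h3
  · intro f _ hf
    exact h f hf
  · intro h; exact absurd (Finset.mem_univ _) h

/-! ## Units with arbitrary walks -/

/-- the kinds of units -/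
inductive Kind
  /-- free token -/
  | odd
  /-- transparent: pops and pushes the top -/
  | even
  /-- closed: nothing to do with the stack -/
  | closed
deriving DecidableEq

section

variable {P U : Type*}

/-- the walk along a list of units -/
def Walk (R : U → Bool → (P → B) → (ℕ → B) → (ℕ → B) → Prop) (st : U → Bool) (V : P → B) :
    List U → (ℕ → B) → (ℕ → B) → Prop
  | [], S, S' => S = S'
  | u :: us, S, S' => ∃ S₁, R u (st u) V S S₁ ∧ Walk R st V us S₁ S'

lemma walk_append {R : U → Bool → (P → B) → (ℕ → B) → (ℕ → B) → Prop} {st : U → Bool}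
    {V : P → B} {us vs : List U} : ∀ {S S' : ℕ → B},
    Walk R st V (us ++ vs) S S' ↔ ∃ S₁, Walk R st V us S S₁ ∧ Walk R st V vs S₁ S' := by
  induction us with
  | nil =>
    intro S S'
    simp [Walk]
  | cons u us ih =>
    intro S S'
    simp only [List.cons_append, Walk, ih]
    constructor
    · rintro ⟨S₁, h1, S₂, h2, h3⟩
      exact ⟨S₂, ⟨S₁, h1, h2⟩, h3⟩
    · rintro ⟨S₂, ⟨S₁, h1, h2⟩, h3⟩
      exact ⟨S₁, h1, S₂, h2, h3⟩

/-- what the walk along a unit does -/
structure Does (kind : U → Kind) (GC : U → (P → B) → Prop) (val : U → (P → B) → B) (u : U)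
    (b : Bool) (V : P → B) (S S' : ℕ → B) : Prop where
  gc : GC u V
  odd : kind u = Kind.odd → Run [(b, val u V)] S S'
  even : kind u = Kind.even → S' = S ∧ val u V = S 0
  closed : kind u = Kind.closed → S' = S

/-- is the unit odd? -/
def isOdd (kind : U → Kind) (u : U) : Bool := kind u = Kind.odd

variable {R : U → Bool → (P → B) → (ℕ → B) → (ℕ → B) → Prop} {kind : U → Kind}
  {GC : U → (P → B) → Prop} {val : U → (P → B) → B}

lemma walk_odd {st : U → Bool} {V : P → B} : ∀ {us : List U},
    (∀ u ∈ us, ∀ b S S', R u b V S S' → Does kind GC val u b V S S') → ∀ {S S' : ℕ → B},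
    Walk R st V us S S' →
    Run ((us.filter (isOdd kind)).map fun u => (st u, val u V)) S S' ∧ ∀ u ∈ us, GC u V := by
  intro us
  induction us with
  | nil =>
    intro _ S S' h
    exact ⟨h, by simp⟩
  | cons u us ih =>
    intro hE S S' h
    obtain ⟨S₁, h1, h2⟩ := h
    have h3 := hE u List.mem_cons_self _ _ _ h1
    obtain ⟨h4, h5⟩ := ih (fun u hu => hE u (List.mem_cons_of_mem _ hu)) h2
    refine ⟨?_, ?_⟩
    · cases hu : kind u
      · rw [List.filter_cons_of_pos (by simp [isOdd, hu]), List.map_cons,
          ← List.singleton_append, run_append]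
        exact ⟨S₁, h3.odd hu, h4⟩
      · rw [List.filter_cons_of_neg (by simp [isOdd, hu]), ← (h3.even hu).1]
        exact h4
      · rw [List.filter_cons_of_neg (by simp [isOdd, hu]), ← h3.closed hu]
        exact h4
    · intro w hw
      rcases List.mem_cons.1 hw with rfl | hw
      · exact h3.gc
      · exact h5 w hw

lemma walk_even {st : U → Bool} {V : P → B} {c : B} : ∀ {us : List U},
    (∀ u ∈ us, ∀ b S S', R u b V S S' → Does kind GC val u b V S S') →
    (∀ u ∈ us, kind u = Kind.odd → val u V = c) → ∀ {S S' : ℕ → B}, (∀ j, S j = c) →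
    Walk R st V us S S' → ∀ u ∈ us, kind u ≠ Kind.closed → val u V = c := by
  intro us
  induction us with
  | nil => intro _ _ S S' _ _ u hu; simp at hu
  | cons u us ih =>
    intro hE ho S S' hS h
    obtain ⟨S₁, h1, h2⟩ := h
    have h3 := hE u List.mem_cons_self _ _ _ h1
    have key : (kind u ≠ Kind.closed → val u V = c) ∧ ∀ j, S₁ j = c := by
      cases hu : kind u
      · have h4 := ho u List.mem_cons_self hu
        refine ⟨fun _ => h4, ?_⟩
        have h5 := h3.odd hu
        rw [h4] at h5
        cases hs : st u
        · rw [hs, run_push, run_nil] at h5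
          rw [← h5]
          intro j
          cases j with
          | zero => rfl
          | succ j => exact hS j
        · rw [hs, run_pop, run_nil] at h5
          rw [← h5.2]
          intro j; exact hS _
      · obtain ⟨h4, h5⟩ := h3.even hu
        refine ⟨fun _ => by rw [h5, hS], ?_⟩
        rw [h4]; exact hS
      · refine ⟨fun h => absurd rfl h, ?_⟩
        rw [h3.closed hu]; exact hS
    intro w hw hk
    rcases List.mem_cons.1 hw with rfl | hw
    · exact key.1 hk
    · exact ih (fun u hu => hE u (List.mem_cons_of_mem _ hu))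
        (fun u hu => ho u (List.mem_cons_of_mem _ hu)) key.2 h2 w hw hk

/-- **choice of the states of a list of pairs** -/
theorem choose_pairs {ms : List U} (hms : Even ms.length) (F : Set (P → B)) (a b : (P → B) → B)
    (hF : ∀ V ∈ F, ∀ V' ∈ F, a V * a V' + (ms.map fun u => val u V * val u V').sum +
      b V * b V' = 0) :
    ∃ bs : List Bool, bs.length = ms.length ∧ (∀ st : U → Bool, ms.map st = bs → Alt st ms) ∧
      (∃ t : List (Bool × U × U), bs = t.flatMap (fun p => [!p.1, p.1]) ∧
        ms = t.flatMap (fun p => [p.2.1, p.2.2]) ∧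
        ∀ V ∈ F, Ch (fun u => val u V) t (a V) (b V) →
          (∀ u ∈ ms, val u V = a V) ∧ b V = a V) := by
  classical
  obtain ⟨ps', hps⟩ := exists_pairs hms
  -- all data of V in one function on an extended type
  set g : (P → B) → (Option (Option U) → B) := fun V o => match o with
    | none => a V
    | some none => b V
    | some (some u) => val u V with hg
  have hps2 : ∀ (V V' : P → B) (qs : List (U × U)),
      ps (g V) (g V') (qs.map fun p => (some (some p.1), some (some p.2))) =
      ((qs.flatMap fun p => [p.1, p.2]).map fun u => val u V * val u V').sum := by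
    intro V V' qs
    induction qs with
    | nil => simp [ps]
    | cons p qs ih =>
      rw [List.map_cons, ps_cons, ih, List.flatMap_cons, List.map_append, List.sum_append]
      simp [hg]
  obtain ⟨t, ht1, ht2⟩ := switch (fun v : Option (Option U) → B => v (some none))
    (fun v : Option (Option U) → B => v none)
    (ps'.map fun p => (some (some p.1), some (some p.2))) (g '' F) (by
      rintro _ ⟨V, hV, rfl⟩ _ ⟨V', hV', rfl⟩
      rw [hps2, ← hps]
      exact hF V hV V' hV')
  -- back to pairs of units
  have hback : ∀ (qs : List (U × U)) (t : List (Bool × Option (Option U) × Option (Option U))),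
      t.map Prod.snd = qs.map (fun p => (some (some p.1), some (some p.2))) →
      ∃ t' : List (Bool × U × U), t'.map Prod.snd = qs ∧
        t = t'.map fun p => (p.1, some (some p.2.1), some (some p.2.2)) := by
    intro qs
    induction qs with
    | nil =>
      intro t h
      have : t = [] := by simpa using h
      exact ⟨[], rfl, by simp [this]⟩
    | cons q qs ih =>
      intro t h
      match t, h with
      | [], h => simp at h
      | p :: t, h =>
        simp only [List.map_cons, List.cons.injEq] at h
        obtain ⟨t', h1, h2⟩ := ih t h.2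
        refine ⟨(p.1, q) :: t', by simp [h1], ?_⟩
        rw [List.map_cons, h2]
        congr 1
        obtain ⟨p1, p2⟩ := p
        simp only at h ⊢
        rw [h.1]
  obtain ⟨t', ht3, ht4⟩ := hback ps' t ht1
  have hch : ∀ (V : P → B) (t : List (Bool × U × U)) (u r : B), Ch (fun u => val u V) t u r →
      Ch (g V) (t.map fun p => (p.1, some (some p.2.1), some (some p.2.2))) u r := by
    intro V t
    induction t with
    | nil => intro u r h; exact h
    | cons p t ih =>
      obtain ⟨c, x, y⟩ := p
      intro u r h
      cases c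
      · exact ⟨h.1, ih _ _ h.2⟩
      · exact ⟨h.1, ih _ _ h.2⟩
  have hms2 : ms = t'.flatMap (fun p => [p.2.1, p.2.2]) := by
    rw [hps, ← ht3, List.flatMap_map]
  have hlen : (t'.flatMap fun p => [!p.1, p.1]).length = ms.length := by
    rw [hms2]
    simp [List.length_flatMap]
  refine ⟨t'.flatMap (fun p => [!p.1, p.1]), hlen, ?_, t', rfl, hms2, ?_⟩
  · intro st hst
    rw [hms2] at hst ⊢
    clear ht3 ht4 hms2 hlen
    induction t' with
    | nil => exact Alt.nil
    | cons p t' ih =>
      simp only [List.flatMap_cons, List.cons_append, List.nil_append, List.map_cons,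
        List.cons.injEq] at hst ⊢
      exact Alt.cons (by rw [hst.1, hst.2.1, Bool.not_not]) (ih hst.2.2)
  · intro V hV hC
    have h1 := hch V t' _ _ hC
    rw [← ht4] at h1
    obtain ⟨h2, h3⟩ := ht2 (g V) ⟨V, hV, rfl⟩ h1
    refine ⟨?_, h3⟩
    intro u hu
    rw [hps] at hu
    obtain ⟨p, hp, hp'⟩ := List.mem_flatMap.1 hu
    obtain ⟨h4, h5⟩ := h2 _ (List.mem_map_of_mem hp)
    simp only [List.mem_cons, List.not_mem_nil, or_false] at hp'
    rcases hp' with rfl | rfl
    · exact h4
    · exact h5

/-- **the node lemma** for units with arbitrary walks -/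
theorem nodeR {us : List U} (hn : us.Nodup) {l r : U} {ms : List U}
    (hos : us.filter (isOdd kind) = l :: (ms ++ [r])) (hms : Even ms.length) {F : Set (P → B)}
    (hE : ∀ V ∈ F, ∀ u ∈ us, ∀ b S S', R u b V S S' → Does kind GC val u b V S S')
    (hF : ∀ V ∈ F, ∀ V' ∈ F, (∀ u ∈ us, GC u V) → (∀ u ∈ us, GC u V') →
      ((us.filter (isOdd kind)).map fun u => val u V * val u V').sum = 0) :
    ∃ st : U → Bool, st l = true ∧ st r = true ∧ Alt st ms ∧
      ∀ V ∈ F, (∃ S, Walk R st V us S S ∧ Deep S) →
        (∀ u ∈ us, GC u V) ∧ ∃ c, ∀ u ∈ us, kind u ≠ Kind.closed → val u V = c := by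
  classical
  obtain ⟨bs, hb1, hb2, t, hb3, hb4, hb5⟩ := choose_pairs (val := val) hms
    {V | V ∈ F ∧ ∀ u ∈ us, GC u V} (fun V => val l V) (fun V => val r V) (by
      rintro V ⟨hV, hg⟩ V' ⟨hV', hg'⟩
      have h1 := hF V hV V' hV' hg hg'
      rw [hos] at h1
      simp only [List.map_cons, List.map_append, List.sum_cons, List.sum_append, List.map_nil,
        List.sum_nil, add_zero] at h1
      linear_combination h1)
  have hlen : (us.filter (isOdd kind)).length = (true :: (bs ++ [true])).length := by
    rw [hos]; simp [hb1]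
  obtain ⟨st, hst⟩ := exists_fun (hn.filter _) hlen ⟨true⟩
  rw [hos, List.map_cons, List.map_append] at hst
  simp only [List.cons.injEq, List.map_cons, List.map_nil] at hst
  obtain ⟨hl, hst⟩ := hst
  obtain ⟨hst1, hst2⟩ := List.append_inj' hst (by simp)
  have hr : st r = true := by simpa using hst2
  refine ⟨st, hl, hr, hb2 st hst1, ?_⟩
  rintro V hV ⟨S, hS, hd⟩
  obtain ⟨h1, h2⟩ := walk_odd (hE V hV) hS
  refine ⟨h2, ?_⟩
  have hword : ∀ t : List (Bool × U × U),
      (t.flatMap fun p => [p.2.1, p.2.2]).map st = (t.flatMap fun p => [!p.1, p.1]) →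
      (t.flatMap fun p => [p.2.1, p.2.2]).map (fun u => (st u, val u V)) =
        t.flatMap fun p => [(!p.1, val p.2.1 V), (p.1, val p.2.2 V)] := by
    intro t
    induction t with
    | nil => intro _; rfl
    | cons p t ih =>
      intro h
      simp only [List.flatMap_cons, List.cons_append, List.nil_append, List.map_cons,
        List.cons.injEq] at h ⊢
      rw [h.1, h.2.1, ih h.2.2]
      simp
  have h3 := hword t (by rw [← hb4, ← hb3]; exact hst1)
  rw [hos, List.map_cons, List.map_append, hb4, h3, hl] at h1
  simp only [List.map_cons, List.map_nil, hr] at h1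
  obtain ⟨h4, h5⟩ := run_chain (v := fun u => val u V) h1 hd
  obtain ⟨h6, h7⟩ := hb5 V ⟨hV, h2⟩ h5
  have h8 : ∀ u ∈ us, kind u = Kind.odd → val u V = val l V := by
    intro u hu hk
    have h9 : u ∈ us.filter (isOdd kind) := List.mem_filter.2 ⟨hu, by simp [isOdd, hk]⟩
    rw [hos] at h9
    rcases List.mem_cons.1 h9 with rfl | h9
    · rfl
    rcases List.mem_append.1 h9 with h9 | h9
    · exact h6 u h9
    · simp only [List.mem_cons, List.not_mem_nil, or_false] at h9
      rw [h9]; exact h7
  exact ⟨val l V, walk_even (hE V hV) h8 h4 hS⟩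

/-- the word of the pairs from the states -/
lemma word_pairs {st : U → Bool} {V : P → B} : ∀ t : List (Bool × U × U),
    (t.flatMap fun p => [p.2.1, p.2.2]).map st = (t.flatMap fun p => [!p.1, p.1]) →
    (t.flatMap fun p => [p.2.1, p.2.2]).map (fun u => (st u, val u V)) =
      t.flatMap fun p => [(!p.1, val p.2.1 V), (p.1, val p.2.2 V)] := by
  intro t
  induction t with
  | nil => intro _; rfl
  | cons p t ih =>
    intro h
    simp only [List.flatMap_cons, List.cons_append, List.nil_append, List.map_cons,
      List.cons.injEq] at h ⊢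
    rw [h.1, h.2.1, ih h.2.2]
    simp

/-- **the node lemma with a forced pop `x` after the own token `l`**: either everything is present
(states `l = +`, `x = +`, `f = -`, pairs, `r = +`), or the own link is dropped: the units `l`, `r` are
missing in the list `us'`, their values agree (states `x = +`, pairs, `z = +`) -/
theorem nodeX {us us' : List U} (hn : us.Nodup) (hn' : us'.Nodup) {l r x f z : U}
    {ms ms' : List U} (hsub : ∀ u ∈ us', u ∈ us) (hsub' : ∀ u ∈ us, u = l ∨ u = r ∨ u ∈ us')
    (hos : us.filter (isOdd kind) = l :: x :: f :: (ms ++ [r])) (hms : Even ms.length)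
    (hos' : us'.filter (isOdd kind) = x :: (ms' ++ [z])) (hms' : Even ms'.length)
    (hz : f :: ms = ms' ++ [z])
    {F : Set (P → B)}
    (hE : ∀ V ∈ F, ∀ u ∈ us, ∀ b S S', R u b V S S' → Does kind GC val u b V S S')
    (hg : ∀ V ∈ F, GC l V ∧ GC r V)
    (hF : ∀ V ∈ F, ∀ V' ∈ F, (∀ u ∈ us, GC u V) → (∀ u ∈ us, GC u V') →
      ((us.filter (isOdd kind)).map fun u => val u V * val u V').sum = 0) :
    (∃ st : U → Bool, st l = true ∧ st x = true ∧ st f = false ∧ st r = true ∧ Alt st ms ∧
      ∀ V ∈ F, (∃ S, Walk R st V us S S ∧ Deep S) →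
        (∀ u ∈ us, GC u V) ∧ ∃ c, ∀ u ∈ us, kind u ≠ Kind.closed → val u V = c) ∨
    (∃ st : U → Bool, st x = true ∧ st z = true ∧ Alt st ms' ∧
      ∀ V ∈ F, val l V = val r V → (∃ S, Walk R st V us' S S ∧ Deep S) →
        (∀ u ∈ us, GC u V) ∧ ∃ c, ∀ u ∈ us, kind u ≠ Kind.closed → val u V = c) := by
  classical
  -- the sum over the odd units
  have hsum : ∀ V V' : P → B, ((us.filter (isOdd kind)).map fun u => val u V * val u V').sum =
      val l V * val l V' + val x V * val x V' + val f V * val f V' +
        (ms.map fun u => val u V * val u V').sum + val r V * val r V' := by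
    intro V V'
    rw [hos]
    simp only [List.map_cons, List.map_append, List.sum_cons, List.sum_append, List.map_nil,
      List.sum_nil, add_zero]
    ring
  have hsum2 : ∀ V V' : P → B, val f V * val f V' + (ms.map fun u => val u V * val u V').sum =
      (ms'.map fun u => val u V * val u V').sum + val z V * val z V' := by
    intro V V'
    have h1 : ((f :: ms).map fun u => val u V * val u V').sum =
        ((ms' ++ [z]).map fun u => val u V * val u V').sum := by rw [hz]
    simpa using h1
  -- present
  obtain ⟨bs, hb1, hb2, t, hb3, hb4, hb5⟩ := choose_pairs (val := val) hms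
    {V | V ∈ F ∧ (∀ u ∈ us, GC u V) ∧ val l V = val x V} (fun V => val f V)
    (fun V => val r V) (by
      rintro V ⟨hV, hg1, hlx⟩ V' ⟨hV', hg1', hlx'⟩
      have h1 := hF V hV V' hV' hg1 hg1'
      rw [hsum, hlx, hlx'] at h1
      have h2 := b_add_self (val x V * val x V')
      linear_combination h1 - h2)
  have hlen : (us.filter (isOdd kind)).length =
      (true :: true :: false :: (bs ++ [true])).length := by
    rw [hos]; simp [hb1]
  obtain ⟨st, hst⟩ := exists_fun (hn.filter _) hlen ⟨true⟩
  rw [hos, List.map_cons, List.map_cons, List.map_cons, List.map_append] at hst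
  simp only [List.cons.injEq, List.map_cons, List.map_nil] at hst
  obtain ⟨hl, hx, hf, hst⟩ := hst
  obtain ⟨hst1, hst2⟩ := List.append_inj' hst (by simp)
  have hr : st r = true := by simpa using hst2
  -- the structure of the solutions
  have hsol : ∀ V ∈ F, (∃ S, Walk R st V us S S ∧ Deep S) → (∀ u ∈ us, GC u V) ∧
      val x V = val l V ∧ val r V = val f V ∧ (∀ u ∈ ms, val u V = val f V) ∧
      ∃ S, Walk R st V us S S ∧ ∀ j, S j = val l V := by
    rintro V hV ⟨S, hS, hd⟩
    obtain ⟨h1, h2⟩ := walk_odd (hE V hV) hS
    have h3 := word_pairs (val := val) (V := V) t (by rw [← hb4, ← hb3]; exact hst1)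
    rw [hos, List.map_cons, List.map_cons, List.map_cons, List.map_append, hb4, h3, hl, hx,
      hf] at h1
    simp only [List.map_cons, List.map_nil, hr] at h1
    rw [run_pop, run_pop, run_push, run_append] at h1
    obtain ⟨e1, e2, S₁, e3, e4, e5⟩ := h1
    rw [run_nil] at e5
    obtain ⟨e6, e7⟩ := run_pairs (v := fun u => val u V) e3
    have h7 : ∀ j, S j = S (j + 2) := by
      intro j
      have := congrFun (e5.symm.trans e7) j
      exact this
    have h8 : ∀ n j, S j = S (j + 2 * n) := by
      intro n
      induction n with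
      | zero => intro j; rfl
      | succ n ih => intro j; rw [ih j, h7]; rfl
    obtain ⟨K, c, hc⟩ := hd
    have h9 : ∀ j, S j = c := by
      intro j
      rw [h8 K j]
      exact hc _ (by omega)
    have hlc : val l V = c := by rw [e1, h9]
    have hxc : val x V = c := by rw [e2, tl_apply, h9]
    have h10 : Ch (fun u => val u V) t (val f V) (val r V) := by
      rw [e4]; exact e6
    obtain ⟨h11, h12⟩ := hb5 V ⟨hV, h2, by rw [hlc, hxc]⟩ h10
    exact ⟨h2, by rw [hlc, hxc], h12, h11, S, hS, fun j => by rw [h9, hlc]⟩
  by_cases hgood : ∀ V ∈ F, (∃ S, Walk R st V us S S ∧ Deep S) → val l V = val f V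
  · left
    refine ⟨st, hl, hx, hf, hr, hb2 st hst1, ?_⟩
    intro V hV hS
    obtain ⟨h1, h2, h3, h4, S, h5, h6⟩ := hsol V hV hS
    have h7 := hgood V hV hS
    refine ⟨h1, val l V, walk_even (hE V hV) ?_ h6 h5⟩
    intro u hu hk
    have h9 : u ∈ us.filter (isOdd kind) := List.mem_filter.2 ⟨hu, by simp [isOdd, hk]⟩
    rw [hos] at h9
    simp only [List.mem_cons, List.mem_append, List.not_mem_nil, or_false] at h9
    rcases h9 with rfl | rfl | rfl | h9 | rfl
    · rfl
    · exact h2
    · exact h7.symm
    · rw [h4 u h9, h7]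
    · rw [h3, h7]
  · push Not at hgood
    obtain ⟨V₀, hV₀, hS₀, hne⟩ := hgood
    obtain ⟨g1, g2, g3, g4, -⟩ := hsol V₀ hV₀ hS₀
    right
    obtain ⟨bs', hb1', hb2', t', hb3', hb4', hb5'⟩ := choose_pairs (val := val) hms'
      {V | V ∈ F ∧ (∀ u ∈ us, GC u V) ∧ val l V = val r V} (fun V => val x V)
      (fun V => val z V) (by
        rintro V ⟨hV, hg1, hlr⟩ V' ⟨hV', hg1', hlr'⟩
        have h1 := hF V hV V' hV' hg1 hg1'
        have h3 := hsum2 V V'
        rw [hsum, hlr, hlr'] at h1
        have h2 := b_add_self (val r V * val r V')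
        linear_combination h1 - h2 - h3)
    have hlen' : (us'.filter (isOdd kind)).length = (true :: (bs' ++ [true])).length := by
      rw [hos']; simp [hb1']
    obtain ⟨st', hst'⟩ := exists_fun (hn'.filter _) hlen' ⟨true⟩
    rw [hos', List.map_cons, List.map_append] at hst'
    simp only [List.cons.injEq, List.map_cons, List.map_nil] at hst'
    obtain ⟨hx', hst'⟩ := hst'
    obtain ⟨hst1', hst2'⟩ := List.append_inj' hst' (by simp)
    have hz' : st' z = true := by simpa using hst2'
    refine ⟨st', hx', hz', hb2' st' hst1', ?_⟩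
    rintro V hV hlr ⟨S, hS, hd⟩
    have hE' : ∀ u ∈ us', ∀ b S S', R u b V S S' → Does kind GC val u b V S S' :=
      fun u hu => hE V hV u (hsub u hu)
    obtain ⟨h1, h2⟩ := walk_odd hE' hS
    have hgc : ∀ u ∈ us, GC u V := by
      intro u hu
      rcases hsub' u hu with rfl | rfl | h
      · exact (hg V hV).1
      · exact (hg V hV).2
      · exact h2 u h
    have h3 := word_pairs (val := val) (V := V) t' (by rw [← hb4', ← hb3']; exact hst1')
    rw [hos', List.map_cons, List.map_append, hb4', h3, hx'] at h1
    simp only [List.map_cons, List.map_nil, hz'] at h1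
    obtain ⟨h4, h5⟩ := run_chain (v := fun u => val u V) h1 hd
    obtain ⟨h6, h7⟩ := hb5' V ⟨hV, hgc, hlr⟩ h5
    -- the value of the own tokens
    have hD : val l V = val x V := by
      have e1 := hF V₀ hV₀ V hV g1 hgc
      have e2 : val f V₀ * val f V + (ms.map fun u => val u V₀ * val u V).sum =
          val f V₀ * val x V := by
        have hall : ∀ u ∈ ms' ++ [z], val u V = val x V := by
          intro u hu
          rcases List.mem_append.1 hu with hu | hu
          · exact h6 u hu
          · simp only [List.mem_cons, List.not_mem_nil, or_false] at hu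
            rw [hu]; exact h7
        rw [← hz] at hall
        have e3 : (ms.map fun u => val u V₀ * val u V).sum =
            (ms.length : B) * (val f V₀ * val x V) := by
          have e4 : (ms.map fun u => val u V₀ * val u V) =
              ms.map fun _ => val f V₀ * val x V := by
            refine List.map_congr_left ?_
            intro u hu
            rw [g4 u hu, hall u (List.mem_cons_of_mem _ hu)]
          rw [e4, List.map_const', List.sum_replicate, nsmul_eq_mul]
        rw [e3, hall f List.mem_cons_self]
        obtain ⟨m, hm⟩ := hms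
        have e5 : ((ms.length : ℕ) : B) = 0 := by
          rw [hm, Nat.cast_add]; exact b_add_self _
        rw [e5]; ring
      rw [hsum, g2, g3, ← hlr] at e1
      have e6 : (val l V₀ + val f V₀) * (val l V + val x V) = 0 := by
        linear_combination e1 - e2
      have key : ∀ p q s w : B, p ≠ q → (p + q) * (s + w) = 0 → s = w := by decide
      exact key _ _ _ _ hne e6
    have h8 : ∀ u ∈ us', kind u = Kind.odd → val u V = val x V := by
      intro u hu hk
      have h9 : u ∈ us'.filter (isOdd kind) := List.mem_filter.2 ⟨hu, by simp [isOdd, hk]⟩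
      rw [hos'] at h9
      simp only [List.mem_cons, List.mem_append, List.not_mem_nil, or_false] at h9
      rcases h9 with rfl | h9 | rfl
      · rfl
      · exact h6 u h9
      · exact h7
    have h9 := walk_even hE' h8 h4 hS
    refine ⟨hgc, val x V, ?_⟩
    intro u hu hk
    rcases hsub' u hu with rfl | rfl | h
    · exact hD
    · rw [← hlr]; exact hD
    · exact h9 u h hk

end

end Pool.Agent.MP42.U
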