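import Pool.Agent.MP42.U.Bri2

/-!
# Project MP42: `RD` from a reading of an instance

`Inst.Reading.toRD`; `Inst.exists_reading_root`: a reading whose root circle has no port.
-/

set_option autoImplicit false
set_option linter.unusedSectionVars false

namespace Pool.Agent.MP42.U

namespace Inst

variable {C J α : Type*} [LinearOrder α] {G : Inst C J α} [Fintype C] [Fintype J] [DecidableEq α]

namespace Reading

variable (R : G.Reading)

/-- the own link is double -/
def dbl (c : C) : Prop := Even (G.lt R.L (Sum.inr c : α ⊕ C)).card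

variable {R}

lemma od_iff {z : C} {i : α ⊕ C} (hi : i ∈ R.rd z) : Od' R.dbl i ↔ G.Od R.L i := by
  cases i with
  | inl p =>
    have h1 := G.mem_items'.1 ((R.mem_rd z _).1 hi)
    exact ⟨fun _ => G.od_letter (h1.1 p rfl), fun _ => trivial⟩
  | inr c => exact Nat.not_even_iff_odd

lemma lst_eq (z : C) : lst (G.xN z) (R.p z) (R.us z) = R.rd z := (R.rd_eq z).symm

lemma x_inj : Function.Injective R.x := by
  intro j k h
  rcases R.hx j with h1 | h1 <;> rcases R.hx k with h2 | h2 <;> rw [h1, h2] at h
  · exact G.b_inj h
  · exact absurd h (G.b_ne_a _ _)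
  · exact absurd h.symm (G.b_ne_a _ _)
  · exact G.a_inj h

lemma y_ne_x (j k : J) : G.y j ≠ R.x k := by
  intro h
  rcases R.hx k with h1 | h1 <;> rw [h1] at h
  · exact G.y_ne_b _ _ h
  · exact G.y_ne_a _ _ h

lemma x_L0 (j : J) : R.x j ∉ G.L0 := by
  rcases R.hx j with h | h <;> rw [h]
  · exact G.b_L0 j
  · exact G.a_L0 j

variable (R)

open Classical in
/-- the other end of a letter -/
noncomputable def mate (q : α) : α :=
  if q ∈ G.L0 then G.mate q
  else if h : ∃ j, q = G.y j then R.x h.choose
  else if h : ∃ j, q = R.x j then G.y h.choose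
  else q

variable {R}

lemma mate_L0 {q : α} (h : q ∈ G.L0) : R.mate q = G.mate q := by
  unfold mate
  rw [if_pos h]

lemma mate_y (j : J) : R.mate (G.y j) = R.x j := by
  have h : ∃ k, G.y j = G.y k := ⟨j, rfl⟩
  unfold mate
  rw [if_neg (G.y_L0 j), dif_pos h]
  exact congrArg R.x (G.y_inj h.choose_spec.symm)

lemma mate_x (j : J) : R.mate (R.x j) = G.y j := by
  have h1 : ¬ ∃ k, R.x j = G.y k := by
    rintro ⟨k, hk⟩
    exact R.y_ne_x k j hk.symm
  have h : ∃ k, R.x j = R.x k := ⟨j, rfl⟩
  unfold mate
  rw [if_neg (R.x_L0 j), dif_neg h1, dif_pos h]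
  exact congrArg G.y (R.x_inj h.choose_spec.symm)

lemma mem_L {q : α} : q ∈ R.L ↔ (∃ j, q = G.y j) ∨ (∃ j, q = R.x j) ∨ q ∈ G.L0 := G.mem_used

lemma mate_mem {q : α} (h : q ∈ R.L) : R.mate q ∈ R.L ∧ R.mate (R.mate q) = q ∧
    R.mate q ≠ q := by
  rcases mem_L.1 h with ⟨j, rfl⟩ | ⟨j, rfl⟩ | h
  · rw [mate_y, mate_x]
    exact ⟨R.x_mem j, rfl, fun h => R.y_ne_x j j h.symm⟩
  · rw [mate_x, mate_y]
    exact ⟨mem_L.2 (Or.inl ⟨j, rfl⟩), rfl, R.y_ne_x j j⟩
  · rw [mate_L0 h, mate_L0 (G.mate_mem q h)]
    exact ⟨R.L0_mem (G.mate_mem q h), G.mate_mate q h, G.mate_ne q h⟩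

open Classical in
/-- the number of odd items of a list of units -/
lemma fl_len : ∀ {us : List (It (α ⊕ C))}, (∀ u ∈ us, u.Good (G.Od R.L) (Po R.x)) →
    (((us.flatMap It.fl).filter fun i => decide (G.Od R.L i)).length +
      (us.flatMap It.fri).length) % 2 = 0 := by
  intro us
  induction us with
  | nil => intro _; rfl
  | cons u us ih =>
    intro h
    have h1 := h u List.mem_cons_self
    have h2 := ih fun v hv => h v (List.mem_cons_of_mem _ hv)
    rw [List.flatMap_cons, List.flatMap_cons, List.filter_append, List.length_append,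
      List.length_append]
    have h3 : ((u.fl.filter fun i => decide (G.Od R.L i)).length + u.fri.length) % 2 = 0 := by
      cases u with
      | ev i =>
        have : ¬ G.Od R.L i := h1
        simp [It.fl, It.fri, this]
      | fr i =>
        have : G.Od R.L i := h1.1
        simp [It.fl, It.fri, this]
      | br f m x =>
        obtain ⟨h4, h5, h6, h7⟩ := h1
        have h8 := R.po_od h7
        have h9 : (m.filter fun i => decide (G.Od R.L i)) = [] := by
          rw [List.filter_eq_nil_iff]
          intro i hi
          simpa using h6 i hi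
        have e : (It.br f m x).fl = f :: (m ++ [x]) := rfl
        rw [e, List.filter_cons_of_pos (by simpa using h4), List.filter_append, h9,
          List.filter_cons_of_pos (by simpa using h8)]
        simp [It.fri]
    omega

variable (R) in
open Classical in
/-- **the circles of the instance** -/
noncomputable def toRD (grp : C → Prop) (hr : R.p G.r = none) : RD C α where
  r := G.r
  par := G.par
  dep := G.dep
  dep_par := G.dep_par
  pt := G.pt
  L := R.L
  dbl := R.dbl
  real := G.real
  grp := grp
  tw := fun c => decide (G.cls c ↔ G.cls (G.par c))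
  xN := G.xN
  p := R.p
  us := R.us
  nodup := fun z => by rw [lst_eq]; exact R.nodup z
  ex := none
  mem_rd := fun z i => by
    rw [lst_eq, R.mem_rd z i, G.mem_items']
    exact ⟨fun h => ⟨h.1, h.2.1, h.2.2, by simp⟩, fun h => ⟨h.1, h.2.1, h.2.2.1⟩⟩
  Po := Po R.x
  po_od := by
    rintro i ⟨j, rfl⟩
    exact trivial
  p_spec := by
    intro z q hq
    obtain ⟨h1, h2⟩ := R.p_spec z q hq
    refine ⟨?_, h2⟩
    intro i hi
    have h3 : i ∈ R.rd z := by
      rw [R.rd_eq z, front]
      refine List.mem_append_left _ (List.mem_append_right _ ?_)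
      rw [Option.mem_def.1 hq]
      simp [hi]
    rw [od_iff h3]
    exact h1 i hi
  us_spec := by
    intro z u hu
    have h1 := R.us_spec z u hu
    have h3 : ∀ i ∈ u.fl, i ∈ R.rd z := by
      intro i hi
      rw [R.rd_eq z]
      exact List.mem_append_right _ (List.mem_flatMap.2 ⟨u, hu, hi⟩)
    cases u with
    | ev i =>
      show ¬ Od' R.dbl i
      rw [od_iff (h3 i (by simp [It.fl]))]
      exact h1
    | fr i =>
      refine ⟨?_, h1.2⟩
      rw [od_iff (h3 i (by simp [It.fl]))]
      exact h1.1
    | br f m x =>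
      refine ⟨?_, h1.2.1, ?_, h1.2.2.2⟩
      · rw [od_iff (h3 f (by simp [It.fl]))]
        exact h1.1
      · intro i hi
        rw [od_iff (h3 i (by simp [It.fl, hi]))]
        exact h1.2.2.1 i hi
  par_rd := by
    intro z
    have h1 := R.even_items z
    have h2 := fl_len (R := R) (us := R.us z) (fun u hu => R.us_spec z u hu)
    have h3 : ((R.rd z).filter fun i => decide (G.Od R.L i)).length =
        (G.xN z).elim 0 (fun _ => 1) + (R.p z).elim 0 (fun _ => 1) +
          (((R.us z).flatMap It.fl).filter fun i => decide (G.Od R.L i)).length := by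
      rw [R.rd_eq z, front, List.filter_append, List.filter_append, List.length_append,
        List.length_append]
      congr 1
      congr 1
      · cases hx : G.xN z with
        | none => rfl
        | some x =>
          have h4 : G.Od R.L (Sum.inl x : α ⊕ C) :=
            G.od_letter (R.L0_mem (G.xN_mem z x hx).1)
          simp [h4]
      · cases hp : R.p z with
        | none => rfl
        | some q =>
          obtain ⟨h5, h6⟩ := R.p_spec z q hp
          have h7 := R.po_od h6
          have h8 : (q.1.filter fun i => decide (G.Od R.L i)) = [] := by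
            rw [List.filter_eq_nil_iff]
            intro i hi
            simpa using h5 i hi
          simp only [Option.elim_some]
          rw [List.filter_append, h8, List.filter_cons_of_pos (by simpa using h7)]
          rfl
    rw [h3] at h1
    unfold dbl
    rw [Nat.even_iff] at h1 ⊢
    rw [Nat.even_iff]
    constructor
    · intro h
      omega
    · intro h
      omega
  ex_dbl := by
    constructor
    · intro _; rfl
    · intro _
      show Even _
      rw [R.lt_root]
      exact R.even_L
  ex_mem := by simp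
  ex_c := by simp
  mate := R.mate
  mate_mem := fun q hq _ => ⟨(mate_mem hq).1, by simp⟩
  mate_mate := fun q hq _ => (mate_mem hq).2.1
  mate_ne := fun q hq _ => (mate_mem hq).2.2
  root := fun _ => ⟨G.xN_root, hr⟩
  conn := by
    intro val _ h2 h3
    refine R.conn val ?_ ?_ ?_
    · intro j
      have h4 := h2 (G.y j) (mem_L.2 (Or.inl ⟨j, rfl⟩)) (by simp)
      rw [mate_y] at h4
      exact h4.symm
    · intro q hq
      have h4 := h2 q (R.L0_mem hq) (by simp)
      rw [mate_L0 hq] at h4
      exact h4
    · intro z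
      exact h3 z

end Reading

/-- the port of the root circle contradicts the phase -/
lemma root_port {R : G.Reading} {φ : ℕ}
    (hpar : ∀ j, Even (((G.used R.x G.L0).filter (fun u => u < R.x j)).card + φ))
    {q : List (α ⊕ C) × (α ⊕ C)} (hq : R.p G.r = some q) : G.cls G.r ↔ Even φ := by
  classical
  obtain ⟨h1, j, hj⟩ := R.p_spec G.r q hq
  have hrd : R.rd G.r = (q.1 ++ [q.2]) ++ (R.us G.r).flatMap It.fl := by
    rw [R.rd_eq, front, G.xN_root, hq]
    rfl
  have hb := R.bef G.r
  rw [hrd, List.pairwise_append, List.pairwise_append] at hb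
  obtain ⟨⟨-, -, hb1⟩, -, hb2⟩ := hb
  have hb1 : ∀ i ∈ q.1, G.Bef G.r i (Sum.inl (R.x j)) := by
    intro i hi
    have := hb1 i hi q.2 (by simp)
    rwa [hj] at this
  have hb2 : ∀ i ∈ (R.us G.r).flatMap It.fl, G.Bef G.r (Sum.inl (R.x j)) i := by
    intro i hi
    have := hb2 q.2 (by simp) i hi
    rwa [hj] at this
  have hcase : ∀ i ∈ G.items R.L G.r, i ∈ q.1 ∨ i = Sum.inl (R.x j) ∨
      i ∈ (R.us G.r).flatMap It.fl := by
    intro i hi
    have h2 := (R.mem_rd G.r i).2 hi
    rw [hrd, List.mem_append, List.mem_append] at h2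
    rcases h2 with (h2 | h2) | h2
    · exact Or.inl h2
    · rw [List.mem_singleton, hj] at h2
      exact Or.inr (Or.inl h2)
    · exact Or.inr (Or.inr h2)
  have hsum : ∀ P : α → Prop, (∀ i ∈ q.1, ∀ u ∈ G.lt R.L i, P u) → ¬ P (R.x j) →
      (∀ i ∈ (R.us G.r).flatMap It.fl, ∀ u ∈ G.lt R.L i, ¬ P u) →
      Even (R.L.filter P).card := by
    intro P p1 p2 p3
    have h2 := G.toContour.sum_items R.L G.r P (fun _ => (1 : ℕ))
    rw [R.lt_root] at h2
    simp only [Finset.sum_const, smul_eq_mul, mul_one] at h2
    have h3 : (R.L.filter P).card = ∑ i ∈ G.items R.L G.r, ((G.lt R.L i).filter P).card := by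
      convert h2 using 2
    rw [h3]
    refine Finset.even_sum _ fun i hi => ?_
    rcases hcase i hi with h4 | h4 | h4
    · have h5 := h1 i h4
      rw [Finset.filter_true_of_mem (p1 i h4)]
      exact Nat.not_odd_iff_even.1 h5
    · rw [h4, G.lt_inl (R.x_mem j), Finset.filter_singleton, if_neg p2]
      exact ⟨0, rfl⟩
    · rw [Finset.filter_false_of_mem (p3 i h4)]
      exact ⟨0, rfl⟩
  have hx := hpar j
  have hL : (R.L.filter fun u => u < R.x j).card + (R.L.filter fun u => R.x j < u).card + 1 =
      R.L.card := by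
    have e : R.L = (R.L.filter fun u => u < R.x j) ∪ ((R.L.filter fun u => R.x j < u) ∪
        {R.x j}) := by
      ext u
      simp only [Finset.mem_union, Finset.mem_filter, Finset.mem_singleton]
      constructor
      · intro hu
        rcases lt_trichotomy u (R.x j) with h | h | h
        · exact Or.inl ⟨hu, h⟩
        · exact Or.inr (Or.inr h)
        · exact Or.inr (Or.inl ⟨hu, h⟩)
      · rintro (h | h | h)
        · exact h.1
        · exact h.1
        · rw [h]; exact R.x_mem j
    conv_rhs => rw [e]
    rw [Finset.card_union_of_disjoint, Finset.card_union_of_disjoint, Finset.card_singleton,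
      add_assoc]
    · rw [Finset.disjoint_left]
      intro u h2 h3
      rw [Finset.mem_singleton] at h3
      rw [h3] at h2
      exact lt_irrefl _ (Finset.mem_filter.1 h2).2
    · rw [Finset.disjoint_left]
      intro u h2 h3
      have h2 := (Finset.mem_filter.1 h2).2
      rcases Finset.mem_union.1 h3 with h3 | h3
      · exact lt_asymm h2 (Finset.mem_filter.1 h3).2
      · rw [Finset.mem_singleton] at h3
        rw [h3] at h2
        exact lt_irrefl _ h2
  have hLe := R.even_L
  constructor
  · intro hc
    have h2 := hsum (fun u => u < R.x j) (by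
      intro i hi u hu
      have h3 : G.ihi i < R.x j := (hb1 i hi).1 hc
      exact (G.mem_lt.1 hu).2.2.trans_lt h3) (lt_irrefl _) (by
      intro i hi u hu
      have h3 : R.x j < G.ilo i := (hb2 i hi).1 hc
      exact not_lt.2 (h3.le.trans (G.mem_lt.1 hu).2.1))
    have h2' : Even (R.L.filter fun u => u < R.x j).card := by convert h2
    have hx : Even ((R.L.filter fun u => u < R.x j).card + φ) := hx
    rw [Nat.even_iff] at hx h2' ⊢
    omega
  · intro hφ
    by_contra hc
    have h2 := hsum (fun u => R.x j < u) (by
      intro i hi u hu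
      have h3 : R.x j < G.ilo i := (hb1 i hi).2 hc
      exact h3.trans_le (G.mem_lt.1 hu).2.1) (lt_irrefl _) (by
      intro i hi u hu
      have h3 : G.ihi i < R.x j := (hb2 i hi).2 hc
      exact not_lt.2 ((G.mem_lt.1 hu).2.2.trans h3.le))
    have h2' : Even (R.L.filter fun u => R.x j < u).card := by convert h2
    have hx : Even ((R.L.filter fun u => u < R.x j).card + φ) := hx
    rw [Nat.even_iff] at h2' hφ hx hLe
    omega

variable (G) in
/-- **a reading whose root circle has no port** -/
theorem exists_reading_root : ∃ R : G.Reading, R.p G.r = none := by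
  classical
  obtain ⟨R, hR⟩ := G.exists_reading (if G.cls G.r then 1 else 0)
  refine ⟨R, ?_⟩
  by_contra h
  obtain ⟨q, hq⟩ := Option.ne_none_iff_exists'.1 h
  have h1 := root_port hR hq
  split_ifs at h1 with hc
  · exact absurd (h1.1 hc) (by decide)
  · exact hc (h1.2 ⟨0, rfl⟩)

end Inst

end Pool.Agent.MP42.U
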