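import Pool.Agent.MP42.U.Act

/-!
# The letters of the actual words
-/

set_option autoImplicit false

namespace Pool.Agent.MP42.U

variable {T : Type*}

namespace Circ

/-- the real children in the groups of a fused circle -/
def reals : Circ T → List (T × T)
  | pl _ _ _ => []
  | fu A => A.gs.flatMap fun g => g.1.flatMap Itm.rep
  | gp _ _ _ _ _ => []

/-- the possible letters of the actual word -/
inductive Org (c : Circ T) (s : T → Bool) : Bool × T → Prop
  | l : Org c s (true, c.l)
  | r (t : T) (h : c.r = some t) : Org c s (true, t)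
  | fx (t : T) (h : BU.fx t ∈ c.pus) : Org c s (s t, t)
  | fr (t : T) (h : BU.fr t ∈ c.pus) (h' : c.r ≠ some t) : Org c s (s t, t)
  | brt (t x : T) (m : List (T × T)) (h : BU.br t x m ∈ c.pus) : Org c s (false, t)
  | brx (t x : T) (m : List (T × T)) (h : BU.br t x m ∈ c.pus) : Org c s (true, x)
  | gt (t : T) (m : List (T × T)) (b : Bool) (h : BU.gu m t ∈ c.pus) (h' : c.r ≠ some t) :
      Org c s (b, t)
  | gv (t : T) (m : List (T × T)) (h : BU.gv t m ∈ c.pus) : Org c s (false, t)
  | ev1 (p : T × T) (h : p ∈ c.evs) : Org c s (true, p.1)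
  | ev2 (p : T × T) (h : p ∈ c.evs) : Org c s (false, p.2)
  | nn (p : T × T) (h : p ∈ c.reals) : Org c s (false, p.1)

lemma mem_up {m : List (T × T)} {q : Bool × T} (h : q ∈ up m) :
    ∃ p ∈ m, q = (true, p.1) ∨ q = (false, p.2) := by
  obtain ⟨p, hp, h⟩ := List.mem_flatMap.1 h
  exact ⟨p, hp, by simpa using h⟩

lemma Org.up {c : Circ T} {s : T → Bool} {m : List (T × T)} (hm : ∀ p ∈ m, p ∈ c.evs)
    {q : Bool × T} (h : q ∈ U.up m) : c.Org s q := by
  obtain ⟨p, hp, rfl | rfl⟩ := mem_up h
  · exact Org.ev1 p (hm p hp)
  · exact Org.ev2 p (hm p hp)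

/-- letters of the items -/
lemma Org.rd {c : Circ T} {s : T → Bool} {m : List (Itm T)}
    (hm : ∀ i ∈ m, ∀ p ∈ i.evs, p ∈ c.evs) (hb : ∀ t x m', Itm.br t x m' ∈ m →
      BU.br t x m' ∈ c.pus) {q : Bool × T} (h : q ∈ m.flatMap Itm.rd) : c.Org s q := by
  obtain ⟨i, hi, hq⟩ := List.mem_flatMap.1 h
  have h1 := hm i hi
  cases i with
  | re a b => exact Org.up (m := [(a, b)]) h1 hq
  | la a b => exact Org.up (m := [(a, b)]) h1 hq
  | br t x m' =>
    have h2 := hb t x m' hi
    have e1 : (Itm.br t x m').rd = (false, t) :: (U.up m' ++ [(true, x)]) := rfl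
    rw [e1] at hq
    rcases List.mem_cons.1 hq with hq | hq
    · rw [hq]
      exact Org.brt t x m' h2
    · rcases List.mem_append.1 hq with hq | hq
      · exact Org.up h1 hq
      · rw [List.mem_singleton.1 hq]
        exact Org.brx t x m' h2

/-- letters of a plain unit -/
lemma Org.unit {c : Circ T} {s : T → Bool} {u : BU T} (hu : u ∈ c.pus) (hp : u.plain)
    (hev : ∀ p ∈ u.evs, p ∈ c.evs) (hr : ∀ r, c.r = some r → u ≠ BU.fr r) {q : Bool × T}
    (h : q ∈ u.lts (BU.sg s u)) : c.Org s q := by
  cases u with
  | fr t =>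
    rw [List.mem_singleton.1 (show q ∈ [(BU.sg s (BU.fr t), t)] from h)]
    exact Org.fr t hu fun h' => hr t h' rfl
  | fx t =>
    rw [List.mem_singleton.1 (show q ∈ [(BU.sg s (BU.fx t), t)] from h)]
    exact Org.fx t hu
  | ev a b => exact Org.up (m := [(a, b)]) hev h
  | br t x m =>
    have e1 : (BU.br t x m).lts (BU.sg s (BU.br t x m)) =
      (false, t) :: (U.up m ++ [(true, x)]) := rfl
    rw [e1] at h
    rcases List.mem_cons.1 h with hq | hq
    · rw [hq]
      exact Org.brt t x m hu
    · rcases List.mem_append.1 hq with hq | hq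
      · exact Org.up hev hq
      · rw [List.mem_singleton.1 hq]
        exact Org.brx t x m hu
  | gu m t => exact hp.elim
  | gv t m => exact hp.elim

/-- letters of the actual word of a group -/
lemma Org.group {c : Circ T} {pr s : T → Bool} {g : List (Itm T) × T}
    (hm : ∀ i ∈ g.1, ∀ p ∈ i.evs, p ∈ c.evs) (hb : ∀ t x m', Itm.br t x m' ∈ g.1 →
      BU.br t x m' ∈ c.pus) (hnn : ∀ p ∈ g.1.flatMap Itm.rep, p ∈ c.reals)
    (hg : BU.gu (g.1.flatMap Itm.rep) g.2 ∈ c.pus)
    (hr : c.r = some g.2 → s g.2 = false → hd2 pr g.1 = [] → pr g.2 = false) {q : Bool × T}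
    (h : q ∈ gact pr (s g.2) g) : c.Org s q := by
  have hfl : ∀ m : List (Itm T), (∀ i ∈ m, i ∈ g.1) → q ∈ fl pr (m.flatMap Itm.rd) →
      c.Org s q := by
    intro m hm' hq
    exact Org.rd (fun i hi => hm i (hm' i hi)) (fun t x m' hi => hb t x m' (hm' _ hi))
      (List.mem_filter.1 hq).1
  have htrue : c.Org s (true, g.2) := by
    by_cases h1 : c.r = some g.2
    · exact Org.r _ h1
    · exact Org.gt _ _ _ hg h1
  cases hs : s g.2
  · rw [hs] at h
    rcases h2 : hd2 pr g.1 with _ | ⟨i, m⟩
    · have e1 : gact pr false g = fl pr (g.1.flatMap Itm.rd) ++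
          (if pr g.2 then [(false, g.2)] else []) := by
        unfold gact
        simp only [h2]
        rfl
      rw [e1] at h
      rcases List.mem_append.1 h with h | h
      · exact hfl g.1 (fun i hi => hi) h
      · by_cases h1 : c.r = some g.2
        · rw [hr h1 hs h2] at h
          simp at h
        · have h3 : q = (false, g.2) := by
            cases h4 : pr g.2
            · rw [h4] at h; simp at h
            · rw [h4] at h; simpa using h
          rw [h3]
          exact Org.gt _ _ _ hg h1
    · have e1 : gact pr false g = fl pr ((hd1 pr g.1).flatMap Itm.rd) ++ (i.nn ++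
          (fl pr (m.flatMap Itm.rd) ++ [(true, g.2)])) := by
        unfold gact
        simp only [h2]
        rfl
      have hsub : ∀ j, j ∈ hd1 pr g.1 ∨ j = i ∨ j ∈ m → j ∈ g.1 := by
        intro j hj
        rw [← hd_append pr g.1, h2]
        simpa using hj
      rw [e1] at h
      rcases List.mem_append.1 h with h | h
      · exact hfl _ (fun j hj => hsub j (Or.inl hj)) h
      · rcases List.mem_append.1 h with h | h
        · have hi : i ∈ g.1 := hsub i (Or.inr (Or.inl rfl))
          cases i with
          | re a b =>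
            simp only [Itm.nn, List.mem_cons, List.not_mem_nil, or_false] at h
            rcases h with h | h <;> rw [h]
            · exact Org.nn (a, b) (hnn _ (List.mem_flatMap.2 ⟨_, hi, by simp [Itm.rep]⟩))
            · exact Org.ev2 (a, b) (hm _ hi _ (by simp [Itm.evs]))
          | la a b => simp [Itm.nn] at h
          | br t x m' => simp [Itm.nn] at h
        · rcases List.mem_append.1 h with h | h
          · exact hfl _ (fun j hj => hsub j (Or.inr (Or.inr hj))) h
          · rw [List.mem_singleton.1 h]
            exact htrue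
  · rw [hs] at h
    have e1 : gact pr true g = fl pr (g.1.flatMap Itm.rd) ++ [(true, g.2)] := rfl
    rw [e1] at h
    rcases List.mem_append.1 h with h | h
    · exact hfl g.1 (fun i hi => hi) h
    · rw [List.mem_singleton.1 h]
      exact htrue

lemma mem_word {st : BU T → Bool} {us : List (BU T)} {q : Bool × T} (h : q ∈ BU.word st us) :
    ∃ u ∈ us, q ∈ u.lts (st u) := List.mem_flatMap.1 h

/-- **the letters of the actual word** -/
theorem act_org {c : Circ T} {pr s : T → Bool} (hw : c.WS) (hC : c.CC s) (hn : c.tks.Nodup)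
    (hP : c.Pc pr s) : ∀ q ∈ c.act pr s, c.Org s q := by
  intro q hq
  have hnu := pus_nodup hn
  cases c with
  | pl l r us =>
    obtain ⟨h1, h2⟩ := List.mem_filter.1 hq
    obtain ⟨u, hu, h3⟩ := mem_word h1
    by_cases h4 : ∃ r', r = some r' ∧ u = BU.fr r'
    · obtain ⟨r', hr', rfl⟩ := h4
      have h5 : q = (s r', r') := List.mem_singleton.1 h3
      have h6 : pr r' = true := by rw [h5] at h2; exact h2
      have h7 : s r' = true := by
        by_contra h8
        have h9 : (Circ.pl l r us).isDr pr s = true := by
          unfold isDr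
          simp only [Circ.r, hr', beads]
          simpa using h8
        have h10 := (hP.ow r' (Or.inr hr')).2 ⟨rfl, h9⟩
        rw [h6] at h10
        simp at h10
      rw [h5, h7]
      exact Org.r r' hr'
    · push Not at h4
      exact Org.unit (c := Circ.pl l r us) hu (hw.pl l r us rfl u hu)
        (fun p hp => List.mem_flatMap.2 ⟨u, hu, hp⟩) (fun r' hr' => h4 r' hr') h3
  | gp l us t g r =>
    obtain ⟨h1, h2⟩ := List.mem_filter.1 hq
    rcases List.mem_append.1 h1 with h1 | h1
    · obtain ⟨u, hu, h3⟩ := mem_word h1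
      have hu' : u ∈ (Circ.gp l us t g r).pus := List.mem_append_left _ hu
      refine Org.unit (c := Circ.gp l us t g r) hu' (hw.gp l us t g r rfl u hu)
        (fun p hp => List.mem_append_left _ (List.mem_flatMap.2 ⟨u, hu, hp⟩)) ?_ h3
      intro r' hr' h4
      have h5 : r = r' := by simpa [Circ.r] using hr'
      have h6 : BU.fr r ∈ us := by rw [h5, ← h4]; exact hu
      have e3 : (Circ.gp l us t g r).tks = us.flatMap BU.tks ++
          (t :: (g.flatMap Itm.tks ++ [r])) := rfl
      rw [e3] at hn
      exact (List.nodup_append.1 hn).2.2 r (List.mem_flatMap.2 ⟨_, h6, by simp [BU.tks]⟩) r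
        (by simp) rfl
    · rcases List.mem_cons.1 h1 with h1 | h1
      · rw [h1]
        exact Org.gv t (g.flatMap Itm.pairs) (by simp [pus])
      · rcases List.mem_append.1 h1 with h1 | h1
        · refine Org.rd (fun i hi p hp => List.mem_append_right _
            (List.mem_flatMap.2 ⟨i, hi, hp⟩)) ?_ h1
          intro t' x m' hi
          exact List.mem_append_right _ (List.mem_append_left _ (List.mem_flatMap.2
            ⟨_, hi, by simp [Itm.brp]⟩))
        · rw [List.mem_singleton.1 h1]
          exact Org.r r rfl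
  | fu A =>
    have hw1 := hw.fu A rfl
    obtain ⟨s1, s2, s3⟩ := hC.fu A rfl
    have e0 : (Circ.fu A).pus = BU.fx A.l :: ((BU.fx A.x :: (A.e1 ++ [BU.fx A.X])) ++
      (A.gs.flatMap gpre ++ (A.tl.flatMap Itm.brp ++
        ((A.tl.flatMap Itm.rep).map fun p => BU.ev p.1 p.2)))) := rfl
    have e1 : (Circ.fu A).act pr s = fl pr [(true, A.l)] ++ ([(true, A.x)] ++
      (fl pr (BU.word (BU.sg s) A.e1) ++ ([(true, A.X)] ++
      ((A.gs.flatMap fun g => gact pr (s g.2) g) ++ fl pr (A.tl.flatMap Itm.rd))))) := rfl
    rw [e1] at hq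
    rcases List.mem_append.1 hq with hq | hq
    · rw [List.mem_singleton.1 (List.mem_filter.1 hq).1]
      exact Org.l (c := Circ.fu A)
    rcases List.mem_append.1 hq with hq | hq
    · rw [List.mem_singleton.1 hq]
      have := Org.fx (c := Circ.fu A) (s := s) A.x (by rw [e0]; simp)
      rwa [s2] at this
    rcases List.mem_append.1 hq with hq | hq
    · obtain ⟨u, hu, h3⟩ := mem_word (List.mem_filter.1 hq).1
      have hu' : u ∈ (Circ.fu A).pus := by rw [e0]; simp [hu]
      refine Org.unit (c := Circ.fu A) hu' (hw1 u hu).1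
        (fun p hp => List.mem_append_left _ (List.mem_flatMap.2 ⟨u, hu, hp⟩)) ?_ h3
      intro r' _ h4
      have := (hw1 u hu).2
      rw [h4] at this
      simp [BU.kind] at this
    rcases List.mem_append.1 hq with hq | hq
    · rw [List.mem_singleton.1 hq]
      have := Org.fx (c := Circ.fu A) (s := s) A.X (by rw [e0]; simp)
      rwa [s3] at this
    rcases List.mem_append.1 hq with hq | hq
    · obtain ⟨g, hg, hq⟩ := List.mem_flatMap.1 hq
      have mg : ∀ u ∈ gpre g, u ∈ (Circ.fu A).pus := by
        intro u hu
        rw [e0]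
        exact List.mem_cons_of_mem _ (List.mem_append_right _ (List.mem_append_left _
          (List.mem_flatMap.2 ⟨g, hg, hu⟩)))
      refine Org.group (c := Circ.fu A) (fun i hi p hp => List.mem_append_right _
        (List.mem_append_left _ (List.mem_flatMap.2 ⟨g, hg, List.mem_flatMap.2 ⟨i, hi, hp⟩⟩)))
        ?_ (fun p hp => List.mem_flatMap.2 ⟨g, hg, hp⟩) (mg _ (by unfold gpre; simp)) ?_ hq
      · intro t x m' hi
        refine mg _ ?_
        unfold gpre
        exact List.mem_append_left _ (List.mem_flatMap.2 ⟨_, hi, by simp [Itm.brp]⟩)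
      · intro hr hs hh2
        have hr' : (Circ.fu A).r = some g.2 := hr
        obtain ⟨-, gs', m, hgs'⟩ := hw.ofu A rfl g.2 hr
        have hbd : (Circ.fu A).beads = m.flatMap Itm.rep := by
          unfold beads
          simp [hgs']
        have hmem : (m, g.2) ∈ A.gs := by rw [hgs']; simp
        have hgm : g = (m, g.2) := by
          have h1 : BU.gu (g.1.flatMap Itm.rep) g.2 ∈ (Circ.fu A).pus :=
            mg _ (by unfold gpre; simp)
          have hn2 : (A.gs.flatMap fun g => g.1.flatMap Itm.tks ++ [g.2]).Nodup := by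
            have h1 := hn
            have e2 : (Circ.fu A).tks = [A.l] ++ ([A.x] ++ (A.e1.flatMap BU.tks ++ ([A.X] ++
              ((A.gs.flatMap fun g => g.1.flatMap Itm.tks ++ [g.2]) ++
                A.tl.flatMap Itm.tks)))) := rfl
            rw [e2] at h1
            exact (List.nodup_append.1 (List.nodup_append.1 (List.nodup_append.1
              (List.nodup_append.1 (List.nodup_append.1 h1).2.1).2.1).2.1).2.1).1
          rw [hgs'] at hg
          rcases List.mem_append.1 hg with hg | hg
          · exfalso
            rw [hgs', List.flatMap_append] at hn2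
            exact (List.nodup_append.1 hn2).2.2 g.2 (List.mem_flatMap.2 ⟨g, hg, by simp⟩) g.2
              (by simp) rfl
          · simpa using hg
        have hdr : (Circ.fu A).isDr pr s = true := by
          unfold isDr
          rw [hr']
          simp only [hs, Bool.not_false, Bool.true_and, List.all_eq_true, Bool.not_eq_true']
          intro p hp
          rw [hbd] at hp
          obtain ⟨i, hi, hp⟩ := List.mem_flatMap.1 hp
          have h5 : g.1 = m := by rw [hgm]
          have h6 : ∀ i ∈ m, i.isP pr = false := by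
            intro j hj
            have h7 : hd2 pr m = [] := by rw [← h5]; exact hh2
            unfold hd2 at h7
            rw [List.dropWhile_eq_nil_iff] at h7
            simpa using h7 j hj
          have h7 := h6 i hi
          cases i with
          | re a b =>
            simp only [Itm.rep, List.mem_cons, List.not_mem_nil, or_false] at hp
            rw [hp]
            exact h7
          | la a b => simp [Itm.rep] at hp
          | br t x m' => simp [Itm.rep] at hp
        exact (hP.ow g.2 (Or.inr hr')).2 ⟨rfl, hdr⟩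
    · refine Org.rd (fun i hi p hp => List.mem_append_right _ (List.mem_append_right _
        (List.mem_flatMap.2 ⟨i, hi, hp⟩))) ?_ (List.mem_filter.1 hq).1
      intro t x m' hi
      rw [e0]
      exact List.mem_cons_of_mem _ (List.mem_append_right _ (List.mem_append_right _
        (List.mem_append_left _ (List.mem_flatMap.2 ⟨_, hi, by simp [Itm.brp]⟩))))

end Circ

end Pool.Agent.MP42.U
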