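import Pool.Agent.MP42.U.Bri
import Pool.Agent.MP42.U.Let
import Pool.Agent.MP42.GZ.LAbs

/-!
# The actual words of the circles as words of links and letters

`RD.act_wd`: the actual word of the circle `z` is a rotation of `GZ.wd`.
-/

set_option autoImplicit false

namespace Pool.Agent.MP42.U

open Pool.Agent.MP42.GZ

namespace RD

variable {C α : Type*} {R : RD C α}

/-! ### Units and letters -/

/-- the units of the circle -/
inductive UO (R : RD C α) (z : C) : BU R.T → Prop
  | l : UO R z (BU.fx (R.ol z))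
  | r (h : R.dbl z) : UO R z (BU.fr (R.or z))
  | x (x : α) (h : R.xN z = some x) : UO R z (BU.fx (R.m1 (Sum.inl x)))
  | p (q : List (α ⊕ C) × (α ⊕ C)) (h : R.p z = some q) : UO R z (BU.fx (R.m1 q.2))
  | fr (i : α ⊕ C) (h : It.fr i ∈ R.us z) : UO R z (BU.fr (R.m1 i))
  | br (f : α ⊕ C) (m : List (α ⊕ C)) (x : α ⊕ C) (h : It.br f m x ∈ R.us z) :
      UO R z (BU.br (R.m1 f) (R.m1 x) (m.map R.pr))
  | ev (a b : R.T) : UO R z (BU.ev a b)
  | gur (m : List (R.T × R.T)) (h : R.dbl z) : UO R z (BU.gu m (R.or z))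
  | gu (m : List (R.T × R.T)) (i : α ⊕ C) (h : It.fr i ∈ R.us z) : UO R z (BU.gu m (R.m1 i))
  | gv (m : List (R.T × R.T)) (i : α ⊕ C) (h : It.fr i ∈ R.us z) : UO R z (BU.gv (R.m1 i) m)

lemma fro_uo {z : C} : ∀ u ∈ R.fro z, UO R z u := by
  intro u hu
  unfold fro at hu
  rcases List.mem_cons.1 hu with rfl | hu
  · exact UO.l
  · rcases List.mem_append.1 hu with hu | hu
    · cases hx : R.xN z with
      | none => rw [hx] at hu; simp at hu
      | some x =>
        rw [hx] at hu
        simp only [Option.elim_some, List.mem_singleton] at hu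
        rw [hu]
        exact UO.x x hx
    · cases hx : R.p z with
      | none => rw [hx] at hu; simp at hu
      | some q =>
        rw [hx] at hu
        simp only [Option.elim_some, List.mem_append, List.mem_map, List.mem_singleton] at hu
        rcases hu with ⟨i, hi, rfl⟩ | rfl
        · exact UO.ev _ _
        · exact UO.p q hx

lemma ut_uo {z : C} {w : It (α ⊕ C)} (hw : w ∈ R.us z) : UO R z (R.ut w) := by
  cases w with
  | ev i => exact UO.ev _ _
  | fr i => exact UO.fr i hw
  | br f m x => exact UO.br f m x hw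

lemma brp_uo {z : C} {w : It (α ⊕ C)} (hw : w ∈ R.us z) {u : BU R.T} (hu : u ∈ (R.ui w).brp) :
    UO R z u := by
  cases w with
  | ev i =>
    rw [ui_ev] at hu
    split_ifs at hu <;> simp [Itm.brp] at hu
  | fr i => simp [ui, Itm.brp] at hu
  | br f m x =>
    have h1 : u = BU.br (R.m1 f) (R.m1 x) (m.map R.pr) := by simpa [ui, Itm.brp] using hu
    rw [h1]
    exact UO.br f m x hw

lemma gs_mem_us {z : C} {g : List (It (α ⊕ C)) × (α ⊕ C)} (hg : g ∈ R.gs z) :
    It.fr g.2 ∈ R.us z ∧ ∀ u ∈ g.1, u ∈ R.us z := by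
  rw [R.us_eq z]
  constructor
  · exact List.mem_append_left _ (List.mem_flatMap.2 ⟨g, hg, by simp⟩)
  · intro u hu
    exact List.mem_append_left _ (List.mem_flatMap.2 ⟨g, hg, by simp [hu]⟩)

/-- **the units of a circle** -/
theorem pus_uo {z : C} : ∀ u ∈ (R.cir z).pus, UO R z u := by
  intro u hu
  rcases R.cir_cases z with ⟨x, q, hx, hq, h⟩ | ⟨h0, h⟩ | ⟨gs, g, h0, h1, h2, h⟩
  · rw [h] at hu
    have e0 : (Circ.fu (R.fuA z x q)).pus = BU.fx (R.ol z) :: ((BU.fx (R.m1 (Sum.inl x)) ::
      (q.1.map R.ue ++ [BU.fx (R.m1 q.2)])) ++ ((R.fuA z x q).gs.flatMap gpre ++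
        ((R.fuA z x q).tl.flatMap Itm.brp ++
        (((R.fuA z x q).tl.flatMap Itm.rep).map fun p => BU.ev p.1 p.2)))) := rfl
    rw [e0] at hu
    rcases List.mem_cons.1 hu with rfl | hu
    · exact UO.l
    rcases List.mem_append.1 hu with hu | hu
    · rcases List.mem_cons.1 hu with rfl | hu
      · exact UO.x x hx
      rcases List.mem_append.1 hu with hu | hu
      · obtain ⟨i, hi, rfl⟩ := List.mem_map.1 hu
        exact UO.ev _ _
      · rw [List.mem_singleton.1 hu]
        exact UO.p q hq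
    rcases List.mem_append.1 hu with hu | hu
    · obtain ⟨g, hg, hu⟩ := List.mem_flatMap.1 hu
      unfold gpre at hu
      rcases List.mem_append.1 hu with hu | hu
      · obtain ⟨i, hi, hu⟩ := List.mem_flatMap.1 hu
        obtain ⟨w, hw, -, rfl⟩ := fuA_items hg hi
        exact brp_uo hw hu
      · rw [List.mem_singleton.1 hu]
        have hg' : g ∈ (R.gs z).map R.ug ++
          (open Classical in if R.dbl z then [((R.tl z).map R.ui, R.or z)] else []) := hg
        rcases List.mem_append.1 hg' with h' | h'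
        · obtain ⟨g', hg2, rfl⟩ := List.mem_map.1 h'
          exact UO.gu _ _ (gs_mem_us hg2).1
        · split_ifs at h' with hd
          · rw [List.mem_singleton.1 h']
            exact UO.gur _ hd
          · simp at h'
    rcases List.mem_append.1 hu with hu | hu
    · obtain ⟨i, hi, hu⟩ := List.mem_flatMap.1 hu
      obtain ⟨w, hw, -, rfl⟩ := fuA_tl hi
      exact brp_uo hw hu
    · obtain ⟨p, -, rfl⟩ := List.mem_map.1 hu
      exact UO.ev _ _
  · rw [h] at hu
    have hu : u ∈ R.plU z := hu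
    unfold plU at hu
    rcases List.mem_append.1 hu with hu | hu
    · exact fro_uo u hu
    · rcases List.mem_append.1 hu with hu | hu
      · obtain ⟨w, hw, rfl⟩ := List.mem_map.1 hu
        exact ut_uo hw
      · by_cases hd : R.dbl z
        · rw [orr_some hd] at hu
          simp only [Option.elim_some, List.mem_singleton] at hu
          rw [hu]
          exact UO.r hd
        · rw [orr_none hd] at hu
          simp at hu
  · rw [h] at hu
    have e0 : (Circ.gp (R.ol z) (R.gpU z g) (R.m1 g.2) ((R.tl z).map R.ui) (R.or z)).pus =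
      R.gpU z g ++ (((R.tl z).map R.ui).flatMap Itm.brp ++
        [BU.gv (R.m1 g.2) (((R.tl z).map R.ui).flatMap Itm.pairs), BU.fr (R.or z)]) := rfl
    have hgz : g ∈ R.gs z := by rw [h1]; simp
    rw [e0] at hu
    rcases List.mem_append.1 hu with hu | hu
    · unfold gpU at hu
      rcases List.mem_append.1 hu with hu | hu
      · exact fro_uo u hu
      · obtain ⟨w, hw, rfl⟩ := List.mem_map.1 hu
        rw [h2] at hw
        refine ut_uo ?_
        rcases List.mem_append.1 hw with hw | hw
        · obtain ⟨g', hg', hw⟩ := List.mem_flatMap.1 hw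
          have hg'' : g' ∈ R.gs z := by rw [h1]; exact List.mem_append_left _ hg'
          rcases List.mem_append.1 hw with hw | hw
          · exact (gs_mem_us hg'').2 w hw
          · rw [List.mem_singleton.1 hw]
            exact (gs_mem_us hg'').1
        · exact (gs_mem_us hgz).2 w hw
    · rcases List.mem_append.1 hu with hu | hu
      · obtain ⟨i, hi, hu⟩ := List.mem_flatMap.1 hu
        obtain ⟨w, hw, rfl⟩ := List.mem_map.1 hi
        exact brp_uo (tl_good hw) hu
      · simp only [List.mem_cons, List.not_mem_nil, or_false] at hu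
        rcases hu with rfl | rfl
        · exact UO.gv _ _ (gs_mem_us hgz).1
        · exact UO.r h0.2.1

/-- the possible letters of the tokens -/
inductive LO (R : RD C α) (z : C) : Bool → Tok C α → Prop
  | l : LO R z true (Tok.ow z true)
  | r (h : R.dbl z) : LO R z true (Tok.ow z false)
  | x (x : α) (h : R.xN z = some x) : LO R z true (Tok.pt x)
  | p (q : List (α ⊕ C) × (α ⊕ C)) (h : R.p z = some q) : LO R z true (t1 q.2)
  | fr (b : Bool) (i : α ⊕ C) (h : It.fr i ∈ R.us z) : LO R z b (t1 i)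
  | brt (f : α ⊕ C) (m : List (α ⊕ C)) (x : α ⊕ C) (h : It.br f m x ∈ R.us z) :
      LO R z false (t1 f)
  | brx (f : α ⊕ C) (m : List (α ⊕ C)) (x : α ⊕ C) (h : It.br f m x ∈ R.us z) :
      LO R z true (t1 x)
  | ev1 (c : C) : LO R z true (Tok.up c true)
  | ev2 (c : C) : LO R z false (Tok.up c false)
  | nn (c : C) (h : R.real c) (hx : R.xN z ≠ none) : LO R z false (Tok.up c true)

/-- the signs which are given -/
structure EO (R : RD C α) (z : C) (s : R.T → Bool) : Prop where
  own : s (R.ol z) = true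
  x : ∀ x, R.xN z = some x → s (R.m1 (Sum.inl x)) = true
  p : ∀ q, R.p z = some q → s (R.m1 q.2) = true
  r : R.dbl z → R.p z = none → R.xN z = none → s (R.or z) = true

lemma raw_m1 {z : C} {i : α ⊕ C} (hi : i ∈ R.rd z) : (R.m1 i).1 = t1 i := R.tk_val (val_t1 hi)

lemma raw_ol (z : C) : (R.ol z).1 = Tok.ow z true := R.tk_val (fun h => by simp at h)

lemma raw_or {z : C} (h : R.dbl z) : (R.or z).1 = Tok.ow z false := R.tk_val (fun _ => h)

lemma mem_x {z : C} {x : α} (hx : R.xN z = some x) : (Sum.inl x : α ⊕ C) ∈ R.rd z := by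
  unfold rd lst
  refine List.mem_append_left _ (List.mem_append_left _ ?_)
  rw [hx]
  simp

/-- **the letters of a circle** -/
theorem act_lo {z : C} {pr s : R.T → Bool} (hC : (R.cir z).CC s) (hP : (R.cir z).Pc pr s)
    (hE : EO R z s) : ∀ q ∈ (R.cir z).act pr s, LO R z q.1 q.2.1 := by
  intro q hq
  have hr : ∀ t, (R.cir z).r = some t → R.dbl z ∧ t = R.or z := by
    intro t ht
    rw [cir_r] at ht
    by_cases hd : R.dbl z
    · rw [orr_some hd] at ht
      exact ⟨hd, (Option.some.inj ht).symm⟩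
    · rw [orr_none hd] at ht
      simp at ht
  have hr' : R.dbl z → (R.cir z).r = some (R.or z) := fun hd => by rw [cir_r, orr_some hd]
  rcases Circ.act_org (cir_ws z) hC (cir_nodup z) hP q hq with
    _ | ⟨t, h⟩ | ⟨t, h⟩ | ⟨t, h, h'⟩ | ⟨t, x, m, h⟩ | ⟨t, x, m, h⟩ | ⟨t, m, b, h, h'⟩ |
    ⟨t, m, h⟩ | ⟨p, h⟩ | ⟨p, h⟩ | ⟨p, h⟩
  · show LO R z true (R.cir z).l.1
    rw [cir_l, raw_ol]
    exact LO.l
  · show LO R z true t.1
    obtain ⟨h1, h2⟩ := hr t h
    rw [h2, raw_or h1]
    exact LO.r h1
  · show LO R z (s t) t.1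
    have h1 := pus_uo _ h
    generalize hu : BU.fx t = u at h1
    rcases h1 with _ | h1 | ⟨x, h1⟩ | ⟨q, h1⟩ | ⟨i, h1⟩ | ⟨f, m, x, h1⟩ | ⟨a, b⟩ | ⟨m, h1⟩ |
      ⟨m, i, h1⟩ | ⟨m, i, h1⟩
    · have h2 : t = R.ol z := by simpa using hu
      rw [h2, hE.own, raw_ol]
      exact LO.l
    · simp at hu
    · have h2 : t = R.m1 (Sum.inl x) := by simpa using hu
      rw [h2, hE.x x h1, raw_m1 (mem_x h1)]
      exact LO.x x h1
    · have h2 : t = R.m1 q.2 := by simpa using hu
      rw [h2, hE.p q h1, raw_m1 (mem_p h1 (Or.inr rfl))]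
      exact LO.p q h1
    · simp at hu
    · simp at hu
    · simp at hu
    · simp at hu
    · simp at hu
    · simp at hu
  · show LO R z (s t) t.1
    have h1 := pus_uo _ h
    generalize hu : BU.fr t = u at h1
    rcases h1 with _ | h1 | ⟨x, h1⟩ | ⟨q, h1⟩ | ⟨i, h1⟩ | ⟨f, m, x, h1⟩ | ⟨a, b⟩ | ⟨m, h1⟩ |
      ⟨m, i, h1⟩ | ⟨m, i, h1⟩
    · simp at hu
    · have h2 : t = R.or z := by simpa using hu
      rw [h2] at h'
      exact absurd (hr' h1) h'
    · simp at hu
    · simp at hu
    · have h2 : t = R.m1 i := by simpa using hu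
      rw [h2, raw_m1 (mem_us h1 (by simp [It.fl]))]
      exact LO.fr _ i h1
    · simp at hu
    · simp at hu
    · simp at hu
    · simp at hu
    · simp at hu
  · show LO R z false t.1
    have h1 := pus_uo _ h
    generalize hu : BU.br t x m = u at h1
    rcases h1 with _ | h1 | ⟨x, h1⟩ | ⟨q, h1⟩ | ⟨i, h1⟩ | ⟨f, m, x, h1⟩ | ⟨a, b⟩ | ⟨m, h1⟩ |
      ⟨m, i, h1⟩ | ⟨m, i, h1⟩
    · simp at hu
    · simp at hu
    · simp at hu
    · simp at hu
    · simp at hu
    · have h2 : t = R.m1 f := by
        injection hu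
      rw [h2, raw_m1 (mem_us h1 (by simp [It.fl]))]
      exact LO.brt f m x h1
    · simp at hu
    · simp at hu
    · simp at hu
    · simp at hu
  · show LO R z true x.1
    have h1 := pus_uo _ h
    generalize hu : BU.br t x m = u at h1
    rcases h1 with _ | h1 | ⟨x', h1⟩ | ⟨q, h1⟩ | ⟨i, h1⟩ | ⟨f, m, x', h1⟩ | ⟨a, b⟩ | ⟨m, h1⟩ |
      ⟨m, i, h1⟩ | ⟨m, i, h1⟩
    · simp at hu
    · simp at hu
    · simp at hu
    · simp at hu
    · simp at hu
    · have h2 : x = R.m1 x' := by
        injection hu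
      rw [h2, raw_m1 (mem_us h1 (by simp [It.fl]))]
      exact LO.brx f m x' h1
    · simp at hu
    · simp at hu
    · simp at hu
    · simp at hu
  · show LO R z b t.1
    have h1 := pus_uo _ h
    generalize hu : BU.gu m t = u at h1
    rcases h1 with _ | h1 | ⟨x, h1⟩ | ⟨q, h1⟩ | ⟨i, h1⟩ | ⟨f, m, x, h1⟩ | ⟨a, b⟩ | ⟨m, h1⟩ |
      ⟨m, i, h1⟩ | ⟨m, i, h1⟩
    · simp at hu
    · simp at hu
    · simp at hu
    · simp at hu
    · simp at hu
    · simp at hu
    · simp at hu
    · have h2 : t = R.or z := by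
        injection hu
      rw [h2] at h'
      exact absurd (hr' h1) h'
    · have h2 : t = R.m1 i := by
        injection hu
      rw [h2, raw_m1 (mem_us h1 (by simp [It.fl]))]
      exact LO.fr _ i h1
    · simp at hu
  · show LO R z false t.1
    have h1 := pus_uo _ h
    generalize hu : BU.gv t m = u at h1
    rcases h1 with _ | h1 | ⟨x, h1⟩ | ⟨q, h1⟩ | ⟨i, h1⟩ | ⟨f, m, x, h1⟩ | ⟨a, b⟩ | ⟨m, h1⟩ |
      ⟨m, i, h1⟩ | ⟨m, i, h1⟩
    · simp at hu
    · simp at hu
    · simp at hu
    · simp at hu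
    · simp at hu
    · simp at hu
    · simp at hu
    · simp at hu
    · simp at hu
    · have h2 : t = R.m1 i := by
        injection hu
      rw [h2, raw_m1 (mem_us h1 (by simp [It.fl]))]
      exact LO.fr _ i h1
  · show LO R z true p.1.1
    obtain ⟨c, h1, h2, h3, rfl⟩ := cir_evs h
    have h4 : (R.pr (Sum.inr c : α ⊕ C)).1.1 = Tok.up c true :=
      R.tk_val ⟨⟨h1, R.ex_ne h3⟩, fun h => by simp at h⟩
    rw [h4]
    exact LO.ev1 c
  · show LO R z false p.2.1
    obtain ⟨c, h1, h2, h3, rfl⟩ := cir_evs h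
    have h4 : (R.pr (Sum.inr c : α ⊕ C)).2.1 = Tok.up c false :=
      R.tk_val ⟨⟨h1, R.ex_ne h3⟩, fun _ => h3⟩
    rw [h4]
    exact LO.ev2 c
  · show LO R z false p.1.1
    rcases hc : R.cir z with _ | A | _
    · rw [hc] at h; simp [Circ.reals] at h
    · rw [hc] at h
      obtain ⟨g, hg, hp⟩ := List.mem_flatMap.1 (show p ∈ A.gs.flatMap fun g =>
        g.1.flatMap Itm.rep from h)
      obtain ⟨c, h1, h2, h3, h5, rfl⟩ := cir_re hc hg hp
      have h4 : (R.pr (Sum.inr c : α ⊕ C)).1.1 = Tok.up c true :=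
        R.tk_val ⟨⟨h1, R.ex_ne h3⟩, fun h => by simp at h⟩
      rw [h4]
      refine LO.nn c h5 ?_
      rcases R.cir_cases z with ⟨x, q, hx, hq, h⟩ | ⟨h0, h⟩ | ⟨gs, g, h0, h1, h2, h⟩
      · rw [hx]; simp
      · rw [hc] at h; simp at h
      · rw [hc] at h; simp at h
    · rw [hc] at h; simp [Circ.reals] at h

/-! ### The letter of a token -/

lemma lo_ow {z c : C} {b k : Bool} (h : LO R z b (Tok.ow c k)) : b = true := by
  generalize ht : (Tok.ow c k : Tok C α) = t at h
  rcases h with _ | h1 | ⟨x, h1⟩ | ⟨q, h1⟩ | ⟨b, i, h1⟩ | ⟨f, m, x, h1⟩ | ⟨f, m, x, h1⟩ | ⟨c'⟩ |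
    ⟨c'⟩ | ⟨c', h1, h1x⟩
  · rfl
  · rfl
  · rfl
  · rfl
  · cases i <;> simp [t1] at ht
  · cases f <;> simp [t1] at ht
  · rfl
  · rfl
  · simp at ht
  · simp at ht

lemma lo_up2 {z c : C} {b : Bool} (h : LO R z b (Tok.up c false)) : b = false := by
  generalize ht : (Tok.up c false : Tok C α) = t at h
  rcases h with _ | h1 | ⟨x, h1⟩ | ⟨q, h1⟩ | ⟨b, i, h1⟩ | ⟨f, m, x, h1⟩ | ⟨f, m, x, h1⟩ | ⟨c'⟩ |
    ⟨c'⟩ | ⟨c', h1, h1x⟩
  · simp at ht
  · simp at ht
  · simp at ht
  · rcases q with ⟨q1, q2⟩
    cases q2 <;> simp [t1] at ht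
  · cases i <;> simp [t1] at ht
  · rfl
  · cases x <;> simp [t1] at ht
  · simp at ht
  · rfl
  · rfl

lemma lo_up1 {z c : C} {b : Bool} (h : LO R z b (Tok.up c true)) (hd : R.dbl c) :
    b = true ∨ R.real c := by
  have key : ∀ i : α ⊕ C, (Tok.up c true : Tok C α) = t1 i → i = Sum.inr c := by
    intro i hi
    cases i with
    | inl p => simp [t1] at hi
    | inr c' => have : c = c' := by simpa [t1] using hi
                rw [this]
  generalize ht : (Tok.up c true : Tok C α) = t at h
  rcases h with _ | h1 | ⟨x, h1⟩ | ⟨q, h1⟩ | ⟨b, i, h1⟩ | ⟨f, m, x, h1⟩ | ⟨f, m, x, h1⟩ | ⟨c'⟩ |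
    ⟨c'⟩ | ⟨c', h1, h1x⟩
  · simp at ht
  · simp at ht
  · simp at ht
  · exact Or.inl rfl
  · have h2 : Od' R.dbl i := (usg z _ h1).1
    rw [key i ht] at h2
    exact absurd hd h2
  · have h2 : Od' R.dbl f := (usg z _ h1).1
    rw [key f ht] at h2
    exact absurd hd h2
  · exact Or.inl rfl
  · exact Or.inl rfl
  · simp at ht
  · have : c = c' := by simpa using ht
    rw [this]
    exact Or.inr h1

lemma lo_port {z : C} {q : α} {b : Bool} (h : LO R z b (Tok.pt q))
    (hq : R.Po (Sum.inl q)) : b = true := by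
  have key : ∀ i : α ⊕ C, (Tok.pt q : Tok C α) = t1 i → i = Sum.inl q := by
    intro i hi
    cases i with
    | inl p => have : q = p := by simpa [t1] using hi
               rw [this]
    | inr c' => simp [t1] at hi
  generalize ht : (Tok.pt q : Tok C α) = t at h
  rcases h with _ | h1 | ⟨x, h1⟩ | ⟨q, h1⟩ | ⟨b, i, h1⟩ | ⟨f, m, x, h1⟩ | ⟨f, m, x, h1⟩ | ⟨c'⟩ |
    ⟨c'⟩ | ⟨c', h1, h1x⟩
  · rfl
  · rfl
  · rfl
  · rfl
  · have h2 : ¬ R.Po i := (usg z _ h1).2
    rw [key i ht] at h2
    exact absurd hq h2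
  · have h2 : ¬ R.Po f := (usg z _ h1).2.1
    rw [key f ht] at h2
    exact absurd hq h2
  · rfl
  · rfl
  · simp at ht
  · simp at ht

lemma lo_x {z : C} {q : α} {b : Bool} (h : LO R z b (Tok.pt q))
    (hq : R.xN z = some q) : b = true := by
  have key : ∀ i : α ⊕ C, (Tok.pt q : Tok C α) = t1 i → i = Sum.inl q := by
    intro i hi
    cases i with
    | inl p => have : q = p := by simpa [t1] using hi
               rw [this]
    | inr c' => simp [t1] at hi
  have hnd : ∀ u ∈ R.us z, Sum.inl q ∉ u.fl := by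
    intro u hu hm
    have h1 := R.nodup z
    unfold lst at h1
    refine (List.nodup_append.1 h1).2.2 (Sum.inl q) (List.mem_append_left _ (by rw [hq]; simp))
      (Sum.inl q) (List.mem_flatMap.2 ⟨u, hu, hm⟩) rfl
  generalize ht : (Tok.pt q : Tok C α) = t at h
  rcases h with _ | h1 | ⟨x, h1⟩ | ⟨q, h1⟩ | ⟨b, i, h1⟩ | ⟨f, m, x, h1⟩ | ⟨f, m, x, h1⟩ | ⟨c'⟩ |
    ⟨c'⟩ | ⟨c', h1, h1x⟩
  · rfl
  · rfl
  · rfl
  · rfl
  · exact absurd (by rw [key i ht]; simp [It.fl]) (hnd _ h1)
  · exact absurd (by rw [key f ht]; simp [It.fl]) (hnd _ h1)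
  · rfl
  · rfl
  · simp at ht
  · simp at ht

/-! ### The words -/

open Classical in
/-- the letter of a token in a word -/
noncomputable def ltr {T : Type*} (w : List (Bool × T)) (t : T) : Bool := decide ((true, t) ∈ w)

lemma ltr_iff {T : Type*} {w : List (Bool × T)} {t : T} : ltr w t = true ↔ (true, t) ∈ w := by
  unfold ltr
  simp

/-- a word is determined by its tokens and the letters -/
lemma word_eq {T : Type*} {w : List (Bool × T)} (hn : (w.map Prod.snd).Nodup) :
    w = (w.map Prod.snd).map fun t => (ltr w t, t) := by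
  rw [List.map_map]
  symm
  calc w.map ((fun t => (ltr w t, t)) ∘ Prod.snd) = w.map id := by
        refine List.map_congr_left ?_
        rintro ⟨b, t⟩ hq
        show (ltr w t, t) = (b, t)
        cases b with
        | true => rw [ltr_iff.2 hq]
        | false =>
          have h1 : ltr w t = false := by
            rw [← Bool.not_eq_true, ltr_iff]
            intro h2
            have h3 := List.inj_on_of_nodup_map hn h2 hq rfl
            simp at h3
          rw [h1]
    _ = w := List.map_id w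

/-- the letter of a token -/
noncomputable def le (R : RD C α) (s pr : R.T → Bool) (t : Tok C α) : Bool :=
  ltr ((R.cir (R.ndr t)).act pr s) (R.tk t)

/-- a solution in terms of the circles; `D` = the circles with dropped own link -/
structure Sl (R : RD C α) (s pr : R.T → Bool) (D : C → Prop) : Prop where
  cc : ∀ z, (R.cir z).CC s
  pc : ∀ z, (R.cir z).Pc pr s
  eo : ∀ z, EO R z s
  tok : ∀ z, ((R.cir z).act pr s).map Prod.snd = (R.cir z).tks.filter pr
  ph : ∀ z, PH 4 4 2 ((R.cir z).act pr s)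
  dbl : ∀ c, D c → R.dbl c
  sr : ∀ c, D c → s (R.or c) = false
  pr : ∀ t, pr t = false ↔ ∃ c, D c ∧ ((t = R.lam (R.ol c) ∨ t = R.lam (R.or c)) ∨
    ((R.cir c).isGp = false ∧ (t = R.ol c ∨ t = R.or c)))

namespace Sl

variable {s pr : R.T → Bool} {D : C → Prop} (h : Sl R s pr D)

include h

/-- the actual word -/
lemma act_eq (z : C) : (R.cir z).act pr s =
    ((R.rtk z).filter fun t => pr (R.tk t)).map fun t => (R.le s pr t, R.tk t) := by
  have h1 : (((R.cir z).act pr s).map Prod.snd).Nodup := by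
    rw [h.tok]
    exact (cir_nodup z).filter _
  have h2 := word_eq h1
  rw [h.tok, cir_tks, List.filter_map, List.map_map] at h2
  rw [h2]
  refine List.map_congr_left ?_
  intro t ht
  have h3 := (mem_rtk.1 (List.mem_filter.1 ht).1).2
  simp only [Function.comp, le]
  subst h3
  rfl

/-- the letter of a present token -/
lemma lo {t : Tok C α} (hv : R.Val t) (hp : pr (R.tk t) = true) :
    LO R (R.ndr t) (R.le s pr t) t := by
  have h1 : (R.le s pr t, R.tk t) ∈ (R.cir (R.ndr t)).act pr s := by
    rw [h.act_eq]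
    exact List.mem_map.2 ⟨t, List.mem_filter.2 ⟨mem_rtk.2 ⟨hv, rfl⟩, hp⟩, rfl⟩
  have h2 := act_lo (h.cc _) (h.pc _) (h.eo _) _ h1
  rwa [R.tk_val hv] at h2

lemma D_r (hx : R.xN R.r = none) (hp : R.p R.r = none) : ¬ D R.r := by
  intro hD
  have h1 := h.sr _ hD
  rw [(h.eo R.r).r (h.dbl _ hD) hp hx] at h1
  simp at h1

/-- the letters are present -/
lemma pr_pt (hr : ¬ D R.r) {q : α} (hq : q ∈ R.L) : pr (R.tk (Tok.pt q)) = true := by
  by_contra h1
  rw [Bool.not_eq_true] at h1
  obtain ⟨c, hc, h2⟩ := (h.pr _).1 h1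
  have hd := h.dbl c hc
  have hne : c ≠ R.r := fun h => hr (h ▸ hc)
  have hval : R.Val (Tok.pt q : Tok C α) := hq
  rcases h2 with (h2 | h2) | ⟨-, h2 | h2⟩
  · have h3 := congrArg Subtype.val h2
    rw [R.tk_val hval] at h3
    have h4 : (R.lam (R.ol c)).1 = R.lamr (R.ol c).1 := rfl
    rw [h4, raw_ol, R.lamr_ow, if_neg hne, if_pos hd] at h3
    simp at h3
  · have h3 := congrArg Subtype.val h2
    rw [R.tk_val hval] at h3
    have h4 : (R.lam (R.or c)).1 = R.lamr (R.or c).1 := rfl
    rw [h4, raw_or hd, R.lamr_ow, if_neg hne, if_pos hd] at h3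
    simp at h3
  · have h3 := congrArg Subtype.val h2
    rw [R.tk_val hval, raw_ol] at h3
    simp at h3
  · have h3 := congrArg Subtype.val h2
    rw [R.tk_val hval, raw_or hd] at h3
    simp at h3

/-- the tokens at the parent -/
lemma pr_up (hr : ¬ D R.r) {c : C} {k : Bool} (hv : R.Val (Tok.up c k)) :
    pr (R.tk (Tok.up c k)) = false ↔ D c := by
  constructor
  · intro h1
    obtain ⟨c', hc, h2⟩ := (h.pr _).1 h1
    have hd := h.dbl c' hc
    have hne : c' ≠ R.r := fun h => hr (h ▸ hc)
    rcases h2 with (h2 | h2) | ⟨-, h2 | h2⟩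
    · have h3 := congrArg Subtype.val h2
      rw [R.tk_val hv] at h3
      have h4 : (R.lam (R.ol c')).1 = R.lamr (R.ol c').1 := rfl
      rw [h4, raw_ol, R.lamr_ow, if_neg hne, if_pos hd] at h3
      have h5 : c = c' := by
        injection h3
      rw [h5]; exact hc
    · have h3 := congrArg Subtype.val h2
      rw [R.tk_val hv] at h3
      have h4 : (R.lam (R.or c')).1 = R.lamr (R.or c').1 := rfl
      rw [h4, raw_or hd, R.lamr_ow, if_neg hne, if_pos hd] at h3
      have h5 : c = c' := by
        injection h3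
      rw [h5]; exact hc
    · have h3 := congrArg Subtype.val h2
      rw [R.tk_val hv, raw_ol] at h3
      simp at h3
    · have h3 := congrArg Subtype.val h2
      rw [R.tk_val hv, raw_or hd] at h3
      simp at h3
  · intro hc
    refine (h.pr _).2 ⟨c, hc, Or.inl ?_⟩
    have hd := h.dbl c hc
    have e1 : (R.lam (R.ol c)).1 = Tok.up c (true == R.tw c) := by
      have h4 : (R.lam (R.ol c)).1 = R.lamr (R.ol c).1 := rfl
      rw [h4, raw_ol, R.lamr_ow, if_neg hv.1.1, if_pos hd]
    have e2 : (R.lam (R.or c)).1 = Tok.up c (false == R.tw c) := by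
      have h4 : (R.lam (R.or c)).1 = R.lamr (R.or c).1 := rfl
      rw [h4, raw_or hd, R.lamr_ow, if_neg hv.1.1, if_pos hd]
    have hk : k = (true == R.tw c) ∨ k = (false == R.tw c) := by
      cases k <;> cases R.tw c <;> simp
    rcases hk with hk | hk
    · left
      apply Subtype.ext
      rw [R.tk_val hv, e1, hk]
    · right
      apply Subtype.ext
      rw [R.tk_val hv, e2, hk]

/-- the own tokens -/
lemma pr_ow (hr : ¬ D R.r) {c : C} {k : Bool} (hv : R.Val (Tok.ow c k)) :
    pr (R.tk (Tok.ow c k)) = false ↔ D c ∧ (R.cir c).isGp = false := by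
  constructor
  · intro h1
    obtain ⟨c', hc, h2⟩ := (h.pr _).1 h1
    have hd := h.dbl c' hc
    have hne : c' ≠ R.r := fun h => hr (h ▸ hc)
    rcases h2 with (h2 | h2) | ⟨hg, h2 | h2⟩
    · have h3 := congrArg Subtype.val h2
      rw [R.tk_val hv] at h3
      have h4 : (R.lam (R.ol c')).1 = R.lamr (R.ol c').1 := rfl
      rw [h4, raw_ol, R.lamr_ow, if_neg hne, if_pos hd] at h3
      simp at h3
    · have h3 := congrArg Subtype.val h2
      rw [R.tk_val hv] at h3
      have h4 : (R.lam (R.or c')).1 = R.lamr (R.or c').1 := rfl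
      rw [h4, raw_or hd, R.lamr_ow, if_neg hne, if_pos hd] at h3
      simp at h3
    · have h3 := congrArg Subtype.val h2
      rw [R.tk_val hv, raw_ol] at h3
      have h5 : c = c' := by
        injection h3
      rw [h5]; exact ⟨hc, hg⟩
    · have h3 := congrArg Subtype.val h2
      rw [R.tk_val hv, raw_or hd] at h3
      have h5 : c = c' := by
        injection h3
      rw [h5]; exact ⟨hc, hg⟩
  · rintro ⟨hc, hg⟩
    refine (h.pr _).2 ⟨c, hc, Or.inr ⟨hg, ?_⟩⟩
    cases k with
    | true => exact Or.inl rfl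
    | false => exact Or.inr rfl

end Sl

/-- a group link with a port can be dropped without its own tokens -/
lemma cir_gp {z : C} (h : R.Gp z) : (R.cir z).isGp = true := by
  have hg : R.gs z ≠ [] := by
    intro hg
    have h1 := (R.par_rd z).2 h.2.1
    obtain ⟨q, hq⟩ := Option.ne_none_iff_exists'.1 h.2.2.2
    rw [h.2.2.1, hq, fri_us, hg] at h1
    simp at h1
  obtain ⟨g, hg'⟩ : ∃ g, (R.gs z).getLast? = some g := by
    rcases hl : (R.gs z).getLast? with _ | g
    · exact absurd (List.getLast?_eq_none_iff.1 hl) hg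
    · exact ⟨g, rfl⟩
  have h1 : R.cir z = Circ.gp (R.ol z) (R.gpU z g) (R.m1 g.2) ((R.tl z).map R.ui) (R.or z) := by
    unfold cir
    rw [h.2.2.1]
    simp only [if_pos h, hg']
  rw [h1]
  rfl

/-! ### Links -/

open Classical in
/-- the states of the links -/
noncomputable def lk (R : RD C α) (s pr : R.T → Bool) (D : C → Prop) (c : C) : LS :=
  if c = R.r then LS.even else if D c then LS.drop else
    if R.dbl c then (if R.le s pr (Tok.up c true) then LS.even else LS.nn)
    else (if R.le s pr (Tok.up c true) then LS.far else LS.near)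

/-- the lane of a token at the parent -/
def lane : LS → Bool → ℕ
  | LS.far, _ => 1
  | LS.near, _ => 0
  | LS.even, k => if k then 1 else 0
  | LS.nn, k => if k then 0 else 2
  | LS.drop, k => if k then 1 else 0

open Classical in
/-- the letter or lane of a token -/
noncomputable def phi (R : RD C α) (s pr : R.T → Bool) (D : C → Prop) : Tok C α → α ⊕ (C × ℕ)
  | Tok.pt p => Sum.inl p
  | Tok.up c k => Sum.inr (c, lane (R.lk s pr D c) k)
  | Tok.ow c k => Sum.inr (c, lane (R.lk s pr D c)
      (if c = R.r then !k else if R.dbl c then k == R.tw c else true))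

open Classical in
lemma lk_def (R : RD C α) (s pr : R.T → Bool) (D : C → Prop) (c : C) : R.lk s pr D c =
  if c = R.r then LS.even else if D c then LS.drop else
    if R.dbl c then (if R.le s pr (Tok.up c true) then LS.even else LS.nn)
    else (if R.le s pr (Tok.up c true) then LS.far else LS.near) := rfl

open Classical in
lemma phi_ow (R : RD C α) (s pr : R.T → Bool) (D : C → Prop) (c : C) (k : Bool) :
    R.phi s pr D (Tok.ow c k) = Sum.inr (c, lane (R.lk s pr D c)
      (if c = R.r then !k else if R.dbl c then k == R.tw c else true)) := rfl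

lemma phi_up' (R : RD C α) (s pr : R.T → Bool) (D : C → Prop) (c : C) (k : Bool) :
    R.phi s pr D (Tok.up c k) = Sum.inr (c, lane (R.lk s pr D c) k) := rfl

/-- both ends of a lane -/
lemma phi_up {s pr : R.T → Bool} {D : C → Prop} {c : C} {k : Bool} (hv : R.Val (Tok.up c k)) :
    R.phi s pr D (R.lamr (Tok.up c k)) = R.phi s pr D (Tok.up c k) := by
  rw [lamr_up, phi_up']
  by_cases hd : R.dbl c
  · rw [if_pos hd, phi_ow, if_neg hv.1.1, if_pos hd]
    congr 3
    cases k <;> cases R.tw c <;> rfl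
  · rw [if_neg hd, phi_ow, if_neg hv.1.1, if_neg hd]
    cases k with
    | true => rfl
    | false => exact absurd (hv.2 rfl) hd

lemma phi_lam_ow {s pr : R.T → Bool} {D : C → Prop} {c : C} {k : Bool} (hv : R.Val (Tok.ow c k))
    (hc : c ≠ R.r) (hx : R.ex ≠ some (Sum.inr c)) :
    R.phi s pr D (R.lamr (Tok.ow c k)) = R.phi s pr D (Tok.ow c k) := by
  obtain ⟨k', hk'⟩ : ∃ k', R.lamr (Tok.ow c k : Tok C α) = Tok.up c k' := by
    rw [lamr_ow, if_neg hc]
    split_ifs
    · exact ⟨_, rfl⟩
    · exact ⟨_, rfl⟩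
  have hv' : R.Val (Tok.up c k') := by
    rw [← hk']; exact R.lamr_val hv
  have h1 := phi_up (s := s) (pr := pr) (D := D) hv'
  rw [← hk', R.lamr_lamr hv] at h1
  exact h1.symm

namespace Sl

variable {s pr : R.T → Bool} {D : C → Prop} (h : Sl R s pr D)

include h

/-- near and near only over real ribbons -/
theorem nn_real (hr : ¬ D R.r) {c : C} (hc : R.lk s pr D c = LS.nn) :
    c ≠ R.r ∧ R.real c ∧ R.dbl c := by
  rw [lk_def] at hc
  split_ifs at hc with h1 h2 h3 h4
  have hv : R.Val (Tok.up c true) := ⟨⟨h1, R.ex_ne h3⟩, fun h => by simp at h⟩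
  have hp : pr (R.tk (Tok.up c true)) = true := by
    by_contra h5
    rw [Bool.not_eq_true] at h5
    exact h2 ((h.pr_up hr hv).1 h5)
  have h6 := h.lo hv hp
  rcases lo_up1 h6 h3 with h7 | h7
  · exact absurd h7 h4
  · exact ⟨h1, h7, h3⟩

/-- the ports are pops -/
theorem port (hr : ¬ D R.r) {q : α} (hq : q ∈ R.L) (hp : R.Po (Sum.inl q)) :
    R.le s pr (Tok.pt q) = true := lo_port (h.lo hq (h.pr_pt hr hq)) hp

theorem portx (hr : ¬ D R.r) {z : C} {q : α} (hx : R.xN z = some q) :
    R.le s pr (Tok.pt q) = true := by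
  have h1 := mem_rdz.1 (mem_x hx)
  have hq : q ∈ R.L := h1.1 q rfl
  have h2 : R.ndr (Tok.pt q) = z := h1.2.1
  have hv : R.Val (Tok.pt q : Tok C α) := hq
  have h3 := h.lo hv (h.pr_pt hr hq)
  rw [h2] at h3
  exact lo_x h3 hx

lemma pr_up_true (hr : ¬ D R.r) {c : C} {k : Bool} (hv : R.Val (Tok.up c k)) (hD : ¬ D c) :
    pr (R.tk (Tok.up c k)) = true := by
  by_contra h5
  rw [Bool.not_eq_true] at h5
  exact hD ((h.pr_up hr hv).1 h5)

/-- the letters of an item -/
lemma item (hr : ¬ D R.r) {z : C} {i : α ⊕ C} (hi : i ∈ R.rd z) :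
    ((R.itk i).filter fun t => pr (R.tk t)).map (fun t => (R.le s pr t, R.phi s pr D t)) =
      il (R.lk s pr D) (fun p => R.le s pr (Tok.pt p)) i := by
  have h1 := mem_rdz.1 hi
  cases i with
  | inl p =>
    have h2 : R.itk (Sum.inl p) = [Tok.pt p] := rfl
    have h3 := h.pr_pt hr (h1.1 p rfl)
    rw [h2, List.filter_cons_of_pos (by simpa using h3)]
    rfl
  | inr c =>
    have hc : c ≠ R.r := (mem_rdc hi).2.1
    have hv1 : R.Val (Tok.up c true) := ⟨(mem_rdc hi).2, fun h => by simp at h⟩
    rw [itk_inr]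
    by_cases hD : D c
    · have hd := h.dbl c hD
      have hlk : R.lk s pr D c = LS.drop := by rw [lk_def, if_neg hc, if_pos hD]
      have hv2 : R.Val (Tok.up c false) := ⟨(mem_rdc hi).2, fun _ => hd⟩
      rw [if_pos hd, List.filter_cons_of_neg (by simpa using (h.pr_up hr hv1).2 hD),
        List.filter_cons_of_neg (by simpa using (h.pr_up hr hv2).2 hD)]
      unfold il
      simp [hlk]
    · have hp1 := h.pr_up_true hr hv1 hD
      by_cases hd : R.dbl c
      · have hv2 : R.Val (Tok.up c false) := ⟨(mem_rdc hi).2, fun _ => hd⟩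
        have hp2 := h.pr_up_true hr hv2 hD
        have hl2 : R.le s pr (Tok.up c false) = false := lo_up2 (h.lo hv2 hp2)
        rw [if_pos hd, List.filter_cons_of_pos (by simpa using hp1),
          List.filter_cons_of_pos (by simpa using hp2)]
        cases hb : R.le s pr (Tok.up c true) with
        | true =>
          have hlk : R.lk s pr D c = LS.even := by
            rw [lk_def, if_neg hc, if_neg hD, if_pos hd, if_pos hb]
          simp [il, hlk, hb, hl2, phi_up', lane]
        | false =>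
          have hlk : R.lk s pr D c = LS.nn := by
            rw [lk_def, if_neg hc, if_neg hD, if_pos hd, if_neg (by simp [hb])]
          simp [il, hlk, hb, hl2, phi_up', lane]
      · rw [if_neg hd, List.filter_cons_of_pos (by simpa using hp1)]
        cases hb : R.le s pr (Tok.up c true) with
        | true =>
          have hlk : R.lk s pr D c = LS.far := by
            rw [lk_def, if_neg hc, if_neg hD, if_neg hd, if_pos hb]
          simp [il, hlk, hb, phi_up', lane]
        | false =>
          have hlk : R.lk s pr D c = LS.near := by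
            rw [lk_def, if_neg hc, if_neg hD, if_neg hd, if_neg (by simp [hb])]
          simp [il, hlk, hb, phi_up', lane]

lemma pr_ow_true (hr : ¬ D R.r) {c : C} {k : Bool} (hv : R.Val (Tok.ow c k))
    (hD : ¬ (D c ∧ (R.cir c).isGp = false)) : pr (R.tk (Tok.ow c k)) = true := by
  by_contra h5
  rw [Bool.not_eq_true] at h5
  exact hD ((h.pr_ow hr hv).1 h5)

/-- the own tokens -/
lemma own (hr : ¬ D R.r) (hdr : R.dbl R.r) (hgx : ∀ z, R.grp z → R.xN z = none)
    (hrt : ∀ z, z ≠ R.r → R.real z → R.tw z = false) {sw : C → Prop}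
    (hsw : ∀ z, sw z ↔ z ≠ R.r ∧ R.tw z = true) (z : C) :
    ((open Classical in (if R.dbl z then [Tok.ow z false] else [] : List (Tok C α))).filter
      fun t => pr (R.tk t)).map (fun t => (R.le s pr t, R.phi s pr D t)) ++
    (([Tok.ow z true] : List (Tok C α)).filter
      fun t => pr (R.tk t)).map (fun t => (R.le s pr t, R.phi s pr D t)) =
    GZ.ol R.grp sw (R.lk s pr D) z := by
  classical
  have hv1 : R.Val (Tok.ow z true : Tok C α) := fun h => by simp at h
  have key : ∀ k, R.Val (Tok.ow z k : Tok C α) → pr (R.tk (Tok.ow z k)) = true →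
      R.le s pr (Tok.ow z k) = true := fun k hv hp => lo_ow (h.lo hv hp)
  by_cases hzr : z = R.r
  · subst hzr
    have hv2 : R.Val (Tok.ow R.r false : Tok C α) := fun _ => hdr
    have hp1 := h.pr_ow_true hr hv1 (fun h => hr h.1)
    have hp2 := h.pr_ow_true hr hv2 (fun h => hr h.1)
    have hlk : R.lk s pr D R.r = LS.even := by rw [lk_def, if_pos rfl]
    have hns : ¬ sw R.r := fun h => ((hsw _).1 h).1 rfl
    rw [if_pos hdr, List.filter_cons_of_pos (by simpa using hp2),
      List.filter_cons_of_pos (by simpa using hp1)]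
    simp [GZ.ol, hlk, hns, key true hv1 hp1, key false hv2 hp2, phi_ow, lane]
  · by_cases hD : D z
    · have hd := h.dbl z hD
      have hlk : R.lk s pr D z = LS.drop := by rw [lk_def, if_neg hzr, if_pos hD]
      have hv2 : R.Val (Tok.ow z false : Tok C α) := fun _ => hd
      by_cases hg : R.grp z
      · have hpz : R.p z ≠ none := by
          intro hp
          have h1 := h.sr z hD
          rw [(h.eo z).r hd hp (hgx z hg)] at h1
          simp at h1
        have hgp := cir_gp (R := R) (z := z) ⟨hg, hd, hgx z hg, hpz⟩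
        have hp1 := h.pr_ow_true hr hv1 (fun h => by rw [hgp] at h; simp at h)
        have hp2 := h.pr_ow_true hr hv2 (fun h => by rw [hgp] at h; simp at h)
        rw [if_pos hd, List.filter_cons_of_pos (by simpa using hp2),
          List.filter_cons_of_pos (by simpa using hp1)]
        cases ht : R.tw z with
        | true =>
          have hs' : sw z := (hsw z).2 ⟨hzr, ht⟩
          simp [GZ.ol, hlk, hg, hs', key true hv1 hp1, key false hv2 hp2, phi_ow, lane, hzr, hd, ht]
        | false =>
          have hs' : ¬ sw z := fun h => by rw [((hsw z).1 h).2] at ht; simp at ht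
          simp [GZ.ol, hlk, hg, hs', key true hv1 hp1, key false hv2 hp2, phi_ow, lane, hzr, hd, ht]
      · have hgp : (R.cir z).isGp = false := by
          rcases R.cir_cases z with ⟨x, q, hx, hq, h⟩ | ⟨h0, h⟩ | ⟨gs, g, h0, h1, h2, h⟩
          · rw [h]; rfl
          · rw [h]; rfl
          · exact absurd h0.1 hg
        rw [if_pos hd, List.filter_cons_of_neg (by simpa using (h.pr_ow hr hv2).2 ⟨hD, hgp⟩),
          List.filter_cons_of_neg (by simpa using (h.pr_ow hr hv1).2 ⟨hD, hgp⟩)]
        simp [GZ.ol, hlk, hg]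
    · have hp1 := h.pr_ow_true hr hv1 (fun h => hD h.1)
      by_cases hd : R.dbl z
      · have hv2 : R.Val (Tok.ow z false : Tok C α) := fun _ => hd
        have hp2 := h.pr_ow_true hr hv2 (fun h => hD h.1)
        rw [if_pos hd, List.filter_cons_of_pos (by simpa using hp2),
          List.filter_cons_of_pos (by simpa using hp1)]
        cases hb : R.le s pr (Tok.up z true) with
        | true =>
          have hlk : R.lk s pr D z = LS.even := by
            rw [lk_def, if_neg hzr, if_neg hD, if_pos hd, if_pos hb]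
          cases ht : R.tw z with
          | true =>
            have hs' : sw z := (hsw z).2 ⟨hzr, ht⟩
            simp [GZ.ol, hlk, hs', key true hv1 hp1, key false hv2 hp2, phi_ow, lane, hzr, hd, ht]
          | false =>
            have hs' : ¬ sw z := fun h => by rw [((hsw z).1 h).2] at ht; simp at ht
            simp [GZ.ol, hlk, hs', key true hv1 hp1, key false hv2 hp2, phi_ow, lane, hzr, hd, ht]
        | false =>
          have hlk : R.lk s pr D z = LS.nn := by
            rw [lk_def, if_neg hzr, if_neg hD, if_pos hd, if_neg (by simp [hb])]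
          have ht := hrt z hzr (h.nn_real hr hlk).2.1
          simp [GZ.ol, hlk, key true hv1 hp1, key false hv2 hp2, phi_ow, lane, hzr, hd, ht]
      · rw [if_neg hd, List.filter_cons_of_pos (by simpa using hp1)]
        cases hb : R.le s pr (Tok.up z true) with
        | true =>
          have hlk : R.lk s pr D z = LS.far := by
            rw [lk_def, if_neg hzr, if_neg hD, if_neg hd, if_pos hb]
          simp [GZ.ol, hlk, key true hv1 hp1, phi_ow, lane, hzr, hd]
        | false =>
          have hlk : R.lk s pr D z = LS.near := by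
            rw [lk_def, if_neg hzr, if_neg hD, if_neg hd, if_neg (by simp [hb])]
          simp [GZ.ol, hlk, key true hv1 hp1, phi_ow, lane, hzr, hd]

/-- **the word of a circle** -/
theorem act_wd (hr : ¬ D R.r) (hdr : R.dbl R.r) (hgx : ∀ z, R.grp z → R.xN z = none)
    (hrt : ∀ z, z ≠ R.r → R.real z → R.tw z = false) {sw : C → Prop}
    (hsw : ∀ z, sw z ↔ z ≠ R.r ∧ R.tw z = true) (z : C) :
    ∃ u v, ((R.cir z).act pr s).map (fun q => (q.1, R.phi s pr D q.2.1)) = u ++ v ∧
      wd R.grp sw (R.lk s pr D) (fun p => R.le s pr (Tok.pt p)) R.rd z = v ++ u ∧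
      v.length ≤ 1 := by
  classical
  have h1 := h.act_eq z
  have h2 : ((R.cir z).act pr s).map (fun q => (q.1, R.phi s pr D q.2.1)) =
      ((R.rtk z).filter fun t => pr (R.tk t)).map
        (fun t => (R.le s pr t, R.phi s pr D t)) := by
    rw [h1, List.map_map]
    refine List.map_congr_left ?_
    intro t ht
    have hv := (mem_rtk.1 (List.mem_filter.1 ht).1).1
    show (R.le s pr t, R.phi s pr D (R.tk t).1) = _
    rw [R.tk_val hv]
  have h3 : R.rtk z = [Tok.ow z true] ++ ((R.rd z).flatMap R.itk ++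
    (if R.dbl z then [Tok.ow z false] else [])) := rfl
  have h4 : (((R.rd z).flatMap R.itk).filter fun t => pr (R.tk t)).map
      (fun t => (R.le s pr t, R.phi s pr D t)) =
      (R.rd z).flatMap (il (R.lk s pr D) fun p => R.le s pr (Tok.pt p)) := by
    rw [List.filter_flatMap, List.map_flatMap]
    refine List.flatMap_congr ?_
    intro i hi
    exact h.item hr hi
  refine ⟨(([Tok.ow z true] : List (Tok C α)).filter fun t => pr (R.tk t)).map
      (fun t => (R.le s pr t, R.phi s pr D t)) ++
      (R.rd z).flatMap (il (R.lk s pr D) fun p => R.le s pr (Tok.pt p)),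
    ((if R.dbl z then [Tok.ow z false] else [] : List (Tok C α)).filter
      fun t => pr (R.tk t)).map (fun t => (R.le s pr t, R.phi s pr D t)), ?_, ?_, ?_⟩
  · rw [h2, h3, List.filter_append, List.filter_append, List.map_append, List.map_append, h4,
      List.append_assoc]
  · unfold wd
    rw [← h.own hr hdr hgx hrt hsw z, List.append_assoc]
  · rw [List.length_map]
    refine (List.length_filter_le _ _).trans ?_
    split_ifs
    · exact le_rfl
    · exact Nat.zero_le _

end Sl

end RD

end Pool.Agent.MP42.U
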