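import Pool.Agent.MP42.U.SMain
import Pool.Agent.MP42.U.Bri3
import Pool.Agent.MP42.U.Lk

/-!
# A solution of one level exists

`exists_LSol`: `Sys.main` for the system of the circles of an instance, written with the words `wd`.
-/

set_option autoImplicit false
set_option linter.unusedSectionVars false

namespace Pool.Agent.MP42.U

open Pool.Agent.MP42.GZ

lemma lv_map {T T' : Type*} (φ : T → T') (V : T' → B) (w : List (Bool × T)) :
    lv V (w.map fun q => (q.1, φ q.2)) = lv (fun t => V (φ t)) w := by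
  unfold lv
  rw [List.map_map]
  rfl

lemma hl_map {T T' : Type*} (φ : T → T') (w : List (Bool × T)) :
    hl (w.map fun q => (q.1, φ q.2)) = hl w := by
  unfold hl
  rw [List.map_map]
  rfl

lemma Cl.of_map {T T' : Type*} {φ : T → T'} {V : T' → B} {w : List (Bool × T)}
    (h : Cl V (w.map fun q => (q.1, φ q.2))) : Cl (fun t => V (φ t)) w := by
  obtain ⟨S, h1, h2⟩ := h
  exact ⟨S, by rw [← lv_map φ V w]; exact h1, h2⟩

lemma hl_rot {T : Type*} (u v : List (Bool × T)) : hl (v ++ u) = hl (u ++ v) := by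
  rw [hl_append, hl_append, add_comm]

/-- partial sums of a rotated word -/
lemma par_rot {T : Type*} {d e h : ℤ} {u v : List (Bool × T)} (H : PH d e h (u ++ v)) :
    ∀ p q, v ++ u = p ++ q → -(d + e + |h|) ≤ hl p ∧ hl p ≤ d + e + |h| := by
  intro p q hpq
  obtain ⟨hP, hh⟩ := H
  have hu := hP u v rfl
  have habs1 := le_abs_self h
  have habs2 := neg_abs_le h
  have habs0 := abs_nonneg h
  rcases List.append_eq_append_iff.1 hpq with ⟨w, h1, h2⟩ | ⟨w, h1, h2⟩
  · -- `p = v ++ w`, `u = w ++ q`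
    have h3 := hP w (q ++ v) (by rw [h2]; simp)
    rw [h1, hl_append]
    rw [hl_append] at hh
    constructor <;> linarith [h3.1, h3.2, hu.1, hu.2]
  · -- `v = p ++ w`
    have h3 := hP (u ++ p) w (by rw [h1]; simp)
    rw [hl_append] at h3
    constructor <;> linarith [h3.1, h3.2, hu.1, hu.2]

namespace RD

variable {C α : Type*} {R : RD C α} {n : ℕ} {e : C ≃ Fin n}
  {hm : ∀ f g, f ≤ g → R.ph (e.symm f) ≤ R.ph (e.symm g)}

lemma sys_c (z : C) : (R.sys e hm).c (e z) = R.cir z := by
  show R.cir (e.symm (e z)) = _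
  rw [Equiv.symm_apply_apply]

lemma orr_iff {z : C} {r : R.T} : R.orr z = some r ↔ R.dbl z ∧ r = R.or z := by
  constructor
  · intro h
    by_cases hd : R.dbl z
    · rw [orr_some hd] at h
      exact ⟨hd, (Option.some.inj h).symm⟩
    · rw [orr_none hd] at h
      simp at h
  · rintro ⟨hd, rfl⟩
    exact orr_some hd

/-- the dropped circles -/
def Dp (R : RD C α) {n : ℕ} (e : C ≃ Fin n)
    (hm : ∀ f g, f ≤ g → R.ph (e.symm f) ≤ R.ph (e.symm g)) (s : R.T → Bool) (c : C) : Prop :=
  (R.sys e hm).Dr (fun _ => s) (e c)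

/-- the hypotheses of `Lk` -/
theorem exists_Sl [Fintype R.T]
    (hF : (R.sys e hm).Full fun f s => R.E (e.symm f) s) {s : R.T → Bool}
    (h1 : ∀ f, ((R.sys e hm).c f).CC s ∧ R.E (e.symm f) s)
    (h3 : ∀ f, PH 4 4 2 (((R.sys e hm).c f).act ((R.sys e hm).pr fun _ => s) s) ∧
        (((R.sys e hm).c f).act ((R.sys e hm).pr fun _ => s) s).map Prod.snd =
          ((R.sys e hm).c f).tks.filter ((R.sys e hm).pr fun _ => s)) :
    Sl R s ((R.sys e hm).pr fun _ => s) (R.Dp e hm s) where
  cc z := by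
    have := (h1 (e z)).1
    rwa [sys_c] at this
  pc z := by
    have := hF.pc (fun f => (h1 f).2) (e z)
    rwa [sys_c] at this
  eo z := by
    have h4 := (h1 (e z)).2
    rw [Equiv.symm_apply_apply] at h4
    obtain ⟨a1, a2, a3, a4⟩ := h4
    exact ⟨a1, fun x hx => a2 x hx, fun q hq => a3 q hq,
      fun hd hp hx => a4 hx hp _ (orr_some hd)⟩
  tok z := by
    have := (h3 (e z)).2
    rwa [sys_c] at this
  ph z := by
    have := (h3 (e z)).1
    rwa [sys_c] at this
  dbl c hc := by
    cases hc with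
    | mk _ r hr h' hb =>
      rw [sys_c, cir_r, orr_iff] at hr
      exact hr.1
  sr c hc := by
    cases hc with
    | mk _ r hr h' hb =>
      rw [sys_c, cir_r, orr_iff] at hr
      rw [← hr.2]
      exact h'
  pr t := by
    rw [Sys.pr_false]
    constructor
    · rintro ⟨g, hg, r, hr, h4⟩
      obtain ⟨c, rfl⟩ : ∃ c, g = e c := ⟨e.symm g, (e.apply_symm_apply g).symm⟩
      rw [sys_c, cir_r, orr_iff] at hr
      obtain ⟨hd, rfl⟩ := hr
      rw [sys_c, cir_l] at h4
      exact ⟨c, hg, h4⟩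
    · rintro ⟨c, hc, h4⟩
      have hc' := hc
      cases hc' with
      | mk _ r hr h' hb =>
        refine ⟨e c, hc, r, hr, ?_⟩
        rw [sys_c, cir_r, orr_iff] at hr
        obtain ⟨hd, rfl⟩ := hr
        rw [sys_c, cir_l]
        exact h4

end RD

namespace Inst

variable {C J α : Type*} [LinearOrder α] [Fintype C] [Fintype J] [DecidableEq α]

/-- **a solution of one level**, with a bound for the partial sums -/
theorem exists_LSol' (G : Inst C J α) (grp : C → Prop) (hgx : ∀ z, grp z → G.xN z = none)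
    (hrg : ∀ z, z ≠ G.r → G.real z → ¬ grp z)
    (hrc : ∀ z, z ≠ G.r → G.real z → ¬ (G.cls z ↔ G.cls (G.par z))) :
    ∃ S : LSol G grp, ∀ z p q, wd grp (swp G) S.lk S.lt S.R.rd z = p ++ q →
      -10 ≤ hl p ∧ hl p ≤ 10 := by
  classical
  obtain ⟨Rd, hr0⟩ := G.exists_reading_root
  obtain ⟨R, hR⟩ : ∃ R : RD C α, R = Rd.toRD grp hr0 := ⟨_, rfl⟩
  obtain ⟨e, hm, he, hF⟩ := R.exists_sys
  have hfin : Finite R.T := R.finite_T
  have := Fintype.ofFinite R.T
  obtain ⟨s, h1, h2, h3, h4⟩ := Sys.main hF (e R.r)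
  obtain ⟨pr, hpr⟩ : ∃ pr, pr = (R.sys e hm).pr fun _ => s := ⟨_, rfl⟩
  obtain ⟨D, hD⟩ : ∃ D, D = R.Dp e hm s := ⟨_, rfl⟩
  have hS : RD.Sl R s pr D := by
    rw [hpr, hD]
    exact RD.exists_Sl hF h1 h3
  have eR : R.r = G.r := by rw [hR]; rfl
  have ex : R.xN = G.xN := by rw [hR]; rfl
  have ep : R.p = Rd.p := by rw [hR]; rfl
  have eg : R.grp = grp := by rw [hR]; rfl
  have el : R.real = G.real := by rw [hR]; rfl
  have eL : R.L = Rd.L := by rw [hR]; rfl
  have eex : R.ex = none := by rw [hR]; rfl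
  have erd : R.rd = Rd.rd := by
    funext z
    rw [hR]
    exact Reading.lst_eq z
  have etw : ∀ z, R.tw z = true ↔ (G.cls z ↔ G.cls (G.par z)) := by
    intro z
    rw [hR]
    exact decide_eq_true_iff
  have hdr : R.dbl R.r := R.ex_dbl.2 eex
  have hrD : ¬ D R.r := hS.D_r (by rw [ex, eR]; exact G.xN_root) (by rw [ep, eR]; exact hr0)
  have hwd := hS.act_wd hrD hdr (by rw [eg, ex]; exact hgx) (by
      intro z hz hreal
      rw [eR] at hz
      rw [el] at hreal
      by_contra hc
      rw [Bool.not_eq_false, etw] at hc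
      exact hrc z hz hreal hc) (sw := swp G) (by
      intro z
      rw [eR, etw]
      rfl)
  rw [eg, erd] at hwd
  obtain ⟨φ, hφ⟩ : ∃ φ : R.T → α ⊕ (C × ℕ), φ = fun t => R.phi s pr D t.1 := ⟨_, rfl⟩
  have hwd' : ∀ z, ∃ u v, ((R.cir z).act pr s).map (fun q => (q.1, φ q.2)) = u ++ v ∧
      wd grp (swp G) (R.lk s pr D) (fun p => R.le s pr (Tok.pt p)) Rd.rd z = v ++ u := by
    intro z
    rw [hφ]
    obtain ⟨u, v, g1, g2, -⟩ := hwd z
    exact ⟨u, v, g1, g2⟩
  have hph : ∀ z, PH 4 4 2 (((R.cir z).act pr s).map (fun q => (q.1, φ q.2))) := by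
    intro z
    obtain ⟨g1, g2⟩ := hS.ph z
    refine ⟨?_, by rw [hl_map]; exact g2⟩
    intro w₁ w₂ hw
    obtain ⟨v₁, v₂, e1, e2, e3⟩ := List.map_eq_append_iff.1 hw
    have := g1 v₁ v₂ e1
    rw [← e2, hl_map]
    exact this
  refine ⟨⟨Rd, R.lk s pr D, fun p => R.le s pr (Tok.pt p), ?_, ?_, ?_, ?_, ?_, ?_⟩, ?_⟩
  · intro j
    refine hS.port hrD (by rw [eL]; exact Rd.x_mem j) ?_
    rw [hR]
    exact ⟨j, rfl⟩
  · intro z p hp
    exact hS.portx hrD (z := z) (by rw [ex]; exact hp)
  · intro c hc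
    obtain ⟨g1, g2, -⟩ := hS.nn_real hrD hc
    rw [eR] at g1
    rw [el] at g2
    exact ⟨g1, g2, hrg c g1 g2⟩
  · rw [RD.lk_def, if_pos eR.symm]
  · intro z
    obtain ⟨u, v, g1, g2⟩ := hwd' z
    rw [g2, hl_rot, ← g1]
    exact (hph z).2
  · intro V hy hmt hgr hcl
    have hpair : ∀ t : R.T, t ≠ R.tk (Tok.ow R.r true) →
        t ≠ R.lam (R.tk (Tok.ow R.r true)) → V (φ (R.lam t)) = V (φ t) := by
      rintro ⟨t, ht⟩ hne1 hne2
      rw [hφ]
      show V (R.phi s pr D (R.lamr t)) = V (R.phi s pr D t)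
      cases t with
      | pt q =>
        rw [R.lamr_pt, eex, if_neg (by simp)]
        show V (Sum.inl (R.mate q)) = V (Sum.inl q)
        have hq : q ∈ Rd.L := by rw [← eL]; exact ht
        have em : R.mate = Rd.mate := by rw [hR]; rfl
        rw [em]
        rcases Reading.mem_L.1 hq with ⟨j, rfl⟩ | ⟨j, rfl⟩ | h
        · rw [Reading.mate_y]
          exact (hy j).symm
        · rw [Reading.mate_x]
          exact hy j
        · rw [Reading.mate_L0 h]
          exact hmt q h
      | up c k => rw [RD.phi_up ht]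
      | ow c k =>
        by_cases hc : c = R.r
        · exfalso
          subst hc
          have hv : R.Val (Tok.ow R.r true : Tok C α) := fun h => by simp at h
          cases k with
          | true =>
            apply hne1
            exact Subtype.ext (R.tk_val hv).symm
          | false =>
            apply hne2
            refine Subtype.ext ?_
            show Tok.ow R.r false = R.lamr (R.tk (Tok.ow R.r true)).1
            rw [R.tk_val hv, R.lamr_ow, if_pos rfl, R.exk_none eex]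
            rfl
        · rw [RD.phi_lam_ow ht hc (by rw [eex]; simp)]
    have hgp : ∀ f, ((R.sys e hm).c f).isGp = true → (R.sys e hm).Dr (fun _ => s) f → ∀ r,
        ((R.sys e hm).c f).r = some r → V (φ ((R.sys e hm).c f).l) = V (φ r) := by
      intro f hg hd r hr
      obtain ⟨c, rfl⟩ : ∃ c, f = e c := ⟨e.symm f, (e.apply_symm_apply f).symm⟩
      rw [RD.sys_c] at hg hr ⊢
      rw [RD.cir_r, RD.orr_iff] at hr
      obtain ⟨hdc, rfl⟩ := hr
      have hDc : D c := by rw [hD]; exact hd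
      have hcr : c ≠ R.r := fun h => hrD (h ▸ hDc)
      have hlk : R.lk s pr D c = LS.drop := by rw [RD.lk_def, if_neg hcr, if_pos hDc]
      have hgc : grp c := by
        rcases R.cir_cases c with ⟨x, q, hx, hq, h⟩ | ⟨h0, h⟩ | ⟨gs, g, h0, g1, g2, h⟩
        · rw [h] at hg; simp [Circ.isGp] at hg
        · rw [h] at hg; simp [Circ.isGp] at hg
        · rw [← eg]; exact h0.1
      have h5 := hgr c hgc hlk
      rw [RD.cir_l, hφ]
      show V (R.phi s pr D (R.ol c).1) = V (R.phi s pr D (R.or c).1)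
      rw [RD.raw_ol, RD.raw_or hdc, RD.phi_ow, RD.phi_ow, if_neg hcr, if_neg hcr, if_pos hdc,
        if_pos hdc, hlk]
      cases R.tw c with
      | true => exact h5.symm
      | false => exact h5
    have hcl' : ∀ f, Cl (fun t => V (φ t)) (((R.sys e hm).c f).act
        ((R.sys e hm).pr fun _ => s) s) := by
      intro f
      obtain ⟨z, rfl⟩ : ∃ c, f = e c := ⟨e.symm f, (e.apply_symm_apply f).symm⟩
      rw [RD.sys_c, ← hpr]
      obtain ⟨u, v, g1, g2⟩ := hwd' z
      have h5 := hcl z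
      rw [g2] at h5
      have h6 := h5.rot
      rw [← g1] at h6
      exact h6.of_map
    have hvt : R.Val (Tok.ow R.r true : Tok C α) := fun h => by simp at h
    have hvf : R.Val (Tok.ow R.r false : Tok C α) := fun _ => hdr
    have hlam : R.lam (R.tk (Tok.ow R.r true)) = R.tk (Tok.ow R.r false) := by
      rw [R.lam_tk hvt, R.lamr_ow, if_pos rfl, R.exk_none eex]
      rfl
    have hlast : V (φ (R.lam (R.tk (Tok.ow R.r true)))) = V (φ (R.tk (Tok.ow R.r true))) := by
      refine Sys.Full.last_pair hF h1 (V := fun t => V (φ t)) (a := R.tk (Tok.ow R.r true))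
        (fun t g1 g2 _ _ => hpair t g1 g2) hgp hcl' ?_ ?_
      · rw [← hpr]
        exact hS.pr_ow_true hrD hvt (fun h => hrD h.1)
      · rw [← hpr]
        show pr (R.lam (R.tk (Tok.ow R.r true))) = true
        rw [hlam]
        exact hS.pr_ow_true hrD hvf (fun h => hrD h.1)
    have hSol : (R.sys e hm).Sol s (e R.r) (fun t => V (φ t)) := by
      refine ⟨?_, hgp, fun f _ => hcl' f, ?_⟩
      · intro t _ _
        by_cases g1 : t = R.tk (Tok.ow R.r true)
        · rw [g1]
          exact hlast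
        · by_cases g2 : t = R.lam (R.tk (Tok.ow R.r true))
          · rw [g2]
            have e1 : (R.sys e hm).lam (R.lam (R.tk (Tok.ow R.r true))) =
                R.tk (Tok.ow R.r true) := (R.sys e hm).lam_lam _
            rw [e1]
            exact hlast.symm
          · exact hpair t g1 g2
      · obtain ⟨S, hS', -⟩ := hcl' (e R.r)
        exact ⟨S, hS'⟩
    obtain ⟨k, hk, -⟩ := h4 _ hSol
    refine ⟨k, fun z q hq => ?_⟩
    obtain ⟨u, v, g1, g2⟩ := hwd' z
    have h5 : q ∈ ((R.cir z).act pr s).map (fun q => (q.1, φ q.2)) := by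
      rw [g1]
      rw [g2] at hq
      exact List.perm_append_comm.mem_iff.1 hq
    obtain ⟨q', h6, rfl⟩ := List.mem_map.1 h5
    have h7 : q'.2 ∈ ((R.cir z).act pr s).map Prod.snd := List.mem_map.2 ⟨q', h6, rfl⟩
    rw [hS.tok] at h7
    exact hk q'.2 (by rw [← hpr]; exact (List.mem_filter.1 h7).2)
  · intro z p q hpq
    obtain ⟨u, v, g1, g2⟩ := hwd' z
    have h5 := hph z
    rw [g1] at h5
    have h6 := par_rot h5 p q (by rw [← g2]; exact hpq)
    norm_num at h6
    exact h6

/-- **a solution of one level** -/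
theorem exists_LSol (G : Inst C J α) (grp : C → Prop) (hgx : ∀ z, grp z → G.xN z = none)
    (hrg : ∀ z, z ≠ G.r → G.real z → ¬ grp z)
    (hrc : ∀ z, z ≠ G.r → G.real z → ¬ (G.cls z ↔ G.cls (G.par z))) : Nonempty (LSol G grp) :=
  let ⟨S, _⟩ := exists_LSol' G grp hgx hrg hrc
  ⟨S⟩

end Inst

end Pool.Agent.MP42.U
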