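import Pool.Agent.MP42.U.Abs

/-!
# A forced port after an own link which cannot be dropped
-/

set_option autoImplicit false

namespace Pool.Agent.MP42.U

variable {P U : Type*} {R : U → Bool → (P → B) → (ℕ → B) → (ℕ → B) → Prop} {kind : U → Kind}
  {GC : U → (P → B) → Prop} {val : U → (P → B) → B}

/-- forced port after the own token, if the two own tokens have the same value anyway -/
theorem nodeX0 {us : List U} (hn : us.Nodup) {l r x f : U}
    {ms : List U} (hos : us.filter (isOdd kind) = l :: x :: f :: (ms ++ [r]))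
    (hms : Even ms.length) {F : Set (P → B)}
    (hE : ∀ V ∈ F, ∀ u ∈ us, ∀ b S S', R u b V S S' → Does kind GC val u b V S S')
    (hlr : ∀ V ∈ F, val l V = val r V)
    (hF : ∀ V ∈ F, ∀ V' ∈ F, (∀ u ∈ us, GC u V) → (∀ u ∈ us, GC u V') →
      ((us.filter (isOdd kind)).map fun u => val u V * val u V').sum = 0) :
    ∃ st : U → Bool, st l = true ∧ st x = true ∧ st f = false ∧ st r = true ∧ Alt st ms ∧
      ∀ V ∈ F, (∃ S, Walk R st V us S S ∧ Deep S) →
        (∀ u ∈ us, GC u V) ∧ ∃ c, ∀ u ∈ us, kind u ≠ Kind.closed → val u V = c := by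
  classical
  have hsum : ∀ V V' : P → B, ((us.filter (isOdd kind)).map fun u => val u V * val u V').sum =
      val l V * val l V' + val x V * val x V' + val f V * val f V' +
        (ms.map fun u => val u V * val u V').sum + val r V * val r V' := by
    intro V V'
    rw [hos]
    simp only [List.map_cons, List.map_append, List.sum_cons, List.sum_append, List.map_nil,
      List.sum_nil, add_zero]
    ring
  obtain ⟨bs, hb1, hb2, t, hb3, hb4, hb5⟩ := choose_pairs (val := val) hms
    {V | V ∈ F ∧ (∀ u ∈ us, GC u V) ∧ val l V = val x V} (fun V => val f V)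
    (fun V => val r V) (by
      rintro V ⟨hV, hg1, hlx⟩ V' ⟨hV', hg1', hlx'⟩
      have h1 := hF V hV V' hV' hg1 hg1'
      rw [hsum, hlx, hlx'] at h1
      have h2 := b_add_self (val x V * val x V')
      linear_combination h1 - h2)
  have hlen : (us.filter (isOdd kind)).length =
      (true :: true :: false :: (bs ++ [true])).length := by
    rw [hos]; simp [hb1]
  obtain ⟨st, hst⟩ := exists_fun (hn.filter _) hlen ⟨true⟩
  rw [hos, List.map_cons, List.map_cons, List.map_cons, List.map_append] at hst
  simp only [List.cons.injEq, List.map_cons, List.map_nil] at hst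
  obtain ⟨hl, hx, hf, hst⟩ := hst
  obtain ⟨hst1, hst2⟩ := List.append_inj' hst (by simp)
  have hr : st r = true := by simpa using hst2
  refine ⟨st, hl, hx, hf, hr, hb2 st hst1, ?_⟩
  rintro V hV ⟨S, hS, hd⟩
  obtain ⟨h1, h2⟩ := walk_odd (hE V hV) hS
  have h3 := word_pairs (val := val) (V := V) t (by rw [← hb4, ← hb3]; exact hst1)
  rw [hos, List.map_cons, List.map_cons, List.map_cons, List.map_append, hb4, h3, hl, hx,
    hf] at h1
  simp only [List.map_cons, List.map_nil, hr] at h1
  rw [run_pop, run_pop, run_push, run_append] at h1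
  obtain ⟨e1, e2, S₁, e3, e4, e5⟩ := h1
  rw [run_nil] at e5
  obtain ⟨e6, e7⟩ := run_pairs (v := fun u => val u V) e3
  have h7 : ∀ j, S j = S (j + 2) := by
    intro j
    have := congrFun (e5.symm.trans e7) j
    exact this
  have h8 : ∀ n j, S j = S (j + 2 * n) := by
    intro n
    induction n with
    | zero => intro j; rfl
    | succ n ih => intro j; rw [ih j, h7]; rfl
  obtain ⟨K, c, hc⟩ := hd
  have h9 : ∀ j, S j = c := by
    intro j
    rw [h8 K j]
    exact hc _ (by omega)
  have hlc : val l V = c := by rw [e1, h9]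
  have hxc : val x V = c := by rw [e2, tl_apply, h9]
  have h10 : Ch (fun u => val u V) t (val f V) (val r V) := by
    rw [e4]; exact e6
  obtain ⟨h11, h12⟩ := hb5 V ⟨hV, h2, by rw [hlc, hxc]⟩ h10
  have hfc : val f V = c := by rw [← h12, ← hlr V hV, hlc]
  refine ⟨h2, c, walk_even (hE V hV) ?_ h9 hS⟩
  intro u hu hk
  have h13 : u ∈ us.filter (isOdd kind) := List.mem_filter.2 ⟨hu, by simp [isOdd, hk]⟩
  rw [hos] at h13
  simp only [List.mem_cons, List.mem_append, List.not_mem_nil, or_false] at h13
  rcases h13 with rfl | rfl | rfl | h13 | rfl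
  · exact hlc
  · exact hxc
  · exact hfc
  · rw [h11 u h13, hfc]
  · rw [h12, hfc]

end Pool.Agent.MP42.U
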