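import Pool.Agent.MP42.U.Switch

/-!
# One node

A node is a list of units, a unit is a list of tokens.  `s b x` = letter of the token `x` when its
unit is in the state `b`.  Odd units have height `1` in the state `true` and height `-1` in the state
`false`, even units have height `0` and an initial part of positive height.
-/

set_option autoImplicit false

namespace Pool.Agent.MP42.U

variable {P U : Type*}

/-- the letters of the units -/
structure Sig (P U : Type*) where
  /-- the tokens of a unit -/
  toks : U → List P
  /-- the main token of a unit -/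
  rep : U → P
  /-- the parity of a unit -/
  od : U → Bool
  /-- the letter of a token in a state of its unit -/
  s : Bool → P → Bool

namespace Sig

variable (G : Sig P U)

/-- the word of a unit -/
def wd (V : P → B) (st : U → Bool) (u : U) : List (Bool × B) :=
  (G.toks u).map fun x => (G.s (st u) x, V x)

/-- the word of a node -/
def W (V : P → B) (st : U → Bool) (us : List U) : List (Bool × B) :=
  us.flatMap (G.wd V st)

/-- the height of a list of tokens in the state `b` -/
def hl (b : Bool) (l : List P) : ℤ := (l.map fun x => if G.s b x then (1 : ℤ) else -1).sum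

/-- the conditions on a unit -/
structure Good (u : U) : Prop where
  odd : G.od u = true → G.hl true (G.toks u) = 1 ∧ G.hl false (G.toks u) = -1
  even : G.od u = false → ∀ b, G.hl b (G.toks u) = 0 ∧
    ∃ l₁ l₂, G.toks u = l₁ ++ l₂ ∧ 0 < G.hl b l₁

lemma ht_map (V : P → B) (b : Bool) (l : List P) :
    ht (l.map fun x => (G.s b x, V x)) = G.hl b l := by
  simp only [ht, hl, List.map_map]
  rfl

lemma W_cons (V : P → B) (st : U → Bool) (u : U) (us : List U) :
    G.W V st (u :: us) = G.wd V st u ++ G.W V st us := by
  simp [W]

lemma hl_cons (b : Bool) (x : P) (l : List P) :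
    G.hl b (x :: l) = (if G.s b x then (1 : ℤ) else -1) + G.hl b l := by
  simp [hl]

/-- the parity of the number of tokens -/
lemma hl_par (b : Bool) (l : List P) : ((G.hl b l : ℤ) : B) = (l.length : B) := by
  induction l with
  | nil => simp [hl]
  | cons x l ih =>
    rw [hl_cons, Int.cast_add, ih, List.length_cons, Nat.cast_add]
    split_ifs
    · push_cast; ring
    · push_cast
      have : (1 : B) + 1 = 0 := by decide
      linear_combination -this

lemma Good.len {u : U} (h : G.Good u) : ((G.toks u).length : B) = if G.od u then 1 else 0 := by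
  rw [← G.hl_par true]
  cases hu : G.od u
  · rw [(h.even hu true).1]; simp
  · rw [(h.odd hu).1]; simp

/-- the walk along a unit with one value -/
lemma run_unit {u : U} (h : G.Good u) {V : P → B} {st : U → Bool} {a : B}
    (hV : ∀ x ∈ G.toks u, V x = a) {S S' : ℕ → B} (hr : Run (G.wd V st u) S S') :
    (if G.od u then Run [(st u, a)] S S' else S' = S ∧ a = S 0) := by
  have he : Eff a (G.hl (st u) (G.toks u)) S S' := by
    rw [← G.ht_map V]
    refine run_eff ?_ hr
    intro p hp
    obtain ⟨x, hx, rfl⟩ := List.mem_map.1 hp
    exact hV x hx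
  cases hu : G.od u
  · obtain ⟨h1, l₁, l₂, h2, h3⟩ := h.even hu (st u)
    rw [h1] at he
    refine ⟨he.zero, ?_⟩
    unfold wd at hr
    rw [h2, List.map_append, run_append] at hr
    obtain ⟨S₁, hr1, -⟩ := hr
    have he1 : Eff a (G.hl (st u) l₁) S S₁ := by
      rw [← G.ht_map V]
      refine run_eff ?_ hr1
      intro p hp
      obtain ⟨x, hx, rfl⟩ := List.mem_map.1 hp
      exact hV x (by rw [h2]; exact List.mem_append_left _ hx)
    exact (he1.low 0 (by simpa using h3)).symm
  · obtain ⟨h1, h2⟩ := h.odd hu
    cases hs : st u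
    · rw [hs, h2] at he
      exact he.neg.symm
    · rw [hs, h1] at he
      exact ⟨he.one.1, he.one.2.symm⟩

/-- the even units are invisible -/
lemma run_odd {V : P → B} {st : U → Bool} {v : U → B} : ∀ {us : List U},
    (∀ u ∈ us, G.Good u) → (∀ u ∈ us, ∀ S S', Run (G.wd V st u) S S' →
      ∀ x ∈ G.toks u, V x = v u) → ∀ {S S' : ℕ → B},
    Run (G.W V st us) S S' → Run ((us.filter G.od).map fun u => (st u, v u)) S S' := by
  intro us
  induction us with
  | nil => intro _ _ S S' h; simpa [W] using h
  | cons u us ih =>
    intro hg hV S S' h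
    rw [W_cons, run_append] at h
    obtain ⟨S₁, h1, h2⟩ := h
    have h3 := G.run_unit (hg u List.mem_cons_self) (hV u List.mem_cons_self _ _ h1) h1
    have h4 := ih (fun u hu => hg u (List.mem_cons_of_mem _ hu))
      (fun u hu => hV u (List.mem_cons_of_mem _ hu)) h2
    cases hu : G.od u
    · rw [hu] at h3
      rw [List.filter_cons_of_neg (by simp [hu]), ← (show S₁ = S from h3.1)]
      exact h4
    · rw [hu] at h3
      rw [List.filter_cons_of_pos hu, List.map_cons, ← List.singleton_append, run_append]
      exact ⟨S₁, h3, h4⟩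

/-- the even units have the value of the stack -/
lemma run_even {V : P → B} {st : U → Bool} {v : U → B} {c : B} : ∀ {us : List U},
    (∀ u ∈ us, G.Good u) → (∀ u ∈ us, ∀ S S', Run (G.wd V st u) S S' →
      ∀ x ∈ G.toks u, V x = v u) →
    (∀ u ∈ us, G.od u = true → v u = c) → ∀ {S S' : ℕ → B}, (∀ j, S j = c) →
    Run (G.W V st us) S S' → ∀ u ∈ us, v u = c ∧ ∀ x ∈ G.toks u, V x = c := by
  intro us
  induction us with
  | nil => intro _ _ _ S S' _ _ u hu; simp at hu
  | cons u us ih =>
    intro hg hV ho S S' hS h
    rw [W_cons, run_append] at h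
    obtain ⟨S₁, h1, h2⟩ := h
    have h3 := G.run_unit (hg u List.mem_cons_self) (hV u List.mem_cons_self _ _ h1) h1
    have key : v u = c ∧ ∀ j, S₁ j = c := by
      cases hu : G.od u
      · rw [hu] at h3
        have h3' : S₁ = S ∧ v u = S 0 := h3
        refine ⟨by rw [h3'.2, hS], ?_⟩
        rw [h3'.1]; exact hS
      · have h4 := ho u List.mem_cons_self hu
        refine ⟨h4, ?_⟩
        rw [hu, h4] at h3
        have h3' : Run [(st u, c)] S S₁ := h3
        cases hs : st u
        · rw [hs, run_push, run_nil] at h3'
          rw [← h3']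
          intro j
          cases j with
          | zero => rfl
          | succ j => exact hS j
        · rw [hs, run_pop, run_nil] at h3'
          rw [← h3'.2]
          intro j; exact hS _
    intro w hw
    rcases List.mem_cons.1 hw with rfl | hw
    · exact ⟨key.1, fun x hx => (hV w List.mem_cons_self _ _ h1 x hx).trans key.1⟩
    · exact ih (fun u hu => hg u (List.mem_cons_of_mem _ hu))
        (fun u hu => hV u (List.mem_cons_of_mem _ hu))
        (fun u hu => ho u (List.mem_cons_of_mem _ hu)) key.2 h2 w hw

end Sig

/-- the walk along the pairs -/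
lemma run_pairs {v : U → B} {t : List (Bool × U × U)} : ∀ {S S' : ℕ → B},
    Run (t.flatMap fun p => [(!p.1, v p.2.1), (p.1, v p.2.2)]) S S' →
    Ch v t (S 0) (S' 0) ∧ tl S' = tl S := by
  induction t with
  | nil =>
    intro S S' h
    have h1 : S = S' := by simpa using h
    subst h1
    exact ⟨rfl, rfl⟩
  | cons p t ih =>
    obtain ⟨b, a, a'⟩ := p
    intro S S' h
    rw [List.flatMap_cons, List.cons_append, List.cons_append, List.nil_append] at h
    cases b
    · have h1 : v a = S 0 ∧ Run (t.flatMap fun p => [(!p.1, v p.2.1), (p.1, v p.2.2)])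
        (push (v a') (tl S)) S' := h
      obtain ⟨h2, h3⟩ := ih h1.2
      exact ⟨⟨h1.1, h2⟩, by rw [h3, tl_push]⟩
    · have h1 : v a' = v a ∧ Run (t.flatMap fun p => [(!p.1, v p.2.1), (p.1, v p.2.2)])
        S S' := h
      obtain ⟨h2, h3⟩ := ih h1.2
      exact ⟨⟨h1.1.symm, h2⟩, h3⟩

/-- the deep strands are constant -/
def Deep (S : ℕ → B) : Prop := ∃ (K : ℕ) (c : B), ∀ j, K ≤ j → S j = c

/-- the closed walk along the odd units -/
lemma run_chain {v : U → B} {t : List (Bool × U × U)} {l r : U} {S : ℕ → B}
    (h : Run ((true, v l) :: ((t.flatMap fun p => [(!p.1, v p.2.1), (p.1, v p.2.2)]) ++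
      [(true, v r)])) S S) (hd : Deep S) : (∀ j, S j = v l) ∧ Ch v t (v l) (v r) := by
  rw [run_pop, run_append] at h
  obtain ⟨h1, S₁, h2, h3, h4⟩ := h
  rw [run_nil] at h4
  obtain ⟨h5, h6⟩ := run_pairs h2
  have h7 : ∀ j, S j = S (j + 2) := by
    intro j
    have := congrFun (h4.symm.trans h6) j
    exact this
  have h8 : ∀ n j, S j = S (j + 2 * n) := by
    intro n
    induction n with
    | zero => intro j; rfl
    | succ n ih => intro j; rw [ih j, h7]; rfl
  obtain ⟨K, c, hc⟩ := hd
  have h9 : ∀ j, S j = c := by
    intro j
    rw [h8 K j]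
    exact hc _ (by omega)
  refine ⟨fun j => by rw [h9, h1, h9], ?_⟩
  have h10 : S 0 = tl S 0 := by rw [tl_apply, h9, h9]
  rw [h1, h3, h10]
  exact h5

/-- a function with given values on a list -/
lemma exists_fun {A : Type*} : ∀ {l : List U} {bs : List A}, l.Nodup → l.length = bs.length →
    Nonempty A → ∃ f : U → A, l.map f = bs := by
  classical
  intro l
  induction l with
  | nil =>
    intro bs _ h hA
    have : bs = [] := List.length_eq_zero_iff.1 h.symm
    exact ⟨fun _ => hA.some, by rw [this]; rfl⟩
  | cons x l ih =>
    intro bs hn h hA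
    cases bs with
    | nil => simp at h
    | cons b bs =>
      obtain ⟨f, hf⟩ := ih (List.nodup_cons.1 hn).2 (by simpa using h) hA
      refine ⟨Function.update f x b, ?_⟩
      rw [List.map_cons, Function.update_self, ← hf]
      congr 1
      refine List.map_congr_left ?_
      intro y hy
      exact Function.update_of_ne (by rintro rfl; exact (List.nodup_cons.1 hn).1 hy) _ _

/-- an even list of odd units -/
lemma exists_pairs {os : List U} (h : Even os.length) : ∃ ps : List (U × U),
    os = ps.flatMap fun p => [p.1, p.2] := by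
  obtain ⟨n, hn⟩ := h
  induction n generalizing os with
  | zero =>
    refine ⟨[], ?_⟩
    exact List.length_eq_zero_iff.1 (by omega)
  | succ n ih =>
    match os, hn with
    | [], hn => simp at hn
    | [_], hn => simp at hn; omega
    | a :: b :: os, hn =>
      obtain ⟨ps, hps⟩ := ih (os := os) (by simp at hn; omega)
      exact ⟨(a, b) :: ps, by simp [← hps]⟩

/-- the heights of the states along the odd units: `+`, then pairs of opposite states, then `+` -/
inductive Alt (st : U → Bool) : List U → Prop
  | nil : Alt st []
  | cons {a b : U} {t : List U} : st b = !(st a) → Alt st t → Alt st (a :: b :: t)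

namespace Sig

variable (G : Sig P U)

/-- the node condition -/
def NOK (us : List U) (st : U → Bool) (V : P → B) : Prop :=
  ∃ S, Run (G.W V st us) S S ∧ Deep S

/-- **the node lemma** -/
theorem node {us : List U} (hg : ∀ u ∈ us, G.Good u) (hn : us.Nodup)
    {l r : U} {ms : List U} (hos : us.filter G.od = l :: (ms ++ [r])) (hms : Even ms.length)
    {F : Set (P → B)}
    (hF : ∀ V ∈ F, ∀ V' ∈ F, ((us.flatMap G.toks).map fun x => V x * V' x).sum = 0)
    (hp : ∀ V ∈ F, ∀ V' ∈ F, ∀ u ∈ us, ((G.toks u).map fun x => V x * V' x).sum =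
      if G.od u then V (G.rep u) * V' (G.rep u) else 0)
    (hc : ∀ V ∈ F, ∀ u ∈ us, ∀ (b : Bool) (S S' : ℕ → B),
      Run ((G.toks u).map fun x => (G.s b x, V x)) S S' → ∀ x ∈ G.toks u, V x = V (G.rep u)) :
    ∃ st : U → Bool, st l = true ∧ st r = true ∧ Alt st ms ∧
      ∀ V ∈ F, G.NOK us st V → ∀ x ∈ us.flatMap G.toks, ∀ y ∈ us.flatMap G.toks, V x = V y := by
  classical
  -- the value of a unit
  set val : (P → B) → U → B := fun V u => V (G.rep u) with hval
  obtain ⟨ps', hps⟩ := exists_pairs hms
  -- the family is isotropic on the odd units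
  have hiso : ∀ V ∈ F, ∀ V' ∈ F, val V l * val V' l + ps (val V) (val V') ps' +
      val V r * val V' r = 0 := by
    intro V hV V' hV'
    have h1 := hF V hV V' hV'
    have h2 : ∀ vs' : List U, (∀ u ∈ vs', u ∈ us) →
        ((vs'.flatMap G.toks).map fun x => V x * V' x).sum =
        ((vs'.filter G.od).map fun u => val V u * val V' u).sum := by
      intro vs'
      induction vs' with
      | nil => intro _; simp
      | cons u vs' ih =>
        intro hvs
        have hu := hvs u List.mem_cons_self
        rw [List.flatMap_cons, List.map_append, List.sum_append,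
          ih (fun w hw => hvs w (List.mem_cons_of_mem _ hw))]
        rw [hp V hV V' hV' u hu]
        cases hod : G.od u
        · rw [List.filter_cons_of_neg (by simp [hod])]
          simp
        · rw [List.filter_cons_of_pos hod]
          simp [hval]
    rw [h2 us (fun _ h => h), hos] at h1
    rw [List.map_cons, List.sum_cons, List.map_append, List.sum_append] at h1
    have h5 : ∀ qs : List (U × U), ((qs.flatMap fun p => [p.1, p.2]).map
        fun u => val V u * val V' u).sum = ps (val V) (val V') qs := by
      intro qs
      induction qs with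
      | nil => simp [ps]
      | cons p qs ih =>
        rw [List.flatMap_cons, List.map_append, List.sum_append, ih, ps_cons]
        simp
    rw [hps, h5] at h1
    simp only [List.map_cons, List.map_nil, List.sum_cons, List.sum_nil, add_zero] at h1
    linear_combination h1
  obtain ⟨t, ht1, ht2⟩ := switch (fun v : U → B => v r) (fun v : U → B => v l) ps'
    (val '' F) (by
      rintro _ ⟨V, hV, rfl⟩ _ ⟨V', hV', rfl⟩
      exact hiso V hV V' hV')
  -- the states
  have hlen : (us.filter G.od).length = ((true :: ((t.flatMap fun p => [!p.1, p.1]) ++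
      [true] : List Bool))).length := by
    rw [hos, hps, ← ht1]
    simp only [List.length_cons, List.length_append, List.length_flatMap, List.length_nil]
    rw [List.map_map]
    rfl
  obtain ⟨st, hst⟩ := exists_fun (hn.filter _) hlen ⟨true⟩
  rw [hos, List.map_cons, List.map_append, hps, ← ht1] at hst
  simp only [List.cons.injEq, List.map_cons, List.map_nil] at hst
  obtain ⟨hl, hst⟩ := hst
  have hst' := List.append_inj' hst (by simp)
  obtain ⟨hst1, hst2⟩ := hst'
  have hr : st r = true := by simpa using hst2
  have hpairs : ∀ q : List (Bool × U × U),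
      ((q.map Prod.snd).flatMap fun p => [p.1, p.2]).map st = (q.flatMap fun p => [!p.1, p.1]) →
      (Alt st ((q.map Prod.snd).flatMap fun p => [p.1, p.2])) ∧
      ∀ v : U → B, ((q.map Prod.snd).flatMap fun p => [p.1, p.2]).map (fun u => (st u, v u)) =
        q.flatMap fun p => [(!p.1, v p.2.1), (p.1, v p.2.2)] := by
    intro q
    induction q with
    | nil => intro _; exact ⟨Alt.nil, fun v => rfl⟩
    | cons p q ih =>
      obtain ⟨b, a, a'⟩ := p
      intro h
      simp only [List.map_cons, List.flatMap_cons, List.cons_append, List.nil_append,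
        List.cons.injEq] at h
      obtain ⟨h1, h2, h3⟩ := h
      obtain ⟨h4, h5⟩ := ih h3
      refine ⟨?_, ?_⟩
      · simp only [List.map_cons, List.flatMap_cons, List.cons_append, List.nil_append]
        exact Alt.cons (by rw [h1, h2, Bool.not_not]) h4
      · intro v
        simp only [List.map_cons, List.flatMap_cons, List.cons_append, List.nil_append, h1, h2]
        rw [h5 v]
  obtain ⟨halt, hword⟩ := hpairs t hst1
  refine ⟨st, hl, hr, ?_, ?_⟩
  · rw [hps, ← ht1]; exact halt
  · rintro V hV ⟨S, hS, hd⟩
    have hcV : ∀ u ∈ us, ∀ S S', Run (G.wd V st u) S S' → ∀ x ∈ G.toks u, V x = val V u :=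
      fun u hu S S' h => hc V hV u hu (st u) S S' h
    have h1 := G.run_odd hg hcV hS
    rw [hos, List.map_cons, List.map_append, hps, ← ht1, hword (val V), hl] at h1
    simp only [List.map_cons, List.map_nil, hr] at h1
    obtain ⟨h2, h3⟩ := run_chain h1 hd
    obtain ⟨h4, h5⟩ := ht2 (val V) ⟨V, hV, rfl⟩ h3
    have h6 : ∀ u ∈ us, G.od u = true → val V u = val V l := by
      intro u hu ho
      have h7 : u ∈ us.filter G.od := List.mem_filter.2 ⟨hu, ho⟩
      rw [hos] at h7
      rcases List.mem_cons.1 h7 with rfl | h7
      · rfl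
      rcases List.mem_append.1 h7 with h7 | h7
      · rw [hps] at h7
        obtain ⟨p, hp, hp'⟩ := List.mem_flatMap.1 h7
        obtain ⟨h8, h9⟩ := h4 p hp
        simp only [List.mem_cons, List.not_mem_nil, or_false] at hp'
        rcases hp' with rfl | rfl
        · exact h8
        · exact h9
      · simp only [List.mem_cons, List.not_mem_nil, or_false] at h7
        rw [h7]
        exact h5
    have h7 := G.run_even hg hcV h6 h2 hS
    intro x hx y hy
    obtain ⟨u, hu, hxu⟩ := List.mem_flatMap.1 hx
    obtain ⟨w, hw, hyw⟩ := List.mem_flatMap.1 hy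
    rw [(h7 u hu).2 x hxu, (h7 w hw).2 y hyw]

end Sig

end Pool.Agent.MP42.U
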