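import Pool.Agent.MP42.U.Drp

/-!
# The actual words: tokens, heights, partial sums, letters
-/

set_option autoImplicit false

namespace Pool.Agent.MP42.U

variable {T : Type*}

/-- the present letters -/
abbrev fl (pr : T → Bool) (w : List (Bool × T)) : List (Bool × T) := w.filter fun q => pr q.2

lemma fl_append (pr : T → Bool) (w w' : List (Bool × T)) :
    fl pr (w ++ w') = fl pr w ++ fl pr w' := List.filter_append ..

lemma fl_pos {pr : T → Bool} {q : Bool × T} (h : pr q.2 = true) (w : List (Bool × T)) :
    fl pr (q :: w) = q :: fl pr w := List.filter_cons_of_pos h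

lemma fl_neg {pr : T → Bool} {q : Bool × T} (h : pr q.2 = false) (w : List (Bool × T)) :
    fl pr (q :: w) = fl pr w := List.filter_cons_of_neg (by simp [h])

lemma fl_snd (pr : T → Bool) (w : List (Bool × T)) :
    (fl pr w).map Prod.snd = (w.map Prod.snd).filter pr := by
  rw [List.filter_map]
  rfl

/-- partial sums and total height -/
def PH (d e h : ℤ) (w : List (Bool × T)) : Prop := Par d e w ∧ hl w = h

lemma PH.mono {d e h d' e' : ℤ} {w : List (Bool × T)} (H : PH d e h w) (hd : d ≤ d')
    (he : e ≤ e') : PH d' e' h w := ⟨H.1.mono hd he, H.2⟩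

lemma PH.append {d e h d' e' h' D E k : ℤ} {w w' : List (Bool × T)} (H : PH d e h w)
    (H' : PH d' e' h' w') (h1 : d ≤ D) (h2 : e ≤ E) (h3 : d' - h ≤ D) (h4 : h + e' ≤ E)
    (h5 : h + h' = k) : PH D E k (w ++ w') :=
  ⟨par_append H.1 H'.1 h1 h2 (by rw [H.2]; exact h3) (by rw [H.2]; exact h4),
    by rw [hl_append, H.2, H'.2, h5]⟩

lemma PH.nil : PH (T := T) 0 0 0 [] := ⟨par_nil le_rfl le_rfl, rfl⟩

lemma PH.pop (t : T) : PH 0 1 1 [(true, t)] :=
  ⟨par_single le_rfl (by norm_num) (by norm_num) (by norm_num), by simp⟩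

lemma PH.push (t : T) : PH 1 0 (-1) [(false, t)] :=
  ⟨par_single (by norm_num) le_rfl (by norm_num) (by norm_num), by simp⟩

lemma PH.up {pr : T → Bool} {m : List (T × T)} (h : ∀ p ∈ m, pr p.1 = pr p.2) :
    PH 0 1 0 (fl pr (U.up m)) := by
  induction m with
  | nil => exact PH.nil.mono le_rfl (by norm_num)
  | cons p m ih =>
    have h1 := h p List.mem_cons_self
    have h2 := ih fun q hq => h q (List.mem_cons_of_mem _ hq)
    rw [up_cons]
    cases hp : pr p.1
    · rw [fl_neg hp, fl_neg (by rw [← h1]; exact hp)]
      exact h2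
    · rw [fl_pos hp, fl_pos (by rw [← h1]; exact hp)]
      exact (PH.pop p.1).append ((PH.push p.2).append h2 (D := 1) (E := 0) (k := -1) (by norm_num)
        (by norm_num) (by norm_num) (by norm_num) (by norm_num)) (by norm_num) (by norm_num)
        (by norm_num) (by norm_num) (by norm_num)

/-- a list of pieces -/
lemma par_flat {α : Type*} {f : α → List (Bool × T)} {d e a b : ℤ} : ∀ {l : List α} {c : ℤ},
    (∀ x ∈ l, Par d e (f x)) →
    (∀ l₁ l₂, l = l₁ ++ l₂ → a ≤ c + hl (l₁.flatMap f) ∧ c + hl (l₁.flatMap f) ≤ b) →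
    0 ≤ d → 0 ≤ e →
    ∀ w₁ w₂, l.flatMap f = w₁ ++ w₂ → a - d ≤ c + hl w₁ ∧ c + hl w₁ ≤ b + e := by
  intro l
  induction l with
  | nil =>
    intro c _ h2 hd he w₁ w₂ hw
    have h3 : w₁ = [] := (List.append_eq_nil_iff.1 hw.symm).1
    have h4 := h2 [] [] rfl
    rw [h3]
    simp only [List.flatMap_nil, hl_nil] at h4 ⊢
    omega
  | cons x l ih =>
    intro c h1 h2 hd he w₁ w₂ hw
    rw [List.flatMap_cons] at hw
    have h0 := h2 [] (x :: l) rfl
    simp only [List.flatMap_nil, hl_nil] at h0
    rcases List.append_eq_append_iff.1 hw with ⟨q, h5, h6⟩ | ⟨q, h5, h6⟩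
    · have h7 := ih (c := c + hl (f x)) (fun y hy => h1 y (List.mem_cons_of_mem _ hy)) (by
        intro l₁ l₂ hl'
        have h8 := h2 (x :: l₁) l₂ (by rw [hl']; rfl)
        rw [List.flatMap_cons, hl_append] at h8
        omega) hd he q w₂ h6
      rw [h5, hl_append]
      omega
    · have h7 := h1 x List.mem_cons_self w₁ q h5
      omega

lemma PH.flat {α : Type*} {f : α → List (Bool × T)} {d e a b k : ℤ} {l : List α}
    (h1 : ∀ x ∈ l, Par d e (f x))
    (h2 : ∀ l₁ l₂, l = l₁ ++ l₂ → a ≤ hl (l₁.flatMap f) ∧ hl (l₁.flatMap f) ≤ b)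
    (hd : 0 ≤ d) (he : 0 ≤ e) (hk : hl (l.flatMap f) = k) : PH (d - a) (b + e) k (l.flatMap f) := by
  refine ⟨?_, hk⟩
  intro w₁ w₂ hw
  have := par_flat (c := 0) h1 (by simpa using h2) hd he w₁ w₂ hw
  omega

/-- the items -/
lemma PH.rd {pr : T → Bool} {m : List (Itm T)} (h : ∀ p ∈ m.flatMap Itm.evs, pr p.1 = pr p.2)
    (hb : ∀ t x m', Itm.br t x m' ∈ m → pr t = true ∧ pr x = true) :
    PH 1 1 0 (fl pr (m.flatMap Itm.rd)) := by
  induction m with
  | nil => exact PH.nil.mono (by norm_num) (by norm_num)
  | cons i m ih =>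
    have h1 := ih (fun p hp => h p (by
      rw [List.flatMap_cons]; exact List.mem_append_right _ hp))
      (fun t x m' hi => hb t x m' (List.mem_cons_of_mem _ hi))
    rw [List.flatMap_cons, fl_append]
    have h2 : PH 1 1 0 (fl pr i.rd) := by
      have h3 : ∀ p ∈ i.evs, pr p.1 = pr p.2 := fun p hp => h p (by
        rw [List.flatMap_cons]; exact List.mem_append_left _ hp)
      cases i with
      | re a b =>
        have := PH.up (pr := pr) (m := [(a, b)]) h3
        exact this.mono (by norm_num) (by norm_num)
      | la a b =>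
        have := PH.up (pr := pr) (m := [(a, b)]) h3
        exact this.mono (by norm_num) (by norm_num)
      | br t x m' =>
        obtain ⟨h4, h5⟩ := hb t x m' List.mem_cons_self
        have e1 : (Itm.br t x m').rd = (false, t) :: (U.up m' ++ [(true, x)]) := rfl
        rw [e1, fl_pos h4, fl_append, fl_pos h5]
        exact (PH.push t).append ((PH.up h3).append (PH.pop x) (D := 0) (E := 1) (k := 1)
          (by norm_num) (by norm_num) (by norm_num) (by norm_num) (by norm_num))
          (by norm_num) (by norm_num) (by norm_num) (by norm_num) (by norm_num)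
    exact h2.append h1 (by norm_num) (by norm_num) (by norm_num) (by norm_num) (by norm_num)

/-- the tokens of a unit which are not tokens of an even child -/
def BU.core : BU T → List T
  | BU.fr t => [t]
  | BU.fx t => [t]
  | BU.ev _ _ => []
  | BU.br t x _ => [t, x]
  | BU.gu _ t => [t]
  | BU.gv t _ => [t]

lemma PH.unit {pr : T → Bool} {u : BU T} (hp : u.plain) (h : ∀ p ∈ u.evs, pr p.1 = pr p.2)
    (hc : ∀ t ∈ u.core, pr t = true) (b : Bool) :
    PH 1 1 (if u.kind = Kind.odd then (if b then 1 else -1) else 0) (fl pr (u.lts b)) := by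
  cases u with
  | fr t =>
    have h1 : pr t = true := hc t (by simp [BU.core])
    have e1 : fl pr ((BU.fr t).lts b) = [(b, t)] := fl_pos h1 []
    rw [e1]
    cases b
    · exact (PH.push t).mono (by norm_num) (by norm_num)
    · exact (PH.pop t).mono (by norm_num) (by norm_num)
  | fx t =>
    have h1 : pr t = true := hc t (by simp [BU.core])
    have e1 : fl pr ((BU.fx t).lts b) = [(b, t)] := fl_pos h1 []
    rw [e1]
    cases b
    · exact (PH.push t).mono (by norm_num) (by norm_num)
    · exact (PH.pop t).mono (by norm_num) (by norm_num)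
  | ev a c =>
    have := PH.up (pr := pr) (m := [(a, c)]) h
    exact this.mono (by norm_num) (by norm_num)
  | br t x m =>
    have h4 : pr t = true := hc t (by simp [BU.core])
    have h5 : pr x = true := hc x (by simp [BU.core])
    have e1 : (BU.br t x m).lts b = (false, t) :: (U.up m ++ [(true, x)]) := rfl
    rw [e1, fl_pos h4, fl_append, fl_pos h5]
    exact (PH.push t).append ((PH.up h).append (PH.pop x) (D := 0) (E := 1) (k := 1)
      (by norm_num) (by norm_num) (by norm_num) (by norm_num) (by norm_num))
      (by norm_num) (by norm_num) (by norm_num) (by norm_num) (by simp [BU.kind])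
  | gu m t => exact hp.elim
  | gv t m => exact hp.elim

lemma PH.units {pr s : T → Bool} {us : List (BU T)} {a b : ℤ} (hp : ∀ u ∈ us, u.plain)
    (h : ∀ u ∈ us, ∀ p ∈ u.evs, pr p.1 = pr p.2) (hc : ∀ u ∈ us, ∀ t ∈ u.core, pr t = true)
    (hb : Bd (BU.sg s) a b (us.filter BU.od)) :
    PH (1 - a) (b + 1) (hs (BU.sg s) (us.filter BU.od)) (fl pr (BU.word (BU.sg s) us)) := by
  have e0 : ∀ l : List (BU T), fl pr (BU.word (BU.sg s) l) =
      l.flatMap fun u => fl pr (u.lts (BU.sg s u)) := by
    intro l
    induction l with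
    | nil => rfl
    | cons u l ih => rw [BU.word_cons, fl_append, ih, List.flatMap_cons]
  have hh : ∀ l : List (BU T), (∀ u ∈ l, u ∈ us) →
      hl (l.flatMap fun u => fl pr (u.lts (BU.sg s u))) = hs (BU.sg s) (l.filter BU.od) := by
    intro l
    induction l with
    | nil => intro _; rfl
    | cons u l ih =>
      intro hl'
      have hu := hl' u List.mem_cons_self
      rw [List.flatMap_cons, hl_append, ih fun w hw => hl' w (List.mem_cons_of_mem _ hw),
        (PH.unit (hp u hu) (h u hu) (hc u hu) _).2]
      by_cases hk : u.kind = Kind.odd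
      · rw [List.filter_cons_of_pos (BU.od_iff.2 hk), hs_cons, if_pos hk]
      · rw [List.filter_cons_of_neg (by rw [BU.od_false.2 hk]; decide), if_neg hk, zero_add]
  rw [e0]
  refine PH.flat (fun u hu => (PH.unit (hp u hu) (h u hu) (hc u hu) _).1) ?_ (by norm_num)
    (by norm_num) (hh us fun u hu => hu)
  intro l₁ l₂ hl'
  rw [hh l₁ fun u hu => by rw [hl']; exact List.mem_append_left _ hu]
  refine hb _ (l₂.filter BU.od) ?_
  rw [hl', List.filter_append]

/-- actual word of a group with present free token -/
lemma PH.group {pr : T → Bool} {g : List (Itm T) × T}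
    (h : ∀ p ∈ g.1.flatMap Itm.evs, pr p.1 = pr p.2)
    (hb : ∀ t x m', Itm.br t x m' ∈ g.1 → pr t = true ∧ pr x = true) (ht : pr g.2 = true)
    (b : Bool) : PH 3 1 (if b then 1 else -1) (gact pr b g) := by
  cases b
  · have h12 : ∀ i, i ∈ g.1 ↔ i ∈ hd1 pr g.1 ∨ i ∈ hd2 pr g.1 := by
      intro i
      rw [← List.mem_append, hd_append]
    have hev : ∀ m : List (Itm T), (∀ i ∈ m, i ∈ g.1) → PH 1 1 0 (fl pr (m.flatMap Itm.rd)) := by
      intro m hm
      refine PH.rd ?_ fun t x m' hi => hb t x m' (hm _ hi)
      intro p hp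
      obtain ⟨i, hi, hp⟩ := List.mem_flatMap.1 hp
      exact h p (List.mem_flatMap.2 ⟨i, hm i hi, hp⟩)
    rcases h2 : hd2 pr g.1 with _ | ⟨i, m⟩
    · have e1 : gact pr false g = fl pr (g.1.flatMap Itm.rd) ++ [(false, g.2)] := by
        unfold gact
        simp only [h2, ht]
        rfl
      rw [e1]
      exact (hev g.1 fun i hi => hi).append (PH.push _) (by norm_num) (by norm_num) (by norm_num)
        (by norm_num) (by norm_num)
    · have e1 : gact pr false g = fl pr ((hd1 pr g.1).flatMap Itm.rd) ++ (i.nn ++
          (fl pr (m.flatMap Itm.rd) ++ [(true, g.2)])) := by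
        unfold gact
        simp only [h2]
        rfl
      have hi : i.isP pr = true := by
        have h4 : (g.1.dropWhile fun i => !(i.isP pr)) = i :: m := h2
        have h5 := List.head?_dropWhile_not (fun i : Itm T => !(i.isP pr)) g.1
        rw [h4] at h5
        simpa using h5
      have hn : PH 2 0 (-2) i.nn := by
        cases i with
        | re a b =>
          exact (PH.push a).append (PH.push b) (by norm_num) (by norm_num) (by norm_num)
            (by norm_num) (by norm_num)
        | la a b => simp [Itm.isP] at hi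
        | br t x m' => simp [Itm.isP] at hi
      rw [e1]
      refine (hev _ fun j hj => (h12 j).2 (Or.inl hj)).append (hn.append ((hev m fun j hj =>
        (h12 j).2 (Or.inr (by rw [h2]; exact List.mem_cons_of_mem _ hj))).append (PH.pop _)
          (D := 1) (E := 1) (k := 1) ?_ ?_ ?_ ?_ ?_) (D := 3) (E := 0) (k := -1) ?_ ?_ ?_ ?_ ?_)
          ?_ ?_ ?_ ?_ ?_ <;> norm_num
  · have e1 : gact pr true g = fl pr (g.1.flatMap Itm.rd) ++ [(true, g.2)] := rfl
    rw [e1]
    exact (PH.rd h hb).append (PH.pop _) (by norm_num) (by norm_num) (by norm_num)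
      (by norm_num) (by norm_num)

/-- the tokens of the actual word of a group -/
lemma gact_snd {pr : T → Bool} {g : List (Itm T) × T}
    (h : ∀ p ∈ g.1.flatMap Itm.evs, pr p.1 = pr p.2) {b : Bool} (hb : b = true → pr g.2 = true)
    (hr : hd2 pr g.1 ≠ [] → pr g.2 = true) :
    (gact pr b g).map Prod.snd = (g.1.flatMap Itm.tks ++ [g.2]).filter pr := by
  cases b
  · rcases h2 : hd2 pr g.1 with _ | ⟨i, m⟩
    · have e1 : gact pr false g = fl pr (g.1.flatMap Itm.rd) ++
          (if pr g.2 then [(false, g.2)] else []) := by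
        unfold gact
        simp only [h2]
        rfl
      rw [e1, List.map_append, fl_snd, rd_snd, List.filter_append]
      congr 1
      cases h3 : pr g.2
      · rw [List.filter_cons_of_neg (by simp [h3])]; rfl
      · rw [List.filter_cons_of_pos (by simp [h3])]; rfl
    · have ht : pr g.2 = true := hr (by rw [h2]; simp)
      have e1 : gact pr false g = fl pr ((hd1 pr g.1).flatMap Itm.rd) ++ (i.nn ++
          (fl pr (m.flatMap Itm.rd) ++ [(true, g.2)])) := by
        unfold gact
        simp only [h2]
        rfl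
      have hi : i.isP pr = true := by
        have h4 : (g.1.dropWhile fun i => !(i.isP pr)) = i :: m := h2
        have h5 := List.head?_dropWhile_not (fun i : Itm T => !(i.isP pr)) g.1
        rw [h4] at h5
        simpa using h5
      have hig : i ∈ g.1 := by
        rw [← hd_append pr g.1, h2]
        simp
      have e2 : i.nn.map Prod.snd = i.tks.filter pr := by
        cases i with
        | re a b =>
          have h5 : pr a = true := hi
          have h6 : pr a = pr b := h (a, b) (List.mem_flatMap.2 ⟨_, hig, by simp [Itm.evs]⟩)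
          have h7 : pr b = true := by rw [← h6, h5]
          simp [Itm.nn, Itm.tks, h5, h7]
        | la a b => simp [Itm.isP] at hi
        | br t x m' => simp [Itm.isP] at hi
      have e3 : g.1.flatMap Itm.tks = (hd1 pr g.1).flatMap Itm.tks ++
          (i.tks ++ m.flatMap Itm.tks) := by
        conv_lhs => rw [← hd_append pr g.1, h2]
        simp
      rw [e1, List.map_append, List.map_append, List.map_append, fl_snd, rd_snd, fl_snd, rd_snd,
        e2, e3]
      simp [ht]
  · have e1 : gact pr true g = fl pr (g.1.flatMap Itm.rd) ++ [(true, g.2)] := rfl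
    rw [e1, List.map_append, fl_snd, rd_snd, List.filter_append,
      List.filter_cons_of_pos (hb rfl)]
    rfl

lemma PH.groups {pr s : T → Bool} {gs : List (List (Itm T) × T)} {a b : ℤ}
    (h : ∀ g ∈ gs, ∀ p ∈ g.1.flatMap Itm.evs, pr p.1 = pr p.2)
    (hb : ∀ g ∈ gs, ∀ t x m', Itm.br t x m' ∈ g.1 → pr t = true ∧ pr x = true)
    (ht : ∀ g ∈ gs, pr g.2 = true) (hB : Bd (BU.sg s) a b (gs.map Circ.gtk)) :
    PH (3 - a) (b + 1) (hs (BU.sg s) (gs.map Circ.gtk))
      (gs.flatMap fun g => gact pr (s g.2) g) := by
  have hh : ∀ l : List (List (Itm T) × T), (∀ g ∈ l, g ∈ gs) →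
      hl (l.flatMap fun g => gact pr (s g.2) g) = hs (BU.sg s) (l.map Circ.gtk) := by
    intro l
    induction l with
    | nil => intro _; rfl
    | cons g l ih =>
      intro hl'
      have hg := hl' g List.mem_cons_self
      rw [List.flatMap_cons, hl_append, ih fun w hw => hl' w (List.mem_cons_of_mem _ hw),
        (PH.group (h g hg) (hb g hg) (ht g hg) (s g.2)).2, List.map_cons, hs_cons]
      rfl
  refine PH.flat (fun g hg => (PH.group (h g hg) (hb g hg) (ht g hg) (s g.2)).1) ?_ (by norm_num)
    (by norm_num) (hh gs fun g hg => hg)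
  intro l₁ l₂ hl'
  rw [hh l₁ fun g hg => by rw [hl']; exact List.mem_append_left _ hg]
  refine hB _ (l₂.map Circ.gtk) ?_
  rw [hl', List.map_append]

lemma BU.core_tks {u : BU T} {t : T} (h : t ∈ u.core) : t ∈ u.tks := by
  cases u <;> simp [BU.core, BU.tks] at h ⊢ <;> tauto

lemma BU.unit_eq {us : List (BU T)} (hn : (us.flatMap BU.tks).Nodup) {u w : BU T} (hu : u ∈ us)
    (hw : w ∈ us) {t : T} (h : t ∈ u.tks) (h' : t ∈ w.tks) : u = w := by
  induction us with
  | nil => simp at hu
  | cons v us ih =>
    rw [List.flatMap_cons, List.nodup_append] at hn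
    obtain ⟨h1, h2, h3⟩ := hn
    rcases List.mem_cons.1 hu with e1 | hu' <;> rcases List.mem_cons.1 hw with e2 | hw'
    · rw [e1, e2]
    · rw [e1] at h
      exact absurd rfl (h3 _ h _ (List.mem_flatMap.2 ⟨w, hw', h'⟩))
    · rw [e2] at h'
      exact absurd rfl (h3 _ h' _ (List.mem_flatMap.2 ⟨u, hu', h⟩))
    · exact ih h2 hu' hw'

namespace Circ

/-- the presence of the tokens of a circle -/
structure Pc (c : Circ T) (pr s : T → Bool) : Prop where
  ev : ∀ p ∈ c.evs, pr p.1 = pr p.2
  md : ∀ u ∈ c.pus, ∀ t ∈ u.core, t ≠ c.l → (∀ r, c.r = some r → t ≠ r) → pr t = true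
  ow : ∀ t, (t = c.l ∨ c.r = some t) →
    (pr t = false ↔ c.isGp = false ∧ c.isDr pr s = true)

lemma Pc.core {c : Circ T} {pr s : T → Bool} (h : c.Pc pr s)
    (hd : ¬ (c.isGp = false ∧ c.isDr pr s = true)) : ∀ u ∈ c.pus, ∀ t ∈ u.core, pr t = true := by
  intro u hu t ht
  by_cases h1 : t = c.l ∨ c.r = some t
  · have := h.ow t h1
    cases h2 : pr t
    · exact absurd (this.1 h2) hd
    · rfl
  · push Not at h1
    exact h.md u hu t ht h1.1 fun r hr h2 => h1.2 (by rw [hr, h2])

lemma pus_nodup {c : Circ T} (hn : c.tks.Nodup) : (c.pus.flatMap BU.tks).Nodup :=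
  (List.nodup_append.1 (c.tks_perm.nodup_iff.1 hn)).1

lemma Bd.tail {U : Type*} {st : U → Bool} {a b : ℤ} {x : U} {t : List U} (h : Bd st a b (x :: t))
    (k : ℤ) (hk : (if st x then 1 else -1) = k) : Bd st (a - k) (b - k) t := by
  intro t₁ t₂ e
  have := h (x :: t₁) t₂ (by rw [e]; rfl)
  rw [hs_cons, hk] at this
  omega

/-- **the actual word: tokens, height, partial sums** -/
theorem act_ok {c : Circ T} {pr s : T → Bool} (hw : c.WS) (hn : c.tks.Nodup) (hC : c.CC s)
    (hs' : s c.l = true) (hP : c.Pc pr s) :
    PH 4 4 2 (c.act pr s) ∧ (c.act pr s).map Prod.snd = c.tks.filter pr := by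
  cases c with
  | pl l r us =>
    have hpl := hw.pl l r us rfl
    have e1 : (Circ.pl l r us).act pr s = fl pr (BU.word (BU.sg s) us) := rfl
    rw [e1]
    refine ⟨?_, by rw [fl_snd, BU.word_snd _ hpl]; rfl⟩
    have hev : ∀ u ∈ us, ∀ p ∈ u.evs, pr p.1 = pr p.2 := fun u hu p hp =>
      hP.ev p (List.mem_flatMap.2 ⟨u, hu, hp⟩)
    by_cases hd : (Circ.pl l r us).isGp = false ∧ (Circ.pl l r us).isDr pr s = true
    · obtain ⟨-, hd'⟩ := hd
      obtain ⟨us', h1, h2⟩ := hw.opl l r us rfl
      rcases r with _ | r
      · simp [isDr, Circ.r] at hd'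
      obtain ⟨us'', h3⟩ := h2 r rfl
      have hsr : s r = false := by
        simp only [isDr, Circ.r, Bool.and_eq_true, Bool.not_eq_true'] at hd'
        exact hd'.1
      have pl' : pr l = false := (hP.ow l (Or.inl rfl)).2 ⟨rfl, hd'⟩
      have pr' : pr r = false := (hP.ow r (Or.inr rfl)).2 ⟨rfl, hd'⟩
      have e2 : fl pr (BU.word (BU.sg s) us) = fl pr (BU.word (BU.sg s) us'') := by
        rw [h1, h3, BU.word_cons, BU.word_append, BU.word_cons, BU.word_nil]
        have e3 : (BU.fx l : BU T).lts (BU.sg s (BU.fx l)) = [(BU.sg s (BU.fx l), l)] := rfl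
        have e4 : (BU.fr r : BU T).lts (BU.sg s (BU.fr r)) = [(BU.sg s (BU.fr r), r)] := rfl
        rw [e3, e4, fl_append, fl_append, fl_neg pl', List.append_nil, fl_neg pr']
        simp
      rw [e2]
      have hus : ∀ u ∈ us'', u ∈ us := by
        intro u hu
        rw [h1, h3]; simp [hu]
      have hnu : (us.flatMap BU.tks).Nodup := hn
      have hod : us.filter BU.od = BU.fx l :: (us''.filter BU.od ++ [BU.fr r]) := by
        rw [h1, h3, List.filter_cons_of_pos (by rfl), List.filter_append]
        rfl
      have hB : Bd (BU.sg s) 0 3 (us.filter BU.od) := hC.bd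
      have htot : hs (BU.sg s) (us.filter BU.od) = 2 := hC.tot
      rw [hod] at hB htot
      have k1 : BU.sg s (BU.fx l) = true := hs'
      have k2 : BU.sg s (BU.fr r) = false := hsr
      rw [hs_cons, hs_append, hs_cons, hs_nil, k1, k2] at htot
      have hB2 : Bd (BU.sg s) (-1) 2 (us''.filter BU.od) := by
        have := Bd.tail hB 1 (by rw [k1]; rfl)
        intro t₁ t₂ e
        have h4 := this t₁ (t₂ ++ [BU.fr r]) (by rw [e, List.append_assoc])
        omega
      have h5 := PH.units (pr := pr) (s := s) (us := us'') (a := -1) (b := 2)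
        (fun u hu => hpl u (hus u hu)) (fun u hu => hev u (hus u hu)) (by
          intro u hu t ht
          refine hP.md u (hus u hu) t ht ?_ ?_
          · rintro h6
            have h7 : u = BU.fx l := BU.unit_eq hnu (hus u hu) (by rw [h1]; simp)
              (BU.core_tks ht) (by rw [h6]; simp [BU.tks, Circ.l])
            rw [h1, List.flatMap_cons, List.nodup_append] at hnu
            refine hnu.2.2 l (by simp [BU.tks]) l ?_ rfl
            rw [h3, List.flatMap_append]
            exact List.mem_append_left _ (List.mem_flatMap.2 ⟨u, hu, by rw [h7]; simp [BU.tks]⟩)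
          · intro r' hr' h6
            have hrr : r = r' := by simpa [Circ.r] using hr'
            rw [h6, ← hrr] at ht
            rw [h1, h3, List.flatMap_cons, List.flatMap_append, List.nodup_append] at hnu
            refine (List.nodup_append.1 hnu.2.1).2.2 r (List.mem_flatMap.2 ⟨u, hu,
              BU.core_tks ht⟩) r ?_ rfl
            simp [BU.tks]) hB2
      have h6 : hs (BU.sg s) (us''.filter BU.od) = 2 := by
        simp at htot
        linarith
      rw [h6] at h5
      exact h5.mono (by norm_num) (by norm_num)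
    · have h5 := PH.units (pr := pr) (s := s) (us := us) (a := 0) (b := 3) hpl hev
        (fun u hu => hP.core hd u hu) hC.bd
      have h6 : hs (BU.sg s) (us.filter BU.od) = 2 := hC.tot
      rw [h6] at h5
      exact h5.mono (by norm_num) (by norm_num)
  | gp l us t g r =>
    have hpl := hw.gp l us t g r rfl
    have hcore := hP.core (by simp [isGp])
    have hus : ∀ u ∈ us, u ∈ (Circ.gp l us t g r).pus := fun u hu => List.mem_append_left _ hu
    have hev : ∀ u ∈ us, ∀ p ∈ u.evs, pr p.1 = pr p.2 := fun u hu p hp =>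
      hP.ev p (List.mem_append_left _ (List.mem_flatMap.2 ⟨u, hu, hp⟩))
    have hgev : ∀ p ∈ g.flatMap Itm.evs, pr p.1 = pr p.2 := fun p hp =>
      hP.ev p (List.mem_append_right _ hp)
    have hgb : ∀ t' x m', Itm.br t' x m' ∈ g → pr t' = true ∧ pr x = true := by
      intro t' x m' hi
      have h1 : BU.br t' x m' ∈ (Circ.gp l us t g r).pus := by
        refine List.mem_append_right _ (List.mem_append_left _ (List.mem_flatMap.2 ⟨_, hi, ?_⟩))
        simp [Itm.brp]
      exact ⟨hcore _ h1 t' (by simp [BU.core]), hcore _ h1 x (by simp [BU.core])⟩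
    have ht : pr t = true := hcore (BU.gv t (g.flatMap Itm.pairs)) (by simp [pus]) t
      (by simp [BU.core])
    have hr : pr r = true := hcore (BU.fr r) (by simp [pus]) r (by simp [BU.core])
    have e1 : (Circ.gp l us t g r).act pr s = fl pr (BU.word (BU.sg s) us) ++ ([(false, t)] ++
        (fl pr (g.flatMap Itm.rd) ++ [(true, r)])) := by
      have e2 : (Circ.gp l us t g r).act pr s = fl pr (BU.word (BU.sg s) us ++
        ((false, t) :: (g.flatMap Itm.rd ++ [(true, r)]))) := rfl
      rw [e2, fl_append, fl_pos ht, fl_append, fl_pos hr]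
      rfl
    rw [e1]
    have hod : (Circ.gp l us t g r).pus.filter BU.od = us.filter BU.od ++
        [BU.gv t (g.flatMap Itm.pairs), BU.fr r] := by
      unfold pus
      rw [List.filter_append, List.filter_append, od_brs]
      rfl
    have hB : Bd (BU.sg s) 0 3 ((Circ.gp l us t g r).pus.filter BU.od) := hC.bd
    have htot := hC.tot
    rw [hod] at hB htot
    have hst : s t = !(s r) := hC.gp l us t g r rfl
    rw [hs_append, hs_cons, hs_cons, hs_nil] at htot
    have k1 : BU.sg s (BU.gv t (g.flatMap Itm.pairs)) = !(s r) := hst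
    have k2 : BU.sg s (BU.fr r) = s r := rfl
    rw [k1, k2] at htot
    have h6 : hs (BU.sg s) (us.filter BU.od) = 2 := by
      cases hsr : s r <;> rw [hsr] at htot <;> simp at htot <;> linarith
    have h5 := PH.units (pr := pr) (s := s) (us := us) (a := 0) (b := 3) hpl hev
      (fun u hu => hcore u (hus u hu)) (by
        intro t₁ t₂ e
        exact hB t₁ (t₂ ++ [BU.gv t (g.flatMap Itm.pairs), BU.fr r]) (by
          rw [e, List.append_assoc]))
    rw [h6] at h5
    constructor
    · exact h5.append ((PH.push t).append ((PH.rd hgev hgb).append (PH.pop r) (D := 1) (E := 1)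
        (k := 1) (by norm_num) (by norm_num) (by norm_num) (by norm_num) (by norm_num)) (D := 2)
        (E := 1) (k := 0) (by norm_num) (by norm_num) (by norm_num) (by norm_num) (by norm_num))
        (by norm_num) (by norm_num) (by norm_num) (by norm_num) (by norm_num)
    · have e3 : (Circ.gp l us t g r).tks = us.flatMap BU.tks ++
          (t :: (g.flatMap Itm.tks ++ [r])) := rfl
      rw [e3, List.map_append, List.map_append, List.map_append, fl_snd, BU.word_snd _ hpl, fl_snd,
        rd_snd, List.filter_append, List.filter_cons_of_pos ht, List.filter_append,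
        List.filter_cons_of_pos hr]
      rfl
  | fu A =>
    have hw1 := hw.fu A rfl
    obtain ⟨s1, s2, s3⟩ := hC.fu A rfl
    have hnu := pus_nodup hn
    have e0 : (Circ.fu A).pus = BU.fx A.l :: ((BU.fx A.x :: (A.e1 ++ [BU.fx A.X])) ++
      (A.gs.flatMap gpre ++ (A.tl.flatMap Itm.brp ++
        ((A.tl.flatMap Itm.rep).map fun p => BU.ev p.1 p.2)))) := rfl
    have ml : BU.fx A.l ∈ (Circ.fu A).pus := by rw [e0]; simp
    have mx : BU.fx A.x ∈ (Circ.fu A).pus := by rw [e0]; simp
    have mX : BU.fx A.X ∈ (Circ.fu A).pus := by rw [e0]; simp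
    have me : ∀ u ∈ A.e1, u ∈ (Circ.fu A).pus := by
      intro u hu
      rw [e0]; simp [hu]
    have mg : ∀ g ∈ A.gs, gtk g ∈ (Circ.fu A).pus := by
      intro g hg
      rw [e0]
      refine List.mem_cons_of_mem _ (List.mem_append_right _ (List.mem_append_left _
        (List.mem_flatMap.2 ⟨g, hg, ?_⟩)))
      unfold gpre gtk
      simp
    have mgb : ∀ g ∈ A.gs, ∀ t x m', Itm.br t x m' ∈ g.1 →
        BU.br t x m' ∈ (Circ.fu A).pus := by
      intro g hg t x m' hi
      rw [e0]
      refine List.mem_cons_of_mem _ (List.mem_append_right _ (List.mem_append_left _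
        (List.mem_flatMap.2 ⟨g, hg, ?_⟩)))
      unfold gpre
      exact List.mem_append_left _ (List.mem_flatMap.2 ⟨_, hi, by simp [Itm.brp]⟩)
    have mtb : ∀ t x m', Itm.br t x m' ∈ A.tl → BU.br t x m' ∈ (Circ.fu A).pus := by
      intro t x m' hi
      rw [e0]
      exact List.mem_cons_of_mem _ (List.mem_append_right _ (List.mem_append_right _
        (List.mem_append_left _ (List.mem_flatMap.2 ⟨_, hi, by simp [Itm.brp]⟩))))
    have hev1 : ∀ u ∈ A.e1, ∀ p ∈ u.evs, pr p.1 = pr p.2 := fun u hu p hp =>
      hP.ev p (List.mem_append_left _ (List.mem_flatMap.2 ⟨u, hu, hp⟩))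
    have hevg : ∀ g ∈ A.gs, ∀ p ∈ g.1.flatMap Itm.evs, pr p.1 = pr p.2 := fun g hg p hp =>
      hP.ev p (List.mem_append_right _ (List.mem_append_left _ (List.mem_flatMap.2 ⟨g, hg, hp⟩)))
    have hevt : ∀ p ∈ A.tl.flatMap Itm.evs, pr p.1 = pr p.2 := fun p hp =>
      hP.ev p (List.mem_append_right _ (List.mem_append_right _ hp))
    have e1 : (Circ.fu A).act pr s = fl pr [(true, A.l)] ++ ([(true, A.x)] ++
      (fl pr (BU.word (BU.sg s) A.e1) ++ ([(true, A.X)] ++
      ((A.gs.flatMap fun g => gact pr (s g.2) g) ++ fl pr (A.tl.flatMap Itm.rd))))) := rfl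
    have e2 : (Circ.fu A).tks = [A.l] ++ ([A.x] ++ (A.e1.flatMap BU.tks ++ ([A.X] ++
        ((A.gs.flatMap fun g => g.1.flatMap Itm.tks ++ [g.2]) ++ A.tl.flatMap Itm.tks)))) := rfl
    have hfilt : (Circ.fu A).pus.filter BU.od =
        BU.fx A.l :: BU.fx A.x :: BU.fx A.X :: A.gs.map gtk := fu_filter hw1
    have hB : Bd (BU.sg s) 0 3 ((Circ.fu A).pus.filter BU.od) := hC.bd
    have htot := hC.tot
    have k1 : BU.sg s (BU.fx A.l) = true := s1
    have k2 : BU.sg s (BU.fx A.x) = true := s2
    have k3 : BU.sg s (BU.fx A.X) = true := s3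
    rw [hfilt] at hB htot
    rw [hs_cons, hs_cons, hs_cons, k1, k2, k3] at htot
    have hB2 := Bd.tail (Bd.tail (Bd.tail hB 1 (by rw [k1]; rfl)) 1 (by rw [k2]; rfl)) 1
      (by rw [k3]; rfl)
    norm_num at hB2
    have hgs : hs (BU.sg s) (A.gs.map gtk) = -1 := by
      simp at htot
      linarith
    have hod : A.e1.filter BU.od = [] := by
      rw [List.filter_eq_nil_iff]
      intro u hu h
      exact (hw1 u hu).2 (BU.od_iff.1 h)
    have hBe : Bd (BU.sg s) 0 0 (A.e1.filter BU.od) := by rw [hod]; exact Bd.nil _
    -- cores which are not own tokens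
    have hcx : pr A.x = true ∧ pr A.X = true ∧ (∀ u ∈ A.e1, ∀ t ∈ u.core, pr t = true) ∧
        (∀ g ∈ A.gs, ∀ t x m', Itm.br t x m' ∈ g.1 → pr t = true ∧ pr x = true) ∧
        ∀ t x m', Itm.br t x m' ∈ A.tl → pr t = true ∧ pr x = true := by
      have key : ∀ u ∈ (Circ.fu A).pus, u ≠ BU.fx A.l → (∀ g ∈ A.gs, u ≠ gtk g) →
          ∀ t ∈ u.core, pr t = true := by
        intro u hu h1 h2 t ht
        refine hP.md u hu t ht ?_ ?_
        · intro h3
          exact h1 (BU.unit_eq hnu hu ml (BU.core_tks ht) (by rw [h3]; simp [BU.tks, Circ.l]))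
        · intro r hr h3
          obtain ⟨-, gs', m, h4⟩ := hw.ofu A rfl r hr
          have h5 : (m, r) ∈ A.gs := by rw [h4]; simp
          exact h2 (m, r) h5 (BU.unit_eq hnu hu (mg _ h5) (BU.core_tks ht) (by
            rw [h3]; simp [gtk, BU.tks]))
      have hne : ∀ t, t ∈ (Circ.fu A).tks.tail → t ≠ A.l := by
        intro t ht h
        have h1 : (Circ.fu A).tks = A.l :: (Circ.fu A).tks.tail := rfl
        rw [h1] at hn
        rw [h] at ht
        exact (List.nodup_cons.1 hn).1 ht
      refine ⟨key _ mx ?_ (by intro g _ h; simp [gtk] at h) _ (by simp [BU.core]),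
        key _ mX ?_ (by intro g _ h; simp [gtk] at h) _ (by simp [BU.core]), ?_, ?_, ?_⟩
      · intro h
        rw [BU.fx.injEq] at h
        refine hne A.x ?_ h
        rw [e2]; simp
      · intro h
        rw [BU.fx.injEq] at h
        refine hne A.X ?_ h
        rw [e2]; simp
      · intro u hu
        refine key u (me u hu) ?_ ?_
        · intro h
          have := (hw1 u hu).2
          rw [h] at this
          simp [BU.kind] at this
        · intro g _ h
          have := (hw1 u hu).2
          rw [h] at this
          simp [gtk, BU.kind] at this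
      · intro g hg t x m' hi
        have h1 := key _ (mgb g hg t x m' hi) (by simp) (by intro g _ h; simp [gtk] at h)
        exact ⟨h1 t (by simp [BU.core]), h1 x (by simp [BU.core])⟩
      · intro t x m' hi
        have h1 := key _ (mtb t x m' hi) (by simp) (by intro g _ h; simp [gtk] at h)
        exact ⟨h1 t (by simp [BU.core]), h1 x (by simp [BU.core])⟩
    obtain ⟨cx, cX, ce, cg, ct⟩ := hcx
    have pe : PH 1 1 0 (fl pr (BU.word (BU.sg s) A.e1)) := by
      have h5 := PH.units (pr := pr) (s := s) (us := A.e1) (a := 0) (b := 0)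
        (fun u hu => (hw1 u hu).1) hev1 ce hBe
      rw [hod, hs_nil] at h5
      exact h5.mono (by norm_num) (by norm_num)
    have pt : PH 1 1 0 (fl pr (A.tl.flatMap Itm.rd)) := PH.rd hevt ct
    have te : (fl pr (BU.word (BU.sg s) A.e1)).map Prod.snd = (A.e1.flatMap BU.tks).filter pr := by
      rw [fl_snd, BU.word_snd _ fun u hu => (hw1 u hu).1]
    have tt : (fl pr (A.tl.flatMap Itm.rd)).map Prod.snd = (A.tl.flatMap Itm.tks).filter pr := by
      rw [fl_snd, rd_snd]
    have tx : ∀ t, pr t = true → [t].filter pr = [t] := fun t h => List.filter_cons_of_pos h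
    by_cases hd : (Circ.fu A).isDr pr s = true
    · rcases hr : A.r with _ | r
      · simp [isDr, Circ.r, hr] at hd
      have hr' : (Circ.fu A).r = some r := hr
      obtain ⟨htl, gs', m, hgs'⟩ := hw.ofu A rfl r hr
      have hd' : s r = false ∧ ∀ p ∈ (Circ.fu A).beads, pr p.1 = false := by
        unfold isDr at hd
        rw [hr'] at hd
        simpa using hd
      have pl' : pr A.l = false := (hP.ow A.l (Or.inl rfl)).2 ⟨rfl, hd⟩
      have pr' : pr r = false := (hP.ow r (Or.inr hr')).2 ⟨rfl, hd⟩
      have hbd : (Circ.fu A).beads = m.flatMap Itm.rep := by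
        unfold beads
        simp [hgs']
      have hh2 : hd2 pr m = [] := by
        unfold hd2
        rw [List.dropWhile_eq_nil_iff]
        intro i hi
        cases i with
        | re a b =>
          have : pr a = false := hd'.2 (a, b) (by
            rw [hbd]; exact List.mem_flatMap.2 ⟨_, hi, by simp [Itm.rep]⟩)
          simp [Itm.isP, this]
        | la a b => rfl
        | br t x m' => rfl
      have el : gact pr (s r) (m, r) = fl pr (m.flatMap Itm.rd) := by
        rw [hd'.1]
        unfold gact
        simp only [hh2, pr']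
        simp
      have mlast : (m, r) ∈ A.gs := by rw [hgs']; simp
      have hgr : ∀ g ∈ gs', pr g.2 = true := by
        intro g hg
        have hgm : g ∈ A.gs := by rw [hgs']; exact List.mem_append_left _ hg
        refine hP.md (gtk g) (mg g hgm) g.2 (by simp [gtk, BU.core]) ?_ ?_
        · intro h
          have h1 : gtk g = BU.fx A.l := BU.unit_eq hnu (mg g hgm) ml (t := g.2)
            (by simp [gtk, BU.tks]) (by rw [h]; simp [BU.tks, Circ.l])
          simp [gtk] at h1
        · intro r' hr'' h
          have hrr : r' = r := by rw [hr'] at hr''; exact (Option.some.inj hr'').symm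
          rw [hrr] at h
          have h2 : (A.gs.flatMap fun g => g.1.flatMap Itm.tks ++ [g.2]).Nodup := by
            have h1 := hn
            rw [e2] at h1
            exact (List.nodup_append.1 (List.nodup_append.1 (List.nodup_append.1
              (List.nodup_append.1 (List.nodup_append.1 h1).2.1).2.1).2.1).2.1).1
          rw [hgs', List.flatMap_append] at h2
          exact (List.nodup_append.1 h2).2.2 g.2 (List.mem_flatMap.2 ⟨g, hg, by simp⟩) r
            (by simp) h
      have pg := PH.groups (pr := pr) (s := s) (gs := gs') (a := -3) (b := 0)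
        (fun g hg => hevg g (by rw [hgs']; exact List.mem_append_left _ hg))
        (fun g hg => cg g (by rw [hgs']; exact List.mem_append_left _ hg)) hgr (by
          intro t₁ t₂ e
          have h4 := hB2 t₁ (t₂ ++ [gtk (m, r)]) (by
            rw [hgs', List.map_append, e]
            simp)
          omega)
      have hgs2 : hs (BU.sg s) (gs'.map gtk) = 0 := by
        rw [hgs', List.map_append, hs_append] at hgs
        have k4 : BU.sg s (gtk (m, r)) = false := hd'.1
        rw [List.map_cons, List.map_nil, hs_cons, hs_nil, k4] at hgs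
        simp at hgs
        linarith
      rw [hgs2] at pg
      have pm : PH 1 1 0 (fl pr (m.flatMap Itm.rd)) := PH.rd (hevg _ mlast) (cg _ mlast)
      have e3 : (A.gs.flatMap fun g => gact pr (s g.2) g) =
          (gs'.flatMap fun g => gact pr (s g.2) g) ++ fl pr (m.flatMap Itm.rd) := by
        rw [hgs', List.flatMap_append]
        congr 1
        rw [List.flatMap_cons, List.flatMap_nil, List.append_nil]
        exact el
      have e4 : (Circ.fu A).act pr s = [(true, A.x)] ++
          (fl pr (BU.word (BU.sg s) A.e1) ++ ([(true, A.X)] ++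
            ((gs'.flatMap fun g => gact pr (s g.2) g) ++ fl pr (m.flatMap Itm.rd)))) := by
        rw [e1, e3, htl, fl_neg pl']
        simp
      constructor
      · rw [e4]
        refine (PH.pop A.x).append (pe.append ((PH.pop A.X).append (pg.append pm (D := 6) (E := 1)
          (k := 0) ?_ ?_ ?_ ?_ ?_) (D := 5) (E := 2) (k := 1) ?_ ?_ ?_ ?_ ?_) (D := 5) (E := 2)
          (k := 1) ?_ ?_ ?_ ?_ ?_) ?_ ?_ ?_ ?_ ?_ <;> norm_num
      · rw [e1, e2]
        simp only [List.map_append, List.filter_append]
        have f1 : (fl pr [((true, A.l) : Bool × T)]).map Prod.snd = [A.l].filter pr := by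
          rw [fl_snd]; rfl
        have f2 : (A.gs.flatMap fun g => gact pr (s g.2) g).map Prod.snd =
            (A.gs.flatMap fun g => g.1.flatMap Itm.tks ++ [g.2]).filter pr := by
          have key : ∀ gs : List (List (Itm T) × T), (∀ g ∈ gs, g ∈ A.gs) →
              (gs.flatMap fun g => gact pr (s g.2) g).map Prod.snd =
              (gs.flatMap fun g => g.1.flatMap Itm.tks ++ [g.2]).filter pr := by
            intro gs
            induction gs with
            | nil => intro _; rfl
            | cons g gs ih =>
              intro hgs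
              have hg := hgs g List.mem_cons_self
              have hcase : g ∈ gs' ∨ g = (m, r) := by
                rw [hgs'] at hg
                rcases List.mem_append.1 hg with h | h
                · exact Or.inl h
                · exact Or.inr (by simpa using h)
              rw [List.flatMap_cons, List.map_append, List.flatMap_cons, List.filter_append,
                ih fun w hw => hgs w (List.mem_cons_of_mem _ hw), gact_snd (hevg g hg)]
              · intro hb
                rcases hcase with h | h
                · exact hgr g h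
                · rw [h] at hb
                  exact absurd hb (by rw [hd'.1]; decide)
              · intro hne
                rcases hcase with h | h
                · exact hgr g h
                · rw [h] at hne
                  exact absurd hh2 hne
          exact key A.gs fun g hg => hg
        rw [f1, f2, te, tt, tx _ cx, tx _ cX]
        rfl
    · have hcore := hP.core (fun h => hd h.2)
      have pl' : pr A.l = true := hcore _ ml _ (by simp [BU.core])
      have hgr : ∀ g ∈ A.gs, pr g.2 = true := fun g hg =>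
        hcore _ (mg g hg) _ (by simp [gtk, BU.core])
      have pg := PH.groups (pr := pr) (s := s) (gs := A.gs) (a := -3) (b := 0) hevg cg hgr hB2
      rw [hgs] at pg
      constructor
      · rw [e1, fl_pos pl']
        refine (PH.pop A.l).append ((PH.pop A.x).append (pe.append ((PH.pop A.X).append
          (pg.append pt (D := 6) (E := 1)
          (k := -1) ?_ ?_ ?_ ?_ ?_) (D := 5) (E := 2) (k := 0) ?_ ?_ ?_ ?_ ?_) (D := 5) (E := 2)
          (k := 0) ?_ ?_ ?_ ?_ ?_) (D := 4) (E := 3) (k := 1) ?_ ?_ ?_ ?_ ?_) ?_ ?_ ?_ ?_ ?_ <;>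
          norm_num
      · rw [e1, e2]
        simp only [List.map_append, List.filter_append]
        have f1 : (fl pr [((true, A.l) : Bool × T)]).map Prod.snd = [A.l].filter pr := by
          rw [fl_snd]; rfl
        have f2 : (A.gs.flatMap fun g => gact pr (s g.2) g).map Prod.snd =
            (A.gs.flatMap fun g => g.1.flatMap Itm.tks ++ [g.2]).filter pr := by
          have key : ∀ gs : List (List (Itm T) × T), (∀ g ∈ gs, g ∈ A.gs) →
              (gs.flatMap fun g => gact pr (s g.2) g).map Prod.snd =
              (gs.flatMap fun g => g.1.flatMap Itm.tks ++ [g.2]).filter pr := by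
            intro gs
            induction gs with
            | nil => intro _; rfl
            | cons g gs ih =>
              intro hgs
              have hg := hgs g List.mem_cons_self
              rw [List.flatMap_cons, List.map_append, List.flatMap_cons, List.filter_append,
                ih fun w hw => hgs w (List.mem_cons_of_mem _ hw), gact_snd (hevg g hg)
                (fun _ => hgr g hg) (fun _ => hgr g hg)]
          exact key A.gs fun g hg => hg
        rw [f1, f2, te, tt, tx _ cx, tx _ cX]
        rfl

end Circ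

end Pool.Agent.MP42.U
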