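import Pool.Agent.MP42.U.BU

/-!
# The node lemmas for basic units

`s : T → Bool` = letters of the main tokens of the odd units.
* `node_a`: no port, first and last odd unit `+`, pairs between them;
* `node_c`: one port behind the own token, then pairs;
* `node_e`: two ports behind the own token, `f = -`, then pairs; two classes.
The second own token of a double own link is a free token in `node_c`, `node_e`; the letter push means
that the own link is dropped.
-/

set_option autoImplicit false

namespace Pool.Agent.MP42.U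

variable {T : Type*}

namespace BU

/-- the states of the units from the letters -/
def sg (s : T → Bool) (u : BU T) : Bool := s u.main

lemma mains_nodup {us : List (BU T)} (h : (us.flatMap tks).Nodup) : (us.map main).Nodup := by
  induction us with
  | nil => exact List.nodup_nil
  | cons u us ih =>
    rw [List.flatMap_cons, List.nodup_append] at h
    obtain ⟨h1, h2, h3⟩ := h
    rw [List.map_cons]
    refine List.nodup_cons.2 ⟨?_, ih h2⟩
    intro hu
    obtain ⟨w, hw, hw'⟩ := List.mem_map.1 hu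
    exact h3 _ u.main_mem _ (List.mem_flatMap.2 ⟨w, hw, w.main_mem⟩) hw'.symm

lemma exists_s {us : List (BU T)} (hn : (us.flatMap tks).Nodup) (st : BU T → Bool) :
    ∃ s : T → Bool, ∀ u ∈ us, sg s u = st u := by
  obtain ⟨s, hs⟩ := exists_fun (A := Bool) (l := us.map main) (bs := us.map st) (mains_nodup hn)
    (by simp) ⟨true⟩
  refine ⟨s, ?_⟩
  rw [List.map_map] at hs
  intro u hu
  exact List.map_inj_left.1 hs u hu

lemma alt_congr {st st' : BU T → Bool} {us : List (BU T)} (h : ∀ u ∈ us, st u = st' u)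
    (ha : Alt st us) : Alt st' us := by
  induction ha with
  | nil => exact Alt.nil
  | @cons a b t h1 _ ih =>
    refine Alt.cons ?_ (ih fun u hu => h u (List.mem_cons_of_mem _ (List.mem_cons_of_mem _ hu)))
    rw [← h a List.mem_cons_self, ← h b (List.mem_cons_of_mem _ List.mem_cons_self), h1]

section

variable {F : Set (T → B)} {us : List (BU T)}

lemma hE_of (hE : ∀ V ∈ F, ∀ u ∈ us, ∀ p ∈ u.evs, V p.1 = V p.2) : ∀ V ∈ F, ∀ u ∈ us,
    ∀ b S S', R u b V S S' → Does kind GC val u b V S S' :=
  fun V hV u hu _ _ _ h => does (hE V hV u hu) h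

lemma hF_of (hF : ∀ V ∈ F, ∀ V' ∈ F, sp V V' (us.flatMap tks) = 0) : ∀ V ∈ F, ∀ V' ∈ F,
    (∀ u ∈ us, GC u V) → (∀ u ∈ us, GC u V') →
      ((us.filter (isOdd kind)).map fun u => val u V * val u V').sum = 0 :=
  fun V hV V' hV' hg hg' => by
    rw [← sum_units hg hg']
    exact hF V hV V' hV'

/-- **node without port** -/
theorem node_a (hn : (us.flatMap tks).Nodup) {L z : BU T} {ms : List (BU T)}
    (hos : us.filter od = L :: (ms ++ [z])) (hms : Even ms.length)
    (hE : ∀ V ∈ F, ∀ u ∈ us, ∀ p ∈ u.evs, V p.1 = V p.2)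
    (hF : ∀ V ∈ F, ∀ V' ∈ F, sp V V' (us.flatMap tks) = 0) :
    ∃ s : T → Bool, s L.main = true ∧ s z.main = true ∧ Alt (sg s) ms ∧
      ∀ V ∈ F, Cl V (word (sg s) us) → One us V := by
  obtain ⟨st, h1, h2, h3, h4⟩ := nodeR (R := R) (kind := kind) (GC := GC) (val := val)
    (us := us) (nodup hn) hos hms (hE_of hE) (hF_of hF)
  obtain ⟨s, hs⟩ := exists_s hn st
  have hmem : ∀ u ∈ us.filter od, u ∈ us := fun u hu => (List.mem_filter.1 hu).1
  rw [hos] at hmem
  refine ⟨s, ?_, ?_, ?_, ?_⟩
  · rw [← h1]; exact hs L (hmem L List.mem_cons_self)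
  · rw [← h2]; exact hs z (hmem z (by simp))
  · exact alt_congr (fun u hu => (hs u (hmem u (by simp [hu]))).symm) h3
  · intro V hV hC
    refine h4 V hV (cl_iff.2 ?_)
    rwa [word_congr (st' := sg s) (fun u hu _ => (hs u hu).symm)]

/-- **node with one port** -/
theorem node_c (hn : (us.flatMap tks).Nodup) {L x : BU T} {fs : List (BU T)}
    (hos : us.filter od = L :: x :: fs) (hfs : Even fs.length)
    (hE : ∀ V ∈ F, ∀ u ∈ us, ∀ p ∈ u.evs, V p.1 = V p.2)
    (hF : ∀ V ∈ F, ∀ V' ∈ F, sp V V' (us.flatMap tks) = 0) :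
    ∃ s : T → Bool, s L.main = true ∧ s x.main = true ∧ Alt (sg s) fs ∧
      ∀ V ∈ F, Cl V (word (sg s) us) → One us V := by
  obtain ⟨l₀, l₁, hit, hl₀, hLo, hl₁⟩ := List.filter_eq_cons_iff.1 hos
  obtain ⟨l₂, l₃, hit2, hl₂, hxo, hl₃⟩ := List.filter_eq_cons_iff.1 hl₁
  -- us = (l₀ ++ L :: l₂) ++ (x :: l₃)
  set A : List (BU T) := l₀ ++ L :: l₂ with hA
  set D : List (BU T) := x :: l₃ with hD
  have hus : us = A ++ D := by rw [hit, hit2, hA, hD]; simp
  have hfA : A.filter od = [L] := by
    rw [hA, List.filter_append, List.filter_cons_of_pos hLo]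
    rw [(List.filter_eq_nil_iff.2 hl₀ : l₀.filter od = []),
      (List.filter_eq_nil_iff.2 hl₂ : l₂.filter od = [])]
    rfl
  have hfD : D.filter od = x :: fs := by
    rw [hD, List.filter_cons_of_pos hxo, hl₃]
  have hos' : (D ++ A).filter (isOdd kind) = x :: (fs ++ [L]) := by
    have h1 : (D ++ A).filter od = x :: (fs ++ [L]) := by
      rw [List.filter_append, hfA, hfD]; rfl
    exact h1
  have hperm : (D ++ A).Perm us := by rw [hus]; exact List.perm_append_comm
  have hn' : ((D ++ A).flatMap tks).Nodup :=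
    ((hperm.flatMap_right tks).nodup_iff).2 hn
  have hE' : ∀ V ∈ F, ∀ u ∈ D ++ A, ∀ p ∈ u.evs, V p.1 = V p.2 :=
    fun V hV u hu => hE V hV u (hperm.mem_iff.1 hu)
  have hF' : ∀ V ∈ F, ∀ V' ∈ F, sp V V' ((D ++ A).flatMap tks) = 0 := by
    intro V hV V' hV'
    rw [sp_perm (hperm.flatMap_right tks)]
    exact hF V hV V' hV'
  obtain ⟨st, h1, h2, h3, h4⟩ := nodeR (R := R) (kind := kind) (GC := GC) (val := val)
    (us := D ++ A) (nodup hn') hos' hfs (hE_of hE') (hF_of hF')
  obtain ⟨s, hs⟩ := exists_s hn' st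
  have hmem : ∀ u ∈ (D ++ A).filter (isOdd kind), u ∈ D ++ A :=
    fun u hu => (List.mem_filter.1 hu).1
  rw [hos'] at hmem
  refine ⟨s, ?_, ?_, ?_, ?_⟩
  · rw [← h2]; exact hs L (hmem L (by simp))
  · rw [← h1]; exact hs x (hmem x List.mem_cons_self)
  · exact alt_congr (fun u hu => (hs u (hmem u (by simp [hu]))).symm) h3
  · intro V hV hC
    rw [hus, word_append] at hC
    have h6 := hC.rot
    rw [← word_append, word_congr (st' := st) (fun u hu _ => hs u hu)] at h6
    obtain ⟨h8, c, h9⟩ := h4 V hV (cl_iff.2 h6)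
    exact ⟨fun u hu => h8 u (hperm.mem_iff.2 hu), c, fun u hu hk => h9 u (hperm.mem_iff.2 hu) hk⟩

/-- two values -/
def Two (L : BU T) (p q : List (BU T)) (V : T → B) : Prop :=
  (∀ u ∈ L :: (p ++ q), GC u V) ∧ ∃ a b, val L V = a ∧
    (∀ u ∈ p, kind u ≠ Kind.closed → val u V = b) ∧ ∀ u ∈ q, kind u ≠ Kind.closed → val u V = a

lemma walk_seg {st : BU T → Bool} {V : T → B} : ∀ {us : List (BU T)},
    (∀ u ∈ us, ∀ b S S', R u b V S S' → Does kind GC val u b V S S') →
    (∀ u ∈ us, kind u ≠ Kind.odd) → ∀ {S S' : ℕ → B}, Walk R st V us S S' →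
    S' = S ∧ ∀ u ∈ us, kind u ≠ Kind.closed → val u V = S 0 := by
  intro us
  induction us with
  | nil => intro _ _ S S' h; exact ⟨Eq.symm h, by simp⟩
  | cons u us ih =>
    intro hE ho S S' h
    obtain ⟨S₁, h1, h2⟩ := h
    have h3 := hE u List.mem_cons_self _ _ _ h1
    have h4 : S₁ = S := by
      rcases hk : kind u with _ | _ | _
      · exact absurd hk (ho u List.mem_cons_self)
      · exact (h3.even hk).1
      · exact h3.closed hk
    rw [h4] at h2
    obtain ⟨h5, h6⟩ := ih (fun u hu => hE u (List.mem_cons_of_mem _ hu))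
      (fun u hu => ho u (List.mem_cons_of_mem _ hu)) h2
    refine ⟨h5, ?_⟩
    intro w hw hk
    rcases List.mem_cons.1 hw with rfl | hw
    · rcases hk' : kind w with _ | _ | _
      · exact absurd hk' (ho w List.mem_cons_self)
      · exact (h3.even hk').2
      · exact absurd hk' hk
    · exact h6 w hw hk

/-- **node with two ports** -/
theorem node_e {L x X f : BU T} {p post tail fs : List (BU T)}
    (hn : ((L :: (p ++ f :: (post ++ tail))).flatMap tks).Nodup)
    (hL : kind L = Kind.odd) (hp : p.filter od = [x, X]) (hf : kind f = Kind.odd)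
    (hpost : post.filter od = fs) (hev : ∀ u ∈ post, kind u ≠ Kind.even)
    (htail : ∀ u ∈ tail, kind u ≠ Kind.odd) (hfs : Even fs.length)
    (hE : ∀ V ∈ F, ∀ u ∈ L :: (p ++ f :: (post ++ tail)), ∀ q ∈ u.evs, V q.1 = V q.2)
    (hF : ∀ V ∈ F, ∀ V' ∈ F, sp V V' ((L :: (p ++ f :: (post ++ tail))).flatMap tks) = 0) :
    ∃ s : T → Bool, s L.main = true ∧ s x.main = true ∧ s X.main = true ∧ s f.main = false ∧
      Alt (sg s) fs ∧ ∀ V ∈ F, Cl V (word (sg s) (L :: (p ++ f :: (post ++ tail)))) →
        Two L p (f :: (post ++ tail)) V := by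
  classical
  set us : List (BU T) := L :: (p ++ f :: (post ++ tail)) with hus
  have htail' : tail.filter od = [] := by
    rw [List.filter_eq_nil_iff]
    intro u hu h
    exact htail u hu (od_iff.1 h)
  have hos : us.filter (isOdd kind) = L :: x :: X :: f :: fs := by
    have h1 : us.filter od = L :: x :: X :: f :: fs := by
      rw [hus, List.filter_cons_of_pos (od_iff.2 hL), List.filter_append, hp,
        List.filter_cons_of_pos (od_iff.2 hf), List.filter_append, hpost, htail', List.append_nil]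
      rfl
    exact h1
  have hE' := hE_of hE
  have hF' := hF_of hF
  obtain ⟨bs, hb1, hb2, t, hb3, hb4, hb5⟩ := choose_pairs (val := val) hfs
    {V | V ∈ F ∧ (∀ u ∈ us, GC u V) ∧ val x V = val X V} (fun V => val f V)
    (fun V => val L V) (by
      rintro V ⟨hV, hg1, hlx⟩ V' ⟨hV', hg1', hlx'⟩
      have h1 := hF' V hV V' hV' hg1 hg1'
      rw [hos] at h1
      simp only [List.map_cons, List.sum_cons] at h1
      rw [hlx, hlx'] at h1
      have h2 := b_add_self (val X V * val X V')
      linear_combination h1 - h2)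
  have hlen : (us.filter (isOdd kind)).length =
      (true :: true :: true :: false :: bs).length := by
    rw [hos]; simp [hb1]
  obtain ⟨st, hst⟩ := exists_fun ((nodup hn).filter _) hlen ⟨true⟩
  rw [hos, List.map_cons, List.map_cons, List.map_cons, List.map_cons] at hst
  simp only [List.cons.injEq] at hst
  obtain ⟨e1, e2, e3, e4, hst⟩ := hst
  obtain ⟨s, hs⟩ := exists_s hn st
  have hmem : ∀ u ∈ us.filter (isOdd kind), u ∈ us := fun u hu => (List.mem_filter.1 hu).1
  rw [hos] at hmem
  refine ⟨s, ?_, ?_, ?_, ?_, ?_, ?_⟩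
  · rw [← e1]; exact hs L (hmem L (by simp))
  · rw [← e2]; exact hs x (hmem x (by simp))
  · rw [← e3]; exact hs X (hmem X (by simp))
  · rw [← e4]; exact hs f (hmem f (by simp))
  · exact alt_congr (fun u hu => (hs u (hmem u (by simp [hu]))).symm) (hb2 st hst)
  · intro V hV hC
    rw [word_congr (st' := st) (fun u hu _ => hs u hu)] at hC
    obtain ⟨S, hS, hd⟩ := cl_iff.2 hC
    obtain ⟨h1, h2⟩ := walk_odd (hE' V hV) hS
    have h3 := word_pairs (val := val) (V := V) t (by rw [← hb4, ← hb3]; exact hst)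
    rw [hos, List.map_cons, List.map_cons, List.map_cons, List.map_cons, hb4, h3, e1, e2, e3,
      e4] at h1
    rw [run_pop, run_pop, run_pop, run_push] at h1
    obtain ⟨a1, a2, a3, a4⟩ := h1
    obtain ⟨a5, a6⟩ := run_pairs (v := fun u => val u V) a4
    have h7 : ∀ j, S (j + 1) = S (j + 3) := fun j => congrFun a6 j
    obtain ⟨K, c, hc⟩ := hd
    have h8 : ∀ n j, S (j + 1) = S (j + 1 + 2 * n) := by
      intro n
      induction n with
      | zero => intro j; rfl
      | succ n ih =>
        intro j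
        rw [ih j]
        have := h7 (j + 2 * n)
        rw [show j + 1 + 2 * n = j + 2 * n + 1 by omega, this]
        congr 1
        omega
    have h9 : ∀ j, S (j + 1) = c := by
      intro j
      rw [h8 K j]
      exact hc _ (by omega)
    have hxc : val x V = c := by rw [a2]; exact h9 0
    have hXc : val X V = c := by rw [a3]; exact h9 1
    have h10 : Ch (fun u => val u V) t (val f V) (val L V) := by
      rw [a1]; exact a5
    obtain ⟨h11, h12⟩ := hb5 V ⟨hV, h2, by rw [hxc, hXc]⟩ h10
    -- the parts of the walk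
    have hS' : Walk R st V (L :: (p ++ f :: (post ++ tail))) S S := hS
    obtain ⟨S₁, w1, w2⟩ := hS'
    obtain ⟨S₂, w3, w4⟩ := walk_append.1 w2
    have hS₁ : ∀ j, S₁ j = c := by
      have h13 := (hE' V hV L List.mem_cons_self _ _ _ w1).odd hL
      rw [e1, run_pop, run_nil] at h13
      intro j
      rw [← h13.2]; exact h9 j
    have hpe := walk_even (c := c) (fun u hu => hE' V hV u (by simp [hus, hu])) (by
      intro u hu hk
      have h13 : u ∈ p.filter od := List.mem_filter.2 ⟨hu, od_iff.2 hk⟩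
      rw [hp] at h13
      simp only [List.mem_cons, List.not_mem_nil, or_false] at h13
      rcases h13 with rfl | rfl
      · exact hxc
      · exact hXc) hS₁ w3
    have w5 : Walk R st V ((f :: post) ++ tail) S₂ S := w4
    obtain ⟨S₃, w6, w7⟩ := walk_append.1 w5
    obtain ⟨h14, h15⟩ := walk_seg (fun u hu => hE' V hV u (by simp [hus, hu])) htail w7
    refine ⟨h2, val L V, c, rfl, hpe, ?_⟩
    intro u hu hk
    have hodd : ∀ u ∈ f :: fs, val u V = val L V := by
      intro u hu
      rcases List.mem_cons.1 hu with rfl | hu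
      · exact h12.symm
      · rw [h11 u hu, h12]
    rcases List.mem_cons.1 hu with rfl | hu
    · exact hodd _ List.mem_cons_self
    · rcases List.mem_append.1 hu with hu | hu
      · rcases hk' : kind u with _ | _ | _
        · refine hodd u (List.mem_cons_of_mem _ ?_)
          rw [← hpost]
          exact List.mem_filter.2 ⟨hu, od_iff.2 hk'⟩
        · exact absurd hk' (hev u hu)
        · exact absurd hk' hk
      · rw [h15 u hu hk, ← h14, a1]

end

end BU

end Pool.Agent.MP42.U
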