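import Pool.Agent.MP42.U.Bridge

/-!
# The final form, and bounded partial sums
-/

set_option autoImplicit false

namespace Pool.Agent.MP42.U

variable {P U : Type*}

/-- the sum of the heights of the states -/
def hs (st : U → Bool) (t : List U) : ℤ := (t.map fun u => if st u then (1 : ℤ) else -1).sum

lemma Alt.initial {st : U → Bool} {t : List U} (h : Alt st t) :
    ∀ {t₁ t₂ : List U}, t = t₁ ++ t₂ → -1 ≤ hs st t₁ ∧ hs st t₁ ≤ 1 := by
  induction h with
  | nil =>
    intro t₁ t₂ h
    have : t₁ = [] := (List.append_eq_nil_iff.1 h.symm).1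
    subst this
    simp [hs]
  | @cons a b t h1 _ ih =>
    intro t₁ t₂ h
    match t₁, h with
    | [], _ => simp [hs]
    | [x], h =>
      simp only [hs, List.map_cons, List.map_nil, List.sum_cons, List.sum_nil, add_zero]
      split_ifs <;> norm_num
    | x :: y :: t₁, h =>
      simp only [List.cons_append, List.cons.injEq] at h
      obtain ⟨rfl, rfl, h⟩ := h
      have h2 := ih h
      have h3 : hs st (a :: b :: t₁) = hs st t₁ := by
        simp only [hs, List.map_cons, List.sum_cons, h1]
        cases st a <;> simp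
      rw [h3]
      exact h2

namespace Sig

variable (G : Sig P U)

lemma sum_hu' (st : U → Bool) (us : List U) : (us.map (G.hu st)).sum = hs st (us.filter G.od) :=
  G.sum_hu st us

/-- the heights between the units are `0`, `1`, `2` -/
lemma Pat.bound {us : List U} {st : U → Bool} (h : G.Pat us st) {us₁ us₂ : List U}
    (he : us = us₁ ++ us₂) : 0 ≤ (us₁.map (G.hu st)).sum ∧ (us₁.map (G.hu st)).sum ≤ 2 := by
  obtain ⟨l, r, ms, h1, h2, h3, h4⟩ := h.ex
  rw [sum_hu']
  rw [he, List.filter_append] at h1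
  rcases hp : us₁.filter G.od with _ | ⟨x, p⟩
  · simp [hs]
  · rw [hp, List.cons_append, List.cons.injEq] at h1
    obtain ⟨rfl, h1⟩ := h1
    have h5 : hs st (x :: p) = 1 + hs st p := by
      simp [hs, h2]
    rw [h5]
    rcases List.append_eq_append_iff.1 h1 with ⟨q, h6, h7⟩ | ⟨q, h6, h7⟩
    · have := h4.initial h6
      omega
    · rcases q with _ | ⟨y, q⟩
      · rw [List.append_nil] at h6
        have := h4.initial (t₁ := p) (t₂ := []) (by rw [List.append_nil, h6])
        omega
      · rw [List.cons_append, List.cons.injEq] at h7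
        obtain ⟨rfl, h7⟩ := h7
        have h8 : q = [] := (List.append_eq_nil_iff.1 h7.symm).1
        rw [h6, h8]
        have h9 : hs st (ms ++ [r]) = hs st ms + 1 := by
          simp [hs, h3]
        have h10 : hs st ms = 0 := alt_sum h4
        omega

end Sig

namespace Tree

variable {n : ℕ} (G : Tree P U n)

/-- **the final form**: `S f` is the stack before the first unit of the node `f` -/
theorem exists_conn [Fintype P] (r₀ : Fin n) : ∃ st : Fin n → U → Bool,
    (∀ f, G.Pat (G.us f) (st f)) ∧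
    ∀ (V : P → B) (S : Fin n → ℕ → B), (∀ x, V (G.lam x) = V x) →
      (∀ f, Run (G.W V (st f) (G.us f)) (S f) (S f)) → (∀ f, f ≠ r₀ → Deep (S f)) →
      ∃ c, (∀ x, V x = c) ∧ ∀ f j, S f j = c := by
  obtain ⟨st, h1, h2⟩ := G.exists_states' r₀
  refine ⟨st, h1, ?_⟩
  intro V S hV hS hd
  have h3 := h2 V hV (fun f hf => ⟨S f, hS f, hd f hf⟩) ⟨S r₀, hS r₀⟩
  have key : ∀ (f : Fin n) (c : B), (∀ x, V x = c) → ∀ j, S f j = c := by
    intro f c hc
    refine run_const_two ?_ ((h1 f).ht G.toSig (G.good f) V) (hS f)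
    intro p hp
    rw [Sig.W_eq] at hp
    obtain ⟨q, _, rfl⟩ := List.mem_map.1 hp
    exact hc _
  by_cases hP : Nonempty P
  · obtain ⟨x₀⟩ := hP
    exact ⟨V x₀, fun x => h3 x x₀, fun f => key f _ (fun x => h3 x x₀)⟩
  · refine ⟨0, fun x => absurd ⟨x⟩ hP, fun f => key f 0 (fun x => absurd ⟨x⟩ hP)⟩

end Tree

end Pool.Agent.MP42.U
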