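import Pool.Agent.MP42.U.SU
import Pool.Agent.MP42.U.Fin

/-!
# Basic units

Tokens of type `T`, lettered words = lists of pairs (letter, token), `true` = pop, `false` = push.
`fr t` = free token, `fx t` = forced pop, `ev a b` = even child, `br t x m` = bracket: push `t`, even
children `m`, pop `x`; `gu m t` = free token `t` with the even children `m` (read before `t`) as
beads; `gv t m` = free token `t` with the even children `m` (read behind `t`) as beads.
-/

set_option autoImplicit false

namespace Pool.Agent.MP42.U

variable {T : Type*}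

/-- basic units -/
inductive BU (T : Type*)
  /-- free token -/
  | fr (t : T)
  /-- forced pop -/
  | fx (t : T)
  /-- even child -/
  | ev (a b : T)
  /-- bracket -/
  | br (t x : T) (m : List (T × T))
  /-- free token with beads -/
  | gu (m : List (T × T)) (t : T)
  /-- free token with beads behind it -/
  | gv (t : T) (m : List (T × T))

/-- the letters of a list of even children -/
def up (m : List (T × T)) : List (Bool × T) := m.flatMap fun p => [(true, p.1), (false, p.2)]

/-- the letters of a list of even children, reversed -/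
def dn (m : List (T × T)) : List (Bool × T) :=
  m.reverse.flatMap fun p => [(true, p.2), (false, p.1)]

/-- the tokens of a list of even children -/
def ptk (m : List (T × T)) : List T := m.flatMap fun p => [p.1, p.2]

@[simp] lemma up_nil : up ([] : List (T × T)) = [] := rfl
@[simp] lemma up_cons (p : T × T) (m : List (T × T)) :
    up (p :: m) = (true, p.1) :: (false, p.2) :: up m := rfl
@[simp] lemma up_append (m m' : List (T × T)) : up (m ++ m') = up m ++ up m' := by simp [up]
@[simp] lemma dn_nil : dn ([] : List (T × T)) = [] := rfl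
@[simp] lemma dn_cons (p : T × T) (m : List (T × T)) :
    dn (p :: m) = dn m ++ [(true, p.2), (false, p.1)] := by simp [dn]
@[simp] lemma dn_append (m m' : List (T × T)) : dn (m ++ m') = dn m' ++ dn m := by simp [dn]
@[simp] lemma ptk_nil : ptk ([] : List (T × T)) = [] := rfl
@[simp] lemma ptk_cons (p : T × T) (m : List (T × T)) :
    ptk (p :: m) = p.1 :: p.2 :: ptk m := rfl
@[simp] lemma ptk_append (m m' : List (T × T)) : ptk (m ++ m') = ptk m ++ ptk m' := by simp [ptk]

lemma up_snd (m : List (T × T)) : (up m).map Prod.snd = ptk m := by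
  induction m with
  | nil => rfl
  | cons p m ih => simp [ih]

lemma dn_perm (m : List (T × T)) : ((dn m).map Prod.snd).Perm (ptk m) := by
  induction m with
  | nil => exact List.Perm.refl _
  | cons p m ih =>
    rw [dn_cons, List.map_append, ptk_cons]
    have h1 : ([(true, p.2), (false, p.1)] : List (Bool × T)).map Prod.snd = [p.2, p.1] := rfl
    rw [h1]
    calc ((dn m).map Prod.snd ++ [p.2, p.1]).Perm ([p.2, p.1] ++ (dn m).map Prod.snd) :=
          List.perm_append_comm
      _ |>.Perm ([p.2, p.1] ++ ptk m) := ih.append_left _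
      _ |>.Perm (p.1 :: p.2 :: ptk m) := List.Perm.swap _ _ _

lemma hl_up (m : List (T × T)) : hl (up m) = 0 := by
  induction m with
  | nil => rfl
  | cons p m ih => simp [ih]

lemma hl_dn (m : List (T × T)) : hl (dn m) = 0 := by
  induction m with
  | nil => rfl
  | cons p m ih => simp [ih]

lemma run_up {V : T → B} {m : List (T × T)} (h : ∀ p ∈ m, V p.1 = V p.2) :
    ∀ {S S' : ℕ → B}, Run (lv V (up m)) S S' → S' = S ∧ ∀ p ∈ m, V p.1 = S 0 ∧ V p.2 = S 0 := by
  induction m with
  | nil =>
    intro S S' h
    exact ⟨Eq.symm h, by simp⟩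
  | cons p m ih =>
    intro S S' h1
    have h2 : V p.1 = S 0 ∧ Run (lv V (up m)) (push (V p.2) (tl S)) S' := h1
    have h3 : push (V p.2) (tl S) = S := by
      rw [← h p List.mem_cons_self, h2.1, push_tl]
    rw [h3] at h2
    obtain ⟨h4, h5⟩ := ih (fun q hq => h q (List.mem_cons_of_mem _ hq)) h2.2
    refine ⟨h4, ?_⟩
    intro q hq
    rcases List.mem_cons.1 hq with rfl | hq
    · exact ⟨h2.1, by rw [← h q List.mem_cons_self]; exact h2.1⟩
    · exact h5 q hq

lemma dn_eq_up (m : List (T × T)) : dn m = up (m.reverse.map Prod.swap) := by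
  induction m with
  | nil => rfl
  | cons p m ih => simp [ih]

lemma run_dn {V : T → B} {m : List (T × T)} (h : ∀ p ∈ m, V p.1 = V p.2) {S S' : ℕ → B}
    (hR : Run (lv V (dn m)) S S') : S' = S ∧ ∀ p ∈ m, V p.1 = S 0 ∧ V p.2 = S 0 := by
  rw [dn_eq_up] at hR
  obtain ⟨h1, h2⟩ := run_up (V := V) (m := m.reverse.map Prod.swap) (by
    intro p hp
    obtain ⟨q, hq, rfl⟩ := List.mem_map.1 hp
    exact (h q (List.mem_reverse.1 hq)).symm) hR
  refine ⟨h1, ?_⟩
  intro p hp
  obtain ⟨h3, h4⟩ := h2 p.swap (List.mem_map_of_mem (List.mem_reverse.2 hp))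
  exact ⟨h4, h3⟩

lemma sp_ptk {V V' : T → B} {m : List (T × T)} (h : ∀ p ∈ m, V p.1 = V p.2)
    (h' : ∀ p ∈ m, V' p.1 = V' p.2) : sp V V' (ptk m) = 0 := by
  induction m with
  | nil => rfl
  | cons p m ih =>
    rw [ptk_cons, sp_cons, sp_cons, ih (fun q hq => h q (List.mem_cons_of_mem _ hq))
      (fun q hq => h' q (List.mem_cons_of_mem _ hq)), h p List.mem_cons_self,
      h' p List.mem_cons_self, add_zero]
    exact b_add_self _

lemma sp_perm {V V' : T → B} {ts ts' : List T} (h : ts.Perm ts') : sp V V' ts = sp V V' ts' :=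
  (h.map _).sum_eq

namespace BU

/-- the kinds -/
def kind : BU T → Kind
  | fr _ => Kind.odd
  | fx _ => Kind.odd
  | ev _ _ => Kind.even
  | br _ _ _ => Kind.closed
  | gu _ _ => Kind.odd
  | gv _ _ => Kind.odd

/-- the tokens -/
def tks : BU T → List T
  | fr t => [t]
  | fx t => [t]
  | ev a b => [a, b]
  | br t x m => t :: (ptk m ++ [x])
  | gu m t => ptk m ++ [t]
  | gv t m => t :: ptk m

/-- the main token -/
def main : BU T → T
  | fr t => t
  | fx t => t
  | ev a _ => a
  | br t _ _ => t
  | gu _ t => t
  | gv t _ => t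

/-- what the walk forces inside a unit -/
def GC : BU T → (T → B) → Prop
  | fr _, _ => True
  | fx _, _ => True
  | ev a b, V => V a = V b
  | br t x m, V => V x = V t ∧ ∀ p ∈ m, V p.1 = V t ∧ V p.2 = V t
  | gu m t, V => ∀ p ∈ m, V p.1 = V t ∧ V p.2 = V t
  | gv t m, V => ∀ p ∈ m, V p.1 = V t ∧ V p.2 = V t

/-- the even children of a unit -/
def evs : BU T → List (T × T)
  | fr _ => []
  | fx _ => []
  | ev a b => [(a, b)]
  | br _ _ m => m
  | gu m _ => m
  | gv _ m => m

/-- the value of a unit -/
def val (u : BU T) (V : T → B) : B := V u.main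

/-- the lettered word of a unit -/
def lts (b : Bool) : BU T → List (Bool × T)
  | fr t => [(b, t)]
  | fx t => [(b, t)]
  | ev a c => [(true, a), (false, c)]
  | br t x m => (false, t) :: (up m ++ [(true, x)])
  | gu m t => if b then up m ++ [(true, t)] else (false, t) :: dn m
  | gv t m => if b then dn m ++ [(true, t)] else (false, t) :: up m

/-- the walk of a unit -/
def R (u : BU T) (b : Bool) (V : T → B) (S S' : ℕ → B) : Prop := Run (lv V (u.lts b)) S S'

/-- no beads: the word is in reading order -/
def plain : BU T → Prop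
  | gu _ _ => False
  | gv _ _ => False
  | _ => True

/-- forced -/
def forced : BU T → Prop
  | fx _ => True
  | _ => False

lemma lts_perm (b : Bool) (u : BU T) : ((u.lts b).map Prod.snd).Perm u.tks := by
  cases u with
  | fr t => exact List.Perm.refl _
  | fx t => exact List.Perm.refl _
  | ev a c => exact List.Perm.refl _
  | br t x m => simp [lts, tks, up_snd]
  | gu m t =>
    cases b
    · have h1 : ((gu m t).lts false).map Prod.snd = t :: (dn m).map Prod.snd := rfl
      have h2 : (gu m t).tks = ptk m ++ [t] := rfl
      rw [h1, h2]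
      exact ((dn_perm m).cons t).trans (List.perm_append_comm (l₁ := [t]) (l₂ := ptk m))
    · simp [lts, tks, up_snd]
  | gv t m =>
    cases b
    · simp [lts, tks, up_snd]
    · have h1 : ((gv t m).lts true).map Prod.snd = (dn m).map Prod.snd ++ [t] := by simp [lts]
      have h2 : (gv t m).tks = t :: ptk m := rfl
      rw [h1, h2]
      exact ((dn_perm m).append_right [t]).trans
        (List.perm_append_comm (l₁ := ptk m) (l₂ := [t]))

lemma lts_snd (b : Bool) {u : BU T} (h : u.plain) : (u.lts b).map Prod.snd = u.tks := by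
  cases u with
  | fr t => rfl
  | fx t => rfl
  | ev a c => rfl
  | br t x m => simp [lts, tks, up_snd]
  | gu m t => exact h.elim
  | gv t m => exact h.elim

/-- what the walk of a unit does -/
lemma does {V : T → B} {u : BU T} (h : ∀ p ∈ u.evs, V p.1 = V p.2) {b : Bool} {S S' : ℕ → B}
    (hR : u.R b V S S') : Does kind GC val u b V S S' := by
  cases u with
  | fr t =>
    exact ⟨trivial, fun _ => hR, fun h => by simp [kind] at h, fun h => by simp [kind] at h⟩
  | fx t =>
    exact ⟨trivial, fun _ => hR, fun h => by simp [kind] at h, fun h => by simp [kind] at h⟩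
  | ev a c =>
    have h1 : V a = V c := h (a, c) (by simp [evs])
    have h2 : V a = S 0 ∧ push (V c) (tl S) = S' := hR
    refine ⟨h1, fun h => by simp [kind] at h, fun _ => ⟨?_, h2.1⟩, fun h => by simp [kind] at h⟩
    rw [← h2.2, ← h1, h2.1, push_tl]
  | br t x m =>
    have h1 : Run (lv V (up m ++ [(true, x)])) (push (V t) S) S' := hR
    rw [lv_append, run_append] at h1
    obtain ⟨S₁, h2, h3⟩ := h1
    obtain ⟨h4, h5⟩ := run_up h h2
    rw [h4] at h3
    have h6 : V x = V t ∧ tl (push (V t) S) = S' := h3
    refine ⟨⟨h6.1, fun p hp => h5 p hp⟩, fun h => by simp [kind] at h,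
      fun h => by simp [kind] at h, fun _ => ?_⟩
    rw [← h6.2, tl_push]
  | gu m t =>
    cases b
    · have h1 : Run (lv V (dn m)) (push (V t) S) S' := hR
      obtain ⟨h2, h3⟩ := run_dn h h1
      exact ⟨fun p hp => h3 p hp, fun _ => h2.symm, fun h => by simp [kind] at h,
        fun h => by simp [kind] at h⟩
    · have h1 : Run (lv V (up m ++ [(true, t)])) S S' := hR
      rw [lv_append, run_append] at h1
      obtain ⟨S₁, h2, h3⟩ := h1
      obtain ⟨h4, h5⟩ := run_up h h2
      rw [h4] at h3
      have h6 : V t = S 0 ∧ tl S = S' := h3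
      refine ⟨fun p hp => ?_, fun _ => h6, fun h => by simp [kind] at h,
        fun h => by simp [kind] at h⟩
      rw [h6.1]; exact h5 p hp
  | gv t m =>
    cases b
    · have h1 : Run (lv V (up m)) (push (V t) S) S' := hR
      obtain ⟨h2, h3⟩ := run_up h h1
      exact ⟨fun p hp => h3 p hp, fun _ => h2.symm, fun h => by simp [kind] at h,
        fun h => by simp [kind] at h⟩
    · have h1 : Run (lv V (dn m ++ [(true, t)])) S S' := hR
      rw [lv_append, run_append] at h1
      obtain ⟨S₁, h2, h3⟩ := h1
      obtain ⟨h4, h5⟩ := run_dn h h2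
      rw [h4] at h3
      have h6 : V t = S 0 ∧ tl S = S' := h3
      refine ⟨fun p hp => ?_, fun _ => h6, fun h => by simp [kind] at h,
        fun h => by simp [kind] at h⟩
      rw [h6.1]; exact h5 p hp

/-- the height of a unit -/
lemma hl_lts (b : Bool) (u : BU T) :
    hl (u.lts b) = if u.kind = Kind.odd then (if b then 1 else -1) else 0 := by
  cases u with
  | fr t => simp [lts, kind]
  | fx t => simp [lts, kind]
  | ev a c => simp [lts, kind]
  | br t x m => simp [lts, kind, hl_up]
  | gu m t => cases b <;> simp [lts, kind, hl_up, hl_dn]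
  | gv t m => cases b <;> simp [lts, kind, hl_up, hl_dn]

/-- the sum of the product over the tokens of a unit -/
lemma tks_sum {u : BU T} {V V' : T → B} (h : GC u V) (h' : GC u V') :
    sp V V' u.tks = if u.kind = Kind.odd then u.val V * u.val V' else 0 := by
  cases u with
  | fr t => simp [tks, kind, val, main]
  | fx t => simp [tks, kind, val, main]
  | ev a b =>
    have h1 : V a = V b := h
    have h2 : V' a = V' b := h'
    simp [tks, kind, h1, h2, b_add_self]
  | br t x m =>
    obtain ⟨h1, h2⟩ := h
    obtain ⟨h3, h4⟩ := h'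
    have h5 : sp V V' (ptk m) = 0 :=
      sp_ptk (fun p hp => by rw [(h2 p hp).1, (h2 p hp).2])
        (fun p hp => by rw [(h4 p hp).1, (h4 p hp).2])
    simp [tks, kind, h5, h1, h3, b_add_self]
  | gu m t =>
    have h5 : sp V V' (ptk m) = 0 :=
      sp_ptk (fun p hp => by rw [(h p hp).1, (h p hp).2])
        (fun p hp => by rw [(h' p hp).1, (h' p hp).2])
    simp [tks, kind, h5, val, main]
  | gv t m =>
    have h5 : sp V V' (ptk m) = 0 :=
      sp_ptk (fun p hp => by rw [(h p hp).1, (h p hp).2])
        (fun p hp => by rw [(h' p hp).1, (h' p hp).2])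
    simp [tks, kind, h5, val, main]

/-- is the unit odd? -/
abbrev od (u : BU T) : Bool := isOdd kind u

lemma od_iff {u : BU T} : od u = true ↔ u.kind = Kind.odd := by simp [od, isOdd]

lemma od_false {u : BU T} : od u = false ↔ u.kind ≠ Kind.odd := by simp [od, isOdd]

lemma sum_units {us : List (BU T)} {V V' : T → B} (h : ∀ u ∈ us, GC u V)
    (h' : ∀ u ∈ us, GC u V') : sp V V' (us.flatMap tks) =
      ((us.filter (isOdd kind)).map fun u => val u V * val u V').sum := by
  induction us with
  | nil => rfl
  | cons u us ih =>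
    rw [List.flatMap_cons, sp_append, tks_sum (h u List.mem_cons_self) (h' u List.mem_cons_self),
      ih (fun w hw => h w (List.mem_cons_of_mem _ hw))
        (fun w hw => h' w (List.mem_cons_of_mem _ hw)), List.filter_cons]
    by_cases hu : u.kind = Kind.odd
    · simp [isOdd, hu]
    · simp [isOdd, hu]

lemma main_mem (u : BU T) : u.main ∈ u.tks := by
  cases u <;> simp [main, tks]

/-- the units are distinct -/
lemma nodup {us : List (BU T)} (h : (us.flatMap tks).Nodup) : us.Nodup := by
  induction us with
  | nil => exact List.nodup_nil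
  | cons u us ih =>
    rw [List.flatMap_cons, List.nodup_append] at h
    obtain ⟨h1, h2, h3⟩ := h
    refine List.nodup_cons.2 ⟨?_, ih h2⟩
    intro hu
    exact h3 _ u.main_mem _ (List.mem_flatMap.2 ⟨u, hu, u.main_mem⟩) rfl

/-- the lettered word of a list of units -/
def word (st : BU T → Bool) (us : List (BU T)) : List (Bool × T) :=
  us.flatMap fun u => u.lts (st u)

@[simp] lemma word_nil (st : BU T → Bool) : word st ([] : List (BU T)) = [] := rfl

@[simp] lemma word_cons (st : BU T → Bool) (u : BU T) (us : List (BU T)) :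
    word st (u :: us) = u.lts (st u) ++ word st us := rfl

@[simp] lemma word_append (st : BU T → Bool) (us us' : List (BU T)) :
    word st (us ++ us') = word st us ++ word st us' := by simp [word]

lemma word_congr {st st' : BU T → Bool} {us : List (BU T)}
    (h : ∀ u ∈ us, u.kind = Kind.odd → st u = st' u) : word st us = word st' us := by
  induction us with
  | nil => rfl
  | cons u us ih =>
    rw [word_cons, word_cons, ih fun w hw => h w (List.mem_cons_of_mem _ hw)]
    congr 1
    cases u with
    | fr t => rw [h _ List.mem_cons_self rfl]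
    | fx t => rw [h _ List.mem_cons_self rfl]
    | ev a c => rfl
    | br t x m => rfl
    | gu m t => rw [h _ List.mem_cons_self rfl]
    | gv t m => rw [h _ List.mem_cons_self rfl]

lemma word_perm (st : BU T → Bool) (us : List (BU T)) :
    ((word st us).map Prod.snd).Perm (us.flatMap tks) := by
  induction us with
  | nil => exact List.Perm.refl _
  | cons u us ih =>
    rw [word_cons, List.map_append, List.flatMap_cons]
    exact (lts_perm _ u).append ih

lemma word_snd (st : BU T → Bool) {us : List (BU T)} (h : ∀ u ∈ us, u.plain) :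
    (word st us).map Prod.snd = us.flatMap tks := by
  induction us with
  | nil => rfl
  | cons u us ih =>
    rw [word_cons, List.map_append, List.flatMap_cons, lts_snd _ (h u List.mem_cons_self),
      ih fun w hw => h w (List.mem_cons_of_mem _ hw)]

lemma walk_iff {st : BU T → Bool} {V : T → B} {us : List (BU T)} : ∀ {S S' : ℕ → B},
    Walk R st V us S S' ↔ Run (lv V (word st us)) S S' := by
  induction us with
  | nil => intro S S'; exact Iff.rfl
  | cons u us ih =>
    intro S S'
    rw [word_cons, lv_append, run_append]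
    simp only [Walk, ih]
    rfl

lemma cl_iff {st : BU T → Bool} {V : T → B} {us : List (BU T)} :
    (∃ S, Walk R st V us S S ∧ Deep S) ↔ Cl V (word st us) := by
  simp only [walk_iff]
  rfl

lemma hl_word (st : BU T → Bool) (us : List (BU T)) :
    hl (word st us) = hs st (us.filter od) := by
  induction us with
  | nil => rfl
  | cons u us ih =>
    rw [word_cons, hl_append, ih, u.hl_lts]
    by_cases hu : u.kind = Kind.odd
    · rw [List.filter_cons_of_pos (od_iff.2 hu), if_pos hu]
      simp [hs]
    · rw [List.filter_cons_of_neg (by rw [od_false.2 hu]; decide), if_neg hu, zero_add]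

/-- parity for solutions of height two -/
lemma word_par {st : BU T → Bool} {us : List (BU T)} {V V' : T → B}
    (hh : hs st (us.filter od) = 2) (h : Cl V (word st us)) (h' : Cl V' (word st us)) :
    sp V V' (us.flatMap tks) = 0 := by
  rw [← sp_perm (word_perm st us)]
  exact Cl.par (by rw [hl_word, hh]) h h'

/-- one value on all units outside the brackets -/
def One (us : List (BU T)) (V : T → B) : Prop :=
  (∀ u ∈ us, GC u V) ∧ ∃ c, ∀ u ∈ us, kind u ≠ Kind.closed → val u V = c

lemma b_len {m : ℕ} (h : Even m) (c : B) : (m : B) * c = 0 := by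
  obtain ⟨k, hk⟩ := h
  have : ((m : ℕ) : B) = 0 := by
    rw [hk, Nat.cast_add]; exact b_add_self _
  rw [this, zero_mul]

lemma One.par {us : List (BU T)} (he : Even (us.filter od).length) {V V' : T → B}
    (h : One us V) (h' : One us V') : sp V V' (us.flatMap tks) = 0 := by
  obtain ⟨h1, c, h2⟩ := h
  obtain ⟨h3, c', h4⟩ := h'
  rw [sum_units h1 h3]
  have h5 : ((us.filter (isOdd kind)).map fun u => val u V * val u V') =
      (us.filter (isOdd kind)).map fun _ => c * c' := by
    refine List.map_congr_left ?_
    intro u hu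
    obtain ⟨hu, ho⟩ := List.mem_filter.1 hu
    have hk : kind u ≠ Kind.closed := by
      intro h
      simp [isOdd, h] at ho
    rw [h2 u hu hk, h4 u hu hk]
  rw [h5, List.map_const', List.sum_replicate, nsmul_eq_mul]
  exact b_len he _

end BU

end Pool.Agent.MP42.U
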