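import Pool.Agent.MP42.U.Block

/-!
# Project MP42: blocks, general form (flat docks, toggles, exit)

`block_coreG`, `GraphG`, `GraphG.const`: the same as `block_core`, `Graph`, `Graph.const`, but with the
data per port: an interval `[b j, a j]` closed under the chords, `ty j`: the port is `b j` (on a circle
of class E) and `a j` is the pointer, not `ty j`: the port is `a j` (class O) and `b j` is the pointer.
Both may be used letters. No pair of ports `a i` (class O), `b j` (class E) with
`b i ≤ b j < a i ≤ a j`.  `ex`: the exit, a port which is connected with the root gap: the letters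
before it are closed under the chords; its value is the value of the root.
-/

set_option autoImplicit false
set_option linter.unusedSectionVars false

namespace Pool.Agent.MP42.U

section core

variable {J K α : Type*} [LinearOrder α]

/-- **the order part** -/
theorem block_coreG [Finite K] (b a : J → α) (hba : ∀ j, b j < a j)
    (ty : J → Prop)
    (nest : ∀ i j, ¬ ty i → ty j → b i ≤ b j → b j < a i → a i ≤ a j → False)
    (lo hi : K → α) (hlh : ∀ k, lo k ≤ hi k)
    (disj : ∀ k k', k ≠ k' → hi k < lo k' ∨ hi k' < lo k)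
    (jn : K → J) (E : K → Prop) (hty : ∀ k, E k ↔ ty (jn k))
    (hE : ∀ k, E k → hi k = b (jn k)) (hO : ∀ k, ¬ E k → lo k = a (jn k))
    (hR : ∀ k, E k → ∃ k', lo k' ≤ a (jn k) ∧ a (jn k) ≤ hi k')
    (hL : ∀ k, ¬ E k → ∃ k', lo k' ≤ b (jn k) ∧ b (jn k) ≤ hi k') : IsEmpty K := by
  classical
  by_contra hK
  rw [not_isEmpty_iff] at hK
  have := Fintype.ofFinite K
  -- the first block
  obtain ⟨k0, -, hk0⟩ := Finset.exists_min_image (Finset.univ : Finset K) lo Finset.univ_nonempty
  have hEk0 : E k0 := by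
    by_contra h
    obtain ⟨k', h1, -⟩ := hL k0 h
    have h2 := hk0 k' (Finset.mem_univ _)
    have h3 := hba (jn k0)
    rw [← hO k0 h] at h3
    exact absurd (h2.trans h1) (not_le.2 h3)
  -- the last block of type E
  obtain ⟨P, hP, hPmax⟩ := Finset.exists_max_image (Finset.univ.filter fun k => E k) lo
    ⟨k0, by simpa using hEk0⟩
  have hEP : E P := by simpa using hP
  have hPmax : ∀ k, E k → lo k ≤ lo P := fun k hk => hPmax k (by simpa using hk)
  -- blocks behind P are of type O
  have hbehind : ∀ k, hi P < lo k → ¬ E k := by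
    intro k hk h
    exact absurd (hPmax k h) (not_le.2 ((hlh P).trans_lt hk))
  obtain ⟨k1, h1, h2⟩ := hR P hEP
  have hbP := hE P hEP
  have haP : hi P < a (jn P) := by rw [hbP]; exact hba _
  have hk1 : hi P < lo k1 := by
    have hne1 : k1 ≠ P := by
      rintro rfl
      exact absurd h2 (not_le.2 haP)
    rcases disj k1 P hne1 with h | h
    · exact absurd (h2.trans_lt h) (not_lt.2 ((hlh P).trans haP.le))
    · exact h
  -- the first block behind P
  obtain ⟨Q, hQ, hQmin⟩ := Finset.exists_min_image (Finset.univ.filter fun k => hi P < lo k) lo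
    ⟨k1, by simpa using hk1⟩
  have hPQ : hi P < lo Q := by simpa using hQ
  have hQmin : ∀ k, hi P < lo k → lo Q ≤ lo k := fun k hk => hQmin k (by simpa using hk)
  have hOQ : ¬ E Q := hbehind Q hPQ
  have haQ := hO Q hOQ
  have e1 : a (jn Q) ≤ a (jn P) := by
    rw [← haQ]
    exact (hQmin k1 hk1).trans h1
  obtain ⟨k2, h3, h4⟩ := hL Q hOQ
  have hbQ : b (jn Q) < lo Q := by rw [haQ]; exact hba _
  have e2 : b (jn Q) ≤ b (jn P) := by
    rw [← hbP]
    rcases eq_or_ne k2 P with rfl | hne3
    · exact h4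
    · rcases disj k2 P hne3 with h | h
      · exact h4.trans (h.le.trans (hlh P))
      · exact absurd ((hQmin k2 h).trans h3) (not_le.2 hbQ)
  refine nest (jn Q) (jn P) (fun h => hOQ ((hty Q).2 h)) ((hty P).1 hEP) e2 ?_ e1
  rw [← haQ, ← hbP]
  exact hPQ

end core

/-! ## The class graph -/

/-- **values on the classes of the circles.**
`L` = the used letters, `val (inl p)` = the value of the class of the letter `p`, `val (inr c)` = the
value of the class of the own link of `c` (for the root: the value of its left over class).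
An item is odd if it contains an odd number of letters. `fs q`, `sn q` = the first and the second
member (contour order) of the pair `q` on the circle `cq q` (a cancelled port and its partner, or two
fused ports). A pair ends with the corner `b j` of a dock (`E q`) or starts with the corner `a j`
(`¬ E q`). Every odd item which is in no pair has the value of the own link of its circle; an even
child has this value or the value of a pair, and then it stands between the two members of the pair or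
it is closed: every dock has both or none of its corners `b j`, `a j` in its subtree. -/
structure GraphG (C α Q J : Type*) [LinearOrder α] extends Contour C α where
  L : Finset α
  val : α ⊕ C → ZMod 2
  b : J → α
  a : J → α
  hba : ∀ j, b j < a j
  ty : J → Prop
  nest : ∀ i j, ¬ ty i → ty j → b i ≤ b j → b j < a i → a i ≤ a j → False
  clo : ∀ j, ∑ q ∈ L with (b j ≤ q ∧ q ≤ a j), val (Sum.inl q) = 0
  clo1 : ∀ j, Even (L.filter fun q => b j ≤ q ∧ q ≤ a j).card
  ex : Option α
  ex_clo : ∀ e ∈ ex, ∑ q ∈ L with q < e, val (Sum.inl q) = 0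
  ex_clo1 : ∀ e ∈ ex, Even (L.filter fun q => q < e).card
  ex_val : ∀ e ∈ ex, val (Sum.inl e) = val (Sum.inr toContour.r)
  cq : Q → C
  fs : Q → α ⊕ C
  sn : Q → α ⊕ C
  E : Q → Prop
  jn : Q → Option J
  hty : ∀ q j, jn q = some j → (E q ↔ ty j)
  fs_host : ∀ q, toContour.host (fs q) = cq q
  sn_host : ∀ q, toContour.host (sn q) = cq q
  fs_ne : ∀ q, fs q ≠ Sum.inr toContour.r
  sn_ne : ∀ q, sn q ≠ Sum.inr toContour.r
  fs_odd : ∀ q, Odd (toContour.lt L (fs q)).card
  sn_odd : ∀ q, Odd (toContour.lt L (sn q)).card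
  fs_sn : ∀ q, toContour.ihi (fs q) < toContour.ilo (sn q)
  qdisj : ∀ q q', q ≠ q' → cq q = cq q' →
    (toContour.ihi (sn q) < toContour.ilo (fs q') ∨ toContour.ihi (sn q') < toContour.ilo (fs q)) ∨
    ((toContour.ihi (fs q) < toContour.ilo (fs q') ∧ toContour.ihi (sn q') < toContour.ilo (sn q)) ∨
      (toContour.ihi (fs q') < toContour.ilo (fs q) ∧ toContour.ihi (sn q) < toContour.ilo (sn q')))
  hE : ∀ q, E q → ∀ j, jn q = some j → sn q = Sum.inl (b j)
  hO : ∀ q, ¬ E q → ∀ j, jn q = some j → fs q = Sum.inl (a j)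
  hEx : ∀ q, E q → jn q = none → ∃ e ∈ ex, sn q = Sum.inl e
  hOx : ∀ q, ¬ E q → jn q = none → ∃ e ∈ ex, fs q = Sum.inl e
  vq : ∀ q, val (fs q) = val (sn q)
  vodd : ∀ i, i ≠ Sum.inr toContour.r → Odd (toContour.lt L i).card →
    val i = val (Sum.inr (toContour.host i)) ∨ ∃ q, i = fs q ∨ i = sn q
  veven : ∀ c, c ≠ toContour.r → Even (toContour.lt L (Sum.inr c)).card →
    val (Sum.inr c) = val (Sum.inr (toContour.par c)) ∨
    ∃ q, cq q = toContour.par c ∧ val (Sum.inr c) = val (sn q) ∧
      ((toContour.ihi (fs q) < toContour.lo c ∧ toContour.hi c < toContour.ilo (sn q)) ∨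
        ∀ j, (toContour.lo c ≤ b j ∧ b j ≤ toContour.hi c) ↔
          (toContour.lo c ≤ a j ∧ a j ≤ toContour.hi c))

namespace GraphG

variable {C α Q J : Type*} [LinearOrder α] (G : GraphG C α Q J)

lemma b_add (x : ZMod 2) : x + x = 0 := by revert x; decide

lemma cast_odd {n : ℕ} (h : Odd n) : (n : ZMod 2) = 1 := by
  rw [ZMod.natCast_eq_one_iff_odd]; exact h

lemma cast_even {n : ℕ} (h : Even n) : (n : ZMod 2) = 0 := by
  rw [ZMod.natCast_eq_zero_iff_even]; exact h

lemma letter_mem {p : α} (h : Odd (G.lt G.L (Sum.inl p : α ⊕ C)).card) : p ∈ G.L := by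
  obtain ⟨q, hq⟩ := Finset.card_pos.1 h.pos
  obtain ⟨h1, h2, h3⟩ := G.mem_lt.1 hq
  simp only [Contour.ilo_inl, Contour.ihi_inl] at h2 h3
  rwa [le_antisymm h3 h2] at h1

/-- the members of the pairs -/
def mem2 (x : Q × Bool) : α ⊕ C := if x.2 then G.fs x.1 else G.sn x.1

lemma mem2_host (x : Q × Bool) : G.host (G.mem2 x) = G.cq x.1 := by
  unfold mem2; split
  · exact G.fs_host _
  · exact G.sn_host _

lemma mem2_ne (x : Q × Bool) : G.mem2 x ≠ Sum.inr G.r := by
  unfold mem2; split
  · exact G.fs_ne _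
  · exact G.sn_ne _

lemma mem2_odd (x : Q × Bool) : Odd (G.lt G.L (G.mem2 x)).card := by
  unfold mem2; split
  · exact G.fs_odd _
  · exact G.sn_odd _

lemma mem2_val (x : Q × Bool) : G.val (G.mem2 x) = G.val (G.sn x.1) := by
  unfold mem2; split
  · exact G.vq _
  · rfl

lemma mem2_ge (x : Q × Bool) : G.ilo (G.fs x.1) ≤ G.ilo (G.mem2 x) := by
  unfold mem2; split
  · exact le_rfl
  · exact (G.ile _).trans (G.fs_sn _).le

lemma mem2_le (x : Q × Bool) : G.ihi (G.mem2 x) ≤ G.ihi (G.sn x.1) := by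
  unfold mem2; split
  · exact (G.fs_sn _).le.trans (G.ile _)
  · exact le_rfl

lemma mem2_inj : Function.Injective G.mem2 := by
  rintro ⟨q, c⟩ ⟨q', c'⟩ h
  have hq : q = q' := by
    by_contra hne
    have h1 : G.cq q = G.cq q' := by
      have e1 := G.mem2_host (q, c)
      have e2 := G.mem2_host (q', c')
      rw [h] at e1
      exact e1.symm.trans e2
    have h2 := G.mem2_ge (q, c)
    have h3 := G.mem2_le (q, c)
    have h4 := G.mem2_ge (q', c')
    have h5 := G.mem2_le (q', c')
    have h6 := G.ile (G.mem2 (q, c))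
    rw [h] at h2 h3 h6
    simp only at h2 h3 h4 h5
    rcases G.qdisj q q' hne h1 with (h7 | h7) | ⟨h7, h8⟩ | ⟨h7, h8⟩
    · exact absurd ((h6.trans h3).trans_lt h7) (not_lt.2 h4)
    · exact absurd ((h6.trans h5).trans_lt h7) (not_lt.2 h2)
    · have e0 := G.ile (G.mem2 (q', c'))
      unfold mem2 at h e0 h4 h5
      cases c <;> cases c' <;> simp only [Bool.false_eq_true, if_false, if_true] at h e0 h4 h5
      · rw [h] at h8
        exact absurd (h8.trans_le (G.ile _)) (lt_irrefl _)
      · have := (G.fs_sn q').trans_le (G.ile _)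
        rw [← h] at this
        exact absurd (this.trans h8) (not_lt.2 (G.ile _))
      · have := (h7.trans_le (G.ile _)).trans (G.fs_sn q')
        rw [h] at this
        exact absurd this (not_lt.2 (G.ile _))
      · rw [h] at h7
        exact absurd (h7.trans_le (G.ile _)) (lt_irrefl _)
    · have e0 := G.ile (G.mem2 (q', c'))
      unfold mem2 at h e0 h4 h5
      cases c <;> cases c' <;> simp only [Bool.false_eq_true, if_false, if_true] at h e0 h4 h5
      · rw [← h] at h8
        exact absurd (h8.trans_le (G.ile _)) (lt_irrefl _)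
      · have := (h7.trans_le (G.ile _)).trans (G.fs_sn q)
        rw [← h] at this
        exact absurd this (not_lt.2 (G.ile _))
      · have := (G.fs_sn q).trans_le (G.ile _)
        rw [h] at this
        exact absurd (this.trans h8) (not_lt.2 (G.ile _))
      · rw [← h] at h7
        exact absurd (h7.trans_le (G.ile _)) (lt_irrefl _)
  subst hq
  have hc : c = c' := by
    by_contra hne
    have h1 : G.fs q = G.sn q := by
      unfold mem2 at h
      cases c <;> cases c' <;> simp_all
    have h2 := G.fs_sn q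
    rw [h1] at h2
    exact absurd h2 (not_lt.2 (G.ile _))
  rw [hc]

lemma mem2_items [Fintype C] (x : Q × Bool) : G.mem2 x ∈ G.items G.L (G.cq x.1) := by
  refine G.mem_items.2 ⟨?_, G.mem2_host x, G.mem2_ne x⟩
  intro p hp
  have := G.mem2_odd x
  rw [hp] at this
  exact G.letter_mem this

variable [Fintype C] [Fintype Q]

open Classical in
/-- the sum over the items of a circle is a sum over its pairs -/
lemma sum_pairs (z : C) (χ : α ⊕ C → ZMod 2) :
    ∑ i ∈ G.items G.L z, χ i * (((G.lt G.L i).card : ZMod 2) *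
        (G.val i + G.val (Sum.inr z))) =
      ∑ q with G.cq q = z, (χ (G.fs q) + χ (G.sn q)) * (G.val (G.sn q) + G.val (Sum.inr z)) := by
  set t : α ⊕ C → ZMod 2 := fun i => χ i * (((G.lt G.L i).card : ZMod 2) *
    (G.val i + G.val (Sum.inr z))) with ht
  have h1 : ∑ i ∈ G.items G.L z, t i =
      ∑ i ∈ (Finset.univ.filter fun x : Q × Bool => G.cq x.1 = z).image G.mem2, t i := by
    symm
    refine Finset.sum_subset ?_ ?_
    · intro i hi
      obtain ⟨x, hx, rfl⟩ := Finset.mem_image.1 hi
      have hx : G.cq x.1 = z := by simpa using hx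
      rw [← hx]
      exact G.mem2_items x
    · intro i hi hni
      obtain ⟨-, hi2, hi3⟩ := G.mem_items.1 hi
      rcases Nat.even_or_odd (G.lt G.L i).card with h | h
      · simp only [ht, cast_even h]; ring
      · rcases G.vodd i hi3 h with h2 | ⟨q, h2⟩
        · rw [hi2] at h2
          simp only [ht, h2, b_add]; ring
        · exfalso
          apply hni
          rcases h2 with h2 | h2
          · refine Finset.mem_image.2 ⟨(q, true), ?_, ?_⟩
            · simp only [Finset.mem_filter, Finset.mem_univ, true_and]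
              rw [← G.fs_host, ← h2, hi2]
            · simp [mem2, h2]
          · refine Finset.mem_image.2 ⟨(q, false), ?_, ?_⟩
            · simp only [Finset.mem_filter, Finset.mem_univ, true_and]
              rw [← G.sn_host, ← h2, hi2]
            · simp [mem2, h2]
  rw [h1, Finset.sum_image (fun x _ y _ h => G.mem2_inj h), Finset.sum_filter,
    Fintype.sum_prod_type, Finset.sum_filter]
  refine Finset.sum_congr rfl fun q _ => ?_
  rw [Fintype.sum_bool]
  by_cases hq : G.cq q = z
  · simp only [hq, if_true, ht, mem2, cast_odd (G.fs_odd q), G.vq q]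
    simp only [Bool.false_eq_true, if_false]
    rw [cast_odd (G.sn_odd q)]
    ring
  · simp [hq]

/-- the sum over a subtree -/
lemma sum_lt (i : α ⊕ C) (hi : ∀ p, i = Sum.inl p → p ∈ G.L) :
    ∑ q ∈ G.lt G.L i, G.val (Sum.inl q) = ((G.lt G.L i).card : ZMod 2) * G.val i := by
  classical
  obtain ⟨M, hM⟩ : ∃ M, ∀ c, G.dep c ≤ M :=
    ⟨Finset.univ.sup G.dep, fun c => Finset.le_sup (Finset.mem_univ c)⟩
  have hletter : ∀ p ∈ G.L, ∑ q ∈ G.lt G.L (Sum.inl p : α ⊕ C), G.val (Sum.inl q) =
      ((G.lt G.L (Sum.inl p : α ⊕ C)).card : ZMod 2) * G.val (Sum.inl p) := by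
    intro p hp
    rw [G.lt_inl hp, Finset.sum_singleton, Finset.card_singleton]
    simp
  have key : ∀ (n : ℕ) (z : C), M - G.dep z ≤ n →
      ∑ q ∈ G.lt G.L (Sum.inr z : α ⊕ C), G.val (Sum.inl q) =
        ((G.lt G.L (Sum.inr z : α ⊕ C)).card : ZMod 2) * G.val (Sum.inr z) := by
    intro n
    induction n with
    | zero =>
      intro z hz
      exact step z (fun c hc hcz => by
        have h1 := G.dep_par c hc
        have h2 := hM c
        rw [hcz] at h1
        omega)
    | succ n ih =>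
      intro z hz
      exact step z (fun c hc hcz => by
        have h1 := G.dep_par c hc
        have h2 := hM c
        rw [hcz] at h1
        exact ih c (by omega))
  rcases i with p | c
  · exact hletter p (hi p rfl)
  · exact key _ c le_rfl
where
  step (z : C) (ih : ∀ c, c ≠ G.r → G.par c = z →
      ∑ q ∈ G.lt G.L (Sum.inr c : α ⊕ C), G.val (Sum.inl q) =
        ((G.lt G.L (Sum.inr c : α ⊕ C)).card : ZMod 2) * G.val (Sum.inr c)) :
      ∑ q ∈ G.lt G.L (Sum.inr z : α ⊕ C), G.val (Sum.inl q) =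
        ((G.lt G.L (Sum.inr z : α ⊕ C)).card : ZMod 2) * G.val (Sum.inr z) := by
    classical
    have h1 := G.sum_items G.L z (fun _ => True) (fun q => G.val (Sum.inl q))
    have h2 := G.sum_items G.L z (fun _ => True) (fun _ => (1 : ZMod 2))
    simp only [Finset.filter_true, Finset.sum_const, nsmul_eq_mul, mul_one] at h1 h2
    have h3 := G.sum_pairs z (fun _ => 1)
    simp only [b_add, zero_mul, Finset.sum_const_zero, one_mul] at h3
    have h4 : ∑ i ∈ G.items G.L z, ∑ q ∈ G.lt G.L i, G.val (Sum.inl q) =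
        ∑ i ∈ G.items G.L z, ((G.lt G.L i).card : ZMod 2) * G.val i := by
      refine Finset.sum_congr rfl fun i hi => ?_
      obtain ⟨e1, e2, e3⟩ := G.mem_items.1 hi
      rcases i with p | c
      · rw [G.lt_inl (e1 p rfl), Finset.sum_singleton, Finset.card_singleton]
        simp
      · exact ih c (fun h => e3 (by rw [h])) e2
    rw [h1, h4, h2, Finset.sum_mul]
    have h5 : ∑ i ∈ G.items G.L z, ((G.lt G.L i).card : ZMod 2) * G.val i +
        ∑ i ∈ G.items G.L z, ((G.lt G.L i).card : ZMod 2) * G.val (Sum.inr z) = 0 := by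
      rw [← Finset.sum_add_distrib, ← h3]
      exact Finset.sum_congr rfl fun i _ => by ring
    have key : ∀ x y : ZMod 2, x + y = 0 → x = y := by decide
    exact key _ _ h5

open Classical in
/-- the sum over the letters of `z` in a cut `P` -/
lemma sum_cut {z : C} (hz : G.val (Sum.inr z) = 0) (P : α → Prop)
    (hP : ∀ p q, p ≤ q → P q → P p)
    (hcut : ∀ i ∈ G.items G.L z, P (G.ihi i) ∨ ¬ P (G.ilo i)) :
    ∑ q ∈ (G.lt G.L (Sum.inr z : α ⊕ C)).filter P, G.val (Sum.inl q) =
      ∑ q with G.cq q = z, ((if P (G.ihi (G.fs q)) then 1 else 0) +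
        (if P (G.ihi (G.sn q)) then 1 else 0)) * G.val (G.sn q) := by
  rw [G.sum_items]
  have h1 := G.sum_pairs z (fun i => if P (G.ihi i) then 1 else 0)
  simp only [hz, add_zero] at h1
  rw [← h1]
  refine Finset.sum_congr rfl fun i hi => ?_
  have hi2 := G.mem_items.1 hi
  rcases hcut i hi with h | h
  · rw [if_pos h, one_mul, ← G.sum_lt i hi2.1, Finset.filter_true_of_mem]
    intro q hq
    exact hP _ _ (G.mem_lt.1 hq).2.2 h
  · have h2 : ¬ P (G.ihi i) := fun h' => h (hP _ _ (G.ile i) h')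
    rw [if_neg h2, zero_mul, Finset.filter_false_of_mem, Finset.sum_empty]
    intro q hq h'
    exact h (hP _ _ (G.mem_lt.1 hq).2.1 h')

open Classical in
/-- the sum over the letters in a cut -/
noncomputable def f (P : α → Prop) : ZMod 2 := ∑ q ∈ G.L.filter P, G.val (Sum.inl q)

open Classical in
lemma f_empty {P : α → Prop} (h : ∀ q, ¬ P q) : G.f P = 0 := by
  unfold f
  rw [Finset.filter_false_of_mem (fun q _ => h q), Finset.sum_empty]

/-- a child in the block of a pair with value 1, or a closed child of value 1 -/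
def Blocked (c : C) : Prop :=
  (∃ q, G.cq q = G.par c ∧ G.val (G.sn q) ≠ 0 ∧ G.ilo (G.fs q) ≤ G.lo c ∧
      G.hi c ≤ G.ihi (G.sn q)) ∨
    (G.val (Sum.inr c) ≠ 0 ∧ ∀ j, (G.lo c ≤ G.b j ∧ G.b j ≤ G.hi c) ↔
      (G.lo c ≤ G.a j ∧ G.a j ≤ G.hi c))

/-- the circles which are in no block -/
inductive Exp : C → Prop
  | root : Exp G.r
  | step (c : C) : c ≠ G.r → Exp (G.par c) → ¬ G.Blocked c → Exp c

lemma exp_par {c : C} (hc : c ≠ G.r) (h : G.Exp c) : G.Exp (G.par c) ∧ ¬ G.Blocked c := by
  cases h with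
  | root => exact absurd rfl hc
  | step _ _ h1 h2 => exact ⟨h1, h2⟩

lemma exp_up {z z' : C} (h : Relation.ReflTransGen G.Up z z') (hz : G.Exp z) : G.Exp z' := by
  induction h with
  | refl => exact hz
  | tail _ h ih =>
    rw [← h.2]
    exact (G.exp_par h.1 ih).1

/-- every position is in a block on an exposed circle, or its circle is exposed -/
lemma cases_pt (z : C) : G.Exp z ∨ ∃ c, c ≠ G.r ∧ G.Exp (G.par c) ∧ G.Blocked c ∧
    Relation.ReflTransGen G.Up z c := by
  have key : ∀ (n : ℕ) (z : C), G.dep z ≤ n → (G.Exp z ∨ ∃ c, c ≠ G.r ∧ G.Exp (G.par c) ∧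
      G.Blocked c ∧ Relation.ReflTransGen G.Up z c) := by
    intro n
    induction n with
    | zero =>
      intro z hz
      by_cases h : z = G.r
      · left; rw [h]; exact Exp.root
      · have := G.dep_par z h
        omega
    | succ n ih =>
      intro z hz
      by_cases h : z = G.r
      · left; rw [h]; exact Exp.root
      · have h1 := G.dep_par z h
        rcases ih (G.par z) (by omega) with h2 | ⟨c, h2, h3, h4, h5⟩
        · by_cases h3 : G.Blocked z
          · right; exact ⟨z, h, h2, h3, Relation.ReflTransGen.refl⟩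
          · left; exact Exp.step z h h2 h3
        · right; exact ⟨c, h2, h3, h4, Relation.ReflTransGen.head ⟨h, rfl⟩ h5⟩
  exact key _ z le_rfl

open Classical in
/-- a lower set of positions which cuts the subtree of `z` -/
lemma f_split {z : C} {P : α → Prop} (h1 : ∀ q, q < G.lo z → P q) (h2 : ∀ q, P q → q ≤ G.hi z) :
    G.f P = G.f (fun q => q < G.lo z) +
      ∑ q ∈ (G.lt G.L (Sum.inr z : α ⊕ C)).filter P, G.val (Sum.inl q) := by
  unfold f
  rw [← Finset.sum_filter_add_sum_filter_not (G.L.filter P) (fun q => q < G.lo z)]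
  congr 1
  · refine Finset.sum_congr ?_ fun _ _ => rfl
    ext q
    simp only [Finset.mem_filter]
    exact ⟨fun h => ⟨h.1.1, h.2⟩, fun h => ⟨⟨h.1, h1 q h.2⟩, h.2⟩⟩
  · refine Finset.sum_congr ?_ fun _ _ => rfl
    ext q
    simp only [Finset.mem_filter, Contour.mem_lt, Contour.ilo_inr, Contour.ihi_inr, not_lt]
    exact ⟨fun h => ⟨⟨h.1.1, h.2, h2 q h.1.2⟩, h.1.2⟩, fun h => ⟨⟨h.1.1, h.2⟩, h.1.2.1⟩⟩

/-- a cut without straddling pairs of value 1 -/
lemma f_zero {z : C} (hz : G.val (Sum.inr z) = 0) (hf : G.f (fun q => q < G.lo z) = 0)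
    {P : α → Prop} (hP : ∀ p q, p ≤ q → P q → P p) (h1 : ∀ q, q < G.lo z → P q)
    (h2 : ∀ q, P q → q ≤ G.hi z)
    (hcut : ∀ i ∈ G.items G.L z, P (G.ihi i) ∨ ¬ P (G.ilo i))
    (hstr : ∀ q, G.cq q = z → G.val (G.sn q) ≠ 0 → P (G.ihi (G.fs q)) → P (G.ihi (G.sn q))) :
    G.f P = 0 := by
  classical
  rw [G.f_split h1 h2, hf, zero_add, G.sum_cut hz P hP hcut]
  refine Finset.sum_eq_zero fun q hq => ?_
  have hq : G.cq q = z := by simpa using hq
  by_cases hv : G.val (G.sn q) = 0
  · rw [hv, mul_zero]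
  · have h3 := hstr q hq hv
    by_cases h4 : P (G.ihi (G.sn q))
    · have h5 : P (G.ihi (G.fs q)) := hP _ _ ((G.fs_sn q).le.trans (G.ile _)) h4
      rw [if_pos h4, if_pos h5, b_add, zero_mul]
    · have h5 : ¬ P (G.ihi (G.fs q)) := fun h => h4 (h3 h)
      rw [if_neg h4, if_neg h5, add_zero, zero_mul]

/-- exposed circles have value zero -/
lemma exp_val (h0 : G.val (Sum.inr G.r) = 0) {z : C} (hz : G.Exp z) :
    G.val (Sum.inr z) = 0 ∧ G.f (fun q => q < G.lo z) = 0 := by
  classical
  induction hz with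
  | root =>
    exact ⟨h0, G.f_empty fun q h => absurd (G.top q).1 (not_le.2 h)⟩
  | step c hc hz hb ih =>
    obtain ⟨ih1, ih2⟩ := ih
    have hval : G.val (Sum.inr c) = 0 := by
      by_contra h
      rcases Nat.even_or_odd (G.lt G.L (Sum.inr c : α ⊕ C)).card with he | ho
      · rcases G.veven c hc he with h1 | ⟨q, h1, h2, h3 | h3⟩
        · exact h (h1.trans ih1)
        · exact hb (Or.inl ⟨q, h1, h2 ▸ h, ((G.ile _).trans_lt h3.1).le,
            (h3.2.trans_le (G.ile _)).le⟩)
        · exact hb (Or.inr ⟨h, h3⟩)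
      · rcases G.vodd (Sum.inr c) (fun h => hc (Sum.inr_injective h)) ho with h1 | ⟨q, h1 | h1⟩
        · exact h (h1.trans ih1)
        · refine hb (Or.inl ⟨q, ?_, ?_, ?_, ?_⟩)
          · rw [← G.fs_host, ← h1]; rfl
          · rw [← G.vq, ← h1]; exact h
          · rw [← h1]; exact le_rfl
          · have := G.fs_sn q
            rw [← h1] at this
            exact this.le.trans (G.ile _)
        · refine hb (Or.inl ⟨q, ?_, ?_, ?_, ?_⟩)
          · rw [← G.sn_host, ← h1]; rfl
          · rw [← h1]; exact h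
          · have := G.fs_sn q
            rw [← h1] at this
            exact (G.ile _).trans this.le
          · rw [← h1]; exact le_rfl
    refine ⟨hval, ?_⟩
    have hcm := G.child_mem hc ⟨le_rfl, G.le c⟩
    have hcne : (Sum.inr c : α ⊕ C) ≠ Sum.inr G.r := fun h => hc (Sum.inr_injective h)
    have hcut : ∀ i : α ⊕ C, G.host i = G.par c → i ≠ Sum.inr G.r →
        G.ihi i < G.lo c ∨ ¬ G.ilo i < G.lo c := by
      intro i hi1 hi2
      by_cases h : i = Sum.inr c
      · right; rw [h]; exact lt_irrefl _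
      · rcases G.item_disj (i := i) (i' := Sum.inr c) hi1 hi2 hcne h with h1 | h1
        · left; exact h1
        · right; exact not_lt.2 ((G.le c).trans h1.le)
    refine G.f_zero ih1 ih2 (P := fun q => q < G.lo c) (fun p q h1 h2 => h1.trans_lt h2)
      (fun q h => h.trans_le hcm.1) (fun q h => h.le.trans hcm.2) ?_ ?_
    · intro i hi
      obtain ⟨-, hi1, hi2⟩ := G.mem_items.1 hi
      exact hcut i hi1 hi2
    · intro q hq hv h1
      by_contra h2
      have h3 : G.hi c ≤ G.ihi (G.sn q) := by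
        by_cases h : G.sn q = Sum.inr c
        · rw [h]; exact le_rfl
        · rcases G.item_disj (i := G.sn q) (i' := Sum.inr c) ((G.sn_host q).trans hq)
            (G.sn_ne q) hcne h with h4 | h4
          · exact absurd h4 h2
          · exact h4.le.trans (G.ile _)
      exact hb (Or.inl ⟨q, hq, hv, ((G.ile _).trans_lt h1).le, h3⟩)

/-- positions in no block -/
lemma pt_zero (h0 : G.val (Sum.inr G.r) = 0) {p : α} (hp : G.Exp (G.pt p))
    (hb : ∀ q, G.cq q = G.pt p → G.val (G.sn q) ≠ 0 →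
      ¬ (G.ilo (G.fs q) ≤ p ∧ p ≤ G.ihi (G.sn q))) :
    G.f (fun q => q < p) = 0 ∧ G.f (fun q => q ≤ p) = 0 := by
  obtain ⟨h1, h2⟩ := G.exp_val h0 hp
  have h3 := G.pt_mem p
  constructor
  · refine G.f_zero h1 h2 (fun x y h4 h5 => h4.trans_lt h5) (fun q h => h.trans_le h3.1)
      (fun q h => h.le.trans h3.2) ?_ ?_
    · intro i hi
      obtain ⟨-, hi1, hi2⟩ := G.mem_items.1 hi
      rcases i with x | c
      · exact Classical.em _
      · rcases G.pt_disj c p (fun h => hi2 (by rw [h])) hi1.symm with h | h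
        · right; exact not_lt.2 h.le
        · left; exact h
    · intro q hq hv h4
      by_contra h5
      exact hb q hq hv ⟨((G.ile _).trans_lt h4).le, not_lt.1 h5⟩
  · refine G.f_zero h1 h2 (fun x y h4 h5 => h4.trans h5) (fun q h => h.le.trans h3.1)
      (fun q h => h.trans h3.2) ?_ ?_
    · intro i hi
      obtain ⟨-, hi1, hi2⟩ := G.mem_items.1 hi
      rcases i with x | c
      · exact Classical.em _
      · rcases G.pt_disj c p (fun h => hi2 (by rw [h])) hi1.symm with h | h
        · right; exact not_le.2 h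
        · left; exact h.le
    · intro q hq hv h4
      by_contra h5
      exact hb q hq hv ⟨(G.ile _).trans h4, (not_le.1 h5).le⟩

/-- an outermost pair of value 1 -/
def Out (q : Q) : Prop := G.val (G.sn q) ≠ 0 ∧ ∀ q', G.cq q' = G.cq q → G.val (G.sn q') ≠ 0 →
  ¬ (G.ihi (G.fs q') < G.ilo (G.fs q) ∧ G.ihi (G.sn q) < G.ilo (G.sn q'))

omit [Fintype C] in
lemma exists_out {q : Q} (hv : G.val (G.sn q) ≠ 0) : ∃ q', G.Out q' ∧ G.cq q' = G.cq q ∧
    G.ilo (G.fs q') ≤ G.ilo (G.fs q) ∧ G.ihi (G.sn q) ≤ G.ihi (G.sn q') := by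
  classical
  obtain ⟨q', hq', hmin⟩ := Finset.exists_min_image (Finset.univ.filter fun q' =>
      G.val (G.sn q') ≠ 0 ∧ G.cq q' = G.cq q ∧ G.ilo (G.fs q') ≤ G.ilo (G.fs q) ∧
        G.ihi (G.sn q) ≤ G.ihi (G.sn q')) (fun q' => G.ilo (G.fs q'))
    ⟨q, by simp [hv]⟩
  have hq' := (Finset.mem_filter.1 hq').2
  refine ⟨q', ⟨hq'.1, ?_⟩, hq'.2⟩
  rintro q'' h1 h2 ⟨h3, h4⟩
  have h5 := hmin q'' (Finset.mem_filter.2 ⟨Finset.mem_univ _, h2, h1.trans hq'.2.1,
    ((G.ile _).trans h3.le).trans hq'.2.2.1, hq'.2.2.2.trans (h4.le.trans (G.ile _))⟩)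
  exact absurd ((G.ile _).trans_lt h3) (not_lt.2 h5)

/-- where the partial sums are not zero -/
lemma in_block (h0 : G.val (Sum.inr G.r) = 0) {p : α}
    (h : G.f (fun q => q < p) ≠ 0 ∨ G.f (fun q => q ≤ p) ≠ 0) :
    (∃ q, G.Exp (G.cq q) ∧ G.Out q ∧ G.ilo (G.fs q) ≤ p ∧ p ≤ G.ihi (G.sn q)) ∨
    ∃ c, c ≠ G.r ∧ G.Blocked c ∧ (∀ j, (G.lo c ≤ G.b j ∧ G.b j ≤ G.hi c) ↔
      (G.lo c ≤ G.a j ∧ G.a j ≤ G.hi c)) ∧ G.lo c ≤ p ∧ p ≤ G.hi c := by
  have key : ∀ q, G.Exp (G.cq q) → G.val (G.sn q) ≠ 0 → G.ilo (G.fs q) ≤ p →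
      p ≤ G.ihi (G.sn q) →
      ∃ q, G.Exp (G.cq q) ∧ G.Out q ∧ G.ilo (G.fs q) ≤ p ∧ p ≤ G.ihi (G.sn q) := by
    intro q h1 h2 h3 h4
    obtain ⟨q', h5, h6, h7, h8⟩ := G.exists_out h2
    exact ⟨q', by rw [h6]; exact h1, h5, h7.trans h3, h4.trans h8⟩
  rcases G.cases_pt (G.pt p) with h1 | ⟨c, h1, h2, h3, h4⟩
  · left
    by_contra hcon
    have hcon' : ∀ q, G.Exp (G.cq q) → G.val (G.sn q) ≠ 0 → G.ilo (G.fs q) ≤ p →
        ¬ p ≤ G.ihi (G.sn q) := fun q h1 h2 h3 h4 => hcon (key q h1 h2 h3 h4)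
    obtain ⟨h2, h3⟩ := G.pt_zero h0 h1 (fun q hq hv h =>
      hcon' q (by rw [hq]; exact h1) hv h.1 h.2)
    rcases h with h | h
    · exact h h2
    · exact h h3
  · have h5 := G.mem_iff.2 h4
    rcases h3 with ⟨q, h6, h7, h8, h9⟩ | ⟨h6, h7⟩
    · left
      exact key q (by rw [h6]; exact h2) h7 (h8.trans h5.1) (h5.2.trans h9)
    · right
      exact ⟨c, h1, Or.inr ⟨h6, h7⟩, h7, h5.1, h5.2⟩

open Classical in
/-- the partial sum directly before the port of an outermost pair of type E -/
lemma f_E (h0 : G.val (Sum.inr G.r) = 0) {q : Q} (hq : G.Exp (G.cq q)) (ho : G.Out q) {p : α}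
    (hs : G.sn q = Sum.inl p) : G.f (fun x => x < p) = G.val (G.sn q) := by
  have hpt : G.pt p = G.cq q := by
    rw [← G.sn_host q, hs]; rfl
  have h3 := G.pt_mem p
  rw [hpt] at h3
  obtain ⟨h1, h2⟩ := G.exp_val h0 hq
  have hfs : G.ihi (G.fs q) < p := by
    have := G.fs_sn q
    rw [hs] at this
    exact this
  have hsn : G.ihi (G.sn q) = p := by rw [hs]; rfl
  have hsl : G.ilo (G.sn q) = p := by rw [hs]; rfl
  rw [G.f_split (z := G.cq q) (fun x h => h.trans_le h3.1) (fun x h => h.le.trans h3.2), h2,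
    zero_add, G.sum_cut h1 _ (fun x y h4 h5 => h4.trans_lt h5), Finset.sum_eq_single q]
  · rw [if_pos hfs, if_neg (by rw [hsn]; exact lt_irrefl _)]
    ring
  · intro q' hq' hne
    have hq' : G.cq q' = G.cq q := by simpa using hq'
    rcases G.qdisj q' q hne hq' with (h | h) | ⟨h, h'⟩ | ⟨h, h'⟩
    · have h5 : G.ihi (G.sn q') < p := h.trans_le ((G.ile _).trans hfs.le)
      have h6 : G.ihi (G.fs q') < p := ((G.fs_sn q').trans_le (G.ile _)).trans h5
      rw [if_pos h5, if_pos h6, b_add, zero_mul]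
    · rw [hsn] at h
      have h5 : ¬ G.ihi (G.fs q') < p := not_lt.2 (h.le.trans (G.ile _))
      have h6 : ¬ G.ihi (G.sn q') < p :=
        fun h7 => h5 (((G.fs_sn q').trans_le (G.ile _)).trans h7)
      rw [if_neg h5, if_neg h6, add_zero, zero_mul]
    · have hv : G.val (G.sn q') = 0 := by
        by_contra hv
        exact ho.2 q' hq' hv ⟨h, h'⟩
      rw [hv, mul_zero]
    · rw [hsl] at h'
      have h6 : G.ihi (G.fs q') < p := ((G.fs_sn q').trans_le (G.ile _)).trans h'
      rw [if_pos h', if_pos h6, b_add, zero_mul]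
  · intro h
    exact absurd (by simp) h
  · intro i hi
    obtain ⟨-, hi1, hi2⟩ := G.mem_items.1 hi
    rcases i with x | c
    · exact Classical.em _
    · rcases G.pt_disj c p (fun h => hi2 (by rw [h])) (hpt.trans hi1.symm)
        with h | h
      · right; exact not_lt.2 h.le
      · left; exact h

open Classical in
/-- the partial sum up to the port of an outermost pair of type O -/
lemma f_O (h0 : G.val (Sum.inr G.r) = 0) {q : Q} (hq : G.Exp (G.cq q)) (ho : G.Out q) {p : α}
    (hs : G.fs q = Sum.inl p) : G.f (fun x => x ≤ p) = G.val (G.sn q) := by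
  have hpt : G.pt p = G.cq q := by
    rw [← G.fs_host q, hs]; rfl
  have h3 := G.pt_mem p
  rw [hpt] at h3
  obtain ⟨h1, h2⟩ := G.exp_val h0 hq
  have hfs : G.ihi (G.fs q) = p := by rw [hs]; rfl
  have hfl : G.ilo (G.fs q) = p := by rw [hs]; rfl
  have hsn : p < G.ihi (G.sn q) := by
    have := (G.fs_sn q).trans_le (G.ile _)
    rwa [hfs] at this
  rw [G.f_split (z := G.cq q) (fun x h => h.le.trans h3.1) (fun x h => h.trans h3.2), h2,
    zero_add, G.sum_cut h1 _ (fun x y h4 h5 => h4.trans h5), Finset.sum_eq_single q]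
  · rw [if_pos hfs.le, if_neg (not_le.2 hsn)]
    ring
  · intro q' hq' hne
    have hq' : G.cq q' = G.cq q := by simpa using hq'
    rcases G.qdisj q' q hne hq' with (h | h) | ⟨h, h'⟩ | ⟨h, h'⟩
    · rw [hfl] at h
      have h6 : G.ihi (G.fs q') ≤ p :=
        (((G.fs_sn q').trans_le (G.ile _)).trans h).le
      rw [if_pos h.le, if_pos h6, b_add, zero_mul]
    · have h5 : ¬ G.ihi (G.fs q') ≤ p :=
        not_le.2 (hsn.trans (h.trans_le (G.ile _)))
      have h6 : ¬ G.ihi (G.sn q') ≤ p :=
        fun h7 => h5 (((G.fs_sn q').trans_le (G.ile _)).le.trans h7)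
      rw [if_neg h5, if_neg h6, add_zero, zero_mul]
    · have hv : G.val (G.sn q') = 0 := by
        by_contra hv
        exact ho.2 q' hq' hv ⟨h, h'⟩
      rw [hv, mul_zero]
    · rw [hfs] at h
      have h5 : ¬ G.ihi (G.fs q') ≤ p := not_le.2 (h.trans_le (G.ile _))
      have h6 : ¬ G.ihi (G.sn q') ≤ p :=
        fun h7 => h5 (((G.fs_sn q').trans_le (G.ile _)).le.trans h7)
      rw [if_neg h5, if_neg h6, add_zero, zero_mul]
  · intro h
    exact absurd (by simp) h
  · intro i hi
    obtain ⟨-, hi1, hi2⟩ := G.mem_items.1 hi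
    rcases i with x | c
    · exact Classical.em _
    · rcases G.pt_disj c p (fun h => hi2 (by rw [h])) (hpt.trans hi1.symm)
        with h | h
      · right; exact not_le.2 h
      · left; exact h.le

/-- closure -/
lemma f_clo (j : J) : G.f (fun x => x ≤ G.a j) = G.f (fun x => x < G.b j) := by
  have key : ∀ s t u : Finset α, (∀ q, q ∈ s ↔ q ∈ t ∨ q ∈ u) → (∀ q, q ∈ t → q ∉ u) →
      ∑ q ∈ s, G.val (Sum.inl q) = ∑ q ∈ t, G.val (Sum.inl q) + ∑ q ∈ u, G.val (Sum.inl q) := by
    classical
    intro s t u h1 h2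
    rw [← Finset.sum_union (Finset.disjoint_left.2 (fun q => h2 q))]
    exact Finset.sum_congr (by ext q; rw [h1, Finset.mem_union]) fun _ _ => rfl
  unfold f
  refine (key _ _ _ ?_ ?_).trans ((congrArg _ (G.clo j)).trans (add_zero _))
  · intro q
    simp only [Finset.mem_filter]
    constructor
    · rintro ⟨h1, h2⟩
      rcases lt_or_ge q (G.b j) with h | h
      · exact Or.inl ⟨h1, h⟩
      · exact Or.inr ⟨h1, h, h2⟩
    · rintro (⟨h1, h2⟩ | ⟨h1, -, h2⟩)
      · exact ⟨h1, h2.le.trans (G.hba j).le⟩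
      · exact ⟨h1, h2⟩
  · intro q
    simp only [Finset.mem_filter]
    rintro ⟨-, h1⟩ ⟨-, h2, -⟩
    exact absurd h1 (not_lt.2 h2)

/-- blocks on different exposed circles are disjoint -/
lemma nested_absurd {q q' : Q} (h : G.cq q ≠ G.cq q')
    (hup : Relation.ReflTransGen G.Up (G.cq q') (G.cq q)) (hexp : G.Exp (G.cq q'))
    (hv : G.val (G.sn q) ≠ 0) {p : α} (hp : G.ilo (G.fs q) ≤ p ∧ p ≤ G.ihi (G.sn q))
    (hp' : G.lo (G.cq q') ≤ p ∧ p ≤ G.hi (G.cq q')) : False := by
  rcases Relation.ReflTransGen.cases_tail hup with h1 | ⟨c, h1, h2, h3⟩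
  · exact h h1
  have hpc := G.up_mem h1 hp'
  have hne : (Sum.inr c : α ⊕ C) ≠ Sum.inr G.r := fun h => h2 (Sum.inr_injective h)
  refine (G.exp_par h2 (G.exp_up h1 hexp)).2 (Or.inl ⟨q, h3.symm, hv, ?_, ?_⟩)
  · by_cases h4 : G.fs q = Sum.inr c
    · rw [h4]; exact le_rfl
    · rcases G.item_disj (i := G.fs q) (i' := Sum.inr c) ((G.fs_host q).trans h3.symm)
        (G.fs_ne q) hne h4 with h5 | h5
      · exact (G.ile _).trans h5.le
      · exact absurd (hpc.2.trans_lt h5) (not_lt.2 hp.1)
  · by_cases h4 : G.sn q = Sum.inr c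
    · rw [h4]; exact le_rfl
    · rcases G.item_disj (i := G.sn q) (i' := Sum.inr c) ((G.sn_host q).trans h3.symm)
        (G.sn_ne q) hne h4 with h5 | h5
      · exact absurd (hp.2.trans_lt h5) (not_lt.2 hpc.1)
      · exact (h5.trans_le (G.ile _)).le

lemma block_mem {q : Q} {p : α} (hp : G.ilo (G.fs q) ≤ p ∧ p ≤ G.ihi (G.sn q)) :
    G.lo (G.cq q) ≤ p ∧ p ≤ G.hi (G.cq q) := by
  have h1 := G.item_mem (G.fs_ne q) ⟨le_rfl, G.ile _⟩
  have h2 := G.item_mem (G.sn_ne q) ⟨G.ile _, le_rfl⟩
  rw [G.fs_host] at h1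
  rw [G.sn_host] at h2
  exact ⟨h1.1.trans hp.1, hp.2.trans h2.2⟩

/-- the exit has value 0 -/
lemma no_exit (h0 : G.val (Sum.inr G.r) = 0) {q : Q} (hq : G.Exp (G.cq q)) (ho : G.Out q) :
    ∃ j, G.jn q = some j := by
  classical
  rcases h : G.jn q with _ | j
  · exfalso
    by_cases hE : G.E q
    · obtain ⟨e, he, hs⟩ := G.hEx q hE h
      have h1 := G.f_E h0 hq ho hs
      have h4 : G.f (fun x => x < e) = 0 := by
        have := G.ex_clo e he
        unfold f
        convert this
      exact ho.1 (h1.symm.trans h4)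
    · obtain ⟨e, he, hs⟩ := G.hOx q hE h
      have h1 := G.f_O h0 hq ho hs
      have heL : e ∈ G.L := by
        have := G.fs_odd q
        rw [hs] at this
        exact G.letter_mem this
      have h2 : G.f (fun x => x ≤ e) = G.f (fun x => x < e) + G.val (Sum.inl e) := by
        unfold f
        have h3 : G.L.filter (fun x => x ≤ e) = insert e (G.L.filter fun x => x < e) := by
          ext x
          simp only [Finset.mem_filter, Finset.mem_insert]
          constructor
          · rintro ⟨h3, h4⟩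
            rcases h4.lt_or_eq with h4 | h4
            · exact Or.inr ⟨h3, h4⟩
            · exact Or.inl h4
          · rintro (rfl | ⟨h3, h4⟩)
            · exact ⟨heL, le_rfl⟩
            · exact ⟨h3, h4.le⟩
        have h3 : @Finset.filter _ (fun x => x ≤ e) (fun x => Classical.propDecidable _) G.L =
            insert e (@Finset.filter _ (fun x => x < e) (fun x => Classical.propDecidable _)
              G.L) := by
          convert h3
        rw [h3, Finset.sum_insert (by simp), add_comm]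
      have h4 : G.f (fun x => x < e) = 0 := by
        have := G.ex_clo e he
        unfold f
        convert this
      rw [h1, h4, zero_add, G.ex_val e he, h0] at h2
      exact ho.1 h2
  · exact ⟨j, rfl⟩

/-- there is no pair with value 1 on an exposed circle -/
theorem no_block (h0 : G.val (Sum.inr G.r) = 0) {q : Q} (hq : G.Exp (G.cq q)) :
    G.val (G.sn q) = 0 := by
  classical
  have hno : IsEmpty {q : Q // G.Exp (G.cq q) ∧ G.Out q} := by
    refine block_coreG (K := {q : Q // G.Exp (G.cq q) ∧ G.Out q}) G.b G.a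
      G.hba G.ty G.nest (fun k => G.ilo (G.fs k.1)) (fun k => G.ihi (G.sn k.1)) ?_ ?_
      (fun k => (G.no_exit h0 k.2.1 k.2.2).choose) (fun k => G.E k.1) ?_ ?_ ?_ ?_ ?_
    · intro k
      exact (G.ile _).trans ((G.fs_sn k.1).le.trans (G.ile _))
    · rintro ⟨k, hk, hv⟩ ⟨k', hk', hv'⟩ hne
      by_cases h : G.cq k = G.cq k'
      · rcases G.qdisj k k' (fun h' => hne (by simp [h'])) h with h1 | ⟨h1, h2⟩ | ⟨h1, h2⟩
        · exact h1
        · exact absurd ⟨h1, h2⟩ (hv'.2 k h hv.1)
        · exact absurd ⟨h1, h2⟩ (hv.2 k' h.symm hv'.1)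
      · by_contra hcon
        push Not at hcon
        have hcon1 : G.ilo (G.fs k') ≤ G.ihi (G.sn k) := hcon.1
        have hcon2 : G.ilo (G.fs k) ≤ G.ihi (G.sn k') := hcon.2
        have e1 : G.ilo (G.fs k) ≤ G.ihi (G.sn k) :=
          (G.ile _).trans ((G.fs_sn k).le.trans (G.ile _))
        have e2 : G.ilo (G.fs k') ≤ G.ihi (G.sn k') :=
          (G.ile _).trans ((G.fs_sn k').le.trans (G.ile _))
        set p := max (G.ilo (G.fs k)) (G.ilo (G.fs k')) with hp
        have hp1 : G.ilo (G.fs k) ≤ p ∧ p ≤ G.ihi (G.sn k) :=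
          ⟨le_max_left _ _, max_le e1 hcon1⟩
        have hp2 : G.ilo (G.fs k') ≤ p ∧ p ≤ G.ihi (G.sn k') :=
          ⟨le_max_right _ _, max_le hcon2 e2⟩
        have m1 := G.block_mem hp1
        have m2 := G.block_mem hp2
        have r1 := G.mem_iff.1 m1
        have r2 := G.mem_iff.1 m2
        have hru : Relator.RightUnique G.Up := fun x y z hy hz => hy.2.symm.trans hz.2
        rcases Relation.ReflTransGen.total_of_right_unique hru r1 r2 with h3 | h3
        · exact G.nested_absurd (fun h' => h h'.symm) h3 hk hv'.1 hp2 m1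
        · exact G.nested_absurd h h3 hk' hv.1 hp1 m2
    · intro k
      exact G.hty _ _ (G.no_exit h0 k.2.1 k.2.2).choose_spec
    · intro k hk
      show G.ihi (G.sn k.1) = _
      rw [G.hE _ hk _ (G.no_exit h0 k.2.1 k.2.2).choose_spec]; rfl
    · intro k hk
      show G.ilo (G.fs k.1) = _
      rw [G.hO _ hk _ (G.no_exit h0 k.2.1 k.2.2).choose_spec]; rfl
    · rintro ⟨k, hk, ho⟩ hE
      obtain ⟨hj⟩ : Nonempty (G.jn k = some (G.no_exit h0 hk ho).choose) :=
        ⟨(G.no_exit h0 hk ho).choose_spec⟩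
      show ∃ k' : {q : Q // G.Exp (G.cq q) ∧ G.Out q},
        G.ilo (G.fs k'.1) ≤ G.a (G.no_exit h0 hk ho).choose ∧
          G.a (G.no_exit h0 hk ho).choose ≤ G.ihi (G.sn k'.1)
      generalize (G.no_exit h0 hk ho).choose = j at hj
      have hs := G.hE k hE j hj
      have h1 := G.f_E h0 hk ho hs
      have h2 := G.f_clo j
      rcases G.in_block h0 (p := G.a j) (Or.inr (by rw [h2, h1]; exact ho.1)) with
        ⟨q', h3, h4, h5⟩ | ⟨c, h3, h4, h5, h6⟩
      · exact ⟨⟨q', h3, h4⟩, h5⟩
      · exfalso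
        have h7 := G.mem_iff.1 ((h5 _).2 h6)
        have hpt : G.pt (G.b j) = G.cq k := by
          rw [← G.sn_host k, hs]; rfl
        rw [hpt] at h7
        exact (G.exp_par h3 (G.exp_up h7 hk)).2 h4
    · rintro ⟨k, hk, ho⟩ hE
      obtain ⟨hj⟩ : Nonempty (G.jn k = some (G.no_exit h0 hk ho).choose) :=
        ⟨(G.no_exit h0 hk ho).choose_spec⟩
      show ∃ k' : {q : Q // G.Exp (G.cq q) ∧ G.Out q},
        G.ilo (G.fs k'.1) ≤ G.b (G.no_exit h0 hk ho).choose ∧
          G.b (G.no_exit h0 hk ho).choose ≤ G.ihi (G.sn k'.1)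
      generalize (G.no_exit h0 hk ho).choose = j at hj
      have hs := G.hO k hE j hj
      have h1 := G.f_O h0 hk ho hs
      have h2 := G.f_clo j
      rcases G.in_block h0 (p := G.b j) (Or.inl (by rw [← h2, h1]; exact ho.1)) with
        ⟨q', h3, h4, h5⟩ | ⟨c, h3, h4, h5, h6⟩
      · exact ⟨⟨q', h3, h4⟩, h5⟩
      · exfalso
        have h7 := G.mem_iff.1 ((h5 _).1 h6)
        have hpt : G.pt (G.a j) = G.cq k := by
          rw [← G.fs_host k, hs]; rfl
        rw [hpt] at h7
        exact (G.exp_par h3 (G.exp_up h7 hk)).2 h4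
  by_contra h
  obtain ⟨q', h1, h2, -⟩ := G.exists_out h
  exact hno.false ⟨q', by rw [h2]; exact hq, h1⟩

/-- all values are zero -/
theorem val_zero (h0 : G.val (Sum.inr G.r) = 0) :
    (∀ c, G.val (Sum.inr c) = 0) ∧ ∀ p ∈ G.L, G.val (Sum.inl p) = 0 := by
  have hexp : ∀ (n : ℕ) (c : C), G.dep c ≤ n → G.Exp c := by
    intro n
    induction n with
    | zero =>
      intro c hc
      by_cases h : c = G.r
      · rw [h]; exact Exp.root
      · have := G.dep_par c h
        omega
    | succ n ih =>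
      intro c hc
      by_cases h : c = G.r
      · rw [h]; exact Exp.root
      · have h1 := G.dep_par c h
        have h2 := ih (G.par c) (by omega)
        refine Exp.step c h h2 ?_
        rintro (⟨q, h3, h4, -⟩ | ⟨h3, -⟩)
        · exact h4 (G.no_block h0 (by rw [h3]; exact h2))
        · have hv := (G.exp_val h0 h2).1
          rcases Nat.even_or_odd (G.lt G.L (Sum.inr c : α ⊕ C)).card with he | ho
          · rcases G.veven c h he with h5 | ⟨q, h5, h6, -⟩
            · exact h3 (h5.trans hv)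
            · exact h3 (h6.trans (G.no_block h0 (by rw [h5]; exact h2)))
          · rcases G.vodd (Sum.inr c) (fun h' => h (Sum.inr_injective h')) ho with h5 | ⟨q, h5⟩
            · exact h3 (h5.trans hv)
            · have hq : G.cq q = G.par c := by
                rcases h5 with h5 | h5
                · rw [← G.fs_host, ← h5]; rfl
                · rw [← G.sn_host, ← h5]; rfl
              have h6 := G.no_block h0 (q := q) (by rw [hq]; exact h2)
              rcases h5 with h5 | h5
              · exact h3 (by rw [h5, G.vq, h6])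
              · exact h3 (by rw [h5, h6])
  have hE : ∀ c, G.Exp c := fun c => hexp _ c le_rfl
  refine ⟨fun c => (G.exp_val h0 (hE c)).1, ?_⟩
  intro p hp
  have hodd : Odd (G.lt G.L (Sum.inl p : α ⊕ C)).card := by
    rw [G.lt_inl hp, Finset.card_singleton]; exact odd_one
  rcases G.vodd (Sum.inl p) (by simp) hodd with h | ⟨q, h | h⟩
  · rw [h]; exact (G.exp_val h0 (hE _)).1
  · rw [h, G.vq]; exact G.no_block h0 (hE _)
  · rw [h]; exact G.no_block h0 (hE _)

/-- **all values are equal** -/
theorem const : (∀ c, G.val (Sum.inr c) = G.val (Sum.inr G.r)) ∧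
    ∀ p ∈ G.L, G.val (Sum.inl p) = G.val (Sum.inr G.r) := by
  set k := G.val (Sum.inr G.r) with hk
  let G' : GraphG C α Q J := { G with
    val := fun i => G.val i + k
    clo := by
      intro j
      rw [Finset.sum_add_distrib, G.clo j, Finset.sum_const, nsmul_eq_mul,
        cast_even (G.clo1 j)]
      ring
    ex_clo := by
      intro e he
      rw [Finset.sum_add_distrib, G.ex_clo e he, Finset.sum_const, nsmul_eq_mul,
        cast_even (G.ex_clo1 e he)]
      ring
    ex_val := fun e he => by rw [G.ex_val e he]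
    vq := fun q => by rw [G.vq q]
    vodd := by
      intro i h1 h2
      rcases G.vodd i h1 h2 with h | h
      · left; rw [h]
      · right; exact h
    veven := by
      intro c h1 h2
      rcases G.veven c h1 h2 with h | ⟨q, h, h3, h4⟩
      · left; rw [h]
      · right; exact ⟨q, h, by rw [h3], h4⟩ }
  have h0 : G'.val (Sum.inr G'.r) = 0 := b_add k
  obtain ⟨h1, h2⟩ := G'.val_zero h0
  have key : ∀ x y : ZMod 2, x + y = 0 → x = y := by decide
  exact ⟨fun c => key _ _ (h1 c), fun p hp => key _ _ (h2 p hp)⟩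

end GraphG


end Pool.Agent.MP42.U
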