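import Pool.Agent.MP42.U.Drp

/-!
# Systems of circles: the abstract global theorem

`Sys n T`: `n` circles with tokens `T`, `lam` = other end.  `Sys.Dr σ g` = the own link of `g` is
dropped, `Sys.pr σ t` = the token `t` is present.  `Sys.abs`: there are letters for which every function
on the tokens which satisfies the abstract words (all tokens) is constant.
-/

set_option autoImplicit false

namespace Pool.Agent.MP42.U

/-- a system of circles -/
structure Sys (n : ℕ) (T : Type*) where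
  lam : T → T
  lam_lam : ∀ t, lam (lam t) = t
  lam_ne : ∀ t, lam t ≠ t
  nd : T → Fin n
  c : Fin n → Circ T
  ws : ∀ f, (c f).WS
  nodup : ∀ f, (c f).tks.Nodup
  mem : ∀ f t, t ∈ (c f).tks ↔ nd t = f
  ph : Fin n → ℕ
  ph_mono : ∀ f g, f ≤ g → ph f ≤ ph g

namespace Sys

variable {n : ℕ} {T : Type*} (G : Sys n T)

/-- `p` is the pair of tokens of the circle `g` at its parent -/
def Ch (g : Fin n) (p : T × T) : Prop := ∃ r, (G.c g).r = some r ∧
  ((p.1 = G.lam (G.c g).l ∧ p.2 = G.lam r) ∨ (p.1 = G.lam r ∧ p.2 = G.lam (G.c g).l))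

/-- the own link of the circle is dropped -/
inductive Dr (σ : Fin n → T → Bool) : Fin n → Prop
  | mk (f : Fin n) (r : T) (h : (G.c f).r = some r) (h' : σ f r = false)
      (hb : ∀ p ∈ (G.c f).beads, ∀ g, G.Ch g p → Dr σ g) : Dr σ f

/-- the absent tokens of a dropped circle -/
def Ab (g : Fin n) (t : T) : Prop := ∃ r, (G.c g).r = some r ∧
  ((t = G.lam (G.c g).l ∨ t = G.lam r) ∨ ((G.c g).isGp = false ∧ (t = (G.c g).l ∨ t = r)))

open Classical in
/-- the present tokens -/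
noncomputable def pr (σ : Fin n → T → Bool) (t : T) : Bool :=
  decide (¬ ∃ g, G.Dr σ g ∧ G.Ab g t)

variable {G}

lemma pr_false {σ : Fin n → T → Bool} {t : T} :
    G.pr σ t = false ↔ ∃ g, G.Dr σ g ∧ G.Ab g t := by
  unfold pr
  rw [decide_eq_false_iff_not, not_not]

lemma nd_l (g : Fin n) : G.nd (G.c g).l = g := (G.mem g _).1 (G.ws g).l_mem

lemma nd_r {g : Fin n} {r : T} (h : (G.c g).r = some r) : G.nd r = g :=
  (G.mem g _).1 ((G.ws g).r_mem h)

lemma lam_inj {t t' : T} (h : G.lam t = G.lam t') : t = t' := by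
  rw [← G.lam_lam t, h, G.lam_lam]

/-- the children of a circle -/
structure Tree (G : Sys n T) : Prop where
  ch : ∀ f, ∀ p ∈ (G.c f).evs, ∃ g, f < g ∧ G.Ch g p
  re : ∀ f A, G.c f = Circ.fu A → ∀ g' ∈ A.gs, ∀ p ∈ g'.1.flatMap Itm.rep, ∀ g, G.Ch g p →
    G.ph g = G.ph f
  la : ∀ f, ∀ p ∈ (G.c f).late, ∀ g, G.Ch g p → G.ph f < G.ph g

lemma Ch.Ab {g : Fin n} {p : T × T} (h : G.Ch g p) : G.Ab g p.1 ∧ G.Ab g p.2 := by
  obtain ⟨r, h1, h2⟩ := h
  rcases h2 with ⟨h2, h3⟩ | ⟨h2, h3⟩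
  · exact ⟨⟨r, h1, Or.inl (Or.inl h2)⟩, ⟨r, h1, Or.inl (Or.inr h3)⟩⟩
  · exact ⟨⟨r, h1, Or.inl (Or.inr h2)⟩, ⟨r, h1, Or.inl (Or.inl h3)⟩⟩

/-- the tokens of a child are absent iff the child is dropped -/
lemma pr_ev {σ : Fin n → T → Bool} {f g : Fin n} {p : T × T} (hp : p ∈ (G.c f).evs)
    (h : G.Ch g p) : (G.pr σ p.1 = false ↔ G.Dr σ g) ∧ (G.pr σ p.2 = false ↔ G.Dr σ g) := by
  obtain ⟨⟨o1, o2⟩, o3⟩ := (G.ws f).own (G.nodup f) hp
  obtain ⟨m1, m2⟩ := (G.ws f).ev_mem hp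
  have n1 := (G.mem f _).1 m1
  have n2 := (G.mem f _).1 m2
  have key : ∀ t, G.nd t = f → t ≠ (G.c f).l → (∀ r, (G.c f).r = some r → t ≠ r) → ∀ r,
      (G.c g).r = some r → (t = G.lam (G.c g).l ∨ t = G.lam r) → ∀ g', G.Ab g' t → g' = g := by
    intro t ht h1 h2 r hr h3 g' h4
    obtain ⟨r', hr', h4⟩ := h4
    have hnd : G.nd (G.lam t) = g := by
      rcases h3 with h3 | h3 <;> rw [h3, G.lam_lam]
      · exact nd_l g
      · exact nd_r hr
    rcases h4 with (h4 | h4) | ⟨-, h4 | h4⟩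
    · rw [← hnd, h4, G.lam_lam, nd_l]
    · rw [← hnd, h4, G.lam_lam, nd_r hr']
    · have h5 : f = g' := by rw [← ht, h4, nd_l]
      rw [← h5] at h4
      exact absurd h4 h1
    · have h5 : f = g' := by rw [← ht, h4, nd_r hr']
      rw [← h5] at hr'
      exact absurd h4 (h2 r' hr')
  obtain ⟨r, hr, h2⟩ := h
  have h3 : (p.1 = G.lam (G.c g).l ∨ p.1 = G.lam r) ∧ (p.2 = G.lam (G.c g).l ∨ p.2 = G.lam r) := by
    rcases h2 with ⟨h2, h3⟩ | ⟨h2, h3⟩
    · exact ⟨Or.inl h2, Or.inr h3⟩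
    · exact ⟨Or.inr h2, Or.inl h3⟩
  have k1 := key p.1 n1 o1 (fun r hr => (o3 r hr).1) r hr h3.1
  have k2 := key p.2 n2 o2 (fun r hr => (o3 r hr).2) r hr h3.2
  constructor
  · rw [pr_false]
    constructor
    · rintro ⟨g', h4, h5⟩
      rw [← k1 g' h5]; exact h4
    · intro h4
      exact ⟨g, h4, r, hr, Or.inl h3.1⟩
  · rw [pr_false]
    constructor
    · rintro ⟨g', h4, h5⟩
      rw [← k2 g' h5]; exact h4
    · intro h4
      exact ⟨g, h4, r, hr, Or.inl h3.2⟩

lemma beads_mem {c : Circ T} {p : T × T} (h : p ∈ c.beads) : ∃ A, c = Circ.fu A ∧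
    ∃ g ∈ A.gs, p ∈ g.1.flatMap Itm.rep := by
  cases c with
  | pl l r us => simp [Circ.beads] at h
  | gp l us t g r => simp [Circ.beads] at h
  | fu A =>
    refine ⟨A, rfl, ?_⟩
    unfold Circ.beads at h
    rcases hg : A.gs.getLast? with _ | g
    · simp only [hg] at h
      simp at h
    · simp only [hg] at h
      exact ⟨g, List.mem_of_getLast? hg, h⟩

lemma rep_evs {A : Fu T} {g : List (Itm T) × T} (hg : g ∈ A.gs) {p : T × T}
    (hp : p ∈ g.1.flatMap Itm.rep) : p ∈ (Circ.fu A).evs := by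
  obtain ⟨i, hi, hp⟩ := List.mem_flatMap.1 hp
  refine List.mem_append_right _ (List.mem_append_left _ (List.mem_flatMap.2 ⟨g, hg,
    List.mem_flatMap.2 ⟨i, hi, ?_⟩⟩))
  cases i with
  | re a b => exact hp
  | la a b => simp [Itm.rep] at hp
  | br t x m => simp [Itm.rep] at hp

lemma Dr.congr (hT : G.Tree) {σ σ' : Fin n → T → Bool} {f : Fin n} (h : G.Dr σ f) :
    (∀ g, G.ph g ≤ G.ph f → σ g = σ' g) → G.Dr σ' f := by
  induction h with
  | mk f r h h' hb ih =>
    intro hs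
    refine Dr.mk f r h (by rw [← hs f le_rfl]; exact h') ?_
    intro p hp g hg
    obtain ⟨A, hA, g', hg', hp'⟩ := beads_mem hp
    have h1 := hT.re f A hA g' hg' p hp' g hg
    exact ih p hp g hg (fun g'' h'' => hs g'' (by omega))

/-- dropped = `isDr` -/
lemma isDr_iff (hT : G.Tree) {σ : Fin n → T → Bool} {f : Fin n} :
    (G.c f).isDr (G.pr σ) (σ f) = true ↔ G.Dr σ f := by
  unfold Circ.isDr
  constructor
  · intro h
    rcases hr : (G.c f).r with _ | r
    · rw [hr] at h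
      simp at h
    · rw [hr] at h
      simp only [Bool.and_eq_true, Bool.not_eq_true', List.all_eq_true] at h
      refine Dr.mk f r hr h.1 ?_
      intro p hp g hg
      obtain ⟨A, hA, g', hg', hp'⟩ := beads_mem hp
      have h1 : p ∈ (G.c f).evs := by rw [hA]; exact rep_evs hg' hp'
      exact ((pr_ev h1 hg).1).1 (h.2 p hp)
  · intro h
    cases h with
    | mk _ r hr h' hb =>
      rw [hr]
      simp only [Bool.and_eq_true, Bool.not_eq_true', List.all_eq_true]
      refine ⟨h', ?_⟩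
      intro p hp
      obtain ⟨A, hA, g', hg', hp'⟩ := beads_mem hp
      have h1 : p ∈ (G.c f).evs := by rw [hA]; exact rep_evs hg' hp'
      obtain ⟨g, -, hg⟩ := hT.ch f p h1
      exact ((pr_ev h1 hg).1).2 (hb p hp g hg)

/-- locality -/
lemma fin_loc (hT : G.Tree) {σ σ' : Fin n → T → Bool} {f : Fin n}
    (hs : ∀ g, G.ph g ≤ G.ph f → σ g = σ' g) (s : T → Bool) :
    (G.c f).fin (G.pr σ) s = (G.c f).fin (G.pr σ') s := by
  refine Circ.fin_congr ?_
  intro A hA g' hg' a b hi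
  have hp : (a, b) ∈ g'.1.flatMap Itm.rep := List.mem_flatMap.2 ⟨_, hi, by simp [Itm.rep]⟩
  have h1 : (a, b) ∈ (G.c f).evs := by rw [hA]; exact rep_evs hg' hp
  obtain ⟨g, -, hg⟩ := hT.ch f _ h1
  have h2 := hT.re f A hA g' hg' _ hp g hg
  have h3 : G.pr σ a = false ↔ G.Dr σ g := (pr_ev h1 hg).1
  have h4 : G.pr σ' a = false ↔ G.Dr σ' g := (pr_ev h1 hg).1
  have h5 : G.Dr σ g ↔ G.Dr σ' g :=
    ⟨fun h => h.congr hT fun g'' h'' => hs g'' (by omega),
      fun h => h.congr hT fun g'' h'' => (hs g'' (by omega)).symm⟩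
  have h6 : G.pr σ a = false ↔ G.pr σ' a = false := h3.trans (h5.trans h4.symm)
  cases h7 : G.pr σ a <;> cases h8 : G.pr σ' a <;> simp_all

/-- equal values on the pairs of the children -/
lemma pair_eq {V : T → B} (hV : ∀ t, V (G.lam t) = V t) {g : Fin n} {p : T × T} (h : G.Ch g p)
    (hM : (G.c g).M V) : V p.1 = V p.2 := by
  obtain ⟨r, hr, h2⟩ := h
  have h3 := (G.ws g).M_own hM hr
  rcases h2 with ⟨h4, h5⟩ | ⟨h4, h5⟩
  · rw [h4, h5, hV, hV, h3]
  · rw [h4, h5, hV, hV, h3]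

variable (G) in
/-- the node lemmas and the connectivity -/
structure Good (E : Fin n → (T → Bool) → Prop) : Prop where
  tree : G.Tree
  ok : ∀ f (F : Set (T → B)), (∀ V ∈ F, (∀ t, V (G.lam t) = V t) ∧ (∀ g, f < g → (G.c g).M V) ∧
      ∀ p ∈ (G.c f).evs, V p.1 = V p.2) →
    (∀ V ∈ F, ∀ V' ∈ F, sp V V' (G.c f).tks = 0) → (G.c f).Ok (E f) F
  congr : ∀ f s s', (∀ t ∈ (G.c f).tks, s t = s' t) → E f s → E f s'
  conn : ∀ V : T → B, (∀ t, V (G.lam t) = V t) → (∀ f, (G.c f).M V) → ∀ x y, V x = V y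

/-- **the abstract global theorem** -/
theorem abs [Fintype T] {E : Fin n → (T → Bool) → Prop} (h : G.Good E) :
    ∃ s : T → Bool, (∀ f, (G.c f).CC s ∧ E f s) ∧
      (∀ f, (G.c f).isDr (G.pr fun _ => s) s = true ↔ G.Dr (fun _ => s) f) ∧
      ∀ V : T → B, (∀ t, V (G.lam t) = V t) → (∀ f, Cl V ((G.c f).fin (G.pr fun _ => s) s)) →
        ∀ x y, V x = V y := by
  classical
  have hsum : ∀ (f : Fin n) (V V' : T → B),
      sp V V' (G.c f).tks = ∑ x with G.nd x = f, V x * V' x := by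
    intro f V V'
    unfold sp
    rw [← List.sum_toFinset (fun x => V x * V' x) (G.nodup f)]
    refine Finset.sum_congr ?_ fun _ _ => rfl
    ext x
    simp [G.mem]
  obtain ⟨σ, h1, h2⟩ := glob2 (St := T → Bool) G.lam G.nd G.lam_lam G.lam_ne G.ph G.ph_mono
    (fun f V => (G.c f).M V) (fun f s V => (G.c f).Np s V)
    (fun f σ V => Cl V ((G.c f).fin (G.pr σ) (σ f))) (fun f s => (G.c f).CC s ∧ E f s) (by
      intro f σ σ' hs V hV
      rw [← fin_loc h.tree hs, ← hs f le_rfl]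
      exact hV) (by
      intro f V V' h1 h2
      rw [← hsum f]
      exact (G.ws f).parM h1 h2) (by
      intro f s V V' h1 h2 h3
      rw [← hsum f]
      exact Circ.parNp h1.1 h2 h3) (by
      intro f σ V V' h1 h2 h3
      rw [← hsum f]
      exact Circ.parNf (G.ws f).toWF (h1 f le_rfl).1 h2 h3) (by
      intro f F h1 h2
      obtain ⟨s, h3, h4, h5⟩ := h.ok f F (fun V hV => ⟨(h1 V hV).1, (h1 V hV).2, by
        intro p hp
        obtain ⟨g, hg, hc⟩ := h.tree.ch f p hp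
        exact pair_eq (h1 V hV).1 hc ((h1 V hV).2 g hg)⟩) (by
        intro V hV V' hV'
        rw [hsum f]
        exact h2 V hV V' hV')
      exact ⟨s, ⟨h3, h4⟩, h5⟩) (by
      intro σ d V h1 h2 h3 h4 f hf
      refine Circ.switch (G.ws f).toWF (h1 f hf.le).1 ?_ (h3 f hf)
      intro p hp
      have hpe : p ∈ (G.c f).evs := by
        rcases hcf : G.c f with _ | A | _
        · rw [hcf] at hp; simp [Circ.late] at hp
        · rw [hcf] at hp; exact Circ.evs_late hp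
        · rw [hcf] at hp; simp [Circ.late] at hp
      obtain ⟨g, hg, hc⟩ := h.tree.ch f p hpe
      have := h.tree.la f p hp g hc
      exact pair_eq h2 hc (h4 g (by omega))) h.conn
  have hnd : ∀ f, ∀ t ∈ (G.c f).tks, σ f t = σ (G.nd t) t := by
    intro f t ht
    rw [(G.mem f t).1 ht]
  obtain ⟨s, hs⟩ : ∃ s : T → Bool, s = fun t => σ (G.nd t) t := ⟨_, rfl⟩
  have hst : ∀ f, ∀ t ∈ (G.c f).tks, σ f t = s t := by rw [hs]; exact hnd
  have hDr : ∀ f, G.Dr σ f ↔ G.Dr (fun _ => s) f := by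
    intro f
    constructor
    · intro h3
      induction h3 with
      | mk f r h4 h5 hb ih =>
        exact Dr.mk f r h4 (by rw [← hst f r ((G.ws f).r_mem h4)]; exact h5) ih
    · intro h3
      induction h3 with
      | mk f r h4 h5 hb ih =>
        exact Dr.mk f r h4 (by rw [hst f r ((G.ws f).r_mem h4)]; exact h5) ih
  have hpr : G.pr σ = G.pr fun _ => s := by
    funext t
    have h3 : G.pr σ t = false ↔ G.pr (fun _ => s) t = false := by
      rw [pr_false, pr_false]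
      simp only [hDr]
    cases h7 : G.pr σ t <;> cases h8 : G.pr (fun _ => s) t <;> simp_all
  refine ⟨s, fun f => ⟨(h1 f).1.congr (G.ws f) (hst f), h.congr f _ _ (hst f) (h1 f).2⟩, ?_, ?_⟩
  · intro f
    exact isDr_iff h.tree (σ := fun _ => s)
  · intro V h3 h4
    refine h2 V h3 ?_
    intro f
    rw [hpr, Circ.fin_congr_s (hst f)]
    exact h4 f

end Sys

end Pool.Agent.MP42.U
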