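import Pool.Agent.MP42.U.Act
import Pool.Agent.MP42.U.Sys

/-!
# Systems of circles: the actual words
-/

set_option autoImplicit false
set_option linter.unusedSectionVars false

namespace Pool.Agent.MP42.U

variable {T : Type*}

/-! ## tokens of even children and other tokens -/

lemma BU.tks_core (u : BU T) : u.tks.Perm (u.core ++ ptk u.evs) := by
  cases u with
  | fr t => exact List.Perm.refl _
  | fx t => exact List.Perm.refl _
  | ev a b => exact List.Perm.refl _
  | br t x m =>
    have e1 : (BU.br t x m).tks = t :: (ptk m ++ [x]) := rfl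
    have e2 : (BU.br t x m).core ++ ptk (BU.br t x m).evs = t :: ([x] ++ ptk m) := rfl
    rw [e1, e2]
    exact List.perm_append_comm.cons t
  | gu m t =>
    have e1 : (BU.gu m t).tks = ptk m ++ [t] := rfl
    have e2 : (BU.gu m t).core ++ ptk (BU.gu m t).evs = [t] ++ ptk m := rfl
    rw [e1, e2]
    exact List.perm_append_comm
  | gv t m => exact List.Perm.refl _

namespace Circ

lemma evs_cases {c : Circ T} {p : T × T} (hp : p ∈ c.evs) :
    (∃ w ∈ c.pus, p ∈ w.evs) ∨ p ∈ c.late := by
  cases c with
  | pl l r us => exact Or.inl (List.mem_flatMap.1 hp)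
  | gp l us t g r =>
    left
    rcases List.mem_append.1 hp with hp | hp
    · obtain ⟨u, hu, hp⟩ := List.mem_flatMap.1 hp
      exact ⟨u, List.mem_append_left _ hu, hp⟩
    · obtain ⟨i, hi, hp'⟩ := List.mem_flatMap.1 hp
      have hgv : BU.gv t (g.flatMap Itm.pairs) ∈ (Circ.gp l us t g r).pus := by simp [pus]
      cases i with
      | re a b => exact ⟨_, hgv, List.mem_flatMap.2 ⟨_, hi, hp'⟩⟩
      | la a b => exact ⟨_, hgv, List.mem_flatMap.2 ⟨_, hi, hp'⟩⟩
      | br t' x m =>
        exact ⟨BU.br t' x m, List.mem_append_right _ (List.mem_append_left _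
          (List.mem_flatMap.2 ⟨_, hi, by simp [Itm.brp]⟩)), hp'⟩
  | fu A =>
    have e0 : (Circ.fu A).pus = BU.fx A.l :: ((BU.fx A.x :: (A.e1 ++ [BU.fx A.X])) ++
      (A.gs.flatMap gpre ++ (A.tl.flatMap Itm.brp ++
        ((A.tl.flatMap Itm.rep).map fun p => BU.ev p.1 p.2)))) := rfl
    rw [e0]
    rcases List.mem_append.1 hp with hp | hp
    · obtain ⟨u, hu, hp⟩ := List.mem_flatMap.1 hp
      exact Or.inl ⟨u, by simp [hu], hp⟩
    · rcases List.mem_append.1 hp with hp | hp
      · obtain ⟨g, hg, hp⟩ := List.mem_flatMap.1 hp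
        obtain ⟨i, hi, hp'⟩ := List.mem_flatMap.1 hp
        have hgm : ∀ u ∈ gpre g, u ∈ BU.fx A.l :: ((BU.fx A.x :: (A.e1 ++ [BU.fx A.X])) ++
            (A.gs.flatMap gpre ++ (A.tl.flatMap Itm.brp ++
            ((A.tl.flatMap Itm.rep).map fun p => BU.ev p.1 p.2)))) := fun u hu =>
          List.mem_cons_of_mem _ (List.mem_append_right _ (List.mem_append_left _
            (List.mem_flatMap.2 ⟨g, hg, hu⟩)))
        cases i with
        | re a b =>
          left
          refine ⟨BU.gu (g.1.flatMap Itm.rep) g.2, hgm _ ?_, List.mem_flatMap.2 ⟨_, hi, hp'⟩⟩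
          unfold gpre
          simp
        | la a b =>
          right
          exact List.mem_append_left _ (List.mem_flatMap.2 ⟨g, hg,
            List.mem_flatMap.2 ⟨_, hi, hp'⟩⟩)
        | br t' x m =>
          left
          refine ⟨BU.br t' x m, hgm _ ?_, hp'⟩
          unfold gpre
          exact List.mem_append_left _ (List.mem_flatMap.2 ⟨_, hi, by simp [Itm.brp]⟩)
      · obtain ⟨i, hi, hp'⟩ := List.mem_flatMap.1 hp
        cases i with
        | re a b =>
          left
          refine ⟨BU.ev p.1 p.2, ?_, by simp [BU.evs]⟩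
          refine List.mem_cons_of_mem _ (List.mem_append_right _ (List.mem_append_right _
            (List.mem_append_right _ (List.mem_map.2 ⟨p, List.mem_flatMap.2 ⟨_, hi, hp'⟩, rfl⟩))))
        | la a b =>
          right
          exact List.mem_append_right _ (List.mem_flatMap.2 ⟨_, hi, hp'⟩)
        | br t' x m =>
          left
          exact ⟨BU.br t' x m, List.mem_cons_of_mem _ (List.mem_append_right _
            (List.mem_append_right _ (List.mem_append_left _
            (List.mem_flatMap.2 ⟨_, hi, by simp [Itm.brp]⟩)))), hp'⟩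

lemma core_evs {c : Circ T} (hn : c.tks.Nodup) {u : BU T} (hu : u ∈ c.pus) {t : T}
    (ht : t ∈ u.core) {p : T × T} (hp : p ∈ c.evs) : t ≠ p.1 ∧ t ≠ p.2 := by
  have hn2 := c.tks_perm.nodup_iff.1 hn
  obtain ⟨h1, h2, h3⟩ := List.nodup_append.1 hn2
  have hptk : ∀ m : List (T × T), p ∈ m → p.1 ∈ ptk m ∧ p.2 ∈ ptk m := by
    intro m hp
    exact ⟨List.mem_flatMap.2 ⟨p, hp, by simp⟩, List.mem_flatMap.2 ⟨p, hp, by simp⟩⟩
  rcases evs_cases hp with ⟨w, hw, hp'⟩ | hp'
  · obtain ⟨h4, h5⟩ := BU.evs_mem hp'
    have key : ∀ a, a ∈ w.tks → a ∈ ptk w.evs → t ≠ a := by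
      rintro a ha ha' rfl
      have h6 : u = w := BU.unit_eq h1 hu hw (BU.core_tks ht) ha
      rw [← h6] at ha'
      have h7 : u.tks.Nodup := by
        have : u.tks.Sublist (c.pus.flatMap BU.tks) := by
          clear h1 h2 h3 hn2 hw ht hp ha h4 h5
          generalize c.pus = us at hu
          induction us with
          | nil => simp at hu
          | cons v us ih =>
            rw [List.flatMap_cons]
            rcases List.mem_cons.1 hu with h | h
            · rw [h]
              exact List.sublist_append_left _ _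
            · exact (ih h).trans (List.sublist_append_right _ _)
        exact h1.sublist this
      have h8 := u.tks_core.nodup_iff.1 h7
      exact (List.nodup_append.1 h8).2.2 t ht t ha' rfl
    obtain ⟨h6, h7⟩ := hptk _ hp'
    exact ⟨key _ h4 h6, key _ h5 h7⟩
  · obtain ⟨h6, h7⟩ := hptk _ hp'
    have h8 : t ∈ c.pus.flatMap BU.tks := List.mem_flatMap.2 ⟨u, hu, BU.core_tks ht⟩
    exact ⟨h3 t h8 _ h6, h3 t h8 _ h7⟩

/-- the sum over the tokens of a circle -/
lemma sum_tks {c : Circ T} {A : T → B} (h1 : ∀ u ∈ c.pus, ∀ t ∈ u.core, A t = 0)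
    (h2 : ∀ p ∈ c.evs, A p.1 = A p.2) : (c.tks.map A).sum = 0 := by
  have hptk : ∀ m : List (T × T), (∀ p ∈ m, A p.1 = A p.2) → ((ptk m).map A).sum = 0 := by
    intro m
    induction m with
    | nil => intro _; rfl
    | cons p m ih =>
      intro h
      rw [ptk_cons, List.map_cons, List.map_cons, List.sum_cons, List.sum_cons,
        ih fun q hq => h q (List.mem_cons_of_mem _ hq), h p List.mem_cons_self, add_zero]
      exact b_add_self _
  rw [(c.tks_perm.map A).sum_eq, List.map_append, List.sum_append]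
  have e2 : ((ptk c.late).map A).sum = 0 := hptk _ fun p hp => h2 p (by
    cases c with
    | pl l r us => simp [late] at hp
    | gp l us t g r => simp [late] at hp
    | fu A => exact evs_late hp)
  have e1 : ∀ us : List (BU T), (∀ u ∈ us, u ∈ c.pus) →
      ((us.flatMap BU.tks).map A).sum = 0 := by
    intro us
    induction us with
    | nil => intro _; rfl
    | cons u us ih =>
      intro h
      have hu := h u List.mem_cons_self
      rw [List.flatMap_cons, List.map_append, List.sum_append,
        ih fun w hw => h w (List.mem_cons_of_mem _ hw), (u.tks_core.map A).sum_eq,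
        List.map_append, List.sum_append, hptk u.evs fun p hp => h2 p ?_]
      · have e3 : ∀ l : List T, (∀ t ∈ l, A t = 0) → (l.map A).sum = 0 := by
          intro l
          induction l with
          | nil => intro _; rfl
          | cons t l ih =>
            intro h
            rw [List.map_cons, List.sum_cons, h t List.mem_cons_self,
              ih fun w hw => h w (List.mem_cons_of_mem _ hw), add_zero]
        rw [e3 u.core fun t ht => h1 u hu t ht]
        simp
      · cases c with
        | pl l r us' => exact evs_pl (c := Circ.pl l r us') trivial u hu p hp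
        | gp l us' t g r => exact evs_pl (c := Circ.gp l us' t g r) trivial u hu p hp
        | fu A => exact evs_fu hu hp
  rw [e1 c.pus fun u hu => hu, e2, add_zero]

end Circ

namespace Sys

variable {n : ℕ} {G : Sys n T}

variable (G) in
/-- all hypotheses -/
structure Full (E : Fin n → (T → Bool) → Prop) : Prop extends Good G E where
  up : ∀ g r, (G.c g).r = some r →
    (∃ z, z < g ∧ ∃ p ∈ (G.c z).evs, G.Ch g p) ∨ ∀ s, E g s → s r = true
  own : ∀ f s, E f s → s (G.c f).l = true

section

variable {E : Fin n → (T → Bool) → Prop} {s : T → Bool} (h : G.Full E) (hE : ∀ f, E f s)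

include h hE

/-- the parent of a dropped circle -/
lemma Full.parent {g : Fin n} (hD : G.Dr (fun _ => s) g) :
    ∃ z, z < g ∧ ∃ p ∈ (G.c z).evs, G.Ch g p := by
  cases hD with
  | mk _ r hr h' hb =>
    rcases h.up g r hr with h1 | h1
    · exact h1
    · rw [h1 s (hE g)] at h'
      simp at h'

/-- an absent token at the parent -/
lemma Full.lam_mem {g : Fin n} (hD : G.Dr (fun _ => s) g) {r : T} (hr : (G.c g).r = some r)
    {t : T} (ht : t = G.lam (G.c g).l ∨ t = G.lam r) :
    ∃ p ∈ (G.c (G.nd t)).evs, G.Ch g p ∧ (t = p.1 ∨ t = p.2) := by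
  obtain ⟨z, -, p, hp, hc⟩ := h.parent hE hD
  have h1 : t = p.1 ∨ t = p.2 := by
    obtain ⟨r', hr', h2⟩ := hc
    have hrr : r' = r := Option.some.inj (hr'.symm.trans hr)
    rw [hrr] at h2
    rcases h2 with ⟨h2, h3⟩ | ⟨h2, h3⟩ <;> rcases ht with ht | ht
    · left; rw [ht, h2]
    · right; rw [ht, h3]
    · right; rw [ht, h3]
    · left; rw [ht, h2]
  have h2 : G.nd t = z := by
    obtain ⟨m1, m2⟩ := (G.ws z).ev_mem hp
    rcases h1 with h1 | h1 <;> rw [h1]
    · exact (G.mem z _).1 m1
    · exact (G.mem z _).1 m2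
  rw [h2]
  exact ⟨p, hp, hc, h1⟩

/-- the presence of the tokens -/
lemma Full.pc (f : Fin n) : (G.c f).Pc (G.pr fun _ => s) s := by
  refine ⟨?_, ?_, ?_⟩
  · intro p hp
    obtain ⟨g, -, hg⟩ := h.tree.ch f p hp
    obtain ⟨h1, h2⟩ := pr_ev (σ := fun _ => s) hp hg
    have h3 := h1.trans h2.symm
    cases h4 : G.pr (fun _ => s) p.1 <;> cases h5 : G.pr (fun _ => s) p.2 <;> simp_all
  · intro u hu t ht hl hr
    by_contra hp
    have hp' : G.pr (fun _ => s) t = false := by simpa using hp
    obtain ⟨g, hD, r, hr', h1⟩ := pr_false.1 hp'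
    have hndt : G.nd t = f := (G.mem f t).1 (Circ.tks_perm _ |>.mem_iff.2
      (List.mem_append_left _ (List.mem_flatMap.2 ⟨u, hu, BU.core_tks ht⟩)))
    rcases h1 with h1 | ⟨-, h1⟩
    · obtain ⟨p, hp, -, h2⟩ := h.lam_mem hE hD hr' h1
      rw [hndt] at hp
      obtain ⟨h3, h4⟩ := Circ.core_evs (G.nodup f) hu ht hp
      rcases h2 with h2 | h2
      · exact h3 h2
      · exact h4 h2
    · have h3 : g = f := by
        rcases h1 with h1 | h1
        · rw [← hndt, h1, nd_l]
        · rw [← hndt, h1, nd_r hr']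
      rw [h3] at h1 hr'
      rcases h1 with h1 | h1
      · exact hl h1
      · exact hr r hr' h1
  · intro t ht
    have hndt : G.nd t = f := by
      rcases ht with ht | ht
      · rw [ht, nd_l]
      · exact nd_r ht
    rw [isDr_iff (σ := fun _ => s) h.tree, pr_false]
    constructor
    · rintro ⟨g, hD, r, hr', h1⟩
      rcases h1 with h1 | ⟨h1, h2⟩
      · exfalso
        obtain ⟨p, hp, -, h2⟩ := h.lam_mem hE hD hr' h1
        rw [hndt] at hp
        obtain ⟨⟨h3, h4⟩, h5⟩ := (G.ws f).own (G.nodup f) hp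
        rcases ht with ht | ht
        · rcases h2 with h2 | h2
          · exact h3 (by rw [← h2, ht])
          · exact h4 (by rw [← h2, ht])
        · obtain ⟨h6, h7⟩ := h5 t ht
          rcases h2 with h2 | h2
          · exact h6 h2.symm
          · exact h7 h2.symm
      · have h3 : g = f := by
          rcases h2 with h2 | h2
          · rw [← hndt, h2, nd_l]
          · rw [← hndt, h2, nd_r hr']
        rw [h3] at h1 hD
        exact ⟨h1, hD⟩
    · rintro ⟨h1, hD⟩
      have hD' := hD
      cases hD with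
      | mk _ r hr h' hb =>
        refine ⟨f, hD', r, hr, Or.inr ⟨h1, ?_⟩⟩
        rcases ht with ht | ht
        · exact Or.inl ht
        · exact Or.inr (Option.some.inj (ht.symm.trans hr))

/-- the two own tokens of a circle and the presence of the pair at the parent -/
lemma Full.child_pr {f g : Fin n} {p : T × T} (hp : p ∈ (G.c f).evs) (hg : G.Ch g p)
    (hpr : G.pr (fun _ => s) p.1 = false) : G.Dr (fun _ => s) g ∧
      ((G.c g).isGp = false → G.pr (fun _ => s) (G.lam p.1) = false ∧
        G.pr (fun _ => s) (G.lam p.2) = false) ∧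
      ((G.c g).isGp = true → G.pr (fun _ => s) (G.lam p.1) = true ∧
        G.pr (fun _ => s) (G.lam p.2) = true) := by
  have hD := ((pr_ev (σ := fun _ => s) hp hg).1).1 hpr
  refine ⟨hD, ?_⟩
  obtain ⟨r, hr, h2⟩ := hg
  have hP := h.pc hE g
  have h3 := hP.ow (G.c g).l (Or.inl rfl)
  have h4 := hP.ow r (Or.inr hr)
  rw [isDr_iff (σ := fun _ => s) h.tree] at h3 h4
  have h5 : (G.lam p.1 = (G.c g).l ∨ G.lam p.1 = r) ∧ (G.lam p.2 = (G.c g).l ∨ G.lam p.2 = r) := by
    rcases h2 with ⟨h5, h6⟩ | ⟨h5, h6⟩ <;> rw [h5, h6, G.lam_lam, G.lam_lam] <;> simp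
  constructor
  · intro hgp
    have h6 := h3.2 ⟨hgp, hD⟩
    have h7 := h4.2 ⟨hgp, hD⟩
    constructor
    · rcases h5.1 with h8 | h8 <;> rw [h8] <;> assumption
    · rcases h5.2 with h8 | h8 <;> rw [h8] <;> assumption
  · intro hgp
    have h6 : G.pr (fun _ => s) (G.c g).l = true := by
      cases h8 : G.pr (fun _ => s) (G.c g).l
      · have := (h3.1 h8).1
        rw [hgp] at this
        simp at this
      · rfl
    have h7 : G.pr (fun _ => s) r = true := by
      cases h8 : G.pr (fun _ => s) r
      · have := (h4.1 h8).1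
        rw [hgp] at this
        simp at this
      · rfl
    constructor
    · rcases h5.1 with h8 | h8 <;> rw [h8] <;> assumption
    · rcases h5.2 with h8 | h8 <;> rw [h8] <;> assumption

end

lemma b_mul_self (a : B) : a * a = a := by
  revert a
  decide

lemma deep_of_sum {w : List (Bool × B)} {S : ℕ → B} (h : Run w S S) (h2 : ht w = 2)
    (h0 : vs w = 0) : Deep S := by
  have key : ∀ K, w.length ≤ K → S (K + 1) = S K := by
    intro K hK
    have h3 := run_parity h h2 hK
    rw [h0] at h3
    have h4 := b_add_self (S K)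
    linear_combination -h3 - h4
  refine ⟨w.length, S w.length, ?_⟩
  intro j hj
  induction j, hj using Nat.le_induction with
  | base => rfl
  | succ j hj ih => rw [key j hj, ih]

/-- the actual solutions -/
structure Sol (G : Sys n T) (s : T → Bool) (r₀ : Fin n) (V : T → B) : Prop where
  pair : ∀ t, G.pr (fun _ => s) t = true → G.pr (fun _ => s) (G.lam t) = true → V (G.lam t) = V t
  gp : ∀ f, (G.c f).isGp = true → G.Dr (fun _ => s) f → ∀ r, (G.c f).r = some r →
    V (G.c f).l = V r
  cl : ∀ f, f ≠ r₀ → Cl V ((G.c f).act (G.pr fun _ => s) s)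
  root : ∃ S, Run (lv V ((G.c r₀).act (G.pr fun _ => s) s)) S S

/-- the values with the absent tokens next to present ones -/
noncomputable def wt (G : Sys n T) (s : T → Bool) (V : T → B) (t : T) : B :=
  if G.pr (fun _ => s) t then V t else if G.pr (fun _ => s) (G.lam t) then V (G.lam t) else 0

/-- the sum over a circle -/
theorem Full.node_sum {E : Fin n → (T → Bool) → Prop} {s : T → Bool} (h : G.Full E)
    (hE : ∀ f, E f s) {V : T → B}
    (hgp : ∀ f, (G.c f).isGp = true → G.Dr (fun _ => s) f → ∀ r, (G.c f).r = some r →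
      V (G.c f).l = V r) (f : Fin n) :
    ((G.c f).tks.map (G.wt s V)).sum =
      (((G.c f).tks.filter (G.pr fun _ => s)).map V).sum := by
  classical
  obtain ⟨pr, hpr⟩ : ∃ pr, pr = G.pr fun _ => s := ⟨_, rfl⟩
  obtain ⟨W, hW⟩ : ∃ W : T → B, W = fun t => if pr t then V t else
    if pr (G.lam t) then V (G.lam t) else 0 := ⟨_, rfl⟩
  have hWw : G.wt s V = W := by
    funext t
    rw [hW, hpr]
    rfl
  -- the absent tokens do not contribute
  have hA : ((G.c f).tks.map fun t => if pr t then 0 else W t).sum = 0 := by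
    refine Circ.sum_tks ?_ ?_
    · intro u hu t ht
      cases h1 : pr t
      · have hP := h.pc hE f
        have h2 : t = (G.c f).l ∨ (G.c f).r = some t := by
          by_contra h3
          push Not at h3
          have h4 := hP.md u hu t ht h3.1 fun r hr h5 => h3.2 (by rw [hr, h5])
          rw [← hpr, h1] at h4
          simp at h4
        have h3 := (hP.ow t h2).1 (by rw [← hpr]; exact h1)
        rw [isDr_iff (σ := fun _ => s) h.tree] at h3
        have h4 : pr (G.lam t) = false := by
          rw [hpr, pr_false]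
          have h5 := h3.2
          cases h5 with
          | mk _ r hr h' hb =>
            refine ⟨f, h3.2, r, hr, Or.inl ?_⟩
            rcases h2 with h2 | h2
            · exact Or.inl (by rw [h2])
            · exact Or.inr (by rw [Option.some.inj (h2.symm.trans hr)])
        rw [hW]
        simp [h1, h4]
      · simp
    · intro p hp
      obtain ⟨g, -, hg⟩ := h.tree.ch f p hp
      have h0 := (h.pc hE f).ev p hp
      rw [← hpr] at h0
      cases h1 : pr p.1
      · have h1' : pr p.2 = false := by rw [← h0, h1]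
        obtain ⟨hD, h2, h3⟩ := h.child_pr hE hp hg (by rw [← hpr]; exact h1)
        rw [← hpr] at h2 h3
        cases hgp' : (G.c g).isGp
        · obtain ⟨h4, h5⟩ := h2 hgp'
          rw [hW]
          simp [h1, h1', h4, h5]
        · obtain ⟨h4, h5⟩ := h3 hgp'
          have h6 : V (G.lam p.1) = V (G.lam p.2) := by
            obtain ⟨r, hr, h7⟩ := hg
            have h8 := hgp g hgp' hD r hr
            rcases h7 with ⟨h7, h9⟩ | ⟨h7, h9⟩
            · rw [h7, h9, G.lam_lam, G.lam_lam, h8]
            · rw [h7, h9, G.lam_lam, G.lam_lam, h8]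
          rw [hW]
          simp [h1, h1', h4, h5, h6]
      · have h1' : pr p.2 = true := by rw [← h0, h1]
        simp [h1']
  have key : ∀ l : List T, (l.map W).sum = ((l.filter pr).map V).sum +
      (l.map fun t => if pr t then 0 else W t).sum := by
    intro l
    induction l with
    | nil => rfl
    | cons t l ih =>
      rw [List.map_cons, List.sum_cons, ih, List.map_cons, List.sum_cons, List.filter_cons]
      have h2 : pr t = true → W t = V t := by
        intro h3
        rw [hW]
        simp [h3]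
      cases h3 : pr t
      · simp
        ring
      · simp [h2 h3]
        ring
  rw [hWw, key, hA, add_zero, hpr]

section

variable [Fintype T] {E : Fin n → (T → Bool) → Prop} {s : T → Bool} (h : G.Full E)
  (hC : ∀ f, (G.c f).CC s ∧ E f s)

include h hC

/-- heights and tokens of the actual words -/
lemma Full.act_ok (f : Fin n) : PH 4 4 2 ((G.c f).act (G.pr fun _ => s) s) ∧
    ((G.c f).act (G.pr fun _ => s) s).map Prod.snd = (G.c f).tks.filter (G.pr fun _ => s) :=
  Circ.act_ok (G.ws f) (G.nodup f) (hC f).1 (h.own f s (hC f).2) (h.pc (fun f => (hC f).2) f)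

omit h hC in
lemma sum_fib [DecidableEq T] (W : T → B) (f : Fin n) :
    ((G.c f).tks.map W).sum = ∑ x with G.nd x = f, W x := by
  rw [← List.sum_toFinset W (G.nodup f)]
  refine Finset.sum_congr ?_ fun _ _ => rfl
  ext x
  simp [G.mem]

/-- the sum over a circle with a closed walk -/
lemma Full.node_zero {V : T → B}
    (hgp : ∀ f, (G.c f).isGp = true → G.Dr (fun _ => s) f → ∀ r, (G.c f).r = some r →
      V (G.c f).l = V r) {f : Fin n} (hcl : Cl V ((G.c f).act (G.pr fun _ => s) s)) :
    ∑ x with G.nd x = f, G.wt s V x = 0 := by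
  classical
  have h1 := h.act_ok hC f
  rw [← sum_fib, h.node_sum (fun f => (hC f).2) hgp f]
  have h2 := Cl.par h1.1.2 hcl hcl
  rw [h1.2] at h2
  rw [← h2]
  unfold sp
  congr 1
  exact List.map_congr_left fun t _ => (b_mul_self _).symm

/-- **the root circle**: the deep stack is constant -/
theorem Sol.root_cl {r₀ : Fin n} {V : T → B} (hV : G.Sol s r₀ V) :
    ∀ f, Cl V ((G.c f).act (G.pr fun _ => s) s) := by
  classical
  have hWl : ∀ t, G.wt s V (G.lam t) = G.wt s V t := by
    intro t
    unfold wt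
    simp only [G.lam_lam]
    cases h1 : G.pr (fun _ => s) t <;> cases h2 : G.pr (fun _ => s) (G.lam t) <;> simp
    exact hV.pair t h1 h2
  have hroot : ∑ x with G.nd x = r₀, G.wt s V x = 0 := by
    refine sum_last G.lam_lam G.lam_ne hWl ?_
    intro f hf
    exact h.node_zero hC hV.gp (hV.cl f hf)
  rw [← sum_fib, h.node_sum (fun f => (hC f).2) hV.gp] at hroot
  intro f
  by_cases hf : f = r₀
  · rw [hf]
    obtain ⟨S, hS⟩ := hV.root
    have h1 := h.act_ok hC r₀
    refine ⟨S, hS, deep_of_sum hS (by rw [ht_lv]; exact h1.1.2) ?_⟩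
    rw [← h1.2] at hroot
    unfold vs lv
    rw [List.map_map]
    rw [List.map_map] at hroot
    exact hroot
  · exact hV.cl f hf

/-- **one pair may be free**: if all circles have closed walks then the last pair is equal, too -/
theorem Full.last_pair {V : T → B} {a : T}
    (pair : ∀ t, t ≠ a → t ≠ G.lam a → G.pr (fun _ => s) t = true →
      G.pr (fun _ => s) (G.lam t) = true → V (G.lam t) = V t)
    (hgp : ∀ f, (G.c f).isGp = true → G.Dr (fun _ => s) f → ∀ r, (G.c f).r = some r →
      V (G.c f).l = V r)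
    (hcl : ∀ f, Cl V ((G.c f).act (G.pr fun _ => s) s)) (ha : G.pr (fun _ => s) a = true)
    (ha' : G.pr (fun _ => s) (G.lam a) = true) : V (G.lam a) = V a := by
  classical
  have h1 : ∑ x, G.wt s V x = 0 := by
    rw [← Finset.sum_fiberwise (s := Finset.univ) (g := G.nd)]
    exact Finset.sum_eq_zero fun f _ => h.node_zero hC hgp (hcl f)
  have hne := G.lam_ne a
  have h2 : ∑ x ∈ (Finset.univ.erase a).erase (G.lam a), G.wt s V x = 0 := by
    refine Finset.sum_involution (fun x _ => G.lam x) ?_ ?_ ?_ ?_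
    · intro x hx
      obtain ⟨h3, h4⟩ := Finset.mem_erase.1 hx
      obtain ⟨h5, -⟩ := Finset.mem_erase.1 h4
      have h6 : G.wt s V (G.lam x) = G.wt s V x := by
        unfold wt
        simp only [G.lam_lam]
        cases h1 : G.pr (fun _ => s) x <;> cases h2 : G.pr (fun _ => s) (G.lam x) <;> simp
        exact pair x h5 h3 h1 h2
      rw [h6]
      exact b_add_self _
    · intro x _ _
      exact G.lam_ne x
    · intro x hx
      obtain ⟨h3, h4⟩ := Finset.mem_erase.1 hx
      obtain ⟨h5, -⟩ := Finset.mem_erase.1 h4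
      refine Finset.mem_erase.2 ⟨fun h6 => h5 (lam_inj h6), Finset.mem_erase.2 ⟨fun h6 => ?_,
        Finset.mem_univ _⟩⟩
      exact h3 (by rw [← h6, G.lam_lam])
    · intro x _
      exact G.lam_lam x
  have h3 : G.lam a ∈ Finset.univ.erase a := Finset.mem_erase.2 ⟨hne, Finset.mem_univ _⟩
  rw [← Finset.add_sum_erase Finset.univ (G.wt s V) (Finset.mem_univ a),
    ← Finset.add_sum_erase (Finset.univ.erase a) (G.wt s V) h3, h2, add_zero] at h1
  have h4 : G.wt s V a = V a := by simp [wt, ha]
  have h5 : G.wt s V (G.lam a) = V (G.lam a) := by simp [wt, ha']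
  rw [h4, h5] at h1
  have h6 := b_add_self (V a)
  linear_combination h1 - h6

end

/-- the extension theorem for the system -/
def ExtS (G : Sys n T) (s : T → Bool) : Prop := ∀ V : T → B,
  (∀ t, G.pr (fun _ => s) t = true → G.pr (fun _ => s) (G.lam t) = true → V (G.lam t) = V t) →
  (∀ f, (G.c f).isGp = true → G.Dr (fun _ => s) f → ∀ r, (G.c f).r = some r →
    V (G.c f).l = V r) →
  (∀ f, Cl V ((G.c f).act (G.pr fun _ => s) s)) →
  ∃ V' : T → B, (∀ t, G.pr (fun _ => s) t = true →
      (∀ g, G.Dr (fun _ => s) g → (G.c g).isGp = true → t ≠ (G.c g).l ∧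
        ∀ r, (G.c g).r = some r → t ≠ r) → V' t = V t) ∧
    (∀ t, V' (G.lam t) = V' t) ∧ ∀ f, Cl V' ((G.c f).fin (G.pr fun _ => s) s)

/-- the own tokens of a group link -/
lemma gp_own {c : Circ T} {pr s : T → Bool} (hw : c.WS) (hn : c.tks.Nodup) (hC : c.CC s)
    (hP : c.Pc pr s) (hgp : c.isGp = true) {V : T → B} {k : B}
    (hk : ∀ t ∈ c.tks, pr t = true → t ≠ c.l → (∀ r, c.r = some r → t ≠ r) → V t = k)
    (hA : Cl V (c.act pr s)) {r : T} (hr : c.r = some r) : V r = k := by
  cases c with
  | pl l r us => simp [Circ.isGp] at hgp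
  | fu A => simp [Circ.isGp] at hgp
  | gp l us t g r' =>
    have hrr : r' = r := by simpa [Circ.r] using hr
    rw [hrr] at hw hn hC hP hk hA
    have hcore := hP.core (by simp [Circ.isGp])
    have ht : pr t = true := hcore (BU.gv t (g.flatMap Itm.pairs)) (by simp [Circ.pus]) t
      (by simp [BU.core])
    have hr : pr r = true := hcore (BU.fr r) (by simp [Circ.pus]) r (by simp [BU.core])
    have hgev : ∀ p ∈ g.flatMap Itm.evs, pr p.1 = pr p.2 := fun p hp =>
      hP.ev p (List.mem_append_right _ hp)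
    have hgb : ∀ t' x m', Itm.br t' x m' ∈ g → pr t' = true ∧ pr x = true := by
      intro t' x m' hi
      have h1 : BU.br t' x m' ∈ (Circ.gp l us t g r).pus := by
        refine List.mem_append_right _ (List.mem_append_left _ (List.mem_flatMap.2 ⟨_, hi, ?_⟩))
        simp [Itm.brp]
      exact ⟨hcore _ h1 t' (by simp [BU.core]), hcore _ h1 x (by simp [BU.core])⟩
    have e1 : (Circ.gp l us t g r).act pr s = fl pr (BU.word (BU.sg s) us) ++ ([(false, t)] ++
        (fl pr (g.flatMap Itm.rd) ++ [(true, r)])) := by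
      have e2 : (Circ.gp l us t g r).act pr s = fl pr (BU.word (BU.sg s) us ++
        ((false, t) :: (g.flatMap Itm.rd ++ [(true, r)]))) := rfl
      rw [e2, fl_append, fl_pos ht, fl_append, fl_pos hr]
      rfl
    obtain ⟨us', hus⟩ := hw.ogp l us t g r rfl
    have e3 : (Circ.gp l us t g r).tks = (l :: us'.flatMap BU.tks) ++
        (t :: (g.flatMap Itm.tks ++ [r])) := by
      rw [hus]
      simp [Circ.tks, BU.tks]
    have hn' := hn
    rw [e3] at hn'
    obtain ⟨n1, n2, n3⟩ := List.nodup_append.1 hn'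
    obtain ⟨n4, n5⟩ := List.nodup_cons.1 n2
    obtain ⟨-, -, n6⟩ := List.nodup_append.1 n5
    have hkt : V t = k := by
      refine hk t (by rw [e3]; simp) ht ?_ ?_
      · intro h1
        exact n3 l (by simp) t (by simp) h1.symm
      · intro r'' hr'' h1
        have : r = r'' := by simpa [Circ.r] using hr''
        exact n4 (by rw [h1, ← this]; simp)
    have hkg : ∀ q ∈ fl pr (g.flatMap Itm.rd), V q.2 = k := by
      intro q hq
      obtain ⟨h1, h2⟩ := List.mem_filter.1 hq
      have h3 : q.2 ∈ g.flatMap Itm.tks := by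
        rw [← rd_snd]
        exact List.mem_map.2 ⟨q, h1, rfl⟩
      refine hk q.2 (by rw [e3]; simp [h3]) (by simpa using h2) ?_ ?_
      · intro h4
        exact n3 l (by simp) q.2 (by simp [h3]) h4.symm
      · intro r'' hr'' h4
        have h5 : r = r'' := by simpa [Circ.r] using hr''
        exact n6 q.2 h3 r'' (by rw [h5]; simp) h4
    obtain ⟨S, hS, -⟩ := hA
    rw [e1, lv_append, run_append] at hS
    obtain ⟨S₁, -, h2⟩ := hS
    have h3 : Run (lv V (fl pr (g.flatMap Itm.rd) ++ [(true, r)])) (push (V t) S₁) S := h2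
    rw [lv_append, run_append] at h3
    obtain ⟨S₂, h4, h5⟩ := h3
    have h6 : V r = S₂ 0 ∧ tl S₂ = S := h5
    have h7 := run_eff (a := k) (w := lv V (fl pr (g.flatMap Itm.rd))) (by
      intro p hp
      obtain ⟨q, hq, rfl⟩ := List.mem_map.1 hp
      exact hkg q hq) h4
    rw [ht_lv, (PH.rd hgev hgb).2] at h7
    rw [h6.1, h7.zero]
    exact hkt

/-- **the global theorem** (`r₀` = circle whose deep stack may be anything) -/
theorem main_of_ext [Fintype T] {E : Fin n → (T → Bool) → Prop} (h : G.Full E)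
    (hx : ∀ s, (∀ f, (G.c f).CC s ∧ E f s) → G.ExtS s) (r₀ : Fin n) :
    ∃ s : T → Bool, (∀ f, (G.c f).CC s ∧ E f s) ∧
      (∀ f, (G.c f).isDr (G.pr fun _ => s) s = true ↔ G.Dr (fun _ => s) f) ∧
      (∀ f, PH 4 4 2 ((G.c f).act (G.pr fun _ => s) s) ∧
        ((G.c f).act (G.pr fun _ => s) s).map Prod.snd = (G.c f).tks.filter (G.pr fun _ => s)) ∧
      ∀ V : T → B, G.Sol s r₀ V → ∃ k, (∀ t, G.pr (fun _ => s) t = true → V t = k) ∧
        ∀ f S, Run (lv V ((G.c f).act (G.pr fun _ => s) s)) S S → ∀ j, S j = k := by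
  classical
  obtain ⟨s, h1, h2, h3⟩ := G.abs h.toGood
  have hact : ∀ f, PH 4 4 2 ((G.c f).act (G.pr fun _ => s) s) ∧
      ((G.c f).act (G.pr fun _ => s) s).map Prod.snd =
        (G.c f).tks.filter (G.pr fun _ => s) := fun f =>
    Circ.act_ok (G.ws f) (G.nodup f) (h1 f).1 (h.own f s (h1 f).2)
      (h.pc (fun f => (h1 f).2) f)
  refine ⟨s, h1, h2, hact, ?_⟩
  intro V hV
  have hcl := hV.root_cl h h1
  obtain ⟨V', h4, h5, h6⟩ := hx s h1 V hV.pair hV.gp hcl
  have h7 := h3 V' h5 h6
  obtain ⟨k, hk⟩ : ∃ k, ∀ t, V' t = k := by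
    by_cases hT : Nonempty T
    · obtain ⟨t₀⟩ := hT
      exact ⟨V' t₀, fun t => h7 t t₀⟩
    · exact ⟨0, fun t => absurd ⟨t⟩ hT⟩
  have hgpr : ∀ g, G.Dr (fun _ => s) g → (G.c g).isGp = true → ∀ r, (G.c g).r = some r →
      V r = k := by
    intro g hD hgp r hr
    refine gp_own (G.ws g) (G.nodup g) (h1 g).1 (h.pc (fun f => (h1 f).2) g) hgp ?_ (hcl g) hr
    intro t ht hp hl hr'
    rw [← h4 t hp ?_, hk]
    intro g' hD' hgp'
    constructor
    · intro h8
      have h9 : g = g' := by rw [← (G.mem g t).1 ht, h8, nd_l]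
      rw [← h9] at h8
      exact hl h8
    · intro r' hr'' h8
      have h9 : g = g' := by rw [← (G.mem g t).1 ht, h8, nd_r hr'']
      rw [← h9] at hr''
      exact hr' r' hr'' h8
  have hall : ∀ t, G.pr (fun _ => s) t = true → V t = k := by
    intro t ht
    by_cases h8 : ∀ g, G.Dr (fun _ => s) g → (G.c g).isGp = true → t ≠ (G.c g).l ∧
        ∀ r, (G.c g).r = some r → t ≠ r
    · rw [← h4 t ht h8, hk]
    · push Not at h8
      obtain ⟨g, hD, hgp, h9⟩ := h8
      have hD' := hD
      cases hD with
      | mk _ r hr h' hb =>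
        have h10 := hgpr g hD' hgp r hr
        have h11 := hV.gp g hgp hD' r hr
        by_cases h12 : t = (G.c g).l
        · rw [h12, h11, h10]
        · obtain ⟨r', hr', h13⟩ := h9 h12
          rw [h13, Option.some.inj (hr'.symm.trans hr)]
          exact h10
  refine ⟨k, hall, ?_⟩
  intro f S hS
  refine run_const_two ?_ (by rw [ht_lv]; exact (hact f).1.2) hS
  intro p hp
  obtain ⟨q, hq, rfl⟩ := List.mem_map.1 hp
  refine hall q.2 ?_
  have h8 : q.2 ∈ ((G.c f).act (G.pr fun _ => s) s).map Prod.snd := List.mem_map.2 ⟨q, hq, rfl⟩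
  rw [(hact f).2] at h8
  exact (List.mem_filter.1 h8).2

end Sys

end Pool.Agent.MP42.U
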