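import Pool.Agent.MP42.U.Ext
import Pool.Agent.MP42.U.Main

/-!
# Systems of circles: the global theorem
-/

set_option autoImplicit false

namespace Pool.Agent.MP42.U

variable {T : Type*}

namespace Sys

variable {n : ℕ} {G : Sys n T}

/-- the extension theorem in the form used by `main_of_ext` -/
theorem Full.extS {E : Fin n → (T → Bool) → Prop} (h : G.Full E) {s : T → Bool}
    (hC : ∀ f, (G.c f).CC s ∧ E f s) : G.ExtS s := by
  intro V hV hbox hcl
  obtain ⟨V', h1, h2, h3⟩ := ext h.tree (fun f => (hC f).1)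
    (fun g hg => by
      obtain ⟨z, -, p, hp, hc⟩ := h.parent (fun f => (hC f).2) hg
      exact ⟨z, p, hp, hc⟩) hV (fun g hg hgp r hr => hbox g hgp hg r hr) hcl
  refine ⟨V', ?_, h2, h3⟩
  intro t ht hno
  refine h1 t ht ?_
  rintro ⟨g, hg, hgp, ho⟩
  obtain ⟨h4, h5⟩ := hno g hg hgp
  rcases ho with h6 | h6
  · exact h4 h6
  · exact h5 t h6 rfl

/-- **the global theorem** (`r₀` = circle whose deep stack may be anything) -/
theorem main [Fintype T] {E : Fin n → (T → Bool) → Prop} (h : G.Full E) (r₀ : Fin n) :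
    ∃ s : T → Bool, (∀ f, (G.c f).CC s ∧ E f s) ∧
      (∀ f, (G.c f).isDr (G.pr fun _ => s) s = true ↔ G.Dr (fun _ => s) f) ∧
      (∀ f, PH 4 4 2 ((G.c f).act (G.pr fun _ => s) s) ∧
        ((G.c f).act (G.pr fun _ => s) s).map Prod.snd = (G.c f).tks.filter (G.pr fun _ => s)) ∧
      ∀ V : T → B, G.Sol s r₀ V → ∃ k, (∀ t, G.pr (fun _ => s) t = true → V t = k) ∧
        ∀ f S, Run (lv V ((G.c f).act (G.pr fun _ => s) s)) S S → ∀ j, S j = k :=
  main_of_ext h (fun _ hC => h.extS hC) r₀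

end Sys

end Pool.Agent.MP42.U
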