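import Pool.Agent.MP42.U.Inst
import Pool.Agent.MP42.U.SMain

/-!
# Project MP42: from the tree side to the node side, the circles

`RD C α`: the circles `C` of a level with their items (letters `α`, children `C`) in reading order, cut
into units, and the other ends of the letters.
Tokens: `Tok.pt p` = letter, `Tok.ow c k` = token of the own link of `c` at the circle `c` (`k = true`:
the first one, `k = false`: the last one, own link double), `Tok.up c k` = token of the own link of `c`
at the parent.  `RD.T` = the tokens which exist, `RD.tk` = total map to them.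
`RD.cir z` = the circle `z` as a `Circ R.T`.
-/

set_option autoImplicit false

namespace Pool.Agent.MP42.U

/-! ### Groups -/

namespace It

variable {I : Type*}

/-- a free unit -/
def isFr : It I → Prop
  | fr _ => True
  | _ => False

/-- the item of a free unit -/
def fri : It I → List I
  | fr i => [i]
  | _ => []

end It

/-- units in groups: each group ends with a free item -/
lemma exists_grs {I : Type*} : ∀ us : List (It I), ∃ (gs : List (List (It I) × I))
    (tl : List (It I)), us = (gs.flatMap fun g => g.1 ++ [It.fr g.2]) ++ tl ∧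
      (∀ g ∈ gs, ∀ u ∈ g.1, ¬ u.isFr) ∧ ∀ u ∈ tl, ¬ u.isFr := by
  intro us
  induction us with
  | nil => exact ⟨[], [], rfl, by simp, by simp⟩
  | cons u us ih =>
    obtain ⟨gs, tl, h1, h2, h3⟩ := ih
    by_cases hu : u.isFr
    · cases u with
      | ev i => exact hu.elim
      | br f m x => exact hu.elim
      | fr i =>
        refine ⟨([], i) :: gs, tl, by rw [h1]; rfl, ?_, h3⟩
        intro g hg
        rcases List.mem_cons.1 hg with rfl | hg
        · simp
        · exact h2 g hg
    · cases gs with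
      | nil =>
        refine ⟨[], u :: tl, by rw [h1]; rfl, by simp, ?_⟩
        intro w hw
        rcases List.mem_cons.1 hw with rfl | hw
        · exact hu
        · exact h3 w hw
      | cons g gs =>
        refine ⟨(u :: g.1, g.2) :: gs, tl, by rw [h1]; simp, ?_, h3⟩
        intro g' hg'
        rcases List.mem_cons.1 hg' with rfl | hg'
        · intro w hw
          rcases List.mem_cons.1 hw with rfl | hw
          · exact hu
          · exact h2 g List.mem_cons_self w hw
        · exact h2 g' (List.mem_cons_of_mem _ hg')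

/-! ### The data -/

/-- raw tokens -/
inductive Tok (C α : Type*)
  /-- letter -/
  | pt (p : α)
  /-- own link, at the circle -/
  | ow (c : C) (k : Bool)
  /-- own link, at the parent -/
  | up (c : C) (k : Bool)

/-- the condition of a circle: `o` = value of the own link, `b` = value of the fused strand -/
def MJ {C α : Type*} (real : C → Prop) (xn : Option α) (p : Option (List (α ⊕ C) × (α ⊕ C)))
    (us : List (It (α ⊕ C))) (o : ZMod 2) (val : α ⊕ C → ZMod 2) : Prop :=
  ∃ b, (xn = none ∨ p = none → b = o) ∧ (∀ x ∈ xn, val (Sum.inl x) = b) ∧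
    (∀ q ∈ p, val q.2 = b ∧ ∀ i ∈ q.1, val i = b) ∧
    ∀ u ∈ us, match u with
      | It.ev i => val i = o ∨ ((∀ c, i = Sum.inr c → ¬ real c) ∧ val i = b)
      | It.fr i => val i = o
      | It.br f m x => val f = val x ∧ ∀ i ∈ m, val i = val x

/-- the items of a circle in reading order: port of the own dock, front part, units -/
def lst {C α : Type*} (xn : Option α) (p : Option (List (α ⊕ C) × (α ⊕ C)))
    (us : List (It (α ⊕ C))) : List (α ⊕ C) :=
  ((xn.elim [] fun x => [Sum.inl x]) ++ (p.elim [] fun q => q.1 ++ [q.2])) ++ us.flatMap It.fl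

/-- an odd item: a letter or a child with a single own link -/
def Od' {C α : Type*} (dbl : C → Prop) : α ⊕ C → Prop := Sum.elim (fun _ => True) fun c => ¬ dbl c

/-- **the circles of a level in reading order** -/
structure RD (C α : Type*) where
  /-- the root circle -/
  r : C
  par : C → C
  dep : C → ℕ
  dep_par : ∀ z, z ≠ r → dep (par z) < dep z
  /-- the circle of a letter -/
  pt : α → C
  /-- the letters -/
  L : Finset α
  /-- the own link is double -/
  dbl : C → Prop
  /-- the own link is real -/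
  real : C → Prop
  /-- the own link is a group link -/
  grp : C → Prop
  /-- `true`: the first token at the circle is the other end of the first token at the parent -/
  tw : C → Bool
  xN : C → Option α
  p : C → Option (List (α ⊕ C) × (α ⊕ C))
  us : C → List (It (α ⊕ C))
  nodup : ∀ z, (lst (xN z) (p z) (us z)).Nodup
  /-- the token which is connected with the root gap: a letter, or the own token of another circle
  (which then is no item) -/
  ex : Option (α ⊕ C)
  mem_rd : ∀ z i, i ∈ lst (xN z) (p z) (us z) ↔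
    (∀ q, i = Sum.inl q → q ∈ L) ∧ Sum.elim pt par i = z ∧ i ≠ Sum.inr r ∧
      ∀ c, ex = some (Sum.inr c) → i ≠ Sum.inr c
  /-- the ports -/
  Po : α ⊕ C → Prop
  po_od : ∀ i, Po i → Od' dbl i
  p_spec : ∀ z, ∀ q ∈ p z, (∀ i ∈ q.1, ¬ Od' dbl i) ∧ Po q.2
  us_spec : ∀ z, ∀ u ∈ us z, u.Good (Od' dbl) Po
  /-- parity -/
  par_rd : ∀ z, Even ((xN z).elim 0 (fun _ => 1) + (p z).elim 0 (fun _ => 1) +
    ((us z).flatMap It.fri).length) ↔ dbl z
  ex_dbl : dbl r ↔ ex = none
  ex_mem : ∀ q, ex = some (Sum.inl q) → q ∈ L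
  ex_c : ∀ c, ex = some (Sum.inr c) → c ≠ r ∧ ¬ dbl c
  /-- the other ends of the letters -/
  mate : α → α
  mate_mem : ∀ q ∈ L, ex ≠ some (Sum.inl q) → mate q ∈ L ∧ ex ≠ some (Sum.inl (mate q))
  mate_mate : ∀ q ∈ L, ex ≠ some (Sum.inl q) → mate (mate q) = q
  mate_ne : ∀ q ∈ L, ex ≠ some (Sum.inl q) → mate q ≠ q
  /-- the root circle of a closed level has no uncancelled port -/
  root : dbl r → xN r = none ∧ p r = none
  /-- connectivity -/
  conn : ∀ val : α ⊕ C → ZMod 2, (∀ i, ex = some i → val i = val (Sum.inr r)) →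
    (∀ q ∈ L, ex ≠ some (Sum.inl q) → val (Sum.inl (mate q)) = val (Sum.inl q)) →
    (∀ z, MJ real (xN z) (p z) (us z) (val (Sum.inr z)) val) →
    (∀ c, val (Sum.inr c) = val (Sum.inr r)) ∧ ∀ q ∈ L, val (Sum.inl q) = val (Sum.inr r)

namespace RD

variable {C α : Type*} (R : RD C α)

/-- the items in reading order -/
def rd (z : C) : List (α ⊕ C) := lst (R.xN z) (R.p z) (R.us z)

/-! ### Tokens -/

/-- the tokens which exist -/
def Val : Tok C α → Prop
  | Tok.pt p => p ∈ R.L
  | Tok.ow c k => k = false → R.dbl c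
  | Tok.up c k => (c ≠ R.r ∧ R.ex ≠ some (Sum.inr c)) ∧ (k = false → R.dbl c)

/-- the circle of a token -/
def ndr : Tok C α → C
  | Tok.pt p => R.pt p
  | Tok.ow c _ => c
  | Tok.up c _ => R.par c

/-- the tokens -/
abbrev T : Type _ := {t : Tok C α // R.Val t}

instance : Inhabited R.T := ⟨⟨Tok.ow R.r true, fun h => by simp at h⟩⟩

open Classical in
/-- total map to the tokens -/
noncomputable def tk (t : Tok C α) : R.T := if h : R.Val t then ⟨t, h⟩ else default

lemma tk_val {t : Tok C α} (h : R.Val t) : (R.tk t).1 = t := by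
  unfold tk
  rw [dif_pos h]

lemma tk_self (t : R.T) : R.tk t.1 = t := by
  unfold tk
  rw [dif_pos t.2]

lemma tk_inj {t t' : Tok C α} (h : R.Val t) (h' : R.Val t') (he : R.tk t = R.tk t') : t = t' := by
  rw [← R.tk_val h, ← R.tk_val h', he]

lemma ex_ne {c : C} (h : R.dbl c) : R.ex ≠ some (Sum.inr c) := fun h' => (R.ex_c c h').2 h

/-- the other end of the token at the root gap -/
def exk : Bool → Tok C α :=
  fun k => R.ex.elim (Tok.ow R.r (!k)) (Sum.elim Tok.pt fun c => Tok.ow c true)

lemma exk_none (h : R.ex = none) (k : Bool) : R.exk k = Tok.ow R.r (!k) := by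
  unfold exk
  rw [h]
  rfl

lemma exk_inl {q : α} (h : R.ex = some (Sum.inl q)) (k : Bool) : R.exk k = Tok.pt q := by
  unfold exk
  rw [h]
  rfl

lemma exk_inr {c : C} (h : R.ex = some (Sum.inr c)) (k : Bool) : R.exk k = Tok.ow c true := by
  unfold exk
  rw [h]
  rfl

open Classical in
/-- the other end of a token -/
noncomputable def lamr : Tok C α → Tok C α
  | Tok.pt q => if R.ex = some (Sum.inl q) then Tok.ow R.r true else Tok.pt (R.mate q)
  | Tok.ow c k => if c = R.r then R.exk k
      else if R.dbl c then Tok.up c (k == R.tw c)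
      else if R.ex = some (Sum.inr c) then Tok.ow R.r true else Tok.up c true
  | Tok.up c k => if R.dbl c then Tok.ow c (k == R.tw c) else Tok.ow c true

open Classical in
lemma lamr_pt (q : α) : R.lamr (Tok.pt q) =
    if R.ex = some (Sum.inl q) then Tok.ow R.r true else Tok.pt (R.mate q) := rfl

open Classical in
lemma lamr_ow (c : C) (k : Bool) : R.lamr (Tok.ow c k) =
    if c = R.r then R.exk k
      else if R.dbl c then Tok.up c (k == R.tw c)
      else if R.ex = some (Sum.inr c) then Tok.ow R.r true else Tok.up c true := rfl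

open Classical in
lemma lamr_up (c : C) (k : Bool) : R.lamr (Tok.up c k) =
    if R.dbl c then Tok.ow c (k == R.tw c) else Tok.ow c true := rfl

lemma lamr_val {t : Tok C α} (h : R.Val t) : R.Val (R.lamr t) := by
  cases t with
  | pt q =>
    rw [R.lamr_pt]
    split_ifs with h1
    · intro h2; simp at h2
    · exact (R.mate_mem q h h1).1
  | ow c k =>
    rw [R.lamr_ow]
    split_ifs with h1 h2 h3
    · unfold exk
      rcases hex : R.ex with _ | q | c'
      · intro _
        exact R.ex_dbl.2 hex
      · exact R.ex_mem q hex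
      · intro h3; simp at h3
    · exact ⟨⟨h1, R.ex_ne h2⟩, fun _ => h2⟩
    · intro h4; simp at h4
    · exact ⟨⟨h1, h3⟩, fun h3 => by simp at h3⟩
  | up c k =>
    rw [R.lamr_up]
    split_ifs with h1
    · intro _; exact h1
    · intro h3; simp at h3

lemma lamr_lamr {t : Tok C α} (h : R.Val t) : R.lamr (R.lamr t) = t := by
  cases t with
  | pt q =>
    by_cases h1 : R.ex = some (Sum.inl q)
    · have e1 : R.lamr (Tok.pt q : Tok C α) = Tok.ow R.r true := by simp [lamr, h1]
      rw [e1]
      simp [lamr, exk, h1]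
    · have e1 : R.lamr (Tok.pt q : Tok C α) = Tok.pt (R.mate q) := by simp [lamr, h1]
      rw [e1]
      have h2 := (R.mate_mem q h h1).2
      simp [lamr, h2, R.mate_mate q h h1]
  | ow c k =>
    by_cases h1 : c = R.r
    · subst h1
      rcases hex : R.ex with _ | q
      · simp [lamr, exk, hex]
      · have hk : k = true := by
          cases k with
          | true => rfl
          | false =>
            have h2 : R.dbl R.r := h rfl
            rw [R.ex_dbl, hex] at h2
            simp at h2
        rcases q with q | c'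
        · simp [lamr, exk, hex, hk]
        · obtain ⟨h2, h3⟩ := R.ex_c c' hex
          simp [lamr, exk, hex, hk, h2, h3]
    · by_cases h2 : R.dbl c
      · have e1 : R.lamr (Tok.ow c k : Tok C α) = Tok.up c (k == R.tw c) := by
          simp [lamr, h1, h2]
        rw [e1]
        simp only [lamr, h2, if_true]
        congr 1
        cases k <;> cases R.tw c <;> rfl
      · have hk : k = true := by
          cases k with
          | true => rfl
          | false => exact absurd (h rfl) h2
        by_cases h3 : R.ex = some (Sum.inr c)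
        · have e1 : R.lamr (Tok.ow c k : Tok C α) = Tok.ow R.r true := by
            simp [lamr, h1, h2, h3]
          rw [e1, hk]
          simp [lamr, exk, h3]
        · have e1 : R.lamr (Tok.ow c k : Tok C α) = Tok.up c true := by
            simp [lamr, h1, h2, h3]
          rw [e1, hk]
          simp [lamr, h2]
  | up c k =>
    by_cases h2 : R.dbl c
    · have e1 : R.lamr (Tok.up c k : Tok C α) = Tok.ow c (k == R.tw c) := by
        simp [lamr, h2]
      rw [e1]
      simp only [lamr, h2, if_true, if_neg h.1.1]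
      congr 1
      cases k <;> cases R.tw c <;> rfl
    · have e1 : R.lamr (Tok.up c k : Tok C α) = Tok.ow c true := by
        simp [lamr, h2]
      have hk : k = true := by
        cases k with
        | true => rfl
        | false => exact absurd (h.2 rfl) h2
      rw [e1, hk]
      simp [lamr, h2, h.1.1, h.1.2]

lemma lamr_ne {t : Tok C α} (h : R.Val t) : R.lamr t ≠ t := by
  cases t with
  | pt q =>
    rw [R.lamr_pt]
    split_ifs with h1
    · simp
    · intro h2
      exact R.mate_ne q h h1 (by simpa using h2)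
  | ow c k =>
    rw [R.lamr_ow]
    split_ifs with h1 h2 h3
    · unfold exk
      rcases hex : R.ex with _ | q | c'
      · simp
      · simp
      · intro h3
        have h4 : c' = c := by
          have := h3
          simp only [Option.elim_some, Sum.elim_inr, Tok.ow.injEq] at this
          exact this.1
        exact (R.ex_c c' hex).1 (h4.trans h1)
    · simp
    · intro h4
      have : R.r = c := by
        simp only [Tok.ow.injEq] at h4
        exact h4.1
      exact h1 this.symm
    · simp
  | up c k =>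
    rw [R.lamr_up]
    split_ifs with h1
    · simp
    · simp

/-- the other end -/
noncomputable def lam (t : R.T) : R.T := ⟨R.lamr t.1, R.lamr_val t.2⟩

lemma lam_tk {t : Tok C α} (h : R.Val t) : R.lam (R.tk t) = R.tk (R.lamr t) := by
  apply Subtype.ext
  rw [R.tk_val (R.lamr_val h)]
  show R.lamr (R.tk t).1 = _
  rw [R.tk_val h]

/-! ### The circles -/

/-- the (first) token of an item -/
def t1 : α ⊕ C → Tok C α := Sum.elim Tok.pt fun c => Tok.up c true

/-- the second token of an item -/
def t2 : α ⊕ C → Tok C α := Sum.elim Tok.pt fun c => Tok.up c false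

/-- the (first) token of an item -/
noncomputable def m1 (i : α ⊕ C) : R.T := R.tk (t1 i)

/-- the second token of an item -/
noncomputable def m2 (i : α ⊕ C) : R.T := R.tk (t2 i)

/-- the own token -/
noncomputable def ol (z : C) : R.T := R.tk (Tok.ow z true)

/-- the second own token -/
noncomputable def or (z : C) : R.T := R.tk (Tok.ow z false)

/-- the pair of tokens of an item -/
noncomputable def pr (i : α ⊕ C) : R.T × R.T := (R.m1 i, R.m2 i)

/-- an item as an even unit -/
noncomputable def ue (i : α ⊕ C) : BU R.T := BU.ev (R.m1 i) (R.m2 i)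

/-- a unit -/
noncomputable def ut : It (α ⊕ C) → BU R.T
  | It.ev i => R.ue i
  | It.fr i => BU.fr (R.m1 i)
  | It.br f m x => BU.br (R.m1 f) (R.m1 x) (m.map R.pr)

/-- a real child -/
def rl : α ⊕ C → Prop := Sum.elim (fun _ => False) R.real

open Classical in
/-- a unit behind the second port as an item of a group -/
noncomputable def ui : It (α ⊕ C) → Itm R.T
  | It.ev i => if R.rl i then Itm.re (R.m1 i) (R.m2 i) else Itm.la (R.m1 i) (R.m2 i)
  | It.fr i => Itm.re (R.m1 i) (R.m1 i)
  | It.br f m x => Itm.br (R.m1 f) (R.m1 x) (m.map R.pr)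

/-- the groups -/
noncomputable def gs (z : C) : List (List (It (α ⊕ C)) × (α ⊕ C)) :=
  (exists_grs (R.us z)).choose

/-- the units behind the last group -/
noncomputable def tl (z : C) : List (It (α ⊕ C)) :=
  (exists_grs (R.us z)).choose_spec.choose

lemma us_eq (z : C) : R.us z = ((R.gs z).flatMap fun g => g.1 ++ [It.fr g.2]) ++ R.tl z :=
  (exists_grs (R.us z)).choose_spec.choose_spec.1

lemma gs_fr {z : C} : ∀ g ∈ R.gs z, ∀ u ∈ g.1, ¬ u.isFr :=
  (exists_grs (R.us z)).choose_spec.choose_spec.2.1

lemma tl_fr {z : C} : ∀ u ∈ R.tl z, ¬ u.isFr :=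
  (exists_grs (R.us z)).choose_spec.choose_spec.2.2

/-- a group -/
noncomputable def ug (g : List (It (α ⊕ C)) × (α ⊕ C)) : List (Itm R.T) × R.T :=
  (g.1.map R.ui, R.m1 g.2)

open Classical in
/-- the second own token -/
noncomputable def orr (z : C) : Option R.T := if R.dbl z then some (R.or z) else none

open Classical in
/-- a circle with two ports -/
noncomputable def fuA (z : C) (x : α) (q : List (α ⊕ C) × (α ⊕ C)) : Fu R.T where
  l := R.ol z
  x := R.m1 (Sum.inl x)
  e1 := q.1.map R.ue
  X := R.m1 q.2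
  gs := (R.gs z).map R.ug ++ if R.dbl z then [((R.tl z).map R.ui, R.or z)] else []
  tl := if R.dbl z then [] else (R.tl z).map R.ui
  r := R.orr z

/-- the own token and the ports -/
noncomputable def fro (z : C) : List (BU R.T) :=
  BU.fx (R.ol z) :: (((R.xN z).elim [] fun x => [BU.fx (R.m1 (Sum.inl x))]) ++
    ((R.p z).elim [] fun q => q.1.map R.ue ++ [BU.fx (R.m1 q.2)]))

/-- the units of a circle with at most one port -/
noncomputable def plU (z : C) : List (BU R.T) :=
  R.fro z ++ ((R.us z).map R.ut ++ (R.orr z).elim [] fun t => [BU.fr t])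

/-- the own link is a group link which can be dropped -/
def Gp (z : C) : Prop := R.grp z ∧ R.dbl z ∧ R.xN z = none ∧ R.p z ≠ none

/-- the units before the last free item of a circle with a group link -/
noncomputable def gpU (z : C) (g : List (It (α ⊕ C)) × (α ⊕ C)) : List (BU R.T) :=
  R.fro z ++ ((((R.gs z).dropLast.flatMap fun g => g.1 ++ [It.fr g.2]) ++ g.1).map R.ut)

open Classical in
/-- **the circle** -/
noncomputable def cir (z : C) : Circ R.T :=
  match R.xN z, R.p z with
  | some x, some q => Circ.fu (R.fuA z x q)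
  | _, _ => if R.Gp z then
      match (R.gs z).getLast? with
      | some g => Circ.gp (R.ol z) (R.gpU z g) (R.m1 g.2) ((R.tl z).map R.ui) (R.or z)
      | none => Circ.pl (R.ol z) (R.orr z) (R.plU z)
    else Circ.pl (R.ol z) (R.orr z) (R.plU z)

/-- the three kinds of circles -/
lemma cir_cases (z : C) : (∃ x q, R.xN z = some x ∧ R.p z = some q ∧
      R.cir z = Circ.fu (R.fuA z x q)) ∨
    ((R.xN z = none ∨ R.p z = none) ∧ R.cir z = Circ.pl (R.ol z) (R.orr z) (R.plU z)) ∨
    (∃ gs g, R.Gp z ∧ R.gs z = gs ++ [g] ∧ (R.gs z).dropLast = gs ∧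
      R.cir z = Circ.gp (R.ol z) (R.gpU z g) (R.m1 g.2) ((R.tl z).map R.ui) (R.or z)) := by
  have key : (R.xN z = none ∨ R.p z = none) → R.cir z = (open Classical in if R.Gp z then
      match (R.gs z).getLast? with
      | some g => Circ.gp (R.ol z) (R.gpU z g) (R.m1 g.2) ((R.tl z).map R.ui) (R.or z)
      | none => Circ.pl (R.ol z) (R.orr z) (R.plU z)
    else Circ.pl (R.ol z) (R.orr z) (R.plU z)) := by
    intro h
    unfold cir
    split
    · next x q hx hp =>
      rcases h with h | h
      · rw [h] at hx; simp at hx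
      · rw [h] at hp; simp at hp
    · rfl
  by_cases h : R.xN z = none ∨ R.p z = none
  · right
    rw [key h]
    by_cases h1 : R.Gp z
    · rw [if_pos h1]
      rcases hg : (R.gs z).getLast? with _ | g
      · left; exact ⟨h, rfl⟩
      · right
        refine ⟨(R.gs z).dropLast, g, h1, ?_, rfl, rfl⟩
        exact (List.dropLast_append_getLast? g hg).symm
    · rw [if_neg h1]
      left; exact ⟨h, rfl⟩
  · left
    rw [not_or] at h
    obtain ⟨x, hx⟩ := Option.ne_none_iff_exists'.1 h.1
    obtain ⟨q, hq⟩ := Option.ne_none_iff_exists'.1 h.2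
    refine ⟨x, q, hx, hq, ?_⟩
    unfold cir
    rw [hx, hq]

/-! ### The tokens of a circle -/

open Classical in
/-- the raw tokens of an item -/
noncomputable def itk : α ⊕ C → List (Tok C α)
  | Sum.inl p => [Tok.pt p]
  | Sum.inr c => if R.dbl c then [Tok.up c true, Tok.up c false] else [Tok.up c true]

open Classical in
/-- the raw tokens of a circle -/
noncomputable def rtk (z : C) : List (Tok C α) :=
  Tok.ow z true :: ((R.rd z).flatMap R.itk ++ if R.dbl z then [Tok.ow z false] else [])

variable {R}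

lemma even_item {i : α ⊕ C} (h : ¬ Od' R.dbl i) : ∃ c, i = Sum.inr c ∧ R.dbl c := by
  cases i with
  | inl p => exact absurd trivial h
  | inr c => exact ⟨c, rfl, not_not.1 h⟩

open Classical in
lemma itk_inr (c : C) : R.itk (Sum.inr c) =
    if R.dbl c then [Tok.up c true, Tok.up c false] else [Tok.up c true] := rfl

open Classical in
lemma ui_ev (i : α ⊕ C) : R.ui (It.ev i) =
    if R.rl i then Itm.re (R.m1 i) (R.m2 i) else Itm.la (R.m1 i) (R.m2 i) := rfl

lemma itk_even {i : α ⊕ C} (h : ¬ Od' R.dbl i) : (R.itk i).map R.tk = [R.m1 i, R.m2 i] := by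
  obtain ⟨c, rfl, hc⟩ := even_item h
  rw [itk_inr, if_pos hc]
  rfl

lemma itk_odd {i : α ⊕ C} (h : Od' R.dbl i) : (R.itk i).map R.tk = [R.m1 i] := by
  cases i with
  | inl p => rfl
  | inr c =>
    have hc : ¬ R.dbl c := h
    rw [itk_inr, if_neg hc]
    rfl

lemma itk_evens : ∀ {m : List (α ⊕ C)}, (∀ i ∈ m, ¬ Od' R.dbl i) →
    (m.flatMap R.itk).map R.tk = ptk (m.map R.pr) := by
  intro m
  induction m with
  | nil => intro _; rfl
  | cons i m ih =>
    intro h
    rw [List.flatMap_cons, List.map_append, itk_even (h i List.mem_cons_self),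
      ih (fun j hj => h j (List.mem_cons_of_mem _ hj))]
    rfl

lemma ue_tks : ∀ {m : List (α ⊕ C)}, (∀ i ∈ m, ¬ Od' R.dbl i) →
    (m.map R.ue).flatMap BU.tks = (m.flatMap R.itk).map R.tk := by
  intro m
  induction m with
  | nil => intro _; rfl
  | cons i m ih =>
    intro h
    rw [List.flatMap_cons, List.map_append, itk_even (h i List.mem_cons_self), List.map_cons,
      List.flatMap_cons, ih (fun j hj => h j (List.mem_cons_of_mem _ hj))]
    rfl

lemma ut_tks1 {u : It (α ⊕ C)} (h : u.Good (Od' R.dbl) R.Po) :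
    (R.ut u).tks = (u.fl.flatMap R.itk).map R.tk := by
  cases u with
  | ev i =>
    have e : (It.ev i).fl.flatMap R.itk = R.itk i := by simp [It.fl]
    rw [e, itk_even h]; rfl
  | fr i =>
    have e : (It.fr i).fl.flatMap R.itk = R.itk i := by simp [It.fl]
    rw [e, itk_odd h.1]; rfl
  | br f m x =>
    obtain ⟨h1, h2, h3, h4⟩ := h
    have hx : Od' R.dbl x := by
      exact R.po_od x h4
    have e : (It.br f m x).fl.flatMap R.itk = R.itk f ++ (m.flatMap R.itk ++ R.itk x) := by
      simp [It.fl]
    rw [e, List.map_append, List.map_append, itk_odd h1, itk_odd hx, itk_evens h3]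
    rfl

lemma ut_tks : ∀ {us : List (It (α ⊕ C))}, (∀ u ∈ us, u.Good (Od' R.dbl) R.Po) →
    (us.map R.ut).flatMap BU.tks = ((us.flatMap It.fl).flatMap R.itk).map R.tk := by
  intro us
  induction us with
  | nil => intro _; rfl
  | cons u us ih =>
    intro h
    rw [List.map_cons, List.flatMap_cons, List.flatMap_cons, List.flatMap_append,
      List.map_append, ut_tks1 (h u List.mem_cons_self),
      ih (fun v hv => h v (List.mem_cons_of_mem _ hv))]

lemma ui_tks1 {u : It (α ⊕ C)} (h : u.Good (Od' R.dbl) R.Po) (hf : ¬ u.isFr) :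
    (R.ui u).tks = (u.fl.flatMap R.itk).map R.tk := by
  rw [← ut_tks1 h]
  cases u with
  | ev i =>
    rw [ui_ev]
    split_ifs <;> rfl
  | fr i => exact absurd trivial hf
  | br f m x => rfl

lemma ui_tks : ∀ {us : List (It (α ⊕ C))}, (∀ u ∈ us, u.Good (Od' R.dbl) R.Po) →
    (∀ u ∈ us, ¬ u.isFr) →
    (us.map R.ui).flatMap Itm.tks = ((us.flatMap It.fl).flatMap R.itk).map R.tk := by
  intro us
  induction us with
  | nil => intro _ _; rfl
  | cons u us ih =>
    intro h hf
    rw [List.map_cons, List.flatMap_cons, List.flatMap_cons, List.flatMap_append,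
      List.map_append, ui_tks1 (h u List.mem_cons_self) (hf u List.mem_cons_self),
      ih (fun v hv => h v (List.mem_cons_of_mem _ hv)) (fun v hv => hf v (List.mem_cons_of_mem _ hv))]

lemma gs_good {z : C} {g : List (It (α ⊕ C)) × (α ⊕ C)} (hg : g ∈ R.gs z) :
    (∀ u ∈ g.1, u ∈ R.us z) ∧ It.fr g.2 ∈ R.us z := by
  rw [R.us_eq z]
  constructor
  · intro u hu
    exact List.mem_append_left _ (List.mem_flatMap.2 ⟨g, hg, List.mem_append_left _ hu⟩)
  · exact List.mem_append_left _ (List.mem_flatMap.2 ⟨g, hg, List.mem_append_right _ (by simp)⟩)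

lemma tl_good {z : C} {u : It (α ⊕ C)} (hu : u ∈ R.tl z) : u ∈ R.us z := by
  rw [R.us_eq z]
  exact List.mem_append_right _ hu

lemma ug_tks {gs : List (List (It (α ⊕ C)) × (α ⊕ C))}
    (h : ∀ g ∈ gs, (∀ u ∈ g.1, u.Good (Od' R.dbl) R.Po) ∧ (It.fr g.2).Good (Od' R.dbl) R.Po)
    (hf : ∀ g ∈ gs, ∀ u ∈ g.1, ¬ u.isFr) :
    ((gs.map R.ug).flatMap fun g => g.1.flatMap Itm.tks ++ [g.2]) =
      (((gs.flatMap fun g => g.1 ++ [It.fr g.2]).flatMap It.fl).flatMap R.itk).map R.tk := by
  induction gs with
  | nil => rfl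
  | cons g gs ih =>
    have h1 := h g List.mem_cons_self
    have h2 := hf g List.mem_cons_self
    rw [List.map_cons, List.flatMap_cons, ih (fun g' hg' => h g' (List.mem_cons_of_mem _ hg'))
      (fun g' hg' => hf g' (List.mem_cons_of_mem _ hg')), List.flatMap_cons, List.flatMap_append,
      List.flatMap_append, List.map_append, List.flatMap_append, List.flatMap_append,
      List.map_append, ← ui_tks h1.1 h2]
    have e : (([It.fr g.2].flatMap It.fl).flatMap R.itk).map R.tk = [R.m1 g.2] := by
      have : ([It.fr g.2].flatMap It.fl).flatMap R.itk = R.itk g.2 := by simp [It.fl]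
      rw [this, itk_odd h1.2.1]
    rw [e]
    rfl

lemma usg (z : C) : ∀ u ∈ R.us z, u.Good (Od' R.dbl) R.Po := R.us_spec z

/-- the first units -/
lemma fro_tks (z : C) : (R.fro z).flatMap BU.tks = R.ol z ::
    ((((R.xN z).elim [] fun x => [Sum.inl x]) ++
      ((R.p z).elim [] fun q => q.1 ++ [q.2])).flatMap R.itk).map R.tk := by
  unfold fro
  rw [List.flatMap_cons, List.flatMap_append, List.flatMap_append, List.map_append]
  have h1 : (((R.xN z).elim [] fun x => [BU.fx (R.m1 (Sum.inl x))]) : List (BU R.T)).flatMap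
      BU.tks = (((R.xN z).elim [] fun x => [Sum.inl x]).flatMap R.itk).map R.tk := by
    cases R.xN z with
    | none => rfl
    | some x => rfl
  have h2 : (((R.p z).elim [] fun q => q.1.map R.ue ++ [BU.fx (R.m1 q.2)]) :
      List (BU R.T)).flatMap BU.tks =
      (((R.p z).elim [] fun q => q.1 ++ [q.2]).flatMap R.itk).map R.tk := by
    rcases hp : R.p z with _ | q
    · rfl
    · obtain ⟨h3, h4⟩ := R.p_spec z q hp
      have hx : Od' R.dbl q.2 := by
        exact R.po_od _ h4
      simp only [Option.elim_some]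
      rw [List.flatMap_append, List.flatMap_append, List.map_append, ue_tks h3]
      have e : ([q.2].flatMap R.itk).map R.tk = [R.m1 q.2] := by
        have : [q.2].flatMap R.itk = R.itk q.2 := by simp
        rw [this, itk_odd hx]
      rw [e]
      rfl
  rw [h1, h2]
  rfl

/-- **the tokens of a circle in reading order** -/
theorem cir_tks (z : C) : (R.cir z).tks = (R.rtk z).map R.tk := by
  have hus := R.us_eq z
  have hgs : ∀ g ∈ R.gs z, (∀ u ∈ g.1, u.Good (Od' R.dbl) R.Po) ∧
      (It.fr g.2).Good (Od' R.dbl) R.Po := fun g hg =>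
    ⟨fun u hu => usg z u ((gs_good hg).1 u hu), usg z _ (gs_good hg).2⟩
  have htl : ∀ u ∈ R.tl z, u.Good (Od' R.dbl) R.Po := fun u hu => usg z u (tl_good hu)
  have hor : ((R.orr z).elim [] fun t => [t]) =
      (open Classical in if R.dbl z then [Tok.ow z false] else []).map R.tk := by
    unfold orr
    split_ifs <;> rfl
  have hrtk : (R.rtk z).map R.tk = R.ol z :: ((((((R.xN z).elim [] fun x => [Sum.inl x]) ++
      ((R.p z).elim [] fun q => q.1 ++ [q.2])).flatMap R.itk).map R.tk) ++
      ((((R.us z).flatMap It.fl).flatMap R.itk).map R.tk ++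
      ((R.orr z).elim [] fun t => [t]))) := by
    rw [hor]
    unfold rtk rd lst
    rw [List.map_cons, List.map_append, List.flatMap_append, List.map_append, List.append_assoc]
    rfl
  rcases R.cir_cases z with ⟨x, q, hx, hq, h⟩ | ⟨h0, h⟩ | ⟨gs, g, h0, h1, h2, h⟩
  · rw [h, hrtk]
    have h4 : (q.1.map R.ue).flatMap BU.tks = (q.1.flatMap R.itk).map R.tk :=
      ue_tks (R.p_spec z q hq).1
    have hxo : Od' R.dbl q.2 := by
      exact R.po_od _ (R.p_spec z q hq).2
    have h5 : ((R.itk q.2).map R.tk) = [R.m1 q.2] := itk_odd hxo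
    have h6 : (Circ.fu (R.fuA z x q)).tks = R.ol z :: R.m1 (Sum.inl x) ::
        ((q.1.map R.ue).flatMap BU.tks ++ (R.m1 q.2 ::
        (((R.fuA z x q).gs.flatMap fun g => g.1.flatMap Itm.tks ++ [g.2]) ++
          (R.fuA z x q).tl.flatMap Itm.tks))) := rfl
    have h7 : (((R.fuA z x q).gs.flatMap fun g => g.1.flatMap Itm.tks ++ [g.2]) ++
          (R.fuA z x q).tl.flatMap Itm.tks) =
        ((((R.us z).flatMap It.fl).flatMap R.itk).map R.tk ++
      ((R.orr z).elim [] fun t => [t])) := by
      rw [hus, List.flatMap_append, List.flatMap_append, List.map_append, ← ug_tks hgs R.gs_fr,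
        ← ui_tks htl R.tl_fr]
      by_cases hd : R.dbl z
      · have e1 : (R.fuA z x q).gs = (R.gs z).map R.ug ++ [((R.tl z).map R.ui, R.or z)] := by
          unfold fuA
          simp only [if_pos hd]
        have e2 : (R.fuA z x q).tl = [] := by
          unfold fuA
          simp only [if_pos hd]
        have e3 : R.orr z = some (R.or z) := by
          unfold orr
          rw [if_pos hd]
        rw [e1, e2, e3, List.flatMap_append]
        simp
      · have e1 : (R.fuA z x q).gs = (R.gs z).map R.ug := by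
          unfold fuA
          simp only [if_neg hd, List.append_nil]
        have e2 : (R.fuA z x q).tl = (R.tl z).map R.ui := by
          unfold fuA
          simp only [if_neg hd]
        have e3 : R.orr z = none := by
          unfold orr
          rw [if_neg hd]
        rw [e1, e2, e3]
        simp
    rw [h6, h7, h4, hx, hq]
    simp only [Option.elim_some, List.flatMap_append, List.map_append, List.flatMap_cons,
      List.flatMap_nil, List.append_nil, h5]
    simp
    rfl
  · rw [h, hrtk]
    have h6 : (Circ.pl (R.ol z) (R.orr z) (R.plU z)).tks = (R.plU z).flatMap BU.tks := rfl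
    rw [h6]
    unfold plU
    rw [List.flatMap_append, List.flatMap_append, fro_tks, ut_tks (usg z)]
    have h7 : (((R.orr z).elim [] fun t => [BU.fr t]) : List (BU R.T)).flatMap BU.tks =
        ((R.orr z).elim [] fun t => [t]) := by
      cases R.orr z <;> rfl
    rw [h7]
    rfl
  · rw [h, hrtk]
    have h6 : (Circ.gp (R.ol z) (R.gpU z g) (R.m1 g.2) ((R.tl z).map R.ui) (R.or z)).tks =
        (R.gpU z g).flatMap BU.tks ++ (R.m1 g.2 :: (((R.tl z).map R.ui).flatMap Itm.tks ++
          [R.or z])) := rfl
    have hd : R.dbl z := h0.2.1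
    have e3 : R.orr z = some (R.or z) := by
      unfold orr
      rw [if_pos hd]
    have hg : g ∈ R.gs z := by rw [h1]; simp
    have h7 : ∀ u ∈ (R.gs z).dropLast.flatMap (fun g => g.1 ++ [It.fr g.2]) ++ g.1,
        u ∈ R.us z := by
      intro u hu
      rcases List.mem_append.1 hu with hu | hu
      · obtain ⟨g', hg', hu⟩ := List.mem_flatMap.1 hu
        have hg' := List.dropLast_subset _ hg'
        rcases List.mem_append.1 hu with hu | hu
        · exact (gs_good hg').1 u hu
        · rw [List.mem_singleton] at hu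
          rw [hu]
          exact (gs_good hg').2
      · exact (gs_good hg).1 u hu
    have h8 : (R.gpU z g).flatMap BU.tks = (R.fro z).flatMap BU.tks ++
        ((((R.gs z).dropLast.flatMap (fun g => g.1 ++ [It.fr g.2]) ++ g.1).flatMap
          It.fl).flatMap R.itk).map R.tk := by
      unfold gpU
      rw [List.flatMap_append, ut_tks fun u hu => usg z u (h7 u hu)]
    have h9 : (R.itk g.2).map R.tk = [R.m1 g.2] := itk_odd (hgs g hg).2.1
    rw [h6, h8, e3, fro_tks, ui_tks htl R.tl_fr, hus, h2, h1]
    simp only [List.flatMap_append, List.map_append, List.flatMap_cons, List.flatMap_nil,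
      List.append_nil, It.fl, h9, Option.elim_some]
    simp

lemma mem_itk {i : α ⊕ C} {t : Tok C α} : t ∈ R.itk i ↔
    (∃ p, i = Sum.inl p ∧ t = Tok.pt p) ∨
      ∃ c k, i = Sum.inr c ∧ t = Tok.up c k ∧ (k = false → R.dbl c) := by
  cases i with
  | inl p =>
    have : R.itk (Sum.inl p) = [Tok.pt p] := rfl
    rw [this]
    simp
  | inr c =>
    rw [itk_inr]
    split_ifs with h
    · simp only [List.mem_cons, List.not_mem_nil, or_false]
      constructor
      · rintro (rfl | rfl)
        · exact Or.inr ⟨c, true, rfl, rfl, fun h => by simp at h⟩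
        · exact Or.inr ⟨c, false, rfl, rfl, fun _ => h⟩
      · rintro (⟨p, h1, -⟩ | ⟨c', k, h1, rfl, h2⟩)
        · simp at h1
        · rw [← Sum.inr_injective h1]
          cases k
          · exact Or.inr rfl
          · exact Or.inl rfl
    · simp only [List.mem_cons, List.not_mem_nil, or_false]
      constructor
      · rintro rfl
        exact Or.inr ⟨c, true, rfl, rfl, fun h => by simp at h⟩
      · rintro (⟨p, h1, -⟩ | ⟨c', k, h1, rfl, h2⟩)
        · simp at h1
        · rw [← Sum.inr_injective h1] at h2 ⊢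
          cases k
          · exact absurd (h2 rfl) h
          · rfl

lemma mem_rdz {z : C} {i : α ⊕ C} : i ∈ R.rd z ↔
    (∀ q, i = Sum.inl q → q ∈ R.L) ∧ Sum.elim R.pt R.par i = z ∧ i ≠ Sum.inr R.r ∧
      ∀ c, R.ex = some (Sum.inr c) → i ≠ Sum.inr c := R.mem_rd z i

/-- a child which is an item -/
lemma mem_rdc {z c : C} (h : (Sum.inr c : α ⊕ C) ∈ R.rd z) :
    R.par c = z ∧ c ≠ R.r ∧ R.ex ≠ some (Sum.inr c) := by
  obtain ⟨-, h2, h3, h4⟩ := mem_rdz.1 h
  exact ⟨h2, fun h => h3 (by rw [h]), fun h => h4 c h rfl⟩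

/-- the first token of an item exists -/
lemma val_t1 {z : C} {i : α ⊕ C} (hi : i ∈ R.rd z) : R.Val (t1 i) := by
  cases i with
  | inl p => exact (mem_rdz.1 hi).1 p rfl
  | inr c => exact ⟨(mem_rdc hi).2, fun h => by simp at h⟩

/-- the tokens of a circle -/
lemma mem_rtk {z : C} {t : Tok C α} : t ∈ R.rtk z ↔ R.Val t ∧ R.ndr t = z := by
  have hown : (t ∈ (open Classical in if R.dbl z then [Tok.ow z false] else [] :
      List (Tok C α))) ↔ t = Tok.ow z false ∧ R.dbl z := by
    split_ifs with h
    · simp [h]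
    · simp [h]
  have h1 : t ∈ R.rtk z ↔ t = Tok.ow z true ∨ (∃ i ∈ R.rd z, t ∈ R.itk i) ∨
      (t = Tok.ow z false ∧ R.dbl z) := by
    unfold rtk
    rw [List.mem_cons, List.mem_append, List.mem_flatMap, hown]
  rw [h1]
  cases t with
  | pt p =>
    constructor
    · rintro (h | ⟨i, hi, h⟩ | ⟨h, -⟩)
      · simp at h
      · rcases mem_itk.1 h with ⟨p', rfl, h2⟩ | ⟨c, k, -, h2, -⟩
        · have h3 := mem_rdz.1 hi
          have h4 : p = p' := by simpa using h2
          rw [h4]
          exact ⟨h3.1 _ rfl, h3.2.1⟩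
        · simp at h2
      · simp at h
    · rintro ⟨h2, h3⟩
      refine Or.inr (Or.inl ⟨Sum.inl p, mem_rdz.2 ⟨?_, h3, by simp, by simp⟩, mem_itk.2
        (Or.inl ⟨p, rfl, rfl⟩)⟩)
      intro q hq
      rw [← Sum.inl_injective hq]
      exact h2
  | ow c k =>
    constructor
    · rintro (h | ⟨i, hi, h⟩ | ⟨h, h'⟩)
      · have h2 : c = z ∧ k = true := by simpa using h
        rw [h2.1, h2.2]
        exact ⟨fun h => by simp at h, rfl⟩
      · rcases mem_itk.1 h with ⟨p', -, h2⟩ | ⟨c, k, -, h2, -⟩ <;> simp at h2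
      · have h2 : c = z ∧ k = false := by simpa using h
        rw [h2.1, h2.2]
        exact ⟨fun _ => h', rfl⟩
    · rintro ⟨h2, h3⟩
      have h3 : c = z := h3
      subst h3
      cases k
      · exact Or.inr (Or.inr ⟨rfl, h2 rfl⟩)
      · exact Or.inl rfl
  | up c k =>
    constructor
    · rintro (h | ⟨i, hi, h⟩ | ⟨h, -⟩)
      · simp at h
      · rcases mem_itk.1 h with ⟨p', -, h2⟩ | ⟨c', k', rfl, h2, h3⟩
        · simp at h2
        · have h4 : c = c' ∧ k = k' := by simpa using h2
          rw [h4.1, h4.2]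
          have h5 := mem_rdz.1 hi
          exact ⟨⟨(mem_rdc hi).2, h3⟩, h5.2.1⟩
      · simp at h
    · rintro ⟨h2, h3⟩
      refine Or.inr (Or.inl ⟨Sum.inr c, mem_rdz.2 ⟨by simp, h3, fun h => h2.1.1
        (Sum.inr_injective h), fun c' h h' => h2.1.2 (by rw [Sum.inr_injective h', h])⟩,
          mem_itk.2 (Or.inr ⟨c, k, rfl, rfl, h2.2⟩)⟩)

lemma nodup_rtk (z : C) : (R.rtk z).Nodup := by
  unfold rtk
  have h0 : ∀ t ∈ (R.rd z).flatMap R.itk, ∀ c k, t ≠ Tok.ow c k := by
    intro t ht c k h
    obtain ⟨i, -, hi⟩ := List.mem_flatMap.1 ht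
    rw [h] at hi
    rcases mem_itk.1 hi with ⟨p', -, h2⟩ | ⟨c, k, -, h2, -⟩ <;> simp at h2
  have h1 : ((R.rd z).flatMap R.itk).Nodup := by
    rw [List.nodup_flatMap]
    constructor
    · intro i _
      cases i with
      | inl p => exact List.nodup_singleton _
      | inr c =>
        rw [itk_inr]
        split_ifs <;> simp
    · refine (R.nodup z).imp ?_
      intro i j hij
      rw [Function.onFun, List.disjoint_left]
      intro t hi hj
      rcases mem_itk.1 hi with ⟨p, h1, h2⟩ | ⟨c, k, h1, h2, -⟩ <;>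
        rcases mem_itk.1 hj with ⟨p', h3, h4⟩ | ⟨c', k', h3, h4, -⟩
      · rw [h2] at h4
        exact hij (by rw [h1, h3, (by simpa using h4 : p = p')])
      · rw [h2] at h4; simp at h4
      · rw [h2] at h4; simp at h4
      · rw [h2] at h4
        have h5 : c = c' ∧ k = k' := by simpa using h4
        exact hij (by rw [h1, h3, h5.1])
  rw [List.nodup_cons, List.mem_append, not_or, List.nodup_append]
  refine ⟨⟨fun h => h0 _ h _ _ rfl, ?_⟩, h1, ?_, ?_⟩
  · split_ifs <;> simp
  · split_ifs <;> simp
  · intro a ha b hb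
    split_ifs at hb
    · rw [List.mem_singleton] at hb
      rw [hb]
      exact h0 a ha _ _
    · simp at hb

lemma cir_nodup (z : C) : (R.cir z).tks.Nodup := by
  rw [cir_tks]
  refine List.Nodup.map_on ?_ (nodup_rtk z)
  intro a ha b hb h
  exact R.tk_inj (mem_rtk.1 ha).1 (mem_rtk.1 hb).1 h

lemma mem_cir (z : C) (t : R.T) : t ∈ (R.cir z).tks ↔ R.ndr t.1 = z := by
  rw [cir_tks, List.mem_map]
  constructor
  · rintro ⟨a, ha, rfl⟩
    have h := mem_rtk.1 ha
    rw [R.tk_val h.1]
    exact h.2
  · intro h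
    exact ⟨t.1, mem_rtk.2 ⟨t.2, h⟩, R.tk_self t⟩

/-! ### Odd units -/

lemma ut_od : ∀ us : List (It (α ⊕ C)), (us.map R.ut).filter BU.od =
    (us.flatMap It.fri).map fun i => BU.fr (R.m1 i) := by
  intro us
  induction us with
  | nil => rfl
  | cons u us ih =>
    rw [List.map_cons, List.filter_cons, ih, List.flatMap_cons, List.map_append]
    cases u with
    | ev i => rfl
    | fr i => rfl
    | br f m x => rfl

lemma ue_od (m : List (α ⊕ C)) : (m.map R.ue).filter BU.od = [] := by
  rw [List.filter_eq_nil_iff]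
  intro u hu
  obtain ⟨i, -, rfl⟩ := List.mem_map.1 hu
  simp [ue, BU.od_iff, BU.kind]

/-- the ports -/
noncomputable def fox (R : RD C α) (z : C) : List (BU R.T) :=
  ((R.xN z).elim [] fun x => [BU.fx (R.m1 (Sum.inl x))]) ++
    ((R.p z).elim [] fun q => [BU.fx (R.m1 q.2)])

lemma fro_od (z : C) : (R.fro z).filter BU.od = BU.fx (R.ol z) :: R.fox z := by
  unfold fro fox
  rw [List.filter_cons_of_pos (by rfl), List.filter_append]
  congr 1
  congr 1
  · cases R.xN z <;> rfl
  · rcases R.p z with _ | q
    · rfl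
    · simp only [Option.elim_some]
      rw [List.filter_append, ue_od]
      rfl

lemma fri_groups {us : List (It (α ⊕ C))} (h : ∀ u ∈ us, ¬ u.isFr) : us.flatMap It.fri = [] := by
  rw [List.flatMap_eq_nil_iff]
  intro u hu
  cases u with
  | ev i => rfl
  | fr i => exact absurd trivial (h _ hu)
  | br f m x => rfl

lemma fri_gs : ∀ {gs : List (List (It (α ⊕ C)) × (α ⊕ C))},
    (∀ g ∈ gs, ∀ u ∈ g.1, ¬ u.isFr) →
    (gs.flatMap fun g => g.1 ++ [It.fr g.2]).flatMap It.fri = gs.map Prod.snd := by
  intro gs
  induction gs with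
  | nil => intro _; rfl
  | cons g gs ih =>
    intro h
    rw [List.flatMap_cons, List.flatMap_append, List.flatMap_append, List.map_cons,
      fri_groups (h g List.mem_cons_self), ih (fun g' hg' => h g' (List.mem_cons_of_mem _ hg'))]
    rfl

lemma fri_us (z : C) : (R.us z).flatMap It.fri = (R.gs z).map Prod.snd := by
  rw [R.us_eq z, List.flatMap_append, fri_gs R.gs_fr, fri_groups R.tl_fr, List.append_nil]

lemma ui_brp : ∀ us : List (It (α ⊕ C)), (((us.map R.ui).flatMap Itm.brp)).filter BU.od = [] :=
  fun _ => Circ.od_brs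

lemma fox_len (z : C) : (R.fox z).length = (R.xN z).elim 0 (fun _ => 1) +
    (R.p z).elim 0 (fun _ => 1) := by
  unfold fox
  rw [List.length_append]
  congr 1
  · cases R.xN z <;> rfl
  · cases R.p z <;> rfl

lemma orr_some {z : C} (h : R.dbl z) : R.orr z = some (R.or z) := by
  unfold orr
  rw [if_pos h]

lemma orr_none {z : C} (h : ¬ R.dbl z) : R.orr z = none := by
  unfold orr
  rw [if_neg h]

/-- at most one port: the odd units -/
lemma pl_od (z : C) : (Circ.pl (R.ol z) (R.orr z) (R.plU z)).pus.filter BU.od =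
    BU.fx (R.ol z) :: (R.fox z ++ (((R.us z).flatMap It.fri).map (fun i => BU.fr (R.m1 i)) ++
      (R.orr z).elim [] fun t => [BU.fr t])) := by
  have e0 : (Circ.pl (R.ol z) (R.orr z) (R.plU z)).pus = R.plU z := rfl
  rw [e0]
  unfold plU
  rw [List.filter_append, List.filter_append, fro_od, ut_od]
  have h7 : (((R.orr z).elim [] fun t => [BU.fr t]) : List (BU R.T)).filter BU.od =
      ((R.orr z).elim [] fun t => [BU.fr t]) := by
    cases R.orr z <;> rfl
  rw [h7]
  rfl

/-- group link: the odd units -/
lemma gp_od {z : C} {gs : List (List (It (α ⊕ C)) × (α ⊕ C))}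
    {g : List (It (α ⊕ C)) × (α ⊕ C)} (h1 : R.gs z = gs ++ [g]) (h2 : (R.gs z).dropLast = gs) :
    (Circ.gp (R.ol z) (R.gpU z g) (R.m1 g.2) ((R.tl z).map R.ui) (R.or z)).pus.filter BU.od =
    BU.fx (R.ol z) :: (R.fox z ++ ((gs.map Prod.snd).map (fun i => BU.fr (R.m1 i)) ++
      [BU.gv (R.m1 g.2) (((R.tl z).map R.ui).flatMap Itm.pairs), BU.fr (R.or z)])) := by
  have e0 : (Circ.gp (R.ol z) (R.gpU z g) (R.m1 g.2) ((R.tl z).map R.ui) (R.or z)).pus =
    R.gpU z g ++ (((R.tl z).map R.ui).flatMap Itm.brp ++
      [BU.gv (R.m1 g.2) (((R.tl z).map R.ui).flatMap Itm.pairs), BU.fr (R.or z)]) := rfl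
  have hgs := R.gs_fr (z := z)
  rw [h1] at hgs
  rw [e0]
  unfold gpU
  rw [List.filter_append, List.filter_append, List.filter_append, fro_od, ut_od, ui_brp, h2,
    List.flatMap_append, fri_gs (fun g' hg' => hgs g' (List.mem_append_left _ hg')),
    fri_groups (hgs g (by simp))]
  simp [List.filter, BU.od, isOdd, BU.kind]

/-- two ports: the odd units -/
lemma fu_od (z : C) (x : α) (q : List (α ⊕ C) × (α ⊕ C)) :
    (Circ.fu (R.fuA z x q)).pus.filter BU.od = BU.fx (R.ol z) :: BU.fx (R.m1 (Sum.inl x)) ::
      BU.fx (R.m1 q.2) :: (R.fuA z x q).gs.map Circ.gtk := by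
  have hw : ∀ u ∈ (R.fuA z x q).e1, u.plain ∧ u.kind ≠ Kind.odd := by
    intro u hu
    obtain ⟨i, -, rfl⟩ := List.mem_map.1 (show u ∈ q.1.map R.ue from hu)
    exact ⟨trivial, by simp [ue, BU.kind]⟩
  have e0 : (Circ.fu (R.fuA z x q)).pus = BU.fx (R.ol z) :: ((BU.fx (R.m1 (Sum.inl x)) ::
      (q.1.map R.ue ++ [BU.fx (R.m1 q.2)])) ++
      ((R.fuA z x q).gs.flatMap gpre ++ ((R.fuA z x q).tl.flatMap Itm.brp ++
        (((R.fuA z x q).tl.flatMap Itm.rep).map fun p => BU.ev p.1 p.2)))) := rfl
  have e1 : (((R.fuA z x q).tl.flatMap Itm.rep).map fun p => BU.ev p.1 p.2).filter BU.od = [] := by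
    rw [List.filter_eq_nil_iff]
    intro u hu
    obtain ⟨i, -, rfl⟩ := List.mem_map.1 hu
    simp [BU.od_iff, BU.kind]
  rw [e0, List.filter_cons_of_pos (by rfl), List.filter_append,
    List.filter_cons_of_pos (by rfl), List.filter_append, ue_od, List.filter_append,
    List.filter_append, Circ.od_gpre, Circ.od_brs, e1, List.append_nil, List.append_nil]
  rfl

lemma fuA_gs_len (z : C) (x : α) (q : List (α ⊕ C) × (α ⊕ C)) : (R.fuA z x q).gs.length =
    ((R.us z).flatMap It.fri).length + (R.orr z).elim 0 fun _ => 1 := by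
  rw [fri_us, List.length_map]
  by_cases hd : R.dbl z
  · have e1 : (R.fuA z x q).gs = (R.gs z).map R.ug ++ [((R.tl z).map R.ui, R.or z)] := by
      unfold fuA
      simp only [if_pos hd]
    rw [e1, orr_some hd]
    simp
  · have e1 : (R.fuA z x q).gs = (R.gs z).map R.ug := by
      unfold fuA
      simp only [if_neg hd, List.append_nil]
    rw [e1, orr_none hd]
    simp

/-- the number of odd units -/
lemma cir_len (z : C) : ((R.cir z).pus.filter BU.od).length = 1 + ((R.xN z).elim 0 (fun _ => 1) +
    (R.p z).elim 0 (fun _ => 1) + ((R.us z).flatMap It.fri).length) +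
      (R.orr z).elim 0 fun _ => 1 := by
  have hl := fox_len (R := R) z
  rcases R.cir_cases z with ⟨x, q, hx, hq, h⟩ | ⟨h0, h⟩ | ⟨gs, g, h0, h1, h2, h⟩
  · rw [h, fu_od]
    simp only [List.length_cons, List.length_map, fuA_gs_len, hx, hq, Option.elim_some]
    omega
  · rw [h, pl_od]
    have e : (((R.orr z).elim [] fun t => [BU.fr t]) : List (BU R.T)).length =
        (R.orr z).elim 0 fun _ => 1 := by
      cases R.orr z <;> rfl
    simp only [List.length_cons, List.length_append, List.length_map, hl, e]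
    omega
  · rw [h, gp_od h1 h2]
    have e : ((R.us z).flatMap It.fri).length = gs.length + 1 := by
      rw [fri_us, h1]
      simp
    rw [orr_some h0.2.1]
    simp only [List.length_cons, List.length_append, List.length_map, hl, e, List.length_nil,
      Option.elim_some]
    omega

lemma cir_even (z : C) : Even ((R.cir z).pus.filter BU.od).length := by
  rw [cir_len]
  by_cases hd : R.dbl z
  · have h := (R.par_rd z).2 hd
    rw [orr_some hd]
    simp only [Option.elim_some]
    rw [Nat.even_iff] at h ⊢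
    omega
  · have h := fun h' => hd ((R.par_rd z).1 h')
    rw [orr_none hd]
    simp only [Option.elim_none]
    rw [Nat.even_iff] at h ⊢
    rw [Nat.add_zero]
    have h3 : ((R.xN z).elim 0 (fun _ => 1) + (R.p z).elim 0 (fun _ => 1) +
      ((R.us z).flatMap It.fri).length) % 2 ≠ 0 := h
    omega

lemma ut_plain (u : It (α ⊕ C)) : (R.ut u).plain := by
  cases u <;> exact trivial

lemma fro_plain (z : C) : ∀ u ∈ R.fro z, u.plain := by
  intro u hu
  unfold fro at hu
  rcases List.mem_cons.1 hu with rfl | hu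
  · trivial
  · rcases List.mem_append.1 hu with hu | hu
    · cases hx : R.xN z with
      | none => rw [hx] at hu; simp at hu
      | some x =>
        rw [hx] at hu
        simp only [Option.elim_some, List.mem_singleton] at hu
        rw [hu]; trivial
    · cases hx : R.p z with
      | none => rw [hx] at hu; simp at hu
      | some q =>
        rw [hx] at hu
        simp only [Option.elim_some, List.mem_append, List.mem_map, List.mem_singleton] at hu
        rcases hu with ⟨i, -, rfl⟩ | rfl
        · trivial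
        · trivial

/-- **structure of the circles** -/
theorem cir_ws (z : C) : (R.cir z).WS := by
  rcases R.cir_cases z with ⟨x, q, hx, hq, h⟩ | ⟨h0, h⟩ | ⟨gs, g, h0, h1, h2, h⟩
  · refine { pl := ?_, gp := ?_, fu := ?_, even := cir_even z, opl := ?_, ogp := ?_, ofu := ?_ }
    · intro l r us h'; rw [h] at h'; simp at h'
    · intro l us t g r h'; rw [h] at h'; simp at h'
    · intro A h'
      rw [h] at h'
      have h' : R.fuA z x q = A := by simpa using h'
      rw [← h']
      intro u hu
      obtain ⟨i, -, rfl⟩ := List.mem_map.1 (show u ∈ q.1.map R.ue from hu)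
      exact ⟨trivial, by simp [ue, BU.kind]⟩
    · intro l r us h'; rw [h] at h'; simp at h'
    · intro l us t g r h'; rw [h] at h'; simp at h'
    · intro A h' r' hr'
      rw [h] at h'
      have h' : R.fuA z x q = A := by simpa using h'
      rw [← h'] at hr' ⊢
      have hr' : R.orr z = some r' := hr'
      by_cases hd : R.dbl z
      · have e1 : (R.fuA z x q).gs = (R.gs z).map R.ug ++ [((R.tl z).map R.ui, R.or z)] := by
          unfold fuA
          simp only [if_pos hd]
        have e2 : (R.fuA z x q).tl = [] := by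
          unfold fuA
          simp only [if_pos hd]
        refine ⟨e2, (R.gs z).map R.ug, (R.tl z).map R.ui, ?_⟩
        rw [orr_some hd] at hr'
        rw [e1, ← Option.some_inj.1 hr']
      · rw [orr_none hd] at hr'
        simp at hr'
  · refine { pl := ?_, gp := ?_, fu := ?_, even := cir_even z, opl := ?_, ogp := ?_, ofu := ?_ }
    · intro l r us h'
      rw [h] at h'
      have h' : R.plU z = us := by
        simp only [Circ.pl.injEq] at h'; exact h'.2.2
      rw [← h']
      intro u hu
      unfold plU at hu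
      rcases List.mem_append.1 hu with hu | hu
      · exact fro_plain z u hu
      · rcases List.mem_append.1 hu with hu | hu
        · obtain ⟨v, -, rfl⟩ := List.mem_map.1 hu
          exact ut_plain v
        · cases hr : R.orr z with
          | none => rw [hr] at hu; simp at hu
          | some r' =>
            rw [hr] at hu
            simp only [Option.elim_some, List.mem_singleton] at hu
            rw [hu]; trivial
    · intro l us t g r h'; rw [h] at h'; simp at h'
    · intro A h'; rw [h] at h'; simp at h'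
    · intro l r us h'
      rw [h] at h'
      simp only [Circ.pl.injEq] at h'
      obtain ⟨h1, h2, h3⟩ := h'
      refine ⟨(((R.xN z).elim [] fun x => [BU.fx (R.m1 (Sum.inl x))]) ++
        ((R.p z).elim [] fun q => q.1.map R.ue ++ [BU.fx (R.m1 q.2)])) ++
        ((R.us z).map R.ut ++ (R.orr z).elim [] fun t => [BU.fr t]), ?_, ?_⟩
      · rw [← h3, ← h1]; rfl
      · intro r' hr'
        rw [h2, hr']
        refine ⟨(((R.xN z).elim [] fun x => [BU.fx (R.m1 (Sum.inl x))]) ++
          ((R.p z).elim [] fun q => q.1.map R.ue ++ [BU.fx (R.m1 q.2)])) ++ (R.us z).map R.ut, ?_⟩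
        simp
    · intro l us t g r h'; rw [h] at h'; simp at h'
    · intro A h'; rw [h] at h'; simp at h'
  · refine { pl := ?_, gp := ?_, fu := ?_, even := cir_even z, opl := ?_, ogp := ?_, ofu := ?_ }
    · intro l r us h'; rw [h] at h'; simp at h'
    · intro l us t g' r h'
      rw [h] at h'
      have h' : R.gpU z g = us := by
        simp only [Circ.gp.injEq] at h'; exact h'.2.1
      rw [← h']
      intro u hu
      unfold gpU at hu
      rcases List.mem_append.1 hu with hu | hu
      · exact fro_plain z u hu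
      · obtain ⟨v, -, rfl⟩ := List.mem_map.1 hu
        exact ut_plain v
    · intro A h'; rw [h] at h'; simp at h'
    · intro l r us h'; rw [h] at h'; simp at h'
    · intro l us t g' r h'
      rw [h] at h'
      simp only [Circ.gp.injEq] at h'
      obtain ⟨h1, h2, -⟩ := h'
      refine ⟨(((R.xN z).elim [] fun x => [BU.fx (R.m1 (Sum.inl x))]) ++
        ((R.p z).elim [] fun q => q.1.map R.ue ++ [BU.fx (R.m1 q.2)])) ++
        ((((R.gs z).dropLast.flatMap fun g => g.1 ++ [It.fr g.2]) ++ g.1).map R.ut), ?_⟩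
      rw [← h2, ← h1]; rfl
    · intro A h'; rw [h] at h'; simp at h'

/-! ### Even children -/

lemma xp_odd {z : C} {q : List (α ⊕ C) × (α ⊕ C)} (hq : R.p z = some q) : Od' R.dbl q.2 := by
  exact R.po_od _ (R.p_spec z q hq).2

/-- the pair of tokens of an even child of the circle -/
def IsEv (R : RD C α) (z : C) (t : R.T × R.T) : Prop :=
  ∃ c, c ≠ R.r ∧ R.par c = z ∧ R.dbl c ∧ t = R.pr (Sum.inr c)

lemma isEv_of {z : C} {i : α ⊕ C} (hi : i ∈ R.rd z) (h : ¬ Od' R.dbl i) :
    R.IsEv z (R.pr i) := by
  obtain ⟨c, rfl, hc⟩ := even_item h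
  have h1 := mem_rdc hi
  exact ⟨c, h1.2.1, h1.1, hc, rfl⟩

lemma mem_us {z : C} {u : It (α ⊕ C)} (hu : u ∈ R.us z) {i : α ⊕ C} (hi : i ∈ u.fl) :
    i ∈ R.rd z := by
  unfold rd lst
  exact List.mem_append_right _ (List.mem_flatMap.2 ⟨u, hu, hi⟩)

lemma mem_p {z : C} {q : List (α ⊕ C) × (α ⊕ C)} (hq : R.p z = some q) {i : α ⊕ C}
    (hi : i ∈ q.1 ∨ i = q.2) : i ∈ R.rd z := by
  unfold rd lst
  refine List.mem_append_left _ (List.mem_append_right _ ?_)
  rw [hq]
  simpa using hi

lemma ut_evs {z : C} {u : It (α ⊕ C)} (hu : u ∈ R.us z) {t : R.T × R.T} (ht : t ∈ (R.ut u).evs) :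
    R.IsEv z t := by
  have hg := usg z u hu
  cases u with
  | ev i =>
    have : t = R.pr i := by simpa [ut, ue, BU.evs, pr] using ht
    rw [this]
    exact isEv_of (mem_us hu (by simp [It.fl])) hg
  | fr i => simp [ut, BU.evs] at ht
  | br f m x =>
    have ht : t ∈ m.map R.pr := ht
    obtain ⟨i, hi, rfl⟩ := List.mem_map.1 ht
    exact isEv_of (mem_us hu (by simp [It.fl, hi])) (hg.2.2.1 i hi)

lemma ui_evs {z : C} {u : It (α ⊕ C)} (hu : u ∈ R.us z) (hf : ¬ u.isFr) {t : R.T × R.T}
    (ht : t ∈ (R.ui u).evs) : R.IsEv z t := by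
  refine ut_evs hu ?_
  cases u with
  | ev i =>
    rw [ui_ev] at ht
    split_ifs at ht <;> exact ht
  | fr i => exact absurd trivial hf
  | br f m x => exact ht

lemma fro_evs {z : C} {t : R.T × R.T} (ht : t ∈ (R.fro z).flatMap BU.evs) : R.IsEv z t := by
  obtain ⟨u, hu, ht⟩ := List.mem_flatMap.1 ht
  unfold fro at hu
  rcases List.mem_cons.1 hu with rfl | hu
  · simp [BU.evs] at ht
  · rcases List.mem_append.1 hu with hu | hu
    · cases hx : R.xN z with
      | none => rw [hx] at hu; simp at hu
      | some x =>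
        rw [hx] at hu
        simp only [Option.elim_some, List.mem_singleton] at hu
        rw [hu] at ht
        simp [BU.evs] at ht
    · cases hx : R.p z with
      | none => rw [hx] at hu; simp at hu
      | some q =>
        rw [hx] at hu
        simp only [Option.elim_some, List.mem_append, List.mem_map, List.mem_singleton] at hu
        rcases hu with ⟨i, hi, rfl⟩ | rfl
        · have : t = R.pr i := by simpa [ue, BU.evs, pr] using ht
          rw [this]
          exact isEv_of (mem_p hx (Or.inl hi)) ((R.p_spec z q hx).1 i hi)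
        · simp [BU.evs] at ht

lemma fuA_items {z : C} {x : α} {q : List (α ⊕ C) × (α ⊕ C)} {g : List (Itm R.T) × R.T}
    (hg : g ∈ (R.fuA z x q).gs) {i : Itm R.T} (hi : i ∈ g.1) :
    ∃ u ∈ R.us z, ¬ u.isFr ∧ i = R.ui u := by
  have hg : g ∈ (R.gs z).map R.ug ∨ R.dbl z ∧ g = ((R.tl z).map R.ui, R.or z) := by
    have : g ∈ (R.gs z).map R.ug ++
      (open Classical in if R.dbl z then [((R.tl z).map R.ui, R.or z)] else []) := hg
    rcases List.mem_append.1 this with h | h
    · exact Or.inl h
    · split_ifs at h with hd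
      · exact Or.inr ⟨hd, List.mem_singleton.1 h⟩
      · simp at h
  rcases hg with hg | ⟨-, rfl⟩
  · obtain ⟨g', hg', rfl⟩ := List.mem_map.1 hg
    obtain ⟨u, hu, rfl⟩ := List.mem_map.1 (show i ∈ g'.1.map R.ui from hi)
    exact ⟨u, (gs_good hg').1 u hu, R.gs_fr g' hg' u hu, rfl⟩
  · obtain ⟨u, hu, rfl⟩ := List.mem_map.1 (show i ∈ (R.tl z).map R.ui from hi)
    exact ⟨u, tl_good hu, R.tl_fr u hu, rfl⟩

lemma fuA_tl {z : C} {x : α} {q : List (α ⊕ C) × (α ⊕ C)} {i : Itm R.T}
    (hi : i ∈ (R.fuA z x q).tl) : ∃ u ∈ R.us z, ¬ u.isFr ∧ i = R.ui u := by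
  have hi : i ∈ (open Classical in if R.dbl z then [] else (R.tl z).map R.ui) := hi
  split_ifs at hi with hd
  · simp at hi
  · obtain ⟨u, hu, rfl⟩ := List.mem_map.1 hi
    exact ⟨u, tl_good hu, R.tl_fr u hu, rfl⟩

/-- **the even children of a circle** -/
theorem cir_evs {z : C} {t : R.T × R.T} (ht : t ∈ (R.cir z).evs) : R.IsEv z t := by
  rcases R.cir_cases z with ⟨x, q, hx, hq, h⟩ | ⟨h0, h⟩ | ⟨gs, g, h0, h1, h2, h⟩
  · rw [h] at ht
    have ht : t ∈ (q.1.map R.ue).flatMap BU.evs ++
      (((R.fuA z x q).gs.flatMap fun g => g.1.flatMap Itm.evs) ++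
        (R.fuA z x q).tl.flatMap Itm.evs) := ht
    rcases List.mem_append.1 ht with ht | ht
    · obtain ⟨u, hu, ht⟩ := List.mem_flatMap.1 ht
      obtain ⟨i, hi, rfl⟩ := List.mem_map.1 hu
      have : t = R.pr i := by simpa [ue, BU.evs, pr] using ht
      rw [this]
      exact isEv_of (mem_p hq (Or.inl hi)) ((R.p_spec z q hq).1 i hi)
    · rcases List.mem_append.1 ht with ht | ht
      · obtain ⟨g, hg, ht⟩ := List.mem_flatMap.1 ht
        obtain ⟨i, hi, ht⟩ := List.mem_flatMap.1 ht
        obtain ⟨u, hu, hf, rfl⟩ := fuA_items hg hi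
        exact ui_evs hu hf ht
      · obtain ⟨i, hi, ht⟩ := List.mem_flatMap.1 ht
        obtain ⟨u, hu, hf, rfl⟩ := fuA_tl hi
        exact ui_evs hu hf ht
  · rw [h] at ht
    have ht : t ∈ (R.plU z).flatMap BU.evs := ht
    unfold plU at ht
    rw [List.flatMap_append, List.flatMap_append] at ht
    rcases List.mem_append.1 ht with ht | ht
    · exact fro_evs ht
    · rcases List.mem_append.1 ht with ht | ht
      · obtain ⟨u, hu, ht⟩ := List.mem_flatMap.1 ht
        obtain ⟨v, hv, rfl⟩ := List.mem_map.1 hu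
        exact ut_evs hv ht
      · exfalso
        cases hr : R.orr z with
        | none => rw [hr] at ht; simp at ht
        | some r' => rw [hr] at ht; simp [BU.evs] at ht
  · rw [h] at ht
    have ht : t ∈ (R.gpU z g).flatMap BU.evs ++ ((R.tl z).map R.ui).flatMap Itm.evs := ht
    rcases List.mem_append.1 ht with ht | ht
    · unfold gpU at ht
      rw [List.flatMap_append] at ht
      rcases List.mem_append.1 ht with ht | ht
      · exact fro_evs ht
      · obtain ⟨u, hu, ht⟩ := List.mem_flatMap.1 ht
        obtain ⟨v, hv, rfl⟩ := List.mem_map.1 hu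
        refine ut_evs ?_ ht
        rw [R.us_eq z]
        refine List.mem_append_left _ ?_
        rw [h1, List.flatMap_append]
        rw [h2] at hv
        rcases List.mem_append.1 hv with hv | hv
        · exact List.mem_append_left _ hv
        · refine List.mem_append_right _ ?_
          simp [hv]
    · obtain ⟨i, hi, ht⟩ := List.mem_flatMap.1 ht
      obtain ⟨u, hu, rfl⟩ := List.mem_map.1 hi
      exact ui_evs (tl_good hu) (R.tl_fr u hu) ht

/-- the real and the late children of a fused circle -/
lemma ui_rl {z : C} {u : It (α ⊕ C)} (hu : u ∈ R.us z) (hf : ¬ u.isFr) {t : R.T × R.T} :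
    (t ∈ (R.ui u).rep → ∃ c, c ≠ R.r ∧ R.par c = z ∧ R.dbl c ∧ R.real c ∧
      t = R.pr (Sum.inr c)) ∧
    (t ∈ (R.ui u).lap → ∃ c, c ≠ R.r ∧ R.par c = z ∧ R.dbl c ∧ ¬ R.real c ∧
      t = R.pr (Sum.inr c)) := by
  have hg := usg z u hu
  cases u with
  | ev i =>
    obtain ⟨c, rfl, hc⟩ := even_item hg
    have h1 := mem_rdc (mem_us hu (i := Sum.inr c) (by simp [It.fl]))
    rw [ui_ev]
    constructor
    · intro ht
      split_ifs at ht with hr
      · exact ⟨c, h1.2.1, h1.1, hc, hr, by simpa [Itm.rep, pr] using ht⟩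
      · simp [Itm.rep] at ht
    · intro ht
      split_ifs at ht with hr
      · simp [Itm.lap] at ht
      · exact ⟨c, h1.2.1, h1.1, hc, hr, by simpa [Itm.lap, pr] using ht⟩
  | fr i => exact absurd trivial hf
  | br f m x =>
    constructor
    · intro ht; simp [ui, Itm.rep] at ht
    · intro ht; simp [ui, Itm.lap] at ht

lemma cir_re {z : C} {A : Fu R.T} (hA : R.cir z = Circ.fu A) {g : List (Itm R.T) × R.T}
    (hg : g ∈ A.gs) {t : R.T × R.T} (ht : t ∈ g.1.flatMap Itm.rep) :
    ∃ c, c ≠ R.r ∧ R.par c = z ∧ R.dbl c ∧ R.real c ∧ t = R.pr (Sum.inr c) := by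
  rcases R.cir_cases z with ⟨x, q, hx, hq, h⟩ | ⟨h0, h⟩ | ⟨gs, g, h0, h1, h2, h⟩
  · rw [h] at hA
    have hA : R.fuA z x q = A := by simpa using hA
    rw [← hA] at hg
    obtain ⟨i, hi, ht⟩ := List.mem_flatMap.1 ht
    obtain ⟨u, hu, hf, rfl⟩ := fuA_items hg hi
    exact (ui_rl hu hf).1 ht
  · rw [h] at hA; simp at hA
  · rw [h] at hA; simp at hA

lemma cir_la {z : C} {t : R.T × R.T} (ht : t ∈ (R.cir z).late) :
    ∃ c, c ≠ R.r ∧ R.par c = z ∧ R.dbl c ∧ ¬ R.real c ∧ t = R.pr (Sum.inr c) := by
  rcases R.cir_cases z with ⟨x, q, hx, hq, h⟩ | ⟨h0, h⟩ | ⟨gs, g, h0, h1, h2, h⟩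
  · rw [h] at ht
    have ht : t ∈ ((R.fuA z x q).gs.flatMap fun g => g.1.flatMap Itm.lap) ++
        (R.fuA z x q).tl.flatMap Itm.lap := ht
    rcases List.mem_append.1 ht with ht | ht
    · obtain ⟨g, hg, ht⟩ := List.mem_flatMap.1 ht
      obtain ⟨i, hi, ht⟩ := List.mem_flatMap.1 ht
      obtain ⟨u, hu, hf, rfl⟩ := fuA_items hg hi
      exact (ui_rl hu hf).2 ht
    · obtain ⟨i, hi, ht⟩ := List.mem_flatMap.1 ht
      obtain ⟨u, hu, hf, rfl⟩ := fuA_tl hi
      exact (ui_rl hu hf).2 ht
  · rw [h] at ht
    simp [Circ.late] at ht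
  · rw [h] at ht
    simp [Circ.late] at ht

lemma cir_l (z : C) : (R.cir z).l = R.ol z := by
  rcases R.cir_cases z with ⟨x, q, hx, hq, h⟩ | ⟨h0, h⟩ | ⟨gs, g, h0, h1, h2, h⟩ <;> rw [h] <;> rfl

lemma cir_r (z : C) : (R.cir z).r = R.orr z := by
  rcases R.cir_cases z with ⟨x, q, hx, hq, h⟩ | ⟨h0, h⟩ | ⟨gs, g, h0, h1, h2, h⟩
  · rw [h]; rfl
  · rw [h]; rfl
  · rw [h, orr_some h0.2.1]; rfl

/-! ### Values -/

section val

variable {V : R.T → B}

/-- the values of the items -/
noncomputable def vl (R : RD C α) (V : R.T → B) : α ⊕ C → ZMod 2 :=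
  Sum.elim (fun p => V (R.tk (Tok.pt p))) fun c => V (R.ol c)

lemma V_or (hM : ∀ z, (R.cir z).M V) {c : C} (h : R.dbl c) : V (R.or c) = V (R.ol c) := by
  have h1 := (cir_ws c).M_own (hM c) (r := R.or c) (by rw [cir_r, orr_some h])
  rw [cir_l] at h1
  exact h1.symm

/-- the value of the first token of an item -/
lemma V_m1 (hl : ∀ t, V (R.lam t) = V t) (hM : ∀ z, (R.cir z).M V) {z : C} {i : α ⊕ C}
    (hi : i ∈ R.rd z) : V (R.m1 i) = R.vl V i := by
  cases i with
  | inl p => rfl
  | inr c =>
    have hv : R.Val (Tok.up c true) := val_t1 hi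
    have h2 := hl (R.tk (Tok.up c true))
    rw [R.lam_tk hv, R.lamr_up] at h2
    have e : V (R.m1 (Sum.inr c)) = V (R.tk (Tok.up c true)) := rfl
    rw [e, ← h2]
    show _ = V (R.ol c)
    split_ifs with hd
    · cases h3 : (true == R.tw c)
      · exact V_or hM hd
      · rfl
    · rfl

end val

/-- the units behind the second port as items -/
lemma fuA_mem {z : C} (x : α) (q : List (α ⊕ C) × (α ⊕ C)) {u : It (α ⊕ C)}
    (hu : u ∈ R.us z) : (¬ u.isFr → R.ui u ∈ ((R.fuA z x q).gs.flatMap fun g => g.1) ++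
      (R.fuA z x q).tl) ∧ ∀ i, u = It.fr i → ∃ g ∈ (R.fuA z x q).gs, g.2 = R.m1 i := by
  have hgs : (R.fuA z x q).gs = (R.gs z).map R.ug ++
      (open Classical in if R.dbl z then [((R.tl z).map R.ui, R.or z)] else []) := rfl
  have htl : (R.fuA z x q).tl = (open Classical in if R.dbl z then [] else (R.tl z).map R.ui) :=
    rfl
  rw [R.us_eq z] at hu
  rcases List.mem_append.1 hu with hu | hu
  · obtain ⟨g, hg, hu⟩ := List.mem_flatMap.1 hu
    have hg' : R.ug g ∈ (R.fuA z x q).gs := by
      rw [hgs]
      exact List.mem_append_left _ (List.mem_map.2 ⟨g, hg, rfl⟩)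
    rcases List.mem_append.1 hu with hu | hu
    · constructor
      · intro _
        refine List.mem_append_left _ (List.mem_flatMap.2 ⟨R.ug g, hg', ?_⟩)
        exact List.mem_map.2 ⟨u, hu, rfl⟩
      · rintro i rfl
        exact absurd trivial (R.gs_fr g hg _ hu)
    · rw [List.mem_singleton] at hu
      subst hu
      constructor
      · intro h
        exact absurd trivial h
      · intro i hi
        have : g.2 = i := by simpa using hi
        exact ⟨R.ug g, hg', by rw [← this]; rfl⟩
  · constructor
    · intro _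
      by_cases hd : R.dbl z
      · rw [if_pos hd] at hgs
        refine List.mem_append_left _ ?_
        rw [hgs, List.flatMap_append]
        refine List.mem_append_right _ ?_
        simp only [List.flatMap_cons, List.flatMap_nil, List.append_nil]
        exact List.mem_map.2 ⟨u, hu, rfl⟩
      · rw [if_neg hd] at htl
        refine List.mem_append_right _ ?_
        rw [htl]
        exact List.mem_map.2 ⟨u, hu, rfl⟩
    · rintro i rfl
      exact absurd trivial (R.tl_fr _ hu)

lemma mem_us_p {z : C} {q : List (α ⊕ C) × (α ⊕ C)} (hq : R.p z = some q) :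
    BU.fx (R.m1 q.2) ∈ R.fro z ∧ ∀ i ∈ q.1, R.ue i ∈ R.fro z := by
  unfold fro
  rw [hq]
  constructor
  · simp
  · intro i hi
    simp only [Option.elim_some]
    exact List.mem_cons_of_mem _ (List.mem_append_right _ (List.mem_append_left _
      (List.mem_map.2 ⟨i, hi, rfl⟩)))

lemma mem_us_x {z : C} {x : α} (hx : R.xN z = some x) : BU.fx (R.m1 (Sum.inl x)) ∈ R.fro z := by
  unfold fro
  rw [hx]
  simp

lemma mem_us_l (z : C) : BU.fx (R.ol z) ∈ R.fro z := by
  unfold fro
  exact List.mem_cons_self

/-- **from the circle to the items** -/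
theorem MJ_of_M {V : R.T → B} (hl : ∀ t, V (R.lam t) = V t) (hM : ∀ z, (R.cir z).M V) (z : C) :
    MJ R.real (R.xN z) (R.p z) (R.us z) (R.vl V (Sum.inr z)) (R.vl V) := by
  have hv : ∀ i ∈ R.rd z, V (R.m1 i) = R.vl V i := fun i hi => V_m1 hl hM hi
  have hMz := hM z
  have hvx : ∀ x, R.xN z = some x → V (R.m1 (Sum.inl x)) = R.vl V (Sum.inl x) := fun x _ => rfl
  -- one value
  have key : ∀ us : List (BU R.T), (∀ u ∈ R.fro z, u ∈ us) → BU.One us V →
      (∀ u ∈ R.us z, match u with
        | It.ev i => V (R.m1 i) = V (R.ol z)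
        | It.fr i => V (R.m1 i) = V (R.ol z)
        | It.br f m x => V (R.m1 x) = V (R.m1 f) ∧ ∀ i ∈ m, V (R.m1 i) = V (R.m1 f)) →
      MJ R.real (R.xN z) (R.p z) (R.us z) (R.vl V (Sum.inr z)) (R.vl V) := by
    rintro us hfr ⟨h1, c, h2⟩ h3
    have hc : V (R.ol z) = c := h2 _ (hfr _ (mem_us_l z)) (by simp [BU.kind])
    have ho : R.vl V (Sum.inr z) = V (R.ol z) := rfl
    refine ⟨R.vl V (Sum.inr z), fun _ => rfl, ?_, ?_, ?_⟩
    · intro x hx
      have h4 := h2 _ (hfr _ (mem_us_x hx)) (by simp [BU.kind])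
      rw [ho, hc, ← h4]
      rfl
    · intro q hq
      obtain ⟨h4, h5⟩ := mem_us_p hq
      constructor
      · have h6 := h2 _ (hfr _ h4) (by simp [BU.kind])
        rw [← hv _ (mem_p hq (Or.inr rfl)), ho, hc, ← h6]
        rfl
      · intro i hi
        have h6 := h2 _ (hfr _ (h5 i hi)) (by simp [ue, BU.kind])
        rw [← hv _ (mem_p hq (Or.inl hi)), ho, hc, ← h6]
        rfl
    · intro u hu
      have h4 := h3 u hu
      cases u with
      | ev i =>
        left
        rw [← hv i (mem_us hu (by simp [It.fl]))]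
        exact h4
      | fr i =>
        show R.vl V i = _
        rw [← hv i (mem_us hu (by simp [It.fl]))]
        exact h4
      | br f m x =>
        show R.vl V f = R.vl V x ∧ ∀ i ∈ m, R.vl V i = R.vl V x
        rw [← hv f (mem_us hu (by simp [It.fl])), ← hv x (mem_us hu (by simp [It.fl]))]
        refine ⟨h4.1.symm, ?_⟩
        intro i hi
        rw [← hv i (mem_us hu (by simp [It.fl, hi])), h4.2 i hi, h4.1]
  rcases R.cir_cases z with ⟨x, q, hx, hq, h⟩ | ⟨h0, h⟩ | ⟨gs, g, h0, h1, h2, h⟩
  · rw [h] at hMz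
    obtain ⟨a, b, m1, m2, m3, m4, m5, m6⟩ := hMz
    have m1 : V (R.ol z) = a := m1
    have m2 : V (R.m1 (Sum.inl x)) = b := m2
    have m3 : V (R.m1 q.2) = b := m3
    refine ⟨b, ?_, ?_, ?_, ?_⟩
    · rintro (h' | h')
      · rw [hx] at h'; simp at h'
      · rw [hq] at h'; simp at h'
    · intro y hy
      have : y = x := by rw [hx] at hy; simpa using hy.symm
      rw [this]
      exact m2
    · intro q' hq'
      have : q' = q := by rw [hq] at hq'; simpa using hq'.symm
      rw [this]
      constructor
      · rw [← hv _ (mem_p hq (Or.inr rfl))]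
        exact m3
      · intro i hi
        have h4 := (m4 (R.ue i) (List.mem_map.2 ⟨i, hi, rfl⟩)).2 (by simp [ue, BU.kind])
        rw [← hv _ (mem_p hq (Or.inl hi))]
        exact h4
    · intro u hu
      obtain ⟨h4, h5⟩ := fuA_mem x q hu
      cases u with
      | ev i =>
        have h6 := m6 _ (h4 (fun h => h))
        rw [ui_ev] at h6
        show R.vl V i = V (R.ol z) ∨ (∀ c, i = Sum.inr c → ¬ R.real c) ∧ R.vl V i = b
        rw [← hv i (mem_us hu (by simp [It.fl]))]
        split_ifs at h6 with hr
        · left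
          rw [m1]
          exact (h6.1 (R.m1 i, R.m2 i) (by simp [Itm.rep])).1
        · obtain ⟨-, h7⟩ := h6.2.1 (R.m1 i, R.m2 i) (by simp [Itm.lap])
          rcases h7 with h7 | h7
          · left
            rw [m1]; exact h7
          · right
            refine ⟨?_, h7⟩
            rintro c rfl
            exact hr
      | fr i =>
        obtain ⟨g, hg, hgi⟩ := h5 i rfl
        show R.vl V i = V (R.ol z)
        rw [← hv i (mem_us hu (by simp [It.fl])), ← hgi, m5 g hg, m1]
      | br f m x' =>
        have h6 := (m6 _ (h4 (fun h => h))).2.2 (BU.br (R.m1 f) (R.m1 x') (m.map R.pr))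
          (by simp [ui, Itm.brp])
        obtain ⟨h7, h8⟩ := h6
        show R.vl V f = R.vl V x' ∧ ∀ i ∈ m, R.vl V i = R.vl V x'
        rw [← hv f (mem_us hu (by simp [It.fl])), ← hv x' (mem_us hu (by simp [It.fl]))]
        refine ⟨h7.symm, ?_⟩
        intro i hi
        rw [← hv i (mem_us hu (by simp [It.fl, hi])), h7]
        exact (h8 (R.pr i) (List.mem_map.2 ⟨i, hi, rfl⟩)).1
  · rw [h] at hMz
    have hMz : BU.One (R.plU z) V := hMz
    have hc : ∀ u ∈ R.plU z, u.kind ≠ Kind.closed → u.val V = V (R.ol z) := by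
      obtain ⟨c, hc⟩ := hMz.2
      have h4 := hc _ (List.mem_append_left _ (mem_us_l z)) (by simp [BU.kind])
      intro u hu hk
      rw [hc u hu hk, ← h4]
      rfl
    refine key (R.plU z) (fun u hu => List.mem_append_left _ hu) hMz ?_
    intro u hu
    have hu' : R.ut u ∈ R.plU z :=
      List.mem_append_right _ (List.mem_append_left _ (List.mem_map.2 ⟨u, hu, rfl⟩))
    cases u with
    | ev i => exact hc _ hu' (by simp [ut, ue, BU.kind])
    | fr i => exact hc _ hu' (by simp [ut, BU.kind])
    | br f m x =>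
      have h6 := hMz.1 _ hu'
      exact ⟨h6.1, fun i hi => (h6.2 (R.pr i) (List.mem_map.2 ⟨i, hi, rfl⟩)).1⟩
  · rw [h] at hMz
    have e0 : (Circ.gp (R.ol z) (R.gpU z g) (R.m1 g.2) ((R.tl z).map R.ui) (R.or z)).pus =
      R.gpU z g ++ (((R.tl z).map R.ui).flatMap Itm.brp ++
        [BU.gv (R.m1 g.2) (((R.tl z).map R.ui).flatMap Itm.pairs), BU.fr (R.or z)]) := rfl
    have hMz : BU.One (Circ.gp (R.ol z) (R.gpU z g) (R.m1 g.2) ((R.tl z).map R.ui)
      (R.or z)).pus V := hMz
    rw [e0] at hMz
    have hfr : ∀ u ∈ R.fro z, u ∈ R.gpU z g ++ (((R.tl z).map R.ui).flatMap Itm.brp ++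
        [BU.gv (R.m1 g.2) (((R.tl z).map R.ui).flatMap Itm.pairs), BU.fr (R.or z)]) :=
      fun u hu => List.mem_append_left _ (List.mem_append_left _ hu)
    have hc : ∀ u ∈ R.gpU z g ++ (((R.tl z).map R.ui).flatMap Itm.brp ++
        [BU.gv (R.m1 g.2) (((R.tl z).map R.ui).flatMap Itm.pairs), BU.fr (R.or z)]),
        u.kind ≠ Kind.closed → u.val V = V (R.ol z) := by
      obtain ⟨c, hc⟩ := hMz.2
      have h4 := hc _ (hfr _ (mem_us_l z)) (by simp [BU.kind])
      intro u hu hk
      rw [hc u hu hk, ← h4]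
      rfl
    have hgv := hc (BU.gv (R.m1 g.2) (((R.tl z).map R.ui).flatMap Itm.pairs)) (by simp)
      (by simp [BU.kind])
    have hgv' := hMz.1 (BU.gv (R.m1 g.2) (((R.tl z).map R.ui).flatMap Itm.pairs)) (by simp)
    refine key _ hfr hMz ?_
    intro u hu
    rw [R.us_eq z, h1, List.flatMap_append, List.mem_append, List.mem_append] at hu
    have hcase : (R.ut u ∈ R.gpU z g) ∨ u = It.fr g.2 ∨ u ∈ R.tl z := by
      have hmem : u ∈ (gs.flatMap fun g => g.1 ++ [It.fr g.2]) ++ g.1 → R.ut u ∈ R.gpU z g := by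
        intro hm
        unfold gpU
        rw [h2]
        exact List.mem_append_right _ (List.mem_map.2 ⟨u, hm, rfl⟩)
      rcases hu with (hu | hu) | hu
      · exact Or.inl (hmem (List.mem_append_left _ hu))
      · have hu : u ∈ g.1 ++ [It.fr g.2] := by simpa using hu
        rcases List.mem_append.1 hu with hu | hu
        · exact Or.inl (hmem (List.mem_append_right _ hu))
        · exact Or.inr (Or.inl (List.mem_singleton.1 hu))
      · exact Or.inr (Or.inr hu)
    rcases hcase with hu' | rfl | hu'
    · cases u with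
      | ev i => exact hc _ (List.mem_append_left _ hu') (by simp [ut, ue, BU.kind])
      | fr i => exact hc _ (List.mem_append_left _ hu') (by simp [ut, BU.kind])
      | br f m x =>
        have h6 := hMz.1 _ (List.mem_append_left _ hu')
        exact ⟨h6.1, fun i hi => (h6.2 (R.pr i) (List.mem_map.2 ⟨i, hi, rfl⟩)).1⟩
    · exact hgv
    · cases u with
      | ev i =>
        have h6 := (hgv' (R.m1 i, R.m2 i) (List.mem_flatMap.2 ⟨R.ui (It.ev i),
          List.mem_map.2 ⟨_, hu', rfl⟩, by rw [ui_ev]; split_ifs <;> simp [Itm.pairs]⟩)).1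
        show V (R.m1 i) = V (R.ol z)
        rw [← hgv]
        exact h6
      | fr i => exact absurd trivial (R.tl_fr _ hu')
      | br f m x =>
        have h6 := hMz.1 (BU.br (R.m1 f) (R.m1 x) (m.map R.pr)) (List.mem_append_right _
          (List.mem_append_left _ (List.mem_flatMap.2 ⟨R.ui (It.br f m x),
            List.mem_map.2 ⟨_, hu', rfl⟩, by simp [ui, Itm.brp]⟩)))
        exact ⟨h6.1, fun i hi => (h6.2 (R.pr i) (List.mem_map.2 ⟨i, hi, rfl⟩)).1⟩

/-! ### The node lemmas -/

/-- what is known about the letters -/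
def E (R : RD C α) (z : C) (s : R.T → Bool) : Prop :=
  s (R.ol z) = true ∧ (∀ x ∈ R.xN z, s (R.m1 (Sum.inl x)) = true) ∧
    (∀ q ∈ R.p z, s (R.m1 q.2) = true) ∧
    (R.xN z = none → R.p z = none → ∀ r ∈ R.orr z, s r = true)

lemma E_congr {z : C} {s s' : R.T → Bool} (h : ∀ t ∈ (R.cir z).tks, s t = s' t)
    (hE : R.E z s) : R.E z s' := by
  have hws := cir_ws (R := R) z
  obtain ⟨h1, h2, h3, h4⟩ := hE
  have hrd : ∀ i ∈ R.rd z, R.m1 i ∈ (R.cir z).tks := by
    intro i hi
    rw [mem_cir]
    have h5 := mem_rdz.1 hi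
    have hv : R.Val (t1 i) := val_t1 hi
    have e : (R.m1 i).1 = t1 i := R.tk_val hv
    rw [e]
    cases i with
    | inl p => exact h5.2.1
    | inr c => exact h5.2.1
  refine ⟨?_, ?_, ?_, ?_⟩
  · rw [← h _ (by rw [← cir_l]; exact hws.l_mem)]
    exact h1
  · intro x hx
    rw [← h _ (hrd _ ?_)]
    · exact h2 x hx
    · unfold rd lst
      refine List.mem_append_left _ (List.mem_append_left _ ?_)
      rw [Option.mem_def.1 hx]
      simp
  · intro q hq
    rw [← h _ (hrd _ (mem_p hq (Or.inr rfl)))]
    exact h3 q hq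
  · intro hx hp r hr
    rw [← h _ (hws.r_mem (by rw [cir_r]; exact hr))]
    exact h4 hx hp r hr

/-- **the node lemma for every circle** -/
theorem cir_ok (z : C) {F : Set (R.T → B)} (h1 : ∀ V ∈ F, ∀ p ∈ (R.cir z).evs, V p.1 = V p.2)
    (h2 : ∀ V ∈ F, ∀ V' ∈ F, sp V V' (R.cir z).tks = 0) : (R.cir z).Ok (R.E z) F := by
  have hn := cir_nodup (R := R) z
  have he := cir_even (R := R) z
  rcases R.cir_cases z with ⟨x, q, hx, hq, h⟩ | ⟨h0, h⟩ | ⟨gs, g, h0, hg1, hg2, h⟩
  · rw [h] at h1 h2 hn he ⊢
    rw [fu_od] at he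
    have hlen : ¬ Even (R.fuA z x q).gs.length := by
      intro h3
      rw [Nat.even_iff] at he h3
      simp only [List.length_cons, List.length_map] at he
      omega
    obtain ⟨g₀, gs, hgs⟩ : ∃ g₀ gs, (R.fuA z x q).gs = g₀ :: gs := by
      cases hgs : (R.fuA z x q).gs with
      | nil => rw [hgs] at hlen; exact absurd ⟨0, rfl⟩ hlen
      | cons g₀ gs => exact ⟨g₀, gs, rfl⟩
    refine Circ.ok_e (A := R.fuA z x q) ?_ hn hgs ?_ ?_ h1 h2
    · intro u hu
      obtain ⟨i, -, rfl⟩ := List.mem_map.1 (show u ∈ q.1.map R.ue from hu)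
      exact ⟨trivial, by simp [ue, BU.kind]⟩
    · rw [hgs, List.length_cons] at hlen
      rw [Nat.even_iff] at hlen ⊢
      omega
    · intro s s1 s2 s3 _ _
      refine ⟨s1, ?_, ?_, ?_⟩
      · intro y hy
        have : x = y := by rw [hx] at hy; simpa using hy
        rw [← this]
        exact s2
      · intro q' hq'
        have : q = q' := by rw [hq] at hq'; simpa using hq'
        rw [← this]
        exact s3
      · intro h3
        rw [hx] at h3
        simp at h3
  · have hpl : (Circ.pl (R.ol z) (R.orr z) (R.plU z)).isPl := trivial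
    have hng : ¬ (Circ.pl (R.ol z) (R.orr z) (R.plU z)).isGp = true := by
      intro h; simp [Circ.isGp] at h
    rw [h] at h1 h2 hn he ⊢
    rw [pl_od, List.length_cons] at he
    cases hx : R.xN z with
    | none =>
      cases hp : R.p z with
      | none =>
        have hf : R.fox z = [] := by unfold fox; rw [hx, hp]; rfl
        have hod := pl_od (R := R) z
        rw [hf, List.nil_append] at he hod
        obtain ⟨rest, hrest⟩ : ∃ rest, rest = ((R.us z).flatMap It.fri).map
          (fun i => BU.fr (R.m1 i)) ++ (R.orr z).elim [] fun t => [BU.fr t] := ⟨_, rfl⟩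
        rw [← hrest] at he hod
        have hne : rest ≠ [] := by
          intro h3
          rw [h3] at he
          simp at he
        obtain ⟨ms, zz, hms⟩ : ∃ ms zz, rest = ms ++ [zz] :=
          ⟨rest.dropLast, rest.getLast hne, (List.dropLast_append_getLast hne).symm⟩
        rw [hms] at hod he
        refine Circ.ok_a hpl hn hod ?_ hng ?_ h1 h2
        · rw [Nat.even_iff] at he ⊢
          simp only [List.length_append, List.length_singleton] at he
          omega
        · intro s s1 s2 _
          refine ⟨s1, ?_, ?_, ?_⟩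
          · intro y hy; rw [hx] at hy; simp at hy
          · intro y hy; rw [hp] at hy; simp at hy
          · intro _ _ r hr
            rw [Option.mem_def] at hr
            rw [hr] at hrest
            simp only [Option.elim_some] at hrest
            rw [hms] at hrest
            have h5 := List.append_inj' hrest (by simp)
            have h6 : zz = BU.fr r := by simpa using h5.2
            rw [h6] at s2
            exact s2
      | some q =>
        have hf : R.fox z = [BU.fx (R.m1 q.2)] := by unfold fox; rw [hx, hp]; rfl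
        have hod := pl_od (R := R) z
        rw [hf] at he hod
        refine Circ.ok_c hpl hn hod ?_ (fun h => absurd h hng) ?_ h1 h2
        · rw [Nat.even_iff] at he ⊢
          simp only [List.length_cons, List.length_append, List.length_nil] at he ⊢
          simp only [List.append_eq, List.nil_append, List.length_append]
          omega
        · intro s s1 s2 _
          refine ⟨s1, ?_, ?_, ?_⟩
          · intro y hy; rw [hx] at hy; simp at hy
          · intro q' hq'
            have : q = q' := by rw [hp] at hq'; simpa using hq'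
            rw [← this]
            exact s2
          · intro _ h3; rw [hp] at h3; simp at h3
    | some x =>
      have hp : R.p z = none := by
        rcases h0 with h0 | h0
        · rw [hx] at h0; simp at h0
        · exact h0
      have hf : R.fox z = [BU.fx (R.m1 (Sum.inl x))] := by unfold fox; rw [hx, hp]; rfl
      have hod := pl_od (R := R) z
      rw [hf] at he hod
      refine Circ.ok_c hpl hn hod ?_ (fun h => absurd h hng) ?_ h1 h2
      · rw [Nat.even_iff] at he ⊢
        simp only [List.length_cons, List.length_append, List.length_nil] at he ⊢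
        simp only [List.append_eq, List.nil_append, List.length_append]
        omega
      · intro s s1 s2 _
        refine ⟨s1, ?_, ?_, ?_⟩
        · intro y hy
          have : x = y := by rw [hx] at hy; simpa using hy
          rw [← this]
          exact s2
        · intro y hy; rw [hp] at hy; simp at hy
        · intro h3; rw [hx] at h3; simp at h3
  · obtain ⟨hgr, hd, hx, hp0⟩ := h0
    obtain ⟨q, hp⟩ := Option.ne_none_iff_exists'.1 hp0
    have hpl : (Circ.gp (R.ol z) (R.gpU z g) (R.m1 g.2) ((R.tl z).map R.ui) (R.or z)).isPl :=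
      trivial
    rw [h] at h1 h2 hn he ⊢
    have hf : R.fox z = [BU.fx (R.m1 q.2)] := by unfold fox; rw [hx, hp]; rfl
    have hod := gp_od hg1 hg2
    rw [hf] at hod
    rw [hod] at he
    refine Circ.ok_c hpl hn hod ?_ (fun _ => by simp) ?_ h1 h2
    · rw [Nat.even_iff] at he ⊢
      simp only [List.length_cons, List.length_append, List.length_nil] at he ⊢
      simp only [List.append_eq, List.nil_append, List.length_append, List.length_cons,
        List.length_nil]
      omega
    · intro s s1 s2 _
      refine ⟨s1, ?_, ?_, ?_⟩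
      · intro y hy; rw [hx] at hy; simp at hy
      · intro q' hq'
        have : q = q' := by rw [hp] at hq'; simpa using hq'
        rw [← this]
        exact s2
      · intro _ h3; rw [hp] at h3; simp at h3

end RD

end Pool.Agent.MP42.U
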