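import Pool.Agent.MP42.U.Bri

/-!
# Project MP42: from the tree side to the node side, the system of circles

`RD.exists_sys`: the circles of `R : RD C α` form a system `Sys` with all hypotheses `Full`.
-/

set_option autoImplicit false

namespace Pool.Agent.MP42.U

namespace RD

variable {C α : Type*} {R : RD C α}

/-! ### The even children are in the list -/

lemma fro_evs_mem {z : C} {q : List (α ⊕ C) × (α ⊕ C)} (hq : R.p z = some q) {i : α ⊕ C}
    (hi : i ∈ q.1) : R.pr i ∈ (R.fro z).flatMap BU.evs :=
  List.mem_flatMap.2 ⟨R.ue i, (mem_us_p hq).2 i hi, by simp [ue, BU.evs, pr]⟩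

lemma ut_evs_mem {u : It (α ⊕ C)} (hg : u.Good (Od' R.dbl) R.Po) {i : α ⊕ C}
    (hi : i ∈ u.fl) (h : ¬ Od' R.dbl i) : R.pr i ∈ (R.ut u).evs := by
  cases u with
  | ev k =>
    have : i = k := by simpa [It.fl] using hi
    rw [this]
    simp [ut, ue, BU.evs, pr]
  | fr k =>
    have : i = k := by simpa [It.fl] using hi
    rw [this] at h
    exact absurd hg.1 h
  | br f m x =>
    have h8 : i = f ∨ i ∈ m ∨ i = x := by simpa [It.fl] using hi
    rcases h8 with h8 | h8 | h8
    · rw [h8] at h
      exact absurd hg.1 h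
    · exact List.mem_map.2 ⟨i, h8, rfl⟩
    · rw [h8] at h
      exact absurd (R.po_od _ hg.2.2.2) h

lemma ui_evs_mem {u : It (α ⊕ C)} (hg : u.Good (Od' R.dbl) R.Po) (hf : ¬ u.isFr) {i : α ⊕ C}
    (hi : i ∈ u.fl) (h : ¬ Od' R.dbl i) : R.pr i ∈ (R.ui u).evs := by
  have h1 := ut_evs_mem hg hi h
  cases u with
  | ev k =>
    rw [ui_ev]
    split_ifs <;> exact h1
  | fr k => exact absurd trivial hf
  | br f m x => exact h1

/-- an even child is in the list of the even children of the circle -/
theorem mem_evs {z : C} {i : α ⊕ C} (hi : i ∈ R.rd z) (h : ¬ Od' R.dbl i) :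
    R.pr i ∈ (R.cir z).evs := by
  have hcase : (∃ q, R.p z = some q ∧ i ∈ q.1) ∨ ∃ u ∈ R.us z, i ∈ u.fl := by
    unfold rd lst at hi
    rcases List.mem_append.1 hi with hi | hi
    · rcases List.mem_append.1 hi with hi | hi
      · exfalso
        cases hx : R.xN z with
        | none => rw [hx] at hi; simp at hi
        | some x =>
          rw [hx] at hi
          have : i = Sum.inl x := by simpa using hi
          rw [this] at h
          exact h trivial
      · left
        cases hp : R.p z with
        | none => rw [hp] at hi; simp at hi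
        | some q =>
          rw [hp] at hi
          have h2 : i ∈ q.1 ∨ i = q.2 := by simpa using hi
          rcases h2 with h2 | h2
          · exact ⟨q, rfl, h2⟩
          · rw [h2] at h
            exact absurd (xp_odd hp) h
    · right
      exact List.mem_flatMap.1 hi
  rcases R.cir_cases z with ⟨x, q, hx, hq, hc⟩ | ⟨h0, hc⟩ | ⟨gs, g, h0, h1, h2, hc⟩
  · rw [hc]
    show _ ∈ (q.1.map R.ue).flatMap BU.evs ++
      (((R.fuA z x q).gs.flatMap fun g => g.1.flatMap Itm.evs) ++
        (R.fuA z x q).tl.flatMap Itm.evs)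
    rcases hcase with ⟨q', hq', h3⟩ | ⟨u, hu, h3⟩
    · have : q' = q := by rw [hq] at hq'; simpa using hq'.symm
      rw [this] at h3
      refine List.mem_append_left _ (List.mem_flatMap.2 ⟨R.ue i, List.mem_map.2 ⟨i, h3, rfl⟩,
        by simp [ue, BU.evs, pr]⟩)
    · have hg := usg z u hu
      have hf : ¬ u.isFr := by
        cases u with
        | ev k => exact fun h => h
        | fr k =>
          have : i = k := by simpa [It.fl] using h3
          rw [this] at h
          exact absurd hg.1 h
        | br f m x => exact fun h => h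
      have h4 := (fuA_mem x q hu).1 hf
      refine List.mem_append_right _ ?_
      rcases List.mem_append.1 h4 with h4 | h4
      · obtain ⟨g, hg1, hg2⟩ := List.mem_flatMap.1 h4
        exact List.mem_append_left _ (List.mem_flatMap.2 ⟨g, hg1, List.mem_flatMap.2
          ⟨_, hg2, ui_evs_mem hg hf h3 h⟩⟩)
      · exact List.mem_append_right _ (List.mem_flatMap.2 ⟨_, h4, ui_evs_mem hg hf h3 h⟩)
  · rw [hc]
    show _ ∈ (R.plU z).flatMap BU.evs
    unfold plU
    rw [List.flatMap_append, List.flatMap_append]
    rcases hcase with ⟨q', hq', h3⟩ | ⟨u, hu, h3⟩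
    · exact List.mem_append_left _ (fro_evs_mem hq' h3)
    · exact List.mem_append_right _ (List.mem_append_left _ (List.mem_flatMap.2
        ⟨R.ut u, List.mem_map.2 ⟨u, hu, rfl⟩, ut_evs_mem (usg z u hu) h3 h⟩))
  · rw [hc]
    show _ ∈ (R.gpU z g).flatMap BU.evs ++ ((R.tl z).map R.ui).flatMap Itm.evs
    rcases hcase with ⟨q', hq', h3⟩ | ⟨u, hu, h3⟩
    · refine List.mem_append_left _ ?_
      unfold gpU
      rw [List.flatMap_append]
      exact List.mem_append_left _ (fro_evs_mem hq' h3)
    · have hg := usg z u hu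
      rw [R.us_eq z, h1, List.flatMap_append, List.mem_append, List.mem_append] at hu
      have hmem : u ∈ (gs.flatMap fun g => g.1 ++ [It.fr g.2]) ++ g.1 →
          R.pr i ∈ (R.gpU z g).flatMap BU.evs := by
        intro hm
        refine List.mem_flatMap.2 ⟨R.ut u, ?_, ut_evs_mem hg h3 h⟩
        unfold gpU
        rw [h2]
        exact List.mem_append_right _ (List.mem_map.2 ⟨u, hm, rfl⟩)
      rcases hu with (hu | hu) | hu
      · exact List.mem_append_left _ (hmem (List.mem_append_left _ hu))
      · have hu : u ∈ g.1 ++ [It.fr g.2] := by simpa using hu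
        rcases List.mem_append.1 hu with hu | hu
        · exact List.mem_append_left _ (hmem (List.mem_append_right _ hu))
        · exfalso
          rw [List.mem_singleton] at hu
          rw [hu] at h3 hg
          have : i = g.2 := by simpa [It.fl] using h3
          rw [this] at h
          exact h hg.1
      · exact List.mem_append_right _ (List.mem_flatMap.2 ⟨R.ui u, List.mem_map.2 ⟨u, hu, rfl⟩,
          ui_evs_mem hg (R.tl_fr u hu) h3 h⟩)

/-- the even child `c` -/
theorem child_evs {c : C} (hc : c ≠ R.r) (h : R.dbl c) :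
    R.pr (Sum.inr c) ∈ (R.cir (R.par c)).evs := by
  refine mem_evs (mem_rdz.2 ⟨by simp, rfl, fun h => hc (Sum.inr_injective h),
    fun c' h1 h2 => R.ex_ne h (by rw [Sum.inr_injective h2, h1])⟩) ?_
  intro h'
  exact h' h

/-! ### Phases and the order of the circles -/

open Classical in
/-- the phases, with fuel -/
noncomputable def phn (R : RD C α) : ℕ → C → ℕ
  | 0, _ => 0
  | n + 1, c => if c = R.r then 0 else R.phn n (R.par c) + if R.real c then 0 else 1

lemma phn_eq : ∀ (n m : ℕ) (c : C), R.dep c ≤ n → R.dep c ≤ m → R.phn n c = R.phn m c := by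
  intro n
  induction n with
  | zero =>
    intro m c hn _
    have hc : c = R.r := by
      by_contra h
      have := R.dep_par c h
      omega
    cases m with
    | zero => rfl
    | succ m => simp [phn, hc]
  | succ n ih =>
    intro m c hn hm
    by_cases hc : c = R.r
    · cases m with
      | zero => simp [phn, hc]
      | succ m => simp [phn, hc]
    · have h1 := R.dep_par c hc
      cases m with
      | zero => omega
      | succ m =>
        simp only [phn, if_neg hc]
        rw [ih m (R.par c) (by omega) (by omega)]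

/-- the phase of a circle -/
noncomputable def ph (R : RD C α) (c : C) : ℕ := R.phn (R.dep c) c

open Classical in
lemma ph_par {c : C} (hc : c ≠ R.r) : R.ph c = R.ph (R.par c) + if R.real c then 0 else 1 := by
  have h1 := R.dep_par c hc
  unfold ph
  obtain ⟨k, hk⟩ : ∃ k, R.dep c = k + 1 := ⟨R.dep c - 1, by omega⟩
  rw [hk]
  simp only [phn, if_neg hc]
  rw [phn_eq k (R.dep (R.par c)) (R.par c) (by omega) le_rfl]

/-- the order of the circles: parents first, phases first -/
theorem exists_ord (R : RD C α) [Fintype C] : ∃ e : C ≃ Fin (Fintype.card C),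
    (∀ c, c ≠ R.r → e (R.par c) < e c) ∧ ∀ f g, f ≤ g → R.ph (e.symm f) ≤ R.ph (e.symm g) := by
  classical
  obtain ⟨M, hM⟩ : ∃ M, ∀ c, R.dep c ≤ M :=
    ⟨Finset.univ.sup R.dep, fun c => Finset.le_sup (Finset.mem_univ c)⟩
  obtain ⟨key, hkey⟩ : ∃ key : C → ℕ, key = fun c => R.ph c * (M + 1) + R.dep c := ⟨_, rfl⟩
  have e0 := Fintype.equivFin C
  have hmono := Tuple.monotone_sort (key ∘ e0.symm)
  have hk : ∀ c, ((key ∘ e0.symm) ∘ Tuple.sort (key ∘ e0.symm))
      ((e0.trans (Tuple.sort (key ∘ e0.symm)).symm) c) = key c := by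
    intro c
    simp
  refine ⟨e0.trans (Tuple.sort (key ∘ e0.symm)).symm, ?_, ?_⟩
  · intro c hc
    by_contra h
    have h1 := hmono (not_lt.1 h)
    rw [hk, hk] at h1
    have h2 := R.dep_par c hc
    have h3 := ph_par hc
    have h4 : R.ph (R.par c) ≤ R.ph c := by rw [h3]; exact Nat.le_add_right _ _
    have h5 := Nat.mul_le_mul_right (M + 1) h4
    have hkc : ∀ c, key c = R.ph c * (M + 1) + R.dep c := fun c => by rw [hkey]
    rw [hkc, hkc] at h1
    omega
  · intro f g hfg
    have h1 := hmono hfg
    have h2 : ∀ f, ((key ∘ e0.symm) ∘ Tuple.sort (key ∘ e0.symm)) f =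
        key ((e0.trans (Tuple.sort (key ∘ e0.symm)).symm).symm f) := by
      intro f
      simp
    have hkc : ∀ c, key c = R.ph c * (M + 1) + R.dep c := fun c => by rw [hkey]
    rw [h2, h2, hkc, hkc] at h1
    by_contra h
    rw [not_le] at h
    have h3 := hM ((e0.trans (Tuple.sort (key ∘ e0.symm)).symm).symm f)
    have h4 := hM ((e0.trans (Tuple.sort (key ∘ e0.symm)).symm).symm g)
    have h5 := Nat.mul_le_mul_right (M + 1) (Nat.succ_le_of_lt h)
    rw [Nat.succ_mul] at h5
    omega

/-! ### The system -/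

lemma finite_T (R : RD C α) [Finite C] : Finite R.T := by
  obtain ⟨f, hf⟩ : ∃ f : R.T → Option {p // p ∈ R.L} × Option (C × Bool) × Option (C × Bool),
      Function.Injective f := by
    refine ⟨fun t => match t with
      | ⟨Tok.pt p, h⟩ => (some ⟨p, h⟩, none, none)
      | ⟨Tok.ow c k, _⟩ => (none, some (c, k), none)
      | ⟨Tok.up c k, _⟩ => (none, none, some (c, k)), ?_⟩
    rintro ⟨t, ht⟩ ⟨t', ht'⟩ h
    have key : t = t' := by
      cases t with
      | pt p =>
        cases t' with
        | pt p' =>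
          have h1 : (⟨p, ht⟩ : {p // p ∈ R.L}) = ⟨p', ht'⟩ := Option.some_inj.1 (congrArg Prod.fst h)
          rw [show p = p' from congrArg Subtype.val h1]
        | ow c' k' => exact absurd (congrArg Prod.fst h) (by simp)
        | up c' k' => exact absurd (congrArg Prod.fst h) (by simp)
      | ow c k =>
        cases t' with
        | pt p' => exact absurd (congrArg Prod.fst h) (by simp)
        | ow c' k' =>
          have h1 : (c, k) = (c', k') := Option.some_inj.1 (congrArg (fun x => x.2.1) h)
          rw [show c = c' from congrArg Prod.fst h1, show k = k' from congrArg Prod.snd h1]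
        | up c' k' => exact absurd (congrArg (fun x => x.2.1) h) (by simp)
      | up c k =>
        cases t' with
        | pt p' => exact absurd (congrArg Prod.fst h) (by simp)
        | ow c' k' => exact absurd (congrArg (fun x => x.2.1) h) (by simp)
        | up c' k' =>
          have h1 : (c, k) = (c', k') := Option.some_inj.1 (congrArg (fun x => x.2.2) h)
          rw [show c = c' from congrArg Prod.fst h1, show k = k' from congrArg Prod.snd h1]
    subst key
    rfl
  exact Finite.of_injective f hf

/-- the system of the circles -/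
noncomputable def sys (R : RD C α) {n : ℕ} (e : C ≃ Fin n)
    (h : ∀ f g, f ≤ g → R.ph (e.symm f) ≤ R.ph (e.symm g)) : Sys n R.T where
  lam := R.lam
  lam_lam t := Subtype.ext (R.lamr_lamr t.2)
  lam_ne t := fun h => R.lamr_ne t.2 (congrArg Subtype.val h)
  nd t := e (R.ndr t.1)
  c f := R.cir (e.symm f)
  ws f := cir_ws _
  nodup f := cir_nodup _
  mem f t := by
    rw [mem_cir]
    exact ⟨fun h => by rw [h]; simp, fun h => by rw [← h]; simp⟩
  ph f := R.ph (e.symm f)
  ph_mono f g := h f g

variable {n : ℕ} {e : C ≃ Fin n} {h : ∀ f g, f ≤ g → R.ph (e.symm f) ≤ R.ph (e.symm g)}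

/-- the tokens of a child at its parent -/
lemma sys_ch {c : C} (hc : c ≠ R.r) (hd : R.dbl c) :
    (R.sys e h).Ch (e c) (R.pr (Sum.inr c)) := by
  have e1 : (R.sys e h).c (e c) = R.cir c := by
    show R.cir (e.symm (e c)) = _
    rw [Equiv.symm_apply_apply]
  refine ⟨R.or c, ?_, ?_⟩
  · rw [e1, cir_r, orr_some hd]
  · have e2 : (R.sys e h).lam = R.lam := rfl
    rw [e1, cir_l, e2]
    have e3 : ∀ k, R.lam (R.tk (Tok.ow c k)) = R.tk (Tok.up c (k == R.tw c)) := by
      intro k
      have hv : R.Val (Tok.ow c k) := fun _ => hd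
      rw [R.lam_tk hv, R.lamr_ow, if_neg hc, if_pos hd]
    show (R.tk (Tok.up c true) = R.lam (R.tk (Tok.ow c true)) ∧
      R.tk (Tok.up c false) = R.lam (R.tk (Tok.ow c false))) ∨
      (R.tk (Tok.up c true) = R.lam (R.tk (Tok.ow c false)) ∧
      R.tk (Tok.up c false) = R.lam (R.tk (Tok.ow c true)))
    rw [e3, e3]
    cases R.tw c
    · right; exact ⟨rfl, rfl⟩
    · left; exact ⟨rfl, rfl⟩

/-- two circles with the same pair of tokens -/
lemma ch_unique {G : Sys n R.T} {p : R.T × R.T} {g g' : Fin n} (h1 : G.Ch g p)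
    (h2 : G.Ch g' p) : g = g' := by
  obtain ⟨r, hr, h3⟩ := h1
  obtain ⟨r', hr', h4⟩ := h2
  have key : ∀ (g : Fin n) (r : R.T), (G.c g).r = some r →
      ((p.1 = G.lam (G.c g).l ∧ p.2 = G.lam r) ∨ (p.1 = G.lam r ∧ p.2 = G.lam (G.c g).l)) →
      G.nd (G.lam p.1) = g := by
    intro g r hr h
    rcases h with ⟨h, -⟩ | ⟨h, -⟩
    · rw [h, G.lam_lam, Sys.nd_l]
    · rw [h, G.lam_lam, Sys.nd_r hr]
  rw [← key g r hr h3, ← key g' r' hr' h4]

open Classical in
/-- **the tree** -/
theorem sys_tree (he : ∀ c, c ≠ R.r → e (R.par c) < e c) : (R.sys e h).Tree where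
  ch := by
    intro f p hp
    obtain ⟨c, hc, hpar, hd, rfl⟩ := cir_evs (R := R) (z := e.symm f) hp
    refine ⟨e c, ?_, sys_ch hc hd⟩
    have h1 := he c hc
    rw [hpar, Equiv.apply_symm_apply] at h1
    exact h1
  re := by
    intro f A hA g' hg' p hp g hg
    obtain ⟨c, hc, hpar, hd, hr, rfl⟩ := cir_re (R := R) (z := e.symm f) hA hg' hp
    have h1 : g = e c := ch_unique hg (sys_ch hc hd)
    show R.ph (e.symm g) = R.ph (e.symm f)
    rw [h1, Equiv.symm_apply_apply, ph_par hc, hpar, if_pos hr, Nat.add_zero]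
  la := by
    intro f p hp g hg
    obtain ⟨c, hc, hpar, hd, hr, rfl⟩ := cir_la (R := R) (z := e.symm f) hp
    have h1 : g = e c := ch_unique hg (sys_ch hc hd)
    show R.ph (e.symm f) < R.ph (e.symm g)
    rw [h1, Equiv.symm_apply_apply, ph_par hc, hpar, if_neg hr]
    exact Nat.lt_succ_self _

/-- every token has the value of an item -/
lemma V_all {V : R.T → B} (hl : ∀ t, V (R.lam t) = V t) (hM : ∀ z, (R.cir z).M V) (t : R.T) :
    V t = R.vl V (match t.1 with
      | Tok.pt p => Sum.inl p
      | Tok.ow c _ => Sum.inr c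
      | Tok.up c _ => Sum.inr c) := by
  obtain ⟨t, ht⟩ := t
  have e0 : V ⟨t, ht⟩ = V (R.tk t) := by rw [show R.tk t = ⟨t, ht⟩ from R.tk_self ⟨t, ht⟩]
  rw [e0]
  cases t with
  | pt p => rfl
  | ow c k =>
    cases k
    · exact V_or hM (ht rfl)
    · rfl
  | up c k =>
    have h1 := hl (R.tk (Tok.up c k))
    rw [← h1, R.lam_tk ht, R.lamr_up]
    show _ = V (R.ol c)
    split_ifs with hd
    · cases k == R.tw c
      · exact V_or hM hd
      · rfl
    · rfl

/-- **connectivity** -/
theorem sys_conn (V : R.T → B) (hl : ∀ t, V (R.lam t) = V t) (hM : ∀ z, (R.cir z).M V) :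
    ∀ x y, V x = V y := by
  have h1 := R.conn (R.vl V) (by
      intro i hi
      cases i with
      | inl q =>
        have hv : R.Val (Tok.pt q) := R.ex_mem q hi
        have h2 := hl (R.tk (Tok.pt q))
        rw [R.lam_tk hv, R.lamr_pt, if_pos hi] at h2
        exact h2.symm
      | inr c =>
        obtain ⟨h3, h4⟩ := R.ex_c c hi
        have hv : R.Val (Tok.ow c true : Tok C α) := fun h => by simp at h
        have h2 := hl (R.tk (Tok.ow c true))
        rw [R.lam_tk hv, R.lamr_ow, if_neg h3, if_neg h4, if_pos hi] at h2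
        exact h2.symm) (by
      intro q hq hne
      have hv : R.Val (Tok.pt q) := hq
      have h2 := hl (R.tk (Tok.pt q))
      rw [R.lam_tk hv, R.lamr_pt, if_neg hne] at h2
      exact h2) (MJ_of_M hl hM)
  have h2 : ∀ t, V t = R.vl V (Sum.inr R.r) := by
    intro t
    rw [V_all hl hM t]
    obtain ⟨t, ht⟩ := t
    cases t with
    | pt p => exact h1.2 p ht
    | ow c k => exact h1.1 c
    | up c k => exact h1.1 c
  intro x y
  rw [h2 x, h2 y]

/-- **all hypotheses of the global theorem** -/
theorem sys_full (he : ∀ c, c ≠ R.r → e (R.par c) < e c) :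
    (R.sys e h).Full fun f s => R.E (e.symm f) s where
  tree := sys_tree he
  ok := fun f F h1 h2 => cir_ok (e.symm f) (fun V hV => (h1 V hV).2.2) h2
  congr := fun f s s' hs hE => E_congr hs hE
  conn := by
    intro V hl hM
    refine sys_conn V hl ?_
    intro z
    have h1 := hM (e z)
    have e1 : (R.sys e h).c (e z) = R.cir z := by
      show R.cir (e.symm (e z)) = _
      rw [Equiv.symm_apply_apply]
    rwa [e1] at h1
  up := by
    intro g r hr
    have hr' : R.orr (e.symm g) = some r := by
      rw [← cir_r]; exact hr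
    have hd : R.dbl (e.symm g) := by
      by_contra hd
      rw [orr_none hd] at hr'
      simp at hr'
    by_cases hz : e.symm g = R.r
    · right
      intro s hs
      rw [hz] at hd
      have h1 := R.root hd
      exact hs.2.2.2 (by rw [hz]; exact h1.1) (by rw [hz]; exact h1.2) r hr'
    · left
      refine ⟨e (R.par (e.symm g)), ?_, R.pr (Sum.inr (e.symm g)), ?_, ?_⟩
      · have h1 := he _ hz
        rwa [Equiv.apply_symm_apply] at h1
      · show _ ∈ (R.cir (e.symm (e (R.par (e.symm g))))).evs
        rw [Equiv.symm_apply_apply]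
        exact child_evs hz hd
      · have h1 := sys_ch (R := R) (e := e) (h := h) hz hd
        rwa [Equiv.apply_symm_apply] at h1
  own := by
    intro f s hs
    have e1 : ((R.sys e h).c f).l = R.ol (e.symm f) := cir_l _
    rw [e1]
    exact hs.1

/-- **the system** -/
theorem exists_sys (R : RD C α) [Fintype C] : ∃ (e : C ≃ Fin (Fintype.card C))
    (h : ∀ f g, f ≤ g → R.ph (e.symm f) ≤ R.ph (e.symm g)),
    (∀ c, c ≠ R.r → e (R.par c) < e c) ∧
      (R.sys e h).Full fun f s => R.E (e.symm f) s := by
  obtain ⟨e, h1, h2⟩ := R.exists_ord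
  exact ⟨e, h2, h1, sys_full h1⟩

end RD

end Pool.Agent.MP42.U
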