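import Pool.Agent.MP42.U.Glob
import Pool.Agent.MP42.NE.TS

/-!
# From stack functions `TS` to stack walks
-/

set_option autoImplicit false

namespace Pool.Agent.MP42.U

open Pool.Agent.MP42.NE

/-! ## Words -/

/-- the reverse word: pushes and pops are exchanged -/
def rev (w : List (Bool × B)) : List (Bool × B) := (w.map fun p => (!p.1, p.2)).reverse

@[simp] lemma rev_nil : rev [] = [] := rfl

@[simp] lemma rev_cons (p : Bool × B) (w : List (Bool × B)) :
    rev (p :: w) = rev w ++ [(!p.1, p.2)] := by simp [rev]

@[simp] lemma rev_append (w₁ w₂ : List (Bool × B)) : rev (w₁ ++ w₂) = rev w₂ ++ rev w₁ := by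
  simp [rev]

@[simp] lemma rev_rev (w : List (Bool × B)) : rev (rev w) = w := by
  induction w with
  | nil => rfl
  | cons p w ih => rw [rev_cons, rev_append, ih]; simp

lemma Run.rev {w : List (Bool × B)} : ∀ {S S' : ℕ → B}, Run w S S' → Run (rev w) S' S := by
  induction w with
  | nil => intro S S' h; exact h.symm
  | cons p w ih =>
    obtain ⟨b, a⟩ := p
    intro S S' h
    rw [rev_cons, run_append]
    cases b
    · exact ⟨_, ih h, rfl, rfl⟩
    · refine ⟨_, ih h.2, ?_⟩
      show push a (tl S) = S
      rw [h.1, push_tl]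

/-- a pair `c o` -/
lemma run_co {a b : B} {w : List (Bool × B)} {S S' : ℕ → B} :
    Run ((false, a) :: (true, b) :: w) S S' ↔ b = a ∧ Run w S S' := by
  rw [run_push, run_pop, push_zero, tl_push]

/-- the stack after a part of a walk with one value -/
lemma run_const {w : List (Bool × B)} {c : B} (h : ∀ p ∈ w, p.2 = c) {S S' : ℕ → B}
    (hS : ∀ j, S j = c) (hr : Run w S S') : ∀ j, S' j = c := by
  have h1 := run_eff h hr
  intro j
  rcases lt_or_ge (j : ℤ) (- ht w) with h2 | h2
  · exact h1.top j h2
  · obtain ⟨k, hk⟩ := Int.eq_ofNat_of_zero_le (show 0 ≤ (j : ℤ) + ht w by omega)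
    rw [h1.sh j k hk.symm, hS]

/-- a closed walk with one value and height `2` -/
lemma run_const_two {w : List (Bool × B)} {c : B} (h : ∀ p ∈ w, p.2 = c) {S : ℕ → B}
    (h2 : ht w = 2) (hr : Run w S S) : ∀ j, S j = c := by
  have h1 := run_eff h hr
  rw [h2] at h1
  have key : ∀ m, S (2 * m) = c ∧ S (2 * m + 1) = c := by
    intro m
    induction m with
    | zero => exact ⟨h1.low 0 (by norm_num), h1.low 1 (by norm_num)⟩
    | succ m ih =>
      refine ⟨?_, ?_⟩
      · rw [← h1.sh (2 * m) (2 * (m + 1)) (by push_cast; ring)]; exact ih.1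
      · rw [← h1.sh (2 * m + 1) (2 * (m + 1) + 1) (by push_cast; ring)]; exact ih.2
  intro j
  obtain ⟨m, rfl | rfl⟩ : ∃ m, j = 2 * m ∨ j = 2 * m + 1 := ⟨j / 2, by omega⟩
  · exact (key m).1
  · exact (key m).2

lemma run_pops (S : ℕ → B) (m : ℕ) :
    Run ((List.range m).map fun i => (true, S i)) S (fun j => S (j + m)) := by
  induction m with
  | zero => rfl
  | succ m ih =>
    rw [List.range_succ, List.map_append, run_append]
    refine ⟨_, ih, ?_⟩
    simp only [List.map_cons, List.map_nil, run_pop, run_nil]
    refine ⟨by rw [Nat.zero_add], ?_⟩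
    funext j
    show S (j + 1 + m) = S (j + (m + 1))
    congr 1
    omega

lemma run_pushes (S' : ℕ → B) (m : ℕ) : ∀ S : ℕ → B, (∀ j, S' (j + m) = S j) →
    Run ((List.range m).reverse.map fun i => (false, S' i)) S S' := by
  induction m with
  | zero =>
    intro S h
    show S = S'
    funext j
    exact (h j).symm
  | succ m ih =>
    intro S h
    rw [List.range_succ, List.reverse_append, List.reverse_singleton, List.singleton_append,
      List.map_cons, run_push]
    refine ih _ ?_
    intro j
    cases j with
    | zero => simp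
    | succ j =>
      rw [push_succ, ← h j]
      congr 1
      omega

/-! ## Stack functions -/

open Classical in
/-- the value of a proposition -/
noncomputable def ind (p : Prop) : B := if p then 1 else 0

lemma ind_iff {p q : Prop} : ind p = ind q ↔ (p ↔ q) := by
  classical
  unfold ind
  by_cases hp : p <;> by_cases hq : q <;> simp [hp, hq]

lemma ind_congr {p q : Prop} (h : p ↔ q) : ind p = ind q := ind_iff.2 h

variable {D : Type*}

/-- the stack after a dart -/
noncomputable def stk (T : D → ℕ → Prop) (x : D) : ℕ → B := fun j => ind (T x j)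

/-- the word of a dart -/
noncomputable def dw (E : Equiv.Perm D) (v : D → ℤ) (T : D → ℕ → Prop) (y : D) :
    List (Bool × B) :=
  if 0 ≤ v y then (List.range (v y).toNat).map fun i => (true, ind (T (E.symm y) i))
  else (List.range (-v y).toNat).reverse.map fun i => (false, ind (T y i))

section

variable {E : Equiv.Perm D} {τ : D → D} {v : D → ℤ} {T : D → ℕ → Prop}

/-- the walk along one dart -/
lemma run_dart (h : TS E τ v T) (y : D) : Run (dw E v T y) (stk T (E.symm y)) (stk T y) := by
  unfold dw
  split_ifs with h0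
  · have h1 := run_pops (stk T (E.symm y)) (v y).toNat
    have h2 : stk T y = fun j => stk T (E.symm y) (j + (v y).toNat) := ?_
    · rw [h2]; exact h1
    funext j
    refine ind_congr ?_
    have := h.st (E.symm y) j (j + (v y).toNat) (by rw [Equiv.apply_symm_apply]; push_cast; omega)
    rwa [Equiv.apply_symm_apply] at this
  · refine run_pushes (stk T y) (-v y).toNat _ ?_
    intro j
    refine ind_congr ?_
    have := h.st (E.symm y) (j + (-v y).toNat) j (by rw [Equiv.apply_symm_apply]; push_cast; omega)
    rwa [Equiv.apply_symm_apply] at this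

lemma dw_zero {y : D} (h : v y = 0) : dw E v T y = [] := by
  unfold dw; rw [if_pos (by omega), h]; rfl

lemma dw_one {y : D} (h : v y = 1) : dw E v T y = [(true, ind (T (E.symm y) 0))] := by
  unfold dw; rw [if_pos (by omega), h]; rfl

lemma dw_neg_one {y : D} (h : v y = -1) : dw E v T y = [(false, ind (T y 0))] := by
  unfold dw; rw [if_neg (by omega), h]; rfl

lemma dw_two {y : D} (h : v y = 2) :
    dw E v T y = [(true, ind (T (E.symm y) 0)), (true, ind (T (E.symm y) 1))] := by
  unfold dw; rw [if_pos (by omega), h]; rfl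

lemma dw_neg_two {y : D} (h : v y = -2) :
    dw E v T y = [(false, ind (T y 1)), (false, ind (T y 0))] := by
  unfold dw; rw [if_neg (by omega), h]; rfl

lemma ht_dw (y : D) : ht (dw E v T y) = v y := by
  unfold dw
  split_ifs with h0
  · simp only [ht, List.map_map]
    rw [show ((fun p : Bool × B => if p.1 = true then (1 : ℤ) else -1) ∘
      fun i : ℕ => (true, ind (T (E.symm y) i))) = fun _ => (1 : ℤ) from rfl]
    simp only [List.map_const', List.sum_replicate, List.length_range, nsmul_eq_mul]
    omega
  · simp only [ht, List.map_map]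
    rw [show ((fun p : Bool × B => if p.1 = true then (1 : ℤ) else -1) ∘
      fun i : ℕ => (false, ind (T y i))) = fun _ => (-1 : ℤ) from rfl]
    simp only [List.map_const', List.sum_replicate, List.length_reverse, List.length_range,
      nsmul_eq_mul]
    omega

/-- the word of the darts `E x, ..., E ^ n x` -/
noncomputable def iw (E : Equiv.Perm D) (v : D → ℤ) (T : D → ℕ → Prop) (x : D) :
    ℕ → List (Bool × B)
  | 0 => []
  | n + 1 => iw E v T x n ++ dw E v T ((⇑E)^[n + 1] x)

/-- the walk along an interval -/
lemma run_iw (h : TS E τ v T) (x : D) (n : ℕ) :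
    Run (iw E v T x n) (stk T x) (stk T ((⇑E)^[n] x)) := by
  induction n with
  | zero => rfl
  | succ n ih =>
    rw [iw, run_append]
    refine ⟨_, ih, ?_⟩
    have h1 := run_dart h ((⇑E)^[n + 1] x)
    rw [Function.iterate_succ_apply', Equiv.symm_apply_apply] at h1
    rw [Function.iterate_succ_apply']
    exact h1

/-- darts without strands -/
lemma stk_idle (h : TS E τ v T) {y : D} (hy : v y = 0) : stk T y = stk T (E.symm y) := by
  have h1 := run_dart h y
  rw [dw_zero hy] at h1
  exact h1.symm

/-- lanes, pops -/
lemma lane_pop (h : TS E τ v T) {y : D} {i j : ℕ} (hij : (i : ℤ) + j + 1 = v y) :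
    ind (T (E.symm y) i) = ind (T (E.symm (τ y)) j) := ind_congr (h.pop y i j hij)

/-- lanes, pushes -/
lemma lane_push (h : TS E τ v T) {y : D} {i j : ℕ} (hij : (i : ℤ) + j + 1 = -v y) :
    ind (T y i) = ind (T (τ y) j) := ind_congr (h.push y i j hij)

end

/-! ## Deep strands -/

lemma deep_of_iff {T : D → ℕ → Prop} {x : D} {ρ : Prop} {K : ℕ} (h : ∀ j, K ≤ j → (T x j ↔ ρ)) :
    Deep (stk T x) := ⟨K, ind ρ, fun j hj => ind_congr (h j hj)⟩

/-! ## Walks from the walks of the units -/

/-- the walk along a node from the walks along its units; `a u` and `b u` are the stacks before and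
after the unit `u` -/
lemma Sig.run_W {P U : Type*} (G : Sig P U) {V : P → B} {st : U → Bool} {a b : U → ℕ → B} :
    ∀ {us : List U} {u₀ : U}, (∀ u ∈ u₀ :: us, Run (G.wd V st u) (a u) (b u)) →
      List.IsChain (fun u w => b u = a w) (u₀ :: us) →
      Run (G.W V st (u₀ :: us)) (a u₀) (b ((u₀ :: us).getLast (List.cons_ne_nil _ _))) := by
  intro us
  induction us with
  | nil =>
    intro u₀ h _
    have := h u₀ List.mem_cons_self
    simpa [Sig.W] using this
  | cons u us ih =>
    intro u₀ h hc
    rw [Sig.W_cons, run_append]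
    rw [List.isChain_cons_cons] at hc
    refine ⟨a u, hc.1 ▸ h u₀ List.mem_cons_self, ?_⟩
    rw [List.getLast_cons (List.cons_ne_nil _ _)]
    exact ih (fun w hw => h w (List.mem_cons_of_mem _ hw)) hc.2

end Pool.Agent.MP42.U
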