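import Pool.Agent.MP42.U.SU

/-!
# Words read backwards
-/

set_option autoImplicit false

namespace Pool.Agent.MP42.U

variable {T : Type*}

/-- the word read backwards -/
def bw (w : List (Bool × T)) : List (Bool × T) := (w.map fun q => (!q.1, q.2)).reverse

@[simp] lemma bw_nil : bw ([] : List (Bool × T)) = [] := rfl

lemma bw_append (w w' : List (Bool × T)) : bw (w ++ w') = bw w' ++ bw w := by
  unfold bw
  rw [List.map_append, List.reverse_append]

lemma bw_cons (q : Bool × T) (w : List (Bool × T)) : bw (q :: w) = bw w ++ [(!q.1, q.2)] := by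
  unfold bw
  rw [List.map_cons, List.reverse_cons]

lemma bw_bw (w : List (Bool × T)) : bw (bw w) = w := by
  induction w with
  | nil => rfl
  | cons q w ih => rw [bw_cons, bw_append, ih]; simp [bw]

lemma hl_bw (w : List (Bool × T)) : hl (bw w) = -hl w := by
  induction w with
  | nil => rfl
  | cons q w ih =>
    rw [bw_cons, hl_append, ih]
    rcases q with ⟨b, t⟩
    cases b <;> simp [hl] <;> ring

lemma mem_bw {w : List (Bool × T)} {q : Bool × T} : q ∈ bw w ↔ (!q.1, q.2) ∈ w := by
  unfold bw
  rw [List.mem_reverse, List.mem_map]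
  constructor
  · rintro ⟨⟨b, t⟩, h, rfl⟩
    simpa using h
  · intro h
    exact ⟨_, h, by simp⟩

lemma bw_map {T' : Type*} (f : T → T') (w : List (Bool × T)) :
    bw (w.map fun q => (q.1, f q.2)) = (bw w).map fun q => (q.1, f q.2) := by
  unfold bw
  rw [List.map_reverse, List.map_map, List.map_map]
  rfl

lemma bw_flatMap {I : Type*} (f : I → List (Bool × T)) (l : List I) :
    bw (l.flatMap f) = l.reverse.flatMap fun i => bw (f i) := by
  induction l with
  | nil => rfl
  | cons i l ih =>
    rw [List.flatMap_cons, bw_append, ih, List.reverse_cons, List.flatMap_append]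
    simp

lemma lv_bw (V : T → B) (w : List (Bool × T)) : lv V (bw w) = bw (lv V w) := by
  unfold lv
  rw [← bw_map]

/-- the walk backwards -/
lemma run_bw {w : List (Bool × B)} : ∀ {S S' : ℕ → B}, Run w S S' → Run (bw w) S' S := by
  induction w with
  | nil =>
    intro S S' h
    exact h.symm
  | cons q w ih =>
    intro S S' h
    obtain ⟨b, a⟩ := q
    rw [bw_cons, run_append]
    cases b with
    | false =>
      refine ⟨push a S, ih h, ?_⟩
      exact ⟨rfl, rfl⟩
    | true =>
      obtain ⟨h1, h2⟩ := h
      refine ⟨tl S, ih h2, ?_⟩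
      show push a (tl S) = S
      rw [h1]
      exact push_tl S

lemma Cl.bw {V : T → B} {w : List (Bool × T)} (h : Cl V w) : Cl V (bw w) := by
  obtain ⟨S, h1, h2⟩ := h
  refine ⟨S, ?_, h2⟩
  rw [lv_bw]
  exact run_bw h1

end Pool.Agent.MP42.U
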