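import Pool.Agent.MP42.U.SU

/-!
# Words with nested cells

`BT T`: items = token with a letter, even child (far lane, near lane), cell (first token, items,
closing port).  `BT.ws s on m` = the full lettered word of a list of items, `BT.rs s on m` = the word
without the cells, `BT.cells m` = all cells nested anywhere.  `BT.cl_ws`: a closed walk along the full
word is a closed walk along the word without cells and along the virtual circle of every cell.
-/

set_option autoImplicit false

namespace Pool.Agent.MP42.U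

variable {T : Type*}

/-- a word which does not go below the first `a` entries: the run depends only on them -/
lemma run_loc {V : T → B} {w : List (Bool × T)} : ∀ {a b : ℕ} {S S' R : ℕ → B},
    (∀ u v, w = u ++ v → hl u ≤ a) → (b : ℤ) = a - hl w → Run (lv V w) S S' →
    (∀ j, j < a → R j = S j) → ∃ R', Run (lv V w) R R' ∧ (∀ j, j < b → R' j = S' j) ∧
      (∀ j, R' (j + b) = R (j + a)) ∧ ∀ j, S' (j + b) = S (j + a) := by
  induction w with
  | nil =>
    intro a b S S' R _ hb h hR
    have h' : S = S' := h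
    subst h'
    have e : b = a := by
      rw [hl_nil, sub_zero] at hb
      exact_mod_cast hb
    subst e
    exact ⟨R, rfl, hR, fun j => rfl, fun j => rfl⟩
  | cons q w ih =>
    obtain ⟨c, t⟩ := q
    intro a b S S' R hp hb h hR
    cases c
    · have hb' : (b : ℤ) = ((a + 1 : ℕ) : ℤ) - hl w := by
        rw [hb, hl_cons]; push_cast; norm_num; ring
      have hp' : ∀ u v, w = u ++ v → hl u ≤ ((a + 1 : ℕ) : ℤ) := by
        intro u v huv
        have := hp ((false, t) :: u) v (by rw [huv]; rfl)
        rw [hl_cons] at this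
        simp at this
        push_cast
        linarith
      have h' : Run (lv V w) (push (V t) S) S' := h
      obtain ⟨R', h1, h2, h3, h4⟩ := ih (R := push (V t) R) hp' hb' h' (by
        intro j hj
        cases j with
        | zero => rfl
        | succ j => exact hR j (by omega))
      exact ⟨R', h1, h2, fun j => h3 j, fun j => h4 j⟩
    · have h1 := hp [(true, t)] w rfl
      have ha : 1 ≤ a := by
        simp at h1
        exact_mod_cast h1
      obtain ⟨a, rfl⟩ : ∃ k, a = k + 1 := ⟨a - 1, by omega⟩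
      have hb' : (b : ℤ) = (a : ℤ) - hl w := by
        rw [hb, hl_cons]; push_cast; norm_num; ring
      have hp' : ∀ u v, w = u ++ v → hl u ≤ (a : ℤ) := by
        intro u v huv
        have := hp ((true, t) :: u) v (by rw [huv]; rfl)
        rw [hl_cons] at this
        simp at this
        push_cast at this
        linarith
      have h' : V t = S 0 ∧ Run (lv V w) (tl S) S' := h
      obtain ⟨R', h2, h3, h4, h5⟩ := ih (R := tl R) hp' hb' h'.2 (fun j hj => hR (j + 1) (by omega))
      refine ⟨R', ?_, h3, fun j => ?_, fun j => ?_⟩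
      · exact ⟨by rw [h'.1, hR 0 (by omega)], h2⟩
      · rw [h4]; rfl
      · rw [h5]; rfl

/-- a cell `f W x`, `W` of height zero with partial sums at most one: the walk is trivial, and `V`
solves the virtual circle `[f] W [x]` -/
lemma run_cell {V : T → B} {w : List (Bool × T)} {f x : T} {S S' : ℕ → B} (h0 : hl w = 0)
    (hp : ∀ u v, w = u ++ v → hl u ≤ 1) (h : Run (lv V ((false, f) :: (w ++ [(true, x)]))) S S') :
    S = S' ∧ Cl V ((true, f) :: (w ++ [(true, x)])) := by
  have h1 : Run (lv V w ++ lv V [(true, x)]) (push (V f) S) S' := by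
    rw [← lv_append]; exact h
  obtain ⟨S2, h2, h3⟩ := run_append.1 h1
  have h4 : V x = S2 0 ∧ tl S2 = S' := h3
  obtain ⟨R', h5, h6, h7, h8⟩ := run_loc (a := 1) (b := 1) (R := fun _ => V f)
    (by exact_mod_cast hp) (by rw [h0]; simp) h2 (by
      intro j hj
      have : j = 0 := by omega
      subst this; rfl)
  constructor
  · rw [← h4.2]
    funext j
    rw [tl_apply, h8]
    rfl
  · refine ⟨fun _ => V f, ?_, 0, V f, fun _ _ => rfl⟩
    rw [lv_cons, lv_append]
    refine ⟨rfl, ?_⟩
    have e : tl (fun _ : ℕ => V f) = fun _ => V f := rfl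
    rw [e, run_append]
    refine ⟨R', h5, ?_, ?_⟩
    · show V x = R' 0
      rw [h6 0 (by omega), h4.1]
    · show tl R' = _
      funext j
      rw [tl_apply, h7]

/-- items of a cell: token with a letter, even child, cell (its items as a function on `Fin n`; use
`BT.br`, with a list of items) -/
inductive BT (T : Type*) where
  | u : T → BT T
  | e : T → T → BT T
  | brf : T → (n : ℕ) → (Fin n → BT T) → T → BT T

namespace BT

/-- a cell with a list of items -/
def br (f : T) (m : List (BT T)) (x : T) : BT T := .brf f m.length m.get x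

theorem exb (f x : T) (n : ℕ) (g : Fin n → BT T) : BT.brf f n g x = br f (List.ofFn g) x := by
  obtain ⟨m, rfl, hm⟩ : ∃ m : List (BT T), ∃ h : m.length = n, ∀ k, m.get (k.cast h.symm) = g k :=
    ⟨List.ofFn g, by simp, fun k => by simp⟩
  have e : m.get = g := funext hm
  subst e
  rw [List.ofFn_get]
  rfl

theorem br_inj {f f' x x' : T} {m m' : List (BT T)} :
    br f m x = br f' m' x' ↔ f = f' ∧ m = m' ∧ x = x' := by
  constructor
  · intro h
    unfold br at h
    injection h with h1 h2 h3 h4
    refine ⟨h1, ?_, h4⟩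
    have h5 : List.ofFn m.get = List.ofFn m'.get := by
      congr 1
    rwa [List.ofFn_get, List.ofFn_get] at h5
  · rintro ⟨rfl, rfl, rfl⟩
    rfl

/-- recursion on items: the value of a cell from its items with their values -/
def rc {A : Type*} (fu : T → A) (fe : T → T → A) (fb : T → List (BT T × A) → T → A) : BT T → A
  | .u t => fu t
  | .e a b => fe a b
  | .brf f _ g x => fb f (List.ofFn fun k => (g k, rc fu fe fb (g k))) x

theorem rc_br {A : Type*} {fu : T → A} {fe : T → T → A} {fb : T → List (BT T × A) → T → A}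
    (f x : T) (m : List (BT T)) :
    rc fu fe fb (br f m x) = fb f (m.map fun i => (i, rc fu fe fb i)) x := by
  have e : (List.ofFn fun k => (m.get k, rc fu fe fb (m.get k))) =
      m.map fun i => (i, rc fu fe fb i) := by
    conv_rhs => rw [← List.ofFn_get m, List.map_ofFn]
    rfl
  rw [← e]
  rfl

theorem ind {P : BT T → Prop} {Q : List (BT T) → Prop} (hu : ∀ t, P (.u t))
    (he : ∀ a b, P (.e a b)) (hb : ∀ f m x, Q m → P (br f m x)) (hn : Q [])
    (hc : ∀ i m, P i → Q m → Q (i :: m)) : (∀ i, P i) ∧ ∀ m, Q m := by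
  have h0 : ∀ m : List (BT T), (∀ i ∈ m, P i) → Q m := by
    intro m
    induction m with
    | nil => intro _; exact hn
    | cons i m ih =>
      intro h
      exact hc i m (h i (by simp)) (ih fun j hj => h j (by simp [hj]))
  have h1 : ∀ i, P i := by
    intro i
    induction i with
    | u t => exact hu t
    | e a b => exact he a b
    | brf f n g x ih =>
      rw [exb]
      apply hb
      apply h0
      intro i hi
      obtain ⟨k, rfl⟩ := (List.mem_ofFn' _ _).1 hi
      exact ih k
  exact ⟨h1, fun m => h0 m fun i _ => h1 i⟩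

@[elab_as_elim, cases_eliminator]
theorem cs {P : BT T → Prop} (i : BT T) (u : ∀ t, P (.u t)) (e : ∀ a b, P (.e a b))
    (br : ∀ f m x, P (.br f m x)) : P i :=
  (ind (Q := fun _ => True) u e (fun f m x _ => br f m x) trivial fun _ _ _ _ => trivial).1 i

@[simp] theorem br_ne_u {f x t : T} {m : List (BT T)} : br f m x ≠ .u t := by
  intro h
  unfold br at h
  injection h

@[simp] theorem br_ne_e {f x a b : T} {m : List (BT T)} : br f m x ≠ .e a b := by
  intro h
  unfold br at h
  injection h

@[simp] theorem u_ne_br {f x t : T} {m : List (BT T)} : .u t ≠ br f m x := br_ne_u.symm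

@[simp] theorem e_ne_br {f x a b : T} {m : List (BT T)} : .e a b ≠ br f m x := br_ne_e.symm

/-- the full lettered word of an item -/
def w (s on : T → Bool) : BT T → List (Bool × T) :=
  rc (fun t => [(s t, t)]) (fun a b => if on a then [(true, a), (false, b)] else [])
    fun f m x => (false, f) :: (m.flatMap Prod.snd ++ [(true, x)])

/-- the full lettered word of a list of items -/
def ws (s on : T → Bool) (m : List (BT T)) : List (Bool × T) := m.flatMap (w s on)

/-- the lettered word of an item, cells deleted -/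
def r1 (s on : T → Bool) : BT T → List (Bool × T)
  | .u t => [(s t, t)]
  | .e a b => if on a then [(true, a), (false, b)] else []
  | .brf _ _ _ _ => []

@[simp] lemma r1_u (s on : T → Bool) (t : T) : r1 s on (.u t) = [(s t, t)] := rfl

@[simp] lemma r1_e (s on : T → Bool) (a b : T) :
    r1 s on (.e a b) = if on a then [(true, a), (false, b)] else [] := rfl

@[simp] lemma r1_br (s on : T → Bool) (f x : T) (m : List (BT T)) : r1 s on (.br f m x) = [] := rfl

/-- the lettered word of a list of items, cells deleted -/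
def rs (s on : T → Bool) (m : List (BT T)) : List (Bool × T) := m.flatMap (r1 s on)

/-- the cells of an item -/
def cell : BT T → List (T × List (BT T) × T) :=
  rc (fun _ => []) (fun _ _ => []) fun f m x => (f, m.map Prod.fst, x) :: m.flatMap Prod.snd

/-- the cells of a list of items -/
def cells (m : List (BT T)) : List (T × List (BT T) × T) := m.flatMap cell

/-- nesting depth -/
def dep : BT T → ℕ := rc (fun _ => 0) (fun _ _ => 0) fun _ m _ => (m.map Prod.snd).foldr max 0 + 1

/-- nesting depth -/
def deps (m : List (BT T)) : ℕ := (m.map dep).foldr max 0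

@[simp] lemma rs_nil (s on : T → Bool) : rs s on ([] : List (BT T)) = [] := rfl

@[simp] lemma rs_cons (s on : T → Bool) (i : BT T) (m : List (BT T)) :
    rs s on (i :: m) = r1 s on i ++ rs s on m := rfl

@[simp] lemma rs_append (s on : T → Bool) (m m' : List (BT T)) :
    rs s on (m ++ m') = rs s on m ++ rs s on m' := by simp [rs]

lemma ws_nil (s on : T → Bool) : ws s on ([] : List (BT T)) = [] := rfl

lemma ws_cons (s on : T → Bool) (i : BT T) (m : List (BT T)) :
    ws s on (i :: m) = w s on i ++ ws s on m := rfl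

lemma ws_append (s on : T → Bool) (m m' : List (BT T)) :
    ws s on (m ++ m') = ws s on m ++ ws s on m' := by
  induction m with
  | nil => rw [ws_nil]; rfl
  | cons i m ih => rw [List.cons_append, ws_cons, ws_cons, ih, List.append_assoc]

lemma w_br (s on : T → Bool) (f x : T) (m : List (BT T)) :
    w s on (.br f m x) = (false, f) :: (ws s on m ++ [(true, x)]) := by
  unfold w
  rw [rc_br, List.flatMap_map]
  rfl

lemma w_u (s on : T → Bool) (t : T) : w s on (.u t) = [(s t, t)] := rfl

lemma w_e (s on : T → Bool) (a b : T) :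
    w s on (.e a b) = if on a then [(true, a), (false, b)] else [] := rfl

lemma cells_nil : cells ([] : List (BT T)) = [] := rfl

lemma cells_cons (i : BT T) (m : List (BT T)) : cells (i :: m) = cell i ++ cells m := rfl

lemma cells_append (m m' : List (BT T)) : cells (m ++ m') = cells m ++ cells m' := by
  induction m with
  | nil => rw [cells_nil]; rfl
  | cons i m ih => rw [List.cons_append, cells_cons, cells_cons, ih, List.append_assoc]

lemma cell_br (f x : T) (m : List (BT T)) : cell (.br f m x) = (f, m, x) :: cells m := by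
  unfold cell
  rw [rc_br, List.flatMap_map, List.map_map]
  exact congrArg₂ List.cons (by rw [show (Prod.fst ∘ fun i : BT T => (i, rc (fun _ => []) (fun _ _ => [])
    (fun f m x => (f, m.map Prod.fst, x) :: m.flatMap Prod.snd) i)) = (id : BT T → BT T) from rfl, List.map_id]) rfl

lemma cell_u (t : T) : cell (.u t) = [] := rfl

lemma cell_e (a b : T) : cell (.e a b) = [] := rfl

/-- the conditions on a cell: height zero, partial sums between `-d` and `1` -/
structure Good (s on : T → Bool) (d : ℤ) (c : T × List (BT T) × T) : Prop where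
  h0 : hl (rs s on c.2.1) = 0
  up : ∀ u v, rs s on c.2.1 = u ++ v → hl u ≤ 1
  lo : ∀ u v, rs s on c.2.1 = u ++ v → -d ≤ hl u

/-- the virtual circle of a cell -/
def vc (s on : T → Bool) (c : T × List (BT T) × T) : List (Bool × T) :=
  (true, c.1) :: (rs s on c.2.1 ++ [(true, c.2.2)])

variable {s on : T → Bool} {d : ℤ}

theorem run_w_ws (V : T → B) : (∀ (i : BT T), (∀ c ∈ cell i, Good s on d c) → ∀ {S S' : ℕ → B},
    Run (lv V (w s on i)) S S' → Run (lv V (r1 s on i)) S S' ∧ ∀ c ∈ cell i, Cl V (vc s on c)) ∧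
    ∀ (m : List (BT T)), (∀ c ∈ cells m, Good s on d c) →
    ∀ {S S' : ℕ → B}, Run (lv V (ws s on m)) S S' → Run (lv V (rs s on m)) S S' ∧
      ∀ c ∈ cells m, Cl V (vc s on c) := by
  refine ind ?_ ?_ ?_ ?_ ?_
  · intro t _ S S' h
    rw [w_u] at h
    rw [cell_u]
    exact ⟨h, by simp⟩
  · intro a b _ S S' h
    rw [w_e] at h
    rw [cell_e]
    exact ⟨h, by simp⟩
  · intro f m x run_ws hG S S' h
    rw [cell_br] at hG
    have hG' : ∀ c ∈ cells m, Good s on d c := fun c hc => hG c (List.mem_cons_of_mem _ hc)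
    have h0 := hG (f, m, x) List.mem_cons_self
    rw [w_br, lv_cons, lv_append] at h
    have h1 : Run (lv V (ws s on m) ++ lv V [(true, x)]) (push (V f) S) S' := h
    obtain ⟨S2, h2, h3⟩ := run_append.1 h1
    obtain ⟨h4, h5⟩ := run_ws hG' h2
    have h6 : Run (lv V ((false, f) :: (rs s on m ++ [(true, x)]))) S S' := by
      rw [lv_cons, lv_append]
      show Run (lv V (rs s on m) ++ lv V [(true, x)]) (push (V f) S) S'
      exact run_append.2 ⟨S2, h4, h3⟩
    obtain ⟨h7, h8⟩ := run_cell h0.h0 h0.up h6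
    refine ⟨h7, ?_⟩
    rw [cell_br]
    intro c hc
    rcases List.mem_cons.1 hc with rfl | hc
    · exact h8
    · exact h5 c hc
  · intro _ S S' h
    rw [ws_nil] at h
    rw [cells_nil]
    exact ⟨h, by simp⟩
  · intro i m run_w run_ws hG S S' h
    rw [cells_cons] at hG
    rw [ws_cons, lv_append] at h
    obtain ⟨S1, h1, h2⟩ := run_append.1 h
    obtain ⟨h3, h4⟩ := run_w (fun c hc => hG c (List.mem_append_left _ hc)) h1
    obtain ⟨h5, h6⟩ := run_ws (fun c hc => hG c (List.mem_append_right _ hc)) h2
    refine ⟨?_, ?_⟩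
    · rw [rs_cons, lv_append]
      exact run_append.2 ⟨S1, h3, h5⟩
    · rw [cells_cons]
      intro c hc
      rcases List.mem_append.1 hc with hc | hc
      · exact h4 c hc
      · exact h6 c hc

theorem run_w (V : T → B) (i : BT T) (hG : ∀ c ∈ cell i, Good s on d c) {S S' : ℕ → B}
    (h : Run (lv V (w s on i)) S S') :
    Run (lv V (r1 s on i)) S S' ∧ ∀ c ∈ cell i, Cl V (vc s on c) := (run_w_ws V).1 i hG h

theorem run_ws (V : T → B) (m : List (BT T)) (hG : ∀ c ∈ cells m, Good s on d c) {S S' : ℕ → B}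
    (h : Run (lv V (ws s on m)) S S') : Run (lv V (rs s on m)) S S' ∧
      ∀ c ∈ cells m, Cl V (vc s on c) := (run_w_ws V).2 m hG h

/-- **a closed walk along the full word solves the reduced word and all virtual circles** -/
theorem cl_ws {V : T → B} {o : List (Bool × T)} {m : List (BT T)}
    (hG : ∀ c ∈ cells m, Good s on d c) (h : Cl V (o ++ ws s on m)) :
    Cl V (o ++ rs s on m) ∧ ∀ c ∈ cells m, Cl V (vc s on c) := by
  obtain ⟨S, h1, h2⟩ := h
  rw [lv_append] at h1
  obtain ⟨S1, h3, h4⟩ := run_append.1 h1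
  obtain ⟨h5, h6⟩ := run_ws V m hG h4
  refine ⟨⟨S, ?_, h2⟩, h6⟩
  rw [lv_append]
  exact run_append.2 ⟨S1, h3, h5⟩

theorem hl_w_ws : (∀ (i : BT T), (∀ c ∈ cell i, Good s on d c) → hl (w s on i) = hl (r1 s on i)) ∧
    ∀ (m : List (BT T)), (∀ c ∈ cells m, Good s on d c) → hl (ws s on m) = hl (rs s on m) := by
  refine ind ?_ ?_ ?_ ?_ ?_
  · intro t _
    rw [w_u]; rfl
  · intro a b _
    rw [w_e]; rfl
  · intro f m x hl_ws hG
    rw [cell_br] at hG
    have h0 := (hG (f, m, x) List.mem_cons_self).h0
    have h1 := hl_ws fun c hc => hG c (List.mem_cons_of_mem _ hc)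
    rw [w_br, hl_cons, hl_append, h1]
    show _ = hl ([] : List (Bool × T))
    have h2 : hl (rs s on m) = 0 := h0
    rw [h2]
    simp
  · intro _
    rw [ws_nil]; rfl
  · intro i m hl_w hl_ws hG
    rw [cells_cons] at hG
    rw [ws_cons, rs_cons, hl_append, hl_append,
      hl_w (fun c hc => hG c (List.mem_append_left _ hc)),
      hl_ws (fun c hc => hG c (List.mem_append_right _ hc))]

theorem hl_w (i : BT T) (h : ∀ c ∈ cell i, Good s on d c) : hl (w s on i) = hl (r1 s on i) :=
  hl_w_ws.1 i h

theorem hl_ws (m : List (BT T)) (h : ∀ c ∈ cells m, Good s on d c) :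
    hl (ws s on m) = hl (rs s on m) := hl_w_ws.2 m h

lemma deps_nil : deps ([] : List (BT T)) = 0 := rfl

lemma deps_cons (i : BT T) (m : List (BT T)) : deps (i :: m) = max (dep i) (deps m) := rfl

lemma dep_br (f x : T) (m : List (BT T)) : dep (.br f m x) = deps m + 1 := by
  unfold dep
  rw [rc_br, List.map_map]
  rfl

lemma dep_u (t : T) : dep (BT.u t) = 0 := rfl

lemma dep_e (a b : T) : dep (BT.e a b) = 0 := rfl

theorem pre_w_ws (hd : 0 ≤ d) : (∀ (i : BT T), (∀ c ∈ cell i, Good s on d c) →
    ∀ u v : List (Bool × T), BT.w s on i = u ++ v → ∃ u' v', BT.r1 s on i = u' ++ v' ∧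
      hl u' - (BT.dep i : ℤ) * (1 + d) ≤ hl u ∧ hl u ≤ hl u') ∧
    ∀ (m : List (BT T)), (∀ c ∈ cells m, Good s on d c) →
    ∀ u v : List (Bool × T), ws s on m = u ++ v → ∃ u' v', rs s on m = u' ++ v' ∧
      hl u' - (deps m : ℤ) * (1 + d) ≤ hl u ∧ hl u ≤ hl u' := by
  refine ind ?_ ?_ ?_ ?_ ?_
  · intro t _ u v h
    rw [w_u] at h
    refine ⟨u, v, h, ?_, le_rfl⟩
    rw [dep_u]; simp
  · intro a b _ u v h
    rw [w_e] at h
    refine ⟨u, v, h, ?_, le_rfl⟩
    rw [dep_e]; simp
  · intro f m x pre_ws hG u v h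
    rw [cell_br] at hG
    have h0 := hG (f, m, x) List.mem_cons_self
    have hG' : ∀ c ∈ cells m, Good s on d c := fun c hc => hG c (List.mem_cons_of_mem _ hc)
    refine ⟨[], [], rfl, ?_⟩
    rw [dep_br, hl_nil]
    rw [w_br] at h
    have key : -(((deps m + 1 : ℕ) : ℤ) * (1 + d)) ≤ hl u ∧ hl u ≤ 0 := by
      have hpos : (0 : ℤ) ≤ ((deps m + 1 : ℕ) : ℤ) * (1 + d) := by positivity
      cases u with
      | nil => rw [hl_nil]; constructor <;> linarith
      | cons q u =>
        simp only [List.cons_append, List.cons.injEq] at h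
        obtain ⟨rfl, h⟩ := h
        rw [hl_cons]
        rcases List.append_eq_append_iff.1 h with ⟨z, h1, h2⟩ | ⟨z, h1, h2⟩
        · -- u = ws m ++ z, [x] = z ++ v
          have h3 : hl u = hl (rs s on m) + hl z := by rw [h1, hl_append, hl_ws m hG']
          have h4 : hl (rs s on m) = 0 := h0.h0
          have h5 : 0 ≤ hl z ∧ hl z ≤ 1 := by
            cases z with
            | nil => simp
            | cons p z =>
              simp only [List.cons_append, List.cons.injEq] at h2
              obtain ⟨rfl, h6⟩ := h2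
              have h7 : z = [] := (List.append_eq_nil_iff.1 h6.symm).1
              rw [h7]; simp
          rw [h3, h4]
          push_cast
          simp
          constructor
          · have : (0 : ℤ) ≤ (deps m : ℤ) * (1 + d) := by positivity
            nlinarith
          · linarith
        · -- ws m = u ++ z
          obtain ⟨u', v', h3, h4, h5⟩ := pre_ws hG' u z h1
          have h6 := h0.up u' v' h3
          have h7 := h0.lo u' v' h3
          push_cast
          simp
          constructor
          · nlinarith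
          · linarith
    constructor
    · linarith [key.1]
    · exact key.2
  · intro _ u v h
    rw [ws_nil] at h
    obtain ⟨rfl, rfl⟩ := List.append_eq_nil_iff.1 h.symm
    exact ⟨[], [], rfl, by rw [deps_nil]; simp, le_rfl⟩
  · intro i m pre_w pre_ws hG u v h
    rw [cells_cons] at hG
    have hGi : ∀ c ∈ cell i, Good s on d c := fun c hc => hG c (List.mem_append_left _ hc)
    have hGm : ∀ c ∈ cells m, Good s on d c := fun c hc => hG c (List.mem_append_right _ hc)
    rw [ws_cons] at h
    rw [deps_cons]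
    have h8 : (0 : ℤ) ≤ 1 + d := by linarith
    have h9 : ((dep i : ℕ) : ℤ) ≤ ((max (dep i) (deps m) : ℕ) : ℤ) := by
      exact_mod_cast le_max_left _ _
    have h10 : ((deps m : ℕ) : ℤ) ≤ ((max (dep i) (deps m) : ℕ) : ℤ) := by
      exact_mod_cast le_max_right _ _
    have h11 := mul_le_mul_of_nonneg_right h9 h8
    have h12 := mul_le_mul_of_nonneg_right h10 h8
    rcases List.append_eq_append_iff.1 h with ⟨z, h1, h2⟩ | ⟨z, h1, h2⟩
    · -- u = w i ++ z
      obtain ⟨u', v', h3, h4, h5⟩ := pre_ws hGm z v h2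
      refine ⟨r1 s on i ++ u', v', by rw [rs_cons, h3, List.append_assoc], ?_, ?_⟩
      · rw [h1, hl_append, hl_append, hl_w i hGi]; linarith
      · rw [h1, hl_append, hl_append, hl_w i hGi]; linarith
    · -- w i = u ++ z
      obtain ⟨u', v', h3, h4, h5⟩ := pre_w hGi u z h1
      refine ⟨u', v' ++ rs s on m, by rw [rs_cons, h3, List.append_assoc], ?_, h5⟩
      linarith

theorem pre_w (hd : 0 ≤ d) (i : BT T) (hG : ∀ c ∈ cell i, Good s on d c)
    (u v : List (Bool × T)) (h : BT.w s on i = u ++ v) : ∃ u' v', BT.r1 s on i = u' ++ v' ∧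
      hl u' - (BT.dep i : ℤ) * (1 + d) ≤ hl u ∧ hl u ≤ hl u' := (pre_w_ws hd).1 i hG u v h

theorem pre_ws (hd : 0 ≤ d) (m : List (BT T)) (hG : ∀ c ∈ cells m, Good s on d c)
    (u v : List (Bool × T)) (h : ws s on m = u ++ v) : ∃ u' v', rs s on m = u' ++ v' ∧
      hl u' - (deps m : ℤ) * (1 + d) ≤ hl u ∧ hl u ≤ hl u' := (pre_w_ws hd).2 m hG u v h

/-- **partial sums of nested words** -/
theorem par_ws {D E : ℤ} {K : ℕ} {o : List (Bool × T)} {m : List (BT T)} (hd : 0 ≤ d)
    (hG : ∀ c ∈ cells m, Good s on d c) (hK : deps m ≤ K) (h : Par D E (o ++ rs s on m)) :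
    Par (D + K * (1 + d)) E (o ++ ws s on m) := by
  intro u v huv
  have hK' : ((deps m : ℕ) : ℤ) * (1 + d) ≤ (K : ℤ) * (1 + d) :=
    mul_le_mul_of_nonneg_right (by exact_mod_cast hK) (by linarith)
  have hK0 : (0 : ℤ) ≤ (K : ℤ) * (1 + d) := by positivity
  rcases List.append_eq_append_iff.1 huv with ⟨z, h1, h2⟩ | ⟨z, h1, h2⟩
  · obtain ⟨u', v', h3, h4, h5⟩ := pre_ws hd m hG z v h2
    have h6 := h (o ++ u') v' (by rw [h3, List.append_assoc])
    rw [h1, hl_append]
    rw [hl_append] at h6
    constructor <;> linarith [h6.1, h6.2]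
  · have h6 := h u (z ++ rs s on m) (by rw [h1, List.append_assoc])
    constructor <;> linarith [h6.1, h6.2]

theorem mem_w_ws {q : Bool × T} : (∀ (i : BT T), q ∈ w s on i ↔ q ∈ r1 s on i ∨
    ∃ c ∈ cell i, q = (false, c.1) ∨ q = (true, c.2.2) ∨ q ∈ rs s on c.2.1) ∧
    ∀ (m : List (BT T)), q ∈ ws s on m ↔ q ∈ rs s on m ∨
    ∃ c ∈ cells m, q = (false, c.1) ∨ q = (true, c.2.2) ∨ q ∈ rs s on c.2.1 := by
  refine ind ?_ ?_ ?_ ?_ ?_
  · intro t
    rw [w_u, cell_u]; simp [r1]
  · intro a b
    rw [w_e, cell_e]; simp [r1]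
  · intro f m x mem_ws
    rw [w_br, cell_br, List.mem_cons, List.mem_append, mem_ws]
    simp only [r1_br, List.not_mem_nil, false_or, List.mem_cons, exists_eq_or_imp, or_false]
    generalize (∃ c ∈ cells m, q = (false, c.1) ∨ q = (true, c.2.2) ∨ q ∈ rs s on c.2.1) = P
    tauto
  · rw [ws_nil, cells_nil]; simp
  · intro i m mem_w mem_ws
    rw [ws_cons, cells_cons, rs_cons, List.mem_append, List.mem_append, mem_w, mem_ws]
    have e : (∃ c ∈ cell i ++ cells m, q = (false, c.1) ∨ q = (true, c.2.2) ∨
        q ∈ rs s on c.2.1) ↔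
        (∃ c ∈ cell i, q = (false, c.1) ∨ q = (true, c.2.2) ∨ q ∈ rs s on c.2.1) ∨
        ∃ c ∈ cells m, q = (false, c.1) ∨ q = (true, c.2.2) ∨ q ∈ rs s on c.2.1 := by
      constructor
      · rintro ⟨c, hc, h⟩
        rcases List.mem_append.1 hc with hc | hc
        · exact Or.inl ⟨c, hc, h⟩
        · exact Or.inr ⟨c, hc, h⟩
      · rintro (⟨c, hc, h⟩ | ⟨c, hc, h⟩)
        · exact ⟨c, List.mem_append_left _ hc, h⟩
        · exact ⟨c, List.mem_append_right _ hc, h⟩
    rw [e]
    generalize (∃ c ∈ cells m, q = (false, c.1) ∨ q = (true, c.2.2) ∨ q ∈ rs s on c.2.1) = P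
    generalize (∃ c ∈ cell i, q = (false, c.1) ∨ q = (true, c.2.2) ∨ q ∈ rs s on c.2.1) = Q
    clear mem_w mem_ws
    tauto

theorem mem_w {q : Bool × T} (i : BT T) : q ∈ w s on i ↔ q ∈ r1 s on i ∨
    ∃ c ∈ cell i, q = (false, c.1) ∨ q = (true, c.2.2) ∨ q ∈ rs s on c.2.1 := mem_w_ws.1 i

theorem mem_ws {q : Bool × T} (m : List (BT T)) : q ∈ ws s on m ↔ q ∈ rs s on m ∨
    ∃ c ∈ cells m, q = (false, c.1) ∨ q = (true, c.2.2) ∨ q ∈ rs s on c.2.1 := mem_w_ws.2 m

end BT

end Pool.Agent.MP42.U
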