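import Pool.Agent.MP42.U.BN

/-!
# Circles: abstract words and actual words

* `Itm`: items behind the second port of a fused circle: real even child `re`, late even child `la`,
  bracket `br`.
* `Fu`: fused circle (two ports): `l x e1 X gs tl`; `gs` = groups (items, then a free token); if the own
  link is double, then `tl = []` and the last group has the token `r`.
* `Circ`: `pl us` = circle with at most one port (units in reading order, own tokens included), `fu`,
  `gp` = circle with one port whose own link is a double group link: units `us` (first one: own token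
  `l`, one port), last free token `t`, items `g` behind it, second own token `r`; if its own link is
  dropped then `l`, `r` stay (joined with each other by the box), only the tokens at the parent vanish.
* `pre s` = abstract word without the late children, `fin pr s` = abstract word with all tokens,
  `act pr s` = actual word (only present tokens, reading order); `s` = letters of the free tokens
  (for the second own token of a double own link in a circle with port: push = own link passes),
  `pr` = present tokens.
-/

set_option autoImplicit false

namespace Pool.Agent.MP42.U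

variable {T : Type*}

/-- the items of a fused circle behind its second port -/
inductive Itm (T : Type*)
  /-- real even child -/
  | re (a b : T)
  /-- late even child -/
  | la (a b : T)
  /-- bracket -/
  | br (t x : T) (m : List (T × T))

namespace Itm

/-- the real children -/
def rep : Itm T → List (T × T)
  | re a b => [(a, b)]
  | _ => []

/-- the late children -/
def lap : Itm T → List (T × T)
  | la a b => [(a, b)]
  | _ => []

/-- the children outside brackets -/
def pairs : Itm T → List (T × T)
  | re a b => [(a, b)]
  | la a b => [(a, b)]
  | br _ _ _ => []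

/-- the brackets -/
def brp : Itm T → List (BU T)
  | br t x m => [BU.br t x m]
  | _ => []

/-- the letters in reading order, all children transparent -/
def rd : Itm T → List (Bool × T)
  | re a b => [(true, a), (false, b)]
  | la a b => [(true, a), (false, b)]
  | br t x m => (false, t) :: (up m ++ [(true, x)])

/-- the tokens -/
def tks : Itm T → List T
  | re a b => [a, b]
  | la a b => [a, b]
  | br t x m => t :: (ptk m ++ [x])

/-- all children -/
def evs : Itm T → List (T × T)
  | re a b => [(a, b)]
  | la a b => [(a, b)]
  | br _ _ m => m

/-- is it a present real child? -/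
def isP (pr : T → Bool) : Itm T → Bool
  | re a _ => pr a
  | _ => false

/-- the letters of a near+near child -/
def nn : Itm T → List (Bool × T)
  | re a b => [(false, a), (false, b)]
  | _ => []

end Itm

/-- the items before the first present real child -/
def hd1 (pr : T → Bool) (m : List (Itm T)) : List (Itm T) := m.takeWhile fun i => !(i.isP pr)

/-- the items from the first present real child on -/
def hd2 (pr : T → Bool) (m : List (Itm T)) : List (Itm T) := m.dropWhile fun i => !(i.isP pr)

/-- units of a group without the late children -/
def gpre (g : List (Itm T) × T) : List (BU T) :=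
  g.1.flatMap Itm.brp ++ [BU.gu (g.1.flatMap Itm.rep) g.2]

/-- abstract word of a group with all tokens -/
def gfin (pr : T → Bool) (b : Bool) (g : List (Itm T) × T) : List (Bool × T) :=
  if b then g.1.flatMap Itm.rd ++ [(true, g.2)]
  else BU.word (fun _ => true) (g.1.flatMap Itm.brp) ++
    (up ((hd1 pr g.1).flatMap Itm.lap) ++ ((false, g.2) ::
      (dn ((hd2 pr g.1).flatMap Itm.pairs) ++ dn ((hd1 pr g.1).flatMap Itm.rep))))

/-- actual word of a group -/
def gact (pr : T → Bool) (b : Bool) (g : List (Itm T) × T) : List (Bool × T) :=
  if b then ((g.1.flatMap Itm.rd).filter fun q => pr q.2) ++ [(true, g.2)]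
  else match hd2 pr g.1 with
    | [] => ((g.1.flatMap Itm.rd).filter fun q => pr q.2) ++ (if pr g.2 then [(false, g.2)] else [])
    | i :: m => (((hd1 pr g.1).flatMap Itm.rd).filter fun q => pr q.2) ++ (i.nn ++
        (((m.flatMap Itm.rd).filter fun q => pr q.2) ++ [(true, g.2)]))

/-- a circle with two ports -/
structure Fu (T : Type*) where
  /-- own token -/
  l : T
  /-- first port -/
  x : T
  /-- units between the ports (even children and brackets) -/
  e1 : List (BU T)
  /-- second port -/
  X : T
  /-- groups -/
  gs : List (List (Itm T) × T)
  /-- items behind the last group (own link single) -/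
  tl : List (Itm T)
  /-- second own token = token of the last group -/
  r : Option T

/-- a circle -/
inductive Circ (T : Type*)
  /-- at most one port: units in reading order, own tokens included -/
  | pl (l : T) (r : Option T) (us : List (BU T))
  /-- two ports -/
  | fu (A : Fu T)
  /-- group link, one port -/
  | gp (l : T) (us : List (BU T)) (t : T) (g : List (Itm T)) (r : T)

namespace Circ

/-- own token -/
def l : Circ T → T
  | pl l _ _ => l
  | fu A => A.l
  | gp l _ _ _ _ => l

/-- second own token -/
def r : Circ T → Option T
  | pl _ r _ => r
  | fu A => A.r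
  | gp _ _ _ _ r => some r

/-- is the own link a group link which can be dropped? -/
def isGp : Circ T → Bool
  | gp _ _ _ _ _ => true
  | _ => false

/-- abstract units without the late children -/
def pus : Circ T → List (BU T)
  | pl _ _ us => us
  | fu A => BU.fx A.l :: ((BU.fx A.x :: (A.e1 ++ [BU.fx A.X])) ++
      (A.gs.flatMap gpre ++ (A.tl.flatMap Itm.brp ++
        ((A.tl.flatMap Itm.rep).map fun p => BU.ev p.1 p.2))))
  | gp _ us t g r => us ++ (g.flatMap Itm.brp ++ [BU.gv t (g.flatMap Itm.pairs), BU.fr r])

/-- abstract word without the late children -/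
def pre (s : T → Bool) (c : Circ T) : List (Bool × T) := BU.word (BU.sg s) c.pus

/-- abstract word with all tokens -/
def fin (pr : T → Bool) (s : T → Bool) : Circ T → List (Bool × T)
  | pl _ _ us => BU.word (BU.sg s) us
  | fu A => (true, A.l) :: (true, A.x) :: (BU.word (BU.sg s) A.e1 ++ ((true, A.X) ::
      ((A.gs.flatMap fun g => gfin pr (s g.2) g) ++ A.tl.flatMap Itm.rd)))
  | gp _ us t g r => BU.word (BU.sg s) (us ++ (g.flatMap Itm.brp ++
      [BU.gv t (g.flatMap Itm.pairs), BU.fr r]))

/-- actual word -/
def act (pr : T → Bool) (s : T → Bool) : Circ T → List (Bool × T)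
  | pl _ _ us => (BU.word (BU.sg s) us).filter fun q => pr q.2
  | fu A => ([((true, A.l) : Bool × T)].filter fun q => pr q.2) ++ ((true, A.x) ::
      (((BU.word (BU.sg s) A.e1).filter fun q => pr q.2) ++ ((true, A.X) ::
      ((A.gs.flatMap fun g => gact pr (s g.2) g) ++ (A.tl.flatMap Itm.rd).filter fun q => pr q.2))))
  | gp _ us t g r => (BU.word (BU.sg s) us ++ ((false, t) :: (g.flatMap Itm.rd ++
      [(true, r)]))).filter fun q => pr q.2

/-- the tokens in reading order -/
def tks : Circ T → List T
  | pl _ _ us => us.flatMap BU.tks
  | fu A => A.l :: A.x :: (A.e1.flatMap BU.tks ++ (A.X ::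
      ((A.gs.flatMap fun g => g.1.flatMap Itm.tks ++ [g.2]) ++ A.tl.flatMap Itm.tks)))
  | gp _ us t g r => us.flatMap BU.tks ++ (t :: (g.flatMap Itm.tks ++ [r]))

/-- the late children -/
def late : Circ T → List (T × T)
  | pl _ _ _ => []
  | fu A => (A.gs.flatMap fun g => g.1.flatMap Itm.lap) ++ A.tl.flatMap Itm.lap
  | gp _ _ _ _ _ => []

/-- all even children -/
def evs : Circ T → List (T × T)
  | pl _ _ us => us.flatMap BU.evs
  | fu A => A.e1.flatMap BU.evs ++ ((A.gs.flatMap fun g => g.1.flatMap Itm.evs) ++
      A.tl.flatMap Itm.evs)
  | gp _ us _ g _ => us.flatMap BU.evs ++ g.flatMap Itm.evs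

/-- the real children in front of the second own token -/
def beads : Circ T → List (T × T)
  | pl _ _ _ => []
  | fu A => match A.gs.getLast? with
    | none => []
    | some g => g.1.flatMap Itm.rep
  | gp _ _ _ _ _ => []

/-- is the own link dropped? (`dr` = the dropped ones among the children) -/
def isDr (pr : T → Bool) (s : T → Bool) (c : Circ T) : Bool :=
  match c.r with
  | none => false
  | some r => !(s r) && c.beads.all fun p => !(pr p.1)

/-- one value, or two values -/
def M : Circ T → (T → B) → Prop
  | pl _ _ us, V => BU.One us V
  | fu A, V => ∃ a b, V A.l = a ∧ V A.x = b ∧ V A.X = b ∧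
      (∀ u ∈ A.e1, u.GC V ∧ (u.kind ≠ Kind.closed → u.val V = b)) ∧
      (∀ g ∈ A.gs, V g.2 = a) ∧
      ∀ i ∈ (A.gs.flatMap fun g => g.1) ++ A.tl,
        (∀ p ∈ i.rep, V p.1 = a ∧ V p.2 = a) ∧
        (∀ p ∈ i.lap, V p.1 = V p.2 ∧ (V p.1 = a ∨ V p.1 = b)) ∧
        ∀ u ∈ i.brp, u.GC V
  | gp l us t g r, V => BU.One (Circ.pus (gp l us t g r)) V

end Circ

end Pool.Agent.MP42.U
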