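import Pool.Agent.MP42.U.Let
import Pool.Agent.MP42.U.Dec

/-!
# From the units of a circle to `Circ`

`Cd I T`: the data of one circle on the level of items `I` with tokens `T`; `Cd.exists_circ`: the
circle `c : Circ T` and all its properties on the level of items.
-/

set_option autoImplicit false

namespace Pool.Agent.MP42.U

variable {I T : Type*}

/-! ## splitting at the free tokens -/

/-- the groups and the rest -/
def split : List (Itm T ⊕ T) → List (List (Itm T) × T) × List (Itm T)
  | [] => ([], [])
  | Sum.inr t :: L => (([], t) :: (split L).1, (split L).2)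
  | Sum.inl i :: L => match (split L).1 with
    | [] => ([], i :: (split L).2)
    | g :: gs => ((i :: g.1, g.2) :: gs, (split L).2)

lemma split_inl_nil {i : Itm T} {L : List (Itm T ⊕ T)} (h : (split L).1 = []) :
    split (Sum.inl i :: L) = ([], i :: (split L).2) := by
  rw [split, h]

lemma split_inl_cons {i : Itm T} {L : List (Itm T ⊕ T)} {g : List (Itm T) × T}
    {gs : List (List (Itm T) × T)} (h : (split L).1 = g :: gs) :
    split (Sum.inl i :: L) = ((i :: g.1, g.2) :: gs, (split L).2) := by
  rw [split, h]

lemma split_flat {β : Type*} (F : Itm T → List β) (G : T → List β) (L : List (Itm T ⊕ T)) :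
    ((split L).1.flatMap fun g => g.1.flatMap F ++ G g.2) ++ (split L).2.flatMap F =
      L.flatMap (Sum.elim F G) := by
  induction L with
  | nil => rfl
  | cons x L ih =>
    cases x with
    | inr t =>
      rw [List.flatMap_cons, ← ih]
      simp [split]
    | inl i =>
      rw [List.flatMap_cons, ← ih]
      rcases h : (split L).1 with _ | ⟨g, gs⟩
      · rw [split_inl_nil h]
        simp
      · rw [split_inl_cons h]
        simp

lemma split_snoc (L : List (Itm T ⊕ T)) (t : T) :
    split (L ++ [Sum.inr t]) = ((split L).1 ++ [((split L).2, t)], []) := by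
  induction L with
  | nil => rfl
  | cons x L ih =>
    cases x with
    | inr u => simp [split, ih]
    | inl i =>
      rw [List.cons_append]
      rcases h : (split L).1 with _ | ⟨g, gs⟩
      · rw [split_inl_nil h]
        have h2 : (split (L ++ [Sum.inr t])).1 = ((split L).2, t) :: [] := by
          rw [ih, h]; rfl
        rw [split_inl_cons h2, ih]
        rfl
      · rw [split_inl_cons h]
        have h2 : (split (L ++ [Sum.inr t])).1 = g :: (gs ++ [((split L).2, t)]) := by
          rw [ih, h]; rfl
        rw [split_inl_cons h2, ih]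
        rfl

lemma split_mem (L : List (Itm T ⊕ T)) :
    (∀ i, Sum.inl i ∈ L ↔ (∃ g ∈ (split L).1, i ∈ g.1) ∨ i ∈ (split L).2) ∧
      ∀ t, Sum.inr t ∈ L ↔ ∃ g ∈ (split L).1, g.2 = t := by
  induction L with
  | nil => simp [split]
  | cons x L ih =>
    obtain ⟨ih1, ih2⟩ := ih
    cases x with
    | inr u =>
      constructor
      · intro i
        simp [split, ih1]
      · intro t
        simp [split, ih2, eq_comm]
    | inl j =>
      rcases h : (split L).1 with _ | ⟨g, gs⟩
      · rw [split_inl_nil h]
        constructor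
        · intro i
          have := ih1 i
          rw [h] at this
          simp at this
          simp [this]
        · intro t
          have := ih2 t
          rw [h] at this
          simpa using this
      · rw [split_inl_cons h]
        constructor
        · intro i
          have := ih1 i
          rw [h] at this
          simp only [List.mem_cons, exists_eq_or_imp] at this
          simp only [List.mem_cons, exists_eq_or_imp, this]
          simp only [Sum.inl.injEq, or_assoc]
        · intro t
          have := ih2 t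
          rw [h] at this
          simp only [List.mem_cons, exists_eq_or_imp] at this
          simp only [List.mem_cons, exists_eq_or_imp, this, reduceCtorEq, false_or]

lemma split_len (L : List (Itm T ⊕ T)) :
    (split L).1.length = (L.filter Sum.isRight).length := by
  induction L with
  | nil => rfl
  | cons x L ih =>
    cases x with
    | inr u =>
      have h1 : (Sum.inr u : Itm T ⊕ T).isRight = true := rfl
      rw [List.filter_cons_of_pos h1, List.length_cons, ← ih]
      simp [split]
    | inl j =>
      have h1 : ¬ (Sum.inl j : Itm T ⊕ T).isRight = true := by simp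
      rw [List.filter_cons_of_neg h1, ← ih]
      rcases h : (split L).1 with _ | ⟨g, gs⟩
      · rw [split_inl_nil h]
      · rw [split_inl_cons h]
        simp

/-! ## the data of one circle -/

/-- the data of one circle -/
structure Cd (I T : Type*) where
  od : I → Prop
  po : I → Prop
  re : I → Prop
  mt : I → T
  pa : I → T × T
  l : T
  r : Option T
  xN : Option I
  p : Option (List I × I)
  us : List (It I)
  grp : Prop

namespace Cd

variable (D : Cd I T)

/-- the items in front of the units -/
def fro : List I := (D.xN.elim [] fun x => [x]) ++ (D.p.elim [] fun q => q.1 ++ [q.2])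

/-- all items -/
def items : List I := D.fro ++ D.us.flatMap It.fl

open Classical in
/-- the tokens of an item -/
noncomputable def itk (i : I) : List T := if D.od i then [D.mt i] else [(D.pa i).1, (D.pa i).2]

/-- the uncancelled ports -/
def pt (i : I) : Prop := i ∈ D.xN ∨ ∃ q ∈ D.p, i = q.2

/-- conditions on the data -/
structure Good : Prop where
  xN : ∀ x ∈ D.xN, D.od x
  p : ∀ q ∈ D.p, (∀ i ∈ q.1, ¬ D.od i) ∧ D.od q.2
  us : ∀ u ∈ D.us, u.Good D.od D.po
  poo : ∀ i, D.po i → D.od i
  par : ∀ [DecidablePred D.od], Even ((D.items.filter fun i => decide (D.od i)).length +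
    (D.r.toList.length + 1))
  grp : D.grp → D.xN = none
  itn : D.items.Nodup
  nodup : (D.l :: (D.items.flatMap D.itk ++ D.r.toList)).Nodup

/-- what is known about the letters -/
def E (s : T → Bool) : Prop := s D.l = true ∧ (∀ i, D.pt i → s (D.mt i) = true) ∧
  (D.xN = none → D.p = none → ∀ r ∈ D.r, s r = true)

/-- one value or two values -/
def MI (V : T → B) : Prop :=
  ∃ b, (D.xN = none ∨ D.p = none → b = V D.l) ∧ (∀ x ∈ D.xN, V (D.mt x) = b) ∧
    (∀ q ∈ D.p, V (D.mt q.2) = b ∧ ∀ i ∈ q.1, V (D.pa i).1 = b) ∧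
    ∀ u ∈ D.us, match u with
      | It.ev i => V (D.pa i).1 = V D.l ∨ (¬ D.re i ∧ V (D.pa i).1 = b)
      | It.fr i => V (D.mt i) = V D.l
      | It.br f m x => V (D.mt f) = V (D.mt x) ∧ ∀ i ∈ m, V (D.pa i).1 = V (D.mt x)

/-- the possible letters -/
def Lt (q : Bool × T) : Prop :=
  (q.1 = true ∧ (q.2 = D.l ∨ q.2 ∈ D.r)) ∨
  (∃ i ∈ D.items, D.od i ∧ q.2 = D.mt i ∧ (D.pt i ∨ D.po i → q.1 = true)) ∨
  ∃ i ∈ D.items, ¬ D.od i ∧ (q = (true, (D.pa i).1) ∨ q = (false, (D.pa i).2) ∨
    (D.re i ∧ q = (false, (D.pa i).1)))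

/-- the properties of the circle -/
structure Sp (c : Circ T) : Prop where
  l : c.l = D.l
  r : c.r = D.r
  tks : c.tks = D.l :: (D.items.flatMap D.itk ++ D.r.toList)
  evs : ∀ q, q ∈ c.evs ↔ ∃ i ∈ D.items, ¬ D.od i ∧ q = D.pa i
  reals : ∀ q ∈ c.reals, ∃ i ∈ D.items, ¬ D.od i ∧ D.re i ∧ q = D.pa i
  late : ∀ q ∈ c.late, ∃ i ∈ D.items, ¬ D.od i ∧ ¬ D.re i ∧ q = D.pa i
  ws : c.WS
  gp : c.isGp = true ↔ D.grp ∧ D.p ≠ none ∧ D.r ≠ none
  ok : ∀ F : Set (T → B), (∀ V ∈ F, ∀ p ∈ c.evs, V p.1 = V p.2) →
    (∀ V ∈ F, ∀ V' ∈ F, sp V V' c.tks = 0) → c.Ok D.E F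
  m : ∀ V, c.M V → D.MI V
  lt : ∀ s, D.E s → ∀ q, c.Org s q → D.Lt q

/-- a unit -/
def ut : It I → BU T
  | It.ev i => BU.ev (D.pa i).1 (D.pa i).2
  | It.fr i => BU.fr (D.mt i)
  | It.br f m x => BU.br (D.mt f) (D.mt x) (m.map D.pa)

open Classical in
/-- a unit of a fused circle -/
noncomputable def im : It I → Itm T ⊕ T
  | It.ev i => Sum.inl (if D.re i then Itm.re (D.pa i).1 (D.pa i).2
      else Itm.la (D.pa i).1 (D.pa i).2)
  | It.fr i => Sum.inr (D.mt i)
  | It.br f m x => Sum.inl (Itm.br (D.mt f) (D.mt x) (m.map D.pa))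

variable {D}

lemma itk_od {i : I} (h : D.od i) : D.itk i = [D.mt i] := by
  unfold itk
  rw [if_pos h]

lemma itk_ev {i : I} (h : ¬ D.od i) : D.itk i = [(D.pa i).1, (D.pa i).2] := by
  unfold itk
  rw [if_neg h]

lemma itk_evs {m : List I} (h : ∀ i ∈ m, ¬ D.od i) : m.flatMap D.itk = ptk (m.map D.pa) := by
  induction m with
  | nil => rfl
  | cons i m ih =>
    rw [List.flatMap_cons, itk_ev (h i List.mem_cons_self), List.map_cons, ptk_cons,
      ih fun j hj => h j (List.mem_cons_of_mem _ hj)]
    rfl

lemma ut_tks (hD : D.Good) {u : It I} (hu : u ∈ D.us) : (D.ut u).tks = u.fl.flatMap D.itk := by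
  have h1 := hD.us u hu
  cases u with
  | ev i =>
    have h2 : ¬ D.od i := h1
    simp [ut, BU.tks, It.fl, itk_ev h2]
  | fr i =>
    have h2 : D.od i := h1.1
    simp [ut, BU.tks, It.fl, itk_od h2]
  | br f m x =>
    obtain ⟨h2, -, h3, h4⟩ := h1
    have h5 := hD.poo x h4
    simp [ut, BU.tks, It.fl, itk_od h2, itk_od h5, itk_evs h3]

lemma ut_plain (u : It I) : (D.ut u).plain := by
  cases u <;> exact trivial

lemma ut_evs {u : It I} {q : T × T} (hq : q ∈ (D.ut u).evs) (hu : u.Good D.od D.po) :
    ∃ i ∈ u.fl, ¬ D.od i ∧ q = D.pa i := by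
  cases u with
  | ev i =>
    have h2 : ¬ D.od i := hu
    refine ⟨i, by simp [It.fl], h2, ?_⟩
    simpa [ut, BU.evs] using hq
  | fr i => simp [ut, BU.evs] at hq
  | br f m x =>
    obtain ⟨-, -, h3, -⟩ := hu
    obtain ⟨i, hi, rfl⟩ := List.mem_map.1 (show q ∈ m.map D.pa from hq)
    exact ⟨i, by simp [It.fl, hi], h3 i hi, rfl⟩

lemma ut_evs' {u : It I} {i : I} (hi : i ∈ u.fl) (ho : ¬ D.od i) (hu : u.Good D.od D.po)
    (hpo : ∀ i, D.po i → D.od i) : D.pa i ∈ (D.ut u).evs := by
  cases u with
  | ev j =>
    have : i = j := by simpa [It.fl] using hi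
    rw [this]
    simp [ut, BU.evs]
  | fr j =>
    have : i = j := by simpa [It.fl] using hi
    rw [this] at ho
    exact absurd hu.1 ho
  | br f m x =>
    obtain ⟨h2, -, h3, h4⟩ := hu
    have : i = f ∨ i ∈ m ∨ i = x := by simpa [It.fl] using hi
    rcases this with rfl | h | rfl
    · exact absurd h2 ho
    · exact List.mem_map.2 ⟨i, h, rfl⟩
    · exact absurd (hpo _ h4) ho

/-! ## lists of units -/

/-- the list of units `bs` presents the items `is` -/
structure Pres (D : Cd I T) (bs : List (BU T)) (is : List I) : Prop where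
  tks : bs.flatMap BU.tks = is.flatMap D.itk
  evs : ∀ q, q ∈ bs.flatMap BU.evs ↔ ∃ i ∈ is, ¬ D.od i ∧ q = D.pa i
  plain : ∀ u ∈ bs, u.plain

lemma Pres.append {bs bs' : List (BU T)} {is is' : List I} (h : Pres D bs is)
    (h' : Pres D bs' is') : Pres D (bs ++ bs') (is ++ is') := by
  refine ⟨by rw [List.flatMap_append, List.flatMap_append, h.tks, h'.tks], ?_, ?_⟩
  · intro q
    rw [List.flatMap_append, List.mem_append, h.evs, h'.evs]
    constructor
    · rintro (⟨i, h1, h2⟩ | ⟨i, h1, h2⟩)
      · exact ⟨i, List.mem_append_left _ h1, h2⟩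
      · exact ⟨i, List.mem_append_right _ h1, h2⟩
    · rintro ⟨i, h1, h2⟩
      rcases List.mem_append.1 h1 with h1 | h1
      · exact Or.inl ⟨i, h1, h2⟩
      · exact Or.inr ⟨i, h1, h2⟩
  · intro u hu
    rcases List.mem_append.1 hu with hu | hu
    · exact h.plain u hu
    · exact h'.plain u hu

lemma Pres.nil : Pres D [] [] := ⟨rfl, by simp, by simp⟩

lemma pres_us (hD : D.Good) : ∀ {us : List (It I)}, (∀ u ∈ us, u ∈ D.us) →
    Pres D (us.map D.ut) (us.flatMap It.fl) := by
  intro us
  induction us with
  | nil => intro _; exact Pres.nil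
  | cons u us ih =>
    intro h
    have hu := h u List.mem_cons_self
    have h1 : Pres D [D.ut u] u.fl := by
      refine ⟨?_, ?_, ?_⟩
      · rw [List.flatMap_cons, List.flatMap_nil, List.append_nil, ut_tks hD hu]
      · intro q
        rw [List.flatMap_cons, List.flatMap_nil, List.append_nil]
        constructor
        · intro hq
          exact ut_evs hq (hD.us u hu)
        · rintro ⟨i, hi, ho, rfl⟩
          exact ut_evs' hi ho (hD.us u hu) hD.poo
      · intro w hw
        rw [List.mem_singleton.1 hw]
        exact ut_plain u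
    rw [List.map_cons, List.flatMap_cons]
    exact h1.append (ih fun w hw => h w (List.mem_cons_of_mem _ hw))

lemma pres_evs {m : List I} (h : ∀ i ∈ m, ¬ D.od i) :
    Pres D (m.map fun i => BU.ev (D.pa i).1 (D.pa i).2) m := by
  induction m with
  | nil => exact Pres.nil
  | cons i m ih =>
    have ho := h i List.mem_cons_self
    have h1 : Pres D [BU.ev (D.pa i).1 (D.pa i).2] [i] := by
      refine ⟨by simp [BU.tks, itk_ev ho], ?_, ?_⟩
      · intro q
        simp [BU.evs, ho]
      · intro w hw
        rw [List.mem_singleton.1 hw]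
        trivial
    exact h1.append (ih fun j hj => h j (List.mem_cons_of_mem _ hj))

lemma pres_fx {i : I} (h : D.od i) : Pres D [BU.fx (D.mt i)] [i] := by
  refine ⟨by simp [BU.tks, itk_od h], ?_, ?_⟩
  · intro q
    simp [BU.evs, h]
  · intro w hw
    rw [List.mem_singleton.1 hw]
    trivial

variable (D) in
/-- the units in front -/
def hd : List (BU T) := (D.xN.elim [] fun x => [BU.fx (D.mt x)]) ++
  (D.p.elim [] fun q => (q.1.map fun i => BU.ev (D.pa i).1 (D.pa i).2) ++ [BU.fx (D.mt q.2)])

lemma pres_hd (hD : D.Good) : Pres D D.hd D.fro := by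
  have h1 := hD.xN
  have h2 := hD.p
  unfold hd fro
  refine Pres.append ?_ ?_
  · rcases hx : D.xN with _ | x
    · exact Pres.nil
    · exact pres_fx (h1 x hx)
  · rcases hp : D.p with _ | q
    · exact Pres.nil
    · obtain ⟨h3, h4⟩ := h2 q hp
      exact (pres_evs h3).append (pres_fx h4)

section count

open Classical

lemma odd_us (hD : D.Good) : ∀ {us : List (It I)}, (∀ u ∈ us, u ∈ D.us) →
    ∃ k, ((us.flatMap It.fl).filter fun i => decide (D.od i)).length =
      ((us.map D.ut).filter BU.od).length + 2 * k := by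
  intro us
  induction us with
  | nil => intro _; exact ⟨0, rfl⟩
  | cons u us ih =>
    intro h
    have hu := hD.us u (h u List.mem_cons_self)
    obtain ⟨k, hk⟩ := ih fun w hw => h w (List.mem_cons_of_mem _ hw)
    rw [List.flatMap_cons, List.filter_append, List.length_append, hk, List.map_cons]
    cases u with
    | ev i =>
      have h2 : ¬ D.od i := hu
      refine ⟨k, ?_⟩
      have e1 : ((It.ev i).fl.filter fun i => decide (D.od i)) = [] := by simp [It.fl, h2]
      have e2 : ¬ BU.od (D.ut (It.ev i)) = true := by rw [BU.od_iff]; simp [ut, BU.kind]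
      rw [e1, List.filter_cons_of_neg e2]
      simp
    | fr i =>
      have h2 : D.od i := hu.1
      refine ⟨k, ?_⟩
      have e1 : ((It.fr i).fl.filter fun i => decide (D.od i)) = [i] := by simp [It.fl, h2]
      have e2 : BU.od (D.ut (It.fr i)) = true := by rw [BU.od_iff]; simp [ut, BU.kind]
      rw [e1, List.filter_cons_of_pos e2]
      simp only [List.length_cons, List.length_nil]
      omega
    | br f m x =>
      obtain ⟨h2, -, h3, h4⟩ := hu
      have h5 := hD.poo x h4
      refine ⟨k + 1, ?_⟩
      have e0 : (m.filter fun i => decide (D.od i)) = [] := by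
        rw [List.filter_eq_nil_iff]
        intro i hi h
        exact h3 i hi (by simpa using h)
      have e1 : ((It.br f m x).fl.filter fun i => decide (D.od i)) = [f, x] := by
        simp [It.fl, h2, h5, e0]
      have e2 : ¬ BU.od (D.ut (It.br f m x)) = true := by rw [BU.od_iff]; simp [ut, BU.kind]
      rw [e1, List.filter_cons_of_neg e2]
      simp
      omega

lemma odd_evs {m : List I} (h : ∀ i ∈ m, ¬ D.od i) :
    (m.filter fun i => decide (D.od i)) = [] ∧
      (m.map fun i => BU.ev (D.pa i).1 (D.pa i).2 : List (BU T)).filter BU.od = [] := by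
  constructor
  · rw [List.filter_eq_nil_iff]
    intro i hi h'
    exact h i hi (by simpa using h')
  · rw [List.filter_eq_nil_iff]
    intro u hu h'
    obtain ⟨i, -, rfl⟩ := List.mem_map.1 hu
    have := BU.od_iff.1 h'
    simp [BU.kind] at this

lemma odd_fro (hD : D.Good) : (D.fro.filter fun i => decide (D.od i)).length =
    (D.hd.filter BU.od).length := by
  unfold fro hd
  rw [List.filter_append, List.filter_append, List.length_append, List.length_append]
  congr 1
  · rcases hx : D.xN with _ | x
    · rfl
    · have h1 : D.od x := hD.xN x hx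
      simp [h1, BU.od, isOdd, BU.kind]
  · rcases hp : D.p with _ | q
    · rfl
    · obtain ⟨h3, h4⟩ := hD.p q hp
      obtain ⟨h5, h6⟩ := odd_evs h3
      simp only [Option.elim_some, List.filter_append, h5, h6, List.nil_append]
      simp [h4, BU.od, isOdd, BU.kind]

/-- parity of the odd units -/
lemma par_units (hD : D.Good) : Even ((D.hd.filter BU.od).length +
    ((D.us.map D.ut).filter BU.od).length + (D.r.toList.length + 1)) := by
  have h1 := hD.par
  unfold items at h1
  obtain ⟨k, hk⟩ := odd_us hD (us := D.us) fun u hu => hu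
  rw [List.filter_append, List.length_append, odd_fro hD, hk] at h1
  have h2 : (D.hd.filter BU.od).length + (((D.us.map D.ut).filter BU.od).length + 2 * k) +
      (D.r.toList.length + 1) = ((D.hd.filter BU.od).length +
    ((D.us.map D.ut).filter BU.od).length + (D.r.toList.length + 1)) + 2 * k := by omega
  rw [h2] at h1
  exact (Nat.even_add.1 h1).2 (by simp)

end count

lemma pt_fro {i : I} (h : D.pt i) : i ∈ D.fro := by
  unfold fro
  rcases h with h | ⟨q, hq, rfl⟩
  · rw [show D.xN = some i from h]
    simp
  · rw [show D.p = some q from hq]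
    simp

lemma not_pt (hD : D.Good) {i : I} (h : i ∈ D.us.flatMap It.fl) : ¬ D.pt i := by
  intro h1
  exact (List.nodup_append.1 hD.itn).2.2 i (pt_fro h1) i h rfl

/-! ## at most one port -/

section pl

variable (D) in
/-- the units of a circle with at most one port -/
def us0 : List (BU T) := BU.fx D.l :: (D.hd ++ D.us.map D.ut ++ D.r.toList.map BU.fr)

lemma fr_od (l : List T) : (l.map (BU.fr : T → BU T)).filter BU.od = l.map BU.fr := by
  rw [List.filter_eq_self]
  intro u hu
  obtain ⟨t, -, rfl⟩ := List.mem_map.1 hu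
  rfl

lemma us0_od : D.us0.filter BU.od = BU.fx D.l :: (D.hd.filter BU.od ++
    (D.us.map D.ut).filter BU.od ++ D.r.toList.map BU.fr) := by
  unfold us0
  rw [List.filter_cons_of_pos (by rfl), List.filter_append, List.filter_append, fr_od]

lemma fr_tks (l : List T) : (l.map (BU.fr : T → BU T)).flatMap BU.tks = l := by
  induction l with
  | nil => rfl
  | cons t l ih => rw [List.map_cons, List.flatMap_cons, ih]; rfl

lemma fr_evs (l : List T) : (l.map (BU.fr : T → BU T)).flatMap BU.evs = [] := by
  induction l with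
  | nil => rfl
  | cons t l ih => rw [List.map_cons, List.flatMap_cons, ih]; rfl

lemma mem_hd_fx (hD : D.Good) {t : T} (h : BU.fx t ∈ D.hd) :
    ∃ i ∈ D.fro, D.od i ∧ t = D.mt i ∧ D.pt i := by
  unfold hd at h
  rcases List.mem_append.1 h with h | h
  · rcases hx : D.xN with _ | x
    · rw [hx] at h; simp at h
    · rw [hx] at h
      have h1 : t = D.mt x := by simpa using h
      exact ⟨x, by unfold fro; rw [hx]; simp, hD.xN x hx, h1, Or.inl hx⟩
  · rcases hp : D.p with _ | q
    · rw [hp] at h; simp at h
    · rw [hp] at h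
      have h1 : t = D.mt q.2 := by simpa using h
      exact ⟨q.2, by unfold fro; rw [hp]; simp, (hD.p q hp).2, h1, Or.inr ⟨q, hp, rfl⟩⟩

/-- units in front: only forced tokens and even children -/
lemma mem_hd {u : BU T} (h : u ∈ D.hd) : (∃ t, u = BU.fx t) ∨ ∃ a b, u = BU.ev a b := by
  unfold hd at h
  rcases List.mem_append.1 h with h | h
  · rcases hx : D.xN with _ | x
    · rw [hx] at h; simp at h
    · rw [hx] at h
      exact Or.inl ⟨D.mt x, by simpa using h⟩
  · rcases hp : D.p with _ | q
    · rw [hp] at h; simp at h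
    · rw [hp] at h
      simp only [Option.elim_some, List.mem_append, List.mem_map, List.mem_cons,
        List.not_mem_nil, or_false] at h
      rcases h with ⟨i, -, rfl⟩ | rfl
      · exact Or.inr ⟨_, _, rfl⟩
      · exact Or.inl ⟨_, rfl⟩

/-- the letters: at most one port -/
lemma lt_pl (hD : D.Good) {s : T → Bool} (hs : D.E s) {q : Bool × T}
    (h : (Circ.pl D.l D.r D.us0).Org s q) (hev : ∀ q, q ∈ (Circ.pl D.l D.r D.us0).evs →
      ∃ i ∈ D.items, ¬ D.od i ∧ q = D.pa i) : D.Lt q := by
  have hmem : ∀ i, i ∈ D.us.flatMap It.fl → i ∈ D.items := fun i hi =>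
    List.mem_append_right _ hi
  have hcase : ∀ u, u ∈ (Circ.pl D.l D.r D.us0).pus → u = BU.fx D.l ∨ u ∈ D.hd ∨
      (∃ w ∈ D.us, u = D.ut w) ∨ ∃ t ∈ D.r.toList, u = BU.fr t := by
    intro u hu
    have hu' : u ∈ BU.fx D.l :: (D.hd ++ D.us.map D.ut ++ D.r.toList.map BU.fr) := hu
    simp only [List.mem_cons, List.mem_append, List.mem_map] at hu'
    rcases hu' with h | (h | ⟨w, hw, h⟩) | ⟨t, ht, h⟩
    · exact Or.inl h
    · exact Or.inr (Or.inl h)
    · exact Or.inr (Or.inr (Or.inl ⟨w, hw, h.symm⟩))
    · exact Or.inr (Or.inr (Or.inr ⟨t, ht, h.symm⟩))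
  cases h with
  | l => exact Or.inl ⟨rfl, Or.inl rfl⟩
  | r t h => exact Or.inl ⟨rfl, Or.inr h⟩
  | fx t h =>
    rcases hcase _ h with h | h | ⟨w, hw, h⟩ | ⟨t', ht', h⟩
    · rw [BU.fx.injEq] at h
      exact Or.inl ⟨by rw [h]; exact hs.1, Or.inl h⟩
    · obtain ⟨i, hi, ho, rfl, hpt⟩ := mem_hd_fx hD h
      exact Or.inr (Or.inl ⟨i, List.mem_append_left _ hi, ho, rfl, fun _ => hs.2.1 i hpt⟩)
    · cases w <;> simp [ut] at h
    · simp at h
  | fr t h h' =>
    rcases hcase _ h with h | h | ⟨w, hw, h⟩ | ⟨t', ht', h⟩
    · simp at h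
    · rcases mem_hd h with ⟨_, h⟩ | ⟨_, _, h⟩ <;> simp at h
    · cases w with
      | ev i => simp [ut] at h
      | fr i =>
        have h1 : t = D.mt i := by simpa [ut] using h
        have h2 := hD.us _ hw
        refine Or.inr (Or.inl ⟨i, hmem i (List.mem_flatMap.2 ⟨_, hw, by simp [It.fl]⟩), h2.1, h1,
          ?_⟩)
        rintro (h3 | h3)
        · exact absurd h3 (not_pt hD (List.mem_flatMap.2 ⟨_, hw, by simp [It.fl]⟩))
        · exact absurd h3 h2.2
      | br f m x => simp [ut] at h
    · exfalso
      rw [BU.fr.injEq] at h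
      refine h' ?_
      rw [h]
      have : (Circ.pl D.l D.r D.us0).r = D.r := rfl
      rw [this]
      simpa using ht'
  | brt t x m h =>
    rcases hcase _ h with h | h | ⟨w, hw, h⟩ | ⟨t', ht', h⟩
    · simp at h
    · rcases mem_hd h with ⟨_, h⟩ | ⟨_, _, h⟩ <;> simp at h
    · cases w with
      | ev i => simp [ut] at h
      | fr i => simp [ut] at h
      | br f m' x' =>
        have h1 : t = D.mt f := by
          have := h
          simp only [ut, BU.br.injEq] at this
          exact this.1
        obtain ⟨h2, h3, -, -⟩ := hD.us _ hw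
        have h4 : f ∈ D.us.flatMap It.fl := List.mem_flatMap.2 ⟨_, hw, by simp [It.fl]⟩
        refine Or.inr (Or.inl ⟨f, hmem f h4, h2, h1, ?_⟩)
        rintro (h5 | h5)
        · exact absurd h5 (not_pt hD h4)
        · exact absurd h5 h3
    · simp at h
  | brx t x m h =>
    rcases hcase _ h with h | h | ⟨w, hw, h⟩ | ⟨t', ht', h⟩
    · simp at h
    · rcases mem_hd h with ⟨_, h⟩ | ⟨_, _, h⟩ <;> simp at h
    · cases w with
      | ev i => simp [ut] at h
      | fr i => simp [ut] at h
      | br f m' x' =>
        have h1 : x = D.mt x' := by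
          have := h
          simp only [ut, BU.br.injEq] at this
          exact this.2.1
        obtain ⟨-, -, -, h2⟩ := hD.us _ hw
        have h4 : x' ∈ D.us.flatMap It.fl := List.mem_flatMap.2 ⟨_, hw, by simp [It.fl]⟩
        exact Or.inr (Or.inl ⟨x', hmem x' h4, hD.poo _ h2, h1, fun _ => rfl⟩)
    · simp at h
  | gt t m b h h' =>
    exfalso
    rcases hcase _ h with h | h | ⟨w, hw, h⟩ | ⟨t', ht', h⟩
    · simp at h
    · rcases mem_hd h with ⟨_, h⟩ | ⟨_, _, h⟩ <;> simp at h
    · cases w <;> simp [ut] at h
    · simp at h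
  | gv t m h =>
    exfalso
    rcases hcase _ h with h | h | ⟨w, hw, h⟩ | ⟨t', ht', h⟩
    · simp at h
    · rcases mem_hd h with ⟨_, h⟩ | ⟨_, _, h⟩ <;> simp at h
    · cases w <;> simp [ut] at h
    · simp at h
  | ev1 p h =>
    obtain ⟨i, hi, ho, rfl⟩ := hev p h
    exact Or.inr (Or.inr ⟨i, hi, ho, Or.inl rfl⟩)
  | ev2 p h =>
    obtain ⟨i, hi, ho, rfl⟩ := hev p h
    exact Or.inr (Or.inr ⟨i, hi, ho, Or.inr (Or.inl rfl)⟩)
  | nn p h => simp [Circ.reals] at h

/-- **at most one port, no group drop** -/
theorem sp_pl (hD : D.Good) (hx : D.xN = none ∨ D.p = none)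
    (hg : ¬ (D.grp ∧ D.p ≠ none ∧ D.r ≠ none)) : D.Sp (Circ.pl D.l D.r D.us0) := by
  have hP := (pres_hd hD).append (pres_us hD (us := D.us) fun u hu => hu)
  have htk : (Circ.pl D.l D.r D.us0).tks = D.l :: (D.items.flatMap D.itk ++ D.r.toList) := by
    have e1 : (Circ.pl D.l D.r D.us0).tks = D.us0.flatMap BU.tks := rfl
    rw [e1]
    unfold us0 items
    rw [List.flatMap_cons, List.flatMap_append (xs := D.hd ++ D.us.map D.ut), hP.tks, fr_tks]
    rfl
  have hev : ∀ q, q ∈ (Circ.pl D.l D.r D.us0).evs ↔ ∃ i ∈ D.items, ¬ D.od i ∧ q = D.pa i := by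
    intro q
    have e1 : (Circ.pl D.l D.r D.us0).evs = D.us0.flatMap BU.evs := rfl
    have e2 : D.us0.flatMap BU.evs = (D.hd ++ D.us.map D.ut).flatMap BU.evs := by
      unfold us0
      rw [List.flatMap_cons, List.flatMap_append (xs := D.hd ++ D.us.map D.ut), fr_evs,
        List.append_nil]
      rfl
    rw [e1, e2]
    exact hP.evs q
  have hn : (Circ.pl D.l D.r D.us0).tks.Nodup := by rw [htk]; exact hD.nodup
  have hpar := par_units hD
  have hpus : (Circ.pl D.l D.r D.us0).pus = D.us0 := rfl
  have hplain : ∀ u ∈ D.us0, u.plain := by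
    intro u hu
    unfold us0 at hu
    rcases List.mem_cons.1 hu with rfl | hu
    · trivial
    · rcases List.mem_append.1 hu with hu | hu
      · exact hP.plain u hu
      · obtain ⟨t, -, rfl⟩ := List.mem_map.1 hu
        trivial
  refine ⟨rfl, rfl, htk, hev, by simp [Circ.reals], by simp [Circ.late], ?_, ?_, ?_, ?_, ?_⟩
  · refine ⟨⟨?_, ?_, ?_⟩, ?_, ?_, ?_, ?_⟩
    · intro l r us h
      cases h
      exact hplain
    · intro l us t g r h
      cases h
    · intro A h
      cases h
    · rw [hpus, us0_od, List.length_cons, List.length_append, List.length_append, List.length_map]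
      have : (D.hd.filter BU.od).length + ((D.us.map D.ut).filter BU.od).length +
          D.r.toList.length + 1 = (D.hd.filter BU.od).length +
          ((D.us.map D.ut).filter BU.od).length + (D.r.toList.length + 1) := by omega
      rw [this]
      exact hpar
    · intro l r us h
      cases h
      refine ⟨_, rfl, ?_⟩
      intro r' hr'
      refine ⟨D.hd ++ D.us.map D.ut, ?_⟩
      rw [hr']
      rfl
    · intro l us t g r h
      cases h
    · intro A h
      cases h
  · constructor
    · intro h
      simp [Circ.isGp] at h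
    · intro h
      exact absurd h hg
  · intro F h1 h2
    rcases hxN : D.xN with _ | x <;> rcases hp : D.p with _ | q
    · -- no port
      have hhd : D.hd = [] := by unfold hd; rw [hxN, hp]; rfl
      rw [hhd] at hpar
      have hpt : ∀ i, ¬ D.pt i := by
        rintro i (h | ⟨q, h, -⟩)
        · rw [hxN] at h; simp at h
        · rw [hp] at h; simp at h
      rcases hr : D.r with _ | r
      · rw [hr] at hpar
        obtain ⟨ms, z, hz⟩ : ∃ ms z, (D.us.map D.ut).filter BU.od = ms ++ [z] := by
          rcases List.eq_nil_or_concat ((D.us.map D.ut).filter BU.od) with h | ⟨ms, z, h⟩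
          · rw [h] at hpar
            simp at hpar
          · exact ⟨ms, z, by rw [h, List.concat_eq_append]⟩
        have hr' := hr
        refine Circ.ok_a (c := Circ.pl D.l none D.us0) (L := BU.fx D.l) (z := z) (ms := ms) trivial
          (by rw [← hr]; exact hn) ?_ ?_ (by simp [Circ.isGp]) ?_ (by rw [← hr]; exact h1)
          (by rw [← hr]; exact h2)
        · have e1 : (Circ.pl D.l none D.us0).pus = D.us0 := rfl
          rw [e1, us0_od, hhd, hr, hz]
          simp
        · rw [hz] at hpar
          simp at hpar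
          rw [show ms.length + 1 + 1 = ms.length + 2 by omega] at hpar
          exact (Nat.even_add.1 hpar).2 (by decide)
        · intro s s1 _ _
          refine ⟨s1, fun i hi => absurd hi (hpt i), ?_⟩
          intro _ _ r hr
          rw [hr'] at hr
          simp at hr
      · rw [hr] at hpar
        refine Circ.ok_a (c := Circ.pl D.l (some r) D.us0) (L := BU.fx D.l) (z := BU.fr r)
          (ms := (D.us.map D.ut).filter BU.od) trivial
          (by rw [← hr]; exact hn) ?_ ?_ (by simp [Circ.isGp]) ?_ (by rw [← hr]; exact h1)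
          (by rw [← hr]; exact h2)
        · have e1 : (Circ.pl D.l (some r) D.us0).pus = D.us0 := rfl
          rw [e1, us0_od, hhd, hr]
          simp
        · simp at hpar
          exact (Nat.even_add.1 hpar).2 (by decide)
        · intro s s1 s2 _
          refine ⟨s1, fun i hi => absurd hi (hpt i), ?_⟩
          intro _ _ r' hr'
          rw [hr] at hr'
          have : r = r' := by simpa using hr'
          rw [← this]
          exact s2
    · -- port p
      have hhd : D.hd.filter BU.od = [BU.fx (D.mt q.2)] := by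
        unfold hd
        rw [hxN, hp]
        simp only [Option.elim_none, Option.elim_some, List.nil_append, List.filter_append,
          (odd_evs (hD.p q hp).1).2]
        rfl
      rw [hhd] at hpar
      have hpt : ∀ i, D.pt i → i = q.2 := by
        rintro i (h | ⟨q', h, rfl⟩)
        · rw [hxN] at h; simp at h
        · rw [hp] at h
          have : q = q' := by simpa using h
          rw [this]
      refine Circ.ok_c (c := Circ.pl D.l D.r D.us0) (L := BU.fx D.l) (x := BU.fx (D.mt q.2))
        (fs := (D.us.map D.ut).filter BU.od ++ D.r.toList.map BU.fr) trivial hn ?_ ?_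
        (by simp [Circ.isGp]) ?_ h1 h2
      · rw [hpus, us0_od, hhd]
        simp
      · simp only [List.length_cons, List.length_nil] at hpar
        rw [List.length_append, List.length_map]
        rw [show 0 + 1 + ((D.us.map D.ut).filter BU.od).length + (D.r.toList.length + 1) =
          ((D.us.map D.ut).filter BU.od).length + D.r.toList.length + 2 by omega] at hpar
        exact (Nat.even_add.1 hpar).2 (by decide)
      · intro s s1 s2 _
        refine ⟨s1, fun i hi => by rw [hpt i hi]; exact s2, ?_⟩
        intro _ h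
        rw [hp] at h
        simp at h
    · -- port xN
      have hhd : D.hd.filter BU.od = [BU.fx (D.mt x)] := by
        unfold hd
        rw [hxN, hp]
        rfl
      rw [hhd] at hpar
      have hpt : ∀ i, D.pt i → i = x := by
        rintro i (h | ⟨q', h, rfl⟩)
        · rw [hxN] at h
          have : x = i := by simpa using h
          exact this.symm
        · rw [hp] at h; simp at h
      refine Circ.ok_c (c := Circ.pl D.l D.r D.us0) (L := BU.fx D.l) (x := BU.fx (D.mt x))
        (fs := (D.us.map D.ut).filter BU.od ++ D.r.toList.map BU.fr) trivial hn ?_ ?_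
        (by simp [Circ.isGp]) ?_ h1 h2
      · rw [hpus, us0_od, hhd]
        simp
      · simp only [List.length_cons, List.length_nil] at hpar
        rw [List.length_append, List.length_map]
        rw [show 0 + 1 + ((D.us.map D.ut).filter BU.od).length + (D.r.toList.length + 1) =
          ((D.us.map D.ut).filter BU.od).length + D.r.toList.length + 2 by omega] at hpar
        exact (Nat.even_add.1 hpar).2 (by decide)
      · intro s s1 s2 _
        refine ⟨s1, fun i hi => by rw [hpt i hi]; exact s2, ?_⟩
        intro h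
        rw [hxN] at h
        simp at h
    · exfalso
      rw [hxN, hp] at hx
      simp at hx
  · rintro V ⟨h1, c, h2⟩
    have hl : V D.l = c := h2 (BU.fx D.l) (by unfold us0; simp) (by simp [BU.kind])
    have hu : ∀ w ∈ D.us, D.ut w ∈ D.us0 := by
      intro w hw
      unfold us0
      simp only [List.mem_cons, List.mem_append, List.mem_map]
      exact Or.inr (Or.inl (Or.inr ⟨w, hw, rfl⟩))
    have hh : ∀ u ∈ D.hd, u ∈ D.us0 := by
      intro u hu
      unfold us0
      simp [hu]
    refine ⟨c, fun _ => hl.symm, ?_, ?_, ?_⟩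
    · intro x hx'
      have h3 : BU.fx (D.mt x) ∈ D.hd := by
        unfold hd
        rw [show D.xN = some x from hx']
        simp
      exact h2 _ (hh _ h3) (by simp [BU.kind])
    · intro q hq
      have h3 : BU.fx (D.mt q.2) ∈ D.hd ∧ ∀ i ∈ q.1, BU.ev (D.pa i).1 (D.pa i).2 ∈ D.hd := by
        unfold hd
        rw [show D.p = some q from hq]
        simp only [Option.elim_some, List.mem_append, List.mem_map, List.mem_cons]
        exact ⟨Or.inr (Or.inr (Or.inl trivial)), fun i hi => Or.inr (Or.inl ⟨i, hi, rfl⟩)⟩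
      exact ⟨h2 _ (hh _ h3.1) (by simp [BU.kind]),
        fun i hi => h2 _ (hh _ (h3.2 i hi)) (by simp [BU.kind])⟩
    · intro w hw
      have h3 := hu w hw
      cases w with
      | ev i =>
        left
        have h4 : V (D.pa i).1 = c := h2 _ h3 (by simp [ut, BU.kind])
        rw [h4, hl]
      | fr i =>
        have h4 : V (D.mt i) = c := h2 _ h3 (by simp [ut, BU.kind])
        show V (D.mt i) = V D.l
        rw [h4, hl]
      | br f m x =>
        obtain ⟨h4, h5⟩ : V (D.mt x) = V (D.mt f) ∧
          ∀ p ∈ m.map D.pa, V p.1 = V (D.mt f) ∧ V p.2 = V (D.mt f) := h1 _ h3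
        refine ⟨h4.symm, fun i hi => ?_⟩
        rw [h4]
        exact (h5 _ (List.mem_map.2 ⟨i, hi, rfl⟩)).1
  · intro s hs q hq
    exact lt_pl hD hs hq fun q hq => (hev q).1 hq

end pl

end Cd

end Pool.Agent.MP42.U
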