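import Pool.Agent.MP42.U.Ok

/-!
# Systems of circles, dropped circles, the abstract global theorem
-/

set_option autoImplicit false

namespace Pool.Agent.MP42.U

variable {T : Type*}

lemma BU.evs_mem {u : BU T} {p : T × T} (h : p ∈ u.evs) : p.1 ∈ u.tks ∧ p.2 ∈ u.tks := by
  have hptk : ∀ m : List (T × T), p ∈ m → p.1 ∈ ptk m ∧ p.2 ∈ ptk m := by
    intro m hp
    exact ⟨List.mem_flatMap.2 ⟨p, hp, by simp⟩, List.mem_flatMap.2 ⟨p, hp, by simp⟩⟩
  cases u with
  | fr t => simp [BU.evs] at h
  | fx t => simp [BU.evs] at h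
  | ev a b =>
    simp only [BU.evs, List.mem_cons, List.not_mem_nil, or_false] at h
    rw [h]
    simp [BU.tks]
  | br t x m =>
    obtain ⟨h1, h2⟩ := hptk m h
    simp [BU.tks, h1, h2]
  | gu m t =>
    obtain ⟨h1, h2⟩ := hptk m h
    simp [BU.tks, h1, h2]
  | gv t m =>
    obtain ⟨h1, h2⟩ := hptk m h
    simp [BU.tks, h1, h2]

lemma BU.evs_mem' {us : List (BU T)} {p : T × T} (h : p ∈ us.flatMap BU.evs) :
    p.1 ∈ us.flatMap BU.tks ∧ p.2 ∈ us.flatMap BU.tks := by
  obtain ⟨u, hu, hp⟩ := List.mem_flatMap.1 h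
  obtain ⟨h1, h2⟩ := BU.evs_mem hp
  exact ⟨List.mem_flatMap.2 ⟨u, hu, h1⟩, List.mem_flatMap.2 ⟨u, hu, h2⟩⟩

lemma Itm.evs_mem {m : List (Itm T)} {p : T × T} (h : p ∈ m.flatMap Itm.evs) :
    p.1 ∈ m.flatMap Itm.tks ∧ p.2 ∈ m.flatMap Itm.tks := by
  obtain ⟨i, hi, hp⟩ := List.mem_flatMap.1 h
  have h1 : p.1 ∈ i.tks ∧ p.2 ∈ i.tks := by
    cases i with
    | re a b =>
      simp only [Itm.evs, List.mem_cons, List.not_mem_nil, or_false] at hp
      rw [hp]
      simp [Itm.tks]
    | la a b =>
      simp only [Itm.evs, List.mem_cons, List.not_mem_nil, or_false] at hp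
      rw [hp]
      simp [Itm.tks]
    | br t x m =>
      have h2 : p.1 ∈ ptk m := List.mem_flatMap.2 ⟨p, hp, by simp⟩
      have h3 : p.2 ∈ ptk m := List.mem_flatMap.2 ⟨p, hp, by simp⟩
      simp [Itm.tks, h2, h3]
  exact ⟨List.mem_flatMap.2 ⟨i, hi, h1.1⟩, List.mem_flatMap.2 ⟨i, hi, h1.2⟩⟩

namespace Circ

/-- structure of a circle: parity, own tokens first and last -/
structure WS (c : Circ T) : Prop extends WF c where
  even : Even (c.pus.filter BU.od).length
  opl : ∀ l r us, c = Circ.pl l r us → ∃ us', us = BU.fx l :: us' ∧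
    ∀ r', r = some r' → ∃ us'', us' = us'' ++ [BU.fr r']
  ogp : ∀ l us t g r, c = Circ.gp l us t g r → ∃ us', us = BU.fx l :: us'
  ofu : ∀ A, c = Circ.fu A → ∀ r', A.r = some r' → A.tl = [] ∧ ∃ gs' g, A.gs = gs' ++ [(g, r')]

lemma WS.tks_eq {c : Circ T} (h : c.WS) : ∃ w, c.tks = c.l :: (w ++ c.r.toList) ∧
    ∀ p ∈ c.evs, p.1 ∈ w ∧ p.2 ∈ w := by
  cases c with
  | pl l r us =>
    obtain ⟨us', h1, h2⟩ := h.opl l r us rfl
    rcases r with _ | r
    · refine ⟨us'.flatMap BU.tks, ?_, ?_⟩
      · rw [h1]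
        simp [tks, Circ.l, Circ.r, BU.tks]
      · intro p hp
        rw [h1] at hp
        have hp' : p ∈ us'.flatMap BU.evs := by
          simpa [evs, BU.evs] using hp
        exact BU.evs_mem' hp'
    · obtain ⟨us'', h3⟩ := h2 r rfl
      refine ⟨us''.flatMap BU.tks, ?_, ?_⟩
      · rw [h1, h3]
        simp [tks, Circ.l, Circ.r, BU.tks]
      · intro p hp
        rw [h1, h3] at hp
        have hp' : p ∈ us''.flatMap BU.evs := by
          simpa [evs, BU.evs] using hp
        exact BU.evs_mem' hp'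
  | gp l us t g r =>
    obtain ⟨us', h1⟩ := h.ogp l us t g r rfl
    refine ⟨us'.flatMap BU.tks ++ (t :: g.flatMap Itm.tks), ?_, ?_⟩
    · rw [h1]
      simp [tks, Circ.l, Circ.r, BU.tks]
    · intro p hp
      rw [h1] at hp
      have hp' : p ∈ us'.flatMap BU.evs ∨ p ∈ g.flatMap Itm.evs := by
        simpa [evs, BU.evs] using hp
      rcases hp' with hp' | hp'
      · obtain ⟨h2, h3⟩ := BU.evs_mem' hp'
        exact ⟨List.mem_append_left _ h2, List.mem_append_left _ h3⟩
      · obtain ⟨h2, h3⟩ := Itm.evs_mem hp'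
        exact ⟨List.mem_append_right _ (List.mem_cons_of_mem _ h2),
          List.mem_append_right _ (List.mem_cons_of_mem _ h3)⟩
  | fu A =>
    rcases hr : A.r with _ | r
    · refine ⟨A.x :: (A.e1.flatMap BU.tks ++ (A.X ::
        ((A.gs.flatMap fun g => g.1.flatMap Itm.tks ++ [g.2]) ++ A.tl.flatMap Itm.tks))), ?_, ?_⟩
      · simp [tks, Circ.l, Circ.r, hr]
      · intro p hp
        simp only [evs, List.mem_append, List.mem_flatMap (l := A.gs)] at hp
        rcases hp with hp | ⟨g, hg, hp⟩ | hp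
        · obtain ⟨h2, h3⟩ := BU.evs_mem' hp
          exact ⟨List.mem_cons_of_mem _ (List.mem_append_left _ h2),
            List.mem_cons_of_mem _ (List.mem_append_left _ h3)⟩
        · obtain ⟨h2, h3⟩ := Itm.evs_mem hp
          exact ⟨List.mem_cons_of_mem _ (List.mem_append_right _ (List.mem_cons_of_mem _
            (List.mem_append_left _ (List.mem_flatMap.2 ⟨g, hg, List.mem_append_left _ h2⟩)))),
            List.mem_cons_of_mem _ (List.mem_append_right _ (List.mem_cons_of_mem _
            (List.mem_append_left _ (List.mem_flatMap.2 ⟨g, hg, List.mem_append_left _ h3⟩))))⟩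
        · obtain ⟨h2, h3⟩ := Itm.evs_mem hp
          exact ⟨List.mem_cons_of_mem _ (List.mem_append_right _ (List.mem_cons_of_mem _
            (List.mem_append_right _ h2))),
            List.mem_cons_of_mem _ (List.mem_append_right _ (List.mem_cons_of_mem _
            (List.mem_append_right _ h3)))⟩
    · obtain ⟨h1, gs', g₁, h2⟩ := h.ofu A rfl r hr
      refine ⟨A.x :: (A.e1.flatMap BU.tks ++ (A.X ::
        ((gs'.flatMap fun g => g.1.flatMap Itm.tks ++ [g.2]) ++ g₁.flatMap Itm.tks))), ?_, ?_⟩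
      · simp [tks, Circ.l, Circ.r, hr, h1, h2]
      · intro p hp
        have hp' : p ∈ A.e1.flatMap BU.evs ∨ (∃ g ∈ gs', p ∈ g.1.flatMap Itm.evs) ∨
            p ∈ g₁.flatMap Itm.evs := by
          have e0 : (Circ.fu A).evs = A.e1.flatMap BU.evs ++
              ((A.gs.flatMap fun g => g.1.flatMap Itm.evs) ++ A.tl.flatMap Itm.evs) := rfl
          rw [e0, h1, h2, List.flatMap_append, List.flatMap_nil, List.append_nil] at hp
          rcases List.mem_append.1 hp with hp | hp
          · exact Or.inl hp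
          · rcases List.mem_append.1 hp with hp | hp
            · exact Or.inr (Or.inl (List.mem_flatMap.1 hp))
            · refine Or.inr (Or.inr ?_)
              simpa using hp
        rcases hp' with hp | ⟨g, hg, hp⟩ | hp
        · obtain ⟨h2, h3⟩ := BU.evs_mem' hp
          exact ⟨List.mem_cons_of_mem _ (List.mem_append_left _ h2),
            List.mem_cons_of_mem _ (List.mem_append_left _ h3)⟩
        · obtain ⟨h2, h3⟩ := Itm.evs_mem hp
          exact ⟨List.mem_cons_of_mem _ (List.mem_append_right _ (List.mem_cons_of_mem _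
              (List.mem_append_left _ (List.mem_flatMap.2 ⟨g, hg, List.mem_append_left _ h2⟩)))),
              List.mem_cons_of_mem _ (List.mem_append_right _ (List.mem_cons_of_mem _
              (List.mem_append_left _ (List.mem_flatMap.2 ⟨g, hg, List.mem_append_left _ h3⟩))))⟩
        · obtain ⟨h2, h3⟩ := Itm.evs_mem hp
          exact ⟨List.mem_cons_of_mem _ (List.mem_append_right _ (List.mem_cons_of_mem _
              (List.mem_append_right _ h2))),
              List.mem_cons_of_mem _ (List.mem_append_right _ (List.mem_cons_of_mem _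
              (List.mem_append_right _ h3)))⟩

lemma WS.own {c : Circ T} (h : c.WS) (hn : c.tks.Nodup) {p : T × T} (hp : p ∈ c.evs) :
    (p.1 ≠ c.l ∧ p.2 ≠ c.l) ∧ ∀ r, c.r = some r → p.1 ≠ r ∧ p.2 ≠ r := by
  obtain ⟨w, h1, h2⟩ := h.tks_eq
  rw [h1] at hn
  obtain ⟨h3, h4⟩ := h2 p hp
  obtain ⟨h5, h6⟩ := List.nodup_cons.1 hn
  refine ⟨⟨?_, ?_⟩, ?_⟩
  · rintro h7
    exact h5 (by rw [← h7]; exact List.mem_append_left _ h3)
  · rintro h7
    exact h5 (by rw [← h7]; exact List.mem_append_left _ h4)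
  · intro r hr
    rw [hr] at h6
    obtain ⟨-, -, h7⟩ := List.nodup_append.1 h6
    exact ⟨h7 _ h3 _ (by simp), h7 _ h4 _ (by simp)⟩

lemma WS.l_mem {c : Circ T} (h : c.WS) : c.l ∈ c.tks := by
  obtain ⟨w, h1, -⟩ := h.tks_eq
  rw [h1]; exact List.mem_cons_self

lemma WS.r_mem {c : Circ T} (h : c.WS) {r : T} (hr : c.r = some r) : r ∈ c.tks := by
  obtain ⟨w, h1, -⟩ := h.tks_eq
  rw [h1, hr]; simp

lemma WS.ev_mem {c : Circ T} (h : c.WS) {p : T × T} (hp : p ∈ c.evs) :
    p.1 ∈ c.tks ∧ p.2 ∈ c.tks := by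
  obtain ⟨w, h1, h2⟩ := h.tks_eq
  rw [h1]
  obtain ⟨h3, h4⟩ := h2 p hp
  exact ⟨List.mem_cons_of_mem _ (List.mem_append_left _ h3),
    List.mem_cons_of_mem _ (List.mem_append_left _ h4)⟩

/-- the two own tokens have the same value -/
lemma WS.M_own {c : Circ T} (h : c.WS) {V : T → B} (hM : c.M V) {r : T} (hr : c.r = some r) :
    V c.l = V r := by
  cases c with
  | pl l r' us =>
    obtain ⟨us', h1, h2⟩ := h.opl l r' us rfl
    obtain ⟨us'', h3⟩ := h2 r hr
    obtain ⟨-, k, h4⟩ := hM
    rw [h1, h3] at h4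
    have h5 : V l = k := h4 (BU.fx l) (by simp) (by simp [BU.kind])
    have h6 : V r = k := h4 (BU.fr r) (by simp) (by simp [BU.kind])
    exact h5.trans h6.symm
  | gp l us t g r' =>
    obtain ⟨us', h1⟩ := h.ogp l us t g r' rfl
    obtain ⟨-, k, h4⟩ := hM
    have hr' : r' = r := by simpa [Circ.r] using hr
    rw [h1, hr'] at h4
    have h5 : V l = k := h4 (BU.fx l) (by simp [pus]) (by simp [BU.kind])
    have h6 : V r = k := h4 (BU.fr r) (by simp [pus]) (by simp [BU.kind])
    exact h5.trans h6.symm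
  | fu A =>
    obtain ⟨h1, gs', g₁, h2⟩ := h.ofu A rfl r hr
    obtain ⟨a, b, h3, -, -, -, h4, -⟩ := hM
    exact h3.trans (h4 (g₁, r) (by rw [h2]; simp)).symm

lemma fu_filter {A : Fu T} (hw : ∀ u ∈ A.e1, u.plain ∧ u.kind ≠ Kind.odd) :
    (Circ.fu A).pus.filter BU.od =
      BU.fx A.l :: BU.fx A.x :: BU.fx A.X :: A.gs.map gtk := by
  have hod : A.e1.filter BU.od = [] := by
    rw [List.filter_eq_nil_iff]
    intro u hu h
    exact (hw u hu).2 (BU.od_iff.1 h)
  have hod' : ((A.tl.flatMap Itm.rep).map fun p => BU.ev p.1 p.2).filter BU.od = [] := by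
    rw [List.filter_eq_nil_iff]
    intro u hu h
    obtain ⟨q, -, rfl⟩ := List.mem_map.1 hu
    have := BU.od_iff.1 h
    simp [BU.kind] at this
  have e0 : (Circ.fu A).pus = BU.fx A.l :: ((BU.fx A.x :: (A.e1 ++ [BU.fx A.X])) ++
      (A.gs.flatMap gpre ++ (A.tl.flatMap Itm.brp ++
        ((A.tl.flatMap Itm.rep).map fun p => BU.ev p.1 p.2)))) := rfl
  rw [e0, List.filter_cons_of_pos (by rfl), List.filter_append, List.filter_cons_of_pos (by rfl),
    List.filter_append, hod, List.filter_append, List.filter_append, od_gpre, od_brs, hod',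
    List.append_nil, List.append_nil]
  rfl

/-- the units of a fused circle satisfy their conditions -/
lemma GC_of_M {A : Fu T} {V : T → B} (hM : (Circ.fu A).M V) : ∀ u ∈ (Circ.fu A).pus, u.GC V := by
  obtain ⟨a, b, hl, hx, hX, he, hg, hi⟩ := hM
  intro u hu
  simp only [pus, List.mem_cons, List.mem_append, List.mem_flatMap, List.not_mem_nil,
    or_false, List.mem_map] at hu
  rcases hu with rfl | (rfl | hu | rfl) | ⟨g, hg', hu⟩ | ⟨i, hi', hu⟩ | ⟨q, ⟨i, hi', hq⟩, rfl⟩
  · trivial
  · trivial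
  · exact (he u hu).1
  · trivial
  · unfold gpre at hu
    rcases List.mem_append.1 hu with hu | hu
    · obtain ⟨i, hi', hu⟩ := List.mem_flatMap.1 hu
      exact (hi i (List.mem_append_left _ (List.mem_flatMap.2 ⟨g, hg', hi'⟩))).2.2 u hu
    · simp only [List.mem_cons, List.not_mem_nil, or_false] at hu
      rw [hu]
      intro q hq
      obtain ⟨i, hi', hq⟩ := List.mem_flatMap.1 hq
      rw [hg g hg']
      exact (hi i (List.mem_append_left _ (List.mem_flatMap.2 ⟨g, hg', hi'⟩))).1 q hq
  · exact (hi i (List.mem_append_right _ hi')).2.2 u hu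
  · obtain ⟨h1, h2⟩ := (hi i (List.mem_append_right _ hi')).1 q hq
    have h3 : V q.1 = V q.2 := by rw [h1, h2]
    exact h3

lemma late_of_M {A : Fu T} {V : T → B} (hM : (Circ.fu A).M V) :
    ∀ p ∈ (Circ.fu A).late, V p.1 = V p.2 := by
  obtain ⟨a, b, hl, hx, hX, he, hg, hi⟩ := hM
  intro p hp
  rcases List.mem_append.1 hp with hp | hp
  · obtain ⟨g, hg', hp⟩ := List.mem_flatMap.1 hp
    obtain ⟨i, hi', hp⟩ := List.mem_flatMap.1 hp
    exact ((hi i (List.mem_append_left _ (List.mem_flatMap.2 ⟨g, hg', hi'⟩))).2.1 p hp).1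
  · obtain ⟨i, hi', hp⟩ := List.mem_flatMap.1 hp
    exact ((hi i (List.mem_append_right _ hi')).2.1 p hp).1

/-- parity of the property `M` -/
theorem WS.parM {c : Circ T} (h : c.WS) {V V' : T → B} (hM : c.M V) (hM' : c.M V') :
    sp V V' c.tks = 0 := by
  have h1 := h.even
  cases c with
  | pl l r us =>
    rw [sp_perm (tks_pl (c := Circ.pl l r us) trivial)]
    exact BU.One.par h1 hM hM'
  | gp l us t g r =>
    rw [sp_perm (tks_pl (c := Circ.gp l us t g r) trivial)]
    exact BU.One.par h1 hM hM'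
  | fu A =>
    have hw := h.fu A rfl
    rw [sp_perm (Circ.fu A).tks_perm, sp_append, sp_ptk (late_of_M hM) (late_of_M hM'), add_zero,
      BU.sum_units (GC_of_M hM) (GC_of_M hM')]
    have h2 : (Circ.fu A).pus.filter (isOdd BU.kind) =
        BU.fx A.l :: BU.fx A.x :: BU.fx A.X :: A.gs.map gtk := fu_filter hw
    rw [fu_filter hw] at h1
    rw [h2]
    obtain ⟨a, b, hl, hx, hX, he, hg, hi⟩ := hM
    obtain ⟨a', b', hl', hx', hX', he', hg', hi'⟩ := hM'
    have h3 : ((A.gs.map gtk).map fun u => BU.val u V * BU.val u V') =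
        A.gs.map fun _ => a * a' := by
      rw [List.map_map]
      refine List.map_congr_left ?_
      intro g hgm
      have h4 : BU.val (gtk g) V = V g.2 := rfl
      have h5 : BU.val (gtk g) V' = V' g.2 := rfl
      simp only [Function.comp, h4, h5, hg g hgm, hg' g hgm]
    have h6 : BU.val (BU.fx A.l) V = a := hl
    have h7 : BU.val (BU.fx A.x) V = b := hx
    have h8 : BU.val (BU.fx A.X) V = b := hX
    have h6' : BU.val (BU.fx A.l) V' = a' := hl'
    have h7' : BU.val (BU.fx A.x) V' = b' := hx'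
    have h8' : BU.val (BU.fx A.X) V' = b' := hX'
    rw [List.map_cons, List.map_cons, List.map_cons, h3, List.sum_cons, List.sum_cons,
      List.sum_cons, List.map_const', List.sum_replicate, h6, h7, h8, h6', h7', h8', nsmul_eq_mul]
    have h9 : Even (A.gs.length + 1) := by
      simp only [List.length_cons, List.length_map] at h1
      rw [show A.gs.length + 1 + 1 + 1 = A.gs.length + 1 + 2 by omega] at h1
      exact (Nat.even_add.1 h1).2 (by decide)
    have h10 := BU.b_len h9 (a * a')
    push_cast at h10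
    have h11 := b_add_self (b * b')
    linear_combination h10 + h11

/-! ## congruences -/

lemma fin_congr {c : Circ T} {pr pr' : T → Bool} {s : T → Bool}
    (h : ∀ A, c = Circ.fu A → ∀ g ∈ A.gs, ∀ a b, Itm.re a b ∈ g.1 → pr a = pr' a) :
    c.fin pr s = c.fin pr' s := by
  cases c with
  | pl l r us => rfl
  | gp l us t g r => rfl
  | fu A =>
    have h1 : ∀ g ∈ A.gs, gfin pr (s g.2) g = gfin pr' (s g.2) g := by
      intro g hg
      have h2 : ∀ i ∈ g.1, i.isP pr = i.isP pr' := by
        intro i hi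
        cases i with
        | re a b => exact h A rfl g hg a b hi
        | la a b => rfl
        | br t x m => rfl
      have key : ∀ m : List (Itm T), (∀ i ∈ m, i.isP pr = i.isP pr') →
          hd1 pr m = hd1 pr' m ∧ hd2 pr m = hd2 pr' m := by
        intro m hm
        unfold hd1 hd2
        induction m with
        | nil => exact ⟨rfl, rfl⟩
        | cons i m ih =>
          obtain ⟨i1, i2⟩ := ih fun j hj => hm j (List.mem_cons_of_mem _ hj)
          have h4 := hm i List.mem_cons_self
          simp only [List.takeWhile_cons, List.dropWhile_cons, h4]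
          constructor
          · split_ifs
            · rw [i1]
            · rfl
          · split_ifs
            · rw [i2]
            · rfl
      obtain ⟨h5, h6⟩ := key g.1 h2
      unfold gfin
      rw [h5, h6]
    have h2 : (A.gs.flatMap fun g => gfin pr (s g.2) g) =
        A.gs.flatMap fun g => gfin pr' (s g.2) g := List.flatMap_congr h1
    unfold fin
    simp only [h2]

lemma pus_main_mem {c : Circ T} {u : BU T} (hu : u ∈ c.pus) : u.main ∈ c.tks :=
  c.tks_perm.mem_iff.2 (List.mem_append_left _ (List.mem_flatMap.2 ⟨u, hu, u.main_mem⟩))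

lemma fin_congr_s {c : Circ T} {pr : T → Bool} {s s' : T → Bool}
    (h : ∀ t ∈ c.tks, s t = s' t) : c.fin pr s = c.fin pr s' := by
  cases c with
  | pl l r us =>
    exact BU.word_congr fun u hu _ => h _ (pus_main_mem (c := Circ.pl l r us) hu)
  | gp l us t g r =>
    exact BU.word_congr fun u hu _ => h _ (pus_main_mem (c := Circ.gp l us t g r) hu)
  | fu A =>
    have h1 : BU.word (BU.sg s) A.e1 = BU.word (BU.sg s') A.e1 := by
      refine BU.word_congr fun u hu _ => h _ (pus_main_mem (c := Circ.fu A) ?_)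
      unfold pus
      simp [hu]
    have h2 : (A.gs.flatMap fun g => gfin pr (s g.2) g) =
        A.gs.flatMap fun g => gfin pr (s' g.2) g := by
      refine List.flatMap_congr fun g hg => ?_
      rw [h g.2 ?_]
      have h3 : gtk g ∈ (Circ.fu A).pus := by
        have : gtk g ∈ A.gs.flatMap gpre := by
          refine List.mem_flatMap.2 ⟨g, hg, ?_⟩
          unfold gpre gtk
          simp
        unfold pus
        simp only [List.mem_cons, List.mem_append]
        exact Or.inr (Or.inr (Or.inl this))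
      exact pus_main_mem h3
    have e : ∀ s : T → Bool, (Circ.fu A).fin pr s = (true, A.l) :: (true, A.x) ::
        (BU.word (BU.sg s) A.e1 ++ ((true, A.X) ::
      ((A.gs.flatMap fun g => gfin pr (s g.2) g) ++ A.tl.flatMap Itm.rd))) := fun s => rfl
    rw [e, e, h1, h2]

lemma hs_congr {U : Type*} {st st' : U → Bool} {t : List U} (h : ∀ u ∈ t, st u = st' u) :
    hs st t = hs st' t := by
  unfold hs
  congr 1
  exact List.map_congr_left fun u hu => by rw [h u hu]

lemma CC.congr {c : Circ T} {s s' : T → Bool} (hw : c.WS) (h : ∀ t ∈ c.tks, s t = s' t)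
    (hC : c.CC s) : c.CC s' := by
  have h1 : ∀ u ∈ c.pus.filter BU.od, BU.sg s u = BU.sg s' u := fun u hu =>
    h _ (pus_main_mem (List.mem_filter.1 hu).1)
  refine ⟨?_, ?_, ?_, ?_⟩
  · rintro A rfl
    obtain ⟨h2, h3, h4⟩ := hC.fu A rfl
    have e : ∀ t, t = A.l ∨ t = A.x ∨ t = A.X → t ∈ (Circ.fu A).tks := by
      intro t ht
      have e0 : (Circ.fu A).tks = A.l :: A.x :: (A.e1.flatMap BU.tks ++ (A.X ::
        ((A.gs.flatMap fun g => g.1.flatMap Itm.tks ++ [g.2]) ++ A.tl.flatMap Itm.tks))) := rfl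
      rw [e0]
      rcases ht with rfl | rfl | rfl <;> simp
    exact ⟨by rw [← h _ (e _ (Or.inl rfl))]; exact h2,
      by rw [← h _ (e _ (Or.inr (Or.inl rfl)))]; exact h3,
      by rw [← h _ (e _ (Or.inr (Or.inr rfl)))]; exact h4⟩
  · rintro l us t g r rfl
    have h2 := hC.gp l us t g r rfl
    have e0 : (Circ.gp l us t g r).tks = us.flatMap BU.tks ++ (t :: (g.flatMap Itm.tks ++ [r])) :=
      rfl
    rw [← h t (by rw [e0]; simp), ← h r (by rw [e0]; simp)]
    exact h2
  · rw [← hs_congr h1]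
    exact hC.tot
  · intro os₁ os₂ e
    rw [← hs_congr (t := os₁) fun u hu => h1 u (by rw [e]; exact List.mem_append_left _ hu)]
    exact hC.bd os₁ os₂ e

end Circ

end Pool.Agent.MP42.U
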