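import Pool.Agent.MP42.U.Sys

/-!
# The extension theorem

`Sp pr w ps`: the word `w` consists of present letters and of adjacent absent pairs `ps`.
`Circ.ext`: the values of the absent tokens of one circle; `ext`: all circles.
-/

set_option autoImplicit false

namespace Pool.Agent.MP42.U

variable {T : Type*}

/-- the present letters -/
def fp (pr : T → Bool) (w : List (Bool × T)) : List (Bool × T) := w.filter fun q => pr q.2

@[simp] lemma fp_nil (pr : T → Bool) : fp pr [] = [] := rfl

lemma fp_cons (pr : T → Bool) (q : Bool × T) (w : List (Bool × T)) :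
    fp pr (q :: w) = (if pr q.2 then [q] else []) ++ fp pr w := by
  unfold fp
  cases h : pr q.2
  · rw [List.filter_cons_of_neg (by simp [h])]; simp
  · rw [List.filter_cons_of_pos (by simp [h])]; simp

@[simp] lemma fp_append (pr : T → Bool) (w w' : List (Bool × T)) :
    fp pr (w ++ w') = fp pr w ++ fp pr w' := by simp [fp]

lemma fp_congr {pr pr' : T → Bool} {w : List (Bool × T)} (h : ∀ q ∈ w, pr q.2 = pr' q.2) :
    fp pr w = fp pr' w := List.filter_congr h

lemma fp_all {pr : T → Bool} {w : List (Bool × T)} (h : ∀ q ∈ w, pr q.2 = true) :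
    fp pr w = w := List.filter_eq_self.2 h

lemma fp_none {pr : T → Bool} {w : List (Bool × T)} (h : ∀ q ∈ w, pr q.2 = false) :
    fp pr w = [] := by
  unfold fp
  rw [List.filter_eq_nil_iff]
  intro q hq
  rw [h q hq]
  decide

lemma lv_congr {V V' : T → B} {w : List (Bool × T)} (h : ∀ q ∈ w, V q.2 = V' q.2) :
    lv V w = lv V' w := by
  unfold lv
  exact List.map_congr_left fun q hq => by rw [h q hq]

lemma Cl.congr {V V' : T → B} {w : List (Bool × T)} (hC : Cl V w)
    (h : ∀ q ∈ w, V q.2 = V' q.2) : Cl V' w := by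
  obtain ⟨S, h1, h2⟩ := hC
  exact ⟨S, by rw [← lv_congr h]; exact h1, h2⟩

/-- the word consists of present letters and adjacent absent pairs -/
inductive Sp (pr : T → Bool) : List (Bool × T) → List (T × T) → Prop
  /-- empty -/
  | nil : Sp pr [] []
  /-- a present letter -/
  | keep {q : Bool × T} {w : List (Bool × T)} {ps : List (T × T)} (h : pr q.2 = true)
      (hw : Sp pr w ps) : Sp pr (q :: w) ps
  /-- an absent pair -/
  | pair {a b : T} {w : List (Bool × T)} {ps : List (T × T)} (ha : pr a = false)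
      (hb : pr b = false) (hw : Sp pr w ps) :
      Sp pr ((true, a) :: (false, b) :: w) ((a, b) :: ps)

namespace Sp

variable {pr : T → Bool}

lemma append {w w' : List (Bool × T)} {ps ps' : List (T × T)} (h : Sp pr w ps)
    (h' : Sp pr w' ps') : Sp pr (w ++ w') (ps ++ ps') := by
  induction h with
  | nil => exact h'
  | keep h _ ih => exact Sp.keep h ih
  | pair ha hb _ ih => exact Sp.pair ha hb ih

lemma sub {w : List (Bool × T)} {ps : List (T × T)} (h : Sp pr w ps) :
    (ptk ps).Sublist (w.map Prod.snd) := by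
  induction h with
  | nil => exact List.Sublist.refl _
  | keep h _ ih => exact ih.cons _
  | pair ha hb _ ih =>
    rw [ptk_cons]
    exact (ih.cons_cons _).cons_cons _

lemma absent {w : List (Bool × T)} {ps : List (T × T)} (h : Sp pr w ps) :
    ∀ t ∈ ptk ps, pr t = false := by
  induction h with
  | nil => intro t ht; simp at ht
  | keep h _ ih => exact ih
  | @pair a b w ps ha hb _ ih =>
    intro t ht
    rw [ptk_cons] at ht
    rcases List.mem_cons.1 ht with rfl | ht
    · exact ha
    rcases List.mem_cons.1 ht with rfl | ht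
    · exact hb
    · exact ih t ht

/-- insertion of the absent pairs -/
lemma run {w : List (Bool × T)} {ps : List (T × T)} (h : Sp pr w ps) :
    (w.map Prod.snd).Nodup → ∀ {V : T → B} {S S' : ℕ → B}, Run (lv V (fp pr w)) S S' →
      ∃ V' : T → B, (∀ t, t ∉ ptk ps → V' t = V t) ∧ (∀ p ∈ ps, V' p.1 = V' p.2) ∧
        Run (lv V' w) S S' := by
  classical
  induction h with
  | nil =>
    intro _ V S S' hR
    exact ⟨V, fun _ _ => rfl, by simp, hR⟩
  | @keep q w ps hq hw ih =>
    intro hn V S S' hR
    rw [List.map_cons] at hn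
    obtain ⟨hn1, hn2⟩ := List.nodup_cons.1 hn
    rw [fp_cons, if_pos hq] at hR
    have hV : ∀ V' : T → B, (∀ t, t ∉ ptk ps → V' t = V t) → V' q.2 = V q.2 := by
      intro V' h
      refine h _ ?_
      intro h1
      rw [hw.absent _ h1] at hq
      simp at hq
    obtain ⟨b, t⟩ := q
    cases b
    · have h1 : Run (lv V (fp pr w)) (push (V t) S) S' := hR
      obtain ⟨V', h2, h3, h4⟩ := ih hn2 h1
      refine ⟨V', h2, h3, ?_⟩
      have h5 : V' t = V t := hV V' h2
      change Run (lv V' w) (push (V' t) S) S'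
      rw [h5]
      exact h4
    · have h1 : V t = S 0 ∧ Run (lv V (fp pr w)) (tl S) S' := hR
      obtain ⟨V', h2, h3, h4⟩ := ih hn2 h1.2
      refine ⟨V', h2, h3, ?_⟩
      have h5 : V' t = V t := hV V' h2
      exact ⟨by rw [h5]; exact h1.1, h4⟩
  | @pair a b w ps ha hb hw ih =>
    intro hn V S S' hR
    rw [List.map_cons, List.map_cons] at hn
    obtain ⟨hn1, hn2⟩ := List.nodup_cons.1 hn
    obtain ⟨hn3, hn4⟩ := List.nodup_cons.1 hn2
    rw [fp_cons, fp_cons, if_neg (by simp [ha]), if_neg (by simp [hb]), List.nil_append,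
      List.nil_append] at hR
    obtain ⟨V', h2, h3, h4⟩ := ih hn4 hR
    have haw : a ∉ w.map Prod.snd := fun h => hn1 (List.mem_cons_of_mem _ h)
    have hbw : b ∉ w.map Prod.snd := hn3
    have key : ∀ t ∈ w.map Prod.snd, (if t = a ∨ t = b then S 0 else V' t) = V' t := by
      intro t ht
      rw [if_neg]
      rintro (rfl | rfl)
      · exact haw ht
      · exact hbw ht
    refine ⟨fun t => if t = a ∨ t = b then S 0 else V' t, ?_, ?_, ?_⟩
    · intro t ht
      rw [ptk_cons] at ht
      simp only [List.mem_cons, not_or] at ht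
      have : ¬ (t = a ∨ t = b) := by
        rintro (h | h)
        · exact ht.1 h
        · exact ht.2.1 h
      simp only [this, if_false]
      exact h2 t ht.2.2
    · intro p hp
      rcases List.mem_cons.1 hp with rfl | hp
      · simp
      · have hm : ∀ t, t ∈ ptk ps → t ∈ w.map Prod.snd := fun t ht => hw.sub.subset ht
        have hp1 : p.1 ∈ ptk ps := List.mem_flatMap.2 ⟨p, hp, by simp⟩
        have hp2 : p.2 ∈ ptk ps := List.mem_flatMap.2 ⟨p, hp, by simp⟩
        exact (key _ (hm _ hp1)).trans ((h3 p hp).trans (key _ (hm _ hp2)).symm)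
    · have e1 : lv (fun t => if t = a ∨ t = b then S 0 else V' t) w = lv V' w :=
        lv_congr fun q hq => key _ (List.mem_map_of_mem hq)
      have e2 : Run (lv V' w) (push (S 0) (tl S)) S' := by rw [push_tl]; exact h4
      rw [lv_cons, lv_cons, e1]
      simp only [true_or, or_true, if_true]
      exact ⟨rfl, e2⟩

end Sp

/-- as `Sp`; all absent pairs in `E` are met -/
def SpE (pr : T → Bool) (w : List (Bool × T)) (E : List (T × T)) : Prop :=
  ∃ ps, Sp pr w ps ∧ ∀ p ∈ E, pr p.1 = false → p ∈ ps ∨ p.swap ∈ ps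

namespace SpE

variable {pr : T → Bool}

lemma nil : SpE pr ([] : List (Bool × T)) [] := ⟨[], Sp.nil, by simp⟩

lemma append {w w' : List (Bool × T)} {E E' : List (T × T)} (h : SpE pr w E)
    (h' : SpE pr w' E') : SpE pr (w ++ w') (E ++ E') := by
  obtain ⟨ps, h1, h2⟩ := h
  obtain ⟨ps', h3, h4⟩ := h'
  refine ⟨ps ++ ps', h1.append h3, ?_⟩
  intro p hp hpr
  rcases List.mem_append.1 hp with hp | hp
  · rcases h2 p hp hpr with h | h
    · exact Or.inl (List.mem_append_left _ h)
    · exact Or.inr (List.mem_append_left _ h)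
  · rcases h4 p hp hpr with h | h
    · exact Or.inl (List.mem_append_right _ h)
    · exact Or.inr (List.mem_append_right _ h)

lemma keep {q : Bool × T} {w : List (Bool × T)} {E : List (T × T)} (hq : pr q.2 = true)
    (h : SpE pr w E) : SpE pr (q :: w) E := by
  obtain ⟨ps, h1, h2⟩ := h
  exact ⟨ps, Sp.keep hq h1, h2⟩

lemma mono {w : List (Bool × T)} {E E' : List (T × T)} (h : SpE pr w E)
    (hE : ∀ p ∈ E', p ∈ E) : SpE pr w E' := by
  obtain ⟨ps, h1, h2⟩ := h
  exact ⟨ps, h1, fun p hp => h2 p (hE p hp)⟩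

lemma of_mem {w : List (Bool × T)} {E E' : List (T × T)} (h : SpE pr w E)
    (hE : ∀ p ∈ E', p ∈ E ∨ p.swap ∈ E) (hpr : ∀ p ∈ E', pr p.1 = pr p.2) : SpE pr w E' := by
  obtain ⟨ps, h1, h2⟩ := h
  refine ⟨ps, h1, ?_⟩
  intro p hp hp1
  rcases hE p hp with h | h
  · exact h2 p h hp1
  · have h3 : pr p.swap.1 = false := by
      have : p.swap.1 = p.2 := rfl
      rw [this, ← hpr p hp]; exact hp1
    rcases h2 _ h h3 with h4 | h4
    · exact Or.inr h4
    · rw [Prod.swap_swap] at h4
      exact Or.inl h4

lemma up {m : List (T × T)} (h : ∀ p ∈ m, pr p.1 = pr p.2) : SpE pr (U.up m) m := by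
  induction m with
  | nil => exact nil
  | cons p m ih =>
    obtain ⟨ps, h1, h2⟩ := ih fun q hq => h q (List.mem_cons_of_mem _ hq)
    have h0 := h p List.mem_cons_self
    cases hp : pr p.1
    · refine ⟨p :: ps, ?_, ?_⟩
      · rw [up_cons]
        exact Sp.pair hp (by rw [← h0]; exact hp) h1
      · intro q hq hq'
        rcases List.mem_cons.1 hq with rfl | hq
        · exact Or.inl List.mem_cons_self
        · rcases h2 q hq hq' with h | h
          · exact Or.inl (List.mem_cons_of_mem _ h)
          · exact Or.inr (List.mem_cons_of_mem _ h)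
    · refine ⟨ps, ?_, ?_⟩
      · rw [up_cons]
        exact Sp.keep hp (Sp.keep (by rw [← h0]; exact hp) h1)
      · intro q hq hq'
        rcases List.mem_cons.1 hq with rfl | hq
        · rw [hp] at hq'; simp at hq'
        · exact h2 q hq hq'

lemma dn {m : List (T × T)} (h : ∀ p ∈ m, pr p.1 = pr p.2) : SpE pr (U.dn m) m := by
  rw [dn_eq_up]
  refine of_mem (E := m.reverse.map Prod.swap) (up ?_) ?_ h
  · intro p hp
    obtain ⟨q, hq, rfl⟩ := List.mem_map.1 hp
    exact (h q (List.mem_reverse.1 hq)).symm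
  · intro p hp
    exact Or.inr (List.mem_map_of_mem (List.mem_reverse.2 hp))

/-- insertion of the absent pairs -/
lemma run {w : List (Bool × T)} {E : List (T × T)} (h : SpE pr w E)
    (hn : (w.map Prod.snd).Nodup) {V : T → B} {S S' : ℕ → B} (hR : Run (lv V (fp pr w)) S S') :
    ∃ V' : T → B, (∀ t, (pr t = true ∨ t ∉ w.map Prod.snd) → V' t = V t) ∧
      (∀ p ∈ E, pr p.1 = false → V' p.1 = V' p.2) ∧ Run (lv V' w) S S' := by
  obtain ⟨ps, h1, h2⟩ := h
  obtain ⟨V', h3, h4, h5⟩ := h1.run hn hR
  refine ⟨V', ?_, ?_, h5⟩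
  · intro t ht
    refine h3 t ?_
    intro h
    rcases ht with ht | ht
    · rw [h1.absent t h] at ht; simp at ht
    · exact ht (h1.sub.subset h)
  · intro p hp hpr
    rcases h2 p hp hpr with h | h
    · exact h4 p h
    · exact (h4 _ h).symm

/-- the word of units -/
lemma word {st : BU T → Bool} {us : List (BU T)} (h : ∀ u ∈ us, ∀ p ∈ u.evs, pr p.1 = pr p.2)
    (h' : ∀ u ∈ us, ∀ t ∈ u.tks, pr t = false → ∃ p ∈ u.evs, t = p.1 ∨ t = p.2)
    (hn : ∀ u ∈ us, u.tks.Nodup) :
    SpE pr (BU.word st us) (us.flatMap BU.evs) := by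
  induction us with
  | nil => exact nil
  | cons u us ih =>
    rw [BU.word_cons, List.flatMap_cons]
    refine append ?_ (ih (fun w hw => h w (List.mem_cons_of_mem _ hw))
      (fun w hw => h' w (List.mem_cons_of_mem _ hw)) (fun w hw => hn w (List.mem_cons_of_mem _ hw)))
    have h1 := h u List.mem_cons_self
    have h2 := h' u List.mem_cons_self
    have h3 := hn u List.mem_cons_self
    cases u with
    | fr t =>
      refine keep ?_ nil
      cases hp : pr t
      · obtain ⟨p, hp, -⟩ := h2 t (by simp [BU.tks]) hp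
        simp [BU.evs] at hp
      · rfl
    | fx t =>
      refine keep ?_ nil
      cases hp : pr t
      · obtain ⟨p, hp, -⟩ := h2 t (by simp [BU.tks]) hp
        simp [BU.evs] at hp
      · rfl
    | ev a b => exact up (m := [(a, b)]) h1
    | br t x m =>
      have h4 : (t :: (ptk m ++ [x])).Nodup := h3
      obtain ⟨h5, h6⟩ := List.nodup_cons.1 h4
      obtain ⟨-, -, h7⟩ := List.nodup_append.1 h6
      have h8 : ∀ y, (∃ p ∈ m, y = p.1 ∨ y = p.2) → y ∈ ptk m := by
        rintro y ⟨p, hp, h | h⟩
        · exact List.mem_flatMap.2 ⟨p, hp, by simp [h]⟩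
        · exact List.mem_flatMap.2 ⟨p, hp, by simp [h]⟩
      refine keep ?_ ?_
      · cases hp : pr t
        · exact absurd (List.mem_append_left _ (h8 t (h2 t (by simp [BU.tks]) hp))) h5
        · rfl
      · have h9 : SpE pr (U.up m ++ [(true, x)]) (m ++ []) := by
          refine append (up h1) (keep ?_ nil)
          cases hp : pr x
          · exact absurd rfl (h7 x (h8 x (h2 x (by simp [BU.tks]) hp)) x (by simp))
          · rfl
        rw [List.append_nil] at h9
        exact h9
    | gu m t =>
      have h4 : (ptk m ++ [t]).Nodup := h3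
      obtain ⟨-, -, h7⟩ := List.nodup_append.1 h4
      have h8 : ∀ y, (∃ p ∈ m, y = p.1 ∨ y = p.2) → y ∈ ptk m := by
        rintro y ⟨p, hp, h | h⟩
        · exact List.mem_flatMap.2 ⟨p, hp, by simp [h]⟩
        · exact List.mem_flatMap.2 ⟨p, hp, by simp [h]⟩
      have ht : pr t = true := by
        cases hp : pr t
        · exact absurd rfl (h7 t (h8 t (h2 t (by simp [BU.tks]) hp)) t (by simp))
        · rfl
      cases st (BU.gu m t)
      · exact keep ht (dn h1)
      · have h9 : SpE pr (U.up m ++ [(true, t)]) (m ++ []) := append (up h1) (keep ht nil)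
        rw [List.append_nil] at h9
        exact h9
    | gv t m =>
      have h4 : (t :: ptk m).Nodup := h3
      have h7 := (List.nodup_cons.1 h4).1
      have h8 : ∀ y, (∃ p ∈ m, y = p.1 ∨ y = p.2) → y ∈ ptk m := by
        rintro y ⟨p, hp, h | h⟩
        · exact List.mem_flatMap.2 ⟨p, hp, by simp [h]⟩
        · exact List.mem_flatMap.2 ⟨p, hp, by simp [h]⟩
      have ht : pr t = true := by
        cases hp : pr t
        · exact absurd (h8 t (h2 t (by simp [BU.tks]) hp)) h7
        · rfl
      cases st (BU.gv t m)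
      · exact keep ht (up h1)
      · have h9 : SpE pr (U.dn m ++ [(true, t)]) (m ++ []) := append (dn h1) (keep ht nil)
        rw [List.append_nil] at h9
        exact h9

end SpE

lemma fp_up {pr : T → Bool} {m : List (T × T)} (h : ∀ p ∈ m, pr p.1 = pr p.2) :
    fp pr (up m) = up (m.filter fun p => pr p.1) := by
  induction m with
  | nil => rfl
  | cons p m ih =>
    have h0 := h p List.mem_cons_self
    rw [up_cons, fp_cons, fp_cons, ih fun q hq => h q (List.mem_cons_of_mem _ hq)]
    cases hp : pr p.1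
    · rw [List.filter_cons_of_neg (by simp [hp])]
      rw [← h0, hp]
      rfl
    · rw [List.filter_cons_of_pos (by simp [hp]), ← h0, hp]
      rfl

lemma fp_dn {pr : T → Bool} {m : List (T × T)} (h : ∀ p ∈ m, pr p.1 = pr p.2) :
    fp pr (dn m) = dn (m.filter fun p => pr p.1) := by
  induction m with
  | nil => rfl
  | cons p m ih =>
    have h0 := h p List.mem_cons_self
    rw [dn_cons, fp_append, fp_cons, fp_cons, ih fun q hq => h q (List.mem_cons_of_mem _ hq)]
    cases hp : pr p.1
    · rw [List.filter_cons_of_neg (by simp [hp])]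
      simp only [← h0, hp]
      simp
    · rw [List.filter_cons_of_pos (by simp [hp]), dn_cons]
      simp only [← h0, hp]
      rfl

lemma run_up_push {V : T → B} {ps : List (T × T)} : ∀ {u : B} {S S' : ℕ → B},
    Run (lv V (up ps)) (push u S) S' → ∃ w, S' = push w S ∧ ∀ S₀ : ℕ → B,
      Run (lv V (up ps)) (push u S₀) (push w S₀) ∧ Run (lv V (dn ps)) (push w S₀) (push u S₀) := by
  induction ps with
  | nil =>
    intro u S S' h
    exact ⟨u, Eq.symm h, fun S₀ => ⟨rfl, rfl⟩⟩
  | cons p ps ih =>
    intro u S S' h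
    have h1 : V p.1 = u ∧ Run (lv V (up ps)) (push (V p.2) (tl (push u S))) S' := h
    rw [tl_push] at h1
    obtain ⟨h2, h3⟩ := h1
    obtain ⟨w, h4, h5⟩ := ih h3
    refine ⟨w, h4, fun S₀ => ⟨?_, ?_⟩⟩
    · have h6 : V p.1 = u ∧ Run (lv V (up ps)) (push (V p.2) (tl (push u S₀))) (push w S₀) := by
        rw [tl_push]
        exact ⟨h2, (h5 S₀).1⟩
      exact h6
    · rw [dn_cons, lv_append, run_append]
      refine ⟨push (V p.2) S₀, (h5 S₀).2, ?_⟩
      have h6 : V p.2 = V p.2 ∧ push (V p.1) (tl (push (V p.2) S₀)) = push u S₀ := by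
        rw [tl_push, h2]
        exact ⟨rfl, rfl⟩
      exact h6

/-- the word of a bracket does not depend on the stack -/
lemma run_br {pr : T → Bool} {t x : T} {m : List (T × T)} (ht : pr t = true) (hx : pr x = true)
    (h : ∀ p ∈ m, pr p.1 = pr p.2) {V : T → B} {S S' : ℕ → B}
    (hR : Run (lv V (fp pr ((false, t) :: (up m ++ [(true, x)])))) S S') :
    S' = S ∧ ∀ S₀, Run (lv V (fp pr ((false, t) :: (up m ++ [(true, x)])))) S₀ S₀ := by
  have e1 : fp pr ((false, t) :: (up m ++ [(true, x)])) =
      (false, t) :: (up (m.filter fun p => pr p.1) ++ [(true, x)]) := by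
    rw [fp_cons, if_pos ht, fp_append, fp_up h, fp_cons, if_pos hx]
    rfl
  rw [e1] at hR ⊢
  have h1 : Run (lv V (up (m.filter fun p => pr p.1) ++ [(true, x)])) (push (V t) S) S' := hR
  rw [lv_append, run_append] at h1
  obtain ⟨S₁, h2, h3⟩ := h1
  obtain ⟨w, h4, h5⟩ := run_up_push h2
  have h6 : V x = S₁ 0 ∧ tl S₁ = S' := h3
  rw [h4, tl_push] at h6
  have h7 : V x = w := h6.1
  refine ⟨h6.2.symm, ?_⟩
  intro S₀
  have h8 : Run (lv V (up (m.filter fun p => pr p.1) ++ [(true, x)])) (push (V t) S₀) S₀ := by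
    rw [lv_append, run_append]
    refine ⟨push w S₀, (h5 S₀).1, ?_⟩
    have h9 : V x = w ∧ tl (push w S₀) = S₀ := ⟨h7, tl_push _ _⟩
    exact h9
  exact h8

namespace Itm

/-- the pairs are present or absent, the brackets are present -/
def Ok (pr : T → Bool) : Itm T → Prop
  | re a b => pr a = pr b
  | la a b => pr a = pr b
  | br t x m => pr t = true ∧ pr x = true ∧ ∀ p ∈ m, pr p.1 = pr p.2

lemma Ok.evs {pr : T → Bool} {i : Itm T} (h : i.Ok pr) : ∀ p ∈ i.evs, pr p.1 = pr p.2 := by
  cases i with
  | re a b =>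
    intro p hp
    rw [List.mem_singleton.1 hp]
    exact h
  | la a b =>
    intro p hp
    rw [List.mem_singleton.1 hp]
    exact h
  | br t x m => exact h.2.2

lemma pairs_evs {i : Itm T} : ∀ p ∈ i.pairs, p ∈ i.evs := by
  cases i with
  | re a b => exact fun p hp => hp
  | la a b => exact fun p hp => hp
  | br t x m => intro p hp; simp [pairs] at hp

lemma rep_pairs {i : Itm T} : ∀ p ∈ i.rep, p ∈ i.pairs := by
  cases i with
  | re a b => exact fun p hp => hp
  | la a b => intro p hp; simp [rep] at hp
  | br t x m => intro p hp; simp [rep] at hp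

lemma lap_pairs {i : Itm T} : ∀ p ∈ i.lap, p ∈ i.pairs := by
  cases i with
  | re a b => intro p hp; simp [lap] at hp
  | la a b => exact fun p hp => hp
  | br t x m => intro p hp; simp [lap] at hp

/-- the pairs of the brackets -/
def bev : Itm T → List (T × T)
  | br _ _ m => m
  | _ => []

lemma evs_cases {i : Itm T} {p : T × T} (hp : p ∈ i.evs) : p ∈ i.rep ∨ p ∈ i.lap ∨ p ∈ i.bev := by
  cases i with
  | re a b => exact Or.inl hp
  | la a b => exact Or.inr (Or.inl hp)
  | br t x m => exact Or.inr (Or.inr hp)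

lemma Ok.rd {pr : T → Bool} {i : Itm T} (h : i.Ok pr) : SpE pr i.rd i.evs := by
  cases i with
  | re a b => exact SpE.up (m := [(a, b)]) h.evs
  | la a b => exact SpE.up (m := [(a, b)]) h.evs
  | br t x m =>
    have h9 : SpE pr (U.up m ++ [(true, x)]) (m ++ []) :=
      SpE.append (SpE.up h.2.2) (SpE.keep h.2.1 SpE.nil)
    rw [List.append_nil] at h9
    exact SpE.keep h.1 h9

lemma Ok.brp {pr : T → Bool} {i : Itm T} (h : i.Ok pr) :
    SpE pr (BU.word (fun _ => true) i.brp) i.bev := by
  cases i with
  | re a b => exact SpE.nil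
  | la a b => exact SpE.nil
  | br t x m =>
    have h9 := Ok.rd h
    have e : BU.word (fun _ => true) (Itm.brp (br t x m)) = (br t x m).rd := by
      change BU.word (fun _ => true) [BU.br t x m] = _
      rw [BU.word_cons, BU.word_nil, List.append_nil]
      rfl
    rw [e]
    exact h9

end Itm

section items

variable {pr : T → Bool} {m : List (Itm T)}

lemma SpE.flat {α : Type*} {f : α → List (Bool × T)} {g : α → List (T × T)} {l : List α}
    (h : ∀ i ∈ l, SpE pr (f i) (g i)) : SpE pr (l.flatMap f) (l.flatMap g) := by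
  induction l with
  | nil => exact SpE.nil
  | cons i l ih =>
    rw [List.flatMap_cons, List.flatMap_cons]
    exact SpE.append (h i List.mem_cons_self) (ih fun j hj => h j (List.mem_cons_of_mem _ hj))

lemma word_flat (st : BU T → Bool) {α : Type*} (f : α → List (BU T)) (l : List α) :
    BU.word st (l.flatMap f) = l.flatMap fun i => BU.word st (f i) := by
  induction l with
  | nil => rfl
  | cons i l ih => rw [List.flatMap_cons, BU.word_append, ih, List.flatMap_cons]

lemma up_flat {α : Type*} (f : α → List (T × T)) (l : List α) :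
    up (l.flatMap f) = l.flatMap fun i => up (f i) := by
  induction l with
  | nil => rfl
  | cons i l ih => rw [List.flatMap_cons, up_append, ih, List.flatMap_cons]

lemma ok_pairs (hm : ∀ i ∈ m, i.Ok pr) : ∀ p ∈ m.flatMap Itm.pairs, pr p.1 = pr p.2 := by
  intro p hp
  obtain ⟨i, hi, hp⟩ := List.mem_flatMap.1 hp
  exact (hm i hi).evs p (Itm.pairs_evs p hp)

lemma ok_rep (hm : ∀ i ∈ m, i.Ok pr) : ∀ p ∈ m.flatMap Itm.rep, pr p.1 = pr p.2 := by
  intro p hp
  obtain ⟨i, hi, hp⟩ := List.mem_flatMap.1 hp
  exact (hm i hi).evs p (Itm.pairs_evs p (Itm.rep_pairs p hp))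

lemma ok_lap (hm : ∀ i ∈ m, i.Ok pr) : ∀ p ∈ m.flatMap Itm.lap, pr p.1 = pr p.2 := by
  intro p hp
  obtain ⟨i, hi, hp⟩ := List.mem_flatMap.1 hp
  exact (hm i hi).evs p (Itm.pairs_evs p (Itm.lap_pairs p hp))

/-- the items: brackets do not depend on the stack, the other pairs one after the other -/
lemma run_items (hm : ∀ i ∈ m, i.Ok pr) {V : T → B} : ∀ {S S' : ℕ → B},
    Run (lv V (fp pr (m.flatMap Itm.rd))) S S' →
      (∀ S₀, Run (lv V (fp pr (BU.word (fun _ => true) (m.flatMap Itm.brp)))) S₀ S₀) ∧
      Run (lv V (fp pr (up (m.flatMap Itm.pairs)))) S S' := by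
  induction m with
  | nil => intro S S' h; exact ⟨fun S₀ => rfl, h⟩
  | cons i m ih =>
    intro S S' h
    rw [List.flatMap_cons, fp_append, lv_append, run_append] at h
    obtain ⟨S₁, h1, h2⟩ := h
    obtain ⟨h3, h4⟩ := ih (fun j hj => hm j (List.mem_cons_of_mem _ hj)) h2
    have h0 := hm i List.mem_cons_self
    rw [List.flatMap_cons, List.flatMap_cons, BU.word_append, up_append, fp_append, fp_append,
      lv_append, lv_append]
    cases i with
    | re a b =>
      refine ⟨fun S₀ => h3 S₀, ?_⟩
      rw [run_append]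
      exact ⟨S₁, h1, h4⟩
    | la a b =>
      refine ⟨fun S₀ => h3 S₀, ?_⟩
      rw [run_append]
      exact ⟨S₁, h1, h4⟩
    | br t x m' =>
      obtain ⟨h5, h6⟩ := run_br h0.1 h0.2.1 h0.2.2 h1
      refine ⟨fun S₀ => ?_, ?_⟩
      · rw [run_append]
        refine ⟨S₀, ?_, h3 S₀⟩
        have e : BU.word (fun _ => true) (Itm.brp (Itm.br t x m')) =
            (false, t) :: (up m' ++ [(true, x)]) := by
          change BU.word (fun _ => true) [BU.br t x m'] = _
          rw [BU.word_cons, BU.word_nil, List.append_nil]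
          rfl
        rw [e]
        exact h6 S₀
      · rw [run_append]
        refine ⟨S, rfl, ?_⟩
        rw [← h5]
        exact h4

lemma fp_pairs (hm : ∀ i ∈ m, i.Ok pr) (hp : ∀ i ∈ m, i.isP pr = false) :
    fp pr (up (m.flatMap Itm.pairs)) = fp pr (up (m.flatMap Itm.lap)) := by
  induction m with
  | nil => rfl
  | cons i m ih =>
    rw [List.flatMap_cons, List.flatMap_cons, up_append, up_append, fp_append, fp_append,
      ih (fun j hj => hm j (List.mem_cons_of_mem _ hj))
        (fun j hj => hp j (List.mem_cons_of_mem _ hj))]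
    congr 1
    have h0 := hm i List.mem_cons_self
    have h1 := hp i List.mem_cons_self
    cases i with
    | re a b =>
      have ha : pr a = false := h1
      have hab : pr a = pr b := h0
      have hb : pr b = false := by rw [← hab]; exact ha
      refine fp_none ?_
      intro q hq
      have h2 : q ∈ [((true, a) : Bool × T), (false, b)] := hq
      simp only [List.mem_cons, List.not_mem_nil, or_false] at h2
      rcases h2 with rfl | rfl
      · exact ha
      · exact hb
    | la a b => rfl
    | br t x m' => rfl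

lemma fp_rep (hm : ∀ i ∈ m, i.Ok pr) (hp : ∀ i ∈ m, i.isP pr = false) :
    fp pr (dn (m.flatMap Itm.rep)) = [] := by
  rw [fp_dn (ok_rep hm)]
  have : (m.flatMap Itm.rep).filter (fun p => pr p.1) = [] := by
    rw [List.filter_eq_nil_iff]
    intro p hp'
    obtain ⟨i, hi, hp'⟩ := List.mem_flatMap.1 hp'
    have h1 := hp i hi
    cases i with
    | re a b =>
      have ha : pr a = false := h1
      rw [List.mem_singleton.1 hp']
      simp [ha]
    | la a b => simp [Itm.rep] at hp'
    | br t x m' => simp [Itm.rep] at hp'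
  rw [this]
  rfl

lemma hd1_isP : ∀ i ∈ hd1 pr m, i.isP pr = false := by
  intro i hi
  have := List.mem_takeWhile_imp hi
  simpa using this

lemma hd_app : hd1 pr m ++ hd2 pr m = m := List.takeWhile_append_dropWhile

lemma hd2_cons {i : Itm T} {m' : List (Itm T)} (h : hd2 pr m = i :: m') :
    ∃ a b, i = Itm.re a b ∧ pr a = true := by
  have h1 : i.isP pr = true := by
    have h2 : ¬ (!(i.isP pr)) = true := by
      have h3 := List.head_dropWhile_not (fun i : Itm T => !(i.isP pr)) (l := m)
        (w := by unfold hd2 at h; rw [h]; exact List.cons_ne_nil _ _)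
      have h4 : (List.dropWhile (fun i : Itm T => !(i.isP pr)) m) = i :: m' := h
      simp only [h4, List.head_cons] at h3
      simp [h3]
    simpa using h2
  cases i with
  | re a b => exact ⟨a, b, rfl, h1⟩
  | la a b => simp [Itm.isP] at h1
  | br t x m' => simp [Itm.isP] at h1

/-- **a group** -/
lemma gact_run {g : List (Itm T) × T} {b : Bool} (hg : ∀ i ∈ g.1, i.Ok pr) (ht : pr g.2 = true)
    {V : T → B} {S S' : ℕ → B} (hR : Run (lv V (gact pr b g)) S S') :
    Run (lv V (fp pr (gfin pr b g))) S S' := by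
  obtain ⟨m, t⟩ := g
  cases b
  swap
  · have e : fp pr (gfin pr true (m, t)) = gact pr true (m, t) := by
      change fp pr (m.flatMap Itm.rd ++ [(true, t)]) = fp pr (m.flatMap Itm.rd) ++ [(true, t)]
      rw [fp_append]
      congr 1
      exact fp_all (by simpa using ht)
    rw [e]
    exact hR
  have hm1 : ∀ i ∈ hd1 pr m, i.Ok pr := fun i hi => hg i (by
    have h : i ∈ hd1 pr m ++ hd2 pr m := List.mem_append_left _ hi
    rw [hd_app] at h; exact h)
  have hm2 : ∀ i ∈ hd2 pr m, i.Ok pr := fun i hi => hg i (by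
    have h : i ∈ hd1 pr m ++ hd2 pr m := List.mem_append_right _ hi
    rw [hd_app] at h; exact h)
  have e1 : gfin pr false (m, t) = BU.word (fun _ => true) (m.flatMap Itm.brp) ++
    (up ((hd1 pr m).flatMap Itm.lap) ++ ((false, t) ::
      (dn ((hd2 pr m).flatMap Itm.pairs) ++ dn ((hd1 pr m).flatMap Itm.rep)))) := rfl
  rw [e1, fp_append, fp_append, fp_cons, if_pos ht, fp_append, fp_rep hm1 hd1_isP,
    List.append_nil]
  rcases h2 : hd2 pr m with _ | ⟨i, m'⟩
  · have e2 : hd1 pr m = m := by
      have := hd_app (pr := pr) (m := m)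
      rw [h2, List.append_nil] at this
      exact this
    have e3 : gact pr false (m, t) = fp pr (m.flatMap Itm.rd) ++ [(false, t)] := by
      have : gact pr false (m, t) = match hd2 pr m with
        | [] => fp pr (m.flatMap Itm.rd) ++ (if pr t then [(false, t)] else [])
        | i :: m => fp pr ((hd1 pr (i :: m)).flatMap Itm.rd) ++ (i.nn ++
            (fp pr (m.flatMap Itm.rd) ++ [(true, t)])) := by
        unfold gact
        rw [h2]
        rfl
      rw [this, h2]
      simp [ht]
    rw [e3, lv_append, run_append] at hR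
    obtain ⟨S₁, h3, h4⟩ := hR
    obtain ⟨h5, h6⟩ := run_items (fun i hi => hg i hi) h3
    rw [e2, ← fp_pairs hg (by rw [← e2]; exact hd1_isP), lv_append, run_append]
    refine ⟨S, h5 S, ?_⟩
    rw [lv_append, run_append]
    exact ⟨S₁, h6, h4⟩
  · obtain ⟨a, c, rfl, ha⟩ := hd2_cons h2
    have hc : pr c = true := by
      have : pr a = pr c := hm2 (Itm.re a c) (by rw [h2]; exact List.mem_cons_self)
      rw [← this]; exact ha
    have hm' : ∀ i ∈ m', i.Ok pr := fun i hi => hm2 i (by rw [h2]; exact List.mem_cons_of_mem _ hi)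
    have e3 : gact pr false (m, t) = fp pr ((hd1 pr m).flatMap Itm.rd) ++
        ([(false, a), (false, c)] ++ (fp pr (m'.flatMap Itm.rd) ++ [(true, t)])) := by
      unfold gact
      simp only [h2]
      rfl
    rw [e3, lv_append, run_append] at hR
    obtain ⟨S₁, h3, h4⟩ := hR
    have h5 : Run (lv V (fp pr (m'.flatMap Itm.rd) ++ [(true, t)])) (push (V c) (push (V a) S₁))
        S' := h4
    rw [lv_append, run_append] at h5
    obtain ⟨S₂, h6, h7⟩ := h5
    obtain ⟨h8, h9⟩ := run_items hm1 h3
    obtain ⟨h10, h11⟩ := run_items hm' h6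
    rw [fp_up (ok_pairs hm')] at h11
    obtain ⟨w, h12, h13⟩ := run_up_push h11
    have h14 : V t = S₂ 0 ∧ tl S₂ = S' := h7
    rw [h12, tl_push] at h14
    have h15 : V t = w := h14.1
    have e4 : m = hd1 pr m ++ Itm.re a c :: m' := by rw [← h2]; exact hd_app.symm
    have e5 : BU.word (fun _ => true) (m.flatMap Itm.brp) =
        BU.word (fun _ => true) ((hd1 pr m).flatMap Itm.brp) ++
          BU.word (fun _ => true) (m'.flatMap Itm.brp) := by
      conv_lhs => rw [e4]
      rw [List.flatMap_append, List.flatMap_cons, BU.word_append, BU.word_append]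
      rfl
    rw [e5, fp_append, lv_append, lv_append, run_append]
    refine ⟨S, ?_, ?_⟩
    · rw [run_append]
      exact ⟨S, h8 S, h10 S⟩
    · rw [lv_append, run_append]
      refine ⟨S₁, ?_, ?_⟩
      · rw [← fp_pairs hm1 hd1_isP]; exact h9
      · rw [List.flatMap_cons, dn_append, fp_append, fp_dn (ok_pairs hm')]
        have h16 : Run (lv V (dn (List.filter (fun p => pr p.1) (m'.flatMap Itm.pairs)) ++
            fp pr (dn (Itm.re a c).pairs))) (push (V t) S₁) S' := by
          rw [lv_append, run_append]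
          refine ⟨push (V c) S₁, ?_, ?_⟩
          · rw [h15]
            exact (h13 S₁).2
          · have e6 : fp pr (dn (Itm.re a c).pairs) = [(true, c), (false, a)] := by
              have e7 : dn (Itm.re a c).pairs = [(true, c), (false, a)] := rfl
              rw [e7]
              exact fp_all (by
                intro q hq
                simp only [List.mem_cons, List.not_mem_nil, or_false] at hq
                rcases hq with rfl | rfl
                · exact hc
                · exact ha)
            rw [e6]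
            have h17 : V c = V c ∧ push (V a) (tl (push (V c) S₁)) = S' := by
              rw [tl_push]
              exact ⟨rfl, h14.2⟩
            exact h17
        exact h16

end items

section perm

lemma snd_word_brp (l : List (Itm T)) :
    ((BU.word (fun _ => true) (l.flatMap Itm.brp)).map Prod.snd).Perm
      ((l.flatMap Itm.brp).flatMap BU.tks) := BU.word_perm _ _

lemma tks_items (l : List (Itm T)) : (l.flatMap Itm.tks).Perm
    ((l.flatMap Itm.brp).flatMap BU.tks ++ ptk (l.flatMap Itm.pairs)) := by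
  induction l with
  | nil => exact List.Perm.refl _
  | cons i l ih =>
    rw [List.flatMap_cons, List.flatMap_cons, List.flatMap_cons, List.flatMap_append, ptk_append]
    have h1 : i.tks = i.brp.flatMap BU.tks ++ ptk i.pairs := by
      cases i with
      | re a b => rfl
      | la a b => rfl
      | br t x m => simp [Itm.tks, Itm.brp, Itm.pairs, BU.tks]
    rw [h1]
    have h2 := ih
    rw [← Multiset.coe_eq_coe] at h2 ⊢
    simp only [← Multiset.coe_add] at h2 ⊢
    rw [h2]
    abel

lemma tks_pairs (l : List (Itm T)) : (ptk (l.flatMap Itm.pairs)).Perm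
    (ptk (l.flatMap Itm.lap) ++ ptk (l.flatMap Itm.rep)) := by
  induction l with
  | nil => exact List.Perm.refl _
  | cons i l ih =>
    rw [List.flatMap_cons, List.flatMap_cons, List.flatMap_cons, ptk_append, ptk_append,
      ptk_append]
    have h1 : ptk i.pairs = ptk i.lap ++ ptk i.rep := by
      cases i with
      | re a b => rfl
      | la a b => rfl
      | br t x m => rfl
    rw [h1]
    have h2 := ih
    rw [← Multiset.coe_eq_coe] at h2 ⊢
    simp only [← Multiset.coe_add] at h2 ⊢
    rw [h2]
    abel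

lemma rd_sndX (i : Itm T) : i.rd.map Prod.snd = i.tks := by
  cases i with
  | re a b => rfl
  | la a b => rfl
  | br t x m => simp [Itm.rd, Itm.tks, up_snd]

lemma rds_snd (l : List (Itm T)) : (l.flatMap Itm.rd).map Prod.snd = l.flatMap Itm.tks := by
  rw [List.map_flatMap]
  congr 1
  funext i
  exact rd_sndX i

/-- the tokens of a group -/
lemma gfin_permX (pr : T → Bool) (b : Bool) (g : List (Itm T) × T) :
    ((gfin pr b g).map Prod.snd).Perm (g.1.flatMap Itm.tks ++ [g.2]) := by
  obtain ⟨m, t⟩ := g
  cases b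
  swap
  · have e : (gfin pr true (m, t)).map Prod.snd = m.flatMap Itm.tks ++ [t] := by
      change (m.flatMap Itm.rd ++ [(true, t)]).map Prod.snd = _
      rw [List.map_append, rds_snd]
      rfl
    rw [e]
  have e1 : gfin pr false (m, t) = BU.word (fun _ => true) (m.flatMap Itm.brp) ++
    (up ((hd1 pr m).flatMap Itm.lap) ++ ((false, t) ::
      (dn ((hd2 pr m).flatMap Itm.pairs) ++ dn ((hd1 pr m).flatMap Itm.rep)))) := rfl
  have e2 : m = hd1 pr m ++ hd2 pr m := hd_app.symm
  have h1 := snd_word_brp m
  have h2 := tks_items (hd1 pr m)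
  have h3 := tks_items (hd2 pr m)
  have h4 := tks_pairs (hd1 pr m)
  have h5 := dn_perm ((hd2 pr m).flatMap Itm.pairs)
  have h6 := dn_perm ((hd1 pr m).flatMap Itm.rep)
  have e3 : (m.flatMap Itm.brp).flatMap BU.tks = ((hd1 pr m).flatMap Itm.brp).flatMap BU.tks ++
      ((hd2 pr m).flatMap Itm.brp).flatMap BU.tks := by
    conv_lhs => rw [e2]
    rw [List.flatMap_append, List.flatMap_append]
  have e4 : m.flatMap Itm.tks = (hd1 pr m).flatMap Itm.tks ++ (hd2 pr m).flatMap Itm.tks := by
    conv_lhs => rw [e2]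
    rw [List.flatMap_append]
  rw [e1, List.map_append, List.map_append, List.map_cons, List.map_append, up_snd]
  change (_ ++ (_ ++ (t :: _))).Perm (m.flatMap Itm.tks ++ [t])
  rw [e4]
  rw [e3] at h1
  rw [← Multiset.coe_eq_coe] at h1 h2 h3 h4 h5 h6 ⊢
  simp only [← Multiset.coe_add, ← Multiset.cons_coe] at h1 h2 h3 h4 h5 h6 ⊢
  rw [h1, h5, h6, h2, h3, h4]
  simp only [← Multiset.singleton_add, Multiset.coe_nil, add_zero]
  abel

lemma gfins_perm (pr s : T → Bool) (gs : List (List (Itm T) × T)) :
    ((gs.flatMap fun g => gfin pr (s g.2) g).map Prod.snd).Perm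
      (gs.flatMap fun g => g.1.flatMap Itm.tks ++ [g.2]) := by
  induction gs with
  | nil => exact List.Perm.refl _
  | cons g gs ih =>
    rw [List.flatMap_cons, List.flatMap_cons, List.map_append]
    exact (gfin_permX pr _ g).append ih

/-- the tokens of a circle -/
lemma Circ.fin_permX (pr s : T → Bool) (c : Circ T) : ((c.fin pr s).map Prod.snd).Perm c.tks := by
  cases c with
  | pl l r us => exact BU.word_perm _ _
  | fu A =>
    change (((true, A.l) :: (true, A.x) :: (BU.word (BU.sg s) A.e1 ++ ((true, A.X) ::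
      ((A.gs.flatMap fun g => gfin pr (s g.2) g) ++ A.tl.flatMap Itm.rd)))).map Prod.snd).Perm
      (A.l :: A.x :: (A.e1.flatMap BU.tks ++ (A.X ::
      ((A.gs.flatMap fun g => g.1.flatMap Itm.tks ++ [g.2]) ++ A.tl.flatMap Itm.tks))))
    rw [List.map_cons, List.map_cons, List.map_append, List.map_cons, List.map_append, rds_snd]
    exact (((BU.word_perm _ _).append (((gfins_perm pr s A.gs).append_right _).cons _)).cons _).cons
      _
  | gp l us t g r =>
    exact Circ.fin_perm pr s (c := Circ.gp l us t g r) (fun _ _ _ h => by cases h)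
      (fun _ h => by cases h)

end perm

/-- a group -/
lemma gfin_spE {pr pr' : T → Bool} {b : Bool} {g : List (Itm T) × T}
    (hg : ∀ i ∈ g.1, i.Ok pr') (ht : pr' g.2 = true) :
    SpE pr' (gfin pr b g) (g.1.flatMap Itm.evs) := by
  obtain ⟨m, t⟩ := g
  cases b
  swap
  · have h9 : SpE pr' (m.flatMap Itm.rd ++ [(true, t)]) (m.flatMap Itm.evs ++ []) :=
      SpE.append (SpE.flat fun i hi => (hg i hi).rd) (SpE.keep ht SpE.nil)
    rw [List.append_nil] at h9
    exact h9
  have hm1 : ∀ i ∈ hd1 pr m, i.Ok pr' := fun i hi => hg i (by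
    have h : i ∈ hd1 pr m ++ hd2 pr m := List.mem_append_left _ hi
    rw [hd_app] at h; exact h)
  have hm2 : ∀ i ∈ hd2 pr m, i.Ok pr' := fun i hi => hg i (by
    have h : i ∈ hd1 pr m ++ hd2 pr m := List.mem_append_right _ hi
    rw [hd_app] at h; exact h)
  have h1 : SpE pr' (BU.word (fun _ => true) (m.flatMap Itm.brp)) (m.flatMap Itm.bev) := by
    rw [word_flat]
    exact SpE.flat fun i hi => (hg i hi).brp
  have h2 : SpE pr' (up ((hd1 pr m).flatMap Itm.lap)) ((hd1 pr m).flatMap Itm.lap) :=
    SpE.up (ok_lap hm1)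
  have h3 : SpE pr' (dn ((hd2 pr m).flatMap Itm.pairs)) ((hd2 pr m).flatMap Itm.pairs) :=
    SpE.dn (ok_pairs hm2)
  have h4 : SpE pr' (dn ((hd1 pr m).flatMap Itm.rep)) ((hd1 pr m).flatMap Itm.rep) :=
    SpE.dn (ok_rep hm1)
  refine (h1.append (h2.append (SpE.keep (q := (false, t)) ht (h3.append h4)))).mono ?_
  intro p hp
  obtain ⟨i, hi, hp⟩ := List.mem_flatMap.1 hp
  have hi' : i ∈ hd1 pr m ++ hd2 pr m := by rw [hd_app]; exact hi
  rcases List.mem_append.1 hi' with h | h
  · rcases Itm.evs_cases hp with h5 | h5 | h5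
    · exact List.mem_append_right _ (List.mem_append_right _ (List.mem_append_right _
        (List.mem_flatMap.2 ⟨i, h, h5⟩)))
    · exact List.mem_append_right _ (List.mem_append_left _ (List.mem_flatMap.2 ⟨i, h, h5⟩))
    · exact List.mem_append_left _ (List.mem_flatMap.2 ⟨i, hi, h5⟩)
  · rcases Itm.evs_cases hp with h5 | h5 | h5
    · exact List.mem_append_right _ (List.mem_append_right _ (List.mem_append_left _
        (List.mem_flatMap.2 ⟨i, h, Itm.rep_pairs _ h5⟩)))
    · exact List.mem_append_right _ (List.mem_append_right _ (List.mem_append_left _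
        (List.mem_flatMap.2 ⟨i, h, Itm.lap_pairs _ h5⟩)))
    · exact List.mem_append_left _ (List.mem_flatMap.2 ⟨i, hi, h5⟩)

section circle

lemma nodup_eq {α : Type*} {f : α → List T} {l : List α} (hn : (l.flatMap f).Nodup) {a b : α}
    (ha : a ∈ l) (hb : b ∈ l) {t : T} (h1 : t ∈ f a) (h2 : t ∈ f b) : a = b := by
  by_contra hne
  have h3 := (List.nodup_flatMap.1 hn).2
  have : Std.Symm (Function.onFun List.Disjoint f) := ⟨fun x y h => List.Disjoint.symm h⟩
  have h4 : (Function.onFun List.Disjoint f) a b := h3.forall ha hb hne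
  exact h4 h1 h2

lemma nodup_mem {α : Type*} {f : α → List T} {l : List α} (hn : (l.flatMap f).Nodup) {a : α}
    (ha : a ∈ l) : (f a).Nodup := (List.nodup_flatMap.1 hn).1 a ha

lemma mem_ptk {m : List (T × T)} {t : T} : t ∈ ptk m ↔ ∃ p ∈ m, t = p.1 ∨ t = p.2 := by
  unfold ptk
  rw [List.mem_flatMap]
  constructor
  · rintro ⟨p, hp, h⟩
    exact ⟨p, hp, by simpa using h⟩
  · rintro ⟨p, hp, h⟩
    exact ⟨p, hp, by simpa using h⟩

lemma BU.evs_tks {u : BU T} {t : T} (h : t ∈ ptk u.evs) : t ∈ u.tks := by
  cases u with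
  | fr x => simp [BU.evs] at h
  | fx x => simp [BU.evs] at h
  | ev a b => simpa [BU.evs, BU.tks, ptk] using h
  | br y x m =>
    have h1 : t ∈ ptk m := h
    simp [BU.tks, h1]
  | gu m y =>
    have h1 : t ∈ ptk m := h
    simp [BU.tks, h1]
  | gv y m =>
    have h1 : t ∈ ptk m := h
    simp [BU.tks, h1]

lemma Itm.evs_tks {i : Itm T} {t : T} (h : t ∈ ptk i.evs) : t ∈ i.tks := by
  cases i with
  | re a b => simpa [Itm.evs, Itm.tks, ptk] using h
  | la a b => simpa [Itm.evs, Itm.tks, ptk] using h
  | br y x m =>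
    have h1 : t ∈ ptk m := h
    simp [Itm.tks, h1]

/-- a piece of a circle: tokens, even children -/
abbrev Pc (T : Type*) := List T × List (T × T)

/-- a unit as a piece -/
def upc (u : BU T) : Pc T := (u.tks, u.evs)

/-- an item as a piece -/
def ipc (i : Itm T) : Pc T := (i.tks, i.evs)

/-- a group as pieces -/
def gpc (g : List (Itm T) × T) : List (Pc T) := g.1.map ipc ++ [([g.2], [])]

/-- the absent tokens are in the even children of their piece -/
def PHx (pr : T → Bool) (q : Pc T) : Prop := ∀ t ∈ q.1, pr t = false → t ∈ ptk q.2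

lemma ptk_flat {α : Type*} (f : α → List (T × T)) (l : List α) :
    ptk (l.flatMap f) = l.flatMap fun i => ptk (f i) := by
  induction l with
  | nil => rfl
  | cons i l ih => rw [List.flatMap_cons, ptk_append, ih, List.flatMap_cons]

lemma pcs_H {pr : T → Bool} {L : List (Pc T)} (hn : (L.flatMap Prod.fst).Nodup)
    (hsub : ∀ q ∈ L, ∀ t ∈ ptk q.2, t ∈ q.1)
    (h : ∀ t ∈ L.flatMap Prod.fst, pr t = false → t ∈ ptk (L.flatMap Prod.snd)) :
    ∀ q ∈ L, PHx pr q := by
  intro q hq t ht hp
  have h1 := h t (List.mem_flatMap.2 ⟨q, hq, ht⟩) hp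
  rw [ptk_flat] at h1
  obtain ⟨q', hq', h2⟩ := List.mem_flatMap.1 h1
  have h3 : q = q' := nodup_eq hn hq hq' ht (hsub q' hq' t h2)
  rw [h3]
  exact h2

/-- the pieces of a circle -/
def Circ.pcs : Circ T → List (Pc T)
  | Circ.pl _ _ us => us.map upc
  | Circ.fu A => ([A.l], []) :: ([A.x], []) :: (A.e1.map upc ++ (([A.X], []) ::
      (A.gs.flatMap gpc ++ A.tl.map ipc)))
  | Circ.gp _ us t g r => us.map upc ++ (([t], []) :: (g.map ipc ++ [([r], [])]))

lemma Circ.pcs_tks (c : Circ T) : c.pcs.flatMap Prod.fst = c.tks := by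
  cases c with
  | pl l r us =>
    change (us.map upc).flatMap Prod.fst = us.flatMap BU.tks
    rw [List.flatMap_map]
    rfl
  | fu A =>
    change (([A.l], []) :: ([A.x], []) :: (A.e1.map upc ++ (([A.X], []) ::
      (A.gs.flatMap gpc ++ A.tl.map ipc)))).flatMap Prod.fst = A.l :: A.x ::
      (A.e1.flatMap BU.tks ++ (A.X ::
      ((A.gs.flatMap fun g => g.1.flatMap Itm.tks ++ [g.2]) ++ A.tl.flatMap Itm.tks)))
    rw [List.flatMap_cons, List.flatMap_cons, List.flatMap_append, List.flatMap_cons,
      List.flatMap_append, List.flatMap_map, List.flatMap_map, List.flatMap_assoc]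
    have e : ∀ g : List (Itm T) × T, (gpc g).flatMap Prod.fst = g.1.flatMap Itm.tks ++ [g.2] := by
      intro g
      rw [gpc, List.flatMap_append, List.flatMap_map]
      rfl
    simp only [e]
    rfl
  | gp l us t g r =>
    change (us.map upc ++ (([t], []) :: (g.map ipc ++ [([r], [])]))).flatMap Prod.fst =
      us.flatMap BU.tks ++ (t :: (g.flatMap Itm.tks ++ [r]))
    rw [List.flatMap_append, List.flatMap_cons, List.flatMap_append, List.flatMap_map,
      List.flatMap_map]
    rfl

lemma Circ.pcs_evs (c : Circ T) : c.pcs.flatMap Prod.snd = c.evs := by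
  cases c with
  | pl l r us =>
    change (us.map upc).flatMap Prod.snd = us.flatMap BU.evs
    rw [List.flatMap_map]
    rfl
  | fu A =>
    change (([A.l], []) :: ([A.x], []) :: (A.e1.map upc ++ (([A.X], []) ::
      (A.gs.flatMap gpc ++ A.tl.map ipc)))).flatMap Prod.snd =
      A.e1.flatMap BU.evs ++ ((A.gs.flatMap fun g => g.1.flatMap Itm.evs) ++
      A.tl.flatMap Itm.evs)
    rw [List.flatMap_cons, List.flatMap_cons, List.flatMap_append, List.flatMap_cons,
      List.flatMap_append, List.flatMap_map, List.flatMap_map, List.flatMap_assoc]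
    have e : ∀ g : List (Itm T) × T, (gpc g).flatMap Prod.snd = g.1.flatMap Itm.evs := by
      intro g
      rw [gpc, List.flatMap_append, List.flatMap_map]
      change g.1.flatMap Itm.evs ++ _ = _
      simp
    simp only [e]
    rfl
  | gp l us t g r =>
    change (us.map upc ++ (([t], []) :: (g.map ipc ++ [([r], [])]))).flatMap Prod.snd =
      us.flatMap BU.evs ++ g.flatMap Itm.evs
    rw [List.flatMap_append, List.flatMap_cons, List.flatMap_append, List.flatMap_map,
      List.flatMap_map]
    change us.flatMap BU.evs ++ (g.flatMap Itm.evs ++ []) = _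
    rw [List.append_nil]

lemma Circ.pcs_sub (c : Circ T) : ∀ q ∈ c.pcs, ∀ t ∈ ptk q.2, t ∈ q.1 := by
  have hu : ∀ u : BU T, ∀ t ∈ ptk (upc u).2, t ∈ (upc u).1 := fun u t h => BU.evs_tks h
  have hi : ∀ i : Itm T, ∀ t ∈ ptk (ipc i).2, t ∈ (ipc i).1 := fun i t h => Itm.evs_tks h
  cases c with
  | pl l r us =>
    intro q hq
    obtain ⟨u, -, rfl⟩ := List.mem_map.1 hq
    exact hu u
  | fu A =>
    intro q hq
    have hq' : q ∈ ([A.l], []) :: ([A.x], []) :: (A.e1.map upc ++ (([A.X], []) ::
      (A.gs.flatMap gpc ++ A.tl.map ipc))) := hq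
    rcases List.mem_cons.1 hq' with rfl | hq'
    · intro t ht; simp at ht
    rcases List.mem_cons.1 hq' with rfl | hq'
    · intro t ht; simp at ht
    rcases List.mem_append.1 hq' with hq' | hq'
    · obtain ⟨u, -, rfl⟩ := List.mem_map.1 hq'
      exact hu u
    rcases List.mem_cons.1 hq' with rfl | hq'
    · intro t ht; simp at ht
    rcases List.mem_append.1 hq' with hq' | hq'
    · obtain ⟨g, -, hq'⟩ := List.mem_flatMap.1 hq'
      rcases List.mem_append.1 hq' with hq' | hq'
      · obtain ⟨i, -, rfl⟩ := List.mem_map.1 hq'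
        exact hi i
      · rw [List.mem_singleton.1 hq']
        intro t ht; simp at ht
    · obtain ⟨i, -, rfl⟩ := List.mem_map.1 hq'
      exact hi i
  | gp l us t g r =>
    intro q hq
    have hq' : q ∈ us.map upc ++ (([t], []) :: (g.map ipc ++ [([r], [])])) := hq
    rcases List.mem_append.1 hq' with hq' | hq'
    · obtain ⟨u, -, rfl⟩ := List.mem_map.1 hq'
      exact hu u
    rcases List.mem_cons.1 hq' with rfl | hq'
    · intro t ht; simp at ht
    rcases List.mem_append.1 hq' with hq' | hq'
    · obtain ⟨i, -, rfl⟩ := List.mem_map.1 hq'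
      exact hi i
    · rw [List.mem_singleton.1 hq']
      intro t ht; simp at ht

lemma PHx.unit {pr : T → Bool} {u : BU T} (h : PHx pr (upc u)) :
    ∀ t ∈ u.tks, pr t = false → ∃ p ∈ u.evs, t = p.1 ∨ t = p.2 := by
  intro t ht hp
  exact mem_ptk.1 (h t ht hp)

lemma PHx.tok {pr : T → Bool} {t : T} (h : PHx pr ([t], [])) : pr t = true := by
  cases hp : pr t
  · have := h t (by simp) hp
    simp at this
  · rfl

lemma PHx.item {pr : T → Bool} {i : Itm T} (h : PHx pr (ipc i)) (hn : i.tks.Nodup)
    (he : ∀ p ∈ i.evs, pr p.1 = pr p.2) : i.Ok pr := by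
  cases i with
  | re a b => exact he (a, b) (by simp [Itm.evs])
  | la a b => exact he (a, b) (by simp [Itm.evs])
  | br t x m =>
    have h4 : (t :: (ptk m ++ [x])).Nodup := hn
    obtain ⟨h5, h6⟩ := List.nodup_cons.1 h4
    obtain ⟨-, -, h7⟩ := List.nodup_append.1 h6
    refine ⟨?_, ?_, he⟩
    · cases hp : pr t
      · exact absurd (List.mem_append_left _ (h t (by simp [ipc, Itm.tks]) hp)) h5
      · rfl
    · cases hp : pr x
      · exact absurd rfl (h7 x (h x (by simp [ipc, Itm.tks]) hp) x (by simp))
      · rfl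

/-- the structure of a circle with two ports -/
lemma Circ.fu_facts {pr' s : T → Bool} {A : Fu T} (hn : (Circ.fu A).tks.Nodup)
    (hev : ∀ p ∈ (Circ.fu A).evs, pr' p.1 = pr' p.2)
    (habs : ∀ t ∈ (Circ.fu A).tks, pr' t = false → t ∈ ptk (Circ.fu A).evs) :
    pr' A.l = true ∧ pr' A.x = true ∧ pr' A.X = true ∧
      SpE pr' (BU.word (BU.sg s) A.e1) (A.e1.flatMap BU.evs) ∧
      (∀ g ∈ A.gs, (∀ i ∈ g.1, i.Ok pr') ∧ pr' g.2 = true) ∧ ∀ i ∈ A.tl, i.Ok pr' := by
  have hH : ∀ q ∈ (Circ.fu A).pcs, PHx pr' q :=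
    pcs_H (by rw [(Circ.fu A).pcs_tks]; exact hn) (Circ.fu A).pcs_sub (by
      rw [(Circ.fu A).pcs_tks, (Circ.fu A).pcs_evs]; exact habs)
  have hn1 : (A.l :: A.x :: (A.e1.flatMap BU.tks ++ (A.X ::
    ((A.gs.flatMap fun g => g.1.flatMap Itm.tks ++ [g.2]) ++ A.tl.flatMap Itm.tks)))).Nodup := hn
  have hn2 := (List.nodup_cons.1 (List.nodup_cons.1 hn1).2).2
  obtain ⟨hn3, hn4, -⟩ := List.nodup_append.1 hn2
  obtain ⟨hn5, hn6, -⟩ := List.nodup_append.1 (List.nodup_cons.1 hn4).2
  have hH1 : ∀ q ∈ ([A.l], []) :: ([A.x], []) :: (A.e1.map upc ++ (([A.X], []) ::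
    (A.gs.flatMap gpc ++ A.tl.map ipc))), PHx pr' q := hH
  have hev1 : ∀ p ∈ A.e1.flatMap BU.evs ++ ((A.gs.flatMap fun g => g.1.flatMap Itm.evs) ++
    A.tl.flatMap Itm.evs), pr' p.1 = pr' p.2 := hev
  refine ⟨PHx.tok (hH1 _ List.mem_cons_self),
    PHx.tok (hH1 _ (List.mem_cons_of_mem _ List.mem_cons_self)),
    PHx.tok (hH1 _ (by simp)), ?_, ?_, ?_⟩
  · refine SpE.word (fun u hu p hp => hev1 p (List.mem_append_left _
      (List.mem_flatMap.2 ⟨u, hu, hp⟩))) ?_ (fun u hu => nodup_mem hn3 hu)
    intro u hu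
    exact (hH1 (upc u) (List.mem_cons_of_mem _ (List.mem_cons_of_mem _
      (List.mem_append_left _ (List.mem_map_of_mem hu))))).unit
  · intro g hg
    have h1 : ∀ q ∈ gpc g, PHx pr' q := by
      intro q hq
      refine hH1 q (List.mem_cons_of_mem _ (List.mem_cons_of_mem _ (List.mem_append_right _
        (List.mem_cons_of_mem _ (List.mem_append_left _ (List.mem_flatMap.2 ⟨g, hg, hq⟩))))))
    have h2 : (g.1.flatMap Itm.tks ++ [g.2]).Nodup := nodup_mem hn5 hg
    refine ⟨?_, PHx.tok (h1 _ (List.mem_append_right _ (List.mem_singleton.2 rfl)))⟩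
    intro i hi
    refine (h1 (ipc i) (List.mem_append_left _ (List.mem_map_of_mem hi))).item
      (nodup_mem (List.nodup_append.1 h2).1 hi) ?_
    intro p hp
    exact hev1 p (List.mem_append_right _ (List.mem_append_left _
      (List.mem_flatMap.2 ⟨g, hg, List.mem_flatMap.2 ⟨i, hi, hp⟩⟩)))
  · intro i hi
    refine (hH1 (ipc i) (List.mem_cons_of_mem _ (List.mem_cons_of_mem _ (List.mem_append_right _
        (List.mem_cons_of_mem _ (List.mem_append_right _ (List.mem_map_of_mem hi))))))).item
      (nodup_mem hn6 hi) ?_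
    intro p hp
    exact hev1 p (List.mem_append_right _ (List.mem_append_right _
      (List.mem_flatMap.2 ⟨i, hi, hp⟩)))

/-- the structure of a circle with a group link -/
lemma Circ.gp_facts {pr' s : T → Bool} {l t r : T} {us : List (BU T)} {g : List (Itm T)}
    (hn : (Circ.gp l us t g r).tks.Nodup)
    (hev : ∀ p ∈ (Circ.gp l us t g r).evs, pr' p.1 = pr' p.2)
    (habs : ∀ t' ∈ (Circ.gp l us t g r).tks, pr' t' = false →
      t' ∈ ptk (Circ.gp l us t g r).evs) :
    SpE pr' (BU.word (BU.sg s) us) (us.flatMap BU.evs) ∧ pr' t = true ∧ (∀ i ∈ g, i.Ok pr') ∧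
      pr' r = true := by
  have hH : ∀ q ∈ (Circ.gp l us t g r).pcs, PHx pr' q :=
    pcs_H (by rw [(Circ.gp l us t g r).pcs_tks]; exact hn) (Circ.gp l us t g r).pcs_sub (by
      rw [(Circ.gp l us t g r).pcs_tks, (Circ.gp l us t g r).pcs_evs]; exact habs)
  have hn1 : (us.flatMap BU.tks ++ (t :: (g.flatMap Itm.tks ++ [r]))).Nodup := hn
  obtain ⟨hn3, hn4, -⟩ := List.nodup_append.1 hn1
  obtain ⟨hn5, -, -⟩ := List.nodup_append.1 (List.nodup_cons.1 hn4).2
  have hH1 : ∀ q ∈ us.map upc ++ (([t], []) :: (g.map ipc ++ [([r], [])])), PHx pr' q := hH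
  have hev1 : ∀ p ∈ us.flatMap BU.evs ++ g.flatMap Itm.evs, pr' p.1 = pr' p.2 := hev
  refine ⟨?_, PHx.tok (hH1 _ (by simp)), ?_, PHx.tok (hH1 _ (by simp))⟩
  · exact SpE.word (fun u hu p hp => hev1 p (List.mem_append_left _
      (List.mem_flatMap.2 ⟨u, hu, hp⟩)))
      (fun u hu => (hH1 (upc u) (List.mem_append_left _ (List.mem_map_of_mem hu))).unit)
      (fun u hu => nodup_mem hn3 hu)
  · intro i hi
    refine (hH1 (ipc i) (List.mem_append_right _ (List.mem_cons_of_mem _
      (List.mem_append_left _ (List.mem_map_of_mem hi))))).item (nodup_mem hn5 hi) ?_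
    intro p hp
    exact hev1 p (List.mem_append_right _ (List.mem_flatMap.2 ⟨i, hi, hp⟩))

/-- the word with all tokens -/
lemma Circ.spE {pr pr' s : T → Bool} {c : Circ T} (hn : c.tks.Nodup)
    (hev : ∀ p ∈ c.evs, pr' p.1 = pr' p.2)
    (habs : ∀ t ∈ c.tks, pr' t = false → t ∈ ptk c.evs) : SpE pr' (c.fin pr s) c.evs := by
  cases c with
  | pl l r us =>
    have hH : ∀ q ∈ (Circ.pl l r us).pcs, PHx pr' q :=
      pcs_H (by rw [(Circ.pl l r us).pcs_tks]; exact hn) (Circ.pl l r us).pcs_sub (by
        rw [(Circ.pl l r us).pcs_tks, (Circ.pl l r us).pcs_evs]; exact habs)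
    have hn' : (us.flatMap BU.tks).Nodup := hn
    have hev' : ∀ p ∈ us.flatMap BU.evs, pr' p.1 = pr' p.2 := hev
    exact SpE.word (fun u hu p hp => hev' p (List.mem_flatMap.2 ⟨u, hu, hp⟩))
      (fun u hu => (hH (upc u) (List.mem_map_of_mem hu)).unit) (fun u hu => nodup_mem hn' hu)
  | fu A =>
    obtain ⟨gl, gx, gX, ge, gi, gt⟩ := Circ.fu_facts (s := s) hn hev habs
    exact SpE.keep gl (SpE.keep gx (SpE.append ge (SpE.keep gX
      (SpE.append (SpE.flat fun g hg => gfin_spE (gi g hg).1 (gi g hg).2)
        (SpE.flat fun i hi => (gt i hi).rd)))))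
  | gp l us t g r =>
    obtain ⟨g1, g2, g3, g4⟩ := Circ.gp_facts (s := s) hn hev habs
    have h1 : (Circ.gp l us t g r).fin pr s = BU.word (BU.sg s) us ++
        (BU.word (BU.sg s) (g.flatMap Itm.brp) ++
          ((BU.gv t (g.flatMap Itm.pairs)).lts (s t) ++ [(s r, r)])) := by
      change BU.word (BU.sg s) (us ++ (g.flatMap Itm.brp ++
        [BU.gv t (g.flatMap Itm.pairs), BU.fr r])) = _
      rw [BU.word_append, BU.word_append, BU.word_cons, BU.word_cons, BU.word_nil]
      rfl
    have h2 : SpE pr' (BU.word (BU.sg s) (g.flatMap Itm.brp)) (g.flatMap Itm.bev) := by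
      have e : BU.word (BU.sg s) (g.flatMap Itm.brp) =
          BU.word (fun _ => true) (g.flatMap Itm.brp) := by
        refine BU.word_congr fun u hu hk => ?_
        obtain ⟨i, -, hu⟩ := List.mem_flatMap.1 hu
        cases i with
        | re a b => simp [Itm.brp] at hu
        | la a b => simp [Itm.brp] at hu
        | br y x m =>
          have : u = BU.br y x m := by simpa [Itm.brp] using hu
          rw [this] at hk
          simp [BU.kind] at hk
      rw [e, word_flat]
      exact SpE.flat fun i hi => (g3 i hi).brp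
    have h3 : SpE pr' ((BU.gv t (g.flatMap Itm.pairs)).lts (s t)) (g.flatMap Itm.pairs) := by
      cases s t
      · exact SpE.keep (q := (false, t)) g2 (SpE.up (ok_pairs g3))
      · have h9 : SpE pr' (dn (g.flatMap Itm.pairs) ++ [(true, t)]) (g.flatMap Itm.pairs ++ []) :=
          SpE.append (SpE.dn (ok_pairs g3)) (SpE.keep g2 SpE.nil)
        rw [List.append_nil] at h9
        exact h9
    rw [h1]
    refine (g1.append (h2.append (h3.append (SpE.keep (q := (s r, r)) g4 SpE.nil)))).mono ?_
    intro p hp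
    have hp' : p ∈ us.flatMap BU.evs ++ g.flatMap Itm.evs := hp
    rcases List.mem_append.1 hp' with hp' | hp'
    · exact List.mem_append_left _ hp'
    · obtain ⟨i, hi, hp'⟩ := List.mem_flatMap.1 hp'
      rcases Itm.evs_cases hp' with h5 | h5 | h5
      · exact List.mem_append_right _ (List.mem_append_right _ (List.mem_append_left _
          (List.mem_flatMap.2 ⟨i, hi, Itm.rep_pairs _ h5⟩)))
      · exact List.mem_append_right _ (List.mem_append_right _ (List.mem_append_left _
          (List.mem_flatMap.2 ⟨i, hi, Itm.lap_pairs _ h5⟩)))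
      · exact List.mem_append_right _ (List.mem_append_left _ (List.mem_flatMap.2 ⟨i, hi, h5⟩))

end circle

section act

/-- implication of walks -/
def Imp (V : T → B) (w w' : List (Bool × T)) : Prop :=
  ∀ S S', Run (lv V w) S S' → Run (lv V w') S S'

lemma Imp.refl (V : T → B) (w : List (Bool × T)) : Imp V w w := fun _ _ h => h

lemma Imp.of_eq {V : T → B} {w w' : List (Bool × T)} (h : w = w') : Imp V w w' := by
  rw [h]; exact Imp.refl V w'

lemma Imp.append {V : T → B} {w w' u u' : List (Bool × T)} (h : Imp V w w') (h' : Imp V u u') :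
    Imp V (w ++ u) (w' ++ u') := by
  intro S S' hR
  rw [lv_append, run_append] at hR ⊢
  obtain ⟨S₁, h1, h2⟩ := hR
  exact ⟨S₁, h _ _ h1, h' _ _ h2⟩

lemma Imp.cons {V : T → B} {u u' : List (Bool × T)} (q : Bool × T) (h' : Imp V u u') :
    Imp V (q :: u) (q :: u') := Imp.append (w := [q]) (w' := [q]) (Imp.refl V _) h'

lemma Imp.cl {V : T → B} {w w' : List (Bool × T)} (h : Imp V w w') (hC : Cl V w) : Cl V w' := by
  obtain ⟨S, h1, h2⟩ := hC
  exact ⟨S, h _ _ h1, h2⟩

lemma Imp.groups {pr s : T → Bool} {V : T → B} {gs : List (List (Itm T) × T)}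
    (h : ∀ g ∈ gs, (∀ i ∈ g.1, i.Ok pr) ∧ pr g.2 = true) :
    Imp V (gs.flatMap fun g => gact pr (s g.2) g)
      (fp pr (gs.flatMap fun g => gfin pr (s g.2) g)) := by
  induction gs with
  | nil => exact Imp.refl V _
  | cons g gs ih =>
    rw [List.flatMap_cons, List.flatMap_cons, fp_append]
    refine Imp.append ?_ (ih fun g' hg' => h g' (List.mem_cons_of_mem _ hg'))
    intro S S' hR
    exact gact_run (h g List.mem_cons_self).1 (h g List.mem_cons_self).2 hR

lemma Imp.last {pr : T → Bool} {V : T → B} {m : List (Itm T)} (hm : ∀ i ∈ m, i.Ok pr)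
    (hp : ∀ i ∈ m, i.isP pr = false) : Imp V (fp pr (m.flatMap Itm.rd))
      (fp pr (BU.word (fun _ => true) (m.flatMap Itm.brp) ++ up (m.flatMap Itm.lap))) := by
  intro S S' hR
  obtain ⟨h1, h2⟩ := run_items hm hR
  rw [fp_append, lv_append, run_append, ← fp_pairs hm hp]
  exact ⟨S, h1 S, h2⟩

lemma Cl.wrap {V : T → B} {w : List (Bool × T)} {l r : T} (h : Cl V w) (hV : V l = V r) :
    Cl V ((true, l) :: (w ++ [(false, r)])) := by
  obtain ⟨S, h1, K, c, h2⟩ := h
  refine ⟨push (V l) S, ?_, K + 1, c, ?_⟩
  · have h3 : V l = V l ∧ Run (lv V (w ++ [(false, r)])) (tl (push (V l) S)) (push (V l) S) := by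
      rw [tl_push, lv_append, run_append]
      refine ⟨rfl, S, h1, ?_⟩
      have h4 : push (V r) S = push (V l) S := by rw [hV]
      exact h4
    exact h3
  · intro j hj
    obtain ⟨i, rfl⟩ : ∃ i, j = i + 1 := ⟨j - 1, by omega⟩
    exact h2 i (by omega)

lemma drop_case {pr pr' : T → Bool} {V : T → B} {w w0 w1 : List (Bool × T)} {l r : T}
    (hw : w = (true, l) :: (w0 ++ ((false, r) :: w1))) (hn : (w.map Prod.snd).Nodup)
    (hpr : ∀ t, pr' t = true ↔ pr t = true ∨ t = l ∨ t = r) (h1 : fp pr w1 = [])
    (hC : Cl V (fp pr w0)) (hV : V l = V r) : Cl V (fp pr' w) := by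
  have hn' : (l :: (w0.map Prod.snd ++ (r :: w1.map Prod.snd))).Nodup := by
    rw [hw] at hn
    simpa using hn
  obtain ⟨g1, g2⟩ := List.nodup_cons.1 hn'
  obtain ⟨g3, g4, g5⟩ := List.nodup_append.1 g2
  obtain ⟨g6, g7⟩ := List.nodup_cons.1 g4
  have hcon : ∀ u : List (Bool × T), (∀ q ∈ u, q.2 ≠ l ∧ q.2 ≠ r) → fp pr' u = fp pr u := by
    intro u hu
    refine fp_congr fun q hq => ?_
    obtain ⟨e1, e2⟩ := hu q hq
    have e3 := hpr q.2
    cases hp : pr q.2
    · rw [hp] at e3
      cases hp' : pr' q.2
      · rfl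
      · rcases e3.1 hp' with h | h | h
        · simp at h
        · exact absurd h e1
        · exact absurd h e2
    · exact e3.2 (Or.inl hp)
  have hw0 : fp pr' w0 = fp pr w0 := hcon w0 fun q hq => by
    have hq' : q.2 ∈ w0.map Prod.snd := List.mem_map_of_mem hq
    refine ⟨fun h => g1 (List.mem_append_left _ (h ▸ hq')), fun h => ?_⟩
    exact g5 _ hq' r List.mem_cons_self h
  have hw1 : fp pr' w1 = fp pr w1 := hcon w1 fun q hq => by
    have hq' : q.2 ∈ w1.map Prod.snd := List.mem_map_of_mem hq
    refine ⟨fun h => g1 (List.mem_append_right _ (List.mem_cons_of_mem _ (h ▸ hq'))),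
      fun h => g6 (h ▸ hq')⟩
  have hl : pr' l = true := (hpr l).2 (Or.inr (Or.inl rfl))
  have hr : pr' r = true := (hpr r).2 (Or.inr (Or.inr rfl))
  have e : fp pr' w = (true, l) :: (fp pr w0 ++ [(false, r)]) := by
    rw [hw, fp_cons, if_pos hl, fp_append, fp_cons, if_pos hr, hw0, hw1, h1]
    rfl
  rw [e]
  exact hC.wrap hV

namespace Circ

/-- the format of a circle whose own link can be dropped -/
def Wf (s : T → Bool) : Circ T → Prop
  | pl l r us => BU.fx l ∈ us ∧ ∀ r' ∈ r, (BU.fx r' ∈ us ∨ BU.fr r' ∈ us) ∧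
      (s r' = false → s l = true ∧ ∃ us', us = BU.fx l :: (us' ++ [BU.fr r']))
  | fu A => ∀ r' ∈ A.r, A.tl = [] ∧ ∃ gs m, A.gs = gs ++ [(m, r')]
  | gp l us t _ r => s t = !(s r) ∧ s l = true ∧ ∃ us', us = BU.fx l :: us'

lemma wf_of {s : T → Bool} {c : Circ T} (hw : c.WS) (hC : c.CC s) : c.Wf s := by
  have key : ∀ (l : T) (us : List (BU T)), c.pus.filter BU.od = BU.fx l :: us → s l = true := by
    intro l us h
    have h1 := hC.bd [BU.fx l] us h
    cases hsl : s l
    · have h2 : hs (BU.sg s) [BU.fx l] = -1 := by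
        have h3 : BU.sg s (BU.fx l) = false := hsl
        simp [U.hs, h3]
      rw [h2] at h1
      omega
    · rfl
  cases c with
  | pl l r us =>
    obtain ⟨us', h1, h2⟩ := hw.opl l r us rfl
    refine ⟨by rw [h1]; exact List.mem_cons_self, ?_⟩
    intro r' hr'
    obtain ⟨us'', h3⟩ := h2 r' hr'
    refine ⟨Or.inr (by rw [h1, h3]; simp), ?_⟩
    intro _
    refine ⟨?_, us'', by rw [h1, h3]⟩
    refine key l (us'.filter BU.od) ?_
    change us.filter BU.od = _
    rw [h1, List.filter_cons_of_pos (by rfl)]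
  | fu A =>
    intro r' hr'
    obtain ⟨h1, gs', g, h2⟩ := hw.ofu A rfl r' hr'
    exact ⟨h1, gs', g, h2⟩
  | gp l us t g r =>
    obtain ⟨us', h1⟩ := hw.ogp l us t g r rfl
    refine ⟨hC.gp l us t g r rfl, ?_, us', h1⟩
    refine key l ((us' ++ (g.flatMap Itm.brp ++
      [BU.gv t (g.flatMap Itm.pairs), BU.fr r])).filter BU.od) ?_
    change (us ++ (g.flatMap Itm.brp ++
      [BU.gv t (g.flatMap Itm.pairs), BU.fr r])).filter BU.od = _
    rw [h1, List.cons_append, List.filter_cons_of_pos (by rfl)]

/-- own token -/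
def own (c : Circ T) (t : T) : Prop := t = c.l ∨ t ∈ c.r

lemma isDr_iffX {pr s : T → Bool} {c : Circ T} : c.isDr pr s = true ↔
    ∃ r ∈ c.r, s r = false ∧ ∀ p ∈ c.beads, pr p.1 = false := by
  unfold isDr
  cases hr : c.r with
  | none => simp
  | some r => simp

/-- **from the actual word to the word with all tokens, filtered** -/
theorem act_cl {pr pr' s : T → Bool} {c : Circ T} (hg : c.isGp = false) (hn : c.tks.Nodup)
    (hwf : c.Wf s)
    (hev : ∀ p ∈ c.evs, pr' p.1 = pr' p.2)
    (hpr : ∀ t, pr' t = true ↔ pr t = true ∨ c.own t)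
    (habs : ∀ t ∈ c.tks, pr' t = false → t ∈ ptk c.evs)
    (hdr : ∀ t, c.own t → (pr t = false ↔ c.isDr pr s = true))
    {V : T → B} (hV : c.isDr pr s = true → ∀ r ∈ c.r, V c.l = V r)
    (hC : Cl V (c.act pr s)) : Cl V (fp pr' (c.fin pr s)) := by
  by_cases hd : c.isDr pr s = true
  swap
  · have e : pr' = pr := by
      funext t
      have h1 := hpr t
      cases hp : pr t
      · cases hp' : pr' t
        · rfl
        · rcases h1.1 hp' with h | h
          · rw [hp] at h; simp at h
          · exact absurd ((hdr t h).1 hp) hd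
      · exact h1.2 (Or.inl hp)
    subst e
    cases c with
    | pl l r us => exact hC
    | fu A =>
      obtain ⟨gl, gx, gX, -, gi, gt⟩ := fu_facts (s := s) hn hev habs
      refine Imp.cl ?_ hC
      have e1 : (Circ.fu A).act pr' s = fp pr' [((true, A.l) : Bool × T)] ++ ((true, A.x) ::
        (fp pr' (BU.word (BU.sg s) A.e1) ++ ((true, A.X) ::
        ((A.gs.flatMap fun g => gact pr' (s g.2) g) ++ fp pr' (A.tl.flatMap Itm.rd))))) := rfl
      have e2 : fp pr' ((Circ.fu A).fin pr' s) = fp pr' [((true, A.l) : Bool × T)] ++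
        ((true, A.x) :: (fp pr' (BU.word (BU.sg s) A.e1) ++ ((true, A.X) ::
        (fp pr' (A.gs.flatMap fun g => gfin pr' (s g.2) g) ++
          fp pr' (A.tl.flatMap Itm.rd))))) := by
        change fp pr' ((true, A.l) :: (true, A.x) :: (BU.word (BU.sg s) A.e1 ++ ((true, A.X) ::
          ((A.gs.flatMap fun g => gfin pr' (s g.2) g) ++ A.tl.flatMap Itm.rd)))) = _
        rw [fp_cons, if_pos gl, fp_cons, if_pos gx, fp_append, fp_cons, if_pos gX, fp_append,
          fp_cons, if_pos gl]
        rfl
      rw [e1, e2]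
      exact Imp.append (Imp.refl V _) (Imp.cons _ (Imp.append (Imp.refl V _) (Imp.cons _
        (Imp.append (Imp.groups gi) (Imp.refl V _)))))
    | gp l us t g r => simp [isGp] at hg
  · obtain ⟨r, hr, hs, hb⟩ := isDr_iffX.1 hd
    have hVr := hV hd r hr
    have hpl : pr c.l = false := (hdr c.l (Or.inl rfl)).2 hd
    have hprr : pr r = false := (hdr r (Or.inr hr)).2 hd
    have hpr1 : ∀ t, pr' t = true ↔ pr t = true ∨ t = c.l ∨ t = r := by
      intro t
      have h1 := hpr t
      have h2 : c.own t ↔ t = c.l ∨ t = r := by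
        unfold own
        have h3 : c.r = some r := hr
        rw [h3]
        simp [eq_comm]
      rw [h2] at h1
      exact h1
    have hnf : ((c.fin pr s).map Prod.snd).Nodup := (c.fin_permX pr s).nodup_iff.2 hn
    cases c with
    | pl l r0 us =>
      obtain ⟨-, hwf⟩ := hwf
      obtain ⟨hsl, us', hus⟩ := (hwf r hr).2 hs
      have e1 : (Circ.pl l r0 us).fin pr s =
          (true, l) :: (BU.word (BU.sg s) us' ++ ((false, r) :: [])) := by
        change BU.word (BU.sg s) us = _
        rw [hus, BU.word_cons, BU.word_append, BU.word_cons, BU.word_nil, List.append_nil]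
        have h1 : BU.sg s (BU.fx l) = true := hsl
        have h2 : BU.sg s (BU.fr r) = false := hs
        rw [h1, h2]
        rfl
      have hpl' : pr l = false := hpl
      refine drop_case e1 hnf hpr1 rfl ?_ hVr
      have e2 : (Circ.pl l r0 us).act pr s = fp pr (BU.word (BU.sg s) us') := by
        change fp pr ((Circ.pl l r0 us).fin pr s) = _
        rw [e1, fp_cons, fp_append, fp_cons, if_neg (by simp [hpl']), if_neg (by simp [hprr])]
        simp
      rw [e2] at hC
      exact hC
    | fu A =>
      obtain ⟨htl, gs, m, hgs⟩ := hwf r hr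
      have hpl' : pr A.l = false := hpl
      have hbm : ∀ i ∈ m, i.isP pr = false := by
        intro i hi
        cases i with
        | re a b =>
          refine hb (a, b) ?_
          have : (Circ.fu A).beads = m.flatMap Itm.rep := by
            unfold beads
            simp [hgs]
          rw [this]
          exact List.mem_flatMap.2 ⟨_, hi, by simp [Itm.rep]⟩
        | la a b => rfl
        | br t x m' => rfl
      have hh1 : hd1 pr m = m := by
        unfold hd1
        rw [List.takeWhile_eq_self_iff]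
        intro i hi
        simp [hbm i hi]
      have hh2 : hd2 pr m = [] := by
        unfold hd2
        rw [List.dropWhile_eq_nil_iff]
        intro i hi
        simp [hbm i hi]
      have e1 : (Circ.fu A).fin pr s = (true, A.l) :: (((true, A.x) ::
          (BU.word (BU.sg s) A.e1 ++ ((true, A.X) :: ((gs.flatMap fun g => gfin pr (s g.2) g) ++
          (BU.word (fun _ => true) (m.flatMap Itm.brp) ++ up (m.flatMap Itm.lap)))))) ++
          ((false, r) :: dn (m.flatMap Itm.rep))) := by
        have h1 : gfin pr false (m, r) = BU.word (fun _ => true) (m.flatMap Itm.brp) ++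
          (up (m.flatMap Itm.lap) ++ ((false, r) :: dn (m.flatMap Itm.rep))) := by
          have h2 : gfin pr false (m, r) = BU.word (fun _ => true) (m.flatMap Itm.brp) ++
            (up ((hd1 pr m).flatMap Itm.lap) ++ ((false, r) ::
              (dn ((hd2 pr m).flatMap Itm.pairs) ++ dn ((hd1 pr m).flatMap Itm.rep)))) := rfl
          rw [h2, hh1, hh2]
          rfl
        change (true, A.l) :: (true, A.x) :: (BU.word (BU.sg s) A.e1 ++ ((true, A.X) ::
          ((A.gs.flatMap fun g => gfin pr (s g.2) g) ++ A.tl.flatMap Itm.rd))) = _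
        rw [hgs, htl, List.flatMap_append, List.flatMap_cons, List.flatMap_nil, List.flatMap_nil]
        simp only [hs, h1]
        simp
      have hn1 : (A.l :: ((A.x :: (A.e1.flatMap BU.tks ++ (A.X ::
          ((gs.flatMap fun g => g.1.flatMap Itm.tks ++ [g.2]) ++ m.flatMap Itm.tks)))) ++
            [r])).Nodup := by
        have h1 : (Circ.fu A).tks = A.l :: ((A.x :: (A.e1.flatMap BU.tks ++ (A.X ::
          ((gs.flatMap fun g => g.1.flatMap Itm.tks ++ [g.2]) ++ m.flatMap Itm.tks)))) ++
            [r]) := by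
          change A.l :: A.x :: (A.e1.flatMap BU.tks ++ (A.X ::
            ((A.gs.flatMap fun g => g.1.flatMap Itm.tks ++ [g.2]) ++ A.tl.flatMap Itm.tks))) = _
          rw [hgs, htl, List.flatMap_append, List.flatMap_cons, List.flatMap_nil]
          simp
        rw [← h1]
        exact hn
      obtain ⟨g1, g2⟩ := List.nodup_cons.1 hn1
      obtain ⟨-, -, g3⟩ := List.nodup_append.1 g2
      have hR : ∀ t ∈ (A.x :: (A.e1.flatMap BU.tks ++ (A.X ::
          ((gs.flatMap fun g => g.1.flatMap Itm.tks ++ [g.2]) ++ m.flatMap Itm.tks)))),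
          pr' t = pr t := by
        intro t ht
        have h1 : t ≠ A.l := fun h => g1 (List.mem_append_left _ (h ▸ ht))
        have h2 : t ≠ r := g3 t ht r (by simp)
        have h3 := hpr1 t
        cases hp : pr t
        · cases hp' : pr' t
          · rfl
          · rcases h3.1 hp' with h | h | h
            · rw [hp] at h; simp at h
            · exact absurd h h1
            · exact absurd h h2
        · exact h3.2 (Or.inl hp)
      obtain ⟨gl, gx, gX, -, gi, gt⟩ := fu_facts (s := s) hn hev habs
      have hitm : ∀ i : Itm T, (∀ t ∈ i.tks, pr' t = pr t) → i.Ok pr' → i.Ok pr := by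
        intro i h1 h2
        cases i with
        | re a b =>
          have h3 : pr' a = pr' b := h2
          have h4 : pr a = pr b := by
            rw [← h1 a (by simp [Itm.tks]), ← h1 b (by simp [Itm.tks]), h3]
          exact h4
        | la a b =>
          have h3 : pr' a = pr' b := h2
          have h4 : pr a = pr b := by
            rw [← h1 a (by simp [Itm.tks]), ← h1 b (by simp [Itm.tks]), h3]
          exact h4
        | br t x m' =>
          obtain ⟨h3, h4, h5⟩ := h2
          refine ⟨by rw [← h1 t (by simp [Itm.tks])]; exact h3,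
            by rw [← h1 x (by simp [Itm.tks])]; exact h4, ?_⟩
          intro p hp
          have h6 : p.1 ∈ ptk m' := mem_ptk.2 ⟨p, hp, Or.inl rfl⟩
          have h7 : p.2 ∈ ptk m' := mem_ptk.2 ⟨p, hp, Or.inr rfl⟩
          rw [← h1 p.1 (by simp [Itm.tks, h6]), ← h1 p.2 (by simp [Itm.tks, h7])]
          exact h5 p hp
      have hm : ∀ i ∈ m, i.Ok pr := by
        intro i hi
        refine hitm i (fun t ht => hR t ?_) ((gi (m, r) (by rw [hgs]; simp)).1 i hi)
        have : t ∈ m.flatMap Itm.tks := List.mem_flatMap.2 ⟨i, hi, ht⟩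
        simp only [List.mem_cons, List.mem_append]
        exact Or.inr (Or.inr (Or.inr (Or.inr this)))
      have hgs' : ∀ g ∈ gs, (∀ i ∈ g.1, i.Ok pr) ∧ pr g.2 = true := by
        intro g hg
        have h1 := gi g (by rw [hgs]; exact List.mem_append_left _ hg)
        have h2 : ∀ t ∈ g.1.flatMap Itm.tks ++ [g.2], pr' t = pr t := by
          intro t ht
          refine hR t ?_
          have : t ∈ gs.flatMap fun g => g.1.flatMap Itm.tks ++ [g.2] :=
            List.mem_flatMap.2 ⟨g, hg, ht⟩
          simp only [List.mem_cons, List.mem_append]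
          exact Or.inr (Or.inr (Or.inr (Or.inl this)))
        refine ⟨fun i hi => hitm i (fun t ht => h2 t (List.mem_append_left _
          (List.mem_flatMap.2 ⟨i, hi, ht⟩))) (h1.1 i hi), ?_⟩
        rw [← h2 g.2 (by simp)]
        exact h1.2
      have gx' : pr A.x = true := by rw [← hR A.x (by simp)]; exact gx
      have gX' : pr A.X = true := by rw [← hR A.X (by simp)]; exact gX
      refine drop_case e1 hnf hpr1 (fp_rep hm hbm) ?_ hVr
      refine Imp.cl ?_ hC
      have e2 : (Circ.fu A).act pr s = (true, A.x) ::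
        (fp pr (BU.word (BU.sg s) A.e1) ++ ((true, A.X) ::
        ((gs.flatMap fun g => gact pr (s g.2) g) ++ fp pr (m.flatMap Itm.rd)))) := by
        have h1 : (Circ.fu A).act pr s = fp pr [((true, A.l) : Bool × T)] ++ ((true, A.x) ::
          (fp pr (BU.word (BU.sg s) A.e1) ++ ((true, A.X) ::
          ((A.gs.flatMap fun g => gact pr (s g.2) g) ++ fp pr (A.tl.flatMap Itm.rd))))) := rfl
        have h2 : gact pr false (m, r) = fp pr (m.flatMap Itm.rd) := by
          unfold gact
          simp only [hh2]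
          rw [hprr]
          simp [fp]
        rw [h1, fp_cons, if_neg (by simp [hpl']), hgs, htl, List.flatMap_append,
          List.flatMap_cons, List.flatMap_nil, List.flatMap_nil]
        simp only [hs, h2]
        simp
      have e3 : fp pr ((true, A.x) :: (BU.word (BU.sg s) A.e1 ++ ((true, A.X) ::
          ((gs.flatMap fun g => gfin pr (s g.2) g) ++
          (BU.word (fun _ => true) (m.flatMap Itm.brp) ++ up (m.flatMap Itm.lap)))))) =
          (true, A.x) :: (fp pr (BU.word (BU.sg s) A.e1) ++ ((true, A.X) ::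
          (fp pr (gs.flatMap fun g => gfin pr (s g.2) g) ++
          fp pr (BU.word (fun _ => true) (m.flatMap Itm.brp) ++ up (m.flatMap Itm.lap))))) := by
        rw [fp_cons, if_pos gx', fp_append, fp_cons, if_pos gX', fp_append]
        rfl
      rw [e2, e3]
      exact Imp.cons _ (Imp.append (Imp.refl V _) (Imp.cons _ (Imp.append (Imp.groups hgs')
        (Imp.last hm hbm))))
    | gp l us t g r => simp [isGp] at hg

/-- **extension of the values, one circle** -/
theorem ext {pr s : T → Bool} {c : Circ T} (hg : c.isGp = false) (hn : c.tks.Nodup)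
    (hwf : c.Wf s)
    (hev : ∀ p ∈ c.evs, pr p.1 = pr p.2)
    (hown : ∀ t, c.own t → t ∉ ptk c.evs)
    (habs : ∀ t ∈ c.tks, pr t = false → ¬ c.own t → t ∈ ptk c.evs)
    (hdr : ∀ t, c.own t → (pr t = false ↔ c.isDr pr s = true))
    {V : T → B} (hV : c.isDr pr s = true → ∀ r ∈ c.r, V c.l = V r)
    (hC : Cl V (c.act pr s)) : ∃ V' : T → B,
      (∀ t, ¬ (t ∈ c.tks ∧ pr t = false ∧ ¬ c.own t) → V' t = V t) ∧
      (∀ p ∈ c.evs, pr p.1 = false → V' p.1 = V' p.2) ∧ Cl V' (c.fin pr s) := by
  classical
  obtain ⟨pr', hpr'⟩ : ∃ pr' : T → Bool, pr' = fun t => decide (pr t = true ∨ c.own t) := ⟨_, rfl⟩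
  have hpr : ∀ t, pr' t = true ↔ pr t = true ∨ c.own t := by
    intro t; rw [hpr']; simp
  have hno : ∀ t ∈ ptk c.evs, pr' t = pr t := by
    intro t ht
    have h1 := hpr t
    cases hp : pr t
    · cases hp' : pr' t
      · rfl
      · rcases h1.1 hp' with h | h
        · rw [hp] at h; simp at h
        · exact absurd ht (hown t h)
    · exact h1.2 (Or.inl hp)
  have hev' : ∀ p ∈ c.evs, pr' p.1 = pr' p.2 := by
    intro p hp
    rw [hno p.1 (mem_ptk.2 ⟨p, hp, Or.inl rfl⟩), hno p.2 (mem_ptk.2 ⟨p, hp, Or.inr rfl⟩)]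
    exact hev p hp
  have habs' : ∀ t ∈ c.tks, pr' t = false → t ∈ ptk c.evs := by
    intro t ht h
    have h1 := hpr t
    refine habs t ht ?_ ?_
    · cases hp : pr t
      · rfl
      · rw [h1.2 (Or.inl hp)] at h; simp at h
    · intro h2
      rw [h1.2 (Or.inr h2)] at h; simp at h
  have h1 := act_cl hg hn hwf hev' hpr habs' hdr hV hC
  obtain ⟨S, h2, h3⟩ := h1
  obtain ⟨V', h4, h5, h6⟩ := (spE (pr := pr) (s := s) hn hev' habs').run
    ((c.fin_permX pr s).nodup_iff.2 hn) h2
  refine ⟨V', ?_, ?_, S, h6, h3⟩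
  · intro t ht
    refine h4 t ?_
    by_cases h7 : t ∈ c.tks
    · left
      rw [hpr]
      by_contra h8
      push Not at h8
      exact ht ⟨h7, by simpa using h8.1, h8.2⟩
    · right
      rw [(c.fin_permX pr s).mem_iff]
      exact h7
  · intro p hp hp1
    refine h5 p hp ?_
    rw [hno p.1 (mem_ptk.2 ⟨p, hp, Or.inl rfl⟩)]
    exact hp1

end Circ

end act

section present

lemma BU.evs_sub (u : BU T) : (ptk u.evs).Sublist u.tks := by
  cases u with
  | fr x => exact List.nil_sublist _
  | fx x => exact List.nil_sublist _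
  | ev a b => exact List.Sublist.refl _
  | br y x m =>
    change (ptk m).Sublist (y :: (ptk m ++ [x]))
    exact (List.sublist_append_left _ _).cons _
  | gu m y => exact List.sublist_append_left _ _
  | gv y m => exact (List.Sublist.refl _).cons _

lemma Itm.evs_sub (i : Itm T) : (ptk i.evs).Sublist i.tks := by
  cases i with
  | re a b => exact List.Sublist.refl _
  | la a b => exact List.Sublist.refl _
  | br y x m =>
    change (ptk m).Sublist (y :: (ptk m ++ [x]))
    exact (List.sublist_append_left _ _).cons _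

lemma flat_sub {α β : Type*} {f g : α → List β} {l : List α}
    (h : ∀ a ∈ l, (f a).Sublist (g a)) : (l.flatMap f).Sublist (l.flatMap g) := by
  induction l with
  | nil => exact List.Sublist.refl _
  | cons a l ih =>
    rw [List.flatMap_cons, List.flatMap_cons]
    exact (h a List.mem_cons_self).append (ih fun b hb => h b (List.mem_cons_of_mem _ hb))

namespace Circ

lemma pcs_sublist (c : Circ T) : ∀ q ∈ c.pcs, (ptk q.2).Sublist q.1 := by
  have hu : ∀ u : BU T, (ptk (upc u).2).Sublist (upc u).1 := fun u => BU.evs_sub u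
  have hi : ∀ i : Itm T, (ptk (ipc i).2).Sublist (ipc i).1 := fun i => Itm.evs_sub i
  cases c with
  | pl l r us =>
    intro q hq
    obtain ⟨u, -, rfl⟩ := List.mem_map.1 hq
    exact hu u
  | fu A =>
    intro q hq
    have hq' : q ∈ ([A.l], []) :: ([A.x], []) :: (A.e1.map upc ++ (([A.X], []) ::
      (A.gs.flatMap gpc ++ A.tl.map ipc))) := hq
    rcases List.mem_cons.1 hq' with rfl | hq'
    · exact List.nil_sublist _
    rcases List.mem_cons.1 hq' with rfl | hq'
    · exact List.nil_sublist _
    rcases List.mem_append.1 hq' with hq' | hq'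
    · obtain ⟨u, -, rfl⟩ := List.mem_map.1 hq'
      exact hu u
    rcases List.mem_cons.1 hq' with rfl | hq'
    · exact List.nil_sublist _
    rcases List.mem_append.1 hq' with hq' | hq'
    · obtain ⟨g, -, hq'⟩ := List.mem_flatMap.1 hq'
      rcases List.mem_append.1 hq' with hq' | hq'
      · obtain ⟨i, -, rfl⟩ := List.mem_map.1 hq'
        exact hi i
      · rw [List.mem_singleton.1 hq']
        exact List.nil_sublist _
    · obtain ⟨i, -, rfl⟩ := List.mem_map.1 hq'
      exact hi i
  | gp l us t g r =>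
    intro q hq
    have hq' : q ∈ us.map upc ++ (([t], []) :: (g.map ipc ++ [([r], [])])) := hq
    rcases List.mem_append.1 hq' with hq' | hq'
    · obtain ⟨u, -, rfl⟩ := List.mem_map.1 hq'
      exact hu u
    rcases List.mem_cons.1 hq' with rfl | hq'
    · exact List.nil_sublist _
    rcases List.mem_append.1 hq' with hq' | hq'
    · obtain ⟨i, -, rfl⟩ := List.mem_map.1 hq'
      exact hi i
    · rw [List.mem_singleton.1 hq']
      exact List.nil_sublist _

lemma evs_sub (c : Circ T) : (ptk c.evs).Sublist c.tks := by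
  rw [← c.pcs_evs, ← c.pcs_tks, ptk_flat]
  exact flat_sub fun q hq => c.pcs_sublist q hq

lemma own_piece {s : T → Bool} {c : Circ T} (hwf : c.Wf s) {t : T} (h : c.own t) :
    (([t], []) : Pc T) ∈ c.pcs := by
  cases c with
  | pl l r us =>
    obtain ⟨h1, h2⟩ := hwf
    have h3 : ∀ u ∈ us, upc u ∈ us.map upc := fun u hu => List.mem_map_of_mem hu
    rcases h with h | h
    · have h4 : t = l := h
      rw [h4]
      exact h3 _ h1
    · rcases (h2 t h).1 with h4 | h4
      · exact h3 _ h4
      · exact h3 _ h4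
  | fu A =>
    change (([t], []) : Pc T) ∈ ([A.l], []) :: ([A.x], []) :: (A.e1.map upc ++ (([A.X], []) ::
      (A.gs.flatMap gpc ++ A.tl.map ipc)))
    rcases h with h | h
    · have h4 : t = A.l := h
      rw [h4]
      exact List.mem_cons_self
    · obtain ⟨-, gs, m, hgs⟩ := hwf t h
      refine List.mem_cons_of_mem _ (List.mem_cons_of_mem _ (List.mem_append_right _
        (List.mem_cons_of_mem _ (List.mem_append_left _ ?_))))
      refine List.mem_flatMap.2 ⟨(m, t), by rw [hgs]; simp, ?_⟩
      exact List.mem_append_right _ (List.mem_singleton.2 rfl)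
  | gp l us t' g r =>
    change (([t], []) : Pc T) ∈ us.map upc ++ (([t'], []) :: (g.map ipc ++ [([r], [])]))
    obtain ⟨-, -, us', h1⟩ := hwf
    rcases h with h | h
    · have h4 : t = l := h
      rw [h4, h1]
      exact List.mem_append_left _ (List.mem_map_of_mem (a := BU.fx l) List.mem_cons_self)
    · have h4 : r = t := by
        have h5 : some r = some t := h
        exact Option.some.inj h5
      rw [h4]
      simp

lemma own_mem {s : T → Bool} {c : Circ T} (hwf : c.Wf s) {t : T} (h : c.own t) : t ∈ c.tks := by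
  rw [← c.pcs_tks]
  exact List.mem_flatMap.2 ⟨_, own_piece hwf h, by simp⟩

lemma own_evs {s : T → Bool} {c : Circ T} (hn : c.tks.Nodup) (hwf : c.Wf s) {t : T}
    (h : c.own t) : t ∉ ptk c.evs := by
  intro h1
  rw [← c.pcs_evs, ptk_flat] at h1
  obtain ⟨q, hq, h2⟩ := List.mem_flatMap.1 h1
  have h3 := nodup_eq (by rw [c.pcs_tks]; exact hn) (own_piece hwf h) hq (t := t) (by simp)
    ((c.pcs_sublist q hq).subset h2)
  rw [← h3] at h2
  simp at h2

lemma gact_pr {pr : T → Bool} {b : Bool} {g : List (Itm T) × T} (hok : ∀ i ∈ g.1, i.Ok pr)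
    (h : pr g.2 = true ∨ (b = false ∧ hd2 pr g.1 = [])) : ∀ q ∈ gact pr b g, pr q.2 = true := by
  have hf : ∀ w : List (Bool × T), ∀ q ∈ fp pr w, pr q.2 = true := by
    intro w q hq
    simpa using (List.mem_filter.1 hq).2
  obtain ⟨m, t⟩ := g
  intro q hq
  cases b
  swap
  · have hq' : q ∈ fp pr (m.flatMap Itm.rd) ++ [(true, t)] := hq
    rcases List.mem_append.1 hq' with hq' | hq'
    · exact hf _ q hq'
    · rw [List.mem_singleton.1 hq']
      rcases h with h | ⟨h, -⟩
      · exact h
      · simp at h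
  · rcases h2 : hd2 pr m with _ | ⟨i, m'⟩
    · have hq' : q ∈ fp pr (m.flatMap Itm.rd) ++ (if pr t then [(false, t)] else []) := by
        unfold gact at hq
        simp only [h2] at hq
        exact hq
      rcases List.mem_append.1 hq' with hq' | hq'
      · exact hf _ q hq'
      · cases ht : pr t
        · rw [ht] at hq'; simp at hq'
        · rw [ht] at hq'
          have : q = (false, t) := by simpa using hq'
          rw [this]
          exact ht
    · obtain ⟨a, c, rfl, ha⟩ := hd2_cons h2
      have hc : pr c = true := by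
        have h3 : Itm.re a c ∈ m := by
          have h4 : Itm.re a c ∈ hd1 pr m ++ hd2 pr m :=
            List.mem_append_right _ (by rw [h2]; exact List.mem_cons_self)
          rw [hd_app] at h4
          exact h4
        have h5 : pr a = pr c := hok _ h3
        rw [← h5]; exact ha
      have ht : pr t = true := by
        rcases h with h | ⟨-, h⟩
        · exact h
        · rw [h2] at h; simp at h
      have hq' : q ∈ fp pr ((hd1 pr m).flatMap Itm.rd) ++
          ([(false, a), (false, c)] ++ (fp pr (m'.flatMap Itm.rd) ++ [(true, t)])) := by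
        unfold gact at hq
        simp only [h2] at hq
        exact hq
      rcases List.mem_append.1 hq' with hq' | hq'
      · exact hf _ q hq'
      rcases List.mem_append.1 hq' with hq' | hq'
      · simp only [List.mem_cons, List.not_mem_nil, or_false] at hq'
        rcases hq' with rfl | rfl
        · exact ha
        · exact hc
      rcases List.mem_append.1 hq' with hq' | hq'
      · exact hf _ q hq'
      · rw [List.mem_singleton.1 hq']
        exact ht

/-- the tokens of the actual word are present -/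
theorem act_pr {pr s : T → Bool} {c : Circ T} (hn : c.tks.Nodup) (hwf : c.Wf s)
    (hev : ∀ p ∈ c.evs, pr p.1 = pr p.2)
    (habs : ∀ t ∈ c.tks, pr t = false → ¬ c.own t → t ∈ ptk c.evs)
    (hdr : ∀ t, c.own t → (pr t = false ↔ c.isDr pr s = true)) :
    ∀ q ∈ c.act pr s, pr q.2 = true := by
  classical
  have hf : ∀ w : List (Bool × T), ∀ q ∈ fp pr w, pr q.2 = true := by
    intro w q hq
    simpa using (List.mem_filter.1 hq).2
  cases c with
  | gp l us t g r => exact hf _
  | pl l r us => exact hf _
  | fu A =>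
    obtain ⟨pr', hpr'⟩ : ∃ pr' : T → Bool,
      pr' = fun t => decide (pr t = true ∨ (Circ.fu A).own t) := ⟨_, rfl⟩
    have hpr : ∀ t, pr' t = true ↔ pr t = true ∨ (Circ.fu A).own t := by
      intro t; rw [hpr']; simp
    have hno : ∀ t, ¬ (Circ.fu A).own t → pr' t = pr t := by
      intro t ht
      have h1 := hpr t
      cases hp : pr t
      · cases hp' : pr' t
        · rfl
        · rcases h1.1 hp' with h | h
          · rw [hp] at h; simp at h
          · exact absurd h ht
      · exact h1.2 (Or.inl hp)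
    have hno' : ∀ t ∈ ptk (Circ.fu A).evs, pr' t = pr t := fun t ht =>
      hno t fun h => own_evs hn hwf h ht
    have hev' : ∀ p ∈ (Circ.fu A).evs, pr' p.1 = pr' p.2 := by
      intro p hp
      rw [hno' p.1 (mem_ptk.2 ⟨p, hp, Or.inl rfl⟩), hno' p.2 (mem_ptk.2 ⟨p, hp, Or.inr rfl⟩)]
      exact hev p hp
    have habs' : ∀ t ∈ (Circ.fu A).tks, pr' t = false → t ∈ ptk (Circ.fu A).evs := by
      intro t ht h
      have h1 := hpr t
      refine habs t ht ?_ ?_
      · cases hp : pr t
        · rfl
        · rw [h1.2 (Or.inl hp)] at h; simp at h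
      · intro h2
        rw [h1.2 (Or.inr h2)] at h; simp at h
    obtain ⟨-, gx, gX, -, gi, gt⟩ := fu_facts (s := s) hn hev' habs'
    have hn1 : (A.l :: A.x :: (A.e1.flatMap BU.tks ++ (A.X ::
      ((A.gs.flatMap fun g => g.1.flatMap Itm.tks ++ [g.2]) ++ A.tl.flatMap Itm.tks)))).Nodup := hn
    obtain ⟨k1, k2⟩ := List.nodup_cons.1 hn1
    obtain ⟨k3, k4⟩ := List.nodup_cons.1 k2
    obtain ⟨k5, k6, k7⟩ := List.nodup_append.1 k4
    obtain ⟨k8, k9⟩ := List.nodup_cons.1 k6
    obtain ⟨k10, k11, k12⟩ := List.nodup_append.1 k9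
    -- the own tokens
    have hown : ∀ t, (Circ.fu A).own t → t = A.l ∨
        ∃ m, (m, t) ∈ A.gs ∧ (Circ.fu A).beads = m.flatMap Itm.rep := by
      rintro t (h | h)
      · exact Or.inl h
      · obtain ⟨-, gs, m, hgs⟩ := hwf t h
        refine Or.inr ⟨m, by rw [hgs]; simp, ?_⟩
        unfold beads
        simp [hgs]
    have hgm : ∀ m t, (m, t) ∈ A.gs → t ∈ A.gs.flatMap fun g => g.1.flatMap Itm.tks ++ [g.2] :=
      fun m t h => List.mem_flatMap.2 ⟨_, h, by simp⟩
    have hx' : ¬ (Circ.fu A).own A.x := by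
      intro h
      rcases hown _ h with h1 | ⟨m, h1, -⟩
      · exact k1 (by rw [← h1]; exact List.mem_cons_self)
      · exact k3 (List.mem_append_right _ (List.mem_cons_of_mem _ (List.mem_append_left _
          (hgm _ _ h1))))
    have hX' : ¬ (Circ.fu A).own A.X := by
      intro h
      rcases hown _ h with h1 | ⟨m, h1, -⟩
      · exact k1 (by rw [← h1]; simp)
      · exact k8 (List.mem_append_left _ (hgm _ _ h1))
    rw [hno _ hx'] at gx
    rw [hno _ hX'] at gX
    have hitm : ∀ i : Itm T, ipc i ∈ (Circ.fu A).pcs → i.Ok pr' → i.Ok pr := by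
      intro i hi h2
      have key : ∀ t ∈ i.tks, (Circ.fu A).own t → False := by
        intro t ht h
        have h3 := nodup_eq (by rw [(Circ.fu A).pcs_tks]; exact hn) (own_piece hwf h) hi (t := t)
          (by simp) ht
        have h4 : [t] = i.tks := congrArg Prod.fst h3
        have h5 := congrArg List.length h4
        cases i with
        | re a b => simp [Itm.tks] at h5
        | la a b => simp [Itm.tks] at h5
        | br y x m' => simp [Itm.tks] at h5
      have h1 : ∀ t ∈ i.tks, pr' t = pr t := fun t ht => hno t fun h => key t ht h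
      cases i with
      | re a b =>
        have h3 : pr' a = pr' b := h2
        have h4 : pr a = pr b := by
          rw [← h1 a (by simp [Itm.tks]), ← h1 b (by simp [Itm.tks]), h3]
        exact h4
      | la a b =>
        have h3 : pr' a = pr' b := h2
        have h4 : pr a = pr b := by
          rw [← h1 a (by simp [Itm.tks]), ← h1 b (by simp [Itm.tks]), h3]
        exact h4
      | br t x m' =>
        obtain ⟨h3, h4, h5⟩ := h2
        refine ⟨by rw [← h1 t (by simp [Itm.tks])]; exact h3,
          by rw [← h1 x (by simp [Itm.tks])]; exact h4, ?_⟩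
        intro p hp
        have h6 : p.1 ∈ ptk m' := mem_ptk.2 ⟨p, hp, Or.inl rfl⟩
        have h7 : p.2 ∈ ptk m' := mem_ptk.2 ⟨p, hp, Or.inr rfl⟩
        rw [← h1 p.1 (by simp [Itm.tks, h6]), ← h1 p.2 (by simp [Itm.tks, h7])]
        exact h5 p hp
    have hgr : ∀ g ∈ A.gs, ∀ q ∈ gact pr (s g.2) g, pr q.2 = true := by
      intro g hg
      have h1 := gi g hg
      refine gact_pr (fun i hi => hitm i ?_ (h1.1 i hi)) ?_
      · change ipc i ∈ ([A.l], []) :: ([A.x], []) :: (A.e1.map upc ++ (([A.X], []) ::
          (A.gs.flatMap gpc ++ A.tl.map ipc)))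
        refine List.mem_cons_of_mem _ (List.mem_cons_of_mem _ (List.mem_append_right _
          (List.mem_cons_of_mem _ (List.mem_append_left _ (List.mem_flatMap.2 ⟨g, hg, ?_⟩)))))
        exact List.mem_append_left _ (List.mem_map_of_mem hi)
      · cases hp : pr g.2
        swap
        · exact Or.inl rfl
        right
        have h2 : (Circ.fu A).own g.2 := by
          have h3 := (hpr g.2).1 h1.2
          rw [hp] at h3
          simpa using h3
        have h3 := (hdr g.2 h2).1 hp
        obtain ⟨r, hr, hs, hb⟩ := isDr_iffX.1 h3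
        rcases hown _ h2 with h4 | ⟨m, h4, h5⟩
        · exfalso
          refine k1 ?_
          rw [← h4]
          exact List.mem_cons_of_mem _ (List.mem_append_right _ (List.mem_cons_of_mem _
            (List.mem_append_left _ (hgm g.1 g.2 hg))))
        · have h6 : (m, g.2) = g := nodup_eq k10 h4 hg (t := g.2) (by simp) (by simp)
          have hrr : r = g.2 := by
            rcases h2 with h7 | h7
            · exfalso
              refine k1 ?_
              have h8 : g.2 = A.l := h7
              rw [← h8]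
              exact List.mem_cons_of_mem _ (List.mem_append_right _ (List.mem_cons_of_mem _
                (List.mem_append_left _ (hgm g.1 g.2 hg))))
            · exact Option.mem_unique hr h7
          refine ⟨by rw [← hrr]; exact hs, ?_⟩
          have hm : g.1 = m := by rw [← h6]
          rw [hm]
          unfold hd2
          rw [List.dropWhile_eq_nil_iff]
          intro i hi
          cases i with
          | re a b =>
            have h9 := hb (a, b) (by
              rw [h5]
              exact List.mem_flatMap.2 ⟨_, hi, by simp [Itm.rep]⟩)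
            have h10 : pr a = false := h9
            simp [Itm.isP, h10]
          | la a b => rfl
          | br t x m' => rfl
    intro q hq
    have hq' : q ∈ fp pr [((true, A.l) : Bool × T)] ++ ((true, A.x) ::
        (fp pr (BU.word (BU.sg s) A.e1) ++ ((true, A.X) ::
        ((A.gs.flatMap fun g => gact pr (s g.2) g) ++ fp pr (A.tl.flatMap Itm.rd))))) := hq
    rcases List.mem_append.1 hq' with hq' | hq'
    · exact hf _ q hq'
    rcases List.mem_cons.1 hq' with rfl | hq'
    · exact gx
    rcases List.mem_append.1 hq' with hq' | hq'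
    · exact hf _ q hq'
    rcases List.mem_cons.1 hq' with rfl | hq'
    · exact gX
    rcases List.mem_append.1 hq' with hq' | hq'
    · obtain ⟨g, hg, hq'⟩ := List.mem_flatMap.1 hq'
      exact hgr g hg q hq'
    · exact hf _ q hq'

end Circ

end present

section actmem

lemma gact_mem {pr : T → Bool} {b : Bool} {g : List (Itm T) × T} {q : Bool × T}
    (h : q ∈ gact pr b g) : q.2 ∈ g.1.flatMap Itm.tks ++ [g.2] := by
  obtain ⟨m, t⟩ := g
  have hrd : ∀ m' : List (Itm T), (∀ i ∈ m', i ∈ m) → ∀ q ∈ fp pr (m'.flatMap Itm.rd),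
      q.2 ∈ m.flatMap Itm.tks ++ [t] := by
    intro m' hm' q hq
    have h1 : q.2 ∈ (m'.flatMap Itm.rd).map Prod.snd :=
      List.mem_map_of_mem (List.mem_filter.1 hq).1
    rw [rds_snd] at h1
    obtain ⟨i, hi, h2⟩ := List.mem_flatMap.1 h1
    exact List.mem_append_left _ (List.mem_flatMap.2 ⟨i, hm' i hi, h2⟩)
  cases b
  swap
  · have hq' : q ∈ fp pr (m.flatMap Itm.rd) ++ [(true, t)] := h
    rcases List.mem_append.1 hq' with hq' | hq'
    · exact hrd m (fun i hi => hi) q hq'
    · rw [List.mem_singleton.1 hq']; simp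
  · rcases h2 : hd2 pr m with _ | ⟨i, m'⟩
    · have hq' : q ∈ fp pr (m.flatMap Itm.rd) ++ (if pr t then [(false, t)] else []) := by
        unfold gact at h
        simp only [h2] at h
        exact h
      rcases List.mem_append.1 hq' with hq' | hq'
      · exact hrd m (fun i hi => hi) q hq'
      · cases ht : pr t
        · rw [ht] at hq'; simp at hq'
        · rw [ht] at hq'
          have : q = (false, t) := by simpa using hq'
          rw [this]
          simp
    · obtain ⟨a, c, rfl, ha⟩ := hd2_cons h2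
      have hm : ∀ j, j ∈ hd1 pr m ∨ j = Itm.re a c ∨ j ∈ m' → j ∈ m := by
        intro j hj
        have h4 : j ∈ hd1 pr m ++ hd2 pr m := by
          rw [h2]
          rcases hj with hj | hj | hj
          · exact List.mem_append_left _ hj
          · rw [hj]; simp
          · exact List.mem_append_right _ (List.mem_cons_of_mem _ hj)
        rw [hd_app] at h4
        exact h4
      have hq' : q ∈ fp pr ((hd1 pr m).flatMap Itm.rd) ++
          ([(false, a), (false, c)] ++ (fp pr (m'.flatMap Itm.rd) ++ [(true, t)])) := by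
        unfold gact at h
        simp only [h2] at h
        exact h
      rcases List.mem_append.1 hq' with hq' | hq'
      · exact hrd _ (fun i hi => hm i (Or.inl hi)) q hq'
      rcases List.mem_append.1 hq' with hq' | hq'
      · have h5 := hm (Itm.re a c) (Or.inr (Or.inl rfl))
        refine List.mem_append_left _ (List.mem_flatMap.2 ⟨_, h5, ?_⟩)
        simp only [List.mem_cons, List.not_mem_nil, or_false] at hq'
        rcases hq' with rfl | rfl
        · simp [Itm.tks]
        · simp [Itm.tks]
      rcases List.mem_append.1 hq' with hq' | hq'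
      · exact hrd _ (fun i hi => hm i (Or.inr (Or.inr hi))) q hq'
      · rw [List.mem_singleton.1 hq']
        simp

/-- the tokens of the actual word -/
lemma Circ.act_mem {pr s : T → Bool} {c : Circ T} {q : Bool × T} (h : q ∈ c.act pr s) :
    q.2 ∈ c.tks := by
  cases c with
  | pl l r us =>
    have h1 : q ∈ (Circ.pl l r us).fin pr s := (List.mem_filter.1 h).1
    exact ((Circ.pl l r us).fin_permX pr s).mem_iff.1 (List.mem_map_of_mem h1)
  | gp l us t g r =>
    have h1 : q ∈ BU.word (BU.sg s) us ++ ((false, t) :: (g.flatMap Itm.rd ++ [(true, r)])) :=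
      (List.mem_filter.1 h).1
    change q.2 ∈ us.flatMap BU.tks ++ (t :: (g.flatMap Itm.tks ++ [r]))
    rcases List.mem_append.1 h1 with h1 | h1
    · exact List.mem_append_left _ ((BU.word_perm _ _).mem_iff.1 (List.mem_map_of_mem h1))
    rcases List.mem_cons.1 h1 with rfl | h1
    · simp
    rcases List.mem_append.1 h1 with h1 | h1
    · have h2 : q.2 ∈ (g.flatMap Itm.rd).map Prod.snd := List.mem_map_of_mem h1
      rw [rds_snd] at h2
      exact List.mem_append_right _ (List.mem_cons_of_mem _ (List.mem_append_left _ h2))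
    · rw [List.mem_singleton.1 h1]
      simp
  | fu A =>
    have hq' : q ∈ fp pr [((true, A.l) : Bool × T)] ++ ((true, A.x) ::
        (fp pr (BU.word (BU.sg s) A.e1) ++ ((true, A.X) ::
        ((A.gs.flatMap fun g => gact pr (s g.2) g) ++ fp pr (A.tl.flatMap Itm.rd))))) := h
    change q.2 ∈ A.l :: A.x :: (A.e1.flatMap BU.tks ++ (A.X ::
      ((A.gs.flatMap fun g => g.1.flatMap Itm.tks ++ [g.2]) ++ A.tl.flatMap Itm.tks)))
    rcases List.mem_append.1 hq' with hq' | hq'
    · have h1 := (List.mem_filter.1 hq').1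
      rw [List.mem_singleton.1 h1]
      exact List.mem_cons_self
    rcases List.mem_cons.1 hq' with rfl | hq'
    · simp
    rcases List.mem_append.1 hq' with hq' | hq'
    · have h1 := (List.mem_filter.1 hq').1
      exact List.mem_cons_of_mem _ (List.mem_cons_of_mem _ (List.mem_append_left _
        ((BU.word_perm _ _).mem_iff.1 (List.mem_map_of_mem h1))))
    rcases List.mem_cons.1 hq' with rfl | hq'
    · simp
    rcases List.mem_append.1 hq' with hq' | hq'
    · obtain ⟨g, hg, hq'⟩ := List.mem_flatMap.1 hq'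
      exact List.mem_cons_of_mem _ (List.mem_cons_of_mem _ (List.mem_append_right _
        (List.mem_cons_of_mem _ (List.mem_append_left _
          (List.mem_flatMap.2 ⟨g, hg, gact_mem hq'⟩)))))
    · have h1 := (List.mem_filter.1 hq').1
      have h2 : q.2 ∈ (A.tl.flatMap Itm.rd).map Prod.snd := List.mem_map_of_mem h1
      rw [rds_snd] at h2
      exact List.mem_cons_of_mem _ (List.mem_cons_of_mem _ (List.mem_append_right _
        (List.mem_cons_of_mem _ (List.mem_append_right _ h2))))

end actmem

section gp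

namespace Circ

/-- **extension of the values, group link** -/
theorem ext_gp {pr s : T → Bool} {l t r : T} {us : List (BU T)} {g : List (Itm T)}
    (hn : (Circ.gp l us t g r).tks.Nodup) (hwf : (Circ.gp l us t g r).Wf s)
    (hev : ∀ p ∈ (Circ.gp l us t g r).evs, pr p.1 = pr p.2)
    (habs : ∀ t' ∈ (Circ.gp l us t g r).tks, pr t' = false →
      t' ∈ ptk (Circ.gp l us t g r).evs)
    {V : T → B} (e : B) (hV : s r = false → V l = V r)
    (hC : Cl V ((Circ.gp l us t g r).act pr s)) : ∃ V' : T → B,
      (∀ t', ¬ (t' ∈ (Circ.gp l us t g r).tks ∧ pr t' = false) →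
        ¬ (s r = false ∧ (t' = l ∨ t' = r)) → V' t' = V t') ∧
      (s r = false → V' l = e ∧ V' r = e) ∧
      (∀ p ∈ (Circ.gp l us t g r).evs, pr p.1 = false → V' p.1 = V' p.2) ∧
      Cl V' ((Circ.gp l us t g r).fin pr s) := by
  classical
  obtain ⟨g1, g2, g3, g4⟩ := gp_facts (s := s) hn hev habs
  have hspE := spE (pr := pr) (s := s) hn hev habs
  have hperm := (Circ.gp l us t g r).fin_permX pr s
  obtain ⟨hst, hsl, us1, hus⟩ := hwf
  have hwf' : (Circ.gp l us t g r).Wf s := ⟨hst, hsl, us1, hus⟩
  have hl : pr l = true := by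
    cases h : pr l
    · exact absurd (habs l (own_mem hwf' (Or.inl rfl)) h) (own_evs hn hwf' (Or.inl rfl))
    · rfl
  have ew : BU.word (BU.sg s) (g.flatMap Itm.brp) =
      BU.word (fun _ => true) (g.flatMap Itm.brp) := by
    refine BU.word_congr fun u hu hk => ?_
    obtain ⟨i, -, hu⟩ := List.mem_flatMap.1 hu
    cases i with
    | re a b => simp [Itm.brp] at hu
    | la a b => simp [Itm.brp] at hu
    | br y x m =>
      have : u = BU.br y x m := by simpa [Itm.brp] using hu
      rw [this] at hk
      simp [BU.kind] at hk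
  have efin : (Circ.gp l us t g r).fin pr s = BU.word (BU.sg s) us ++
      (BU.word (fun _ => true) (g.flatMap Itm.brp) ++
        ((BU.gv t (g.flatMap Itm.pairs)).lts (s t) ++ [(s r, r)])) := by
    change BU.word (BU.sg s) (us ++ (g.flatMap Itm.brp ++
      [BU.gv t (g.flatMap Itm.pairs), BU.fr r])) = _
    rw [BU.word_append, BU.word_append, BU.word_cons, BU.word_cons, BU.word_nil, ew]
    rfl
  have eact : (Circ.gp l us t g r).act pr s = fp pr (BU.word (BU.sg s) us) ++
      ((false, t) :: (fp pr (g.flatMap Itm.rd) ++ [(true, r)])) := by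
    change fp pr (BU.word (BU.sg s) us ++ ((false, t) :: (g.flatMap Itm.rd ++ [(true, r)]))) = _
    rw [fp_append, fp_cons, if_pos g2, fp_append, fp_cons, if_pos g4]
    rfl
  rw [eact] at hC
  cases hr : s r
  swap
  · -- present
    have ht : s t = false := by rw [hst, hr]; rfl
    have h1 : Cl V (fp pr ((Circ.gp l us t g r).fin pr s)) := by
      have e1 : fp pr ((Circ.gp l us t g r).fin pr s) = fp pr (BU.word (BU.sg s) us) ++
          (fp pr (BU.word (fun _ => true) (g.flatMap Itm.brp)) ++
            ((false, t) :: (fp pr (up (g.flatMap Itm.pairs)) ++ [(true, r)]))) := by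
        rw [efin, ht, hr]
        change fp pr (BU.word (BU.sg s) us ++ (BU.word (fun _ => true) (g.flatMap Itm.brp) ++
          (((false, t) :: up (g.flatMap Itm.pairs)) ++ [(true, r)]))) = _
        rw [fp_append, fp_append, fp_append, fp_cons, if_pos g2, fp_cons, if_pos g4]
        simp
      rw [e1]
      refine Imp.cl (Imp.append (Imp.refl V _) ?_) hC
      intro S S' hR
      have h2 : Run (lv V (fp pr (g.flatMap Itm.rd) ++ [(true, r)])) (push (V t) S) S' := hR
      rw [lv_append, run_append] at h2
      obtain ⟨S₁, h3, h4⟩ := h2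
      obtain ⟨h5, h6⟩ := run_items g3 h3
      rw [lv_append, run_append]
      refine ⟨S, h5 S, ?_⟩
      have h7 : Run (lv V (fp pr (up (g.flatMap Itm.pairs)) ++ [(true, r)])) (push (V t) S) S' := by
        rw [lv_append, run_append]
        exact ⟨S₁, h6, h4⟩
      exact h7
    obtain ⟨S, h2, h3⟩ := h1
    obtain ⟨V', h4, h5, h6⟩ := hspE.run (hperm.nodup_iff.2 hn) h2
    refine ⟨V', ?_, fun h => by simp at h, h5, S, h6, h3⟩
    intro t' ht' _
    refine h4 t' ?_
    by_cases h7 : t' ∈ (Circ.gp l us t g r).tks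
    · left
      cases h8 : pr t'
      · exact absurd ⟨h7, h8⟩ ht'
      · rfl
    · right
      rw [hperm.mem_iff]
      exact h7
  · -- dropped
    have ht : s t = true := by rw [hst, hr]; rfl
    have hVlr : V l = V r := hV hr
    obtain ⟨X, hX⟩ : ∃ X, X = BU.word (BU.sg s) us1 ++
        (BU.word (fun _ => true) (g.flatMap Itm.brp) ++
          (dn (g.flatMap Itm.pairs) ++ [(true, t)])) := ⟨_, rfl⟩
    have eX : (Circ.gp l us t g r).fin pr s = (true, l) :: (X ++ [(false, r)]) := by
      rw [efin, ht, hr, hus, BU.word_cons, hX]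
      have h1 : (BU.fx l).lts (BU.sg s (BU.fx l)) = [(true, l)] := by
        have : BU.sg s (BU.fx l) = true := hsl
        rw [this]
        rfl
      rw [h1]
      change [(true, l)] ++ _ ++ (_ ++ ((dn (g.flatMap Itm.pairs) ++ [(true, t)]) ++ _)) = _
      simp
    have hnX : (l :: (X.map Prod.snd ++ [r])).Nodup := by
      have h1 := hperm.nodup_iff.2 hn
      rw [eX] at h1
      simpa using h1
    obtain ⟨k1, k2⟩ := List.nodup_cons.1 hnX
    obtain ⟨-, -, k3⟩ := List.nodup_append.1 k2
    have hXne : ∀ q ∈ X, q.2 ≠ l ∧ q.2 ≠ r := by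
      intro q hq
      have hq' : q.2 ∈ X.map Prod.snd := List.mem_map_of_mem hq
      exact ⟨fun h => k1 (List.mem_append_left _ (h ▸ hq')), k3 _ hq' r (by simp)⟩
    have h1 : Cl V (fp pr X) := by
      obtain ⟨S, h2, K, c, h3⟩ := hC
      have e1 : fp pr (BU.word (BU.sg s) us) = (true, l) :: fp pr (BU.word (BU.sg s) us1) := by
        rw [hus, BU.word_cons]
        have h1 : (BU.fx l).lts (BU.sg s (BU.fx l)) = [(true, l)] := by
          have : BU.sg s (BU.fx l) = true := hsl
          rw [this]
          rfl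
        rw [h1, fp_append, fp_cons, if_pos hl]
        rfl
      rw [e1] at h2
      have h4 : V l = S 0 ∧ Run (lv V (fp pr (BU.word (BU.sg s) us1) ++
          ((false, t) :: (fp pr (g.flatMap Itm.rd) ++ [(true, r)])))) (tl S) S := h2
      obtain ⟨h5, h6⟩ := h4
      rw [lv_append, run_append] at h6
      obtain ⟨S₁, h7, h8⟩ := h6
      have h9 : Run (lv V (fp pr (g.flatMap Itm.rd) ++ [(true, r)])) (push (V t) S₁) S := h8
      rw [lv_append, run_append] at h9
      obtain ⟨S₂, h10, h11⟩ := h9
      obtain ⟨h12, h13⟩ := run_items g3 h10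
      rw [fp_up (ok_pairs g3)] at h13
      obtain ⟨w, h14, h15⟩ := run_up_push h13
      have h16 : V r = S₂ 0 ∧ tl S₂ = S := h11
      rw [h14, tl_push] at h16
      obtain ⟨h17, h18⟩ := h16
      have h19 : V r = w := h17
      subst h18
      have h20 : push w (tl S₁) = S₁ := by
        rw [← h19, ← hVlr, h5, push_tl]
      refine ⟨tl S₁, ?_, K, c, fun j hj => h3 (j + 1) (by omega)⟩
      rw [hX, fp_append, lv_append, run_append]
      refine ⟨S₁, h7, ?_⟩
      rw [fp_append, lv_append, run_append]
      refine ⟨S₁, h12 S₁, ?_⟩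
      rw [fp_append, lv_append, run_append, fp_dn (ok_pairs g3)]
      refine ⟨push (V t) (tl S₁), ?_, ?_⟩
      · have h21 := (h15 (tl S₁)).2
        rw [h20] at h21
        exact h21
      · have e2 : fp pr [((true, t) : Bool × T)] = [(true, t)] := by
          rw [fp_cons, if_pos g2]
          rfl
        rw [e2]
        have h21 : V t = V t ∧ tl (push (V t) (tl S₁)) = tl S₁ := ⟨rfl, tl_push _ _⟩
        exact h21
    obtain ⟨V₁, hV₁⟩ : ∃ V₁ : T → B, V₁ = fun t' => if t' = l ∨ t' = r then e else V t' :=
      ⟨_, rfl⟩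
    have hV₁l : V₁ l = e := by rw [hV₁]; simp
    have hV₁r : V₁ r = e := by rw [hV₁]; simp
    have hV₁o : ∀ t', t' ≠ l → t' ≠ r → V₁ t' = V t' := by
      intro t' h h'
      rw [hV₁]; simp [h, h']
    have h2 : Cl V₁ (fp pr X) := h1.congr fun q hq => by
      have hq' := hXne q (List.mem_filter.1 hq).1
      exact (hV₁o _ hq'.1 hq'.2).symm
    have h3 : Cl V₁ (fp pr ((Circ.gp l us t g r).fin pr s)) := by
      have e1 : fp pr ((Circ.gp l us t g r).fin pr s) = (true, l) :: (fp pr X ++ [(false, r)]) := by
        rw [eX, fp_cons, if_pos hl, fp_append, fp_cons, if_pos g4]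
        rfl
      rw [e1]
      exact h2.wrap (by rw [hV₁l, hV₁r])
    obtain ⟨S, h4, h5⟩ := h3
    obtain ⟨V', h6, h7, h8⟩ := hspE.run (hperm.nodup_iff.2 hn) h4
    refine ⟨V', ?_, fun _ => ⟨?_, ?_⟩, h7, S, h8, h5⟩
    · intro t' ht' ht''
      have h9 : V' t' = V₁ t' := by
        refine h6 t' ?_
        by_cases h7 : t' ∈ (Circ.gp l us t g r).tks
        · left
          cases h8 : pr t'
          · exact absurd ⟨h7, h8⟩ ht'
          · rfl
        · right
          rw [hperm.mem_iff]
          exact h7
      have h10 : t' ≠ l ∧ t' ≠ r := by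
        constructor
        · rintro rfl
          exact ht'' ⟨rfl, Or.inl rfl⟩
        · rintro rfl
          exact ht'' ⟨rfl, Or.inr rfl⟩
      rw [h9]
      exact hV₁o _ h10.1 h10.2
    · rw [h6 l (Or.inl hl)]; exact hV₁l
    · rw [h6 r (Or.inl g4)]; exact hV₁r

end Circ

end gp

section all

namespace Sys

variable {n : ℕ} {G : Sys n T}

/-- **the extension theorem**: solutions of the actual words extend to solutions of the words with
all tokens -/
theorem ext (hT : G.Tree) {s : T → Bool} (hCC : ∀ f, (G.c f).CC s)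
    (hpar : ∀ g, G.Dr (fun _ => s) g → ∃ z, ∃ p ∈ (G.c z).evs, G.Ch g p)
    {V : T → B} (hV : ∀ t, G.pr (fun _ => s) t = true → G.pr (fun _ => s) (G.lam t) = true →
      V (G.lam t) = V t)
    (hbox : ∀ g, G.Dr (fun _ => s) g → (G.c g).isGp = true → ∀ r, (G.c g).r = some r →
      V (G.c g).l = V r)
    (hC : ∀ f, Cl V ((G.c f).act (G.pr fun _ => s) s)) :
    ∃ V' : T → B, (∀ t, G.pr (fun _ => s) t = true →
        (¬ ∃ g, G.Dr (fun _ => s) g ∧ (G.c g).isGp = true ∧ (G.c g).own t) → V' t = V t) ∧
      (∀ t, V' (G.lam t) = V' t) ∧ ∀ f, Cl V' ((G.c f).fin (G.pr fun _ => s) s) := by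
  classical
  obtain ⟨pr, hpr⟩ : ∃ pr, pr = G.pr (fun _ => s) := ⟨_, rfl⟩
  obtain ⟨D, hD⟩ : ∃ D : Fin n → Prop, D = G.Dr (fun _ => s) := ⟨_, rfl⟩
  have hprf : ∀ t, pr t = false ↔ ∃ g, D g ∧ G.Ab g t := by
    intro t; rw [hpr, hD]; exact pr_false
  have hDr : ∀ f, (G.c f).isDr pr s = true ↔ D f := by
    intro f
    rw [hpr, hD]
    exact isDr_iff hT (σ := fun _ => s)
  rw [← hpr] at hV hC ⊢
  rw [← hD] at hpar hbox ⊢
  have hwf : ∀ f, (G.c f).Wf s := fun f => Circ.wf_of (G.ws f) (hCC f)
  have lam_lam := G.lam_lam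
  have hnd : ∀ f t, (G.c f).own t → G.nd t = f := fun f t h =>
    (G.mem f t).1 (Circ.own_mem (hwf f) h)
  have hevm : ∀ f, ∀ t ∈ ptk (G.c f).evs, G.nd t = f := fun f t h =>
    (G.mem f t).1 ((G.c f).evs_sub.subset h)
  have hoe : ∀ f t, (G.c f).own t → t ∉ ptk (G.c f).evs := fun f t h =>
    Circ.own_evs (G.nodup f) (hwf f) h
  -- the parent of a dropped circle
  have hpar' : ∀ g, D g → ∃ z, z < g ∧ ∃ p ∈ (G.c z).evs, ∃ r, (G.c g).r = some r ∧
      (p = (G.lam (G.c g).l, G.lam r) ∨ p = (G.lam r, G.lam (G.c g).l)) := by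
    intro g hg
    obtain ⟨z, p, hp, hch⟩ := hpar g hg
    obtain ⟨g', hzg, hch'⟩ := hT.ch z p hp
    obtain ⟨r, hr, h1⟩ := hch
    obtain ⟨r', hr', h1'⟩ := hch'
    have e1 : G.nd (G.lam p.1) = g := by
      rcases h1 with h | h
      · rw [h.1, lam_lam]; exact nd_l g
      · rw [h.1, lam_lam]; exact nd_r hr
    have e2 : G.nd (G.lam p.1) = g' := by
      rcases h1' with h | h
      · rw [h.1, lam_lam]; exact nd_l g'
      · rw [h.1, lam_lam]; exact nd_r hr'
    rw [e1] at e2
    rw [← e2] at hzg
    refine ⟨z, hzg, p, hp, r, hr, ?_⟩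
    rcases h1 with h | h
    · left; exact Prod.ext h.1 h.2
    · right; exact Prod.ext h.1 h.2
  have hAb : ∀ g, D g → ∀ t, (G.c g).own t → pr (G.lam t) = false := by
    intro g hg t ht
    obtain ⟨z, -, p, -, r, hr, -⟩ := hpar' g hg
    refine (hprf _).2 ⟨g, hg, r, hr, Or.inl ?_⟩
    rcases ht with ht | ht
    · left; rw [ht]
    · right
      have : t = r := Option.mem_unique ht hr
      rw [this]
  have hAb' : ∀ g, D g → (G.c g).isGp = false → ∀ t, (G.c g).own t → pr t = false := by
    intro g hg hgp t ht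
    obtain ⟨z, -, p, -, r, hr, -⟩ := hpar' g hg
    refine (hprf _).2 ⟨g, hg, r, hr, Or.inr ⟨hgp, ?_⟩⟩
    rcases ht with ht | ht
    · left; exact ht
    · right
      exact Option.mem_unique ht hr
  have hcase : ∀ t, pr t = false → (D (G.nd t) ∧ (G.c (G.nd t)).isGp = false ∧
        (G.c (G.nd t)).own t) ∨
      ∃ g, D g ∧ (G.c g).own (G.lam t) ∧ G.nd t < g ∧ ∃ p ∈ (G.c (G.nd t)).evs,
        t = p.1 ∨ t = p.2 := by
    intro t ht
    obtain ⟨g, h1, r, hr, h2⟩ := (hprf t).1 ht
    rcases h2 with h2 | ⟨h2, h3⟩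
    · right
      have ho : (G.c g).own (G.lam t) := by
        rcases h2 with h2 | h2
        · rw [h2, lam_lam]; exact Or.inl rfl
        · rw [h2, lam_lam]; exact Or.inr hr
      obtain ⟨z, hz, p, hp, r', hr', hpe⟩ := hpar' g h1
      have hrr : r' = r := by
        rw [hr] at hr'
        exact (Option.some.inj hr').symm
      subst hrr
      have h3 : t = p.1 ∨ t = p.2 := by
        rcases h2 with h2 | h2
        · rcases hpe with h5 | h5
          · left; rw [h5]; exact h2
          · right; rw [h5]; exact h2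
        · rcases hpe with h5 | h5
          · right; rw [h5]; exact h2
          · left; rw [h5]; exact h2
      have h4 : G.nd t = z := hevm z t (mem_ptk.2 ⟨p, hp, h3⟩)
      rw [h4]
      exact ⟨g, h1, ho, hz, p, hp, h3⟩
    · left
      have ho : (G.c g).own t := by
        rcases h3 with h3 | h3
        · exact Or.inl h3
        · rw [h3]; exact Or.inr hr
      rw [hnd g t ho]
      exact ⟨h1, h2, ho⟩
  have hev : ∀ f, ∀ p ∈ (G.c f).evs, pr p.1 = pr p.2 := by
    intro f p hp
    obtain ⟨g, -, hch⟩ := hT.ch f p hp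
    have h1 := pr_ev (σ := fun _ => s) hp hch
    rw [← hpr] at h1
    cases h2 : pr p.1
    · exact (h1.2.2 (h1.1.1 h2)).symm
    · cases h3 : pr p.2
      · rw [h1.1.2 (h1.2.1 h3)] at h2
        simp at h2
      · rfl
  have habs' : ∀ f, ∀ t ∈ (G.c f).tks, pr t = false → ¬ (G.c f).own t →
      t ∈ ptk (G.c f).evs := by
    intro f t ht hp ho
    have hndt : G.nd t = f := (G.mem f t).1 ht
    rcases hcase t hp with ⟨-, -, h1⟩ | ⟨g, -, -, -, p', hp', h4⟩
    · rw [hndt] at h1; exact absurd h1 ho
    · rw [hndt] at hp'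
      exact mem_ptk.2 ⟨p', hp', h4⟩
  have hdr : ∀ f, (G.c f).isGp = false → ∀ t, (G.c f).own t →
      (pr t = false ↔ (G.c f).isDr pr s = true) := by
    intro f hf t ho
    have hndt : G.nd t = f := hnd f t ho
    rw [hDr]
    constructor
    · intro hp
      rcases hcase t hp with ⟨h1, -, -⟩ | ⟨g, -, -, -, p', hp', h4⟩
      · rw [hndt] at h1; exact h1
      · rw [hndt] at hp'
        exact absurd (mem_ptk.2 ⟨p', hp', h4⟩) (hoe f t ho)
    · intro h
      exact hAb' f h hf t ho
  have hgp : ∀ f, (G.c f).isGp = true → ∀ t, (G.c f).own t → pr t = true := by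
    intro f hf t ho
    have hndt : G.nd t = f := hnd f t ho
    cases hp : pr t
    · rcases hcase t hp with ⟨-, h1, -⟩ | ⟨g, -, -, -, p', hp', h4⟩
      · rw [hndt, hf] at h1; simp at h1
      · rw [hndt] at hp'
        exact absurd (mem_ptk.2 ⟨p', hp', h4⟩) (hoe f t ho)
    · rfl
  have hBd : ∀ t, pr t = true → pr (G.lam t) = false →
      ∃ g, D g ∧ (G.c g).isGp = true ∧ (G.c g).own t := by
    intro t h1 h2
    rcases hcase (G.lam t) h2 with ⟨h3, h4, h5⟩ | ⟨g, h3, h4, -⟩
    · have h6 := hAb _ h3 _ h5
      rw [lam_lam, h1] at h6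
      simp at h6
    · rw [lam_lam] at h4
      cases h5 : (G.c g).isGp
      · rw [hAb' g h3 h5 t h4] at h1
        simp at h1
      · exact ⟨g, h3, h5, h4⟩
  -- the induction
  have main : ∀ k ≤ n, ∃ W : T → B, (∀ t, pr t = true →
        (¬ ∃ g, D g ∧ (G.c g).isGp = true ∧ (G.c g).own t) → W t = V t) ∧
      (∀ t, W (G.lam t) = W t) ∧
      (∀ f, D f → ∀ r ∈ (G.c f).r, W (G.c f).l = W r) ∧
      ∀ f : Fin n, f.val < k → Cl W ((G.c f).fin pr s) := by
    intro k
    induction k with
    | zero =>
      intro _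
      refine ⟨fun t => if pr t = true ∧ pr (G.lam t) = true then V t else 0, ?_, ?_, ?_,
        fun f hf => absurd hf (by omega)⟩
      · intro t ht h
        have h1 : pr (G.lam t) = true := by
          cases h2 : pr (G.lam t)
          · exact absurd (hBd t ht h2) h
          · rfl
        simp [ht, h1]
      · intro t
        simp only [lam_lam]
        by_cases h : pr t = true ∧ pr (G.lam t) = true
        · rw [if_pos h, if_pos ⟨h.2, h.1⟩]
          exact hV t h.1 h.2
        · rw [if_neg h, if_neg (fun h' => h ⟨h'.2, h'.1⟩)]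
      · intro f hf r hr
        have h1 := hAb f hf _ (Or.inl rfl)
        have h2 := hAb f hf r (Or.inr hr)
        simp [h1, h2]
    | succ k ih =>
      intro hk
      obtain ⟨W, i1, i2, i3, i4⟩ := ih (by omega)
      set z : Fin n := ⟨k, by omega⟩ with hz
      -- the circle `z`
      obtain ⟨W', j1, j2, j3⟩ : ∃ W' : T → B,
          (∀ t, ¬ (t ∈ (G.c z).tks ∧ pr t = false ∧ ¬ (G.c z).own t) → W' t = W t) ∧
          (∀ p ∈ (G.c z).evs, pr p.1 = false → W' p.1 = W' p.2) ∧
          Cl W' ((G.c z).fin pr s) := by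
        cases hzg : (G.c z).isGp
        · have hact : Cl W ((G.c z).act pr s) := (hC z).congr fun q hq => by
            have h1 := Circ.act_pr (G.nodup z) (hwf z) (hev z) (habs' z) (hdr z hzg) q hq
            refine (i1 q.2 h1 ?_).symm
            rintro ⟨g, h2, h3, h4⟩
            have h5 : G.nd q.2 = z := (G.mem z _).1 (Circ.act_mem hq)
            rw [hnd g _ h4] at h5
            rw [h5, hzg] at h3
            simp at h3
          exact Circ.ext hzg (G.nodup z) (hwf z) (hev z) (hoe z) (habs' z) (hdr z hzg)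
            (fun h => i3 z ((hDr z).1 h)) hact
        · obtain ⟨l0, us, t0, g0, r0, hcz⟩ : ∃ l us t g r, G.c z = Circ.gp l us t g r := by
            cases h : G.c z with
            | pl l r us => rw [h] at hzg; simp [Circ.isGp] at hzg
            | fu A => rw [h] at hzg; simp [Circ.isGp] at hzg
            | gp l us t g r => exact ⟨l, us, t, g, r, rfl⟩
          have hown : ∀ t, (G.c z).own t ↔ t = l0 ∨ t = r0 := by
            intro t
            rw [hcz]
            have e1 : (Circ.gp l0 us t0 g0 r0).l = l0 := rfl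
            have e2 : (Circ.gp l0 us t0 g0 r0).r = some r0 := rfl
            unfold Circ.own
            rw [e1, e2]
            simp [eq_comm]
          have hDz : D z ↔ s r0 = false := by
            rw [← hDr, hcz]
            unfold Circ.isDr
            simp [Circ.r, Circ.beads]
          have hact0 : ∀ q ∈ (G.c z).act pr s, pr q.2 = true ∧ G.nd q.2 = z := by
            intro q hq
            refine ⟨?_, (G.mem z _).1 (Circ.act_mem hq)⟩
            rw [hcz] at hq
            simpa using (List.mem_filter.1 hq).2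
          have habsz : ∀ t ∈ (G.c z).tks, pr t = false → t ∈ ptk (G.c z).evs := by
            intro t ht hp
            refine habs' z t ht hp fun ho => ?_
            rw [hgp z hzg t ho] at hp
            simp at hp
          obtain ⟨V₂, hV₂⟩ : ∃ V₂ : T → B, V₂ = fun t => if D z ∧ (t = l0 ∨ t = r0) then V t
            else W t := ⟨_, rfl⟩
          have hact : Cl V₂ ((G.c z).act pr s) := (hC z).congr fun q hq => by
            obtain ⟨h1, h2⟩ := hact0 q hq
            rw [hV₂]
            by_cases h3 : D z ∧ (q.2 = l0 ∨ q.2 = r0)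
            · simp only [if_pos h3]
            · simp only [if_neg h3]
              refine (i1 q.2 h1 ?_).symm
              rintro ⟨g, h4, h5, h6⟩
              have h7 : g = z := by rw [← hnd g _ h6, h2]
              rw [h7] at h4 h6
              exact h3 ⟨h4, (hown _).1 h6⟩
          have hn := G.nodup z
          have hw := hwf z
          have he := hev z
          rw [hcz] at hn hw he habsz hact
          obtain ⟨W', j1, j2, j3, j4⟩ := Circ.ext_gp hn hw he habsz (W l0) (fun h => by
            have h1 := hDz.2 h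
            have h2 := hbox z h1 hzg r0 (by rw [hcz]; rfl)
            rw [hcz] at h2
            have h3 : V l0 = V r0 := h2
            rw [hV₂]
            simp [h1, h3]) hact
          refine ⟨W', ?_, by rw [hcz]; exact j3, by rw [hcz]; exact j4⟩
          intro t ht
          rw [hcz] at ht
          rw [hcz] at hown
          by_cases ho : t = l0 ∨ t = r0
          · by_cases hdz : D z
            · obtain ⟨h1, h2⟩ := j2 (hDz.1 hdz)
              rcases ho with h | h
              · rw [h, h1]
              · rw [h, h2]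
                have h3 := i3 z hdz r0 (by rw [hcz]; rfl)
                rw [hcz] at h3
                exact h3
            · rw [j1 t (fun h => by
                have h3 := habsz t h.1 h.2
                have h4 := hoe z t ((by rw [hcz]; exact (hown t).2 ho))
                rw [hcz] at h4
                exact h4 h3) (fun h => hdz (hDz.2 h.1)), hV₂]
              simp [hdz]
          · rw [j1 t (fun h => ht ⟨h.1, h.2, fun h' => ho ((hown t).1 h')⟩)
              (fun h => ho h.2), hV₂]
            have : ¬ (D z ∧ (t = l0 ∨ t = r0)) := fun h => ho h.2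
            simp only [if_neg this]
      obtain ⟨A, hA⟩ : ∃ A : T → Prop, A = fun t => G.nd t = z ∧ pr t = false ∧
        ¬ (G.c z).own t := ⟨_, rfl⟩
      have hA' : ∀ t, A t ↔ G.nd t = z ∧ pr t = false ∧ ¬ (G.c z).own t := by intro t; rw [hA]
      have hA2 : ∀ t, A t → z < G.nd (G.lam t) := by
        intro t ht
        obtain ⟨h1, h2, h3⟩ := (hA' t).1 ht
        rcases hcase t h2 with ⟨-, -, h4⟩ | ⟨g, -, h4, h5, -⟩
        · rw [h1] at h4; exact absurd h4 h3
        · rw [hnd g _ h4, ← h1]; exact h5
      have hA3 : ∀ t, A t → ¬ A (G.lam t) := by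
        intro t ht h
        have h1 := hA2 t ht
        rw [((hA' _).1 h).1] at h1
        exact absurd h1 (lt_irrefl _)
      obtain ⟨W₁, hW⟩ : ∃ W₁ : T → B, W₁ = fun t => if A t then W' t else
        if A (G.lam t) then W' (G.lam t) else W t := ⟨_, rfl⟩
      have hW1 : ∀ t, A t → W₁ t = W' t := by intro t ht; rw [hW]; simp [ht]
      have hW2 : ∀ t, A (G.lam t) → W₁ t = W' (G.lam t) := by
        intro t ht
        have : ¬ A t := by
          intro h
          exact hA3 t h ht
        rw [hW]; simp [ht, this]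
      have hW3 : ∀ t, ¬ A t → ¬ A (G.lam t) → W₁ t = W t := by
        intro t h1 h2; rw [hW]; simp [h1, h2]
      have k2 : ∀ t, W₁ (G.lam t) = W₁ t := by
        intro t
        by_cases h1 : A t
        · rw [hW1 t h1, hW2 (G.lam t) (by rw [lam_lam]; exact h1), lam_lam]
        · by_cases h2 : A (G.lam t)
          · rw [hW1 _ h2, hW2 t h2]
          · rw [hW3 t h1 h2, hW3 (G.lam t) h2 (by rw [lam_lam]; exact h1)]
            exact i2 t
      refine ⟨W₁, ?_, k2, ?_, ?_⟩
      · intro t ht hbd
        rw [hW3 t (fun h => by rw [((hA' t).1 h).2.1] at ht; simp at ht) (fun h =>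
          hbd (hBd t ht ((hA' _).1 h).2.1))]
        exact i1 t ht hbd
      · intro g hg r hr
        obtain ⟨z', hz', p, hp, r', hr', hpe⟩ := hpar' g hg
        have hrr : r = r' := Option.mem_unique hr hr'
        subst hrr
        have hl1 : G.lam (G.c g).l ∈ ptk (G.c z').evs := mem_ptk.2 ⟨p, hp, by
          rcases hpe with h | h
          · left; rw [h]
          · right; rw [h]⟩
        have hr1 : G.lam r ∈ ptk (G.c z').evs := mem_ptk.2 ⟨p, hp, by
          rcases hpe with h | h
          · right; rw [h]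
          · left; rw [h]⟩
        have hpl : pr (G.lam (G.c g).l) = false := hAb g hg _ (Or.inl rfl)
        have hprr : pr (G.lam r) = false := hAb g hg _ (Or.inr hr)
        by_cases hzz : z' = z
        · subst hzz
          have a1 : A (G.lam (G.c g).l) := (hA' _).2 ⟨hevm _ _ hl1, hpl, fun h => hoe _ _ h hl1⟩
          have a2 : A (G.lam r) := (hA' _).2 ⟨hevm _ _ hr1, hprr, fun h => hoe _ _ h hr1⟩
          rw [hW2 _ a1, hW2 _ a2]
          rcases hpe with h | h
          · have h1 := j2 p hp (by rw [h]; exact hpl)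
            rw [h] at h1
            exact h1
          · have h1 := j2 p hp (by rw [h]; exact hprr)
            rw [h] at h1
            exact h1.symm
        · have b1 : ¬ A (G.lam (G.c g).l) := fun h => hzz (by
            rw [← hevm _ _ hl1]; exact ((hA' _).1 h).1)
          have b2 : ¬ A (G.lam r) := fun h => hzz (by
            rw [← hevm _ _ hr1]; exact ((hA' _).1 h).1)
          have b3 : ¬ A (G.c g).l := fun h => by
            obtain ⟨h1, -, h2⟩ := (hA' _).1 h
            rw [hnd g _ (Or.inl rfl)] at h1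
            rw [h1] at h2
            exact h2 (Or.inl rfl)
          have b4 : ¬ A r := fun h => by
            obtain ⟨h1, -, h2⟩ := (hA' _).1 h
            rw [hnd g _ (Or.inr hr)] at h1
            rw [← h1] at h2
            exact h2 (Or.inr hr)
          rw [hW3 _ b3 b1, hW3 _ b4 b2]
          exact i3 g hg r hr
      · intro f hf
        have hfin : ∀ q ∈ (G.c f).fin pr s, G.nd q.2 = f := fun q hq =>
          (G.mem f q.2).1 (((G.c f).fin_permX pr s).mem_iff.1 (List.mem_map_of_mem hq))
        by_cases hfz : f = z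
        · subst hfz
          refine j3.congr fun q hq => ?_
          have h1 := hfin q hq
          by_cases h2 : A q.2
          · exact (hW1 _ h2).symm
          · have h3 : ¬ A (G.lam q.2) := fun h => by
              have h4 := hA2 _ h
              rw [lam_lam, h1] at h4
              exact absurd h4 (lt_irrefl _)
            rw [hW3 _ h2 h3]
            refine j1 _ fun h => h2 ((hA' _).2 ⟨h1, h.2⟩)
        · refine (i4 f (by
            have : f.val ≠ k := fun h => hfz (Fin.ext h)
            omega)).congr fun q hq => ?_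
          have h1 := hfin q hq
          have h2 : ¬ A q.2 := fun h => hfz (by rw [← h1]; exact ((hA' _).1 h).1)
          have h3 : ¬ A (G.lam q.2) := fun h => by
            have h4 := hA2 _ h
            rw [lam_lam, h1] at h4
            have h5 : z.val < f.val := h4
            have h6 : z.val = k := rfl
            omega
          exact (hW3 _ h2 h3).symm
  obtain ⟨W, h1, h2, -, h4⟩ := main n le_rfl
  exact ⟨W, h1, h2, fun f => h4 f f.isLt⟩

end Sys

end all

end Pool.Agent.MP42.U
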