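import Pool.Agent.MP42.U.Node

/-!
# All nodes

Expansion from the root: the nodes which are not yet expanded have one value.
-/

set_option autoImplicit false

namespace Pool.Agent.MP42.U

variable {P U : Type*}

namespace Sig

variable (G : Sig P U)

/-- the tokens of a node -/
def tk (us : List U) : List P := us.flatMap G.toks

lemma W_eq (V : P → B) (st : U → Bool) (us : List U) :
    G.W V st us = (us.flatMap fun u => (G.toks u).map fun x => (u, x)).map
      fun q : U × P => (G.s (st q.1) q.2, V q.2) := by
  induction us with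
  | nil => rfl
  | cons u us ih =>
    rw [W_cons, List.flatMap_cons, List.map_append, ih]
    congr 1
    rw [List.map_map]
    rfl

lemma vs_W (V : P → B) (st : U → Bool) (us : List U) :
    vs (G.W V st us) = ((G.tk us).map V).sum := by
  induction us with
  | nil => rfl
  | cons u us ih =>
    rw [W_cons, vs_append, ih]
    simp only [tk, List.flatMap_cons, List.map_append, List.sum_append]
    congr 1
    simp only [vs, wd, List.map_map]
    rfl

/-- the height of a unit -/
def hu (st : U → Bool) (u : U) : ℤ := if G.od u then (if st u then 1 else -1) else 0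

lemma ht_wd {u : U} (h : G.Good u) (V : P → B) (st : U → Bool) :
    ht (G.wd V st u) = G.hu st u := by
  unfold wd hu
  rw [ht_map]
  cases hu : G.od u
  · rw [(h.even hu _).1]; rfl
  · cases hs : st u
    · rw [(h.odd hu).2]; rfl
    · rw [(h.odd hu).1]; rfl

lemma ht_W {us : List U} (h : ∀ u ∈ us, G.Good u) (V : P → B) (st : U → Bool) :
    ht (G.W V st us) = (us.map (G.hu st)).sum := by
  induction us with
  | nil => rfl
  | cons u us ih =>
    rw [W_cons, ht_append, ih (fun u hu => h u (List.mem_cons_of_mem _ hu)),
      G.ht_wd (h u List.mem_cons_self)]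
    simp

lemma sum_hu (st : U → Bool) (us : List U) :
    (us.map (G.hu st)).sum = ((us.filter G.od).map fun u => if st u then (1 : ℤ) else -1).sum := by
  induction us with
  | nil => rfl
  | cons u us ih =>
    rw [List.map_cons, List.sum_cons, ih]
    cases hu : G.od u
    · rw [List.filter_cons_of_neg (by simp [hu])]
      simp [Sig.hu, hu]
    · rw [List.filter_cons_of_pos hu]
      simp [Sig.hu, hu]

lemma alt_sum {st : U → Bool} {t : List U} (h : Alt st t) :
    (t.map fun u => if st u then (1 : ℤ) else -1).sum = 0 := by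
  induction h with
  | nil => rfl
  | @cons a b t h1 _ ih =>
    rw [List.map_cons, List.map_cons, List.sum_cons, List.sum_cons, ih, h1]
    cases st a <;> simp

/-- the pattern of the states of a node -/
structure Pat (us : List U) (st : U → Bool) : Prop where
  ex : ∃ (l r : U) (ms : List U), us.filter G.od = l :: (ms ++ [r]) ∧ st l = true ∧
    st r = true ∧ Alt st ms

lemma Pat.ht {us : List U} {st : U → Bool} (h : G.Pat us st) (hg : ∀ u ∈ us, G.Good u)
    (V : P → B) : ht (G.W V st us) = 2 := by
  obtain ⟨l, r, ms, h1, h2, h3, h4⟩ := h.ex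
  rw [G.ht_W hg, sum_hu, h1]
  simp only [List.map_cons, List.map_append, List.sum_cons, List.sum_append, List.map_nil,
    List.sum_nil, h2, h3, alt_sum h4]
  norm_num

/-- two solutions at a node -/
lemma NOK.mul {us : List U} {st : U → Bool} (hp : G.Pat us st) (hg : ∀ u ∈ us, G.Good u)
    {V V' : P → B} (h : G.NOK us st V) (h' : G.NOK us st V') :
    ((G.tk us).map fun x => V x * V' x).sum = 0 := by
  obtain ⟨S, h1, K, c, h2⟩ := h
  obtain ⟨R, h3, K', c', h4⟩ := h'
  rw [W_eq] at h1 h3
  have h5 := run_mul h1 h3
  have h6 : Run (G.W (fun x => V x * V' x) st us) (fun j => S j * R j) (fun j => S j * R j) := by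
    rw [W_eq]; exact h5
  have h7 := run_parity h6 (hp.ht G hg _) (K := max (max K K')
    (G.W (fun x => V x * V' x) st us).length) (le_max_right _ _)
  rw [vs_W] at h7
  rw [h7, h2 _ (by omega), h4 _ (by omega), h2 _ (by omega), h4 _ (by omega)]
  exact b_add_self _

lemma NOK.one {us : List U} {st : U → Bool} (hp : G.Pat us st) (hg : ∀ u ∈ us, G.Good u)
    {V : P → B} (h : G.NOK us st V) : ((G.tk us).map V).sum = 0 := by
  obtain ⟨S, h1, K, c, h2⟩ := h
  have h7 := run_parity h1 (hp.ht G hg _) (K := max K (G.W V st us).length) (le_max_right _ _)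
  rw [vs_W] at h7
  rw [h7, h2 _ (by omega), h2 _ (by omega)]
  exact b_add_self _

/-- the number of tokens of a node -/
lemma len_tk {us : List U} (hg : ∀ u ∈ us, G.Good u) :
    ((G.tk us).length : B) = ((us.filter G.od).length : B) := by
  induction us with
  | nil => rfl
  | cons u us ih =>
    simp only [tk, List.flatMap_cons, List.length_append, Nat.cast_add]
    rw [(hg u List.mem_cons_self).len]
    have h1 := ih (fun u hu => hg u (List.mem_cons_of_mem _ hu))
    simp only [tk] at h1
    rw [h1]
    cases hu : G.od u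
    · rw [List.filter_cons_of_neg (by simp [hu])]
      simp
    · rw [List.filter_cons_of_pos hu]
      simp
      ring

end Sig

/-- units with one value -/
lemma Sig.mono_sum (G : Sig P U) {u : U} (h : G.Good u) {V V' : P → B} {a a' : B}
    (hV : ∀ x ∈ G.toks u, V x = a) (hV' : ∀ x ∈ G.toks u, V' x = a') :
    ((G.toks u).map fun x => V x * V' x).sum = if G.od u then a * a' else 0 := by
  have h4 : ((G.toks u).map fun x => V x * V' x) = (G.toks u).map fun _ => a * a' := by
    refine List.map_congr_left ?_
    intro x hx
    rw [hV x hx, hV' x hx]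
  rw [h4, List.map_const', List.sum_replicate, nsmul_eq_mul, h.len]
  cases G.od u <;> simp

/-- a system of nodes -/
structure Tree (P U : Type*) (n : ℕ) extends Sig P U where
  /-- the lane involution -/
  lam : P → P
  /-- the node of a token -/
  nd : P → Fin n
  /-- the units of a node -/
  us : Fin n → List U
  lam_lam : ∀ x, lam (lam x) = x
  lam_ne : ∀ x, lam x ≠ x
  mem : ∀ f x, x ∈ (us f).flatMap toks ↔ nd x = f
  nodup : ∀ f, ((us f).flatMap toks).Nodup
  nodupU : ∀ f, (us f).Nodup
  good : ∀ f, ∀ u ∈ us f, toSig.Good u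
  ends : ∀ f, ∃ (l r : U) (ms : List U), (us f).filter od = l :: (ms ++ [r]) ∧ Even ms.length
  unitP : ∀ (f : Fin n) (V V' : P → B), (∀ x, V (lam x) = V x) → (∀ x, V' (lam x) = V' x) →
    (∀ x y, f < nd x → nd x = nd y → V x = V y) → (∀ x y, f < nd x → nd x = nd y → V' x = V' y) →
    ∀ u ∈ us f, ((toks u).map fun x => V x * V' x).sum =
      if od u then V (rep u) * V' (rep u) else 0
  unitW : ∀ (f : Fin n) (V : P → B), (∀ x, V (lam x) = V x) →
    (∀ x y, f < nd x → nd x = nd y → V x = V y) →
    ∀ u ∈ us f, ∀ (b : Bool) (S S' : ℕ → B), Run ((toks u).map fun x => (s b x, V x)) S S' →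
      ∀ x ∈ toks u, V x = V (rep u)
  conn : ∀ V : P → B, (∀ x, V (lam x) = V x) → (∀ x y, nd x = nd y → V x = V y) →
    ∀ x y, V x = V y

namespace Tree

variable {n : ℕ} (G : Tree P U n)

open Classical in
lemma sum_eq [Fintype P] (g : P → B) : ∑ x, g x = ∑ f, ((G.tk (G.us f)).map g).sum := by
  rw [← Finset.sum_fiberwise (s := Finset.univ) (g := G.nd)]
  refine Finset.sum_congr rfl ?_
  intro f _
  show _ = (((G.us f).flatMap G.toks).map g).sum
  rw [← List.sum_toFinset _ (G.nodup f)]
  refine Finset.sum_congr ?_ (fun _ _ => rfl)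
  ext x
  simp only [Finset.mem_filter, Finset.mem_univ, true_and, List.mem_toFinset]
  exact (G.mem f x).symm

lemma sum_lam [Fintype P] {g : P → B} (hg : ∀ x, g (G.lam x) = g x) : ∑ x, g x = 0 := by
  classical
  refine Finset.sum_involution (fun x _ => G.lam x) ?_ ?_ ?_ ?_
  · intro x _
    rw [hg]
    exact b_add_self _
  · intro x _ _
    exact G.lam_ne x
  · intro x _
    exact Finset.mem_univ _
  · intro x _
    exact G.lam_lam x

/-- **universality**: there are states such that all solutions are constant -/
theorem exists_states [Fintype P] : ∃ st : Fin n → U → Bool,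
    (∀ f, G.Pat (G.us f) (st f)) ∧
    ∀ V : P → B, (∀ x, V (G.lam x) = V x) → (∀ f, G.NOK (G.us f) (st f) V) →
      ∀ x y, V x = V y := by
  classical
  have key : ∀ k ≤ n, ∃ st : Fin n → U → Bool,
      (∀ f : Fin n, f.val < k → G.Pat (G.us f) (st f)) ∧
      ∀ V : P → B, (∀ x, V (G.lam x) = V x) →
        (∀ f : Fin n, f.val < k → G.NOK (G.us f) (st f) V) →
        (∀ x y, k ≤ (G.nd x).val → G.nd x = G.nd y → V x = V y) → ∀ x y, V x = V y := by
    intro k
    induction k with
    | zero =>
      intro _
      refine ⟨fun _ _ => true, fun f hf => absurd hf (by omega), ?_⟩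
      intro V h1 _ h3
      exact G.conn V h1 (fun x y h => h3 x y (Nat.zero_le _) h)
    | succ k ih =>
      intro hk
      obtain ⟨st, h1, h2⟩ := ih (by omega)
      set g : Fin n := ⟨k, by omega⟩ with hg
      obtain ⟨l, r, ms, he1, he2⟩ := G.ends g
      set F : Set (P → B) := {V | (∀ x, V (G.lam x) = V x) ∧
        (∀ f : Fin n, f.val < k → G.NOK (G.us f) (st f) V) ∧
        (∀ x y, k + 1 ≤ (G.nd x).val → G.nd x = G.nd y → V x = V y)} with hF
      have hiso : ∀ V ∈ F, ∀ V' ∈ F,
          (((G.us g).flatMap G.toks).map fun x => V x * V' x).sum = 0 := by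
        intro V hV V' hV'
        have h3 : ∑ x, V x * V' x = 0 := G.sum_lam (by
          intro x; rw [hV.1, hV'.1])
        rw [G.sum_eq, Finset.sum_eq_single g] at h3
        · exact h3
        · intro f _ hfg
          rcases lt_trichotomy f.val k with h4 | h4 | h4
          · exact Sig.NOK.mul G.toSig (h1 f h4) (G.good f) (hV.2.1 f h4) (hV'.2.1 f h4)
          · exact absurd (Fin.ext h4) hfg
          · have h5 : ∀ x ∈ G.tk (G.us f), G.nd x = f := fun x hx => (G.mem f x).1 hx
            rcases List.eq_nil_or_concat (G.tk (G.us f)) with h6 | ⟨L, x₀, h6⟩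
            · rw [h6]; rfl
            · have hx₀ : G.nd x₀ = f := h5 x₀ (by rw [h6]; simp)
              have h7 : ((G.tk (G.us f)).map fun x => V x * V' x) =
                  (G.tk (G.us f)).map fun _ => V x₀ * V' x₀ := by
                refine List.map_congr_left ?_
                intro x hx
                have h8 := h5 x hx
                rw [hV.2.2 x x₀ (by rw [h8]; omega) (by rw [h8, hx₀]),
                  hV'.2.2 x x₀ (by rw [h8]; omega) (by rw [h8, hx₀])]
              rw [h7, List.map_const', List.sum_replicate, nsmul_eq_mul, G.len_tk (G.good f)]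
              obtain ⟨l', r', ms', he1', he2'⟩ := G.ends f
              obtain ⟨m, hm⟩ := he2'
              rw [he1']
              simp only [List.length_cons, List.length_append, List.length_nil, hm]
              have h9 : (((m + m + (0 + 1)) + 1 : ℕ) : B) = 0 := by
                push_cast
                have := b_add_self (m : B)
                have h10 : (1 : B) + 1 = 0 := by decide
                linear_combination this + h10
              rw [h9, zero_mul]
        · intro h; exact absurd (Finset.mem_univ _) h
      have hpu : ∀ V ∈ F, ∀ V' ∈ F, ∀ u ∈ G.us g, ((G.toks u).map fun x => V x * V' x).sum =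
          if G.od u then V (G.rep u) * V' (G.rep u) else 0 := by
        intro V hV V' hV'
        exact G.unitP g V V' hV.1 hV'.1 (fun x y hx hxy => hV.2.2 x y hx hxy)
          (fun x y hx hxy => hV'.2.2 x y hx hxy)
      have hcu : ∀ V ∈ F, ∀ u ∈ G.us g, ∀ (b : Bool) (S S' : ℕ → B),
          Run ((G.toks u).map fun x => (G.s b x, V x)) S S' →
          ∀ x ∈ G.toks u, V x = V (G.rep u) := by
        intro V hV
        exact G.unitW g V hV.1 (fun x y hx hxy => hV.2.2 x y hx hxy)
      obtain ⟨st', hl, hr, halt, hst'⟩ := G.toSig.node (G.good g) (G.nodupU g) he1 he2 hiso hpu hcu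
      refine ⟨Function.update st g st', ?_, ?_⟩
      · intro f hf
        rcases eq_or_ne f g with rfl | hfg
        · rw [Function.update_self]
          exact ⟨⟨l, r, ms, he1, hl, hr, halt⟩⟩
        · rw [Function.update_of_ne hfg]
          refine h1 f ?_
          have : f.val ≠ k := fun h => hfg (Fin.ext h)
          omega
      · intro V hV1 hV2 hV3
        have hVF : V ∈ F := by
          refine ⟨hV1, ?_, hV3⟩
          intro f hf
          have h4 := hV2 f (by omega)
          rwa [Function.update_of_ne (by rintro rfl; exact absurd hf (lt_irrefl _))] at h4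
        have h5 := hst' V hVF (by
          have h6 := hV2 g (by simp [hg])
          rwa [Function.update_self] at h6)
        refine h2 V hV1 hVF.2.1 ?_
        intro x y hx hxy
        rcases Nat.eq_or_lt_of_le hx with h6 | h6
        · have hxg : G.nd x = g := Fin.ext h6.symm
          exact h5 x ((G.mem g x).2 hxg) y ((G.mem g y).2 (hxy ▸ hxg))
        · exact hV3 x y h6 hxy
  obtain ⟨st, h1, h2⟩ := key n le_rfl
  refine ⟨st, fun f => h1 f f.2, ?_⟩
  intro V hV1 hV2
  refine h2 V hV1 (fun f _ => hV2 f) ?_
  intro x y hx _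
  exact absurd (G.nd x).2 (by omega)

/-- the deep strands of the root need not be constant -/
theorem exists_states' [Fintype P] (r₀ : Fin n) : ∃ st : Fin n → U → Bool,
    (∀ f, G.Pat (G.us f) (st f)) ∧
    ∀ V : P → B, (∀ x, V (G.lam x) = V x) → (∀ f, f ≠ r₀ → G.NOK (G.us f) (st f) V) →
      (∃ S, Run (G.W V (st r₀) (G.us r₀)) S S) → ∀ x y, V x = V y := by
  obtain ⟨st, h1, h2⟩ := G.exists_states
  refine ⟨st, h1, ?_⟩
  intro V hV1 hV2 hV3
  refine h2 V hV1 ?_
  intro f
  rcases eq_or_ne f r₀ with rfl | hf
  · obtain ⟨S, hS⟩ := hV3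
    refine ⟨S, hS, (G.W V (st f) (G.us f)).length, S (G.W V (st f) (G.us f)).length, ?_⟩
    have h3 : ∑ x, V x = 0 := G.sum_lam hV1
    rw [G.sum_eq, Finset.sum_eq_single f] at h3
    · intro j hj
      induction j, hj using Nat.le_induction with
      | base => rfl
      | succ j hj ih =>
        have h4 := run_parity hS ((h1 f).ht G.toSig (G.good f) V) hj
        rw [G.vs_W, h3] at h4
        have key : ∀ x y : B, 0 = x + y → y = x := by decide
        rw [key _ _ h4, ih]
    · intro g _ hg
      exact Sig.NOK.one G.toSig (h1 g) (G.good g) (hV2 g hg)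
    · intro h; exact absurd (Finset.mem_univ _) h
  · exact hV2 f hf

end Tree

end Pool.Agent.MP42.U
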