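import Pool.Agent.MP42.U.Abs

/-!
# Expansion of the nodes in phases

Node `f` has the phase `ph f`.  Before its expansion it has the condition `M f V`, during its own
phase the condition `Np f (σ f) V`, later the final condition `Nf f σ V` (which may depend on the states
of all nodes of its phase).
-/

set_option autoImplicit false

namespace Pool.Agent.MP42.U

/-- **expansion of all nodes in phases** -/
theorem glob2 {P St : Type*} [Fintype P] [Nonempty St] {n : ℕ} (lam : P → P) (nd : P → Fin n)
    (lam_lam : ∀ x, lam (lam x) = x) (lam_ne : ∀ x, lam x ≠ x)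
    (ph : Fin n → ℕ) (hph : ∀ f g, f ≤ g → ph f ≤ ph g)
    (M : Fin n → (P → B) → Prop) (Np : Fin n → St → (P → B) → Prop)
    (Nf : Fin n → (Fin n → St) → (P → B) → Prop) (C : Fin n → St → Prop)
    (loc : ∀ f σ σ', (∀ g, ph g ≤ ph f → σ g = σ' g) → ∀ V, Nf f σ V → Nf f σ' V)
    (parM : ∀ f V V', M f V → M f V' → ∑ x with nd x = f, V x * V' x = 0)
    (parNp : ∀ f s V V', C f s → Np f s V → Np f s V' → ∑ x with nd x = f, V x * V' x = 0)
    (parNf : ∀ f σ V V', (∀ g, ph g ≤ ph f → C g (σ g)) → Nf f σ V → Nf f σ V' →
      ∑ x with nd x = f, V x * V' x = 0)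
    (step : ∀ (f : Fin n) (F : Set (P → B)),
      (∀ V ∈ F, (∀ x, V (lam x) = V x) ∧ ∀ g, f < g → M g V) →
      (∀ V ∈ F, ∀ V' ∈ F, ∑ x with nd x = f, V x * V' x = 0) →
      ∃ s, C f s ∧ ∀ V ∈ F, Np f s V → M f V)
    (switch : ∀ σ d V, (∀ g, ph g ≤ d → C g (σ g)) → (∀ x, V (lam x) = V x) →
      (∀ f, ph f = d → Nf f σ V) → (∀ g, d < ph g → M g V) → ∀ f, ph f = d → Np f (σ f) V)
    (conn : ∀ V : P → B, (∀ x, V (lam x) = V x) → (∀ f, M f V) → ∀ x y, V x = V y) :
    ∃ σ : Fin n → St, (∀ f, C f (σ f)) ∧
      ∀ V : P → B, (∀ x, V (lam x) = V x) → (∀ f, Nf f σ V) → ∀ x y, V x = V y := by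
  classical
  have key : ∀ d : ℕ, ∃ σ : Fin n → St, (∀ f, ph f < d → C f (σ f)) ∧
      ∀ V : P → B, (∀ x, V (lam x) = V x) → (∀ f, ph f < d → Nf f σ V) →
        (∀ f, d ≤ ph f → M f V) → ∀ x y, V x = V y := by
    intro d
    induction d with
    | zero =>
      refine ⟨fun _ => Classical.arbitrary St, fun f hf => absurd hf (by omega), ?_⟩
      intro V h1 _ h3
      exact conn V h1 (fun f => h3 f (Nat.zero_le _))
    | succ d ihd =>
      have inner : ∀ k ≤ n, ∃ σ : Fin n → St,
          (∀ f : Fin n, ph f < d ∨ (ph f = d ∧ f.val < k) → C f (σ f)) ∧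
          ∀ V : P → B, (∀ x, V (lam x) = V x) → (∀ f, ph f < d → Nf f σ V) →
            (∀ f : Fin n, ph f = d → f.val < k → Np f (σ f) V) →
            (∀ f : Fin n, d ≤ ph f → (ph f = d → k ≤ f.val) → M f V) → ∀ x y, V x = V y := by
        intro k
        induction k with
        | zero =>
          intro _
          obtain ⟨σ, h1, h2⟩ := ihd
          refine ⟨σ, ?_, ?_⟩
          · rintro f (hf | ⟨-, hf⟩)
            · exact h1 f hf
            · exact absurd hf (by omega)
          · intro V h3 h4 _ h6
            exact h2 V h3 h4 (fun f hf => h6 f hf (fun _ => Nat.zero_le _))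
        | succ k ih =>
          intro hk
          obtain ⟨σ, h1, h2⟩ := ih (by omega)
          set g : Fin n := ⟨k, by omega⟩ with hg
          by_cases hgd : ph g = d
          swap
          · refine ⟨σ, ?_, ?_⟩
            · rintro f (hf | ⟨hf, hf'⟩)
              · exact h1 f (Or.inl hf)
              · refine h1 f (Or.inr ⟨hf, ?_⟩)
                have : f.val ≠ k := fun h => hgd (by rw [← hf]; congr 1; exact (Fin.ext h).symm)
                omega
            · intro V h3 h4 h5 h6
              refine h2 V h3 h4 (fun f hf hf' => h5 f hf (by omega)) ?_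
              intro f hf hf'
              refine h6 f hf ?_
              intro hfd
              have : f.val ≠ k := fun h => hgd (by rw [← hfd]; congr 1; exact (Fin.ext h).symm)
              have := hf' hfd
              omega
          set F : Set (P → B) := {V | (∀ x, V (lam x) = V x) ∧ (∀ f, ph f < d → Nf f σ V) ∧
            (∀ f : Fin n, ph f = d → f.val < k → Np f (σ f) V) ∧
            (∀ f : Fin n, d ≤ ph f → (ph f = d → k + 1 ≤ f.val) → M f V)} with hF
          obtain ⟨τ, h3, h4⟩ := step g F (by
            intro V hV
            refine ⟨hV.1, fun f hf => hV.2.2.2 f ?_ ?_⟩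
            · rw [← hgd]; exact hph g f hf.le
            · intro _; exact Fin.lt_def.1 hf) (by
            intro V hV V' hV'
            have h3 : ∑ x, V x * V' x = 0 := by
              refine Finset.sum_involution (fun x _ => lam x) ?_ ?_ ?_ ?_
              · intro x _
                rw [hV.1, hV'.1]
                exact b_add_self _
              · intro x _ _
                exact lam_ne x
              · intro x _
                exact Finset.mem_univ _
              · intro x _
                exact lam_lam x
            rw [← Finset.sum_fiberwise (s := Finset.univ) (g := nd),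
              Finset.sum_eq_single g] at h3
            · exact h3
            · intro f _ hfg
              have hne : f.val ≠ k := fun h => hfg (Fin.ext h)
              rcases lt_trichotomy (ph f) d with h5 | h5 | h5
              · exact parNf f σ V V' (fun g' hg' => h1 g' (Or.inl (by omega)))
                  (hV.2.1 f h5) (hV'.2.1 f h5)
              · rcases lt_trichotomy f.val k with h4 | h4 | h4
                · exact parNp f (σ f) V V' (h1 f (Or.inr ⟨h5, h4⟩)) (hV.2.2.1 f h5 h4)
                    (hV'.2.2.1 f h5 h4)
                · exact absurd h4 hne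
                · exact parM f V V' (hV.2.2.2 f h5.ge (fun _ => h4))
                    (hV'.2.2.2 f h5.ge (fun _ => h4))
              · exact parM f V V' (hV.2.2.2 f h5.le (fun h => absurd h (by omega)))
                  (hV'.2.2.2 f h5.le (fun h => absurd h (by omega)))
            · intro h; exact absurd (Finset.mem_univ _) h)
          have hloc : ∀ f, ph f < d → ∀ V, Nf f (Function.update σ g τ) V → Nf f σ V := by
            intro f hf
            refine loc f _ _ ?_
            intro g' hg'
            refine Function.update_of_ne ?_ _ _
            rintro rfl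
            omega
          refine ⟨Function.update σ g τ, ?_, ?_⟩
          · intro f hf
            rcases eq_or_ne f g with rfl | hfg
            · rw [Function.update_self]; exact h3
            · rw [Function.update_of_ne hfg]
              refine h1 f ?_
              rcases hf with hf | ⟨hf, hf'⟩
              · exact Or.inl hf
              · refine Or.inr ⟨hf, ?_⟩
                have : f.val ≠ k := fun h => hfg (Fin.ext h)
                omega
          · intro V hV1 hV2 hV3 hV4
            have hVF : V ∈ F := by
              refine ⟨hV1, fun f hf => hloc f hf V (hV2 f hf), ?_, hV4⟩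
              intro f hf hf'
              have h5 := hV3 f hf (by omega)
              rwa [Function.update_of_ne (by rintro rfl; exact absurd hf' (lt_irrefl _))] at h5
            refine h2 V hV1 hVF.2.1 hVF.2.2.1 ?_
            intro f hf hf'
            by_cases hfg : f = g
            · rw [hfg]
              refine h4 V hVF ?_
              have h7 := hV3 g hgd (by simp [hg])
              rwa [Function.update_self] at h7
            · refine hV4 f hf ?_
              intro hfd
              have h8 := hf' hfd
              have : f.val ≠ k := fun h => hfg (Fin.ext h)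
              omega
      obtain ⟨σ, h1, h2⟩ := inner n le_rfl
      have hC : ∀ f, ph f < d + 1 → C f (σ f) := by
        intro f hf
        refine h1 f ?_
        rcases Nat.lt_succ_iff_lt_or_eq.1 hf with h | h
        · exact Or.inl h
        · exact Or.inr ⟨h, f.2⟩
      refine ⟨σ, hC, ?_⟩
      intro V hV1 hV2 hV3
      have h4 := switch σ d V (fun g hg => hC g (by omega)) hV1
        (fun f hf => hV2 f (by omega)) (fun g hg => hV3 g (by omega))
      refine h2 V hV1 (fun f hf => hV2 f (by omega)) (fun f hf _ => h4 f hf) ?_
      intro f hf hf'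
      refine hV3 f ?_
      by_contra h
      have h5 : ph f = d := by omega
      have h6 := hf' h5
      have := f.2
      omega
  obtain ⟨D, hD⟩ : ∃ D, ∀ f, ph f < D :=
    ⟨(Finset.univ.sup ph) + 1, fun f => Nat.lt_succ_of_le (Finset.le_sup (Finset.mem_univ f))⟩
  obtain ⟨σ, h1, h2⟩ := key D
  refine ⟨σ, fun f => h1 f (hD f), ?_⟩
  intro V hV1 hV2
  exact h2 V hV1 (fun f _ => hV2 f) (fun f hf => absurd (hD f) (by omega))

end Pool.Agent.MP42.U
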