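import Pool.Agent.MP42.U.Safe

/-!
# Project MP42: hooks, connectivity of the class graph

Circles `C` with a root `r` and parents `par`, `T z` = the positions of the subtree of `z`.
`J` = the ports which are cancelled (with a token read before them, on the same circle), `D : Safe J α`.
`v z` = the value of the class of the own tokens of `z` (left over items of `z`), `w j` = the value of the
class of the cancelled pair of the port `j` (= the value of the chord `j`).

Every circle `z ≠ r` hangs on its parent (`v z = v (par z)`) or on a cancelled pair of the parent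
(`v z = w j`, then `T z` is read before the port `j`), and the other end `y j` of a chord is left over at
its circle (`w j = v (yc j)`) or is the partner of a port `i` (`w j = w i`, `y j` is read before `i`).
Then all values are equal. No hypothesis is needed for the left over ports.
-/

namespace Pool.Agent.MP42.U

namespace Safe

variable {J α C β : Type*} [LinearOrder α] (D : Safe J α)

/-- going up until the next hook -/
theorem up_to_hook {r : C} {par : C → C} {dep : C → ℕ} (hdep : ∀ z, z ≠ r → dep (par z) < dep z)
    {T : C → Set α} (hT : ∀ z, z ≠ r → T z ⊆ T (par z)) {v : C → β} {w : J → β}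
    (hC : ∀ z, z ≠ r → v z = v (par z) ∨ ∃ j, v z = w j ∧ ∀ p ∈ T z, D.Before j p) :
    ∀ (n : ℕ) (z : C), dep z ≤ n → v z ≠ v r →
      ∃ j, v z = w j ∧ ∀ p ∈ T z, D.Before j p := by
  intro n
  induction n with
  | zero =>
    intro z hz hv
    have hzr : z ≠ r := fun h => hv (by rw [h])
    have := hdep z hzr
    omega
  | succ n ih =>
    intro z hz hv
    have hzr : z ≠ r := fun h => hv (by rw [h])
    rcases hC z hzr with h | h
    · obtain ⟨j, h1, h2⟩ := ih (par z) (by have := hdep z hzr; omega) (by rw [← h]; exact hv)
      exact ⟨j, by rw [h, h1], fun p hp => h2 p (hT z hzr hp)⟩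
    · exact h

/-- **all classes are connected** -/
theorem hook_const [Finite J] {r : C} {par : C → C} {dep : C → ℕ}
    (hdep : ∀ z, z ≠ r → dep (par z) < dep z)
    {T : C → Set α} (hT : ∀ z, z ≠ r → T z ⊆ T (par z)) {yc : J → C} (hy : ∀ j, D.y j ∈ T (yc j))
    {v : C → β} {w : J → β}
    (hC : ∀ z, z ≠ r → v z = v (par z) ∨ ∃ j, v z = w j ∧ ∀ p ∈ T z, D.Before j p)
    (hJ : ∀ j, w j = v (yc j) ∨ ∃ i, w j = w i ∧ D.Before i (D.y j)) :
    (∀ z, v z = v r) ∧ ∀ j, w j = v r := by
  classical
  have hup := fun z => D.up_to_hook hdep hT hC (dep z) z le_rfl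
  have hw : ∀ j, w j = v r := by
    by_contra hcon
    push Not at hcon
    obtain ⟨j₀, hj₀⟩ := hcon
    have hfin : {j : J | w j ≠ v r}.Finite := Set.toFinite _
    obtain ⟨j, hj, hj2⟩ := D.exists_sink hfin.toFinset ⟨j₀, by simpa using hj₀⟩
    have hj : w j ≠ v r := by simpa using hj
    rcases hJ j with h | ⟨i, h1, h2⟩
    · obtain ⟨i, h1, h2⟩ := hup (yc j) (by rw [← h]; exact hj)
      refine hj2 i ?_ (h2 _ (hy j))
      simp only [Set.Finite.mem_toFinset, Set.mem_ofPred_eq]
      rw [← h1, ← h]
      exact hj
    · refine hj2 i ?_ h2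
      simp only [Set.Finite.mem_toFinset, Set.mem_ofPred_eq]
      rw [← h1]
      exact hj
  refine ⟨fun z => ?_, hw⟩
  by_contra hz
  obtain ⟨j, h1, -⟩ := hup z hz
  exact hz (by rw [h1, hw j])

end Safe

end Pool.Agent.MP42.U
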