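import Pool.Agent.MP42.U.Wd

/-!
# Tokens and heights of the words
-/

set_option autoImplicit false

namespace Pool.Agent.MP42.U

variable {T : Type*}

/-! ## tokens -/

lemma rd_snd (m : List (Itm T)) : (m.flatMap Itm.rd).map Prod.snd = m.flatMap Itm.tks := by
  induction m with
  | nil => rfl
  | cons i m ih =>
    rw [List.flatMap_cons, List.map_append, ih, List.flatMap_cons]
    congr 1
    cases i with
    | re a b => rfl
    | la a b => rfl
    | br t x m => simp [Itm.rd, Itm.tks, up_snd]

lemma brs_snd (st : BU T → Bool) (m : List (Itm T)) :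
    (BU.word st (m.flatMap Itm.brp)).map Prod.snd = (m.flatMap Itm.brp).flatMap BU.tks := by
  refine BU.word_snd st ?_
  intro u hu
  have := isBr_brp u hu
  cases u <;> simp [isBr, BU.plain] at this ⊢

section
open Classical

lemma cnt_items (a : T) (m : List (Itm T)) : (m.flatMap Itm.tks).count a =
    ((m.flatMap Itm.brp).flatMap BU.tks).count a + (ptk (m.flatMap Itm.lap)).count a +
      (ptk (m.flatMap Itm.rep)).count a := by
  induction m with
  | nil => simp
  | cons i m ih =>
    rw [List.flatMap_cons, List.count_append, ih]
    cases i with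
    | re p q =>
      simp only [Itm.tks, Itm.brp, Itm.lap, Itm.rep, List.flatMap_cons, List.nil_append,
        List.cons_append, ptk_cons, List.count_cons, List.count_nil]
      omega
    | la p q =>
      simp only [Itm.tks, Itm.brp, Itm.lap, Itm.rep, List.flatMap_cons, List.nil_append,
        List.cons_append, ptk_cons, List.count_cons, List.count_nil]
      omega
    | br t x m' =>
      have e1 : (Itm.br t x m').tks = (BU.br t x m').tks := rfl
      have e2 : (Itm.br t x m' :: m).flatMap Itm.brp = BU.br t x m' :: m.flatMap Itm.brp := rfl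
      have e3 : (Itm.br t x m' :: m).flatMap Itm.lap = m.flatMap Itm.lap := rfl
      have e4 : (Itm.br t x m' :: m).flatMap Itm.rep = m.flatMap Itm.rep := rfl
      rw [e1, e2, e3, e4, List.flatMap_cons, List.count_append]
      omega

lemma cnt_pairs (a : T) (m : List (Itm T)) : (ptk (m.flatMap Itm.pairs)).count a =
    (ptk (m.flatMap Itm.lap)).count a + (ptk (m.flatMap Itm.rep)).count a := by
  induction m with
  | nil => simp
  | cons i m ih =>
    cases i with
    | re p q =>
      simp only [Itm.pairs, Itm.lap, Itm.rep, List.flatMap_cons, List.nil_append,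
        List.cons_append, ptk_cons, List.count_cons, ih]
      omega
    | la p q =>
      simp only [Itm.pairs, Itm.lap, Itm.rep, List.flatMap_cons, List.nil_append,
        List.cons_append, ptk_cons, List.count_cons, ih]
      omega
    | br t x m' =>
      simp only [Itm.pairs, Itm.lap, Itm.rep, List.flatMap_cons, List.nil_append, ih]

lemma cnt_dn (a : T) (m : List (T × T)) : ((dn m).map Prod.snd).count a = (ptk m).count a :=
  (dn_perm m).count_eq a

lemma gfin_perm (pr : T → Bool) (b : Bool) (g : List (Itm T) × T) :
    ((gfin pr b g).map Prod.snd).Perm (g.1.flatMap Itm.tks ++ [g.2]) := by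
  rw [List.perm_iff_count]
  intro a
  cases b
  · have e1 : gfin pr false g = BU.word (fun _ => true) (g.1.flatMap Itm.brp) ++
        (up ((hd1 pr g.1).flatMap Itm.lap) ++ ((false, g.2) ::
          (dn ((hd2 pr g.1).flatMap Itm.pairs) ++ dn ((hd1 pr g.1).flatMap Itm.rep)))) := rfl
    rw [e1, List.map_append, List.map_append, List.map_cons, List.map_append, brs_snd, up_snd,
      List.count_append, List.count_append, List.count_cons, List.count_append, List.count_append,
      cnt_dn, cnt_dn, cnt_items, cnt_pairs]
    have e2 : ∀ f : Itm T → List (T × T), (ptk (g.1.flatMap f)).count a =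
        (ptk ((hd1 pr g.1).flatMap f)).count a + (ptk ((hd2 pr g.1).flatMap f)).count a := by
      intro f
      rw [← List.count_append, ← ptk_append, ← List.flatMap_append, hd_append]
    rw [e2 Itm.lap, e2 Itm.rep]
    have e3 : [g.2].count a = if g.2 == a then 1 else 0 := by
      rw [List.count_cons, List.count_nil, zero_add]
    rw [e3]
    simp only
    omega
  · have e1 : gfin pr true g = g.1.flatMap Itm.rd ++ [(true, g.2)] := rfl
    rw [e1, List.map_append, rd_snd]
    rfl

end

/-- the tokens of the abstract word -/
lemma Circ.fin_perm (pr s : T → Bool) {c : Circ T} (hc : ∀ l r us, c = Circ.pl l r us →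
    ∀ u ∈ us, u.plain) (he : ∀ A, c = Circ.fu A → ∀ u ∈ A.e1, u.plain) :
    ((c.fin pr s).map Prod.snd).Perm c.tks := by
  cases c with
  | pl l r us =>
    have h1 : (Circ.pl l r us).fin pr s = BU.word (BU.sg s) us := rfl
    rw [h1, BU.word_snd _ (hc l r us rfl)]
    exact List.Perm.refl _
  | fu A =>
    have e1 : (Circ.fu A).fin pr s = (true, A.l) :: (true, A.x) :: (BU.word (BU.sg s) A.e1 ++
        ((true, A.X) :: ((A.gs.flatMap fun g => gfin pr (s g.2) g) ++ A.tl.flatMap Itm.rd))) := rfl
    have e2 : (Circ.fu A).tks = A.l :: A.x :: (A.e1.flatMap BU.tks ++ (A.X ::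
      ((A.gs.flatMap fun g => g.1.flatMap Itm.tks ++ [g.2]) ++ A.tl.flatMap Itm.tks))) := rfl
    rw [e1, e2, List.map_cons, List.map_cons, List.map_append, List.map_cons, List.map_append,
      BU.word_snd _ (he A rfl), rd_snd]
    refine List.Perm.cons _ (List.Perm.cons _ (List.Perm.append_left _ (List.Perm.cons _ ?_)))
    refine List.Perm.append_right _ ?_
    generalize A.gs = gs
    induction gs with
    | nil => exact List.Perm.refl _
    | cons g gs ih =>
      rw [List.flatMap_cons, List.flatMap_cons, List.map_append]
      exact (gfin_perm pr _ g).append ih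
  | gp l us t g r =>
    have e1 : (Circ.gp l us t g r).fin pr s = BU.word (BU.sg s) (us ++ (g.flatMap Itm.brp ++
      [BU.gv t (g.flatMap Itm.pairs), BU.fr r])) := rfl
    have e2 : (Circ.gp l us t g r).tks = us.flatMap BU.tks ++ (t :: (g.flatMap Itm.tks ++ [r])) :=
      rfl
    rw [e1, e2]
    refine (BU.word_perm _ _).trans ?_
    rw [List.flatMap_append]
    refine List.Perm.append_left _ ?_
    classical
    rw [List.perm_iff_count]
    intro a
    have e3 : [BU.gv t (g.flatMap Itm.pairs), BU.fr r].flatMap BU.tks =
        (t :: ptk (g.flatMap Itm.pairs)) ++ [r] := rfl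
    rw [List.flatMap_append, List.count_append, e3]
    simp only [List.count_append, List.count_cons, List.count_nil, cnt_pairs, cnt_items]
    omega

/-! ## heights -/

lemma hl_rd (m : List (Itm T)) : hl (m.flatMap Itm.rd) = 0 := by
  induction m with
  | nil => rfl
  | cons i m ih =>
    rw [List.flatMap_cons, hl_append, ih]
    cases i with
    | re a b => simp [Itm.rd]
    | la a b => simp [Itm.rd]
    | br t x m => simp [Itm.rd, hl_up]

lemma hl_brs (st : BU T → Bool) (m : List (Itm T)) :
    hl (BU.word st (m.flatMap Itm.brp)) = 0 := by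
  rw [BU.hl_word]
  have : (m.flatMap Itm.brp).filter BU.od = [] := by
    rw [List.filter_eq_nil_iff]
    intro u hu h
    have h1 := isBr_brp u hu
    have h2 := BU.od_iff.1 h
    cases u <;> simp [isBr, BU.kind] at h1 h2
  rw [this]; rfl

lemma hl_gfin (pr : T → Bool) (b : Bool) (g : List (Itm T) × T) :
    hl (gfin pr b g) = if b then 1 else -1 := by
  cases b
  · simp [gfin, hl_brs, hl_up, hl_dn]
  · simp [gfin, hl_rd]

/-- pairs of absent tokens do not contribute -/
def Abs2 (pr : T → Bool) (w : List (Bool × T)) : Prop :=
  hl (w.filter fun q => pr q.2) = hl w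

lemma hl_filter_up (pr : T → Bool) {m : List (T × T)} (h : ∀ p ∈ m, pr p.1 = pr p.2) :
    hl ((up m).filter fun q => pr q.2) = 0 := by
  induction m with
  | nil => rfl
  | cons p m ih =>
    have h1 := h p List.mem_cons_self
    have h2 := ih fun q hq => h q (List.mem_cons_of_mem _ hq)
    rw [up_cons]
    cases hp : pr p.1
    · rw [List.filter_cons_of_neg (by simp [hp]), List.filter_cons_of_neg (by simp [← h1, hp])]
      exact h2
    · have e1 : (((true, p.1) :: (false, p.2) :: up m).filter fun q => pr q.2) =
          (true, p.1) :: (false, p.2) :: (up m).filter fun q => pr q.2 := by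
        rw [List.filter_cons_of_pos (by simpa using hp),
          List.filter_cons_of_pos (by simpa [← h1] using hp)]
      rw [e1]
      simp [h2]

end Pool.Agent.MP42.U
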