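import Pool.Agent.MP42.U.Lk
import Pool.Agent.MP42.U.Bri3
import Pool.Agent.MP42.U.SMain

/-!
# Solutions of a closed level

`RD.exists_sl`: states of the circles; `Inst.exists_LSol`: the abstract solution of a level.
-/

set_option autoImplicit false
set_option linter.unusedSectionVars false

namespace Pool.Agent.MP42.U

open Pool.Agent.MP42.GZ

namespace RD

variable {C α : Type*}

/-- **states of the circles of a closed level** -/
theorem exists_sl (R : RD C α) [Fintype C] (hdr : R.dbl R.r) :
    ∃ (s pr : R.T → Bool) (D : C → Prop), Sl R s pr D ∧ ¬ D R.r ∧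
      ∀ V : R.T → B, (∀ t, t ≠ R.ol R.r → t ≠ R.lam (R.ol R.r) → pr t = true →
          pr (R.lam t) = true → V (R.lam t) = V t) →
        (∀ c, (R.cir c).isGp = true → D c → V (R.ol c) = V (R.or c)) →
        (∀ z, Cl V ((R.cir z).act pr s)) → ∃ k, ∀ t, pr t = true → V t = k := by
  classical
  obtain ⟨e, h, he, hF⟩ := R.exists_sys
  have : Finite R.T := finite_T R
  have : Fintype R.T := Fintype.ofFinite R.T
  obtain ⟨s, h1, h2, h3, h4⟩ := Sys.main hF (e R.r)
  obtain ⟨pr, hpr⟩ : ∃ pr, pr = (R.sys e h).pr fun _ => s := ⟨_, rfl⟩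
  rw [← hpr] at h2 h3 h4
  have hc : ∀ z, (R.sys e h).c (e z) = R.cir z := by
    intro z
    show R.cir (e.symm (e z)) = _
    rw [Equiv.symm_apply_apply]
  have hroot := R.root hdr
  have hE : ∀ z, R.E z s := by
    intro z
    have := (h1 (e z)).2
    rwa [Equiv.symm_apply_apply] at this
  have heo : ∀ z, EO R z s := by
    intro z
    obtain ⟨e1, e2, e3, e4⟩ := hE z
    refine ⟨e1, fun x hx => e2 x (by rw [hx]; rfl), fun q hq => e3 q (by rw [hq]; rfl), ?_⟩
    intro hd hp hx
    exact e4 hx hp _ (by rw [orr_some hd]; rfl)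
  have hr : ∀ z, (R.cir z).r = R.orr z := fun z => cir_r z
  have hDr : ∀ c, (R.sys e h).Dr (fun _ => s) (e c) → R.dbl c ∧ s (R.or c) = false := by
    intro c hD
    cases hD with
    | mk _ r hr' h' hb =>
      rw [hc, cir_r] at hr'
      by_cases hd : R.dbl c
      · rw [orr_some hd] at hr'
        rw [← Option.some.inj hr'] at h'
        exact ⟨hd, h'⟩
      · rw [orr_none hd] at hr'
        simp at hr'
  have hSl : Sl R s pr fun c => (R.sys e h).Dr (fun _ => s) (e c) := by
    refine ⟨?_, ?_, heo, ?_, ?_, fun c hD => (hDr c hD).1, fun c hD => (hDr c hD).2, ?_⟩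
    · intro z
      have := (h1 (e z)).1
      rwa [hc] at this
    · intro z
      have := hF.pc (fun f => (h1 f).2) (e z)
      rw [← hpr, hc] at this
      exact this
    · intro z
      have := (h3 (e z)).2
      rwa [hc] at this
    · intro z
      have := (h3 (e z)).1
      rwa [hc] at this
    · intro t
      rw [hpr, Sys.pr_false]
      constructor
      · rintro ⟨g, hD, r, hr', h5⟩
        obtain ⟨c, rfl⟩ := e.surjective g
        obtain ⟨hd, -⟩ := hDr c hD
        rw [hc] at hr' h5
        rw [cir_r, orr_some hd] at hr'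
        rw [← Option.some.inj hr', cir_l] at h5
        exact ⟨c, hD, h5⟩
      · rintro ⟨c, hD, h5⟩
        obtain ⟨hd, -⟩ := hDr c hD
        refine ⟨e c, hD, R.or c, ?_, ?_⟩
        · rw [hc, cir_r, orr_some hd]
        · rw [hc, cir_l]
          exact h5
  have hnr : ¬ (R.sys e h).Dr (fun _ => s) (e R.r) := hSl.D_r hroot.1 hroot.2
  refine ⟨s, pr, fun c => (R.sys e h).Dr (fun _ => s) (e c), hSl, hnr, ?_⟩
  intro V hV hgp hcl
  have hgp' : ∀ f, ((R.sys e h).c f).isGp = true → (R.sys e h).Dr (fun _ => s) f → ∀ r,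
      ((R.sys e h).c f).r = some r → V ((R.sys e h).c f).l = V r := by
    intro f hg hD r hr'
    obtain ⟨c, rfl⟩ := e.surjective f
    obtain ⟨hd, -⟩ := hDr c hD
    rw [hc] at hg hr' ⊢
    rw [cir_r, orr_some hd] at hr'
    rw [← Option.some.inj hr', cir_l]
    exact hgp c hg hD
  have hcl' : ∀ f, Cl V (((R.sys e h).c f).act ((R.sys e h).pr fun _ => s) s) := by
    intro f
    obtain ⟨c, rfl⟩ := e.surjective f
    rw [← hpr, hc]
    exact hcl c
  have hvl : R.Val (Tok.ow R.r true : Tok C α) := fun h => by simp at h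
  have hex := R.ex_dbl.1 hdr
  have hlam : R.lam (R.ol R.r) = R.or R.r := by
    apply Subtype.ext
    have h4 : (R.lam (R.ol R.r)).1 = R.lamr (R.ol R.r).1 := rfl
    rw [h4, raw_ol, lamr_ow, if_pos rfl, R.exk_none hex, raw_or hdr]
    rfl
  have ha : pr (R.ol R.r) = true := hSl.pr_ow_true hnr hvl (fun h => hnr h.1)
  have ha' : pr (R.lam (R.ol R.r)) = true := by
    rw [hlam]
    exact hSl.pr_ow_true hnr (k := false) (fun _ => hdr) (fun h => hnr h.1)
  have hlast : V (R.lam (R.ol R.r)) = V (R.ol R.r) := by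
    refine hF.last_pair h1 (V := V) (a := R.ol R.r) ?_ hgp' hcl' ?_ ?_
    · intro t t1 t2 t3 t4
      rw [← hpr] at t3 t4
      exact hV t t1 t2 t3 t4
    · rw [← hpr]; exact ha
    · rw [← hpr]; exact ha'
  obtain ⟨k, hk, -⟩ := h4 V ⟨by
      intro t t3 t4
      rw [← hpr] at t3 t4
      by_cases t1 : t = R.ol R.r
      · rw [t1]; exact hlast
      by_cases t2 : t = R.lam (R.ol R.r)
      · rw [t2]
        show V (R.lam (R.lam (R.ol R.r))) = _
        have h5 : R.lam (R.lam (R.ol R.r)) = R.ol R.r := (R.sys e h).lam_lam _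
        rw [h5]
        exact hlast.symm
      exact hV t t1 t2 t3 t4, hgp', fun f _ => hcl' f, by
      obtain ⟨S, hS, -⟩ := hcl' (e R.r)
      exact ⟨S, hS⟩⟩
  exact ⟨k, hk⟩

end RD

namespace Inst

variable {C J α : Type*} [LinearOrder α] [Fintype C] [Fintype J] [DecidableEq α]

/-- **the solution of a closed level** -/
theorem exists_LSol (G : Inst C J α) (grp : C → Prop) (hgx : ∀ z, grp z → G.xN z = none)
    (hrg : ∀ z, G.real z → ¬ grp z)
    (hrc : ∀ z, z ≠ G.r → G.real z → ¬ (G.cls z ↔ G.cls (G.par z))) :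
    ∃ S : LSol G grp, ∀ z u v, wd grp (swp G) S.lk S.lt S.R.rd z = u ++ v →
      -5 ≤ hl u ∧ hl u ≤ 5 := by
  classical
  obtain ⟨R, hp⟩ := G.exists_reading_root
  obtain ⟨P, hP⟩ : ∃ P, P = R.toRD grp hp := ⟨_, rfl⟩
  have hdr : P.dbl P.r := by
    rw [hP]
    exact (R.toRD grp hp).ex_dbl.2 rfl
  obtain ⟨s, pr, D, hS, hD, hV⟩ := P.exists_sl hdr
  have hrd : ∀ z, P.rd z = R.rd z := by
    intro z
    rw [hP]
    exact Reading.lst_eq z
  have hrd' : P.rd = R.rd := funext hrd
  have hr : P.r = G.r := by rw [hP]; rfl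
  have hgrp : P.grp = grp := by rw [hP]; rfl
  have htw : ∀ z, P.tw z = decide (G.cls z ↔ G.cls (G.par z)) := by
    intro z
    rw [hP]
    rfl
  have hreal : P.real = G.real := by rw [hP]; rfl
  have hxN : P.xN = G.xN := by rw [hP]; rfl
  have hL : P.L = R.L := by rw [hP]; rfl
  have hex : P.ex = none := by rw [hP]; rfl
  have hmate : P.mate = R.mate := by rw [hP]; rfl
  have hPo : P.Po = Po R.x := by rw [hP]; rfl
  have hsw : ∀ z, swp G z ↔ z ≠ P.r ∧ P.tw z = true := by
    intro z
    rw [hr, htw, decide_eq_true_iff]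
    rfl
  have hact : ∀ z, ∃ u v, ((P.cir z).act pr s).map (fun q => (q.1, P.phi s pr D q.2.1)) =
      u ++ v ∧ wd grp (swp G) (P.lk s pr D) (fun p => P.le s pr (Tok.pt p)) R.rd z = v ++ u ∧
      v.length ≤ 1 := by
    intro z
    have h1 := hS.act_wd hD hdr (by rw [hgrp, hxN]; exact hgx) (by
      intro z hz hre
      rw [hr] at hz
      rw [hreal] at hre
      rw [htw, decide_eq_false_iff_not]
      exact hrc z hz hre) hsw z
    rw [hgrp, hrd'] at h1
    exact h1
  obtain ⟨φ, hφ⟩ : ∃ φ, φ = P.phi s pr D := ⟨_, rfl⟩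
  refine ⟨⟨R, P.lk s pr D, fun p => P.le s pr (Tok.pt p), ?_, ?_, ?_, ?_, ?_, ?_⟩, ?_⟩
  · intro j
    refine hS.port hD ?_ ?_
    · rw [hL]
      exact Reading.mem_L.2 (Or.inr (Or.inl ⟨j, rfl⟩))
    · rw [hPo]
      exact ⟨j, rfl⟩
  · intro z p hp'
    refine hS.portx hD (z := z) ?_
    rw [hxN]
    exact hp'
  · intro c hc
    obtain ⟨h1, h2, -⟩ := hS.nn_real hD hc
    rw [hr] at h1
    rw [hreal] at h2
    exact ⟨h1, h2, hrg c h2⟩
  · rw [← hr, RD.lk_def, if_pos rfl]
  · intro z
    obtain ⟨u, v, h1, h2, -⟩ := hact z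
    have h3 : hl (((P.cir z).act pr s).map fun q => (q.1, P.phi s pr D q.2.1)) = 2 := by
      have h4 : hl (((P.cir z).act pr s).map fun q => (q.1, P.phi s pr D q.2.1)) =
          hl ((P.cir z).act pr s) := by
        unfold hl
        rw [List.map_map]
        rfl
      rw [h4]
      exact (hS.ph z).2
    rw [h1, hl_append] at h3
    rw [h2, hl_append, add_comm]
    exact h3
  · intro V hv1 hv2 hv3 hv4
    obtain ⟨k, hk⟩ := hV (fun t => V (P.phi s pr D t.1)) (by
        intro t t1 t2 t3 t4
        show V (P.phi s pr D (P.lamr t.1)) = V (P.phi s pr D t.1)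
        obtain ⟨t, ht⟩ := t
        cases t with
        | pt q =>
          have hq : q ∈ R.L := by rw [← hL]; exact ht
          have h5 : P.lamr (Tok.pt q : Tok C α) = Tok.pt (R.mate q) := by
            rw [RD.lamr_pt, hex, if_neg (by simp), hmate]
          show V (P.phi s pr D (P.lamr (Tok.pt q))) = V (Sum.inl q)
          rw [h5]
          show V (Sum.inl (R.mate q)) = V (Sum.inl q)
          rcases Reading.mem_L.1 hq with ⟨j, rfl⟩ | ⟨j, rfl⟩ | h6
          · rw [Reading.mate_y]
            exact (hv1 j).symm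
          · rw [Reading.mate_x]
            exact hv1 j
          · rw [Reading.mate_L0 h6]
            exact hv2 q h6
        | ow c k =>
          by_cases hc : c = P.r
          · exfalso
            subst hc
            cases k with
            | true =>
              exact t1 (Subtype.ext (by rw [RD.raw_ol]))
            | false =>
              refine t2 (Subtype.ext ?_)
              have h4 : (P.lam (P.ol P.r)).1 = P.lamr (P.ol P.r).1 := rfl
              rw [h4, RD.raw_ol, RD.lamr_ow, if_pos rfl, P.exk_none hex]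
              rfl
          · rw [RD.phi_lam_ow ht hc (by rw [hex]; simp)]
        | up c k => rw [RD.phi_up ht]) (by
        intro c hc hDc
        have hcr : c ≠ P.r := fun h => hD (h ▸ hDc)
        have hd := hS.dbl c hDc
        have hg : grp c := by
          rcases P.cir_cases c with ⟨x, q, hx, hq, h⟩ | ⟨h0, h⟩ | ⟨gs, g, h0, h1, h2, h⟩
          · rw [h] at hc; simp [Circ.isGp] at hc
          · rw [h] at hc; simp [Circ.isGp] at hc
          · rw [← hgrp]; exact h0.1
        have hlk : P.lk s pr D c = LS.drop := by rw [RD.lk_def, if_neg hcr, if_pos hDc]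
        have h5 := hv3 c hg hlk
        show V (P.phi s pr D (P.ol c).1) = V (P.phi s pr D (P.or c).1)
        rw [RD.raw_ol, RD.raw_or hd, RD.phi_ow, RD.phi_ow, hlk, if_neg hcr, if_pos hd,
          if_neg hcr, if_pos hd]
        cases P.tw c with
        | true => exact h5.symm
        | false => exact h5) (by
        intro z
        obtain ⟨u, v, h1, h2, -⟩ := hact z
        have h3 := hv4 z
        rw [h2] at h3
        have h4 := h3.rot
        rw [← h1] at h4
        obtain ⟨S, h5, h6⟩ := h4
        refine ⟨S, ?_, h6⟩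
        unfold lv at h5 ⊢
        rw [List.map_map] at h5
        exact h5)
    refine ⟨k, ?_⟩
    intro z q hq
    obtain ⟨u, v, h1, h2, -⟩ := hact z
    rw [h2] at hq
    have hq' : q ∈ u ++ v := by
      rw [List.mem_append] at hq ⊢
      exact hq.symm
    rw [← h1] at hq'
    obtain ⟨q', hq2, rfl⟩ := List.mem_map.1 hq'
    refine hk q'.2 ?_
    have h7 : q'.2 ∈ ((P.cir z).act pr s).map Prod.snd := List.mem_map.2 ⟨q', hq2, rfl⟩
    rw [hS.tok] at h7
    exact (List.mem_filter.1 h7).2
  · intro z w₁ w₂ hw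
    have hw : wd grp (swp G) (P.lk s pr D) (fun p => P.le s pr (Tok.pt p)) R.rd z =
      w₁ ++ w₂ := hw
    obtain ⟨u, v, h1, h2, h3⟩ := hact z
    have hPar : Par 4 4 (u ++ v) := by
      rw [← h1]
      intro a b hab
      obtain ⟨a', b', h4, h5, h6⟩ := List.map_eq_append_iff.1 hab
      have h7 := (hS.ph z).1 a' b' h4
      rw [← h5]
      have h8 : hl (a'.map fun q => (q.1, P.phi s pr D q.2.1)) = hl a' := by
        unfold hl
        rw [List.map_map]
        rfl
      rw [h8]
      exact h7
    have hv : -1 ≤ hl v ∧ hl v ≤ 1 := by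
      match v, h3 with
      | [], _ => simp
      | [q], _ =>
        rcases q with ⟨b, q⟩
        cases b <;> simp [hl]
      | _ :: _ :: _, h3 => simp at h3
    rw [h2] at hw
    rcases List.append_eq_append_iff.1 hw with ⟨q, h4, h5⟩ | ⟨q, h4, h5⟩
    · have h6 := hPar q (w₂ ++ v) (by rw [h5, List.append_assoc])
      rw [h4, hl_append]
      constructor <;> omega
    · have h6 : w₁.length ≤ 1 := by
        have h7 := congrArg List.length h4
        rw [List.length_append] at h7
        omega
      match w₁, h6 with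
      | [], _ => simp
      | [a], _ =>
        rcases a with ⟨b, a⟩
        cases b <;> simp [hl]
      | _ :: _ :: _, h6 => simp at h6

end Inst

end Pool.Agent.MP42.U
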