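import Pool.Agent.MP42.U.P1

/-!
# Node data and the global theorem

`Nd T`: the data of a circle on the level of tokens (`l`, `r` own tokens, `w` the tokens in between,
in reading order).  `Nd.C d s`: the letters `s` are admissible (`d` = own link dropped), `Nd.N d s V`:
closed walk.  `Nd.Ok`: the node lemma.  `Nd.glob`: the global theorem.
-/

set_option autoImplicit false

namespace Pool.Agent.MP42.U

variable {T : Type*}

/-- the data of a circle -/
structure Nd (T : Type*) where
  /-- own token -/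
  l : T
  /-- second own token, if the own link is double -/
  r : Option T
  /-- the tokens of the items -/
  w : List T
  /-- the own link must not be dropped -/
  fix : Prop

/-- the lettered word of a list of tokens -/
def lw (s : T → Bool) (ts : List T) : List (Bool × T) := ts.map fun t => (s t, t)

lemma lw_congr {s s' : T → Bool} {ts : List T} (h : ∀ t ∈ ts, s t = s' t) : lw s ts = lw s' ts :=
  List.map_congr_left fun t ht => by rw [h t ht]

lemma lw_snd (s : T → Bool) (ts : List T) : (lw s ts).map Prod.snd = ts := by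
  induction ts with
  | nil => rfl
  | cons t ts ih =>
    have h : lw s (t :: ts) = (s t, t) :: lw s ts := rfl
    rw [h, List.map_cons, ih]

lemma exists_lw {w : List (Bool × T)} (hn : (w.map Prod.snd).Nodup) :
    ∃ s : T → Bool, w = lw s (w.map Prod.snd) := by
  obtain ⟨s, hs⟩ := exists_fun (A := Bool) (l := w.map Prod.snd) (bs := w.map Prod.fst) hn
    (by simp) ⟨true⟩
  refine ⟨s, ?_⟩
  clear hn
  induction w with
  | nil => rfl
  | cons q w ih =>
    simp only [List.map_cons, List.cons.injEq] at hs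
    rw [List.map_cons]
    unfold lw
    rw [List.map_cons, hs.1]
    congr 1
    exact ih hs.2

namespace Nd

variable (A : Nd T)

/-- all tokens in reading order -/
def tk : List T := A.l :: (A.w ++ A.r.toList)

/-- the tokens which are present -/
def word (d : Bool) : List T := if d then A.w else A.tk

lemma mem_word {d : Bool} {t : T} (h : t ∈ A.word d) : t ∈ A.tk := by
  cases d
  · exact h
  · exact List.mem_cons_of_mem _ (List.mem_append_left _ h)

/-- admissible letters -/
structure C (ok : Bool × T → Prop) (K : ℤ) (d : Bool) (s : T → Bool) : Prop where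
  drop : d = true → ¬ A.fix ∧ A.r ≠ none
  ok : ∀ t ∈ A.word d, ok (s t, t)
  tot : hl (lw s (A.word d)) = 2
  par : Par K 4 (lw s (A.word d))

/-- closed walk -/
def N (d : Bool) (s : T → Bool) (V : T → B) : Prop :=
  (d = true → ∀ r' ∈ A.r, V A.l = V r') ∧ Cl V (lw s (A.word d))

/-- the node lemma -/
structure Ok (ok : Bool × T → Prop) (K : ℤ) (H M : (T → B) → Prop) : Prop where
  parM : ∀ V V', M V → M V' → sp V V' A.tk = 0
  step : ∀ F : Set (T → B), (∀ V ∈ F, H V) → (∀ V ∈ F, ∀ V' ∈ F, sp V V' A.tk = 0) →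
    Goal ok F A.l A.r A.w A.fix K M

variable {A}

lemma parN {ok : Bool × T → Prop} {K : ℤ} {d : Bool} {s : T → Bool} {V V' : T → B}
    (hC : A.C ok K d s) (h : A.N d s V) (h' : A.N d s V') : sp V V' A.tk = 0 := by
  have h1 := Cl.par hC.tot h.2 h'.2
  have h0 : (lw s (A.word d)).map Prod.snd = A.word d := lw_snd _ _
  rw [h0] at h1
  cases d
  · exact h1
  · obtain ⟨-, hr⟩ := hC.drop rfl
    obtain ⟨r, hr⟩ := Option.ne_none_iff_exists'.1 hr
    have h2 := h.1 rfl r hr
    have h3 := h'.1 rfl r hr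
    have h4 : A.word true = A.w := rfl
    rw [h4] at h1
    have h5 : A.tk = A.l :: (A.w ++ [r]) := by rw [tk, hr]; rfl
    rw [h5, sp_cons, sp_append, h1, sp_cons, sp_nil, h2, h3, zero_add, add_zero]
    exact b_add_self _

lemma C.congr {ok : Bool × T → Prop} {K : ℤ} {d : Bool} {s s' : T → Bool}
    (h : ∀ t ∈ A.tk, s t = s' t) (hC : A.C ok K d s) : A.C ok K d s' := by
  have h1 : lw s (A.word d) = lw s' (A.word d) := lw_congr fun t ht => h t (A.mem_word ht)
  refine ⟨hC.drop, ?_, by rw [← h1]; exact hC.tot, by rw [← h1]; exact hC.par⟩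
  intro t ht
  rw [← h t (A.mem_word ht)]
  exact hC.ok t ht

lemma N.congr {d : Bool} {s s' : T → Bool} {V : T → B} (h : ∀ t ∈ A.tk, s t = s' t)
    (hN : A.N d s V) : A.N d s' V := by
  have h1 : lw s (A.word d) = lw s' (A.word d) := lw_congr fun t ht => h t (A.mem_word ht)
  exact ⟨hN.1, by rw [← h1]; exact hN.2⟩

/-- from lettered words to letters -/
lemma Ok.states {ok : Bool × T → Prop} {K : ℤ} {H M : (T → B) → Prop} (h : A.Ok ok K H M)
    (hn : A.tk.Nodup) {F : Set (T → B)} (h1 : ∀ V ∈ F, H V)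
    (h2 : ∀ V ∈ F, ∀ V' ∈ F, sp V V' A.tk = 0) :
    ∃ d s, A.C ok K d s ∧ ∀ V ∈ F, A.N d s V → M V := by
  obtain ⟨d, w, e1, e2, e3, e4, e5, e6⟩ := h.step F h1 h2
  have e7 : w.map Prod.snd = A.word d := e2
  have hnw : (A.word d).Nodup := by
    cases d
    · exact hn
    · have := (List.nodup_cons.1 hn).2
      exact (List.nodup_append.1 this).1
  obtain ⟨s, hs⟩ := exists_lw (w := w) (by rw [e7]; exact hnw)
  rw [e7] at hs
  refine ⟨d, s, ⟨e1, ?_, by rw [← hs]; exact e4, by rw [← hs]; exact e5⟩, ?_⟩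
  · intro t ht
    refine e3 _ ?_
    rw [hs]
    exact List.mem_map.2 ⟨t, ht, rfl⟩
  · rintro V hV ⟨h3, h4⟩
    rw [← hs] at h4
    exact e6 V hV h3 h4

/-- **the global theorem for node data** -/
theorem glob {n : ℕ} [Fintype T] {ok : Bool × T → Prop} {K : ℤ} (A : Fin n → Nd T) (lam : T → T)
    (lam_lam : ∀ x, lam (lam x) = x) (lam_ne : ∀ x, lam x ≠ x) (nd : T → Fin n)
    (htk : ∀ f, (A f).tk.Nodup) (hmem : ∀ f x, x ∈ (A f).tk ↔ nd x = f)
    (H M : Fin n → (T → B) → Prop) (hOk : ∀ f, (A f).Ok ok K (H f) (M f))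
    (hH : ∀ f V, (∀ x, V (lam x) = V x) → (∀ g, f < g → M g V) → H f V)
    (conn : ∀ V : T → B, (∀ x, V (lam x) = V x) → (∀ f, M f V) → ∀ x y, V x = V y) :
    ∃ (dr : Fin n → Bool) (s : T → Bool), (∀ f, (A f).C ok K (dr f) s) ∧
      ∀ V : T → B, (∀ x, V (lam x) = V x) → (∀ f, (A f).N (dr f) s V) → ∀ x y, V x = V y := by
  classical
  have hsum : ∀ (f : Fin n) (V V' : T → B), sp V V' (A f).tk = ∑ x with nd x = f, V x * V' x := by
    intro f V V'
    unfold sp
    rw [← List.sum_toFinset (fun x => V x * V' x) (htk f)]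
    refine Finset.sum_congr ?_ fun _ _ => rfl
    ext x
    simp [hmem]
  obtain ⟨σ, h1, h2⟩ := U.glob (St := Bool × (T → Bool)) lam nd lam_lam lam_ne M
    (fun f σ V => (A f).N σ.1 σ.2 V) (fun f σ => (A f).C ok K σ.1 σ.2) (by
      intro f V V' h h'
      rw [← hsum f]
      exact (hOk f).parM V V' h h') (by
      intro f σ V V' hC h h'
      rw [← hsum f]
      exact parN hC h h') (by
      intro f F h1 h2
      obtain ⟨d, s, h3, h4⟩ := (hOk f).states (htk f) (F := F)
        (fun V hV => hH f V (h1 V hV).1 (h1 V hV).2) (by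
          intro V hV V' hV'
          rw [hsum f]
          exact h2 V hV V' hV')
      exact ⟨(d, s), h3, h4⟩) conn
  have hs : ∀ f, ∀ t ∈ (A f).tk, (σ f).2 t = (σ (nd t)).2 t := by
    intro f t ht
    rw [(hmem f t).1 ht]
  refine ⟨fun f => (σ f).1, fun t => (σ (nd t)).2 t, ?_, ?_⟩
  · intro f
    exact (h1 f).congr (hs f)
  · intro V h3 h4
    refine h2 V h3 ?_
    intro f
    exact (h4 f).congr (fun t ht => (hs f t ht).symm)

/-- the node with at most one uncancelled port -/
lemma ok_p1 {ok : Bool × T → Prop} {K : ℤ} {l : T} {r : Option T} {it : List (SU T ok)}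
    {fix : Prop} {x : Option (SU T ok)} {fs : List (SU T ok)} (hl : ok (true, l))
    (hr : ∀ r' ∈ r, ok (true, r')) (hn : (l :: (it.flatMap SU.tks ++ r.toList)).Nodup)
    (hx : it.filter SU.od = x.toList ++ fs) (hfree : ∀ u ∈ it, u ∈ x ∨ u.free)
    (he : Even (1 + r.toList.length + (it.filter SU.od).length)) (hK : 1 ≤ K)
    (hd : ∀ u ∈ it, u.dp ≤ K) :
    Nd.Ok ⟨l, r, it.flatMap SU.tks, fix⟩ ok K
      (fun V => (∀ u ∈ it, u.hyp V) ∧ (fix → x ≠ none → ∀ r' ∈ r, V l = V r'))
      (OneM l r it) where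
  parM := fun V V' h h' => OneM.par he h h'
  step := by
    intro F h1 h2
    exact goal_p1 hl hr hn hx hfree he hK hd (fun V hV => (h1 V hV).1)
      (fun hf hx r' hr' V hV => (h1 V hV).2 hf hx r' hr') h2

end Nd

end Pool.Agent.MP42.U
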