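import Pool.Agent.MP42.U.BN

/-!
# The root node

The root circle is read in reverse order: `L us z X R`: `L`, `R` are the two lanes on the link to the
first circle, both pops, never dropped, with the same value (from the child); `X` is a port which was
the first item in the original reading order: a forced push directly before `R`.
(The root without port is `node_a`.)
-/

set_option autoImplicit false

namespace Pool.Agent.MP42.U

variable {T : Type*}

/-- an adjacent push and pop at the end of a closed walk -/
lemma Cl.cut {V : T → B} {w : List (Bool × T)} {x r : T}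
    (h : Cl V (w ++ [(false, x), (true, r)])) : Cl V w ∧ V x = V r := by
  obtain ⟨S, h1, h2⟩ := h
  rw [lv_append, run_append] at h1
  obtain ⟨S₁, h3, h4⟩ := h1
  have h5 : V r = V x ∧ tl (push (V x) S₁) = S := h4
  rw [tl_push] at h5
  rw [h5.2] at h3
  exact ⟨⟨S, h3, h2⟩, h5.1.symm⟩

namespace BU

section

variable {F : Set (T → B)} {us : List (BU T)}

/-- **root node with a port** -/
theorem node_root {L z : BU T} {X R : BU T} (hn : ((us ++ [X, R]).flatMap tks).Nodup)
    {ms : List (BU T)} (hos : us.filter od = L :: (ms ++ [z])) (hms : Even ms.length)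
    (hX : X = fr X.main ∨ X = fx X.main) (hR : R = fr R.main ∨ R = fx R.main)
    (hE : ∀ V ∈ F, ∀ u ∈ us ++ [X, R], ∀ p ∈ u.evs, V p.1 = V p.2)
    (hLR : ∀ V ∈ F, V L.main = V R.main)
    (hF : ∀ V ∈ F, ∀ V' ∈ F, sp V V' ((us ++ [X, R]).flatMap tks) = 0) :
    ∃ s : T → Bool, s L.main = true ∧ s z.main = true ∧ Alt (sg s) ms ∧ s X.main = false ∧
      s R.main = true ∧ ∀ V ∈ F, Cl V (word (sg s) (us ++ [X, R])) → One (us ++ [X, R]) V := by
  classical
  obtain ⟨x, hx⟩ : ∃ x, x = X.main := ⟨_, rfl⟩
  obtain ⟨r, hr⟩ : ∃ r, r = R.main := ⟨_, rfl⟩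
  rw [← hx] at hX
  rw [← hr] at hR
  have hXt : X.tks = [x] := by rcases hX with h | h <;> rw [h] <;> rfl
  have hRt : R.tks = [r] := by rcases hR with h | h <;> rw [h] <;> rfl
  have hXl : ∀ b, X.lts b = [(b, x)] := by intro b; rcases hX with h | h <;> rw [h] <;> rfl
  have hRl : ∀ b, R.lts b = [(b, r)] := by intro b; rcases hR with h | h <;> rw [h] <;> rfl
  have htk : (us ++ [X, R]).flatMap tks = us.flatMap tks ++ [x, r] := by
    rw [List.flatMap_append]
    simp [hXt, hRt]
  rw [htk] at hn
  obtain ⟨hn1, hn2, hn3⟩ := List.nodup_append.1 hn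
  have hxr : x ≠ r := by
    intro h
    simp [h] at hn2
  obtain ⟨s, h1, h2, h3, h4⟩ := node_a (F := {V | V ∈ F ∧ V x = V r}) hn1 hos hms
    (fun V hV u hu => hE V hV.1 u (List.mem_append_left _ hu)) (by
      intro V hV V' hV'
      have h5 := hF V hV.1 V' hV'.1
      rw [htk, sp_append, sp_cons, sp_cons, sp_nil, hV.2, hV'.2] at h5
      have h6 := b_add_self (V r * V' r)
      linear_combination h5 - h6)
  have hus : ∀ u ∈ us, u.main ≠ x ∧ u.main ≠ r := by
    intro u hu
    have h5 : u.main ∈ us.flatMap tks := List.mem_flatMap.2 ⟨u, hu, u.main_mem⟩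
    exact ⟨fun h => hn3 _ h5 x (by simp) h, fun h => hn3 _ h5 r (by simp) h⟩
  have hmem : ∀ u ∈ us.filter od, u ∈ us := fun u hu => (List.mem_filter.1 hu).1
  rw [hos] at hmem
  obtain ⟨s', hs'⟩ : ∃ s' : T → Bool, s' = fun t => if t = x then false else if t = r then true
    else s t := ⟨_, rfl⟩
  have hsx : s' x = false := by rw [hs']; simp
  have hsr : s' r = true := by rw [hs']; simp [Ne.symm hxr]
  have hss : ∀ u ∈ us, s' u.main = s u.main := by
    intro u hu
    rw [hs']
    simp [(hus u hu).1, (hus u hu).2]
  refine ⟨s', ?_, ?_, ?_, ?_, ?_, ?_⟩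
  · rw [hss L (hmem L List.mem_cons_self)]; exact h1
  · rw [hss z (hmem z (by simp))]; exact h2
  · exact alt_congr (fun u hu => (hss u (hmem u (by simp [hu]))).symm) h3
  · rw [← hx]; exact hsx
  · rw [← hr]; exact hsr
  · intro V hV hC
    have h5 : word (sg s') (us ++ [X, R]) = word (sg s) us ++ [(false, x), (true, r)] := by
      rw [word_append, word_congr (st := sg s') (st' := sg s) (fun u hu _ => hss u hu)]
      congr 1
      rw [word_cons, word_cons, word_nil, hXl, hRl]
      have e1 : sg s' X = false := by rw [sg, ← hx]; exact hsx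
      have e2 : sg s' R = true := by rw [sg, ← hr]; exact hsr
      rw [e1, e2]
      rfl
    rw [h5] at hC
    obtain ⟨h6, h7⟩ := hC.cut
    obtain ⟨g1, c, g2⟩ := h4 V ⟨hV, h7⟩ h6
    have hL : val L V = c := g2 L (hmem L List.mem_cons_self) (by
      have h8 : L ∈ us.filter od := by rw [hos]; exact List.mem_cons_self
      have h9 := od_iff.1 (List.mem_filter.1 h8).2
      rw [h9]
      decide)
    have hr' : V r = c := by
      have h8 := hLR V hV
      rw [← hr] at h8
      rw [← h8]
      exact hL
    refine ⟨?_, c, ?_⟩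
    · intro u hu
      rcases List.mem_append.1 hu with hu | hu
      · exact g1 u hu
      · simp only [List.mem_cons, List.not_mem_nil, or_false] at hu
        rcases hu with rfl | rfl
        · rcases hX with h | h <;> rw [h] <;> trivial
        · rcases hR with h | h <;> rw [h] <;> trivial
    · intro u hu hk
      rcases List.mem_append.1 hu with hu | hu
      · exact g2 u hu hk
      · simp only [List.mem_cons, List.not_mem_nil, or_false] at hu
        rcases hu with rfl | rfl
        · rw [val, ← hx, h7, hr']
        · rw [val, ← hr, hr']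

end

end BU

end Pool.Agent.MP42.U
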