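import Pool.Agent.MP42.U.Phase
import Pool.Agent.MP42.U.Root

/-!
# The node lemmas for circles

`Circ.Ok E F`: for the set `F` of assignments there are letters `s` with `CC` and `E`, such that the
walk condition of the own phase implies `M`.
-/

set_option autoImplicit false

namespace Pool.Agent.MP42.U

variable {T : Type*}

lemma b_dich (a b c : B) : a = b ∨ c = a ∨ c = b := by
  revert a b c
  decide

/-! ## partial sums -/

section

variable {U : Type*}

/-- bounded partial sums -/
def Bd (st : U → Bool) (a b : ℤ) (t : List U) : Prop :=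
  ∀ t₁ t₂, t = t₁ ++ t₂ → a ≤ hs st t₁ ∧ hs st t₁ ≤ b

lemma hs_nil (st : U → Bool) : hs st ([] : List U) = 0 := rfl

lemma hs_cons (st : U → Bool) (x : U) (t : List U) :
    hs st (x :: t) = (if st x then 1 else -1) + hs st t := by
  simp [hs]

lemma hs_append (st : U → Bool) (t t' : List U) : hs st (t ++ t') = hs st t + hs st t' := by
  simp [hs]

lemma Bd.nil (st : U → Bool) : Bd st 0 0 ([] : List U) := by
  intro t₁ t₂ h
  rw [(List.append_eq_nil_iff.1 h.symm).1]
  simp [hs_nil]

lemma Bd.mono {st : U → Bool} {a b a' b' : ℤ} {t : List U} (h : Bd st a b t) (ha : a' ≤ a)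
    (hb : b ≤ b') : Bd st a' b' t := fun t₁ t₂ e => by
  have := h t₁ t₂ e
  omega

lemma Bd.cons {st : U → Bool} {a b a' b' : ℤ} {x : U} {t : List U} (h : Bd st a b t)
    (h1 : a' ≤ 0) (h2 : 0 ≤ b') (h3 : a' ≤ (if st x then 1 else -1) + a)
    (h4 : (if st x then 1 else -1) + b ≤ b') : Bd st a' b' (x :: t) := by
  intro t₁ t₂ e
  rcases t₁ with _ | ⟨y, t₁⟩
  · rw [hs_nil]; exact ⟨h1, h2⟩
  · rw [List.cons_append, List.cons.injEq] at e
    obtain ⟨rfl, e⟩ := e
    rw [hs_cons]
    have := h t₁ t₂ e
    omega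

lemma Bd.append {st : U → Bool} {a b : ℤ} {t t' : List U} (h : Bd st a b t)
    (h' : Bd st (a - hs st t) (b - hs st t) t') : Bd st a b (t ++ t') := by
  intro t₁ t₂ e
  rcases List.append_eq_append_iff.1 e with ⟨q, h6, h7⟩ | ⟨q, h6, h7⟩
  · rw [h6, hs_append]
    have := h' q t₂ h7
    omega
  · exact h t₁ q h6

lemma Alt.bd {st : U → Bool} {t : List U} (h : Alt st t) : Bd st (-1) 1 t :=
  fun _ _ e => h.initial e

lemma Alt.hs {st : U → Bool} {t : List U} (h : Alt st t) : hs st t = 0 := by
  induction h with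
  | nil => rfl
  | @cons a b t h1 _ ih =>
    rw [hs_cons, hs_cons, ih, h1]
    cases st a <;> simp

/-- the last pair -/
lemma Alt.last {st : U → Bool} {t : List U} (h : Alt st t) : ∀ {t' : List U} {a b : U},
    t = t' ++ [a, b] → st a = !(st b) := by
  induction h with
  | nil => intro t' a b e; simp at e
  | @cons x y t h1 h2 ih =>
    intro t' a b e
    match t', e with
    | [], e =>
      simp only [List.nil_append, List.cons.injEq] at e
      obtain ⟨rfl, rfl, -⟩ := e
      rw [h1, Bool.not_not]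
    | [z], e =>
      simp only [List.cons_append, List.nil_append, List.cons.injEq] at e
      have e2 : t = [b] := e.2.2
      rw [e2] at h2
      cases h2
    | z :: z' :: t', e =>
      simp only [List.cons_append, List.cons.injEq] at e
      exact ih e.2.2

end

namespace Circ

/-- node lemma for the set `F` -/
def Ok (c : Circ T) (E : (T → Bool) → Prop) (F : Set (T → B)) : Prop :=
  ∃ s, c.CC s ∧ E s ∧ ∀ V ∈ F, c.Np s V → c.M V

/-- at most one port in the abstract word -/
def isPl : Circ T → Prop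
  | fu _ => False
  | _ => True

lemma M_of_one {c : Circ T} (hc : c.isPl) {V : T → B} (h : BU.One c.pus V) : c.M V := by
  cases c with
  | pl l r us => exact h
  | gp l us t g r => exact h
  | fu A => exact hc.elim

lemma CC.mk' {c : Circ T} (hc : c.isPl) {s : T → Bool}
    (gp : ∀ l us t g r, c = Circ.gp l us t g r → s t = !(s r))
    (tot : hs (BU.sg s) (c.pus.filter BU.od) = 2)
    (bd : Bd (BU.sg s) 0 3 (c.pus.filter BU.od)) : c.CC s :=
  ⟨fun A h => by rw [h] at hc; exact hc.elim, gp, tot, bd⟩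

lemma evs_pl {c : Circ T} (hc : c.isPl) : ∀ u ∈ c.pus, ∀ p ∈ u.evs, p ∈ c.evs := by
  intro u hu p hp
  cases c with
  | pl l r us => exact List.mem_flatMap.2 ⟨u, hu, hp⟩
  | fu A => exact hc.elim
  | gp l us t g r =>
    simp only [pus, List.mem_append, List.mem_cons, List.not_mem_nil, or_false,
      List.mem_flatMap] at hu
    rcases hu with hu | ⟨i, hi, hu⟩ | rfl | rfl
    · exact List.mem_append_left _ (List.mem_flatMap.2 ⟨u, hu, hp⟩)
    · refine List.mem_append_right _ (List.mem_flatMap.2 ⟨i, hi, ?_⟩)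
      cases i with
      | re a b => simp [Itm.brp] at hu
      | la a b => simp [Itm.brp] at hu
      | br t x m =>
        simp only [Itm.brp, List.mem_cons, List.not_mem_nil, or_false] at hu
        rw [hu] at hp
        exact hp
    · refine List.mem_append_right _ ?_
      obtain ⟨i, hi, hp⟩ := List.mem_flatMap.1 hp
      refine List.mem_flatMap.2 ⟨i, hi, ?_⟩
      cases i with
      | re a b => exact hp
      | la a b => exact hp
      | br t x m => simp [Itm.pairs] at hp
    · simp [BU.evs] at hp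

lemma late_pl {c : Circ T} (hc : c.isPl) : c.late = [] := by
  cases c with
  | pl l r us => rfl
  | fu A => exact hc.elim
  | gp l us t g r => rfl

lemma tks_pl {c : Circ T} (hc : c.isPl) : c.tks.Perm (c.pus.flatMap BU.tks) := by
  have h := c.tks_perm
  rwa [late_pl hc, ptk_nil, List.append_nil] at h

section

variable {F : Set (T → B)} {c : Circ T} {E : (T → Bool) → Prop}

/-- **no port** -/
theorem ok_a (hc : c.isPl) (hn : c.tks.Nodup) {L z : BU T} {ms : List (BU T)}
    (hos : c.pus.filter BU.od = L :: (ms ++ [z])) (hms : Even ms.length)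
    (hgp : ¬ c.isGp = true)
    (hE : ∀ s : T → Bool, s L.main = true → s z.main = true → Alt (BU.sg s) ms → E s)
    (h1 : ∀ V ∈ F, ∀ p ∈ c.evs, V p.1 = V p.2)
    (h2 : ∀ V ∈ F, ∀ V' ∈ F, sp V V' c.tks = 0) : c.Ok E F := by
  obtain ⟨s, h3, h4, h5, h6⟩ := BU.node_a (F := F) ((tks_pl hc).nodup_iff.1 hn) hos hms
    (fun V hV u hu p hp => h1 V hV p (evs_pl hc u hu p hp)) (fun V hV V' hV' => by
      rw [← sp_perm (tks_pl hc)]; exact h2 V hV V' hV')
  refine ⟨s, CC.mk' hc ?_ ?_ ?_, hE s h3 h4 h5, ?_⟩
  · intro l us t g r h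
    rw [h] at hgp
    exact absurd rfl hgp
  · rw [hos, hs_cons, hs_append, h5.hs, hs_cons, hs_nil]
    have e1 : BU.sg s L = true := h3
    have e2 : BU.sg s z = true := h4
    simp [e1, e2]
  · rw [hos]
    have e1 : BU.sg s L = true := h3
    have e2 : BU.sg s z = true := h4
    refine Bd.cons (a := -1) (b := 2) ?_ (by norm_num) (by norm_num) (by simp [e1])
      (by simp [e1])
    refine (h5.bd.mono (a' := -1) (b' := 2) le_rfl (by norm_num)).append ?_
    rw [h5.hs]
    refine (Bd.cons (a' := 0) (b' := 1) (Bd.nil _) le_rfl (by norm_num) (by simp [e2])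
      (by simp [e2])).mono (by norm_num) (by norm_num)
  · intro V hV hN
    exact M_of_one hc (h6 V hV hN.1)

/-- **one port** -/
theorem ok_c (hc : c.isPl) (hn : c.tks.Nodup) {L x : BU T} {fs : List (BU T)}
    (hos : c.pus.filter BU.od = L :: x :: fs) (hfs : Even fs.length)
    (hgp : c.isGp = true → fs ≠ [])
    (hE : ∀ s : T → Bool, s L.main = true → s x.main = true → Alt (BU.sg s) fs → E s)
    (h1 : ∀ V ∈ F, ∀ p ∈ c.evs, V p.1 = V p.2)
    (h2 : ∀ V ∈ F, ∀ V' ∈ F, sp V V' c.tks = 0) : c.Ok E F := by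
  obtain ⟨s, h3, h4, h5, h6⟩ := BU.node_c (F := F) ((tks_pl hc).nodup_iff.1 hn) hos hfs
    (fun V hV u hu p hp => h1 V hV p (evs_pl hc u hu p hp)) (fun V hV V' hV' => by
      rw [← sp_perm (tks_pl hc)]; exact h2 V hV V' hV')
  have e1 : BU.sg s L = true := h3
  have e2 : BU.sg s x = true := h4
  refine ⟨s, CC.mk' hc ?_ ?_ ?_, hE s h3 h4 h5, ?_⟩
  · intro l us t g r h
    rw [h] at hos hgp
    have hne : fs ≠ [] := hgp rfl
    have e3 : (Circ.gp l us t g r).pus.filter BU.od = us.filter BU.od ++
        [BU.gv t (g.flatMap Itm.pairs), BU.fr r] := by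
      unfold pus
      rw [List.filter_append, List.filter_append]
      have e4 : (g.flatMap Itm.brp).filter BU.od = [] := by
        rw [List.filter_eq_nil_iff]
        intro u hu h'
        have h7 := isBr_brp u hu
        have h8 := BU.od_iff.1 h'
        cases u <;> simp [isBr, BU.kind] at h7 h8
      rw [e4]
      rfl
    rw [e3] at hos
    have key : ∀ (q : List (BU T)) (a b : BU T), q ++ [a, b] = L :: x :: fs →
        ∃ q', fs = q' ++ [a, b] := by
      intro q a b e
      match q, e with
      | [], e => simp at e; exact absurd e.2.2 hne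
      | [y], e =>
        exfalso
        simp at e
        rw [← e.2.2] at hfs
        simp at hfs
      | y :: y' :: q', e => simp at e; exact ⟨q', e.2.2.symm⟩
    obtain ⟨q', hq'⟩ := key _ _ _ hos
    exact h5.last hq'
  · rw [hos, hs_cons, hs_cons, h5.hs]
    simp [e1, e2]
  · rw [hos]
    refine Bd.cons (a := -1) (b := 2) ?_ (by norm_num) (by norm_num) (by simp [e1])
      (by simp [e1])
    refine Bd.cons (a := -1) (b := 1) h5.bd (by norm_num) (by norm_num) (by simp [e2])
      (by simp [e2])
  · intro V hV hN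
    exact M_of_one hc (h6 V hV hN.1)

/-- **the root circle** (reversed), with a port -/
theorem ok_root (hc : c.isPl) (hn : c.tks.Nodup) {us : List (BU T)} {X R L z : BU T}
    {ms : List (BU T)} (hus : c.pus = us ++ [X, R]) (hos : us.filter BU.od = L :: (ms ++ [z]))
    (hms : Even ms.length) (hX : X = BU.fr X.main ∨ X = BU.fx X.main)
    (hR : R = BU.fr R.main ∨ R = BU.fx R.main) (hgp : ¬ c.isGp = true)
    (hE : ∀ s : T → Bool, s L.main = true → s z.main = true → Alt (BU.sg s) ms →
      s X.main = false → s R.main = true → E s)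
    (h1 : ∀ V ∈ F, ∀ p ∈ c.evs, V p.1 = V p.2) (hLR : ∀ V ∈ F, V L.main = V R.main)
    (h2 : ∀ V ∈ F, ∀ V' ∈ F, sp V V' c.tks = 0) : c.Ok E F := by
  obtain ⟨s, h3, h4, h5, h6, h7, h8⟩ := BU.node_root (F := F) (us := us) (X := X) (R := R)
    (L := L) (z := z) (ms := ms) (by
      have := (tks_pl hc).nodup_iff.1 hn
      rwa [hus] at this) hos hms hX hR
    (fun V hV u hu p hp => h1 V hV p (evs_pl hc u (by rw [hus]; exact hu) p hp)) hLR
    (fun V hV V' hV' => by
      have := h2 V hV V' hV'
      rwa [sp_perm (tks_pl hc), hus] at this)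
  have e1 : BU.sg s L = true := h3
  have e2 : BU.sg s z = true := h4
  have e3 : BU.sg s X = false := h6
  have e4 : BU.sg s R = true := h7
  have hXo : BU.od X = true := by rw [BU.od_iff]; rcases hX with h | h <;> rw [h] <;> rfl
  have hRo : BU.od R = true := by rw [BU.od_iff]; rcases hR with h | h <;> rw [h] <;> rfl
  have e5 : c.pus.filter BU.od = L :: (ms ++ (z :: X :: [R])) := by
    rw [hus, List.filter_append, hos, List.filter_cons_of_pos hXo, List.filter_cons_of_pos hRo]
    simp
  refine ⟨s, CC.mk' hc ?_ ?_ ?_, hE s h3 h4 h5 h6 h7, ?_⟩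
  · intro l us t g r h
    rw [h] at hgp
    exact absurd rfl hgp
  · rw [e5, hs_cons, hs_append, h5.hs, hs_cons, hs_cons, hs_cons, hs_nil]
    simp [e1, e2, e3, e4]
  · rw [e5]
    refine Bd.cons (a := -1) (b := 2) ?_ (by norm_num) (by norm_num) (by simp [e1])
      (by simp [e1])
    refine (h5.bd.mono (a' := -1) (b' := 2) le_rfl (by norm_num)).append ?_
    rw [h5.hs]
    refine (Bd.cons (a := -1) (b := 0) (a' := 0) (b' := 1) ?_ le_rfl (by norm_num)
      (by simp [e2]) (by simp [e2])).mono (by norm_num) (by norm_num)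
    refine Bd.cons (a := 0) (b := 1) ?_ (by norm_num) (by norm_num) (by simp [e3])
      (by simp [e3])
    exact Bd.cons (a := 0) (b := 0) (Bd.nil _) (by norm_num) (by norm_num) (by simp [e4])
      (by simp [e4])
  · intro V hV hN
    have h9 := h8 V hV (by
      have h10 := hN.1
      unfold pre at h10
      rwa [hus] at h10)
    exact M_of_one hc (by rw [hus]; exact h9)

/-- from two values to `M` -/
lemma M_of_two {A : Fu T} (hw : ∀ u ∈ A.e1, u.plain ∧ u.kind ≠ Kind.odd) {s : T → Bool}
    {V : T → B} {a b : B} (hl : V A.l = a) (hx : V A.x = b) (hX : V A.X = b)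
    (he : ∀ u ∈ A.e1, u.GC V ∧ (u.kind ≠ Kind.closed → u.val V = b))
    (hg : ∀ g ∈ A.gs, V g.2 = a ∧ (∀ u ∈ g.1.flatMap Itm.brp, u.GC V) ∧
      ∀ p ∈ g.1.flatMap Itm.rep, V p.1 = a ∧ V p.2 = a)
    (ht : (∀ u ∈ A.tl.flatMap Itm.brp, u.GC V) ∧
      ∀ p ∈ A.tl.flatMap Itm.rep, V p.1 = a ∧ V p.2 = a)
    (hN : (Circ.fu A).Np s V) : (Circ.fu A).M V := by
  obtain ⟨-, h1, h2⟩ := hN
  have hlate : ∀ p ∈ (Circ.fu A).late, V p.1 = V p.2 ∧ (V p.1 = a ∨ V p.1 = b) := by
    intro p hp
    refine ⟨h1 p hp, ?_⟩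
    rcases b_dich a b (V p.1) with h | h | h
    · left
      refine h2 a ?_ p hp
      intro t ht'
      simp only [opn, List.mem_cons, List.mem_append, List.mem_flatMap] at ht'
      have hptk : ∀ m : List (T × T), (∀ p ∈ m, V p.1 = a ∧ V p.2 = a) → ∀ t ∈ ptk m,
          V t = a := by
        intro m hm t ht
        obtain ⟨q, hq, ht⟩ := List.mem_flatMap.1 ht
        simp only [List.mem_cons, List.not_mem_nil, or_false] at ht
        rcases ht with rfl | rfl
        · exact (hm q hq).1
        · exact (hm q hq).2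
      rcases ht' with rfl | rfl | rfl | ⟨u, hu, ht'⟩ | ⟨g, hg', ht'⟩ | ht'
      · exact hl
      · rw [hx, h]
      · rw [hX, h]
      · obtain ⟨h3, h4⟩ := hw u hu
        obtain ⟨h5, h6⟩ := he u hu
        cases u with
        | fr t => exact absurd rfl h4
        | fx t => exact absurd rfl h4
        | ev c d =>
          have h7 : V c = b := h6 (by simp [BU.kind])
          have h8 : V c = V d := h5
          simp only [BU.oev, BU.evs, ptk_cons, ptk_nil, List.mem_cons, List.not_mem_nil,
            or_false] at ht'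
          rcases ht' with rfl | rfl
          · rw [h7, h]
          · rw [← h8, h7, h]
        | br t x m => simp [BU.oev] at ht'
        | gu m t => exact h3.elim
        | gv t m => exact h3.elim
      · rcases ht' with rfl | ht'
        · exact (hg g hg').1
        · exact hptk _ (hg g hg').2.2 t ht'
      · exact hptk _ ht.2 t ht'
    · exact Or.inl h
    · exact Or.inr h
  refine ⟨a, b, hl, hx, hX, he, fun g hg' => (hg g hg').1, ?_⟩
  intro i hi
  rcases List.mem_append.1 hi with hi | hi
  · obtain ⟨g, hg', hi⟩ := List.mem_flatMap.1 hi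
    obtain ⟨-, h3, h4⟩ := hg g hg'
    exact ⟨fun p hp => h4 p (List.mem_flatMap.2 ⟨i, hi, hp⟩),
      fun p hp => hlate p (List.mem_append_left _ (List.mem_flatMap.2 ⟨g, hg',
        List.mem_flatMap.2 ⟨i, hi, hp⟩⟩)),
      fun u hu => h3 u (List.mem_flatMap.2 ⟨i, hi, hu⟩)⟩
  · exact ⟨fun p hp => ht.2 p (List.mem_flatMap.2 ⟨i, hi, hp⟩),
      fun p hp => hlate p (List.mem_append_right _ (List.mem_flatMap.2 ⟨i, hi, hp⟩)),
      fun u hu => ht.1 u (List.mem_flatMap.2 ⟨i, hi, hu⟩)⟩

lemma od_brs {m : List (Itm T)} : (m.flatMap Itm.brp).filter BU.od = [] := by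
  rw [List.filter_eq_nil_iff]
  intro u hu h'
  have h7 := isBr_brp u hu
  have h8 := BU.od_iff.1 h'
  cases u <;> simp [isBr, BU.kind] at h7 h8

/-- the token of a group as a unit -/
def gtk (g : List (Itm T) × T) : BU T := BU.gu (g.1.flatMap Itm.rep) g.2

lemma od_gpre (gs : List (List (Itm T) × T)) :
    (gs.flatMap gpre).filter BU.od = gs.map gtk := by
  induction gs with
  | nil => rfl
  | cons g gs ih =>
    rw [List.flatMap_cons, List.filter_append, ih, List.map_cons]
    unfold gpre
    rw [List.filter_append, od_brs]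
    rfl

lemma evs_fu {A : Fu T} {u : BU T} (hu : u ∈ (Circ.fu A).pus) {p : T × T} (hp : p ∈ u.evs) :
    p ∈ (Circ.fu A).evs := by
  have hbr : ∀ i : Itm T, u ∈ i.brp → p ∈ i.evs := by
    intro i hi
    cases i with
    | re a b => simp [Itm.brp] at hi
    | la a b => simp [Itm.brp] at hi
    | br t x m =>
      simp only [Itm.brp, List.mem_cons, List.not_mem_nil, or_false] at hi
      rw [hi] at hp
      exact hp
  simp only [pus, List.mem_cons, List.mem_append, List.mem_flatMap, List.not_mem_nil,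
    or_false, List.mem_map] at hu
  rcases hu with rfl | (rfl | hu | rfl) | ⟨g, hg, hu⟩ | ⟨i, hi, hu⟩ | ⟨q, ⟨i, hi, hq⟩, rfl⟩
  · simp [BU.evs] at hp
  · simp [BU.evs] at hp
  · exact List.mem_append_left _ (List.mem_flatMap.2 ⟨u, hu, hp⟩)
  · simp [BU.evs] at hp
  · unfold gpre at hu
    refine List.mem_append_right _ (List.mem_append_left _ (List.mem_flatMap.2 ⟨g, hg, ?_⟩))
    rcases List.mem_append.1 hu with hu | hu
    · obtain ⟨i, hi, hu⟩ := List.mem_flatMap.1 hu
      exact List.mem_flatMap.2 ⟨i, hi, hbr i hu⟩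
    · simp only [List.mem_cons, List.not_mem_nil, or_false] at hu
      rw [hu] at hp
      obtain ⟨i, hi, hp⟩ := List.mem_flatMap.1 hp
      refine List.mem_flatMap.2 ⟨i, hi, ?_⟩
      cases i with
      | re a b => exact hp
      | la a b => simp [Itm.rep] at hp
      | br t x m => simp [Itm.rep] at hp
  · exact List.mem_append_right _ (List.mem_append_right _ (List.mem_flatMap.2 ⟨i, hi,
      hbr i hu⟩))
  · refine List.mem_append_right _ (List.mem_append_right _ (List.mem_flatMap.2 ⟨i, hi, ?_⟩))
    simp only [BU.evs, List.mem_cons, List.not_mem_nil, or_false] at hp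
    rw [hp]
    cases i with
    | re a b => exact hq
    | la a b => simp [Itm.rep] at hq
    | br t x m => simp [Itm.rep] at hq

lemma evs_late {A : Fu T} {p : T × T} (hp : p ∈ (Circ.fu A).late) : p ∈ (Circ.fu A).evs := by
  have h1 : ∀ i : Itm T, p ∈ i.lap → p ∈ i.evs := by
    intro i hi
    cases i with
    | re a b => simp [Itm.lap] at hi
    | la a b => exact hi
    | br t x m => simp [Itm.lap] at hi
  rcases List.mem_append.1 hp with hp | hp
  · obtain ⟨g, hg, hp⟩ := List.mem_flatMap.1 hp
    obtain ⟨i, hi, hp⟩ := List.mem_flatMap.1 hp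
    exact List.mem_append_right _ (List.mem_append_left _ (List.mem_flatMap.2 ⟨g, hg,
      List.mem_flatMap.2 ⟨i, hi, h1 i hp⟩⟩))
  · obtain ⟨i, hi, hp⟩ := List.mem_flatMap.1 hp
    exact List.mem_append_right _ (List.mem_append_right _ (List.mem_flatMap.2 ⟨i, hi, h1 i hp⟩))

/-- **two ports** -/
theorem ok_e {A : Fu T} (hw : ∀ u ∈ A.e1, u.plain ∧ u.kind ≠ Kind.odd)
    (hn : (Circ.fu A).tks.Nodup) {g₀ : List (Itm T) × T} {gs : List (List (Itm T) × T)}
    (hgs : A.gs = g₀ :: gs) (hev : Even gs.length)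
    (hE : ∀ s : T → Bool, s A.l = true → s A.x = true → s A.X = true → s g₀.2 = false →
      Alt s (gs.map Prod.snd) → E s)
    (h1 : ∀ V ∈ F, ∀ p ∈ (Circ.fu A).evs, V p.1 = V p.2)
    (h2 : ∀ V ∈ F, ∀ V' ∈ F, sp V V' (Circ.fu A).tks = 0) : (Circ.fu A).Ok E F := by
  obtain ⟨p, hp⟩ : ∃ p, p = BU.fx A.x :: (A.e1 ++ [BU.fx A.X]) ++ g₀.1.flatMap Itm.brp := ⟨_, rfl⟩
  obtain ⟨post, hpost⟩ : ∃ q, q = gs.flatMap gpre ++ A.tl.flatMap Itm.brp := ⟨_, rfl⟩
  obtain ⟨tail, htail⟩ : ∃ q, q = (A.tl.flatMap Itm.rep).map fun p => BU.ev p.1 p.2 := ⟨_, rfl⟩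
  have hpus : (Circ.fu A).pus = BU.fx A.l :: (p ++ gtk g₀ :: (post ++ tail)) := by
    have e0 : (Circ.fu A).pus = BU.fx A.l :: ((BU.fx A.x :: (A.e1 ++ [BU.fx A.X])) ++
      (A.gs.flatMap gpre ++ (A.tl.flatMap Itm.brp ++
        ((A.tl.flatMap Itm.rep).map fun p => BU.ev p.1 p.2)))) := rfl
    rw [e0, hgs, hp, hpost, htail, List.flatMap_cons]
    unfold gpre gtk
    simp
  have hod : A.e1.filter BU.od = [] := by
    rw [List.filter_eq_nil_iff]
    intro u hu h
    exact (hw u hu).2 (BU.od_iff.1 h)
  have hpod : p.filter BU.od = [BU.fx A.x, BU.fx A.X] := by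
    rw [hp, List.filter_append, od_brs, List.filter_cons_of_pos (by rfl), List.filter_append, hod]
    rfl
  have hpostod : post.filter BU.od = gs.map gtk := by
    rw [hpost, List.filter_append, od_brs, od_gpre, List.append_nil]
  have hpe : ∀ u ∈ post, u.kind ≠ Kind.even := by
    intro u hu
    rw [hpost] at hu
    rcases List.mem_append.1 hu with hu | hu
    · obtain ⟨g, -, hu⟩ := List.mem_flatMap.1 hu
      unfold gpre at hu
      rcases List.mem_append.1 hu with hu | hu
      · have h7 := isBr_brp u hu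
        cases u <;> simp [isBr, BU.kind] at h7 ⊢
      · simp only [List.mem_cons, List.not_mem_nil, or_false] at hu
        rw [hu]
        simp [BU.kind]
    · have h7 := isBr_brp u hu
      cases u <;> simp [isBr, BU.kind] at h7 ⊢
  have hto : ∀ u ∈ tail, u.kind ≠ Kind.odd := by
    intro u hu
    rw [htail] at hu
    obtain ⟨q, -, rfl⟩ := List.mem_map.1 hu
    simp [BU.kind]
  have hperm : (Circ.fu A).tks.Perm ((Circ.fu A).pus.flatMap BU.tks ++ ptk (Circ.fu A).late) :=
    (Circ.fu A).tks_perm
  obtain ⟨s, s1, s2, s3, s4, s5, s6⟩ := BU.node_e (F := F) (L := BU.fx A.l) (x := BU.fx A.x)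
    (X := BU.fx A.X) (f := gtk g₀) (p := p) (post := post) (tail := tail) (fs := gs.map gtk)
    (by
      have h3 := hperm.nodup_iff.1 hn
      rw [hpus] at h3
      exact (List.nodup_append.1 h3).1) rfl hpod rfl hpostod hpe hto (by simpa using hev)
    (fun V hV u hu q hq => h1 V hV q (evs_fu (by rw [hpus]; exact hu) hq)) (by
      intro V hV V' hV'
      have h3 := h2 V hV V' hV'
      rw [sp_perm hperm, sp_append, sp_ptk (fun q hq => h1 V hV q (evs_late hq))
        (fun q hq => h1 V' hV' q (evs_late hq)), add_zero, hpus] at h3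
      exact h3)
  have e1 : BU.sg s (BU.fx A.l) = true := s1
  have e2 : BU.sg s (BU.fx A.x) = true := s2
  have e3 : BU.sg s (BU.fx A.X) = true := s3
  have e4 : BU.sg s (gtk g₀) = false := s4
  have hfilt : (Circ.fu A).pus.filter BU.od =
      BU.fx A.l :: BU.fx A.x :: BU.fx A.X :: gtk g₀ :: gs.map gtk := by
    rw [hpus, List.filter_cons_of_pos (by rfl), List.filter_append, hpod,
      List.filter_cons_of_pos (by rfl), List.filter_append, hpostod]
    have : tail.filter BU.od = [] := by
      rw [List.filter_eq_nil_iff]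
      intro u hu h
      exact hto u hu (BU.od_iff.1 h)
    rw [this, List.append_nil]
    rfl
  have halt : Alt s (gs.map Prod.snd) := by
    clear hgs hev hpost hpostod hpe hpus hfilt
    have key : ∀ (l : List (BU T)), Alt (BU.sg s) l → ∀ gs : List (List (Itm T) × T),
        l = gs.map gtk → Alt s (gs.map Prod.snd) := by
      intro l hl
      induction hl with
      | nil =>
        intro gs h
        rw [List.map_eq_nil_iff.1 h.symm]
        exact Alt.nil
      | @cons x y t h _ ih =>
        intro gs he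
        match gs, he with
        | [], he => simp at he
        | [g], he => simp at he
        | g :: g' :: gs, he =>
          simp only [List.map_cons, List.cons.injEq] at he
          obtain ⟨h1, h2, h3⟩ := he
          rw [h1, h2] at h
          exact Alt.cons h (ih gs h3)
    exact key _ s5 gs rfl
  refine ⟨s, ⟨?_, ?_, ?_, ?_⟩, hE s s1 s2 s3 s4 halt, ?_⟩
  · intro A' hA'
    cases hA'
    exact ⟨s1, s2, s3⟩
  · intro l us t g r h
    cases h
  · rw [hfilt, hs_cons, hs_cons, hs_cons, hs_cons, s5.hs]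
    simp [e1, e2, e3, e4]
  · rw [hfilt]
    refine Bd.cons (a := -1) (b := 2) ?_ (by norm_num) (by norm_num) (by simp [e1])
      (by simp [e1])
    refine Bd.cons (a := -2) (b := 1) ?_ (by norm_num) (by norm_num) (by simp [e2])
      (by simp [e2])
    refine Bd.cons (a := -2) (b := 0) ?_ (by norm_num) (by norm_num) (by simp [e3])
      (by simp [e3])
    exact Bd.cons (a := -1) (b := 1) s5.bd (by norm_num) (by norm_num) (by simp [e4])
      (by simp [e4])
  · intro V hV hN
    have hC := hN.1
    unfold pre at hC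
    rw [hpus] at hC
    obtain ⟨t1, a, b, t2, t3, t4⟩ := s6 V hV hC
    have hpm : ∀ u, u ∈ p ↔ u = BU.fx A.x ∨ u ∈ A.e1 ∨ u = BU.fx A.X ∨
        u ∈ g₀.1.flatMap Itm.brp := by
      intro u
      rw [hp]
      simp only [List.mem_append, List.mem_cons, List.not_mem_nil, or_false, or_assoc]
    have hgc : ∀ u ∈ p, u.GC V := fun u hu => t1 u (by simp [hu])
    have hgc' : ∀ u ∈ gtk g₀ :: (post ++ tail), u.GC V := fun u hu =>
      t1 u (List.mem_cons_of_mem _ (List.mem_append_right _ hu))
    refine M_of_two hw t2 (t3 _ ((hpm _).2 (Or.inl rfl)) (by simp [BU.kind]))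
      (t3 _ ((hpm _).2 (Or.inr (Or.inr (Or.inl rfl)))) (by simp [BU.kind]))
      (fun u hu => ⟨hgc u ((hpm _).2 (Or.inr (Or.inl hu))),
        fun hk => t3 u ((hpm _).2 (Or.inr (Or.inl hu))) hk⟩) ?_ ?_ hN
    · intro g hg
      rw [hgs] at hg
      have hgt : gtk g ∈ gtk g₀ :: (post ++ tail) := by
        rcases List.mem_cons.1 hg with rfl | hg
        · exact List.mem_cons_self
        · refine List.mem_cons_of_mem _ (List.mem_append_left _ ?_)
          rw [hpost]
          refine List.mem_append_left _ (List.mem_flatMap.2 ⟨g, hg, ?_⟩)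
          unfold gpre gtk
          simp
      have hv : V g.2 = a := t4 _ hgt (by simp [gtk, BU.kind])
      refine ⟨hv, ?_, ?_⟩
      · intro u hu
        rcases List.mem_cons.1 hg with rfl | hg
        · exact hgc u ((hpm _).2 (Or.inr (Or.inr (Or.inr hu))))
        · refine hgc' u (List.mem_cons_of_mem _ (List.mem_append_left _ ?_))
          rw [hpost]
          refine List.mem_append_left _ (List.mem_flatMap.2 ⟨g, hg, ?_⟩)
          unfold gpre
          exact List.mem_append_left _ hu
      · intro q hq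
        have h3 : (gtk g).GC V := hgc' _ hgt
        have h4 := h3 q hq
        rw [hv] at h4
        exact h4
    · refine ⟨?_, ?_⟩
      · intro u hu
        refine hgc' u (List.mem_cons_of_mem _ (List.mem_append_left _ ?_))
        rw [hpost]
        exact List.mem_append_right _ hu
      · intro q hq
        have h3 : BU.ev q.1 q.2 ∈ gtk g₀ :: (post ++ tail) := by
          refine List.mem_cons_of_mem _ (List.mem_append_right _ ?_)
          rw [htail]
          exact List.mem_map.2 ⟨q, hq, rfl⟩
        have h4 : V q.1 = a := t4 _ h3 (by simp [BU.kind])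
        have h5 : V q.1 = V q.2 := hgc' _ h3
        exact ⟨h4, by rw [← h5, h4]⟩

end

end Circ

end Pool.Agent.MP42.U
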