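import Pool.Agent.MP42.U.SU
import Pool.Agent.MP42.U.Fin

/-!
# The node with at most one uncancelled port

Word in reading order: own token `l`, the units `it`, second own token `r` (if the own link is
double).  `Goal`: there is an admissible lettered word whose solutions satisfy `M`.
-/

set_option autoImplicit false

namespace Pool.Agent.MP42.U

variable {T : Type*} {ok : Bool × T → Prop}

namespace SU

/-- the walk of a unit -/
def R (u : SU T ok) (b : Bool) (V : T → B) (S S' : ℕ → B) : Prop := Run (lv V (u.lts b)) S S'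

/-- the lettered word of a list of units -/
def word (st : SU T ok → Bool) (us : List (SU T ok)) : List (Bool × T) :=
  us.flatMap fun u => u.lts (st u)

lemma word_cons (st : SU T ok → Bool) (u : SU T ok) (us : List (SU T ok)) :
    word st (u :: us) = u.lts (st u) ++ word st us := rfl

lemma word_append (st : SU T ok → Bool) (us us' : List (SU T ok)) :
    word st (us ++ us') = word st us ++ word st us' := by simp [word]

lemma word_snd (st : SU T ok → Bool) (us : List (SU T ok)) :
    (word st us).map Prod.snd = us.flatMap tks := by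
  rw [word, List.map_flatMap]
  congr 1
  funext u
  exact u.lts_snd _

lemma walk_iff {st : SU T ok → Bool} {V : T → B} {us : List (SU T ok)} : ∀ {S S' : ℕ → B},
    Walk R st V us S S' ↔ Run (lv V (word st us)) S S' := by
  induction us with
  | nil => intro S S'; exact Iff.rfl
  | cons u us ih =>
    intro S S'
    rw [word_cons, lv_append, run_append]
    simp only [Walk, ih]
    rfl

lemma cl_iff {st : SU T ok → Bool} {V : T → B} {us : List (SU T ok)} :
    (∃ S, Walk R st V us S S ∧ Deep S) ↔ Cl V (word st us) := by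
  simp only [walk_iff]
  rfl

lemma does' {V : T → B} {u : SU T ok} (h : u.hyp V) {b : Bool} {S S' : ℕ → B}
    (hR : u.R b V S S') : Does kind GC val u b V S S' := by
  obtain ⟨h1, h2, h3, h4⟩ := u.does V h b S S' hR
  exact ⟨h1, h2, h3, h4⟩

/-- is the unit odd? -/
abbrev od (u : SU T ok) : Bool := isOdd kind u

lemma od_iff {u : SU T ok} : od u = true ↔ u.kind = Kind.odd := by
  simp [od, isOdd]

lemma od_false {u : SU T ok} : od u = false ↔ u.kind ≠ Kind.odd := by
  simp [od, isOdd]

lemma hl_word (st : SU T ok → Bool) (us : List (SU T ok)) :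
    hl (word st us) = hs st (us.filter od) := by
  induction us with
  | nil => rfl
  | cons u us ih =>
    rw [word_cons, hl_append, ih, u.ht]
    by_cases hu : u.kind = Kind.odd
    · rw [List.filter_cons_of_pos (od_iff.2 hu), if_pos hu]
      simp [hs]
    · rw [List.filter_cons_of_neg (by rw [od_false.2 hu]; decide), if_neg hu, zero_add]

lemma ok_word {st : SU T ok → Bool} {us : List (SU T ok)}
    (h : ∀ u ∈ us, st u = false → u.free) : ∀ q ∈ word st us, ok q := by
  intro q hq
  obtain ⟨u, hu, h1⟩ := List.mem_flatMap.1 hq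
  cases hs : st u
  · rw [hs] at h1
    exact u.okF (h u hu hs) q h1
  · rw [hs] at h1
    exact u.okT q h1

lemma par_word {st : SU T ok → Bool} {K : ℤ} (hK : 0 ≤ K) : ∀ {us : List (SU T ok)} {lo hi : ℤ},
    (∀ u ∈ us, u.dp ≤ K) →
    (∀ os₁ os₂, us.filter od = os₁ ++ os₂ → lo ≤ hs st os₁ ∧ hs st os₁ ≤ hi) →
    Par (K - lo) (hi + 1) (word st us) := by
  intro us
  induction us with
  | nil =>
    intro lo hi _ h
    have h1 := h [] [] rfl
    have h2 : hs st ([] : List (SU T ok)) = 0 := rfl
    rw [h2] at h1
    exact par_nil (by omega) (by omega)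
  | cons u us ih =>
    intro lo hi hd h
    have h1 := h [] _ rfl
    have h2 : hs st ([] : List (SU T ok)) = 0 := rfl
    rw [h2] at h1
    have h3 := hd u List.mem_cons_self
    rw [word_cons]
    have h4 : Par (K - (lo - hl (u.lts (st u)))) (hi - hl (u.lts (st u)) + 1) (word st us) := by
      refine ih (fun w hw => hd w (List.mem_cons_of_mem _ hw)) ?_
      intro os₁ os₂ he
      by_cases hu : u.kind = Kind.odd
      · have h5 := h (u :: os₁) os₂ (by
          rw [List.filter_cons_of_pos (od_iff.2 hu), he, List.cons_append])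
        rw [u.ht, if_pos hu]
        have h6 : hs st (u :: os₁) = (if st u then 1 else -1) + hs st os₁ := by simp [hs]
        rw [h6] at h5
        omega
      · have h5 := h os₁ os₂ (by
          rw [List.filter_cons_of_neg (by rw [od_false.2 hu]; decide), he])
        rw [u.ht, if_neg hu]
        omega
    exact par_append (u.bd _) h4 (by omega) (by omega) (by omega) (by omega)

lemma sum_units {us : List (SU T ok)} {V V' : T → B} (h : ∀ u ∈ us, u.GC V)
    (h' : ∀ u ∈ us, u.GC V') : sp V V' (us.flatMap tks) =
      ((us.filter (isOdd kind)).map fun u => u.val V * u.val V').sum := by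
  induction us with
  | nil => rfl
  | cons u us ih =>
    rw [List.flatMap_cons, sp_append, u.sum V V' (h u List.mem_cons_self) (h' u List.mem_cons_self),
      ih (fun w hw => h w (List.mem_cons_of_mem _ hw))
        (fun w hw => h' w (List.mem_cons_of_mem _ hw)), List.filter_cons]
    by_cases hu : u.kind = Kind.odd
    · simp [isOdd, hu]
    · simp [isOdd, hu]

/-- the units are distinct -/
lemma nodup {us : List (SU T ok)} (h : (us.flatMap tks).Nodup) : us.Nodup := by
  induction us with
  | nil => exact List.nodup_nil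
  | cons u us ih =>
    rw [List.flatMap_cons, List.nodup_append] at h
    obtain ⟨h1, h2, h3⟩ := h
    refine List.nodup_cons.2 ⟨?_, ih h2⟩
    intro hu
    obtain ⟨t, ht⟩ := List.exists_mem_of_ne_nil _ u.ne
    exact h3 t ht t (List.mem_flatMap.2 ⟨u, hu, ht⟩) rfl

end SU

open SU

/-- the aim of a node lemma -/
def Goal (ok : Bool × T → Prop) (F : Set (T → B)) (l : T) (r : Option T) (tw : List T)
    (fix : Prop) (K : ℤ) (M : (T → B) → Prop) : Prop :=
  ∃ (d : Bool) (w : List (Bool × T)), (d = true → ¬ fix ∧ r ≠ none) ∧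
    w.map Prod.snd = (if d then tw else l :: (tw ++ r.toList)) ∧ (∀ q ∈ w, ok q) ∧ hl w = 2 ∧
    Par K 4 w ∧ ∀ V ∈ F, (d = true → ∀ r' ∈ r, V l = V r') → Cl V w → M V

/-- one value on all tokens outside closed units -/
def OneM (l : T) (r : Option T) (it : List (SU T ok)) (V : T → B) : Prop :=
  (∀ u ∈ it, u.GC V) ∧ ∃ c, V l = c ∧ (∀ r' ∈ r, V r' = c) ∧
    ∀ u ∈ it, u.kind ≠ Kind.closed → u.val V = c

lemma b_len {m : ℕ} (h : Even m) (c : B) : (m : B) * c = 0 := by
  obtain ⟨k, hk⟩ := h
  have : ((m : ℕ) : B) = 0 := by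
    rw [hk, Nat.cast_add]; exact b_add_self _
  rw [this, zero_mul]

lemma OneM.par {l : T} {r : Option T} {it : List (SU T ok)}
    (he : Even (1 + r.toList.length + (it.filter od).length)) {V V' : T → B}
    (h : OneM l r it V) (h' : OneM l r it V') : sp V V' (l :: (it.flatMap tks ++ r.toList)) = 0 := by
  obtain ⟨h1, c, h2, h3, h4⟩ := h
  obtain ⟨h1', c', h2', h3', h4'⟩ := h'
  rw [sp_cons, sp_append, sum_units h1 h1', h2, h2']
  have h5 : sp V V' r.toList = (r.toList.length : B) * (c * c') := by
    cases r with
    | none => simp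
    | some r' => simp [h3 r' rfl, h3' r' rfl]
  have h6 : ((it.filter (isOdd kind)).map fun u => u.val V * u.val V') =
      (it.filter (isOdd kind)).map fun _ => c * c' := by
    refine List.map_congr_left ?_
    intro u hu
    obtain ⟨hu, ho⟩ := List.mem_filter.1 hu
    have hk : u.kind ≠ Kind.closed := by
      intro h
      simp [isOdd, h] at ho
    rw [h4 u hu hk, h4' u hu hk]
  rw [h5, h6, List.map_const', List.sum_replicate, nsmul_eq_mul]
  have h7 := b_len he (c * c')
  push_cast at h7
  linear_combination h7

lemma hs_cons {U : Type*} (st : U → Bool) (u : U) (us : List U) :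
    hs st (u :: us) = (if st u then 1 else -1) + hs st us := by simp [hs]

lemma hs_append {U : Type*} (st : U → Bool) (us vs : List U) :
    hs st (us ++ vs) = hs st us + hs st vs := by simp [hs]

lemma hs_alt {U : Type*} {st : U → Bool} {ms : List U} (h : Alt st ms) : hs st ms = 0 :=
  Sig.alt_sum h

/-- `+ pairs +` -/
lemma bd_a {U : Type*} {st : U → Bool} {l r : U} {ms : List U} (hl : st l = true)
    (hr : st r = true) (hms : Alt st ms) : hs st (l :: (ms ++ [r])) = 2 ∧
      ∀ os₁ os₂, l :: (ms ++ [r]) = os₁ ++ os₂ → 0 ≤ hs st os₁ ∧ hs st os₁ ≤ 3 := by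
  refine ⟨?_, ?_⟩
  · rw [hs_cons, hs_append, hs_alt hms, hs_cons, hl, hr]
    simp [hs]
  · intro os₁ os₂ h
    match os₁, h with
    | [], _ => simp [hs]
    | x :: os₁, h =>
      rw [List.cons_append, List.cons.injEq] at h
      obtain ⟨rfl, h⟩ := h
      rw [hs_cons, hl]
      rcases List.append_eq_append_iff.1 h with ⟨q, h3, h4⟩ | ⟨q, h3, h4⟩
      · rcases q with _ | ⟨y, q⟩
        · rw [List.append_nil] at h3
          rw [h3, hs_alt hms]
          norm_num
        · rw [List.cons_append, List.cons.injEq] at h4
          obtain ⟨rfl, h4⟩ := h4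
          have h5 : q = [] := (List.append_eq_nil_iff.1 h4.symm).1
          rw [h3, h5, hs_append, hs_alt hms, hs_cons, hr]
          simp [hs]
      · have h5 := hms.initial (t₁ := os₁) (t₂ := q) h3
        simp only [if_true]
        omega

/-- `+ + pairs` -/
lemma bd_c {U : Type*} {st : U → Bool} {l x : U} {ms : List U} (hl : st l = true)
    (hx : st x = true) (hms : Alt st ms) : hs st (l :: x :: ms) = 2 ∧
      ∀ os₁ os₂, l :: x :: ms = os₁ ++ os₂ → 0 ≤ hs st os₁ ∧ hs st os₁ ≤ 3 := by
  refine ⟨?_, ?_⟩
  · rw [hs_cons, hs_cons, hs_alt hms, hl, hx]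
    norm_num
  · intro os₁ os₂ h
    match os₁, h with
    | [], _ => simp [hs]
    | [y], h =>
      rw [List.cons_append, List.cons.injEq] at h
      obtain ⟨rfl, h⟩ := h
      simp [hs, hl]
    | y :: z :: os₁, h =>
      simp only [List.cons_append, List.cons.injEq] at h
      obtain ⟨rfl, rfl, h⟩ := h
      have h5 := hms.initial h
      rw [hs_cons, hs_cons, hl, hx]
      simp only [if_true]
      omega

/-- `+ + - pairs +` -/
lemma bd_d {U : Type*} {st : U → Bool} {l x f r : U} {ms : List U} (hl : st l = true)
    (hx : st x = true) (hf : st f = false) (hr : st r = true) (hms : Alt st ms) :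
    hs st (l :: x :: f :: (ms ++ [r])) = 2 ∧
      ∀ os₁ os₂, l :: x :: f :: (ms ++ [r]) = os₁ ++ os₂ → 0 ≤ hs st os₁ ∧ hs st os₁ ≤ 3 := by
  obtain ⟨h1, h2⟩ := bd_a (l := l) (r := r) hl hr hms
  rw [hs_cons, hl] at h1
  refine ⟨?_, ?_⟩
  · rw [hs_cons, hs_cons, hs_cons, hl, hx, hf]
    simp only [if_true] at h1 ⊢
    simp
    omega
  · intro os₁ os₂ h
    match os₁, h with
    | [], _ => simp [hs]
    | [y], h =>
      rw [List.cons_append, List.cons.injEq] at h
      obtain ⟨rfl, h⟩ := h
      simp [hs, hl]
    | [y, z], h =>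
      simp only [List.cons_append, List.cons.injEq] at h
      obtain ⟨rfl, rfl, h⟩ := h
      simp [hs, hl, hx]
    | y :: z :: w :: os₁, h =>
      simp only [List.cons_append, List.cons.injEq] at h
      obtain ⟨rfl, rfl, rfl, h⟩ := h
      have h3 := h2 (l :: os₁) os₂ (by rw [List.cons_append, h])
      rw [hs_cons, hl] at h3
      rw [hs_cons, hs_cons, hs_cons, hl, hx, hf]
      simp only [if_true] at h3 ⊢
      simp
      omega

lemma par_word' {st : SU T ok → Bool} {K : ℤ} (hK : 0 ≤ K) {us : List (SU T ok)}
    (hd : ∀ u ∈ us, u.dp ≤ K)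
    (h : ∀ os₁ os₂, us.filter od = os₁ ++ os₂ → 0 ≤ hs st os₁ ∧ hs st os₁ ≤ 3) :
    Par K 4 (word st us) := by
  have := par_word (st := st) hK (lo := 0) (hi := 3) hd h
  simpa using this

section

variable {F : Set (T → B)} {l : T} {it : List (SU T ok)} {fix : Prop} {K : ℤ}

/-- own link single, no port -/
theorem goal_none_none (hl : ok (true, l)) (hn : (l :: it.flatMap tks).Nodup)
    (hfree : ∀ u ∈ it, u.free) (ho : Odd (it.filter od).length) (hK : 1 ≤ K)
    (hd : ∀ u ∈ it, u.dp ≤ K) (hyp : ∀ V ∈ F, ∀ u ∈ it, u.hyp V)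
    (hF : ∀ V ∈ F, ∀ V' ∈ F, sp V V' (l :: it.flatMap tks) = 0) :
    Goal ok F l none (it.flatMap tks) fix K (OneM l none it) := by
  classical
  set us : List (SU T ok) := fx l hl :: it with hus
  have htk : us.flatMap tks = l :: it.flatMap tks := rfl
  have hne : it.filter od ≠ [] := by
    intro h; rw [h] at ho; simp at ho
  obtain ⟨ms, z, hz⟩ : ∃ ms z, it.filter od = ms ++ [z] :=
    ⟨_, _, (List.dropLast_append_getLast hne).symm⟩
  have hos : us.filter (isOdd kind) = fx l hl :: (ms ++ [z]) := by
    rw [hus, List.filter_cons_of_pos rfl, ← hz]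
  have hms : Even ms.length := by
    rw [hz, List.length_append, List.length_singleton] at ho
    rcases Nat.even_or_odd ms.length with h | h
    · exact h
    · exact absurd ho (Nat.not_odd_iff_even.2 h.add_one)
  obtain ⟨st, h1, h2, h3, h4⟩ := nodeR (R := SU.R) (kind := kind) (GC := GC) (val := val)
    (us := us) (SU.nodup (by rw [htk]; exact hn)) hos hms (F := F)
    (fun V hV u hu b S S' h => does' (by
      rcases List.mem_cons.1 hu with rfl | hu
      · exact trivial
      · exact hyp V hV u hu) h)
    (fun V hV V' hV' hg hg' => by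
      rw [← sum_units hg hg', htk]
      exact hF V hV V' hV')
  obtain ⟨b1, b2⟩ := bd_a h1 h2 h3
  refine ⟨false, word st us, fun h => by simp at h, ?_, ?_, ?_, ?_, ?_⟩
  · rw [word_snd, htk]; simp
  · refine ok_word ?_
    intro u hu h
    rcases List.mem_cons.1 hu with rfl | hu
    · rw [h1] at h; simp at h
    · exact hfree u hu
  · rw [hl_word]
    exact (congrArg (hs st) hos).trans b1
  · refine par_word' (by omega) ?_ ?_
    · intro u hu
      rcases List.mem_cons.1 hu with rfl | hu
      · exact hK
      · exact hd u hu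
    · intro os₁ os₂ h
      exact b2 os₁ os₂ (hos.symm.trans h)
  · intro V hV _ hC
    obtain ⟨h5, c, h6⟩ := h4 V hV (cl_iff.2 hC)
    refine ⟨fun u hu => h5 u (List.mem_cons_of_mem _ hu), c, ?_, fun r' hr => by simp at hr, ?_⟩
    · exact h6 (fx l hl) List.mem_cons_self (by simp [fx])
    · intro u hu hk
      exact h6 u (List.mem_cons_of_mem _ hu) hk

/-- own link double, no port -/
theorem goal_some_none {r : T} (hl : ok (true, l)) (hr : ok (true, r))
    (hn : (l :: (it.flatMap tks ++ [r])).Nodup)
    (hfree : ∀ u ∈ it, u.free) (ho : Even (it.filter od).length) (hK : 1 ≤ K)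
    (hd : ∀ u ∈ it, u.dp ≤ K) (hyp : ∀ V ∈ F, ∀ u ∈ it, u.hyp V)
    (hF : ∀ V ∈ F, ∀ V' ∈ F, sp V V' (l :: (it.flatMap tks ++ [r])) = 0) :
    Goal ok F l (some r) (it.flatMap tks) fix K (OneM l (some r) it) := by
  classical
  set us : List (SU T ok) := fx l hl :: (it ++ [fx r hr]) with hus
  have htk : us.flatMap tks = l :: (it.flatMap tks ++ [r]) := by
    rw [hus, List.flatMap_cons, List.flatMap_append]
    rfl
  have hos : us.filter (isOdd kind) = fx l hl :: (it.filter od ++ [fx r hr]) := by
    rw [hus, List.filter_cons_of_pos rfl, List.filter_append]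
    rfl
  have hmem : ∀ u ∈ us, u = fx l hl ∨ u = fx r hr ∨ u ∈ it := by
    intro u hu
    rcases List.mem_cons.1 hu with rfl | hu
    · exact Or.inl rfl
    rcases List.mem_append.1 hu with hu | hu
    · exact Or.inr (Or.inr hu)
    · exact Or.inr (Or.inl (List.mem_singleton.1 hu))
  have hit : ∀ u ∈ it, u ∈ us := fun u hu =>
    List.mem_cons_of_mem _ (List.mem_append_left _ hu)
  obtain ⟨st, h1, h2, h3, h4⟩ := nodeR (R := SU.R) (kind := kind) (GC := GC) (val := val)
    (us := us) (SU.nodup (by rw [htk]; exact hn)) hos ho (F := F)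
    (fun V hV u hu b S S' h => does' (by
      rcases hmem u hu with rfl | rfl | hu
      · exact trivial
      · exact trivial
      · exact hyp V hV u hu) h)
    (fun V hV V' hV' hg hg' => by
      rw [← sum_units hg hg', htk]
      exact hF V hV V' hV')
  obtain ⟨b1, b2⟩ := bd_a h1 h2 h3
  refine ⟨false, word st us, fun h => by simp at h, ?_, ?_, ?_, ?_, ?_⟩
  · rw [word_snd, htk]; simp
  · refine ok_word ?_
    intro u hu h
    rcases hmem u hu with rfl | rfl | hu
    · rw [h1] at h; simp at h
    · rw [h2] at h; simp at h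
    · exact hfree u hu
  · rw [hl_word]
    exact (congrArg (hs st) hos).trans b1
  · refine par_word' (by omega) ?_ ?_
    · intro u hu
      rcases hmem u hu with rfl | rfl | hu
      · exact hK
      · exact hK
      · exact hd u hu
    · intro os₁ os₂ h
      exact b2 os₁ os₂ (hos.symm.trans h)
  · intro V hV _ hC
    obtain ⟨h5, c, h6⟩ := h4 V hV (cl_iff.2 hC)
    refine ⟨fun u hu => h5 u (hit u hu), c, ?_, ?_, ?_⟩
    · exact h6 (fx l hl) List.mem_cons_self (by simp [fx])
    · intro r' hr'
      have h7 : r' = r := by simpa using hr'.symm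
      rw [h7]
      exact h6 (fx r hr) (by simp [hus]) (by simp [fx])
    · intro u hu hk
      exact h6 u (hit u hu) hk

/-- own link single, a port -/
theorem goal_none_some {x : SU T ok} (hl : ok (true, l)) (hn : (l :: it.flatMap tks).Nodup)
    {fs : List (SU T ok)} (hx : it.filter od = x :: fs)
    (hfree : ∀ u ∈ it, u = x ∨ u.free) (ho : Even fs.length) (hK : 1 ≤ K)
    (hd : ∀ u ∈ it, u.dp ≤ K) (hyp : ∀ V ∈ F, ∀ u ∈ it, u.hyp V)
    (hF : ∀ V ∈ F, ∀ V' ∈ F, sp V V' (l :: it.flatMap tks) = 0) :
    Goal ok F l none (it.flatMap tks) fix K (OneM l none it) := by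
  classical
  obtain ⟨l₁, l₂, hit, hl₁, hxo, hl₂⟩ := List.filter_eq_cons_iff.1 hx
  have hl₁' : l₁.filter od = [] := by
    rw [List.filter_eq_nil_iff]
    intro u hu; exact hl₁ u hu
  set us : List (SU T ok) := fx l hl :: it with hus
  set us' : List (SU T ok) := x :: (l₂ ++ (fx l hl :: l₁)) with hus'
  have htk : us.flatMap tks = l :: it.flatMap tks := rfl
  have hperm : us'.Perm us := by
    rw [hus', hus, hit]
    calc x :: (l₂ ++ (fx l hl :: l₁)) = (x :: l₂) ++ (fx l hl :: l₁) := rfl
      _ |>.Perm ((fx l hl :: l₁) ++ (x :: l₂)) := List.perm_append_comm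
      _ = fx l hl :: (l₁ ++ x :: l₂) := rfl
  have hmem : ∀ u ∈ us, u = fx l hl ∨ u ∈ it := fun u hu => List.mem_cons.1 hu
  have hos : us'.filter (isOdd kind) = x :: (fs ++ [fx l hl]) := by
    rw [hus', List.filter_cons_of_pos hxo, List.filter_append]
    congr 1
    have h1 : l₂.filter (isOdd kind) = fs := hl₂
    have h2 : (fx l hl :: l₁).filter (isOdd kind) = [fx l hl] := by
      rw [List.filter_cons_of_pos rfl]
      congr 1
    rw [h1, h2]
  have hos0 : us.filter (isOdd kind) = fx l hl :: x :: fs := by
    rw [hus, List.filter_cons_of_pos rfl]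
    congr 1
  obtain ⟨st, h1, h2, h3, h4⟩ := nodeR (R := SU.R) (kind := kind) (GC := GC) (val := val)
    (us := us') (hperm.nodup_iff.2 (SU.nodup (by rw [htk]; exact hn))) hos ho (F := F)
    (fun V hV u hu b S S' h => does' (by
      rcases hmem u (hperm.mem_iff.1 hu) with rfl | hu
      · exact trivial
      · exact hyp V hV u hu) h)
    (fun V hV V' hV' hg hg' => by
      have h5 := hF V hV V' hV'
      rw [← htk, sum_units (fun u hu => hg u (hperm.mem_iff.2 hu))
        (fun u hu => hg' u (hperm.mem_iff.2 hu)), hos0] at h5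
      rw [hos]
      simp only [List.map_cons, List.map_append, List.sum_cons, List.sum_append, List.map_nil,
        List.sum_nil, add_zero] at h5 ⊢
      linear_combination h5)
  obtain ⟨b1, b2⟩ := bd_c (l := fx l hl) (x := x) h2 h1 h3
  refine ⟨false, word st us, fun h => by simp at h, ?_, ?_, ?_, ?_, ?_⟩
  · rw [word_snd, htk]; simp
  · refine ok_word ?_
    intro u hu h
    rcases hmem u hu with rfl | hu
    · rw [h2] at h; simp at h
    · rcases hfree u hu with rfl | h5
      · rw [h1] at h; simp at h
      · exact h5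
  · rw [hl_word]
    exact (congrArg (hs st) hos0).trans b1
  · refine par_word' (by omega) ?_ ?_
    · intro u hu
      rcases hmem u hu with rfl | hu
      · exact hK
      · exact hd u hu
    · intro os₁ os₂ h
      exact b2 os₁ os₂ (hos0.symm.trans h)
  · intro V hV _ hC
    have h5 : us = (fx l hl :: l₁) ++ (x :: l₂) := by rw [hus, hit]; rfl
    rw [h5, word_append] at hC
    have h6 := hC.rot
    rw [← word_append] at h6
    have h7 : (x :: l₂) ++ (fx l hl :: l₁) = us' := rfl
    rw [h7] at h6
    obtain ⟨h8, c, h9⟩ := h4 V hV (cl_iff.2 h6)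
    refine ⟨fun u hu => h8 u (hperm.mem_iff.2 (List.mem_cons_of_mem _ hu)), c, ?_,
      fun r' hr => by simp at hr, ?_⟩
    · exact h9 (fx l hl) (hperm.mem_iff.2 List.mem_cons_self) (by simp [fx])
    · intro u hu hk
      exact h9 u (hperm.mem_iff.2 (List.mem_cons_of_mem _ hu)) hk

/-- own link double, a port -/
theorem goal_some_some {r : T} {x : SU T ok} (hl : ok (true, l)) (hr : ok (true, r))
    (hn : (l :: (it.flatMap tks ++ [r])).Nodup)
    {fs : List (SU T ok)} (hx : it.filter od = x :: fs)
    (hfree : ∀ u ∈ it, u = x ∨ u.free) (ho : Odd fs.length) (hK : 1 ≤ K)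
    (hd : ∀ u ∈ it, u.dp ≤ K) (hyp : ∀ V ∈ F, ∀ u ∈ it, u.hyp V)
    (hfix : fix → ∀ V ∈ F, V l = V r)
    (hF : ∀ V ∈ F, ∀ V' ∈ F, sp V V' (l :: (it.flatMap tks ++ [r])) = 0) :
    Goal ok F l (some r) (it.flatMap tks) fix K (OneM l (some r) it) := by
  classical
  set us : List (SU T ok) := fx l hl :: (it ++ [fx r hr]) with hus
  have htk : us.flatMap tks = l :: (it.flatMap tks ++ [r]) := by
    rw [hus, List.flatMap_cons, List.flatMap_append]
    rfl
  obtain ⟨f, ms, hf⟩ : ∃ f ms, fs = f :: ms := by
    cases fs with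
    | nil => simp at ho
    | cons f ms => exact ⟨f, ms, rfl⟩
  have hms : Even ms.length := by
    rw [hf, List.length_cons] at ho
    rcases Nat.even_or_odd ms.length with h | h
    · exact h
    · exact absurd ho (Nat.not_odd_iff_even.2 h.add_one)
  obtain ⟨ms', z, hz⟩ : ∃ ms' z, f :: ms = ms' ++ [z] :=
    ⟨_, _, (List.dropLast_append_getLast (List.cons_ne_nil f ms)).symm⟩
  have hms' : Even ms'.length := by
    have := congrArg List.length hz
    simp only [List.length_cons, List.length_append, List.length_nil] at this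
    have h : ms.length = ms'.length := by omega
    rw [← h]; exact hms
  have hos : us.filter (isOdd kind) = fx l hl :: x :: f :: (ms ++ [fx r hr]) := by
    rw [hus, List.filter_cons_of_pos rfl, List.filter_append]
    have h1 : it.filter (isOdd kind) = x :: f :: ms := by rw [← hf]; exact hx
    rw [h1]
    rfl
  have hos' : it.filter (isOdd kind) = x :: (ms' ++ [z]) := by
    rw [← hz, ← hf]; exact hx
  have hmem : ∀ u ∈ us, u = fx l hl ∨ u = fx r hr ∨ u ∈ it := by
    intro u hu
    rcases List.mem_cons.1 hu with rfl | hu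
    · exact Or.inl rfl
    rcases List.mem_append.1 hu with hu | hu
    · exact Or.inr (Or.inr hu)
    · exact Or.inr (Or.inl (List.mem_singleton.1 hu))
  have hit : ∀ u ∈ it, u ∈ us := fun u hu =>
    List.mem_cons_of_mem _ (List.mem_append_left _ hu)
  have hnu : us.Nodup := SU.nodup (by rw [htk]; exact hn)
  have hnit : it.Nodup := by
    have h1 := (List.nodup_cons.1 hnu).2
    exact (List.nodup_append.1 h1).1
  have hE : ∀ V ∈ F, ∀ u ∈ us, ∀ b S S', SU.R u b V S S' → Does kind GC val u b V S S' :=
    fun V hV u hu b S S' h => does' (by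
      rcases hmem u hu with rfl | rfl | hu
      · exact trivial
      · exact trivial
      · exact hyp V hV u hu) h
  have hFs : ∀ V ∈ F, ∀ V' ∈ F, (∀ u ∈ us, u.GC V) → (∀ u ∈ us, u.GC V') →
      ((us.filter (isOdd kind)).map fun u => u.val V * u.val V').sum = 0 :=
    fun V hV V' hV' hg hg' => by
      rw [← sum_units hg hg', htk]
      exact hF V hV V' hV'
  -- the present mode
  have hpres : (∃ st : SU T ok → Bool, st (fx l hl) = true ∧ st x = true ∧ st f = false ∧
      st (fx r hr) = true ∧ Alt st ms ∧
      ∀ V ∈ F, (∃ S, Walk SU.R st V us S S ∧ Deep S) →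
        (∀ u ∈ us, GC u V) ∧ ∃ c, ∀ u ∈ us, kind u ≠ Kind.closed → val u V = c) →
      Goal ok F l (some r) (it.flatMap tks) fix K (OneM l (some r) it) := by
    rintro ⟨st, h1, h2, h2', h2'', h3, h4⟩
    obtain ⟨b1, b2⟩ := bd_d h1 h2 h2' h2'' h3
    refine ⟨false, word st us, fun h => by simp at h, ?_, ?_, ?_, ?_, ?_⟩
    · rw [word_snd, htk]; simp
    · refine ok_word ?_
      intro u hu h
      rcases hmem u hu with rfl | rfl | hu
      · rw [h1] at h; simp at h
      · rw [h2''] at h; simp at h
      · rcases hfree u hu with rfl | h5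
        · rw [h2] at h; simp at h
        · exact h5
    · rw [hl_word]
      exact (congrArg (hs st) hos).trans b1
    · refine par_word' (by omega) ?_ ?_
      · intro u hu
        rcases hmem u hu with rfl | rfl | hu
        · exact hK
        · exact hK
        · exact hd u hu
      · intro os₁ os₂ h
        exact b2 os₁ os₂ (hos.symm.trans h)
    · intro V hV _ hC
      obtain ⟨h5, c, h6⟩ := h4 V hV (cl_iff.2 hC)
      refine ⟨fun u hu => h5 u (hit u hu), c, ?_, ?_, ?_⟩
      · exact h6 (fx l hl) List.mem_cons_self (by simp [fx])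
      · intro r' hr'
        have h7 : r' = r := by simpa using hr'.symm
        rw [h7]
        exact h6 (fx r hr) (by simp [hus]) (by simp [fx])
      · intro u hu hk
        exact h6 u (hit u hu) hk
  by_cases hfx : fix
  · exact hpres (nodeX0 (R := SU.R) (kind := kind) (GC := GC) (val := val) hnu hos hms hE
      (hfix hfx) hFs)
  rcases nodeX (R := SU.R) (kind := kind) (GC := GC) (val := val) (us := us) (us' := it) hnu hnit
    hit hmem hos hms hos' hms' hz hE (fun V hV => ⟨trivial, trivial⟩) hFs with h | h
  · exact hpres h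
  · obtain ⟨st, h1, h2, h3, h4⟩ := h
    obtain ⟨b1, b2⟩ := bd_a h1 h2 h3
    refine ⟨true, word st it, fun _ => ⟨hfx, by simp⟩, ?_, ?_, ?_, ?_, ?_⟩
    · rw [word_snd]; simp
    · refine ok_word ?_
      intro u hu h
      rcases hfree u hu with rfl | h5
      · rw [h1] at h; simp at h
      · exact h5
    · rw [hl_word]
      exact (congrArg (hs st) hos').trans b1
    · refine par_word' (by omega) hd ?_
      intro os₁ os₂ h
      exact b2 os₁ os₂ (hos'.symm.trans h)
    · intro V hV hlr hC
      obtain ⟨h5, c, h6⟩ := h4 V hV (hlr rfl r rfl) (cl_iff.2 hC)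
      refine ⟨fun u hu => h5 u (hit u hu), c, ?_, ?_, ?_⟩
      · exact h6 (fx l hl) List.mem_cons_self (by simp [fx])
      · intro r' hr'
        have h7 : r' = r := by simpa using hr'.symm
        rw [h7]
        exact h6 (fx r hr) (by simp [hus]) (by simp [fx])
      · intro u hu hk
        exact h6 u (hit u hu) hk

/-- **the node with at most one uncancelled port** (its unit `x` is the first odd unit) -/
theorem goal_p1 {r : Option T} {x : Option (SU T ok)} {fs : List (SU T ok)} (hl : ok (true, l))
    (hr : ∀ r' ∈ r, ok (true, r')) (hn : (l :: (it.flatMap tks ++ r.toList)).Nodup)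
    (hx : it.filter od = x.toList ++ fs) (hfree : ∀ u ∈ it, u ∈ x ∨ u.free)
    (he : Even (1 + r.toList.length + (it.filter od).length)) (hK : 1 ≤ K)
    (hd : ∀ u ∈ it, u.dp ≤ K) (hyp : ∀ V ∈ F, ∀ u ∈ it, u.hyp V)
    (hfix : fix → x ≠ none → ∀ r' ∈ r, ∀ V ∈ F, V l = V r')
    (hF : ∀ V ∈ F, ∀ V' ∈ F, sp V V' (l :: (it.flatMap tks ++ r.toList)) = 0) :
    Goal ok F l r (it.flatMap tks) fix K (OneM l r it) := by
  have hnil : ∀ ts : List T, ts ++ (none : Option T).toList = ts := fun ts => by simp
  cases r with
  | none =>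
    simp only [hnil] at hn hF
    cases x with
    | none =>
      refine goal_none_none hl hn (fun u hu => (hfree u hu).resolve_left (by simp)) ?_ hK hd hyp hF
      simp only [Option.toList_none, List.length_nil, add_zero] at he
      rcases Nat.even_or_odd (it.filter od).length with h | h
      · exact absurd he (Nat.not_even_iff_odd.2 (by rw [add_comm]; exact h.add_one))
      · exact h
    | some x =>
      simp only [Option.toList_some, List.singleton_append] at hx
      refine goal_none_some hl hn hx ?_ ?_ hK hd hyp hF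
      · intro u hu
        rcases hfree u hu with h | h
        · left; simpa using h.symm
        · exact Or.inr h
      · rw [hx] at he
        simp only [Option.toList_none, List.length_nil, add_zero, List.length_cons] at he
        rcases Nat.even_or_odd fs.length with h | h
        · exact h
        · exact absurd he (Nat.not_even_iff_odd.2 (by
            have : 1 + (fs.length + 1) = fs.length + 2 := by omega
            rw [this]
            exact h.add_even even_two))
  | some r =>
    have hs : (some r).toList = [r] := rfl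
    rw [hs] at hn hF
    cases x with
    | none =>
      refine goal_some_none hl (hr r rfl) hn (fun u hu => (hfree u hu).resolve_left (by simp)) ?_
        hK hd hyp hF
      simp only [Option.toList_some, List.length_singleton] at he
      rcases Nat.even_or_odd (it.filter od).length with h | h
      · exact h
      · exact absurd he (Nat.not_even_iff_odd.2 (by
          have : 1 + 1 + (it.filter od).length = (it.filter od).length + 2 := by omega
          rw [this]
          exact h.add_even even_two))
    | some x =>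
      simp only [Option.toList_some, List.singleton_append] at hx
      refine goal_some_some hl (hr r rfl) hn hx ?_ ?_ hK hd hyp ?_ hF
      · intro u hu
        rcases hfree u hu with h | h
        · left; simpa using h.symm
        · exact Or.inr h
      · rw [hx] at he
        simp only [Option.toList_some, List.length_nil, List.length_cons] at he
        rcases Nat.even_or_odd fs.length with h | h
        · exact absurd he (Nat.not_even_iff_odd.2 (by
            have : 1 + (0 + 1) + (fs.length + 1) = fs.length + 1 + 2 := by omega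
            rw [this]
            exact h.add_one.add_even even_two))
        · exact h
      · intro h V hV
        exact hfix h (by simp) r rfl V hV

end

end Pool.Agent.MP42.U
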