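import Pool.Agent.MP42.U.Ht
import Pool.Agent.MP42.U.Glob2

/-!
# The conditions of a circle in the phases
-/

set_option autoImplicit false

namespace Pool.Agent.MP42.U

variable {T : Type*}

/-! ## runs with constant stack -/

/-- a run which starts with the constant stack ends with it, and `P` -/
def KC (V : T → B) (k : B) (w : List (Bool × T)) (P : Prop) : Prop :=
  ∀ S S' : ℕ → B, (∀ j, S j = k) → Run (lv V w) S S' → (∀ j, S' j = k) ∧ P

lemma KC.nil (V : T → B) (k : B) : KC V k ([] : List (Bool × T)) True := by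
  intro S S' h1 h2
  have h3 : S = S' := h2
  rw [← h3]; exact ⟨h1, trivial⟩

lemma KC.single {V : T → B} {k : B} {t : T} (b : Bool) (h : V t = k) : KC V k [(b, t)] True := by
  intro S S' h1 h2
  refine ⟨?_, trivial⟩
  cases b
  · have h3 : push (V t) S = S' := h2
    intro j
    rw [← h3]
    cases j with
    | zero => exact h
    | succ j => exact h1 j
  · have h3 : V t = S 0 ∧ tl S = S' := h2
    intro j
    rw [← h3.2]; exact h1 _

lemma KC.append {V : T → B} {k : B} {w w' : List (Bool × T)} {P Q : Prop} (h : KC V k w P)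
    (h' : KC V k w' Q) : KC V k (w ++ w') (P ∧ Q) := by
  intro S S' h1 h2
  rw [lv_append, run_append] at h2
  obtain ⟨S₁, h3, h4⟩ := h2
  obtain ⟨h5, h6⟩ := h S S₁ h1 h3
  obtain ⟨h7, h8⟩ := h' S₁ S' h5 h4
  exact ⟨h7, h6, h8⟩

lemma KC.mono {V : T → B} {k : B} {w : List (Bool × T)} {P Q : Prop} (h : KC V k w P)
    (hPQ : P → Q) : KC V k w Q := fun S S' h1 h2 => ⟨(h S S' h1 h2).1, hPQ (h S S' h1 h2).2⟩

lemma KC.up {V : T → B} {k : B} {m : List (T × T)} (h : ∀ p ∈ m, V p.1 = V p.2) :
    KC V k (up m) (∀ p ∈ m, V p.1 = k) := by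
  intro S S' h1 h2
  obtain ⟨h3, h4⟩ := run_up h h2
  exact ⟨by rw [h3]; exact h1, fun p hp => by rw [(h4 p hp).1, h1]⟩

lemma KC.dn {V : T → B} {k : B} {m : List (T × T)} (h : ∀ p ∈ m, V p.1 = V p.2) :
    KC V k (dn m) (∀ p ∈ m, V p.1 = k) := by
  intro S S' h1 h2
  obtain ⟨h3, h4⟩ := run_dn h h2
  exact ⟨by rw [h3]; exact h1, fun p hp => by rw [(h4 p hp).1, h1]⟩

lemma KC.brs {V : T → B} {k : B} {st : BU T → Bool} {us : List (BU T)}
    (h : ∀ u ∈ us, isBr u) : KC V k (BU.word st us) True := by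
  obtain ⟨P, hP⟩ := run_brs (V := V) (st := st) h
  intro S S' h1 h2
  rw [((hP _ _).1 h2).2]
  exact ⟨h1, trivial⟩

lemma KC.rd {V : T → B} {k : B} {m : List (Itm T)}
    (hl : ∀ p ∈ m.flatMap Itm.lap, V p.1 = V p.2)
    (hr : ∀ p ∈ m.flatMap Itm.rep, V p.1 = k ∧ V p.2 = k) :
    KC V k (m.flatMap Itm.rd) (∀ p ∈ m.flatMap Itm.lap, V p.1 = k) := by
  induction m with
  | nil => exact (KC.nil V k).mono fun _ => by simp
  | cons i m ih =>
    have h1 := ih (fun p hp => hl p (by
      rw [List.flatMap_cons]; exact List.mem_append_right _ hp)) (fun p hp => hr p (by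
      rw [List.flatMap_cons]; exact List.mem_append_right _ hp))
    rw [List.flatMap_cons]
    cases i with
    | re a b =>
      obtain ⟨h2, h3⟩ := hr (a, b) (by simp [Itm.rep])
      exact ((KC.up (V := V) (k := k) (m := [(a, b)]) (by simp [h2, h3])).append h1).mono
        fun h => h.2
    | la a b =>
      have h2 := hl (a, b) (by simp [Itm.lap])
      refine ((KC.up (V := V) (k := k) (m := [(a, b)]) (by simp [h2])).append h1).mono ?_
      rintro ⟨h3, h4⟩ p hp
      rw [List.flatMap_cons] at hp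
      rcases List.mem_append.1 hp with hp | hp
      · simp only [Itm.lap, List.mem_cons, List.not_mem_nil, or_false] at hp
        rw [hp]; exact h3 (a, b) (by simp)
      · exact h4 p hp
    | br t x m' =>
      have h2 : KC V k ((Itm.br t x m').rd) True := by
        intro S S' h3 h4
        rw [(run_br_iff.1 h4).2]
        exact ⟨h3, trivial⟩
      exact (h2.append h1).mono fun h => h.2

lemma mem_pairs {m : List (Itm T)} {p : T × T} (h : p ∈ m.flatMap Itm.pairs) :
    p ∈ m.flatMap Itm.lap ∨ p ∈ m.flatMap Itm.rep := by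
  obtain ⟨i, hi, hp⟩ := List.mem_flatMap.1 h
  cases i with
  | re a b => exact Or.inr (List.mem_flatMap.2 ⟨_, hi, hp⟩)
  | la a b => exact Or.inl (List.mem_flatMap.2 ⟨_, hi, hp⟩)
  | br t x m' => simp [Itm.pairs] at hp

lemma lap_pairs {m : List (Itm T)} {p : T × T} (h : p ∈ m.flatMap Itm.lap) :
    p ∈ m.flatMap Itm.pairs := by
  obtain ⟨i, hi, hp⟩ := List.mem_flatMap.1 h
  cases i with
  | re a b => simp [Itm.lap] at hp
  | la a b => exact List.mem_flatMap.2 ⟨_, hi, hp⟩
  | br t x m' => simp [Itm.lap] at hp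

lemma KC.group {V : T → B} {k : B} {pr : T → Bool} (b : Bool) {g : List (Itm T) × T}
    (hl : ∀ p ∈ g.1.flatMap Itm.lap, V p.1 = V p.2)
    (hr : ∀ p ∈ g.1.flatMap Itm.rep, V p.1 = k ∧ V p.2 = k) (ht : V g.2 = k) :
    KC V k (gfin pr b g) (∀ p ∈ g.1.flatMap Itm.lap, V p.1 = k) := by
  have hsub : ∀ f : Itm T → List (T × T), ∀ p, p ∈ g.1.flatMap f ↔
      p ∈ (hd1 pr g.1).flatMap f ∨ p ∈ (hd2 pr g.1).flatMap f := by
    intro f p
    rw [← List.mem_append, ← List.flatMap_append, hd_append]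
  cases b
  · have e1 : gfin pr false g = BU.word (fun _ => true) (g.1.flatMap Itm.brp) ++
        (U.up ((hd1 pr g.1).flatMap Itm.lap) ++ ([(false, g.2)] ++
          (U.dn ((hd2 pr g.1).flatMap Itm.pairs) ++ U.dn ((hd1 pr g.1).flatMap Itm.rep)))) := rfl
    rw [e1]
    have h1 := KC.up (V := V) (k := k) (m := (hd1 pr g.1).flatMap Itm.lap)
      (fun p hp => hl p ((hsub _ p).2 (Or.inl hp)))
    have h2 := KC.dn (V := V) (k := k) (m := (hd2 pr g.1).flatMap Itm.pairs) (by
      intro p hp
      rcases mem_pairs hp with h | h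
      · exact hl p ((hsub _ p).2 (Or.inr h))
      · obtain ⟨h3, h4⟩ := hr p ((hsub _ p).2 (Or.inr h))
        rw [h3, h4])
    have h3 := KC.dn (V := V) (k := k) (m := (hd1 pr g.1).flatMap Itm.rep) (by
      intro p hp
      obtain ⟨h3, h4⟩ := hr p ((hsub _ p).2 (Or.inl hp))
      rw [h3, h4])
    refine ((KC.brs isBr_brp).append (h1.append ((KC.single false ht).append
      (h2.append h3)))).mono ?_
    rintro ⟨-, h4, -, h5, -⟩ p hp
    rcases (hsub _ p).1 hp with h | h
    · exact h4 p h
    · exact h5 p (lap_pairs h)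
  · have e1 : gfin pr true g = g.1.flatMap Itm.rd ++ [(true, g.2)] := rfl
    rw [e1]
    exact ((KC.rd hl hr).append (KC.single true ht)).mono fun h => h.1

/-! ## what a unit does, without the children of the brackets -/

namespace BU

/-- the children outside brackets -/
def oev : BU T → List (T × T)
  | br _ _ _ => []
  | u => u.evs

lemma does0 {V : T → B} {u : BU T} (h : ∀ p ∈ u.oev, V p.1 = V p.2) {b : Bool} {S S' : ℕ → B}
    (hR : u.R b V S S') : Does kind (fun _ _ => True) val u b V S S' := by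
  cases u with
  | br t x m =>
    have h1 := run_br_iff.1 hR
    exact ⟨trivial, fun h => by simp [kind] at h, fun h => by simp [kind] at h, fun _ => h1.2⟩
  | fr t => exact ⟨trivial, (does (by simpa [oev] using h) hR).odd,
      (does (by simpa [oev] using h) hR).even, (does (by simpa [oev] using h) hR).closed⟩
  | fx t => exact ⟨trivial, (does (by simpa [oev] using h) hR).odd,
      (does (by simpa [oev] using h) hR).even, (does (by simpa [oev] using h) hR).closed⟩
  | ev a c => exact ⟨trivial, (does h hR).odd, (does h hR).even, (does h hR).closed⟩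
  | gu m t => exact ⟨trivial, (does h hR).odd, (does h hR).even, (does h hR).closed⟩
  | gv t m => exact ⟨trivial, (does h hR).odd, (does h hR).even, (does h hR).closed⟩

/-- if all values are `k` then the stack is `k` -/
lemma const_stack {V : T → B} {k : B} {st : BU T → Bool} {us : List (BU T)}
    (h2 : hs st (us.filter od) = 2) (hev : ∀ u ∈ us, ∀ p ∈ u.oev, V p.1 = V p.2)
    (hod : ∀ u ∈ us, u.kind = Kind.odd → u.val V = k) {S : ℕ → B}
    (hS : Run (lv V (word st us)) S S) : ∀ j, S j = k := by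
  have h3 := walk_odd (R := R) (kind := kind) (GC := fun _ _ => True) (val := val) (st := st)
    (V := V) (us := us) (fun u hu b S S' h => does0 (hev u hu) h) (walk_iff.2 hS)
  refine run_const_two (w := (us.filter (isOdd kind)).map fun u => (st u, val u V)) ?_ ?_ h3.1
  · intro p hp
    obtain ⟨u, hu, rfl⟩ := List.mem_map.1 hp
    obtain ⟨h4, h5⟩ := List.mem_filter.1 hu
    exact hod u h4 (od_iff.1 h5)
  · rw [← h2]
    unfold ht hs
    rw [List.map_map]
    rfl

end BU

/-! ## the structure of a circle -/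

namespace Circ

/-- well formed -/
structure WF (c : Circ T) : Prop where
  pl : ∀ l r us, c = pl l r us → ∀ u ∈ us, u.plain
  gp : ∀ l us t g r, c = gp l us t g r → ∀ u ∈ us, u.plain
  fu : ∀ A, c = fu A → ∀ u ∈ A.e1, u.plain ∧ u.kind ≠ Kind.odd

/-- the letters of the ports and own tokens, total height and initial heights -/
structure CC (c : Circ T) (s : T → Bool) : Prop where
  fu : ∀ A, c = Circ.fu A → s A.l = true ∧ s A.x = true ∧ s A.X = true
  gp : ∀ l us t g r, c = Circ.gp l us t g r → s t = !(s r)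
  tot : hs (BU.sg s) (c.pus.filter BU.od) = 2
  bd : ∀ os₁ os₂, c.pus.filter BU.od = os₁ ++ os₂ →
    0 ≤ hs (BU.sg s) os₁ ∧ hs (BU.sg s) os₁ ≤ 3

/-- the tokens outside the brackets and outside the late children, fused circle -/
def opn : Circ T → List T
  | pl _ _ _ => []
  | gp _ _ _ _ _ => []
  | fu A => A.l :: A.x :: A.X :: ((A.e1.flatMap fun u => ptk u.oev) ++
      ((A.gs.flatMap fun g => g.2 :: ptk (g.1.flatMap Itm.rep)) ++ ptk (A.tl.flatMap Itm.rep)))

/-- condition during the own phase -/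
def Np (c : Circ T) (s : T → Bool) (V : T → B) : Prop :=
  Cl V (c.pre s) ∧ (∀ p ∈ c.late, V p.1 = V p.2) ∧
    ∀ k, (∀ t ∈ c.opn, V t = k) → ∀ p ∈ c.late, V p.1 = k

/-- the tokens -/
lemma tks_perm (c : Circ T) : c.tks.Perm (c.pus.flatMap BU.tks ++ ptk c.late) := by
  classical
  rw [List.perm_iff_count]
  intro a
  cases c with
  | pl l r us => simp [tks, pus, late]
  | gp l us t g r =>
    have e3 : [BU.gv t (g.flatMap Itm.pairs), BU.fr r].flatMap BU.tks =
        (t :: ptk (g.flatMap Itm.pairs)) ++ [r] := rfl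
    simp only [tks, pus, late, List.flatMap_append, e3, List.count_append, List.count_cons,
      List.count_nil, cnt_pairs, cnt_items, ptk_nil]
    omega
  | fu A =>
    have e1 : ∀ gs : List (List (Itm T) × T),
        (gs.flatMap fun g => g.1.flatMap Itm.tks ++ [g.2]).count a =
        ((gs.flatMap gpre).flatMap BU.tks).count a +
          (ptk (gs.flatMap fun g => g.1.flatMap Itm.lap)).count a := by
      intro gs
      induction gs with
      | nil => simp
      | cons g gs ih =>
        have e2 : (gpre g).flatMap BU.tks = (g.1.flatMap Itm.brp).flatMap BU.tks ++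
            (ptk (g.1.flatMap Itm.rep) ++ [g.2]) := by
          unfold gpre
          rw [List.flatMap_append]
          simp [BU.tks]
        simp only [List.flatMap_cons, List.flatMap_append, e2, List.count_append, ih, ptk_append,
          cnt_items]
        omega
    have e3 : ∀ m : List (T × T), ((m.map fun p => BU.ev p.1 p.2).flatMap BU.tks) = ptk m := by
      intro m
      induction m with
      | nil => rfl
      | cons p m ih => rw [List.map_cons, List.flatMap_cons, ih]; rfl
    have e4 : (Circ.fu A).pus.flatMap BU.tks = A.l :: A.x :: (A.e1.flatMap BU.tks ++ (A.X ::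
        ((A.gs.flatMap gpre).flatMap BU.tks ++ ((A.tl.flatMap Itm.brp).flatMap BU.tks ++
          ptk (A.tl.flatMap Itm.rep))))) := by
      unfold pus
      simp only [List.flatMap_cons, List.flatMap_append, e3]
      simp [BU.tks]
    have e5 : (Circ.fu A).tks = A.l :: A.x :: (A.e1.flatMap BU.tks ++ (A.X ::
      ((A.gs.flatMap fun g => g.1.flatMap Itm.tks ++ [g.2]) ++ A.tl.flatMap Itm.tks))) := rfl
    have e6 : (Circ.fu A).late = (A.gs.flatMap fun g => g.1.flatMap Itm.lap) ++
        A.tl.flatMap Itm.lap := rfl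
    rw [e4, e5, e6]
    simp only [List.count_cons, List.count_append, e1, cnt_items, ptk_append]
    omega

lemma parNp {c : Circ T} {s : T → Bool} {V V' : T → B} (hC : c.CC s) (h : c.Np s V)
    (h' : c.Np s V') : sp V V' c.tks = 0 := by
  rw [sp_perm c.tks_perm, sp_append, sp_ptk h.2.1 h'.2.1, add_zero]
  exact BU.word_par hC.tot h.1 h'.1

lemma hl_gpre (s : T → Bool) (g : List (Itm T) × T) :
    hl (BU.word (BU.sg s) (gpre g)) = if s g.2 then 1 else -1 := by
  have e0 : BU.word (BU.sg s) (gpre g) = BU.word (BU.sg s) (g.1.flatMap Itm.brp) ++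
      (BU.gu (g.1.flatMap Itm.rep) g.2).lts (s g.2) := by
    unfold gpre
    rw [BU.word_append, BU.word_cons, BU.word_nil, List.append_nil]
    rfl
  rw [e0, hl_append, hl_brs, BU.hl_lts]
  simp [BU.kind]

lemma hl_fin {pr : T → Bool} {c : Circ T} {s : T → Bool} (hC : c.CC s) : hl (c.fin pr s) = 2 := by
  cases c with
  | pl l r us =>
    have h1 : (Circ.pl l r us).fin pr s = BU.word (BU.sg s) us := rfl
    rw [h1, BU.hl_word]
    exact hC.tot
  | gp l us t g r =>
    have h1 : (Circ.gp l us t g r).fin pr s = BU.word (BU.sg s) (Circ.gp l us t g r).pus := rfl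
    rw [h1, BU.hl_word]
    exact hC.tot
  | fu A =>
    obtain ⟨h1, h2, h3⟩ := hC.fu A rfl
    have h4 := hC.tot
    rw [← BU.hl_word] at h4
    have e2 : BU.word (BU.sg s) (Circ.fu A).pus =
        (true, A.l) :: (true, A.x) :: (BU.word (BU.sg s) A.e1 ++
        ((true, A.X) :: (BU.word (BU.sg s) (A.gs.flatMap gpre) ++
          (BU.word (BU.sg s) (A.tl.flatMap Itm.brp) ++ up (A.tl.flatMap Itm.rep))))) := by
      unfold Circ.pus
      simp only [BU.word_cons, BU.word_append, word_evs, BU.word_nil]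
      simp [BU.lts, BU.sg, BU.main, h1, h2, h3]
    have e1 : (Circ.fu A).fin pr s = (true, A.l) :: (true, A.x) :: (BU.word (BU.sg s) A.e1 ++
        ((true, A.X) :: ((A.gs.flatMap fun g => gfin pr (s g.2) g) ++ A.tl.flatMap Itm.rd))) := rfl
    have e3 : ∀ gs : List (List (Itm T) × T), hl (gs.flatMap fun g => gfin pr (s g.2) g) =
        hl (BU.word (BU.sg s) (gs.flatMap gpre)) := by
      intro gs
      induction gs with
      | nil => rfl
      | cons g gs ih =>
        rw [List.flatMap_cons, List.flatMap_cons, BU.word_append, hl_append, hl_append, ih,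
          hl_gfin, hl_gpre]
    rw [e2] at h4
    rw [e1]
    simp only [hl_cons, hl_append, hl_brs, hl_up, hl_rd, e3] at h4 ⊢
    linarith

lemma parNf {pr : T → Bool} {c : Circ T} {s : T → Bool} {V V' : T → B} (hw : c.WF) (hC : c.CC s)
    (h : Cl V (c.fin pr s)) (h' : Cl V' (c.fin pr s)) : sp V V' c.tks = 0 := by
  have h1 := Cl.par (hl_fin hC) h h'
  rwa [sp_perm (Circ.fin_perm pr s hw.pl (fun A hA u hu => (hw.fu A hA u hu).1))] at h1

/-- **end of a phase** -/
theorem switch {pr : T → Bool} {c : Circ T} {s : T → Bool} {V : T → B} (hw : c.WF) (hC : c.CC s)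
    (hl : ∀ p ∈ c.late, V p.1 = V p.2) (h : Cl V (c.fin pr s)) : c.Np s V := by
  have hle := Circ.le_fin (pr := pr) (s := s) (V := V) hC.fu hl
  refine ⟨hle.cl h, hl, ?_⟩
  intro k hk
  cases c with
  | pl l r us => intro p hp; simp [late] at hp
  | gp l us t g r => intro p hp; simp [late] at hp
  | fu A =>
    obtain ⟨S, hS, -⟩ := h
    have hpre := hle _ _ hS
    have hmem : ∀ t, t ∈ (Circ.fu A).opn ↔ t = A.l ∨ t = A.x ∨ t = A.X ∨
        (∃ u ∈ A.e1, t ∈ ptk u.oev) ∨ (∃ g ∈ A.gs, t = g.2 ∨ t ∈ ptk (g.1.flatMap Itm.rep)) ∨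
        t ∈ ptk (A.tl.flatMap Itm.rep) := by
      intro t
      simp only [opn, List.mem_cons, List.mem_append, List.mem_flatMap]
    have hptk : ∀ (m : List (T × T)) (p : T × T), p ∈ m → p.1 ∈ ptk m ∧ p.2 ∈ ptk m := by
      intro m p hp
      exact ⟨List.mem_flatMap.2 ⟨p, hp, by simp⟩, List.mem_flatMap.2 ⟨p, hp, by simp⟩⟩
    have hkl : V A.l = k := hk _ ((hmem _).2 (Or.inl rfl))
    have hkx : V A.x = k := hk _ ((hmem _).2 (Or.inr (Or.inl rfl)))
    have hkX : V A.X = k := hk _ ((hmem _).2 (Or.inr (Or.inr (Or.inl rfl))))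
    have hke : ∀ u ∈ A.e1, ∀ p ∈ u.oev, V p.1 = k ∧ V p.2 = k := by
      intro u hu p hp
      obtain ⟨h1, h2⟩ := hptk _ p hp
      exact ⟨hk _ ((hmem _).2 (Or.inr (Or.inr (Or.inr (Or.inl ⟨u, hu, h1⟩))))),
        hk _ ((hmem _).2 (Or.inr (Or.inr (Or.inr (Or.inl ⟨u, hu, h2⟩)))))⟩
    have hkg : ∀ g ∈ A.gs, V g.2 = k ∧ ∀ p ∈ g.1.flatMap Itm.rep, V p.1 = k ∧ V p.2 = k := by
      intro g hg
      refine ⟨hk _ ((hmem _).2 (Or.inr (Or.inr (Or.inr (Or.inr (Or.inl ⟨g, hg, Or.inl rfl⟩)))))),
        ?_⟩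
      intro p hp
      obtain ⟨h1, h2⟩ := hptk _ p hp
      exact ⟨hk _ ((hmem _).2 (Or.inr (Or.inr (Or.inr (Or.inr (Or.inl ⟨g, hg, Or.inr h1⟩)))))),
        hk _ ((hmem _).2 (Or.inr (Or.inr (Or.inr (Or.inr (Or.inl ⟨g, hg, Or.inr h2⟩))))))⟩
    have hkt : ∀ p ∈ A.tl.flatMap Itm.rep, V p.1 = k ∧ V p.2 = k := by
      intro p hp
      obtain ⟨h1, h2⟩ := hptk _ p hp
      exact ⟨hk _ ((hmem _).2 (Or.inr (Or.inr (Or.inr (Or.inr (Or.inr h1)))))),
        hk _ ((hmem _).2 (Or.inr (Or.inr (Or.inr (Or.inr (Or.inr h2))))))⟩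
    -- the units
    have hu : ∀ u ∈ (Circ.fu A).pus, (∀ p ∈ u.oev, V p.1 = V p.2) ∧
        (u.kind = Kind.odd → u.val V = k) := by
      intro u hu
      simp only [pus, List.mem_cons, List.mem_append, List.mem_flatMap, List.not_mem_nil,
        or_false, List.mem_map] at hu
      rcases hu with rfl | (rfl | hu | rfl) | ⟨g, hg, hu⟩ | ⟨i, hi, hu⟩ | ⟨p, hp, rfl⟩
      · exact ⟨by simp [BU.oev, BU.evs], fun _ => hkl⟩
      · exact ⟨by simp [BU.oev, BU.evs], fun _ => hkx⟩
      · refine ⟨fun p hp => ?_, fun h => absurd h (hw.fu A rfl u hu).2⟩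
        rw [(hke u hu p hp).1, (hke u hu p hp).2]
      · exact ⟨by simp [BU.oev, BU.evs], fun _ => hkX⟩
      · unfold gpre at hu
        rcases List.mem_append.1 hu with hu | hu
        · have h1 := isBr_brp u hu
          cases u <;> simp [isBr, BU.oev, BU.kind] at h1 ⊢
        · simp only [List.mem_cons, List.not_mem_nil, or_false] at hu
          rw [hu]
          refine ⟨fun p hp => ?_, fun _ => (hkg g hg).1⟩
          have h2 := (hkg g hg).2 p hp
          rw [h2.1, h2.2]
      · have h1 := isBr_brp u (List.mem_flatMap.2 ⟨i, hi, hu⟩)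
        cases u <;> simp [isBr, BU.oev, BU.kind] at h1 ⊢
      · refine ⟨fun q hq => ?_, fun h => by simp [BU.kind] at h⟩
        simp only [BU.oev, BU.evs, List.mem_cons, List.not_mem_nil, or_false] at hq
        obtain ⟨h1, h2⟩ := hkt p (List.mem_flatMap.2 hp)
        rw [hq, h1, h2]
    have hSk := BU.const_stack hC.tot (fun u h => (hu u h).1) (fun u h => (hu u h).2) hpre
    -- the late children
    have e1 : (Circ.fu A).fin pr s = [(true, A.l)] ++ ([(true, A.x)] ++
        (BU.word (BU.sg s) A.e1 ++ ([(true, A.X)] ++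
        ((A.gs.flatMap fun g => gfin pr (s g.2) g) ++ A.tl.flatMap Itm.rd)))) := rfl
    have hlg : ∀ g ∈ A.gs, ∀ p ∈ g.1.flatMap Itm.lap, V p.1 = V p.2 := fun g hg p hp =>
      hl p (List.mem_append_left _ (List.mem_flatMap.2 ⟨g, hg, hp⟩))
    have k1 : KC V k (BU.word (BU.sg s) A.e1) True := by
      have h1 : ∀ u ∈ A.e1, (u.plain ∧ u.kind ≠ Kind.odd) ∧
          ∀ p ∈ u.oev, V p.1 = k ∧ V p.2 = k := fun u hu => ⟨hw.fu A rfl u hu, hke u hu⟩
      clear hmem hke hu hpre hS e1 hle
      generalize A.e1 = us at h1 ⊢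
      induction us with
      | nil => exact KC.nil V k
      | cons u us ih =>
        rw [BU.word_cons]
        refine (KC.append (P := True) ?_ (ih fun w hw => h1 w (List.mem_cons_of_mem _ hw))).mono
          fun _ => trivial
        obtain ⟨⟨h2, h3⟩, h4⟩ := h1 u List.mem_cons_self
        intro S₀ S₁ h5 h6
        have h7 : S₁ = S₀ := by
          have h8 := BU.does0 (u := u) (b := BU.sg s u) (V := V) (fun p hp => by
            rw [(h4 p hp).1, (h4 p hp).2]) h6
          rcases hk' : u.kind with _ | _ | _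
          · exact absurd hk' h3
          · exact (h8.even hk').1
          · exact h8.closed hk'
        rw [h7]; exact ⟨h5, trivial⟩
    have k2 : KC V k (A.gs.flatMap fun g => gfin pr (s g.2) g)
        (∀ g ∈ A.gs, ∀ p ∈ g.1.flatMap Itm.lap, V p.1 = k) := by
      have h1 : ∀ g ∈ A.gs, (∀ p ∈ g.1.flatMap Itm.lap, V p.1 = V p.2) ∧ V g.2 = k ∧
          ∀ p ∈ g.1.flatMap Itm.rep, V p.1 = k ∧ V p.2 = k :=
        fun g hg => ⟨hlg g hg, hkg g hg⟩
      clear hmem hke hu hpre hS e1 hkg hlg hle hl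
      generalize A.gs = gs at h1 ⊢
      induction gs with
      | nil => exact (KC.nil V k).mono fun _ => by simp
      | cons g gs ih =>
        rw [List.flatMap_cons]
        obtain ⟨h2, h3, h4⟩ := h1 g List.mem_cons_self
        refine ((KC.group (s g.2) h2 h4 h3).append
          (ih fun g' hg' => h1 g' (List.mem_cons_of_mem _ hg'))).mono ?_
        rintro ⟨h5, h6⟩ g' hg'
        rcases List.mem_cons.1 hg' with rfl | hg'
        · exact h5
        · exact h6 g' hg'
    have k3 := KC.rd (V := V) (k := k) (m := A.tl)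
      (fun p hp => hl p (List.mem_append_right _ hp)) hkt
    have k4 := (KC.single (V := V) (k := k) true hkl).append ((KC.single true hkx).append
      (k1.append ((KC.single true hkX).append (k2.append k3))))
    rw [e1] at hS
    obtain ⟨-, -, -, -, -, h5, h6⟩ := k4 S S hSk hS
    intro p hp
    rcases List.mem_append.1 hp with hp | hp
    · obtain ⟨g, hg, hp⟩ := List.mem_flatMap.1 hp
      exact h5 g hg p hp
    · exact h6 p hp

end Circ

end Pool.Agent.MP42.U
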