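import Pool.Agent.MP42.U.RLk
import Pool.Agent.MP42.U.Bri3

/-!
# The solution of the top level

`RD.RE.exists_sol`: the solution for any `R : RD C α` with a root edge.
`Inst.exists_RSol`: the abstract solution of the top level.
-/

set_option autoImplicit false
set_option linter.unusedSectionVars false

namespace Pool.Agent.MP42.U

open Pool.Agent.MP42.GZ

lemma hl_mp {T T' : Type*} (φ : T → T') (w : List (Bool × T)) :
    hl (w.map fun q => (q.1, φ q.2)) = hl w := by
  unfold hl
  rw [List.map_map]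
  rfl

lemma Cl.of_mp {T T' : Type*} {φ : T → T'} {V : T' → B} {w : List (Bool × T)}
    (h : Cl V (w.map fun q => (q.1, φ q.2))) : Cl (fun t => V (φ t)) w := by
  obtain ⟨S, h1, h2⟩ := h
  refine ⟨S, ?_, h2⟩
  unfold lv at h1 ⊢
  rw [List.map_map] at h1
  exact h1

lemma Par.mp {T T' : Type*} {φ : T → T'} {d e : ℤ} {w : List (Bool × T)} (h : Par d e w) :
    Par d e (w.map fun q => (q.1, φ q.2)) := by
  intro a b hab
  obtain ⟨a', b', h4, h5, h6⟩ := List.map_eq_append_iff.1 hab
  have h7 := h a' b' h4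
  rw [← h5, hl_mp]
  exact h7

namespace RD

variable {C α : Type*}

/-- the last unit -/
lemma last_unit {I : Type*} {od po : I → Prop} {us : List (It I)} {l : List I} {a : I}
    (hg : ∀ u ∈ us, u.Good od po) (h : us.flatMap It.fl = l ++ [a]) (ha : ¬ po a) :
    ∃ us0, us = us0 ++ [It.ev a] ∨ us = us0 ++ [It.fr a] := by
  rcases List.eq_nil_or_concat us with rfl | ⟨us0, u, rfl⟩
  · exfalso
    simp at h
  · refine ⟨us0, ?_⟩
    rw [List.concat_eq_append] at h hg ⊢
    rw [List.flatMap_append, List.flatMap_singleton] at h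
    have hu := hg u (by simp)
    cases u with
    | ev i =>
      left
      have h1 := List.append_inj' h (by simp [It.fl])
      have h2 : i = a := by simpa [It.fl] using h1.2
      rw [h2]
    | fr i =>
      right
      have h1 := List.append_inj' h (by simp [It.fl])
      have h2 : i = a := by simpa [It.fl] using h1.2
      rw [h2]
    | br f m x =>
      exfalso
      have h0 : us0.flatMap It.fl ++ (f :: m) ++ [x] = l ++ [a] := by
        rw [← h]
        simp [It.fl]
      have h1 := List.append_inj' h0 (by simp)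
      have h2 : x = a := by simpa using h1.2
      exact ha (h2 ▸ hu.2.2.2)

/-- **a root edge** -/
theorem exists_RE {R : RD C α} {g1 : C} {l : List (α ⊕ C)} (hd : R.dbl R.r) (hp : R.p R.r = none)
    (hl : R.rd R.r = l ++ [Sum.inr g1]) (hpo : ¬ R.Po (Sum.inr g1))
    (hx : R.dbl g1 → R.xN g1 = none) : ∃ us0, RE R g1 us0 := by
  have hxr := (R.root hd).1
  have h1 : (R.us R.r).flatMap It.fl = l ++ [Sum.inr g1] := by
    rw [← hl]
    unfold rd lst
    rw [hxr, hp]
    rfl
  obtain ⟨us0, h2⟩ := last_unit (usg R.r) h1 hpo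
  refine ⟨us0, hd, hp, ?_, hx⟩
  rcases h2 with h2 | h2
  · left
    refine ⟨?_, h2⟩
    have h3 : ¬ Od' R.dbl (Sum.inr g1 : α ⊕ C) :=
      usg R.r (It.ev (Sum.inr g1)) (by rw [h2]; simp)
    exact not_not.1 h3
  · right
    refine ⟨?_, h2⟩
    have h3 := usg R.r (It.fr (Sum.inr g1)) (by rw [h2]; simp)
    exact h3.1

namespace RE

variable {R : RD C α} {g1 : C} {us0 : List (It (α ⊕ C))}

/-- **the solution of the top level** -/
theorem exists_sol [Fintype C] (h : RE R g1 us0) (hgx : ∀ z, R.grp z → R.xN z = none)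
    (hrt : ∀ z, z ≠ R.r → R.real z → R.tw z = false) (hgr : ¬ R.grp R.r)
    {sw : C → Prop} (hsw : ∀ z, sw z ↔ z ≠ R.r ∧ R.tw z = true) :
    ∃ (lk : C → LS) (lt : α → Bool), (∀ q ∈ R.L, R.Po (Sum.inl q) → lt q = true) ∧
      (∀ z q, R.xN z = some q → lt q = true) ∧ lk R.r = LS.drop ∧
      (lk g1 = LS.near ∨ lk g1 = LS.nn) ∧
      (∀ c, lk c = LS.nn → c ≠ R.r ∧ (c ≠ g1 → R.real c)) ∧
      (∀ z, (z = R.r → hl (wd R.grp sw lk lt R.rd z) = -2) ∧
        (z ≠ R.r → hl (wd R.grp sw lk lt R.rd z) = 2)) ∧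
      (∀ V : α ⊕ (C × ℕ) → B, (∀ q ∈ R.L, V (Sum.inl (R.mate q)) = V (Sum.inl q)) →
        (∀ c, R.grp c → lk c = LS.drop → c ≠ R.r → V (Sum.inr (c, 0)) = V (Sum.inr (c, 1))) →
        (∀ z, Cl V (wd R.grp sw lk lt R.rd z)) →
        ∃ k, ∀ z, ∀ q ∈ wd R.grp sw lk lt R.rd z, V q.2 = k) ∧
      ∀ z u v, wd R.grp sw lk lt R.rd z = u ++ v → -6 ≤ hl u ∧ hl u ≤ 6 := by
  classical
  obtain ⟨s, pr, D, hS, hV⟩ := h.toRD.exists_sl0
  have hr : ¬ D R.r := nD_r hS
  have hrd : ∀ q ∈ R.L, (Sum.inl q : α ⊕ C) ∈ R.rd (R.pt q) := by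
    intro q hq
    exact mem_rdz.2 ⟨fun q' h1 => by rw [← Sum.inl_injective h1]; exact hq, rfl, by simp, by simp⟩
  have hact : ∀ z, z ≠ R.r → ∃ u v,
      ((h.toRD.cir z).act pr s).map (fun q => (q.1, h.phi s pr D q.2.1)) = u ++ v ∧
      wd R.grp sw (h.lk s pr D) (h.lt s pr) R.rd z = v ++ u ∧ v.length ≤ 1 :=
    fun z hz => act_ne hS hgx hrt hsw hz
  have hactr := act_r hS hgr (sw := sw)
  refine ⟨h.lk s pr D, h.lt s pr, ?_, ?_, lk_r, ?_, ?_, ?_, ?_, ?_⟩
  · -- ports
    intro q hq hpo
    have hq' : some q ∈ h.toRD.L := mem_L'_some.2 hq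
    by_cases hz : R.pt q = R.r
    · have h1 := hrd q hq
      rw [hz] at h1
      have h2 : (Sum.inl q : α ⊕ C) ∈ us0.flatMap It.fl := by
        rw [h.rd_r] at h1
        simpa using h1
      obtain ⟨u, hu, h3⟩ := List.mem_flatMap.1 h2
      have hg := usg R.r u (h.us_mem hu)
      have h4 : ∃ f m, u = It.br f m (Sum.inl q) := by
        cases u with
        | ev i =>
          have : Sum.inl q = i := by simpa [It.fl] using h3
          rw [← this] at hg
          exact absurd trivial hg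
        | fr i =>
          have : Sum.inl q = i := by simpa [It.fl] using h3
          rw [← this] at hg
          exact absurd hpo hg.2
        | br f m x =>
          have h5 : Sum.inl q = f ∨ Sum.inl q ∈ m ∨ Sum.inl q = x := by simpa [It.fl] using h3
          rcases h5 with h5 | h5 | h5
          · rw [← h5] at hg
            exact absurd hpo hg.2.1
          · exact absurd trivial (hg.2.2.1 _ h5)
          · exact ⟨f, m, by rw [h5]⟩
      obtain ⟨f, m, rfl⟩ := h4
      have h6 := hS.lo (t := Tok.pt (some q)) hq' (hS.pr_pt hr hq')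
      have h7 : h.toRD.ndr (Tok.pt (some q) : Tok C (Option α)) = R.r := hz
      rw [h7] at h6
      unfold lt
      rw [if_pos hz, h.lo_port_r hu h6]
      rfl
    · unfold lt
      rw [if_neg hz]
      exact hS.port hr hq' ((h.po'_ne hz (hrd q hq)).2 hpo)
  · -- own ports
    intro z q hx
    have hz : z ≠ R.r := by
      rintro rfl
      rw [h.xr] at hx
      simp at hx
    have hpt : R.pt q = z := (mem_rdz.1 (mem_x hx)).2.1
    have hx' : h.toRD.xN z = some (some q) := by
      have e : h.toRD.xN z = R.xN' g1 z := rfl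
      rw [e]
      unfold xN'
      rw [if_neg, hx]
      · rfl
      · rintro ⟨rfl, hd⟩
        rw [h.x1 hd] at hx
        simp at hx
    unfold lt
    rw [if_neg (by rw [hpt]; exact hz)]
    exact hS.portx hr hx'
  · by_cases hd : R.dbl g1
    · exact Or.inr (lk_g_e hd)
    · exact Or.inl (lk_g_o hd)
  · intro c hc
    obtain ⟨h1, h2⟩ := nn_real hS hc
    exact ⟨h1, fun hg => (h2 hg).1⟩
  · intro z
    constructor
    · rintro rfl
      have h1 := (hS.ph R.r).2
      rw [← hl_mp (fun t : h.toRD.T => h.phi s pr D t.1), hactr, hl_bw] at h1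
      omega
    · intro hz
      obtain ⟨u, v, h1, h2, -⟩ := hact z hz
      have h3 := (hS.ph z).2
      rw [← hl_mp (fun t : h.toRD.T => h.phi s pr D t.1), h1, hl_append] at h3
      rw [h2, hl_append, add_comm]
      exact h3
  · intro V hv1 hv2 hv3
    obtain ⟨k, hk⟩ := hV (fun t => V (h.phi s pr D t.1)) (by
        rintro ⟨t, ht⟩ - -
        show V (h.phi s pr D (h.toRD.lamr t)) = V (h.phi s pr D t)
        by_cases h1 : ∃ q, t = Tok.pt (some q)
        · obtain ⟨q, rfl⟩ := h1
          have hq : q ∈ R.L := mem_L'_some.1 ht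
          have hex : h.toRD.ex ≠ some (Sum.inl (some q)) := by
            by_cases hd : R.dbl g1
            · have : h.toRD.ex = some (Sum.inl none) := ex'_e hd
              rw [this]; simp
            · have : h.toRD.ex = some (Sum.inr g1) := ex'_o hd
              rw [this]; simp
          rw [lamr_pt, if_neg hex]
          exact hv1 q hq
        · rw [phi_lam hS.dbl ht (fun q hq => h1 ⟨q, hq⟩)]) (by
        intro c hc hDc
        have hd := hS.dbl c hDc
        have hcr : c ≠ R.r := hd.2.1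
        have hcg : c ≠ g1 := hd.2.2
        have hg : R.grp c := by
          rcases h.toRD.cir_cases c with ⟨x, q, hx, hq, h⟩ | ⟨h0, h⟩ | ⟨gs, g, h0, h1, h2, h⟩
          · rw [h] at hc; simp [Circ.isGp] at hc
          · rw [h] at hc; simp [Circ.isGp] at hc
          · exact h0.1
        have hlk : h.lk s pr D c = LS.drop := by rw [lk_ne hcr hcg, if_pos hDc]
        have h5 := hv2 c hg hlk hcr
        show V (h.phi s pr D (h.toRD.ol c).1) = V (h.phi s pr D (h.toRD.or c).1)
        rw [RD.raw_ol, RD.raw_or hd, phi_ow hcr hcg, phi_ow hcr hcg, hlk, if_pos hd.1,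
          if_pos hd.1]
        cases R.tw c with
        | true => exact h5.symm
        | false => exact h5) (by
        intro z
        by_cases hz : z = R.r
        · subst hz
          refine Cl.of_mp (φ := fun t : h.toRD.T => h.phi s pr D t.1) (V := V) ?_
          rw [hactr]
          exact (hv3 R.r).bw
        · obtain ⟨u, v, h1, h2, -⟩ := hact z hz
          refine Cl.of_mp (φ := fun t : h.toRD.T => h.phi s pr D t.1) (V := V) ?_
          rw [h1]
          have h3 := hv3 z
          rw [h2] at h3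
          exact h3.rot)
    refine ⟨k, ?_⟩
    have key : ∀ z b t, (b, t) ∈ ((h.toRD.cir z).act pr s).map
        (fun q => (q.1, h.phi s pr D q.2.1)) → V t = k := by
      intro z b t ht
      obtain ⟨q', hq2, h3⟩ := List.mem_map.1 ht
      have h4 : t = h.phi s pr D q'.2.1 := (congrArg Prod.snd h3).symm
      rw [h4]
      refine hk q'.2 ?_
      have h7 : q'.2 ∈ ((h.toRD.cir z).act pr s).map Prod.snd := List.mem_map.2 ⟨q', hq2, rfl⟩
      rw [hS.tok] at h7
      exact (List.mem_filter.1 h7).2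
    intro z q hq
    by_cases hz : z = R.r
    · subst hz
      refine key R.r (!q.1) q.2 ?_
      rw [hactr, mem_bw]
      simpa using hq
    · obtain ⟨u, v, h1, h2, -⟩ := hact z hz
      refine key z q.1 q.2 ?_
      rw [h1]
      rw [h2] at hq
      exact List.perm_append_comm.mem_iff.1 hq
  · intro z w₁ w₂ hw
    by_cases hz : z = R.r
    · subst hz
      have hP := (hS.ph R.r).1.mp (φ := fun t : h.toRD.T => h.phi s pr D t.1)
      have ht := (hS.ph R.r).2
      rw [← hl_mp (fun t : h.toRD.T => h.phi s pr D t.1), hactr, hw, bw_append, hl_append,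
        hl_bw, hl_bw] at ht
      rw [hactr, hw, bw_append] at hP
      have h1 := hP (bw w₂) (bw w₁) rfl
      rw [hl_bw] at h1
      constructor <;> omega
    · obtain ⟨u, v, h1, h2, h3⟩ := hact z hz
      have hPar : Par 4 4 (u ++ v) := by
        rw [← h1]
        exact (hS.ph z).1.mp (φ := fun t : h.toRD.T => h.phi s pr D t.1)
      have hv : -1 ≤ hl v ∧ hl v ≤ 1 := by
        match v, h3 with
        | [], _ => simp
        | [q], _ =>
          rcases q with ⟨b, q⟩
          cases b <;> simp [hl]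
        | _ :: _ :: _, h3 => simp at h3
      rw [h2] at hw
      rcases List.append_eq_append_iff.1 hw with ⟨q, h4, h5⟩ | ⟨q, h4, h5⟩
      · have h6 := hPar q (w₂ ++ v) (by rw [h5, List.append_assoc])
        rw [h4, hl_append]
        constructor <;> omega
      · have h6 : w₁.length ≤ 1 := by
          have h7 := congrArg List.length h4
          rw [List.length_append] at h7
          omega
        match w₁, h6 with
        | [], _ => simp
        | [a], _ =>
          rcases a with ⟨b, a⟩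
          cases b <;> simp [hl]
        | _ :: _ :: _, h6 => simp at h6

end RE

end RD

namespace Inst

variable {C J α : Type*} [LinearOrder α] [Fintype C] [Fintype J] [DecidableEq α]

/-- the last item read -/
lemma last_item {G : Inst C J α} {z : C} {l : List (α ⊕ C)} {a : α ⊕ C} (hb : l.Pairwise (G.Bef z))
    (ha : a ∈ l) (h : ∀ i ∈ l, i ≠ a → G.Bef z i a) (hn : l.Nodup) : ∃ l', l = l' ++ [a] := by
  obtain ⟨l1, l2, rfl⟩ := List.append_of_mem ha
  refine ⟨l1, ?_⟩
  cases l2 with
  | nil => rfl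
  | cons i l2 =>
    exfalso
    rw [List.pairwise_append, List.pairwise_cons] at hb
    have h1 := hb.2.1.1 i List.mem_cons_self
    have hne : i ≠ a := by
      rintro rfl
      rw [List.nodup_append, List.nodup_cons] at hn
      exact hn.2.1.1 List.mem_cons_self
    exact G.bef_asymm h1 (h i (by simp) hne)

/-- **the solution of the top level** for a given reading -/
theorem exists_RSol_of (G : Inst C J α) (grp : C → Prop) (g1 : C) (Rd : G.Reading)
    (hp : Rd.p G.r = none) (hgx : ∀ z, grp z → G.xN z = none)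
    (hrg : ∀ z, z ≠ G.r → G.real z → ¬ grp z)
    (hrc : ∀ z, z ≠ G.r → G.real z → ¬ (G.cls z ↔ G.cls (G.par z)))
    (hgr : ¬ grp G.r) (hgg : ¬ grp g1) (hg1 : g1 ≠ G.r) (hpar : G.par g1 = G.r)
    (hlast : ∀ i, G.host i = G.r → i ≠ Sum.inr G.r → i ≠ Sum.inr g1 →
      G.Bef G.r i (Sum.inr g1))
    (hx : Rd.dbl g1 → G.xN g1 = none) :
    ∃ S : RSol G grp g1, ∀ z u v, wd grp (swp G) S.lk S.lt S.R.rd z = u ++ v →
      -6 ≤ hl u ∧ hl u ≤ 6 := by
  classical
  obtain ⟨P, hP⟩ : ∃ P, P = Rd.toRD grp hp := ⟨_, rfl⟩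
  have hdr : P.dbl P.r := by
    rw [hP]
    exact (Rd.toRD grp hp).ex_dbl.2 rfl
  have hrd : ∀ z, P.rd z = Rd.rd z := by
    intro z
    rw [hP]
    exact Reading.lst_eq z
  have hrd' : P.rd = Rd.rd := funext hrd
  have hr : P.r = G.r := by rw [hP]; rfl
  have hgrp : P.grp = grp := by rw [hP]; rfl
  have htw : ∀ z, P.tw z = decide (G.cls z ↔ G.cls (G.par z)) := by
    intro z
    rw [hP]
    rfl
  have hreal : P.real = G.real := by rw [hP]; rfl
  have hxN : P.xN = G.xN := by rw [hP]; rfl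
  have hL : P.L = Rd.L := by rw [hP]; rfl
  have hmate : P.mate = Rd.mate := by rw [hP]; rfl
  have hPo : P.Po = Po Rd.x := by rw [hP]; rfl
  have hdbl : P.dbl = Rd.dbl := by rw [hP]; rfl
  have hpr : P.p P.r = none := by
    rw [hP]
    exact hp
  have hsw : ∀ z, swp G z ↔ z ≠ P.r ∧ P.tw z = true := by
    intro z
    rw [hr, htw, decide_eq_true_iff]
    rfl
  -- the last item
  obtain ⟨l, hl0⟩ : ∃ l, Rd.rd G.r = l ++ [Sum.inr g1] := by
    refine last_item (Rd.bef G.r) ?_ ?_ (Rd.nodup G.r)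
    · rw [Rd.mem_rd, G.mem_items']
      exact ⟨by simp, hpar, fun h => hg1 (Sum.inr_injective h)⟩
    · intro i hi hne
      rw [Rd.mem_rd, G.mem_items'] at hi
      exact hlast i hi.2.1 hi.2.2 hne
  obtain ⟨us0, hRE⟩ := RD.exists_RE (g1 := g1) (l := l) hdr hpr (by rw [hrd', hr]; exact hl0) (by
      rw [hPo]
      rintro ⟨j, hj⟩
      simp at hj) (by
      rw [hdbl, hxN]
      exact hx)
  obtain ⟨lk, lt, a1, a2, a3, a4, a5, a6, a7, a8⟩ := hRE.exists_sol (by
      rw [hgrp, hxN]; exact hgx) (by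
      intro z hz hre
      rw [hr] at hz
      rw [hreal] at hre
      rw [htw, decide_eq_false_iff_not]
      exact hrc z hz hre) (by rw [hgrp, hr]; exact hgr) hsw
  rw [hgrp, hrd'] at a6 a7 a8
  rw [hr] at a3 a6 a5
  refine ⟨⟨Rd, lk, lt, ?_, ?_, ⟨a3, hgr⟩, a4, ?_, a6, ?_⟩, a8⟩
  · intro j
    refine a1 _ ?_ ?_
    · rw [hL]
      exact Reading.mem_L.2 (Or.inr (Or.inl ⟨j, rfl⟩))
    · rw [hPo]
      exact ⟨j, rfl⟩
  · intro z p hp'
    refine a2 z p ?_
    rw [hxN]
    exact hp'
  · intro c hc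
    obtain ⟨h1, h2⟩ := a5 c hc
    by_cases hcg : c = g1
    · rw [hcg]
      exact ⟨hg1, hgg, Or.inr rfl⟩
    · have h3 := h2 hcg
      rw [hreal] at h3
      exact ⟨h1, hrg c h1 h3, Or.inl h3⟩
  · intro V hv1 hv2 hv3 hv4
    refine a7 V ?_ ?_ hv4
    · intro q hq
      rw [hL] at hq
      rw [hmate]
      rcases Reading.mem_L.1 hq with ⟨j, rfl⟩ | ⟨j, rfl⟩ | h6
      · rw [Reading.mate_y]
        exact (hv1 j).symm
      · rw [Reading.mate_x]
        exact hv1 j
      · rw [Reading.mate_L0 h6]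
        exact hv2 q h6
    · intro c hc hlk _
      exact hv3 c hc hlk

/-- **the solution of the top level** -/
theorem exists_RSol (G : Inst C J α) (grp : C → Prop) (g1 : C)
    (hgx : ∀ z, grp z → G.xN z = none)
    (hrg : ∀ z, z ≠ G.r → G.real z → ¬ grp z)
    (hrc : ∀ z, z ≠ G.r → G.real z → ¬ (G.cls z ↔ G.cls (G.par z)))
    (hgr : ¬ grp G.r) (hgg : ¬ grp g1) (hg1 : g1 ≠ G.r) (hpar : G.par g1 = G.r)
    (hlast : ∀ i, G.host i = G.r → i ≠ Sum.inr G.r → i ≠ Sum.inr g1 →
      G.Bef G.r i (Sum.inr g1))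
    (hx : G.xN g1 = none ∨ ∀ x : J → α, (∀ j, x j = G.b j ∨ x j = G.a j) →
      Odd (G.lt (G.used x G.L0) (Sum.inr g1 : α ⊕ C)).card) :
    ∃ S : RSol G grp g1, ∀ z u v, wd grp (swp G) S.lk S.lt S.R.rd z = u ++ v →
      -6 ≤ hl u ∧ hl u ≤ 6 := by
  obtain ⟨R, hp⟩ := G.exists_reading_root
  refine G.exists_RSol_of grp g1 R hp hgx hrg hrc hgr hgg hg1 hpar hlast ?_
  intro hd
  rcases hx with hx | hx
  · exact hx
  · exact absurd hd (Nat.not_even_iff_odd.2 (hx R.x R.hx))

end Inst

end Pool.Agent.MP42.U
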