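import Pool.Agent.MP42.U.RSl
import Pool.Agent.MP42.U.Bw

/-!
# The root level: the actual words of the circles as words of links and letters

`RE.act_ne`: the actual word of a circle `z ≠ R.r` is a rotation of `GZ.wd`;
`RE.act_r`: the actual word of the root circle is `GZ.wd` read backwards.
-/

set_option autoImplicit false
set_option linter.unusedSectionVars false

namespace Pool.Agent.MP42.U

open Pool.Agent.MP42.GZ

namespace RD

variable {C α : Type*}

lemma lo_up1x {R : RD C α} {z c : C} {b : Bool} (h : LO R z b (Tok.up c true)) (hd : R.dbl c)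
    (hx : R.xN z = none) : b = true := by
  have key : ∀ i : α ⊕ C, (Tok.up c true : Tok C α) = t1 i → i = Sum.inr c := by
    intro i hi
    cases i with
    | inl p => simp [t1] at hi
    | inr c' => have : c = c' := by simpa [t1] using hi
                rw [this]
  generalize ht : (Tok.up c true : Tok C α) = t at h
  rcases h with _ | h1 | ⟨x, h1⟩ | ⟨q, h1⟩ | ⟨b, i, h1⟩ | ⟨f, m, x, h1⟩ | ⟨f, m, x, h1⟩ | ⟨c'⟩ |
    ⟨c'⟩ | ⟨c', h1, h1x⟩
  · rfl
  · rfl
  · rfl
  · rfl
  · have h2 : Od' R.dbl i := (usg z _ h1).1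
    rw [key i ht] at h2
    exact absurd hd h2
  · have h2 : Od' R.dbl f := (usg z _ h1).1
    rw [key f ht] at h2
    exact absurd hd h2
  · rfl
  · rfl
  · simp at ht
  · exact absurd hx h1x

namespace RE

variable {R : RD C α} {g1 : C} {us0 : List (It (α ⊕ C))}

/-! ### Letters of the root circle -/

section letters

variable (h : RE R g1 us0)

include h

lemma mem_us_r {u : It (Option α ⊕ C)} (hu : u ∈ h.toRD.us R.r) :
    ∃ w ∈ us0, u = w.rev.mp em := by
  have hu' : u ∈ R.us' us0 R.r := hu
  rw [us'_r] at hu'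
  obtain ⟨v, hv, rfl⟩ := List.mem_map.1 hu'
  obtain ⟨w, hw, rfl⟩ := List.mem_map.1 hv
  exact ⟨w, List.mem_reverse.1 hw, rfl⟩

lemma fl_us_r {u : It (Option α ⊕ C)} (hu : u ∈ h.toRD.us R.r) {i : Option α ⊕ C}
    (hi : i ∈ u.fl) : ∃ i0 ∈ us0.flatMap It.fl, i = em i0 := by
  obtain ⟨w, hw, rfl⟩ := h.mem_us_r hu
  rw [It.fl_mp, It.fl_rev] at hi
  obtain ⟨i0, hi0, rfl⟩ := List.mem_map.1 hi
  exact ⟨i0, h.mem_fl hw (List.mem_reverse.1 hi0), rfl⟩

lemma lo_g1 {b : Bool} (hl : LO h.toRD R.r b (Tok.up g1 true)) : b = true := by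
  have key : ∀ i : Option α ⊕ C, (Tok.up g1 true : Tok C (Option α)) = t1 i → i = Sum.inr g1 := by
    intro i hi
    cases i with
    | inl p => simp [t1] at hi
    | inr c' => have : g1 = c' := by simpa [t1] using hi
                rw [this]
  have key2 : ∀ u ∈ h.toRD.us R.r, (Sum.inr g1 : Option α ⊕ C) ∉ u.fl := by
    intro u hu hi
    obtain ⟨i0, h1, h2⟩ := h.fl_us_r hu hi
    have h3 : i0 = Sum.inr g1 := em_inj h2.symm
    exact h.nd.2 (h3 ▸ h1)
  generalize ht : (Tok.up g1 true : Tok C (Option α)) = t at hl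
  rcases hl with _ | h1 | ⟨x, h1⟩ | ⟨q, h1⟩ | ⟨b, i, h1⟩ | ⟨f, m, x, h1⟩ | ⟨f, m, x, h1⟩ | ⟨c'⟩ |
    ⟨c'⟩ | ⟨c', h1, h1x⟩
  · rfl
  · rfl
  · rfl
  · rfl
  · exact absurd (by rw [key i ht]; simp [It.fl]) (key2 _ h1)
  · exact absurd (by rw [key f ht]; simp [It.fl]) (key2 _ h1)
  · rfl
  · rfl
  · simp at ht
  · exact absurd h.xN'_r h1x

/-- the ports of the root circle -/
lemma lo_port_r {b : Bool} {f : α ⊕ C} {m : List (α ⊕ C)} {q : α}
    (hu : It.br f m (Sum.inl q) ∈ us0) (hl : LO h.toRD R.r b (Tok.pt (some q))) : b = false := by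
  have hnd := h.nd.1
  have hg := usg R.r _ (h.us_mem hu)
  have key : ∀ i : Option α ⊕ C, (Tok.pt (some q) : Tok C (Option α)) = t1 i →
      i = em (Sum.inl q) := by
    intro i hi
    cases i with
    | inl p => have : some q = p := by simpa [t1] using hi
               rw [← this]; rfl
    | inr c' => simp [t1] at hi
  generalize ht : (Tok.pt (some q) : Tok C (Option α)) = t at hl
  rcases hl with _ | h1 | ⟨x, h1⟩ | ⟨q', h1⟩ | ⟨b, i, h1⟩ | ⟨f', m', x, h1⟩ | ⟨f', m', x, h1⟩ |
    ⟨c'⟩ | ⟨c'⟩ | ⟨c', h1, h1x⟩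
  · simp at ht
  · simp at ht
  · have h1' : R.xN' g1 R.r = some x := h1
    rw [h.xN'_r] at h1'
    simp at h1'
  · exfalso
    have h1' : R.p' g1 R.r = some q' := h1
    by_cases hd : R.dbl g1
    · rw [p'_e hd] at h1'
      have h2 : q' = ([], Sum.inr g1) := by simpa using h1'.symm
      rw [h2] at ht
      simp [t1] at ht
    · rw [p'_o hd] at h1'
      simp at h1'
  · exfalso
    obtain ⟨w, hw, h2⟩ := h.mem_us_r h1
    have h3 : i = em (Sum.inl q) := key i ht
    cases w with
    | ev i0 => simp [It.rev, It.mp] at h2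
    | fr i0 =>
      have h4 : i = em i0 := by simpa [It.rev, It.mp] using h2
      have h5 : i0 = Sum.inl q := em_inj (h4.symm.trans h3)
      have h6 := unit_eq hnd hw hu (i := Sum.inl q) (by simp [It.fl, h5]) (by simp [It.fl])
      simp at h6
    | br f0 m0 x0 => simp [It.rev, It.mp] at h2
  · rfl
  · exfalso
    obtain ⟨w, hw, h2⟩ := h.mem_us_r h1
    have h3 : x = em (Sum.inl q) := key x ht
    cases w with
    | ev i0 => simp [It.rev, It.mp] at h2
    | fr i0 => simp [It.rev, It.mp] at h2
    | br f0 m0 x0 =>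
      have h4 : x = em f0 := by
        simp only [It.rev, It.mp, It.br.injEq] at h2
        exact h2.2.2
      have h5 : f0 = Sum.inl q := em_inj (h4.symm.trans h3)
      have h6 := unit_eq hnd hw hu (i := Sum.inl q) (by simp [It.fl, h5]) (by simp [It.fl])
      have h7 : f0 = f := by
        simp only [It.br.injEq] at h6
        exact h6.1
      exact hg.2.1 (by rw [← h7, h5]; exact hg.2.2.2)
  · simp at ht
  · simp at ht
  · simp at ht

end letters

/-! ### Links -/

section links

variable (h : RE R g1 us0) (s pr : h.toRD.T → Bool) (D : C → Prop)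

open Classical in
/-- the states of the links -/
noncomputable def lk (c : C) : LS :=
  if c = R.r then LS.drop else if c = g1 then (if R.dbl g1 then LS.nn else LS.near) else
    if D c then LS.drop else
    if R.dbl c then (if h.toRD.le s pr (Tok.up c true) then LS.even else LS.nn)
    else (if h.toRD.le s pr (Tok.up c true) = decide (R.par c ≠ R.r) then LS.far else LS.near)

open Classical in
/-- the letters -/
noncomputable def lt (q : α) : Bool :=
  if R.pt q = R.r then !(h.toRD.le s pr (Tok.pt (some q))) else h.toRD.le s pr (Tok.pt (some q))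

open Classical in
/-- the letter or lane of a token -/
noncomputable def phi : Tok C (Option α) → α ⊕ (C × ℕ)
  | Tok.pt (some q) => Sum.inl q
  | Tok.pt none => Sum.inr (g1, 2)
  | Tok.up c k => if c = g1 then Sum.inr (g1, 0) else
      Sum.inr (c, lane (h.lk s pr D c) (if R.par c = R.r then !k else k))
  | Tok.ow c k => if c = R.r then Sum.inr (g1, if R.dbl g1 then 2 else 0)
      else if c = g1 then Sum.inr (g1, 0)
      else Sum.inr (c, lane (h.lk s pr D c) (if R.dbl c then k == R.tw c else true))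

end links

section lemmas

variable {h : RE R g1 us0} {s pr : h.toRD.T → Bool} {D : C → Prop}

open Classical in
lemma lk_ne {c : C} (hc : c ≠ R.r) (hg : c ≠ g1) : h.lk s pr D c =
    if D c then LS.drop else
    if R.dbl c then (if h.toRD.le s pr (Tok.up c true) then LS.even else LS.nn)
    else (if h.toRD.le s pr (Tok.up c true) = decide (R.par c ≠ R.r) then LS.far else LS.near) := by
  unfold lk
  rw [if_neg hc, if_neg hg]

lemma lk_r : h.lk s pr D R.r = LS.drop := by
  unfold lk
  rw [if_pos rfl]

lemma lk_g_e (hd : R.dbl g1) : h.lk s pr D g1 = LS.nn := by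
  unfold lk
  rw [if_neg h.g1_ne, if_pos rfl, if_pos hd]

lemma lk_g_o (hd : ¬ R.dbl g1) : h.lk s pr D g1 = LS.near := by
  unfold lk
  rw [if_neg h.g1_ne, if_pos rfl, if_neg hd]

open Classical in
lemma phi_up0 (c : C) (k : Bool) : h.phi s pr D (Tok.up c k) =
    if c = g1 then Sum.inr (g1, 0) else
      Sum.inr (c, lane (h.lk s pr D c) (if R.par c = R.r then !k else k)) := rfl

open Classical in
lemma phi_ow0 (c : C) (k : Bool) : h.phi s pr D (Tok.ow c k) =
    if c = R.r then Sum.inr (g1, if R.dbl g1 then 2 else 0)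
      else if c = g1 then Sum.inr (g1, 0)
      else Sum.inr (c, lane (h.lk s pr D c) (if R.dbl c then k == R.tw c else true)) := rfl

lemma phi_up_g (k : Bool) : h.phi s pr D (Tok.up g1 k) = Sum.inr (g1, 0) := by
  rw [phi_up0, if_pos rfl]

open Classical in
lemma phi_up {c : C} (hg : c ≠ g1) (k : Bool) : h.phi s pr D (Tok.up c k) =
    Sum.inr (c, lane (h.lk s pr D c) (if R.par c = R.r then !k else k)) := by
  rw [phi_up0, if_neg hg]

lemma phi_ow_g (k : Bool) : h.phi s pr D (Tok.ow g1 k) = Sum.inr (g1, 0) := by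
  rw [phi_ow0, if_neg h.g1_ne, if_pos rfl]

open Classical in
lemma phi_ow {c : C} (hc : c ≠ R.r) (hg : c ≠ g1) (k : Bool) : h.phi s pr D (Tok.ow c k) =
    Sum.inr (c, lane (h.lk s pr D c) (if R.dbl c then k == R.tw c else true)) := by
  rw [phi_ow0, if_neg hc, if_neg hg]

open Classical in
lemma phi_ow_r (k : Bool) : h.phi s pr D (Tok.ow R.r k) =
    Sum.inr (g1, if R.dbl g1 then 2 else 0) := by
  rw [phi_ow0, if_pos rfl]

lemma phi_pt (q : α) : h.phi s pr D (Tok.pt (some q)) = Sum.inl q := rfl

lemma phi_none : h.phi s pr D (Tok.pt none) = Sum.inr (g1, 2) := rfl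

lemma dbl_iff {c : C} (hc : c ≠ R.r) (hg : c ≠ g1) : h.toRD.dbl c ↔ R.dbl c :=
  ⟨fun h => h.1, fun h => ⟨h, hc, hg⟩⟩

lemma ndbl_g : ¬ h.toRD.dbl g1 := fun h1 => h1.2.2 rfl

lemma ndbl_r : ¬ h.toRD.dbl R.r := fun h1 => h1.2.1 rfl

/-- a single link -/
lemma lk_single (hDd : ∀ c, D c → h.toRD.dbl c) {c : C} (hc : c ≠ R.r) (hg : c ≠ g1)
    (hd : ¬ R.dbl c) : h.lk s pr D c = LS.far ∨ h.lk s pr D c = LS.near := by
  rw [lk_ne hc hg, if_neg (fun h1 => hd (hDd c h1).1), if_neg hd]
  split_ifs
  · exact Or.inl rfl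
  · exact Or.inr rfl

lemma lane_single (hDd : ∀ c, D c → h.toRD.dbl c) {c : C} (hc : c ≠ R.r) (hg : c ≠ g1)
    (hd : ¬ R.dbl c) (k k' : Bool) : lane (h.lk s pr D c) k = lane (h.lk s pr D c) k' := by
  rcases lk_single (s := s) (pr := pr) hDd hc hg hd with h1 | h1 <;> rw [h1] <;> rfl

/-- both ends of a lane -/
lemma phi_lam (hDd : ∀ c, D c → h.toRD.dbl c) {t : Tok C (Option α)} (hv : h.toRD.Val t)
    (ht : ∀ q, t ≠ Tok.pt (some q)) : h.phi s pr D (h.toRD.lamr t) = h.phi s pr D t := by
  have hup : ∀ c k, h.toRD.Val (Tok.up c k) →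
      h.phi s pr D (h.toRD.lamr (Tok.up c k)) = h.phi s pr D (Tok.up c k) := by
    intro c k hv
    rw [lamr_up]
    by_cases hg : c = g1
    · subst hg
      rw [if_neg ndbl_g, phi_ow_g, phi_up_g]
    · have hc : c ≠ R.r := hv.1.1
      by_cases hd : R.dbl c
      · rw [if_pos ((dbl_iff hc hg).2 hd), phi_ow hc hg, phi_up hg, if_pos hd]
        have e : h.toRD.tw c = open Classical in if R.par c = R.r then !(R.tw c) else R.tw c := rfl
        rw [e]
        congr 3
        split_ifs
        · cases k <;> cases R.tw c <;> rfl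
        · cases k <;> cases R.tw c <;> rfl
      · rw [if_neg (fun h1 => hd h1.1), phi_ow hc hg, phi_up hg, if_neg hd]
        congr 2
        exact lane_single hDd hc hg hd _ _
  have hex : h.toRD.ex = some (Sum.inl none) ∧ R.dbl g1 ∨
      h.toRD.ex = some (Sum.inr g1) ∧ ¬ R.dbl g1 := by
    by_cases hd : R.dbl g1
    · exact Or.inl ⟨ex'_e hd, hd⟩
    · exact Or.inr ⟨ex'_o hd, hd⟩
  cases t with
  | pt q =>
    rcases q with _ | q
    · have hd : R.dbl g1 := mem_L'_none.1 hv
      have hex : h.toRD.ex = some (Sum.inl none) := ex'_e hd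
      rw [lamr_pt, if_pos hex]
      have e := phi_ow_r (h := h) (s := s) (pr := pr) (D := D) true
      rw [if_pos hd] at e
      exact e
    · exact absurd rfl (ht q)
  | up c k => exact hup c k hv
  | ow c k =>
    by_cases hc : c = R.r
    · subst hc
      have e1 : h.toRD.lamr (Tok.ow R.r k) = h.toRD.exk k := by
        rw [lamr_ow]
        exact if_pos rfl
      rw [e1, phi_ow_r]
      rcases hex with ⟨h1, hd⟩ | ⟨h1, hd⟩
      · rw [exk_inl _ h1, phi_none, if_pos hd]
      · rw [exk_inr _ h1, phi_ow_g, if_neg hd]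
    · by_cases hg : c = g1
      · subst hg
        rw [phi_ow_g, lamr_ow, if_neg (show ¬ c = h.toRD.r from hc), if_neg ndbl_g]
        rcases hex with ⟨h1, hd⟩ | ⟨h1, hd⟩
        · rw [if_neg (by rw [h1]; simp), phi_up_g]
        · rw [if_pos h1]
          have e := phi_ow_r (h := h) (s := s) (pr := pr) (D := D) true
          rw [if_neg hd] at e
          exact e
      · -- an ordinary circle
        have hxc : h.toRD.ex ≠ some (Sum.inr c) := by
          rcases hex with ⟨h1, hd⟩ | ⟨h1, hd⟩
          · rw [h1]; simp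
          · rw [h1]
            intro h2
            exact hg (Sum.inr_injective (Option.some_inj.1 h2)).symm
        obtain ⟨k', hk'⟩ : ∃ k', h.toRD.lamr (Tok.ow c k : Tok C (Option α)) = Tok.up c k' := by
          rw [lamr_ow, if_neg (show ¬ c = h.toRD.r from hc)]
          split_ifs
          · exact ⟨_, rfl⟩
          · exact ⟨_, rfl⟩
        have hv' : h.toRD.Val (Tok.up c k') := by
          rw [← hk']; exact h.toRD.lamr_val hv
        have h1 := hup c k' hv'
        rw [← hk', h.toRD.lamr_lamr hv] at h1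
        exact h1.symm

/-! ### Words -/

section words

variable (hS : Sl h.toRD s pr D)

include hS

lemma nD_r : ¬ D R.r := fun h1 => (hS.dbl _ h1).2.1 rfl

lemma nD_g : ¬ D g1 := fun h1 => (hS.dbl _ h1).2.2 rfl

/-- an item which is not on the root circle -/
lemma mem_ne {z : C} (hz : z ≠ R.r) {i : α ⊕ C} (hi : i ∈ R.rd z) : em i ∈ h.toRD.rd z := by
  have h0 : h.toRD.rd z = lst (R.xN' g1 z) (R.p' g1 z) (R.us' us0 z) := rfl
  rw [h0]
  have h1 : em i ∈ (R.rd z).map em := List.mem_map.2 ⟨i, hi, rfl⟩
  by_cases hg : z = g1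
  · subst hg
    by_cases hd : R.dbl z
    · rw [h.rd'_g_e hd]
      exact List.mem_cons_of_mem _ h1
    · rw [h.rd'_g_o hd]
      exact h1
  · rw [rd'_ne hz hg]
    exact h1

/-- an item of the root circle -/
lemma mem_r {i : α ⊕ C} (hi : i ∈ us0.flatMap It.fl) : em i ∈ h.toRD.rd R.r := by
  have h0 : h.toRD.rd R.r = lst (R.xN' g1 R.r) (R.p' g1 R.r) (R.us' us0 R.r) := rfl
  rw [h0]
  have h1 : em i ∈ (us0.flatMap It.fl).reverse.map em :=
    List.mem_map.2 ⟨i, List.mem_reverse.2 hi, rfl⟩
  by_cases hd : R.dbl g1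
  · rw [h.rd'_r_e hd]
    exact List.mem_cons_of_mem _ h1
  · rw [h.rd'_r_o hd]
    exact h1

/-- the state of an even child with near and near -/
lemma nn_real {c : C} (hc : h.lk s pr D c = LS.nn) : c ≠ R.r ∧ (c ≠ g1 → R.real c ∧ R.dbl c ∧
    R.par c ≠ R.r) := by
  by_cases h1 : c = R.r
  · rw [h1, lk_r] at hc
    exact absurd hc (by simp)
  refine ⟨h1, fun hg => ?_⟩
  rw [lk_ne h1 hg] at hc
  split_ifs at hc with h2 h3 h4
  have hd := (dbl_iff (h := h) h1 hg).2 h3
  have hv : h.toRD.Val (Tok.up c true) := ⟨⟨h1, h.toRD.ex_ne hd⟩, fun h => by simp at h⟩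
  have hp : pr (h.toRD.tk (Tok.up c true)) = true := by
    by_contra h5
    rw [Bool.not_eq_true] at h5
    have hr := nD_r hS
    exact h2 ((hS.pr_up hr hv).1 h5)
  have h6 := hS.lo hv hp
  rcases lo_up1 h6 hd with h7 | h7
  · exact absurd h7 h4
  · refine ⟨h7, h3, fun h8 => ?_⟩
    have h9 : h.toRD.ndr (Tok.up c true : Tok C (Option α)) = R.r := h8
    rw [h9] at h6
    exact h4 (lo_up1x h6 hd h.xN'_r)

/-- the letters of an item, not on the root circle -/
lemma item_ne {z : C} (hz : z ≠ R.r) {i : α ⊕ C} (hi : i ∈ R.rd z) :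
    ((h.toRD.itk (em i)).filter fun t => pr (h.toRD.tk t)).map
      (fun t => (h.toRD.le s pr t, h.phi s pr D t)) =
      il (h.lk s pr D) (h.lt s pr) i := by
  have hr := nD_r hS
  have hi' := mem_ne hS hz hi
  have h1 := mem_rdz.1 hi
  cases i with
  | inl p =>
    have h2 : h.toRD.itk (em (Sum.inl p)) = [Tok.pt (some p)] := rfl
    have h3 := hS.pr_pt hr ((mem_rdz.1 hi').1 (some p) rfl)
    have h4 : h.lt s pr p = h.toRD.le s pr (Tok.pt (some p)) := by
      unfold lt
      rw [if_neg]
      intro h5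
      exact hz (h1.2.1.symm.trans h5)
    rw [h2, List.filter_cons_of_pos (by simpa using h3)]
    simp [il, h4, phi_pt]
  | inr c =>
    have hc : c ≠ R.r := (mem_rdc hi).2.1
    have hpar : R.par c ≠ R.r := fun h2 => hz ((mem_rdc hi).1.symm.trans h2)
    have hg : c ≠ g1 := by
      rintro rfl
      exact hpar h.g1_par
    have hv1 : h.toRD.Val (Tok.up c true) := ⟨(mem_rdc hi').2, fun h => by simp at h⟩
    rw [em_inr, itk_inr]
    by_cases hD : D c
    · have hd := hS.dbl c hD
      have hlk : h.lk s pr D c = LS.drop := by rw [lk_ne hc hg, if_pos hD]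
      have hv2 : h.toRD.Val (Tok.up c false) := ⟨(mem_rdc hi').2, fun _ => hd⟩
      rw [if_pos hd, List.filter_cons_of_neg (by simpa using (hS.pr_up hr hv1).2 hD),
        List.filter_cons_of_neg (by simpa using (hS.pr_up hr hv2).2 hD)]
      unfold il
      simp [hlk]
    · have hp1 := hS.pr_up_true hr hv1 hD
      by_cases hd0 : R.dbl c
      · have hd := (dbl_iff (h := h) hc hg).2 hd0
        have hv2 : h.toRD.Val (Tok.up c false) := ⟨(mem_rdc hi').2, fun _ => hd⟩
        have hp2 := hS.pr_up_true hr hv2 hD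
        have hl2 : h.toRD.le s pr (Tok.up c false) = false := lo_up2 (hS.lo hv2 hp2)
        rw [if_pos hd, List.filter_cons_of_pos (by simpa using hp1),
          List.filter_cons_of_pos (by simpa using hp2)]
        cases hb : h.toRD.le s pr (Tok.up c true) with
        | true =>
          have hlk : h.lk s pr D c = LS.even := by
            rw [lk_ne hc hg, if_neg hD, if_pos hd0, if_pos hb]
          simp [il, hlk, hb, hl2, phi_up hg, lane, hpar]
        | false =>
          have hlk : h.lk s pr D c = LS.nn := by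
            rw [lk_ne hc hg, if_neg hD, if_pos hd0, if_neg (by simp [hb])]
          simp [il, hlk, hb, hl2, phi_up hg, lane, hpar]
      · have hd : ¬ h.toRD.dbl c := fun h => hd0 h.1
        rw [if_neg hd, List.filter_cons_of_pos (by simpa using hp1)]
        cases hb : h.toRD.le s pr (Tok.up c true) with
        | true =>
          have hlk : h.lk s pr D c = LS.far := by
            rw [lk_ne hc hg, if_neg hD, if_neg hd0, if_pos (by simp [hb, hpar])]
          simp [il, hlk, hb, phi_up hg, lane]
        | false =>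
          have hlk : h.lk s pr D c = LS.near := by
            rw [lk_ne hc hg, if_neg hD, if_neg hd0, if_neg (by simp [hb, hpar])]
          simp [il, hlk, hb, phi_up hg, lane]

/-- the letters of an item of the root circle -/
lemma item_r {i : α ⊕ C} (hi : i ∈ us0.flatMap It.fl) :
    ((h.toRD.itk (em i)).filter fun t => pr (h.toRD.tk t)).map
      (fun t => (h.toRD.le s pr t, h.phi s pr D t)) =
      bw (il (h.lk s pr D) (h.lt s pr) i) := by
  have hr := nD_r hS
  have hi' := mem_r hS hi
  have h1 := h.mem0.1 hi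
  cases i with
  | inl p =>
    have h2 : h.toRD.itk (em (Sum.inl p)) = [Tok.pt (some p)] := rfl
    have h3 := hS.pr_pt hr ((mem_rdz.1 hi').1 (some p) rfl)
    have h4 : h.lt s pr p = !(h.toRD.le s pr (Tok.pt (some p))) := by
      unfold lt
      rw [if_pos (show R.pt p = R.r from h1.2.1)]
    rw [h2, List.filter_cons_of_pos (by simpa using h3)]
    simp [il, h4, phi_pt, bw]
  | inr c =>
    have hc : c ≠ R.r := fun h => h1.2.2.1 (by rw [h])
    have hg : c ≠ g1 := fun h => h1.2.2.2 (by rw [h])
    have hpar : R.par c = R.r := h1.2.1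
    have hv1 : h.toRD.Val (Tok.up c true) := ⟨(mem_rdc hi').2, fun h => by simp at h⟩
    rw [em_inr, itk_inr]
    by_cases hD : D c
    · have hd := hS.dbl c hD
      have hlk : h.lk s pr D c = LS.drop := by rw [lk_ne hc hg, if_pos hD]
      have hv2 : h.toRD.Val (Tok.up c false) := ⟨(mem_rdc hi').2, fun _ => hd⟩
      rw [if_pos hd, List.filter_cons_of_neg (by simpa using (hS.pr_up hr hv1).2 hD),
        List.filter_cons_of_neg (by simpa using (hS.pr_up hr hv2).2 hD)]
      unfold il
      simp [hlk]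
    · have hp1 := hS.pr_up_true hr hv1 hD
      by_cases hd0 : R.dbl c
      · have hd := (dbl_iff (h := h) hc hg).2 hd0
        have hv2 : h.toRD.Val (Tok.up c false) := ⟨(mem_rdc hi').2, fun _ => hd⟩
        have hp2 := hS.pr_up_true hr hv2 hD
        have hl2 : h.toRD.le s pr (Tok.up c false) = false := lo_up2 (hS.lo hv2 hp2)
        have hb : h.toRD.le s pr (Tok.up c true) = true := by
          have h6 := hS.lo hv1 hp1
          have h9 : h.toRD.ndr (Tok.up c true : Tok C (Option α)) = R.r := hpar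
          rw [h9] at h6
          exact lo_up1x h6 hd h.xN'_r
        rw [if_pos hd, List.filter_cons_of_pos (by simpa using hp1),
          List.filter_cons_of_pos (by simpa using hp2)]
        have hlk : h.lk s pr D c = LS.even := by
          rw [lk_ne hc hg, if_neg hD, if_pos hd0, if_pos hb]
        simp [il, hlk, hb, hl2, phi_up hg, lane, hpar, bw]
      · have hd : ¬ h.toRD.dbl c := fun h => hd0 h.1
        rw [if_neg hd, List.filter_cons_of_pos (by simpa using hp1)]
        cases hb : h.toRD.le s pr (Tok.up c true) with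
        | true =>
          have hlk : h.lk s pr D c = LS.near := by
            rw [lk_ne hc hg, if_neg hD, if_neg hd0, if_neg (by simp [hb, hpar])]
          simp [il, hlk, hb, phi_up hg, lane, bw]
        | false =>
          have hlk : h.lk s pr D c = LS.far := by
            rw [lk_ne hc hg, if_neg hD, if_neg hd0, if_pos (by simp [hb, hpar])]
          simp [il, hlk, hb, phi_up hg, lane, bw]

/-- the own tokens -/
lemma own_ne (hgx : ∀ z, R.grp z → R.xN z = none) (hrt : ∀ z, z ≠ R.r → R.real z → R.tw z = false)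
    {sw : C → Prop} (hsw : ∀ z, sw z ↔ z ≠ R.r ∧ R.tw z = true) {z : C} (hz : z ≠ R.r)
    (hg1 : z ≠ g1) :
    ((open Classical in (if h.toRD.dbl z then [Tok.ow z false] else [] :
      List (Tok C (Option α)))).filter
      fun t => pr (h.toRD.tk t)).map (fun t => (h.toRD.le s pr t, h.phi s pr D t)) ++
    (([Tok.ow z true] : List (Tok C (Option α))).filter
      fun t => pr (h.toRD.tk t)).map (fun t => (h.toRD.le s pr t, h.phi s pr D t)) =
    GZ.ol R.grp sw (h.lk s pr D) z := by
  classical
  have hr := nD_r hS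
  have hv1 : h.toRD.Val (Tok.ow z true : Tok C (Option α)) := fun h => by simp at h
  have key : ∀ k, h.toRD.Val (Tok.ow z k : Tok C (Option α)) →
      pr (h.toRD.tk (Tok.ow z k)) = true → h.toRD.le s pr (Tok.ow z k) = true :=
    fun k hv hp => lo_ow (hS.lo hv hp)
  by_cases hD : D z
  · have hd := hS.dbl z hD
    have hd0 : R.dbl z := hd.1
    have hlk : h.lk s pr D z = LS.drop := by rw [lk_ne hz hg1, if_pos hD]
    have hv2 : h.toRD.Val (Tok.ow z false : Tok C (Option α)) := fun _ => hd
    by_cases hg : R.grp z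
    · have hx : h.toRD.xN z = none := by
        have e : h.toRD.xN z = R.xN' g1 z := rfl
        rw [e, xN'_ne hg1, hgx z hg]
        rfl
      have hpz : h.toRD.p z ≠ none := by
        intro hp
        have h1 := hS.sr z hD
        rw [(hS.eo z).r hd hp hx] at h1
        simp at h1
      have hgp := cir_gp (R := h.toRD) (z := z) ⟨hg, hd, hx, hpz⟩
      have hp1 := hS.pr_ow_true hr hv1 (fun h => by rw [hgp] at h; simp at h)
      have hp2 := hS.pr_ow_true hr hv2 (fun h => by rw [hgp] at h; simp at h)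
      rw [if_pos hd, List.filter_cons_of_pos (by simpa using hp2),
        List.filter_cons_of_pos (by simpa using hp1)]
      cases ht : R.tw z with
      | true =>
        have hs' : sw z := (hsw z).2 ⟨hz, ht⟩
        simp [GZ.ol, hlk, hg, hs', key true hv1 hp1, key false hv2 hp2, phi_ow hz hg1, lane, hd0,
          ht]
      | false =>
        have hs' : ¬ sw z := fun h => by rw [((hsw z).1 h).2] at ht; simp at ht
        simp [GZ.ol, hlk, hg, hs', key true hv1 hp1, key false hv2 hp2, phi_ow hz hg1, lane, hd0,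
          ht]
    · have hgp : (h.toRD.cir z).isGp = false := by
        rcases h.toRD.cir_cases z with ⟨x, q, hx, hq, h⟩ | ⟨h0, h⟩ | ⟨gs, g, h0, h1, h2, h⟩
        · rw [h]; rfl
        · rw [h]; rfl
        · exact absurd h0.1 hg
      rw [if_pos hd, List.filter_cons_of_neg (by simpa using (hS.pr_ow hr hv2).2 ⟨hD, hgp⟩),
        List.filter_cons_of_neg (by simpa using (hS.pr_ow hr hv1).2 ⟨hD, hgp⟩)]
      simp [GZ.ol, hlk, hg]
  · have hp1 := hS.pr_ow_true hr hv1 (fun h => hD h.1)
    by_cases hd0 : R.dbl z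
    · have hd := (dbl_iff (h := h) hz hg1).2 hd0
      have hv2 : h.toRD.Val (Tok.ow z false : Tok C (Option α)) := fun _ => hd
      have hp2 := hS.pr_ow_true hr hv2 (fun h => hD h.1)
      rw [if_pos hd, List.filter_cons_of_pos (by simpa using hp2),
        List.filter_cons_of_pos (by simpa using hp1)]
      cases hb : h.toRD.le s pr (Tok.up z true) with
      | true =>
        have hlk : h.lk s pr D z = LS.even := by
          rw [lk_ne hz hg1, if_neg hD, if_pos hd0, if_pos hb]
        cases ht : R.tw z with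
        | true =>
          have hs' : sw z := (hsw z).2 ⟨hz, ht⟩
          simp [GZ.ol, hlk, hs', key true hv1 hp1, key false hv2 hp2, phi_ow hz hg1, lane, hd0, ht]
        | false =>
          have hs' : ¬ sw z := fun h => by rw [((hsw z).1 h).2] at ht; simp at ht
          simp [GZ.ol, hlk, hs', key true hv1 hp1, key false hv2 hp2, phi_ow hz hg1, lane, hd0, ht]
      | false =>
        have hlk : h.lk s pr D z = LS.nn := by
          rw [lk_ne hz hg1, if_neg hD, if_pos hd0, if_neg (by simp [hb])]
        have ht := hrt z hz ((nn_real hS hlk).2 hg1).1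
        simp [GZ.ol, hlk, key true hv1 hp1, key false hv2 hp2, phi_ow hz hg1, lane, hd0, ht]
    · have hd : ¬ h.toRD.dbl z := fun h => hd0 h.1
      rw [if_neg hd, List.filter_cons_of_pos (by simpa using hp1)]
      rcases lk_single (h := h) (s := s) (pr := pr) hS.dbl hz hg1 hd0 with hlk | hlk
      · simp [GZ.ol, hlk, key true hv1 hp1, phi_ow hz hg1, lane]
      · simp [GZ.ol, hlk, key true hv1 hp1, phi_ow hz hg1, lane]

/-- the actual word as a list of letters and lanes -/
lemma act_map (z : C) : ((h.toRD.cir z).act pr s).map (fun q => (q.1, h.phi s pr D q.2.1)) =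
    ((h.toRD.rtk z).filter fun t => pr (h.toRD.tk t)).map
      (fun t => (h.toRD.le s pr t, h.phi s pr D t)) := by
  rw [hS.act_eq z, List.map_map]
  refine List.map_congr_left ?_
  intro t ht
  have hv := (mem_rtk.1 (List.mem_filter.1 ht).1).1
  show (h.toRD.le s pr t, h.phi s pr D (h.toRD.tk t).1) = _
  rw [h.toRD.tk_val hv]

lemma items_ne {z : C} (hz : z ≠ R.r) :
    ((((R.rd z).map em).flatMap h.toRD.itk).filter fun t => pr (h.toRD.tk t)).map
      (fun t => (h.toRD.le s pr t, h.phi s pr D t)) =
      (R.rd z).flatMap (il (h.lk s pr D) (h.lt s pr)) := by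
  rw [List.flatMap_map, List.filter_flatMap, List.map_flatMap]
  refine List.flatMap_congr ?_
  intro i hi
  exact item_ne hS hz hi

/-- **the word of a circle** which is not the root circle -/
theorem act_ne (hgx : ∀ z, R.grp z → R.xN z = none)
    (hrt : ∀ z, z ≠ R.r → R.real z → R.tw z = false)
    {sw : C → Prop} (hsw : ∀ z, sw z ↔ z ≠ R.r ∧ R.tw z = true) {z : C} (hz : z ≠ R.r) :
    ∃ u v, ((h.toRD.cir z).act pr s).map (fun q => (q.1, h.phi s pr D q.2.1)) = u ++ v ∧
      wd R.grp sw (h.lk s pr D) (h.lt s pr) R.rd z = v ++ u ∧ v.length ≤ 1 := by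
  classical
  have h2 := act_map hS z
  have h3 : h.toRD.rtk z = [Tok.ow z true] ++ ((h.toRD.rd z).flatMap h.toRD.itk ++
    (if h.toRD.dbl z then [Tok.ow z false] else [])) := rfl
  have h0 : h.toRD.rd z = lst (R.xN' g1 z) (R.p' g1 z) (R.us' us0 z) := rfl
  by_cases hg : z = g1
  · subst hg
    have hr := nD_r hS
    have hv1 : h.toRD.Val (Tok.ow z true : Tok C (Option α)) := fun h => by simp at h
    have hp1 := hS.pr_ow_true hr hv1 (fun h => nD_g hS h.1)
    have hl1 : h.toRD.le s pr (Tok.ow z true) = true := lo_ow (hS.lo hv1 hp1)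
    have hown : (([Tok.ow z true] : List (Tok C (Option α))).filter
        fun t => pr (h.toRD.tk t)).map (fun t => (h.toRD.le s pr t, h.phi s pr D t)) =
        [(true, Sum.inr (z, 0))] := by
      rw [List.filter_cons_of_pos (by simpa using hp1)]
      simp [hl1, phi_ow_g]
    refine ⟨((h.toRD.cir z).act pr s).map (fun q => (q.1, h.phi s pr D q.2.1)), [], by simp, ?_,
      by simp⟩
    rw [List.nil_append, h2, h3, if_neg ndbl_g, List.append_nil, List.filter_append,
      List.map_append, hown, h0]
    by_cases hd : R.dbl z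
    · have hx : (none : Option α) ∈ h.toRD.L := mem_L'_none.2 hd
      have hpx := hS.pr_pt hr hx
      have hlx : h.toRD.le s pr (Tok.pt none) = true := by
        refine hS.portx hr (z := z) ?_
        exact xN'_e hd
      rw [h.rd'_g_e hd, List.flatMap_cons, List.filter_append, List.map_append, items_ne hS hz]
      have hi0 : h.toRD.itk (Sum.inl none) = [Tok.pt none] := rfl
      rw [hi0, List.filter_cons_of_pos (by simpa using hpx)]
      simp [wd, GZ.ol, lk_g_e hd, hlx, phi_none]
    · rw [h.rd'_g_o hd, items_ne hS hz]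
      simp [wd, GZ.ol, lk_g_o hd]
  · rw [rd'_ne hz hg] at h0
    rw [h0] at h3
    refine ⟨(([Tok.ow z true] : List (Tok C (Option α))).filter fun t => pr (h.toRD.tk t)).map
        (fun t => (h.toRD.le s pr t, h.phi s pr D t)) ++
        (R.rd z).flatMap (il (h.lk s pr D) (h.lt s pr)),
      ((if h.toRD.dbl z then [Tok.ow z false] else [] : List (Tok C (Option α))).filter
        fun t => pr (h.toRD.tk t)).map (fun t => (h.toRD.le s pr t, h.phi s pr D t)), ?_, ?_, ?_⟩
    · rw [h2, h3, List.filter_append, List.filter_append, List.map_append, List.map_append,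
        items_ne hS hz, List.append_assoc]
    · unfold wd
      rw [← own_ne hS hgx hrt hsw hz hg, List.append_assoc]
    · rw [List.length_map]
      refine (List.length_filter_le _ _).trans ?_
      split_ifs
      · exact le_rfl
      · exact Nat.zero_le _

/-- **the word of the root circle** -/
theorem act_r (hgr : ¬ R.grp R.r) {sw : C → Prop} :
    ((h.toRD.cir R.r).act pr s).map (fun q => (q.1, h.phi s pr D q.2.1)) =
      bw (wd R.grp sw (h.lk s pr D) (h.lt s pr) R.rd R.r) := by
  classical
  have hr := nD_r hS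
  have h2 := act_map hS R.r
  have h3 : h.toRD.rtk R.r = [Tok.ow R.r true] ++ ((h.toRD.rd R.r).flatMap h.toRD.itk ++
    (if h.toRD.dbl R.r then [Tok.ow R.r false] else [])) := rfl
  have h0 : h.toRD.rd R.r = lst (R.xN' g1 R.r) (R.p' g1 R.r) (R.us' us0 R.r) := rfl
  have hv1 : h.toRD.Val (Tok.ow R.r true : Tok C (Option α)) := fun h => by simp at h
  have hp1 := hS.pr_ow_true hr hv1 (fun h => hr h.1)
  have hl1 : h.toRD.le s pr (Tok.ow R.r true) = true := lo_ow (hS.lo hv1 hp1)
  have hown : (([Tok.ow R.r true] : List (Tok C (Option α))).filter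
      fun t => pr (h.toRD.tk t)).map (fun t => (h.toRD.le s pr t, h.phi s pr D t)) =
      [(true, Sum.inr (g1, if R.dbl g1 then 2 else 0))] := by
    rw [List.filter_cons_of_pos (by simpa using hp1)]
    simp [hl1, phi_ow_r]
  have hit : ((((us0.flatMap It.fl).reverse.map em).flatMap h.toRD.itk).filter
      fun t => pr (h.toRD.tk t)).map (fun t => (h.toRD.le s pr t, h.phi s pr D t)) =
      bw ((us0.flatMap It.fl).flatMap (il (h.lk s pr D) (h.lt s pr))) := by
    rw [bw_flatMap, List.flatMap_map, List.filter_flatMap, List.map_flatMap]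
    refine List.flatMap_congr ?_
    intro i hi
    exact item_r hS (List.mem_reverse.1 hi)
  have hwd : wd R.grp sw (h.lk s pr D) (h.lt s pr) R.rd R.r =
      (us0.flatMap It.fl).flatMap (il (h.lk s pr D) (h.lt s pr)) ++
        il (h.lk s pr D) (h.lt s pr) (Sum.inr g1) := by
    unfold wd
    rw [h.rd_r, List.flatMap_append, List.flatMap_singleton]
    simp [GZ.ol, lk_r, hgr]
  rw [h2, h3, if_neg ndbl_r, List.append_nil, List.filter_append, List.map_append, hown, h0, hwd,
    bw_append]
  by_cases hd : R.dbl g1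
  · have hg : (Sum.inr g1 : Option α ⊕ C) ∈ h.toRD.rd R.r := by
      rw [h0, h.rd'_r_e hd]
      exact List.mem_cons_self
    have hvg : h.toRD.Val (Tok.up g1 true : Tok C (Option α)) :=
      ⟨(mem_rdc hg).2, fun h => by simp at h⟩
    have hpg := hS.pr_up_true hr hvg (nD_g hS)
    have hlg : h.toRD.le s pr (Tok.up g1 true) = true := by
      have h4 := hS.lo hvg hpg
      have h5 : h.toRD.ndr (Tok.up g1 true : Tok C (Option α)) = R.r := h.g1_par
      rw [h5] at h4
      exact h.lo_g1 h4
    rw [h.rd'_r_e hd, List.flatMap_cons, List.filter_append, List.map_append, hit]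
    have hi0 : h.toRD.itk (Sum.inr g1) = [Tok.up g1 true] := by
      rw [itk_inr, if_neg ndbl_g]
    rw [hi0, List.filter_cons_of_pos (by simpa using hpg)]
    simp [il, lk_g_e hd, hlg, phi_up_g, bw, hd]
  · rw [h.rd'_r_o hd, hit]
    simp [il, lk_g_o hd, bw, hd]

end words

end lemmas

end RE

end RD

end Pool.Agent.MP42.U
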