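import Pool.Agent.MP42.U.Rt
import Pool.Agent.MP42.U.Lk
import Pool.Agent.MP42.U.SMain

/-!
# The root level: states of the circles

`RD.exists_sl0`: states of the circles for any `R : RD C α`.
-/

set_option autoImplicit false
set_option linter.unusedSectionVars false

namespace Pool.Agent.MP42.U

open Pool.Agent.MP42.GZ

namespace RD

variable {C α : Type*}

/-- **states of the circles** -/
theorem exists_sl0 (R : RD C α) [Fintype C] :
    ∃ (s pr : R.T → Bool) (D : C → Prop), Sl R s pr D ∧
      ∀ V : R.T → B, (∀ t, pr t = true → pr (R.lam t) = true → V (R.lam t) = V t) →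
        (∀ c, (R.cir c).isGp = true → D c → V (R.ol c) = V (R.or c)) →
        (∀ z, Cl V ((R.cir z).act pr s)) → ∃ k, ∀ t, pr t = true → V t = k := by
  classical
  obtain ⟨e, h, he, hF⟩ := R.exists_sys
  have : Finite R.T := finite_T R
  have : Fintype R.T := Fintype.ofFinite R.T
  obtain ⟨s, h1, h2, h3, h4⟩ := Sys.main hF (e R.r)
  obtain ⟨pr, hpr⟩ : ∃ pr, pr = (R.sys e h).pr fun _ => s := ⟨_, rfl⟩
  rw [← hpr] at h2 h3 h4
  have hc : ∀ z, (R.sys e h).c (e z) = R.cir z := by
    intro z
    show R.cir (e.symm (e z)) = _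
    rw [Equiv.symm_apply_apply]
  have hE : ∀ z, R.E z s := by
    intro z
    have := (h1 (e z)).2
    rwa [Equiv.symm_apply_apply] at this
  have heo : ∀ z, EO R z s := by
    intro z
    obtain ⟨e1, e2, e3, e4⟩ := hE z
    refine ⟨e1, fun x hx => e2 x (by rw [hx]; rfl), fun q hq => e3 q (by rw [hq]; rfl), ?_⟩
    intro hd hp hx
    exact e4 hx hp _ (by rw [orr_some hd]; rfl)
  have hDr : ∀ c, (R.sys e h).Dr (fun _ => s) (e c) → R.dbl c ∧ s (R.or c) = false := by
    intro c hD
    cases hD with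
    | mk _ r hr' h' hb =>
      rw [hc, cir_r] at hr'
      by_cases hd : R.dbl c
      · rw [orr_some hd] at hr'
        rw [← Option.some.inj hr'] at h'
        exact ⟨hd, h'⟩
      · rw [orr_none hd] at hr'
        simp at hr'
  have hSl : Sl R s pr fun c => (R.sys e h).Dr (fun _ => s) (e c) := by
    refine ⟨?_, ?_, heo, ?_, ?_, fun c hD => (hDr c hD).1, fun c hD => (hDr c hD).2, ?_⟩
    · intro z
      have := (h1 (e z)).1
      rwa [hc] at this
    · intro z
      have := hF.pc (fun f => (h1 f).2) (e z)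
      rw [← hpr, hc] at this
      exact this
    · intro z
      have := (h3 (e z)).2
      rwa [hc] at this
    · intro z
      have := (h3 (e z)).1
      rwa [hc] at this
    · intro t
      rw [hpr, Sys.pr_false]
      constructor
      · rintro ⟨g, hD, r, hr', h5⟩
        obtain ⟨c, rfl⟩ := e.surjective g
        obtain ⟨hd, -⟩ := hDr c hD
        rw [hc] at hr' h5
        rw [cir_r, orr_some hd] at hr'
        rw [← Option.some.inj hr', cir_l] at h5
        exact ⟨c, hD, h5⟩
      · rintro ⟨c, hD, h5⟩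
        obtain ⟨hd, -⟩ := hDr c hD
        refine ⟨e c, hD, R.or c, ?_, ?_⟩
        · rw [hc, cir_r, orr_some hd]
        · rw [hc, cir_l]
          exact h5
  refine ⟨s, pr, fun c => (R.sys e h).Dr (fun _ => s) (e c), hSl, ?_⟩
  intro V hV hgp hcl
  have hgp' : ∀ f, ((R.sys e h).c f).isGp = true → (R.sys e h).Dr (fun _ => s) f → ∀ r,
      ((R.sys e h).c f).r = some r → V ((R.sys e h).c f).l = V r := by
    intro f hg hD r hr'
    obtain ⟨c, rfl⟩ := e.surjective f
    obtain ⟨hd, -⟩ := hDr c hD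
    rw [hc] at hg hr' ⊢
    rw [cir_r, orr_some hd] at hr'
    rw [← Option.some.inj hr', cir_l]
    exact hgp c hg hD
  have hcl' : ∀ f, Cl V (((R.sys e h).c f).act ((R.sys e h).pr fun _ => s) s) := by
    intro f
    obtain ⟨c, rfl⟩ := e.surjective f
    rw [← hpr, hc]
    exact hcl c
  obtain ⟨k, hk, -⟩ := h4 V ⟨by
      intro t t3 t4
      rw [← hpr] at t3 t4
      exact hV t t3 t4, hgp', fun f _ => hcl' f, by
      obtain ⟨S, hS, -⟩ := hcl' (e R.r)
      exact ⟨S, hS⟩⟩
  exact ⟨k, hk⟩

end RD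

end Pool.Agent.MP42.U
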