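import Pool.Agent.MP42.U.Bri2

/-!
# Project MP42: the root edge

`RE R g1 us0`: the circle `g1` is the last item of the root circle of the closed level `R`.
`RE.rd'`: the root circle is read backwards; its own token is the own token of `g1` (own link of `g1`
single) or the second lane of the link to `g1`, which is an extra letter `none` at `g1` (own link of
`g1` double).
-/

set_option autoImplicit false

namespace Pool.Agent.MP42.U

namespace It

variable {I I' : Type*}

/-- the items are mapped -/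
def mp (f : I → I') : It I → It I'
  | ev i => ev (f i)
  | fr i => fr (f i)
  | br g m x => br (f g) (m.map f) (f x)

/-- read backwards -/
def rev : It I → It I
  | ev i => ev i
  | fr i => fr i
  | br g m x => br x m.reverse g

lemma fl_mp (f : I → I') (u : It I) : (u.mp f).fl = u.fl.map f := by
  cases u <;> simp [mp, fl]

lemma fl_rev (u : It I) : u.rev.fl = u.fl.reverse := by
  cases u <;> simp [rev, fl]

lemma fri_mp (f : I → I') (u : It I) : (u.mp f).fri = u.fri.map f := by
  cases u <;> simp [mp, fri]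

lemma fri_rev (u : It I) : u.rev.fri = u.fri := by
  cases u <;> simp [rev, fri]

lemma fls_mp (f : I → I') (us : List (It I)) :
    (us.map (mp f)).flatMap fl = (us.flatMap fl).map f := by
  induction us with
  | nil => rfl
  | cons u us ih => rw [List.map_cons, List.flatMap_cons, ih, fl_mp, List.flatMap_cons,
      List.map_append]

lemma fris_mp (f : I → I') (us : List (It I)) :
    (us.map (mp f)).flatMap fri = (us.flatMap fri).map f := by
  induction us with
  | nil => rfl
  | cons u us ih => rw [List.map_cons, List.flatMap_cons, ih, fri_mp, List.flatMap_cons,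
      List.map_append]

lemma fls_rev (us : List (It I)) :
    (us.reverse.map rev).flatMap fl = (us.flatMap fl).reverse := by
  induction us with
  | nil => rfl
  | cons u us ih => rw [List.reverse_cons, List.map_append, List.flatMap_append, ih,
      List.flatMap_cons, List.reverse_append, List.map_singleton, List.flatMap_singleton, fl_rev]

lemma fris_rev (us : List (It I)) :
    ((us.reverse.map rev).flatMap fri).length = (us.flatMap fri).length := by
  induction us with
  | nil => rfl
  | cons u us ih => rw [List.reverse_cons, List.map_append, List.flatMap_append, List.length_append,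
      ih, List.flatMap_cons, List.length_append, List.map_singleton, List.flatMap_singleton,
      fri_rev, add_comm]

end It

/-- two units with a common item are equal -/
lemma unit_eq {I : Type*} : ∀ {us : List (It I)}, (us.flatMap It.fl).Nodup → ∀ {u v : It I},
    u ∈ us → v ∈ us → ∀ {i : I}, i ∈ u.fl → i ∈ v.fl → u = v := by
  intro us
  induction us with
  | nil => intro _ u v hu; simp at hu
  | cons w us ih =>
    intro hn u v hu hv i hi hi'
    rw [List.flatMap_cons, List.nodup_append] at hn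
    rcases List.mem_cons.1 hu with hu | hu <;> rcases List.mem_cons.1 hv with hv | hv
    · rw [hu, hv]
    · rw [hu] at hi
      exact absurd rfl (hn.2.2 i hi i (List.mem_flatMap.2 ⟨v, hv, hi'⟩))
    · rw [hv] at hi'
      exact absurd rfl (hn.2.2 i hi' i (List.mem_flatMap.2 ⟨u, hu, hi⟩))
    · exact ih hn.2.1 hu hv hi hi'

namespace RD

variable {C α : Type*}

/-- letters get an extra element -/
def em : α ⊕ C → Option α ⊕ C := Sum.map some id

@[simp] lemma em_inl (q : α) : (em (Sum.inl q) : Option α ⊕ C) = Sum.inl (some q) := rfl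

@[simp] lemma em_inr (c : C) : (em (Sum.inr c : α ⊕ C)) = Sum.inr c := rfl

lemma em_inj : Function.Injective (em : α ⊕ C → Option α ⊕ C) := by
  intro i j h
  rcases i with q | c <;> rcases j with q' | c'
  · have : some q = some q' := Sum.inl_injective h
    rw [Option.some_inj.1 this]
  · simp at h
  · simp at h
  · have : c = c' := Sum.inr_injective h
    rw [this]

lemma em_ne (i : α ⊕ C) : em i ≠ Sum.inl none := by
  rcases i with q | c <;> simp

/-- **a root edge**: `g1` is the last item of the root circle -/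
structure RE (R : RD C α) (g1 : C) (us0 : List (It (α ⊕ C))) : Prop where
  dr : R.dbl R.r
  pr : R.p R.r = none
  us : (R.dbl g1 ∧ R.us R.r = us0 ++ [It.ev (Sum.inr g1)]) ∨
    (¬ R.dbl g1 ∧ R.us R.r = us0 ++ [It.fr (Sum.inr g1)])
  x1 : R.dbl g1 → R.xN g1 = none

namespace RE

variable {R : RD C α} {g1 : C} {us0 : List (It (α ⊕ C))} (h : RE R g1 us0)

include h

lemma ex : R.ex = none := R.ex_dbl.1 h.dr

lemma xr : R.xN R.r = none := (R.root h.dr).1

lemma rd_r : R.rd R.r = us0.flatMap It.fl ++ [Sum.inr g1] := by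
  unfold rd lst
  rw [h.xr, h.pr]
  rcases h.us with ⟨-, h1⟩ | ⟨-, h1⟩ <;> rw [h1, List.flatMap_append] <;> rfl

lemma us_mem {u : It (α ⊕ C)} (hu : u ∈ us0) : u ∈ R.us R.r := by
  rcases h.us with ⟨-, h1⟩ | ⟨-, h1⟩ <;> rw [h1] <;> exact List.mem_append_left _ hu

lemma g1_mem : (Sum.inr g1 : α ⊕ C) ∈ R.rd R.r := by
  rw [h.rd_r]
  simp

lemma g1_par : R.par g1 = R.r := (mem_rdc h.g1_mem).1

lemma g1_ne : g1 ≠ R.r := (mem_rdc h.g1_mem).2.1

lemma nd : (us0.flatMap It.fl).Nodup ∧ (Sum.inr g1 : α ⊕ C) ∉ us0.flatMap It.fl := by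
  have h1 : (R.rd R.r).Nodup := R.nodup R.r
  rw [h.rd_r, List.nodup_append] at h1
  exact ⟨h1.1, fun h2 => h1.2.2 _ h2 _ (by simp) rfl⟩

/-- the items of the root circle -/
lemma mem0 {i : α ⊕ C} : i ∈ us0.flatMap It.fl ↔
    (∀ q, i = Sum.inl q → q ∈ R.L) ∧ Sum.elim R.pt R.par i = R.r ∧ i ≠ Sum.inr R.r ∧
      i ≠ Sum.inr g1 := by
  have h1 := mem_rdz (R := R) (z := R.r) (i := i)
  rw [h.rd_r, List.mem_append, List.mem_singleton, h.ex] at h1
  constructor
  · intro h2
    obtain ⟨a, b, c, -⟩ := h1.1 (Or.inl h2)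
    exact ⟨a, b, c, fun h3 => h.nd.2 (h3 ▸ h2)⟩
  · rintro ⟨a, b, c, d⟩
    rcases h1.2 ⟨a, b, c, by simp⟩ with h2 | h2
    · exact h2
    · exact absurd h2 d

end RE

/-! ### The new data -/

section new

variable (R : RD C α) (g1 : C) (us0 : List (It (α ⊕ C)))

/-- the own link is double -/
def dbl' (c : C) : Prop := R.dbl c ∧ c ≠ R.r ∧ c ≠ g1

open Classical in
/-- the letters -/
noncomputable def L' : Finset (Option α) :=
  if R.dbl g1 then Finset.insertNone R.L else R.L.map Function.Embedding.some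

open Classical in
/-- port of the own dock -/
noncomputable def xN' (z : C) : Option (Option α) :=
  if z = g1 ∧ R.dbl g1 then some none else (R.xN z).map some

/-- the front part -/
def pm (q : List (α ⊕ C) × (α ⊕ C)) : List (Option α ⊕ C) × (Option α ⊕ C) := (q.1.map em, em q.2)

open Classical in
/-- the front part -/
noncomputable def p' (z : C) : Option (List (Option α ⊕ C) × (Option α ⊕ C)) :=
  if z = R.r then (if R.dbl g1 then some ([], Sum.inr g1) else none) else (R.p z).map pm

open Classical in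
/-- the units -/
noncomputable def us' (z : C) : List (It (Option α ⊕ C)) :=
  if z = R.r then (us0.reverse.map It.rev).map (It.mp em) else (R.us z).map (It.mp em)

open Classical in
/-- the token at the root gap -/
noncomputable def ex' : Option (Option α ⊕ C) :=
  if R.dbl g1 then some (Sum.inl none) else some (Sum.inr g1)

/-- the ports -/
def Po' (i : Option α ⊕ C) : Prop :=
  (∃ i0, i = em i0 ∧ R.Po i0 ∧ Sum.elim R.pt R.par i0 ≠ R.r) ∨
    (∃ f m x, It.br f m x ∈ us0 ∧ i = em f) ∨ (i = Sum.inr g1 ∧ R.dbl g1)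

end new

section

variable {R : RD C α} {g1 : C} {us0 : List (It (α ⊕ C))}

lemma xN'_ne {z : C} (hz : z ≠ g1) : R.xN' g1 z = (R.xN z).map some := by
  unfold xN'
  rw [if_neg fun h => hz h.1]

lemma xN'_e (hd : R.dbl g1) : R.xN' g1 g1 = some none := by
  unfold xN'
  rw [if_pos ⟨rfl, hd⟩]

lemma xN'_o (hd : ¬ R.dbl g1) (z : C) : R.xN' g1 z = (R.xN z).map some := by
  unfold xN'
  rw [if_neg fun h => hd h.2]

lemma p'_ne {z : C} (hz : z ≠ R.r) : R.p' g1 z = (R.p z).map pm := by
  unfold p'
  rw [if_neg hz]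

lemma p'_e (hd : R.dbl g1) : R.p' g1 R.r = some ([], Sum.inr g1) := by
  unfold p'
  rw [if_pos rfl, if_pos hd]

lemma p'_o (hd : ¬ R.dbl g1) : R.p' g1 R.r = none := by
  unfold p'
  rw [if_pos rfl, if_neg hd]

lemma us'_ne {z : C} (hz : z ≠ R.r) : R.us' us0 z = (R.us z).map (It.mp em) := by
  unfold us'
  rw [if_neg hz]

lemma us'_r : R.us' us0 R.r = (us0.reverse.map It.rev).map (It.mp em) := by
  unfold us'
  rw [if_pos rfl]

lemma ex'_e (hd : R.dbl g1) : R.ex' g1 = some (Sum.inl none) := by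
  unfold ex'
  rw [if_pos hd]

lemma ex'_o (hd : ¬ R.dbl g1) : R.ex' g1 = some (Sum.inr g1) := by
  unfold ex'
  rw [if_neg hd]

lemma mem_L'_some {q : α} : some q ∈ R.L' g1 ↔ q ∈ R.L := by
  unfold L'
  split_ifs
  · exact Finset.some_mem_insertNone
  · simp

lemma mem_L'_none : none ∈ R.L' g1 ↔ R.dbl g1 := by
  unfold L'
  split_ifs with h
  · simp [h]
  · simp [h]

lemma lst_em (xn : Option α) (p : Option (List (α ⊕ C) × (α ⊕ C))) (us : List (It (α ⊕ C))) :
    lst (xn.map some) (p.map pm) (us.map (It.mp em)) = (lst xn p us).map em := by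
  unfold lst
  rw [List.map_append, List.map_append, It.fls_mp]
  cases xn <;> cases p <;> simp [pm]

/-- the new readings, not the root -/
lemma rd'_ne {z : C} (hz : z ≠ R.r) (hz' : z ≠ g1) :
    lst (R.xN' g1 z) (R.p' g1 z) (R.us' us0 z) = (R.rd z).map em := by
  rw [xN'_ne hz', p'_ne hz, us'_ne hz, lst_em]
  rfl

namespace RE

variable (h : RE R g1 us0)

include h

lemma rd'_g_e (hd : R.dbl g1) :
    lst (R.xN' g1 g1) (R.p' g1 g1) (R.us' us0 g1) = Sum.inl none :: (R.rd g1).map em := by
  have h1 := lst_em (R.xN g1) (R.p g1) (R.us g1)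
  rw [xN'_e hd, p'_ne h.g1_ne, us'_ne h.g1_ne]
  rw [h.x1 hd] at h1
  unfold rd
  rw [h.x1 hd, ← h1]
  rfl

lemma rd'_g_o (hd : ¬ R.dbl g1) :
    lst (R.xN' g1 g1) (R.p' g1 g1) (R.us' us0 g1) = (R.rd g1).map em := by
  rw [xN'_o hd, p'_ne h.g1_ne, us'_ne h.g1_ne, lst_em]
  rfl

lemma xN'_r : R.xN' g1 R.r = none := by
  rw [xN'_ne h.g1_ne.symm, h.xr]
  rfl

lemma rd'_r_e (hd : R.dbl g1) :
    lst (R.xN' g1 R.r) (R.p' g1 R.r) (R.us' us0 R.r) =
      Sum.inr g1 :: (us0.flatMap It.fl).reverse.map em := by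
  rw [h.xN'_r, p'_e hd, us'_r]
  unfold lst
  rw [It.fls_mp, It.fls_rev]
  rfl

lemma rd'_r_o (hd : ¬ R.dbl g1) :
    lst (R.xN' g1 R.r) (R.p' g1 R.r) (R.us' us0 R.r) = (us0.flatMap It.fl).reverse.map em := by
  rw [h.xN'_r, p'_o hd, us'_r]
  unfold lst
  rw [It.fls_mp, It.fls_rev]
  rfl

lemma nodup' (z : C) : (lst (R.xN' g1 z) (R.p' g1 z) (R.us' us0 z)).Nodup := by
  have key : ∀ l : List (α ⊕ C), l.Nodup → (l.map em).Nodup := fun l hl => hl.map em_inj
  by_cases hz : z = R.r
  · subst hz
    by_cases hd : R.dbl g1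
    · rw [h.rd'_r_e hd, List.nodup_cons]
      refine ⟨fun h1 => ?_, key _ (List.nodup_reverse.2 h.nd.1)⟩
      obtain ⟨i, hi, h2⟩ := List.mem_map.1 h1
      have h3 : i = Sum.inr g1 := em_inj h2
      rw [h3, List.mem_reverse] at hi
      exact h.nd.2 hi
    · rw [h.rd'_r_o hd]
      exact key _ (List.nodup_reverse.2 h.nd.1)
  · by_cases hz' : z = g1
    · subst hz'
      by_cases hd : R.dbl z
      · rw [h.rd'_g_e hd, List.nodup_cons]
        refine ⟨fun h1 => ?_, key _ (R.nodup z)⟩
        obtain ⟨i, hi, h2⟩ := List.mem_map.1 h1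
        exact em_ne i h2
      · rw [h.rd'_g_o hd]
        exact key _ (R.nodup z)
    · rw [rd'_ne hz hz']
      exact key _ (R.nodup z)

/-- an item of the list `l` -/
lemma mem_map_em {l : List (α ⊕ C)} {i : Option α ⊕ C} : i ∈ l.map em ↔
    (∃ q, i = Sum.inl (some q) ∧ Sum.inl q ∈ l) ∨ ∃ c, i = Sum.inr c ∧ Sum.inr c ∈ l := by
  rw [List.mem_map]
  constructor
  · rintro ⟨i0, h1, rfl⟩
    rcases i0 with q | c
    · exact Or.inl ⟨q, rfl, h1⟩
    · exact Or.inr ⟨c, rfl, h1⟩
  · rintro (⟨q, rfl, h1⟩ | ⟨c, rfl, h1⟩)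
    · exact ⟨_, h1, rfl⟩
    · exact ⟨_, h1, rfl⟩

lemma mem_rd' (z : C) (i : Option α ⊕ C) : i ∈ lst (R.xN' g1 z) (R.p' g1 z) (R.us' us0 z) ↔
    (∀ q, i = Sum.inl q → q ∈ R.L' g1) ∧
      Sum.elim (fun q : Option α => q.elim g1 R.pt) R.par i = z ∧ i ≠ Sum.inr R.r ∧
      ∀ c, R.ex' g1 = some (Sum.inr c) → i ≠ Sum.inr c := by
  have hex : (∀ c, R.ex' g1 = some (Sum.inr c) → i ≠ Sum.inr c) ↔
      (R.dbl g1 ∨ i ≠ Sum.inr g1) := by
    by_cases hd : R.dbl g1
    · rw [ex'_e hd]
      simp [hd]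
    · rw [ex'_o hd]
      constructor
      · intro h1
        exact Or.inr (h1 g1 rfl)
      · rintro (h1 | h1) c hc
        · exact absurd h1 hd
        · have : g1 = c := by simpa using hc
          rw [← this]
          exact h1
  rw [hex]
  rcases i with (_ | q) | c
  · -- the extra letter
    have e1 : ∀ l : List (α ⊕ C), (Sum.inl none : Option α ⊕ C) ∉ l.map em := by
      intro l h1
      obtain ⟨i, hi, h2⟩ := List.mem_map.1 h1
      exact em_ne i h2
    have e2 : ((∀ q, (Sum.inl none : Option α ⊕ C) = Sum.inl q → q ∈ R.L' g1) ∧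
        Sum.elim (fun q : Option α => q.elim g1 R.pt) R.par (Sum.inl none) = z ∧
        (Sum.inl none : Option α ⊕ C) ≠ Sum.inr R.r ∧
        (R.dbl g1 ∨ (Sum.inl none : Option α ⊕ C) ≠ Sum.inr g1)) ↔ R.dbl g1 ∧ z = g1 := by
      constructor
      · rintro ⟨h1, h2, -⟩
        exact ⟨mem_L'_none.1 (h1 none rfl), h2.symm⟩
      · rintro ⟨h1, h2⟩
        refine ⟨fun q hq => ?_, h2.symm, by simp, Or.inl h1⟩
        rw [← Sum.inl_injective hq]
        exact mem_L'_none.2 h1
    rw [e2]
    by_cases hd : R.dbl g1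
    · by_cases hz' : z = g1
      · subst hz'
        rw [h.rd'_g_e hd]
        simp [hd]
      · have : (Sum.inl none : Option α ⊕ C) ∉ lst (R.xN' g1 z) (R.p' g1 z) (R.us' us0 z) := by
          by_cases hz : z = R.r
          · subst hz
            rw [h.rd'_r_e hd]
            simp only [List.mem_cons, reduceCtorEq, false_or]
            exact e1 _
          · rw [rd'_ne hz hz']
            exact e1 _
        simp [this, hz']
    · have : (Sum.inl none : Option α ⊕ C) ∉ lst (R.xN' g1 z) (R.p' g1 z) (R.us' us0 z) := by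
        by_cases hz : z = R.r
        · subst hz
          rw [h.rd'_r_o hd]
          exact e1 _
        · by_cases hz' : z = g1
          · subst hz'
            rw [h.rd'_g_o hd]
            exact e1 _
          · rw [rd'_ne hz hz']
            exact e1 _
      simp [this, hd]
  · -- a letter
    have e1 : ∀ l : List (α ⊕ C), (Sum.inl (some q) : Option α ⊕ C) ∈ l.map em ↔
        Sum.inl q ∈ l := by
      intro l
      rw [mem_map_em h]
      simp
    have e2 : ((∀ q', (Sum.inl (some q) : Option α ⊕ C) = Sum.inl q' → q' ∈ R.L' g1) ∧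
        Sum.elim (fun q : Option α => q.elim g1 R.pt) R.par (Sum.inl (some q)) = z ∧
        (Sum.inl (some q) : Option α ⊕ C) ≠ Sum.inr R.r ∧
        (R.dbl g1 ∨ (Sum.inl (some q) : Option α ⊕ C) ≠ Sum.inr g1)) ↔ q ∈ R.L ∧ R.pt q = z := by
      constructor
      · rintro ⟨h1, h2, -⟩
        exact ⟨mem_L'_some.1 (h1 _ rfl), h2⟩
      · rintro ⟨h1, h2⟩
        refine ⟨fun q' hq => ?_, h2, by simp, Or.inr (by simp)⟩
        rw [← Sum.inl_injective hq]
        exact mem_L'_some.2 h1
    rw [e2]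
    have e3 : ∀ z, (Sum.inl q : α ⊕ C) ∈ R.rd z ↔ q ∈ R.L ∧ R.pt q = z := by
      intro z
      rw [mem_rdz]
      constructor
      · rintro ⟨h1, h2, -⟩
        exact ⟨h1 _ rfl, h2⟩
      · rintro ⟨h1, h2⟩
        exact ⟨fun q' hq => by rw [← Sum.inl_injective hq]; exact h1, h2, by simp, by simp⟩
    by_cases hz : z = R.r
    · subst hz
      have e4 : (Sum.inl q : α ⊕ C) ∈ (us0.flatMap It.fl).reverse ↔ q ∈ R.L ∧ R.pt q = R.r := by
        rw [List.mem_reverse, ← e3, h.rd_r]
        simp
      by_cases hd : R.dbl g1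
      · rw [h.rd'_r_e hd, List.mem_cons, e1, e4]
        simp
      · rw [h.rd'_r_o hd, e1, e4]
    · by_cases hz' : z = g1
      · subst hz'
        by_cases hd : R.dbl z
        · rw [h.rd'_g_e hd, List.mem_cons, e1, e3]
          simp
        · rw [h.rd'_g_o hd, e1, e3]
      · rw [rd'_ne hz hz', e1, e3]
  · -- a child
    have e1 : ∀ l : List (α ⊕ C), (Sum.inr c : Option α ⊕ C) ∈ l.map em ↔ Sum.inr c ∈ l := by
      intro l
      rw [mem_map_em h]
      simp
    have e2 : ((∀ q', (Sum.inr c : Option α ⊕ C) = Sum.inl q' → q' ∈ R.L' g1) ∧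
        Sum.elim (fun q : Option α => q.elim g1 R.pt) R.par (Sum.inr c) = z ∧
        (Sum.inr c : Option α ⊕ C) ≠ Sum.inr R.r ∧
        (R.dbl g1 ∨ (Sum.inr c : Option α ⊕ C) ≠ Sum.inr g1)) ↔
        R.par c = z ∧ c ≠ R.r ∧ (R.dbl g1 ∨ c ≠ g1) := by
      simp
    rw [e2]
    have e3 : ∀ z, (Sum.inr c : α ⊕ C) ∈ R.rd z ↔ R.par c = z ∧ c ≠ R.r := by
      intro z
      rw [mem_rdz, h.ex]
      simp
    have hg : ∀ z, z ≠ R.r → R.par c = z → c ≠ g1 := by
      rintro z hz h1 rfl
      exact hz (h1.symm.trans h.g1_par)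
    by_cases hz : z = R.r
    · subst hz
      have e4 : (Sum.inr c : α ⊕ C) ∈ (us0.flatMap It.fl).reverse ↔
          R.par c = R.r ∧ c ≠ R.r ∧ c ≠ g1 := by
        rw [List.mem_reverse, h.mem0]
        simp
      by_cases hd : R.dbl g1
      · rw [h.rd'_r_e hd, List.mem_cons, e1, e4]
        constructor
        · rintro (h1 | ⟨h1, h2, -⟩)
          · rw [Sum.inr_injective h1]
            exact ⟨h.g1_par, h.g1_ne, Or.inl hd⟩
          · exact ⟨h1, h2, Or.inl hd⟩
        · rintro ⟨h1, h2, -⟩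
          by_cases h3 : c = g1
          · left; rw [h3]
          · right; exact ⟨h1, h2, h3⟩
      · rw [h.rd'_r_o hd, e1, e4]
        simp [hd]
    · have key : (Sum.inr c : α ⊕ C) ∈ R.rd z ↔ R.par c = z ∧ c ≠ R.r ∧ (R.dbl g1 ∨ c ≠ g1) := by
        rw [e3]
        constructor
        · rintro ⟨h1, h2⟩
          exact ⟨h1, h2, Or.inr (hg z hz h1)⟩
        · rintro ⟨h1, h2, -⟩
          exact ⟨h1, h2⟩
      by_cases hz' : z = g1
      · subst hz'
        by_cases hd : R.dbl z
        · rw [h.rd'_g_e hd, List.mem_cons, e1, key]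
          simp
        · rw [h.rd'_g_o hd, e1, key]
      · rw [rd'_ne hz hz', e1, key]

omit h in
lemma od'_em {i : α ⊕ C} (h1 : Od' R.dbl i) : Od' (R.dbl' g1) (em i) := by
  rcases i with q | c
  · trivial
  · exact fun h2 => h1 h2.1

/-- even items, not the last one of the root circle -/
lemma ev'_em {z : C} {i : α ⊕ C} (hi : i ∈ R.rd z) (h1 : ¬ Od' R.dbl i) (h2 : i ≠ Sum.inr g1) :
    ¬ Od' (R.dbl' g1) (em i) := by
  obtain ⟨c, rfl, hc⟩ := even_item h1
  have h3 := mem_rdc hi
  intro h4
  exact h4 ⟨hc, h3.2.1, fun h => h2 (congrArg Sum.inr h)⟩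

/-- a port at a circle which is not the root circle -/
lemma po'_ne {z : C} (hz : z ≠ R.r) {i : α ⊕ C} (hi : i ∈ R.rd z) :
    R.Po' g1 us0 (em i) ↔ R.Po i := by
  have h1 := mem_rdz.1 hi
  constructor
  · rintro (⟨i0, h2, h3, -⟩ | ⟨f, m, x, h2, h3⟩ | ⟨h2, -⟩)
    · rw [em_inj h2]
      exact h3
    · exfalso
      have h4 : i = f := em_inj h3
      have h5 : f ∈ us0.flatMap It.fl := List.mem_flatMap.2 ⟨_, h2, by simp [It.fl]⟩
      exact hz (h1.2.1.symm.trans (by rw [h4]; exact (h.mem0.1 h5).2.1))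
    · exfalso
      have h4 : i = Sum.inr g1 := em_inj h2
      rw [h4] at h1
      exact hz (h1.2.1.symm.trans h.g1_par)
  · intro h2
    refine Or.inl ⟨i, rfl, h2, ?_⟩
    rw [h1.2.1]
    exact hz

/-- a port at the root circle -/
lemma po'_r {i : α ⊕ C} (hi : i ∈ us0.flatMap It.fl) :
    R.Po' g1 us0 (em i) ↔ ∃ m x, It.br i m x ∈ us0 := by
  have h1 := h.mem0.1 hi
  constructor
  · rintro (⟨i0, h2, -, h3⟩ | ⟨f, m, x, h2, h3⟩ | ⟨h2, -⟩)
    · exact absurd (by rw [← em_inj h2]; exact h1.2.1) h3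
    · rw [em_inj h3]
      exact ⟨m, x, h2⟩
    · exact absurd (em_inj h2) h1.2.2.2
  · rintro ⟨m, x, h2⟩
    exact Or.inr (Or.inl ⟨i, m, x, h2, rfl⟩)

lemma mem_fl {u : It (α ⊕ C)} (hu : u ∈ us0) {i : α ⊕ C} (hi : i ∈ u.fl) :
    i ∈ us0.flatMap It.fl := List.mem_flatMap.2 ⟨u, hu, hi⟩

lemma mem_rd_r {i : α ⊕ C} (hi : i ∈ us0.flatMap It.fl) : i ∈ R.rd R.r := by
  rw [h.rd_r]
  exact List.mem_append_left _ hi

lemma us_spec' (z : C) : ∀ u ∈ R.us' us0 z, u.Good (Od' (R.dbl' g1)) (R.Po' g1 us0) := by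
  intro u hu
  by_cases hz : z = R.r
  · subst hz
    rw [us'_r] at hu
    obtain ⟨v, hv, rfl⟩ := List.mem_map.1 hu
    obtain ⟨w, hw, rfl⟩ := List.mem_map.1 hv
    rw [List.mem_reverse] at hw
    have hg := usg R.r w (h.us_mem hw)
    have hne : ∀ i ∈ w.fl, i ≠ Sum.inr g1 := fun i hi => (h.mem0.1 (h.mem_fl hw hi)).2.2.2
    have hrd : ∀ i ∈ w.fl, i ∈ R.rd R.r := fun i hi => h.mem_rd_r (h.mem_fl hw hi)
    cases w with
    | ev i => exact h.ev'_em (hrd i (by simp [It.fl])) hg (hne i (by simp [It.fl]))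
    | fr i =>
      refine ⟨od'_em hg.1, ?_⟩
      rw [h.po'_r (h.mem_fl hw (by simp [It.fl]))]
      rintro ⟨m, x, h1⟩
      have h2 := unit_eq h.nd.1 hw h1 (i := i) (by simp [It.fl]) (by simp [It.fl])
      simp at h2
    | br f m x =>
      refine ⟨od'_em (R.po_od _ hg.2.2.2), ?_, ?_, ?_⟩
      · rw [h.po'_r (h.mem_fl hw (by simp [It.fl]))]
        rintro ⟨m', x', h1⟩
        have h2 := unit_eq h.nd.1 hw h1 (i := x) (by simp [It.fl]) (by simp [It.fl])
        have h3 : f = x := by
          injection h2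
        exact hg.2.1 (h3 ▸ hg.2.2.2)
      · intro i hi
        obtain ⟨i0, hi0, rfl⟩ := List.mem_map.1 hi
        rw [List.mem_reverse] at hi0
        exact h.ev'_em (hrd i0 (by simp [It.fl, hi0])) (hg.2.2.1 i0 hi0)
          (hne i0 (by simp [It.fl, hi0]))
      · exact (h.po'_r (h.mem_fl hw (by simp [It.fl]))).2 ⟨m, x, hw⟩
  · rw [us'_ne hz] at hu
    obtain ⟨w, hw, rfl⟩ := List.mem_map.1 hu
    have hg := usg z w hw
    have hrd : ∀ i ∈ w.fl, i ∈ R.rd z := fun i hi => mem_us hw hi
    have hne : ∀ i ∈ w.fl, i ≠ Sum.inr g1 := by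
      rintro i hi rfl
      exact hz ((mem_rdc (hrd _ hi)).1.symm.trans h.g1_par)
    cases w with
    | ev i => exact h.ev'_em (hrd i (by simp [It.fl])) hg (hne i (by simp [It.fl]))
    | fr i =>
      refine ⟨od'_em hg.1, ?_⟩
      rw [h.po'_ne hz (hrd i (by simp [It.fl]))]
      exact hg.2
    | br f m x =>
      refine ⟨od'_em hg.1, ?_, ?_, ?_⟩
      · rw [h.po'_ne hz (hrd f (by simp [It.fl]))]
        exact hg.2.1
      · intro i hi
        obtain ⟨i0, hi0, rfl⟩ := List.mem_map.1 hi
        exact h.ev'_em (hrd i0 (by simp [It.fl, hi0])) (hg.2.2.1 i0 hi0)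
          (hne i0 (by simp [It.fl, hi0]))
      · rw [h.po'_ne hz (hrd x (by simp [It.fl]))]
        exact hg.2.2.2

lemma p_spec' (z : C) : ∀ q ∈ R.p' g1 z, (∀ i ∈ q.1, ¬ Od' (R.dbl' g1) i) ∧
    R.Po' g1 us0 q.2 := by
  intro q hq
  by_cases hz : z = R.r
  · subst hz
    by_cases hd : R.dbl g1
    · rw [p'_e hd] at hq
      have : q = ([], Sum.inr g1) := by simpa using hq.symm
      rw [this]
      exact ⟨by simp, Or.inr (Or.inr ⟨rfl, hd⟩)⟩
    · rw [p'_o hd] at hq
      simp at hq
  · rw [p'_ne hz] at hq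
    rcases hp : R.p z with _ | q0
    · rw [hp] at hq; simp at hq
    · rw [hp] at hq
      have hq' : q = pm q0 := by simpa using hq.symm
      subst hq'
      obtain ⟨h1, h2⟩ := R.p_spec z q0 hp
      constructor
      · intro i hi
        obtain ⟨i0, hi0, rfl⟩ := List.mem_map.1 hi
        have h3 := mem_p hp (Or.inl hi0)
        refine h.ev'_em h3 (h1 i0 hi0) ?_
        rintro rfl
        exact hz ((mem_rdc h3).1.symm.trans h.g1_par)
      · exact (h.po'_ne hz (mem_p hp (Or.inr rfl))).2 h2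

lemma par_rd' (z : C) : Even ((R.xN' g1 z).elim 0 (fun _ => 1) +
    (R.p' g1 z).elim 0 (fun _ => 1) + ((R.us' us0 z).flatMap It.fri).length) ↔ R.dbl' g1 z := by
  have h1 := R.par_rd z
  by_cases hz : z = R.r
  · subst hz
    have h0 : ¬ R.dbl' g1 R.r := fun h => h.2.1 rfl
    have h2 := h1.2 h.dr
    have hx : R.xN' g1 R.r = none := h.xN'_r
    rw [h.xr, h.pr] at h2
    rw [hx, us'_r, It.fris_mp, List.length_map, It.fris_rev]
    rcases h.us with ⟨hd, h3⟩ | ⟨hd, h3⟩
    · rw [h3, List.flatMap_append, List.length_append] at h2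
      rw [p'_e hd]
      simp only [Option.elim_none, Option.elim_some, zero_add, List.flatMap_singleton, It.fri,
        List.length_nil, add_zero] at h2 ⊢
      rw [iff_false_right h0]
      rw [Nat.even_iff] at h2 ⊢
      omega
    · rw [h3, List.flatMap_append, List.length_append] at h2
      rw [p'_o hd]
      simp only [Option.elim_none, zero_add, List.flatMap_singleton, It.fri,
        List.length_singleton] at h2 ⊢
      rw [iff_false_right h0]
      rw [Nat.even_iff] at h2 ⊢
      omega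
  · rw [p'_ne hz, us'_ne hz, It.fris_mp, List.length_map]
    have hp : ((R.p z).map pm).elim 0 (fun _ => 1) = (R.p z).elim 0 (fun _ => 1) := by
      cases R.p z <;> rfl
    rw [hp]
    by_cases hz' : z = g1
    · subst hz'
      have h0 : ¬ R.dbl' z z := fun h => h.2.2 rfl
      by_cases hd : R.dbl z
      · have h2 := h1.2 hd
        rw [xN'_e hd]
        rw [h.x1 hd] at h2
        simp only [Option.elim_none, Option.elim_some, zero_add] at h2 ⊢
        rw [iff_false_right h0]
        rw [Nat.even_iff] at h2 ⊢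
        omega
      · rw [xN'_o hd]
        have hx : ((R.xN z).map some).elim 0 (fun _ => 1) = (R.xN z).elim 0 (fun _ => 1) := by
          cases R.xN z <;> rfl
        rw [hx, h1]
        exact iff_of_false hd h0
    · rw [xN'_ne hz']
      have hx : ((R.xN z).map some).elim 0 (fun _ => 1) = (R.xN z).elim 0 (fun _ => 1) := by
        cases R.xN z <;> rfl
      rw [hx, h1]
      exact ⟨fun h => ⟨h, hz, hz'⟩, fun h => h.1⟩

omit h in
/-- the condition of a circle, letters mapped -/
lemma MJ_em {real : C → Prop} {xn : Option α} {p : Option (List (α ⊕ C) × (α ⊕ C))}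
    {us : List (It (α ⊕ C))} {o : ZMod 2} {val : Option α ⊕ C → ZMod 2}
    (h : MJ real (xn.map some) (p.map pm) (us.map (It.mp em)) o val) :
    MJ real xn p us o (fun i => val (em i)) := by
  obtain ⟨b, h1, h2, h3, h4⟩ := h
  refine ⟨b, ?_, ?_, ?_, ?_⟩
  · rintro (h5 | h5)
    · exact h1 (Or.inl (by rw [h5]; rfl))
    · exact h1 (Or.inr (by rw [h5]; rfl))
  · intro x hx
    refine h2 (some x) ?_
    rw [Option.mem_def.1 hx]
    exact rfl
  · intro q hq
    obtain ⟨h5, h6⟩ := h3 (pm q) (by rw [Option.mem_def.1 hq]; exact rfl)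
    exact ⟨h5, fun i hi => h6 (em i) (List.mem_map.2 ⟨i, hi, rfl⟩)⟩
  · intro u hu
    have h5 := h4 (u.mp em) (List.mem_map.2 ⟨u, hu, rfl⟩)
    cases u with
    | ev i =>
      rcases h5 with h5 | ⟨h5, h6⟩
      · exact Or.inl h5
      · refine Or.inr ⟨?_, h6⟩
        rintro c rfl
        exact h5 c rfl
    | fr i => exact h5
    | br f m x => exact ⟨h5.1, fun i hi => h5.2 (em i) (List.mem_map.2 ⟨i, hi, rfl⟩)⟩

/-- **connectivity** -/
lemma conn' (val : Option α ⊕ C → ZMod 2)
    (h1 : ∀ i, R.ex' g1 = some i → val i = val (Sum.inr R.r))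
    (h2 : ∀ q ∈ R.L' g1, R.ex' g1 ≠ some (Sum.inl q) →
      val (Sum.inl (Option.map R.mate q)) = val (Sum.inl q))
    (h3 : ∀ z, MJ R.real (R.xN' g1 z) (R.p' g1 z) (R.us' us0 z) (val (Sum.inr z)) val) :
    (∀ c, val (Sum.inr c) = val (Sum.inr R.r)) ∧
      ∀ q ∈ R.L' g1, val (Sum.inl q) = val (Sum.inr R.r) := by
  -- the value of `g1`
  have hg : val (Sum.inr g1) = val (Sum.inr R.r) := by
    by_cases hd : R.dbl g1
    · obtain ⟨b, h4, -, h5, -⟩ := h3 R.r
      have h6 := h5 ([], Sum.inr g1) (by rw [p'_e hd]; exact rfl)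
      rw [← h4 (Or.inl h.xN'_r)]
      exact h6.1
    · exact h1 _ (ex'_o hd)
  have key := R.conn (fun i => val (em i)) (by
      intro i hi
      rw [h.ex] at hi
      simp at hi) (by
      intro q hq _
      have h4 := h2 (some q) (mem_L'_some.2 hq) (by
        by_cases hd : R.dbl g1
        · rw [ex'_e hd]; simp
        · rw [ex'_o hd]; simp)
      exact h4) (by
      intro z
      show MJ R.real (R.xN z) (R.p z) (R.us z) (val (Sum.inr z)) (fun i => val (em i))
      by_cases hz : z = R.r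
      · subst hz
        obtain ⟨b, h4, h5, h6, h7⟩ := h3 R.r
        have hb : b = val (Sum.inr R.r) := h4 (Or.inl h.xN'_r)
        rw [us'_r] at h7
        refine ⟨b, fun _ => hb, ?_, ?_, ?_⟩
        · rw [h.xr]; simp
        · rw [h.pr]; simp
        · have hu0 : ∀ u ∈ us0, match u with
              | It.ev i => val (em i) = val (Sum.inr R.r) ∨
                  ((∀ c, i = Sum.inr c → ¬ R.real c) ∧ val (em i) = b)
              | It.fr i => val (em i) = val (Sum.inr R.r)
              | It.br f m x => val (em f) = val (em x) ∧ ∀ i ∈ m, val (em i) = val (em x) := by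
            intro u hu
            have h8 := h7 (u.rev.mp em) (List.mem_map.2 ⟨u.rev, List.mem_map.2
              ⟨u, List.mem_reverse.2 hu, rfl⟩, rfl⟩)
            cases u with
            | ev i =>
              rcases h8 with h8 | ⟨-, h8⟩
              · exact Or.inl h8
              · exact Or.inl (h8.trans hb)
            | fr i => exact h8
            | br f m x =>
              obtain ⟨h9, h10⟩ := h8
              refine ⟨h9.symm, fun i hi => ?_⟩
              rw [h9]
              exact h10 (em i) (List.mem_map.2 ⟨i, List.mem_reverse.2 hi, rfl⟩)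
          intro u hu
          rcases h.us with ⟨hd, h8⟩ | ⟨hd, h8⟩
          · rw [h8, List.mem_append, List.mem_singleton] at hu
            rcases hu with hu | rfl
            · exact hu0 u hu
            · exact Or.inl hg
          · rw [h8, List.mem_append, List.mem_singleton] at hu
            rcases hu with hu | rfl
            · exact hu0 u hu
            · exact hg
      · have h4 := h3 z
        rw [p'_ne hz, us'_ne hz] at h4
        by_cases hz' : z = g1 ∧ R.dbl g1
        · obtain ⟨rfl, hd⟩ := hz'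
          rw [xN'_e hd] at h4
          obtain ⟨b, h5, h6, h7, h8⟩ := h4
          have hb : b = val (Sum.inr z) := by
            rw [← h6 none rfl, h1 _ (ex'_e hd), hg]
          refine MJ_em (xn := R.xN z) ⟨b, fun _ => hb, ?_, h7, h8⟩
          rw [h.x1 hd]
          simp
        · have hx : R.xN' g1 z = (R.xN z).map some := by
            unfold xN'
            rw [if_neg hz']
          rw [hx] at h4
          exact MJ_em h4)
  refine ⟨key.1, ?_⟩
  rintro (_ | q) hq
  · exact h1 _ (ex'_e (mem_L'_none.1 hq))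
  · exact key.2 q (mem_L'_some.1 hq)

/-- **the root circle read backwards** -/
noncomputable def toRD : RD C (Option α) where
  r := R.r
  par := R.par
  dep := R.dep
  dep_par := R.dep_par
  pt := fun q => q.elim g1 R.pt
  L := R.L' g1
  dbl := R.dbl' g1
  real := R.real
  grp := R.grp
  tw := fun c => open Classical in if R.par c = R.r then !(R.tw c) else R.tw c
  xN := R.xN' g1
  p := R.p' g1
  us := R.us' us0
  nodup := h.nodup'
  ex := R.ex' g1
  mem_rd := h.mem_rd'
  Po := R.Po' g1 us0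
  po_od := by
    rintro i (⟨i0, rfl, h1, -⟩ | ⟨f, m, x, h1, rfl⟩ | ⟨rfl, hd⟩)
    · exact od'_em (R.po_od _ h1)
    · exact od'_em (usg R.r _ (h.us_mem h1)).1
    · exact fun h2 => h2.2.2 rfl
  p_spec := h.p_spec'
  us_spec := h.us_spec'
  par_rd := h.par_rd'
  ex_dbl := by
    refine iff_of_false (fun h1 => h1.2.1 rfl) ?_
    by_cases hd : R.dbl g1
    · rw [ex'_e hd]; simp
    · rw [ex'_o hd]; simp
  ex_mem := by
    intro q hq
    by_cases hd : R.dbl g1
    · rw [ex'_e hd] at hq
      have : none = q := by simpa using hq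
      rw [← this]
      exact mem_L'_none.2 hd
    · rw [ex'_o hd] at hq
      simp at hq
  ex_c := by
    intro c hc
    by_cases hd : R.dbl g1
    · rw [ex'_e hd] at hc
      simp at hc
    · rw [ex'_o hd] at hc
      have : g1 = c := by simpa using hc
      rw [← this]
      exact ⟨h.g1_ne, fun h1 => h1.2.2 rfl⟩
  mate := Option.map R.mate
  mate_mem := by
    rintro (_ | q) hq hne
    · exact absurd (ex'_e (mem_L'_none.1 hq)) hne
    · have h1 := R.mate_mem q (mem_L'_some.1 hq) (by rw [h.ex]; simp)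
      refine ⟨mem_L'_some.2 h1.1, ?_⟩
      by_cases hd : R.dbl g1
      · rw [ex'_e hd]; simp
      · rw [ex'_o hd]; simp
  mate_mate := by
    rintro (_ | q) hq hne
    · exact absurd (ex'_e (mem_L'_none.1 hq)) hne
    · have h1 := R.mate_mate q (mem_L'_some.1 hq) (by rw [h.ex]; simp)
      simp [h1]
  mate_ne := by
    rintro (_ | q) hq hne
    · exact absurd (ex'_e (mem_L'_none.1 hq)) hne
    · have h1 := R.mate_ne q (mem_L'_some.1 hq) (by rw [h.ex]; simp)
      simpa using h1
  root := fun h1 => absurd rfl h1.2.1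
  conn := h.conn'

end RE

end

end RD

end Pool.Agent.MP42.U
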