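import Mathlib

/-!
# Project MP42: safe choices of ports are acyclic

Positions are elements of a linear order `α`. Every `i : ι` is a chord from `x i` (a used port) to
`y i`; `E i` says that its circle is read in the order of `α`, and `[lo i, hi i]` is the interval of
all positions in the subtree of the circle of `x i` which are read before `x i`, together with
`x i`: so `x i = hi i` if `E i`, and `x i = lo i` otherwise. `Before i p` says that `p` is read
before `x i`.

`wf_before`: if any two of these intervals are nested or disjoint, the chords do not cross and the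
choice is safe (`x i < y i` if `E i`, `y i < x i` otherwise), then the relation `y j` is read
before `x i` is well founded.
-/

namespace Pool.Agent.MP42.U

/-- The intervals of the ports. -/
structure Safe (ι α : Type*) [LinearOrder α] where
  x : ι → α
  y : ι → α
  E : ι → Prop
  lo : ι → α
  hi : ι → α
  lo_le : ∀ i, lo i ≤ hi i
  x_E : ∀ i, E i → x i = hi i
  x_O : ∀ i, ¬ E i → x i = lo i
  /-- safe -/
  safe_E : ∀ i, E i → x i < y i
  safe_O : ∀ i, ¬ E i → y i < x i
  /-- nested (then the port of the big one is not in the small one) or disjoint -/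
  tree : ∀ i k, i ≠ k →
    (lo k ≤ lo i ∧ hi i ≤ hi k ∧ (x k < lo i ∨ hi i < x k)) ∨
    (lo i ≤ lo k ∧ hi k ≤ hi i ∧ (x i < lo k ∨ hi k < x i)) ∨
    hi i < lo k ∨ hi k < lo i
  /-- the chords do not cross -/
  cross : ∀ m n, ¬ (y n < x m ∧ x m < x n ∧ x n < y m)

namespace Safe

variable {ι α : Type*} [LinearOrder α] (D : Safe ι α)

/-- the position `p` is read before the port `x i` -/
def Before (i : ι) (p : α) : Prop := D.lo i ≤ p ∧ p ≤ D.hi i ∧ p ≠ D.x i

theorem not_before_self (i : ι) : ¬ D.Before i (D.y i) := by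
  rintro ⟨h1, h2, h3⟩
  by_cases h : D.E i
  · have := D.safe_E i h
    rw [D.x_E i h] at this
    exact absurd h2 (not_le.2 this)
  · have := D.safe_O i h
    rw [D.x_O i h] at this
    exact absurd h1 (not_le.2 this)

/-- `i` is contained in `k` -/
def Le (i k : ι) : Prop := i = k ∨ (D.lo k ≤ D.lo i ∧ D.hi i ≤ D.hi k ∧
  (D.x k < D.lo i ∨ D.hi i < D.x k))

theorem before_of_le {i k : ι} (h : D.Le i k) {p : α} (hp : D.Before i p) : D.Before k p := by
  rcases h with rfl | ⟨h1, h2, h3⟩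
  · exact hp
  · obtain ⟨h4, h5, h6⟩ := hp
    refine ⟨h1.trans h4, h5.trans h2, fun h => ?_⟩
    rcases h3 with h3 | h3
    · exact absurd (h3.trans_le h4) (by rw [h]; exact lt_irrefl _)
    · exact absurd (h5.trans_lt h3) (by rw [h]; exact lt_irrefl _)

theorem le_trans {i k l : ι} (h1 : D.Le i k) (h2 : D.Le k l) : D.Le i l := by
  rcases h1 with rfl | ⟨a1, a2, a3⟩
  · exact h2
  rcases h2 with rfl | ⟨b1, b2, b3⟩
  · exact Or.inr ⟨a1, a2, a3⟩
  refine Or.inr ⟨b1.trans a1, a2.trans b2, ?_⟩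
  rcases b3 with b3 | b3
  · exact Or.inl (b3.trans_le a1)
  · exact Or.inr (a2.trans_lt b3)

/-- two chords contained in each other are equal -/
theorem le_antisymm {i k : ι} (h1 : D.Le i k) (h2 : D.Le k i) : i = k := by
  rcases h1 with rfl | ⟨a1, a2, a3⟩
  · rfl
  rcases h2 with h2 | ⟨b1, b2, b3⟩
  · exact h2.symm
  exfalso
  have e1 : D.lo i = D.lo k := _root_.le_antisymm b1 a1
  have e2 : D.hi i = D.hi k := _root_.le_antisymm a2 b2
  have h3 : D.lo k ≤ D.x k ∧ D.x k ≤ D.hi k := by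
    by_cases h : D.E k
    · rw [D.x_E k h]; exact ⟨D.lo_le k, le_rfl⟩
    · rw [D.x_O k h]; exact ⟨le_rfl, D.lo_le k⟩
  rcases a3 with a3 | a3
  · rw [e1] at a3
    exact absurd h3.1 (not_le.2 a3)
  · rw [e2] at a3
    exact absurd h3.2 (not_le.2 a3)

/-- a set without sink: contradiction -/
theorem exists_sink (S : Finset ι) (hS : S.Nonempty) :
    ∃ j ∈ S, ∀ i ∈ S, ¬ D.Before i (D.y j) := by
  classical
  by_contra hcon
  push Not at hcon
  -- the maximal elements
  have hmax : ∀ i ∈ S, ∃ k ∈ S, D.Le i k ∧ ∀ l ∈ S, D.Le k l → l = k := by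
    intro i hi
    obtain ⟨k, hk, hkmin⟩ := (S.filter fun k => D.Le i k).exists_min_image
      (fun k => (S.filter fun l => D.Le k l).card) ⟨i, Finset.mem_filter.2 ⟨hi, Or.inl rfl⟩⟩
    obtain ⟨hk1, hk2⟩ := Finset.mem_filter.1 hk
    refine ⟨k, hk1, hk2, fun l hl hkl => ?_⟩
    by_contra hne
    have h1 := hkmin l (Finset.mem_filter.2 ⟨hl, D.le_trans hk2 hkl⟩)
    refine absurd h1 (not_le.2 (Finset.card_lt_card ?_))
    refine (Finset.ssubset_iff_of_subset fun p hp => ?_).2 ⟨k, ?_, fun h => ?_⟩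
    · obtain ⟨hp1, hp2⟩ := Finset.mem_filter.1 hp
      exact Finset.mem_filter.2 ⟨hp1, D.le_trans hkl hp2⟩
    · exact Finset.mem_filter.2 ⟨hk1, Or.inl rfl⟩
    · exact hne (D.le_antisymm (Finset.mem_filter.1 h).2 hkl)
  set M : Finset ι := S.filter fun k => ∀ l ∈ S, D.Le k l → l = k with hM
  have hMS : ∀ k, k ∈ M ↔ k ∈ S ∧ ∀ l ∈ S, D.Le k l → l = k := fun k => by
    rw [hM, Finset.mem_filter]
  have hMne : M.Nonempty := by
    obtain ⟨i, hi⟩ := hS
    obtain ⟨k, hk, -, hk2⟩ := hmax i hi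
    exact ⟨k, (hMS k).2 ⟨hk, hk2⟩⟩
  have hdis : ∀ i ∈ M, ∀ k ∈ M, i ≠ k → D.hi i < D.lo k ∨ D.hi k < D.lo i := by
    intro i hi k hk hne
    obtain ⟨hi1, hi2⟩ := (hMS i).1 hi
    obtain ⟨hk1, hk2⟩ := (hMS k).1 hk
    rcases D.tree i k hne with h | h | h | h
    · exact absurd (hi2 k hk1 (Or.inr h)) (Ne.symm hne)
    · exact absurd (hk2 i hi1 (Or.inr h)) hne
    · exact Or.inl h
    · exact Or.inr h
  have hnext : ∀ j ∈ M, ∃ i ∈ M, i ≠ j ∧ D.Before i (D.y j) := by
    intro j hj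
    obtain ⟨i, hi, hb⟩ := hcon j ((hMS j).1 hj).1
    obtain ⟨k, hk, hik, hk2⟩ := hmax i hi
    refine ⟨k, (hMS k).2 ⟨hk, hk2⟩, ?_, D.before_of_le hik hb⟩
    rintro rfl
    exact D.not_before_self k (D.before_of_le hik hb)
  have hx : ∀ i, D.lo i ≤ D.x i ∧ D.x i ≤ D.hi i := by
    intro k
    by_cases h : D.E k
    · rw [D.x_E k h]; exact ⟨D.lo_le k, le_rfl⟩
    · rw [D.x_O k h]; exact ⟨le_rfl, D.lo_le k⟩
  -- order of disjoint intervals
  have hord : ∀ i ∈ M, ∀ k ∈ M, i ≠ k → D.x i < D.x k → D.hi i < D.lo k := by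
    intro i hi k hk hne hlt
    rcases hdis i hi k hk hne with h | h
    · exact h
    · exact absurd (((hx k).2.trans_lt h).trans_le (hx i).1) (not_lt.2 hlt.le)
  have hxne : ∀ i ∈ M, ∀ k ∈ M, i ≠ k → D.x i ≠ D.x k := by
    intro i hi k hk hne h
    rcases hdis i hi k hk hne with h1 | h1
    · exact absurd (((hx i).2.trans_lt h1).trans_le (hx k).1) (by rw [h]; exact lt_irrefl _)
    · exact absurd (((hx k).2.trans_lt h1).trans_le (hx i).1) (by rw [h]; exact lt_irrefl _)
  have hright : ∀ j ∈ M, ∀ i ∈ M, i ≠ j → D.Before i (D.y j) → (D.E j ↔ D.x j < D.x i) := by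
    intro j hj i hi hne hb
    constructor
    · intro hE
      by_contra h
      have h1 : D.x i < D.x j := lt_of_le_of_ne (not_lt.1 h) (hxne i hi j hj hne)
      have h2 := hord i hi j hj hne h1
      have h3 := D.safe_E j hE
      exact absurd ((hb.2.1.trans_lt h2).trans_le (hx j).1) (not_lt.2 h3.le)
    · intro hlt
      by_contra hE
      have h2 := hord j hj i hi (Ne.symm hne) hlt
      have h3 := D.safe_O j hE
      exact absurd (((hx j).2.trans_lt h2).trans_le hb.1) (not_lt.2 h3.le)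
  -- the rightmost `E` element
  obtain ⟨l, hl, hlmin⟩ := M.exists_min_image D.x hMne
  have hlE : D.E l := by
    obtain ⟨i, hi, hne, hb⟩ := hnext l hl
    exact (hright l hl i hi hne hb).2 (lt_of_le_of_ne (hlmin i hi) (hxne l hl i hi (Ne.symm hne)))
  obtain ⟨m, hm, hmmax⟩ := (M.filter D.E).exists_max_image D.x ⟨l, Finset.mem_filter.2 ⟨hl, hlE⟩⟩
  obtain ⟨hmM, hmE⟩ := Finset.mem_filter.1 hm
  obtain ⟨q, hq, hqne, hqb⟩ := hnext m hmM
  have hmq := (hright m hmM q hq hqne hqb).1 hmE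
  -- the leftmost element to the right of `m`
  obtain ⟨n, hn, hnmin⟩ := (M.filter fun k => D.x m < D.x k).exists_min_image D.x
    ⟨q, Finset.mem_filter.2 ⟨hq, hmq⟩⟩
  obtain ⟨hnM, hmn⟩ := Finset.mem_filter.1 hn
  have hO : ∀ k ∈ M, D.x m < D.x k → ¬ D.E k := fun k hk h1 h2 =>
    absurd (hmmax k (Finset.mem_filter.2 ⟨hk, h2⟩)) (not_le.2 h1)
  obtain ⟨r, hr, hrne, hrb⟩ := hnext n hnM
  have hrn : D.x r < D.x n := by
    have h1 : ¬ D.x n < D.x r := fun h => hO n hnM hmn ((hright n hnM r hr hrne hrb).2 h)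
    exact lt_of_le_of_ne (not_lt.1 h1) (hxne r hr n hnM hrne)
  have hrm : D.x r ≤ D.x m := by
    by_contra h
    exact absurd (hnmin r (Finset.mem_filter.2 ⟨hr, not_le.1 h⟩)) (not_le.2 hrn)
  refine D.cross m n ⟨?_, hmn, ?_⟩
  · -- `y n < x m`
    rcases eq_or_ne r m with rfl | hne
    · refine lt_of_le_of_ne ?_ hrb.2.2
      rw [D.x_E r hmE]
      exact hrb.2.1
    · have h1 := hord r hr m hmM hne (lt_of_le_of_ne hrm (hxne r hr m hmM hne))
      exact (hrb.2.1.trans_lt h1).trans_le (hx m).1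
  · -- `x n < y m`
    have h1 : D.x n ≤ D.x q := hnmin q (Finset.mem_filter.2 ⟨hq, hmq⟩)
    refine h1.trans_lt (lt_of_le_of_ne ?_ (Ne.symm hqb.2.2))
    rw [D.x_O q (hO q hq hmq)]
    exact hqb.1

/-- the relation `y j` is read before `x i` is well founded -/
theorem wf_before [Finite ι] : WellFounded fun i j : ι => D.Before i (D.y j) := by
  refine WellFounded.wellFounded_iff_has_min.2 fun s hs => ?_
  obtain ⟨j, hj, hj2⟩ := D.exists_sink s.toFinite.toFinset (by simpa using hs)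
  exact ⟨j, by simpa using hj, fun i hi => hj2 i (by simpa using hi)⟩

end Safe

end Pool.Agent.MP42.U
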