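import Pool.Agent.MP42.U.Walk

/-!
# The switching lemma

A chain of pairs `(a, b)` between a value `u` and a value `r`.  State `true` of a pair: letters
`c o` (`V a = V b`), state `false`: letters `o c` (`V a` = value before, `V b` = value after).
-/

set_option autoImplicit false

namespace Pool.Agent.MP42.U

variable {α : Type*}

/-- the chain condition -/
def Ch (V : α → B) : List (Bool × α × α) → B → B → Prop
  | [], u, r => r = u
  | (true, a, b) :: t, u, r => V a = V b ∧ Ch V t u r
  | (false, a, b) :: t, u, r => V a = u ∧ Ch V t (V b) r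

/-- the product of two families on the pairs -/
def ps (V V' : α → B) (t : List (α × α)) : B :=
  (t.map fun p => V p.1 * V' p.1 + V p.2 * V' p.2).sum

lemma ps_cons (V V' : α → B) (p : α × α) (t : List (α × α)) :
    ps V V' (p :: t) = V p.1 * V' p.1 + V p.2 * V' p.2 + ps V V' t := by
  simp [ps]

lemma ch_tele {V V' : α → B} {t : List (Bool × α × α)} : ∀ {u r u' r' : B},
    Ch V t u r → Ch V' t u' r' → ps V V' (t.map Prod.snd) + r * r' = u * u' := by
  induction t with
  | nil =>
    intro u r u' r' h h'
    have h1 : r = u := h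
    have h2 : r' = u' := h'
    rw [h1, h2]
    simp [ps]
  | cons p t ih =>
    obtain ⟨s, a, b⟩ := p
    intro u r u' r' h h'
    rw [List.map_cons, ps_cons]
    cases s
    · have h1 : V a = u ∧ Ch V t (V b) r := h
      have h2 : V' a = u' ∧ Ch V' t (V' b) r' := h'
      have h3 := ih h1.2 h2.2
      show V a * V' a + V b * V' b + ps V V' (t.map Prod.snd) + r * r' = u * u'
      rw [h1.1, h2.1]
      have h4 := b_add_self (V b * V' b)
      linear_combination h3 + h4
    · have h1 : V a = V b ∧ Ch V t u r := h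
      have h2 : V' a = V' b ∧ Ch V' t u' r' := h'
      have h3 := ih h1.2 h2.2
      show V a * V' a + V b * V' b + ps V V' (t.map Prod.snd) + r * r' = u * u'
      rw [h1.1, h2.1]
      have h4 := b_add_self (V b * V' b)
      linear_combination h3 + h4

/-- **the switching lemma** -/
theorem switch (r u : (α → B) → B) : ∀ (ps' : List (α × α)) (W : Set (α → B)),
    (∀ V ∈ W, ∀ V' ∈ W, u V * u V' + ps V V' ps' + r V * r V' = 0) →
    ∃ t : List (Bool × α × α), t.map Prod.snd = ps' ∧ ∀ V ∈ W, Ch V t (u V) (r V) →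
      (∀ p ∈ ps', V p.1 = u V ∧ V p.2 = u V) ∧ r V = u V := by
  intro ps'
  induction ps' with
  | nil =>
    intro W _
    refine ⟨[], rfl, ?_⟩
    intro V _ hV
    exact ⟨by simp, hV⟩
  | cons p ps' ih =>
    obtain ⟨a, b⟩ := p
    intro W hW
    obtain ⟨t, ht, h⟩ := ih {V | V ∈ W ∧ V a = V b} (by
      rintro V ⟨hV, hV1⟩ V' ⟨hV', hV1'⟩
      have h1 := hW V hV V' hV'
      rw [ps_cons] at h1
      simp only [hV1, hV1'] at h1
      have h2 := b_add_self (V b * V' b)
      linear_combination h1 - h2)
    by_cases hc : ∀ V ∈ W, V a = V b → Ch V t (u V) (r V) → V a = u V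
    · refine ⟨(true, a, b) :: t, by simp [ht], ?_⟩
      intro V hV hC
      have hC' : V a = V b ∧ Ch V t (u V) (r V) := hC
      obtain ⟨h1, h2⟩ := h V ⟨hV, hC'.1⟩ hC'.2
      have h3 := hc V hV hC'.1 hC'.2
      refine ⟨?_, h2⟩
      intro p hp
      rcases List.mem_cons.1 hp with rfl | hp
      · exact ⟨h3, by rw [← hC'.1]; exact h3⟩
      · exact h1 p hp
    · push Not at hc
      obtain ⟨V₀, hV₀, h01, h02, h03⟩ := hc
      refine ⟨(false, a, b) :: t, by simp [ht], ?_⟩
      intro V hV hC
      have hC' : V a = u V ∧ Ch V t (V b) (r V) := hC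
      have h1 := hW V₀ hV₀ V hV
      rw [ps_cons] at h1
      have h2 := ch_tele h02 hC'.2
      rw [ht] at h2
      have h4 : (u V₀ + V₀ a) * (u V + V b) = 0 := by
        simp only at h1
        rw [← h01, hC'.1] at h1
        linear_combination h1 - h2
      have h5 : V b = u V := by
        have key : ∀ x y z w : B, y ≠ x → (x + y) * (z + w) = 0 → w = z := by decide
        exact key _ _ _ _ h03 h4
      have hC2 : Ch V t (u V) (r V) := by rw [← h5]; exact hC'.2
      obtain ⟨h6, h7⟩ := h V ⟨hV, hC'.1.trans h5.symm⟩ hC2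
      refine ⟨?_, h7⟩
      intro p hp
      rcases List.mem_cons.1 hp with rfl | hp
      · exact ⟨hC'.1, h5⟩
      · exact h6 p hp

end Pool.Agent.MP42.U
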