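import Mathlib

/-!
# Stack walks

Letters: `true` = `o` = pop, `false` = `c` = push.  A word is a list of pairs (letter, value); the
values and the stacks are in `ZMod 2`.
-/

set_option autoImplicit false

namespace Pool.Agent.MP42.U

/-- the values -/
abbrev B := ZMod 2

/-- push `a` on the stack `S` -/
def push (a : B) (S : ℕ → B) : ℕ → B
  | 0 => a
  | j + 1 => S j

/-- the stack without its top -/
def tl (S : ℕ → B) : ℕ → B := fun j => S (j + 1)

@[simp] lemma push_zero (a : B) (S : ℕ → B) : push a S 0 = a := rfl

@[simp] lemma push_succ (a : B) (S : ℕ → B) (j : ℕ) : push a S (j + 1) = S j := rfl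

@[simp] lemma tl_apply (S : ℕ → B) (j : ℕ) : tl S j = S (j + 1) := rfl

@[simp] lemma tl_push (a : B) (S : ℕ → B) : tl (push a S) = S := rfl

lemma push_tl (S : ℕ → B) : push (S 0) (tl S) = S := by
  funext j; cases j <;> rfl

/-- the stack walk along a word -/
def Run : List (Bool × B) → (ℕ → B) → (ℕ → B) → Prop
  | [], S, S' => S = S'
  | (true, a) :: w, S, S' => a = S 0 ∧ Run w (tl S) S'
  | (false, a) :: w, S, S' => Run w (push a S) S'

@[simp] lemma run_nil {S S' : ℕ → B} : Run [] S S' ↔ S = S' := Iff.rfl

@[simp] lemma run_pop {a : B} {w : List (Bool × B)} {S S' : ℕ → B} :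
    Run ((true, a) :: w) S S' ↔ a = S 0 ∧ Run w (tl S) S' := Iff.rfl

@[simp] lemma run_push {a : B} {w : List (Bool × B)} {S S' : ℕ → B} :
    Run ((false, a) :: w) S S' ↔ Run w (push a S) S' := Iff.rfl

lemma run_append {w₁ w₂ : List (Bool × B)} : ∀ {S S' : ℕ → B},
    Run (w₁ ++ w₂) S S' ↔ ∃ S₁, Run w₁ S S₁ ∧ Run w₂ S₁ S' := by
  induction w₁ with
  | nil => intro S S'; simp
  | cons p w ih =>
    obtain ⟨b, a⟩ := p
    intro S S'
    cases b
    · simp [ih]
    · simp [ih, and_assoc]

lemma run_det {w : List (Bool × B)} : ∀ {S S' S'' : ℕ → B}, Run w S S' → Run w S S'' →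
    S' = S'' := by
  induction w with
  | nil => intro S S' S'' h h'; exact h.symm.trans h'
  | cons p w ih =>
    obtain ⟨b, a⟩ := p
    intro S S' S'' h h'
    cases b
    · exact ih h h'
    · exact ih h.2 h'.2

/-- the height of a word: pops minus pushes -/
def ht (w : List (Bool × B)) : ℤ := (w.map (fun p => if p.1 then (1 : ℤ) else -1)).sum

/-- the sum of the values of a word -/
def vs (w : List (Bool × B)) : B := (w.map Prod.snd).sum

@[simp] lemma ht_nil : ht [] = 0 := rfl
@[simp] lemma vs_nil : vs [] = 0 := rfl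

lemma ht_cons (p : Bool × B) (w : List (Bool × B)) :
    ht (p :: w) = (if p.1 then (1 : ℤ) else -1) + ht w := by simp [ht]

lemma vs_cons (p : Bool × B) (w : List (Bool × B)) : vs (p :: w) = p.2 + vs w := by simp [vs]

@[simp] lemma ht_append (w₁ w₂ : List (Bool × B)) : ht (w₁ ++ w₂) = ht w₁ + ht w₂ := by
  simp [ht]

@[simp] lemma vs_append (w₁ w₂ : List (Bool × B)) : vs (w₁ ++ w₂) = vs w₁ + vs w₂ := by
  simp [vs]

lemma b_add_self (a : B) : a + a = 0 := CharTwo.add_self_eq_zero a

/-- the number of values on the stack -/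
lemma run_sum {w : List (Bool × B)} : ∀ {S S' : ℕ → B}, Run w S S' → ∀ K K' : ℕ,
    w.length ≤ K → (K' : ℤ) = K - ht w →
    ∑ j ∈ Finset.range K', S' j = ∑ j ∈ Finset.range K, S j + vs w := by
  induction w with
  | nil =>
    intro S S' h K K' _ hK'
    simp only [ht_nil, sub_zero, Nat.cast_inj] at hK'
    rw [run_nil] at h
    subst h hK'
    simp
  | cons p w ih =>
    obtain ⟨b, a⟩ := p
    intro S S' h K K' hK hK'
    rw [ht_cons] at hK'
    rw [vs_cons]
    simp only [List.length_cons] at hK
    cases b
    · rw [run_push] at h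
      have h1 := ih h (K + 1) K' (by omega) (by push_cast; simp at hK'; linarith)
      rw [h1, Finset.sum_range_succ']
      simp only [push_succ, push_zero]
      ring
    · rw [run_pop] at h
      obtain ⟨K, rfl⟩ : ∃ k, K = k + 1 := ⟨K - 1, by omega⟩
      have h1 := ih h.2 K K' (by omega) (by push_cast at hK'; simp at hK'; linarith)
      rw [h1, Finset.sum_range_succ' S K, h.1]
      simp only [tl_apply]
      have := b_add_self (S 0)
      linear_combination -this

/-- **parity**: the sum of the values of a closed walk of height `2` -/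
lemma run_parity {w : List (Bool × B)} {S : ℕ → B} (h : Run w S S) (h2 : ht w = 2) {K : ℕ}
    (hK : w.length ≤ K) : vs w = S K + S (K + 1) := by
  have h1 := run_sum h (K + 2) K (by omega) (by push_cast; rw [h2]; ring)
  rw [Finset.sum_range_succ, Finset.sum_range_succ] at h1
  have h3 := b_add_self (S K)
  have h4 := b_add_self (S (K + 1))
  linear_combination -h1 + -h3 - h4 

/-- the product of two words with the same letters -/
lemma run_mul {α : Type*} {s : α → Bool} {V V' : α → B} {l : List α} :
    ∀ {S S' R R' : ℕ → B}, Run (l.map fun x => (s x, V x)) S S' →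
      Run (l.map fun x => (s x, V' x)) R R' →
      Run (l.map fun x => (s x, V x * V' x)) (fun j => S j * R j) (fun j => S' j * R' j) := by
  induction l with
  | nil =>
    intro S S' R R' h h'
    simp only [List.map_nil, run_nil] at h h' ⊢
    subst h h'
    rfl
  | cons x l ih =>
    intro S S' R R' h h'
    simp only [List.map_cons] at h h' ⊢
    cases hs : s x
    · rw [hs, run_push] at h h'
      rw [run_push]
      have := ih h h'
      convert this using 1
      funext j
      cases j <;> rfl
    · rw [hs, run_pop] at h h'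
      rw [run_pop]
      exact ⟨by rw [h.1, h'.1], ih h.2 h'.2⟩

/-- the effect of a word with one value `a` and height `t` -/
structure Eff (a : B) (t : ℤ) (S S' : ℕ → B) : Prop where
  low : ∀ k : ℕ, (k : ℤ) < t → S k = a
  top : ∀ j : ℕ, (j : ℤ) < -t → S' j = a
  sh : ∀ j k : ℕ, (k : ℤ) = j + t → S' j = S k

lemma run_eff {a : B} {w : List (Bool × B)} : ∀ {S S' : ℕ → B}, (∀ p ∈ w, p.2 = a) →
    Run w S S' → Eff a (ht w) S S' := by
  induction w with
  | nil =>
    intro S S' _ h
    rw [run_nil] at h
    subst h
    refine ⟨fun k hk => ?_, fun j hj => ?_, fun j k h => ?_⟩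
    · simp only [ht_nil] at hk; omega
    · simp only [ht_nil] at hj; omega
    · simp only [ht_nil, add_zero, Nat.cast_inj] at h; rw [h]
  | cons p w ih =>
    obtain ⟨b, c⟩ := p
    intro S S' ha h
    have hc : c = a := ha _ List.mem_cons_self
    have ha' : ∀ p ∈ w, p.2 = a := fun p hp => ha p (List.mem_cons_of_mem _ hp)
    subst hc
    rw [ht_cons]
    cases b
    · rw [run_push] at h
      obtain ⟨h1, h2, h3⟩ := ih ha' h
      refine ⟨fun k hk => ?_, fun j hj => ?_, fun j k hjk => ?_⟩
      · simp at hk
        exact h1 (k + 1) (by push_cast; linarith)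
      · simp at hj
        rcases lt_or_ge (j : ℤ) (- ht w) with h4 | h4
        · exact h2 j h4
        · exact h3 j 0 (by push_cast; linarith)
      · simp at hjk
        exact h3 j (k + 1) (by push_cast; linarith)
    · rw [run_pop] at h
      obtain ⟨h1, h2, h3⟩ := ih ha' h.2
      refine ⟨fun k hk => ?_, fun j hj => ?_, fun j k hjk => ?_⟩
      · simp at hk
        rcases Nat.eq_zero_or_pos k with h4 | h4
        · rw [h4]; exact h.1.symm
        · obtain ⟨k, rfl⟩ := Nat.exists_eq_succ_of_ne_zero h4.ne'
          exact h1 k (by push_cast at hk; linarith)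
      · simp at hj
        exact h2 j (by linarith)
      · simp at hjk
        rcases Nat.eq_zero_or_pos k with h4 | h4
        · subst h4
          rw [h2 j (by push_cast at hjk; linarith)]
          exact h.1
        · obtain ⟨k, rfl⟩ := Nat.exists_eq_succ_of_ne_zero h4.ne'
          exact h3 j k (by push_cast at hjk; linarith)

lemma Eff.zero {a : B} {S S' : ℕ → B} (h : Eff a 0 S S') : S' = S := by
  funext j
  exact h.sh j j (by ring)

lemma Eff.one {a : B} {S S' : ℕ → B} (h : Eff a 1 S S') : a = S 0 ∧ S' = tl S := by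
  refine ⟨(h.low 0 (by norm_num)).symm, ?_⟩
  funext j
  exact h.sh j (j + 1) (by push_cast; ring)

lemma Eff.neg {a : B} {S S' : ℕ → B} (h : Eff a (-1) S S') : S' = push a S := by
  funext j
  cases j with
  | zero => exact h.top 0 (by norm_num)
  | succ j => exact h.sh (j + 1) j (by push_cast; ring)

end Pool.Agent.MP42.U
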