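import Pool.Agent.MP42.U.Circ

/-!
# From the words with all tokens to the words without the late children

`Le V w w'`: every run along `w` is a run along `w'`.
-/

set_option autoImplicit false

namespace Pool.Agent.MP42.U

variable {T : Type*}

/-- every run along `w` is a run along `w'` -/
def Le (V : T → B) (w w' : List (Bool × T)) : Prop :=
  ∀ S S' : ℕ → B, Run (lv V w) S S' → Run (lv V w') S S'

lemma Le.refl (V : T → B) (w : List (Bool × T)) : Le V w w := fun _ _ h => h

lemma Le.trans {V : T → B} {w w' w'' : List (Bool × T)} (h : Le V w w') (h' : Le V w' w'') :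
    Le V w w'' := fun S S' h1 => h' S S' (h S S' h1)

lemma Le.append {V : T → B} {w₁ w₁' w₂ w₂' : List (Bool × T)} (h : Le V w₁ w₁')
    (h' : Le V w₂ w₂') : Le V (w₁ ++ w₂) (w₁' ++ w₂') := by
  intro S S' h1
  rw [lv_append, run_append] at h1 ⊢
  obtain ⟨S₁, h2, h3⟩ := h1
  exact ⟨S₁, h _ _ h2, h' _ _ h3⟩

lemma Le.cons {V : T → B} {w w' : List (Bool × T)} (q : Bool × T) (h : Le V w w') :
    Le V (q :: w) (q :: w') := Le.append (Le.refl V [q]) h

lemma Le.cl {V : T → B} {w w' : List (Bool × T)} (h : Le V w w') (hC : Cl V w) : Cl V w' := by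
  obtain ⟨S, h1, h2⟩ := hC
  exact ⟨S, h _ _ h1, h2⟩

/-- a chain of children -/
def Chn (V : T → B) : B → List (T × T) → B → Prop
  | c, [], d => d = c
  | c, p :: m, d => V p.1 = c ∧ Chn V (V p.2) m d

lemma run_up_iff {V : T → B} {m : List (T × T)} : ∀ {S S' : ℕ → B},
    Run (lv V (up m)) S S' ↔ Chn V (S 0) m (S' 0) ∧ tl S' = tl S := by
  induction m with
  | nil =>
    intro S S'
    constructor
    · intro h
      have h1 : S = S' := h
      rw [h1]
      exact ⟨rfl, rfl⟩
    · rintro ⟨h1, h2⟩
      have h3 : S' 0 = S 0 := h1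
      change S = S'
      funext j
      cases j with
      | zero => exact h3.symm
      | succ j => exact (congrFun h2 j).symm
  | cons p m ih =>
    intro S S'
    have h1 : Run (lv V (up (p :: m))) S S' ↔
        V p.1 = S 0 ∧ Run (lv V (up m)) (push (V p.2) (tl S)) S' := Iff.rfl
    rw [h1, ih]
    have h2 : tl (push (V p.2) (tl S)) = tl S := rfl
    rw [h2]
    simp only [Chn, push_zero]
    tauto

/-- the run along a bracket -/
lemma run_br_iff {V : T → B} {t x : T} {m : List (T × T)} {S S' : ℕ → B} :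
    Run (lv V ((false, t) :: (up m ++ [(true, x)]))) S S' ↔ Chn V (V t) m (V x) ∧ S' = S := by
  have h1 : Run (lv V ((false, t) :: (up m ++ [(true, x)]))) S S' ↔
      Run (lv V (up m ++ [(true, x)])) (push (V t) S) S' := Iff.rfl
  rw [h1, lv_append, run_append]
  constructor
  · rintro ⟨S₁, h2, h3⟩
    obtain ⟨h4, h5⟩ := run_up_iff.1 h2
    have h6 : V x = S₁ 0 ∧ tl S₁ = S' := h3
    rw [h6.1]
    refine ⟨h4, ?_⟩
    rw [← h6.2, h5]
    rfl
  · rintro ⟨h2, h3⟩
    refine ⟨push (V x) S, run_up_iff.2 ⟨h2, rfl⟩, ?_⟩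
    have : V x = (push (V x) S) 0 ∧ tl (push (V x) S) = S' := ⟨rfl, by rw [h3]; rfl⟩
    exact this

/-- all units are brackets -/
def isBr : BU T → Prop
  | BU.br _ _ _ => True
  | _ => False

lemma run_brs {V : T → B} {st : BU T → Bool} {us : List (BU T)} (h : ∀ u ∈ us, isBr u) :
    ∃ P : Prop, ∀ S S' : ℕ → B, Run (lv V (BU.word st us)) S S' ↔ P ∧ S' = S := by
  induction us with
  | nil =>
    refine ⟨True, fun S S' => ?_⟩
    simp only [BU.word_nil, lv_nil, run_nil, true_and]
    exact eq_comm
  | cons u us ih =>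
    obtain ⟨P, hP⟩ := ih fun w hw => h w (List.mem_cons_of_mem _ hw)
    match u, h u List.mem_cons_self with
    | BU.br t x m, _ =>
      refine ⟨Chn V (V t) m (V x) ∧ P, fun S S' => ?_⟩
      have h1 : BU.word st (BU.br t x m :: us) =
          ((false, t) :: (up m ++ [(true, x)])) ++ BU.word st us := rfl
      rw [h1, lv_append, run_append]
      constructor
      · rintro ⟨S₁, h2, h3⟩
        obtain ⟨h4, h5⟩ := run_br_iff.1 h2
        obtain ⟨h6, h7⟩ := (hP _ _).1 h3
        exact ⟨⟨h4, h6⟩, by rw [h7, h5]⟩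
      · rintro ⟨⟨h2, h3⟩, h4⟩
        exact ⟨S, run_br_iff.2 ⟨h2, rfl⟩, (hP _ _).2 ⟨h3, h4⟩⟩

/-- brackets commute with everything -/
lemma le_comm {V : T → B} {st : BU T → Bool} {us : List (BU T)} (h : ∀ u ∈ us, isBr u)
    (w : List (Bool × T)) : Le V (w ++ BU.word st us) (BU.word st us ++ w) := by
  obtain ⟨P, hP⟩ := run_brs (V := V) (st := st) h
  intro S S' h1
  rw [lv_append, run_append] at h1 ⊢
  obtain ⟨S₁, h2, h3⟩ := h1
  obtain ⟨h4, h5⟩ := (hP _ _).1 h3
  exact ⟨S, (hP _ _).2 ⟨h4, rfl⟩, by rw [h5]; exact h2⟩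

/-- a child with equal tokens can be left out -/
lemma le_up {V : T → B} {m : List (T × T)} (h : ∀ p ∈ m, V p.1 = V p.2) : Le V (up m) [] := by
  intro S S' h1
  rw [(run_up h h1).1]
  rfl

lemma le_dn {V : T → B} {m : List (T × T)} (h : ∀ p ∈ m, V p.1 = V p.2) : Le V (dn m) [] := by
  intro S S' h1
  rw [(run_dn h h1).1]
  rfl

lemma isBr_brp {m : List (Itm T)} : ∀ u ∈ m.flatMap Itm.brp, isBr u := by
  intro u hu
  obtain ⟨i, _, hi⟩ := List.mem_flatMap.1 hu
  cases i with
  | re a b => simp [Itm.brp] at hi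
  | la a b => simp [Itm.brp] at hi
  | br t x m =>
    simp only [Itm.brp, List.mem_cons, List.not_mem_nil, or_false] at hi
    rw [hi]; trivial

lemma word_brs (st st' : BU T → Bool) {us : List (BU T)} (h : ∀ u ∈ us, isBr u) :
    BU.word st us = BU.word st' us := by
  refine BU.word_congr ?_
  intro u hu hk
  have := h u hu
  cases u <;> simp [isBr, BU.kind] at this hk

/-- the items in reading order -/
lemma le_rd {V : T → B} {st : BU T → Bool} {m : List (Itm T)}
    (h : ∀ p ∈ m.flatMap Itm.lap, V p.1 = V p.2) :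
    Le V (m.flatMap Itm.rd) (BU.word st (m.flatMap Itm.brp) ++ up (m.flatMap Itm.rep)) := by
  induction m with
  | nil => exact Le.refl _ _
  | cons i m ih =>
    have h1 := ih fun p hp => h p (by
      rw [List.flatMap_cons]; exact List.mem_append_right _ hp)
    cases i with
    | re a b =>
      have e1 : (Itm.re a b :: m).flatMap Itm.rd = up [(a, b)] ++ m.flatMap Itm.rd := rfl
      have e2 : (Itm.re a b :: m).flatMap Itm.brp = m.flatMap Itm.brp := rfl
      have e3 : up ((Itm.re a b :: m).flatMap Itm.rep) = up [(a, b)] ++ up (m.flatMap Itm.rep) := rfl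
      rw [e1, e2, e3]
      refine (Le.append (Le.refl _ _) h1).trans ?_
      rw [← List.append_assoc, ← List.append_assoc]
      exact Le.append (le_comm isBr_brp _) (Le.refl _ _)
    | la a b =>
      have e1 : (Itm.la a b :: m).flatMap Itm.rd = up [(a, b)] ++ m.flatMap Itm.rd := rfl
      have e2 : (Itm.la a b :: m).flatMap Itm.brp = m.flatMap Itm.brp := rfl
      have e3 : (Itm.la a b :: m).flatMap Itm.rep = m.flatMap Itm.rep := rfl
      rw [e1, e2, e3]
      have h2 : Le V (up [(a, b)]) [] := le_up (by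
        intro p hp
        simp only [List.mem_cons, List.not_mem_nil, or_false] at hp
        rw [hp]
        exact h (a, b) (by simp [Itm.lap]))
      have h3 := Le.append h2 h1
      rw [List.nil_append] at h3
      exact h3
    | br t x m' =>
      have e1 : (Itm.br t x m' :: m).flatMap Itm.rd =
          ((false, t) :: (up m' ++ [(true, x)])) ++ m.flatMap Itm.rd := rfl
      have e2 : BU.word st ((Itm.br t x m' :: m).flatMap Itm.brp) =
          ((false, t) :: (up m' ++ [(true, x)])) ++ BU.word st (m.flatMap Itm.brp) := rfl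
      have e3 : (Itm.br t x m' :: m).flatMap Itm.rep = m.flatMap Itm.rep := rfl
      rw [e1, e2, e3, List.append_assoc]
      exact Le.append (Le.refl _ _) h1

lemma hd_append (pr : T → Bool) (m : List (Itm T)) : hd1 pr m ++ hd2 pr m = m :=
  List.takeWhile_append_dropWhile

/-- pairs without the late ones -/
lemma le_dn_pairs {V : T → B} {m : List (Itm T)} (h : ∀ p ∈ m.flatMap Itm.lap, V p.1 = V p.2) :
    Le V (dn (m.flatMap Itm.pairs)) (dn (m.flatMap Itm.rep)) := by
  induction m with
  | nil => exact Le.refl _ _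
  | cons i m ih =>
    have h1 := ih fun p hp => h p (by
      rw [List.flatMap_cons]; exact List.mem_append_right _ hp)
    cases i with
    | re a b =>
      have e1 : dn ((Itm.re a b :: m).flatMap Itm.pairs) =
          dn (m.flatMap Itm.pairs) ++ [(true, b), (false, a)] := dn_cons _ _
      have e2 : dn ((Itm.re a b :: m).flatMap Itm.rep) =
          dn (m.flatMap Itm.rep) ++ [(true, b), (false, a)] := dn_cons _ _
      rw [e1, e2]
      exact Le.append h1 (Le.refl _ _)
    | la a b =>
      have e1 : dn ((Itm.la a b :: m).flatMap Itm.pairs) =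
          dn (m.flatMap Itm.pairs) ++ [(true, b), (false, a)] := dn_cons _ _
      have e2 : (Itm.la a b :: m).flatMap Itm.rep = m.flatMap Itm.rep := rfl
      rw [e1, e2]
      have h2 : Le V (dn [(a, b)]) [] := le_dn (by
        intro p hp
        simp only [List.mem_cons, List.not_mem_nil, or_false] at hp
        rw [hp]
        exact h (a, b) (by simp [Itm.lap]))
      have h3 := Le.append h1 h2
      rw [List.append_nil] at h3
      exact h3
    | br t x m' => exact h1

/-- a group -/
lemma le_group {V : T → B} {pr : T → Bool} {s : T → Bool} {g : List (Itm T) × T}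
    (h : ∀ p ∈ g.1.flatMap Itm.lap, V p.1 = V p.2) :
    Le V (gfin pr (s g.2) g) (BU.word (BU.sg s) (gpre g)) := by
  have e0 : BU.word (BU.sg s) (gpre g) = BU.word (BU.sg s) (g.1.flatMap Itm.brp) ++
      (BU.gu (g.1.flatMap Itm.rep) g.2).lts (s g.2) := by
    unfold gpre
    rw [BU.word_append, BU.word_cons, BU.word_nil, List.append_nil]
    rfl
  rw [e0]
  cases hb : s g.2
  · -- push
    have hsub1 : ∀ p ∈ (hd1 pr g.1).flatMap Itm.lap, V p.1 = V p.2 := by
      intro p hp
      refine h p ?_
      rw [← hd_append pr g.1, List.flatMap_append]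
      exact List.mem_append_left _ hp
    have hsub2 : ∀ p ∈ (hd2 pr g.1).flatMap Itm.lap, V p.1 = V p.2 := by
      intro p hp
      refine h p ?_
      rw [← hd_append pr g.1, List.flatMap_append]
      exact List.mem_append_right _ hp
    have e1 : gfin pr false g = BU.word (fun _ => true) (g.1.flatMap Itm.brp) ++
        (up ((hd1 pr g.1).flatMap Itm.lap) ++ ((false, g.2) ::
          (dn ((hd2 pr g.1).flatMap Itm.pairs) ++ dn ((hd1 pr g.1).flatMap Itm.rep)))) := rfl
    have e2 : (BU.gu (g.1.flatMap Itm.rep) g.2).lts false =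
        [] ++ ((false, g.2) :: (dn ((hd2 pr g.1).flatMap Itm.rep) ++
          dn ((hd1 pr g.1).flatMap Itm.rep))) := by
      have e3 : (BU.gu (g.1.flatMap Itm.rep) g.2).lts false =
          (false, g.2) :: dn (g.1.flatMap Itm.rep) := rfl
      have e4 : g.1.flatMap Itm.rep = (hd1 pr g.1).flatMap Itm.rep ++
          (hd2 pr g.1).flatMap Itm.rep := by
        rw [← List.flatMap_append, hd_append]
      rw [e3, e4, dn_append]
      rfl
    rw [e1, e2, word_brs _ (BU.sg s) isBr_brp]
    refine Le.append (Le.refl _ _) (Le.append (le_up hsub1) (Le.cons _ ?_))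
    exact Le.append (le_dn_pairs hsub2) (Le.refl _ _)
  · have e1 : gfin pr true g = g.1.flatMap Itm.rd ++ [(true, g.2)] := rfl
    have e2 : (BU.gu (g.1.flatMap Itm.rep) g.2).lts true =
        up (g.1.flatMap Itm.rep) ++ [(true, g.2)] := rfl
    rw [e1, e2, ← List.append_assoc]
    exact Le.append (le_rd h) (Le.refl _ _)

lemma word_evs (st : BU T → Bool) (m : List (T × T)) :
    BU.word st (m.map fun p => BU.ev p.1 p.2) = up m := by
  induction m with
  | nil => rfl
  | cons p m ih =>
    rw [List.map_cons, BU.word_cons, ih]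
    rfl

/-- **end of a phase** -/
theorem Circ.le_fin {V : T → B} {pr : T → Bool} {s : T → Bool} {c : Circ T}
    (hl : ∀ A, c = Circ.fu A → s A.l = true ∧ s A.x = true ∧ s A.X = true)
    (h : ∀ p ∈ c.late, V p.1 = V p.2) : Le V (c.fin pr s) (c.pre s) := by
  cases c with
  | pl l r us => exact Le.refl _ _
  | gp l us t g r => exact Le.refl _ _
  | fu A =>
    obtain ⟨h1, h2, h3⟩ := hl A rfl
    have e1 : (Circ.fu A).fin pr s = (true, A.l) :: (true, A.x) :: (BU.word (BU.sg s) A.e1 ++
        ((true, A.X) :: ((A.gs.flatMap fun g => gfin pr (s g.2) g) ++ A.tl.flatMap Itm.rd))) := rfl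
    have e2 : (Circ.fu A).pre s = (true, A.l) :: (true, A.x) :: (BU.word (BU.sg s) A.e1 ++
        ((true, A.X) :: (BU.word (BU.sg s) (A.gs.flatMap gpre) ++
          (BU.word (BU.sg s) (A.tl.flatMap Itm.brp) ++ up (A.tl.flatMap Itm.rep))))) := by
      unfold Circ.pre Circ.pus
      simp only [BU.word_cons, BU.word_append, word_evs, BU.word_nil]
      simp [BU.lts, BU.sg, BU.main, h1, h2, h3]
    rw [e1, e2]
    refine Le.cons _ (Le.cons _ (Le.append (Le.refl _ _) (Le.cons _ (Le.append ?_ ?_))))
    · have h4 : ∀ g ∈ A.gs, ∀ p ∈ g.1.flatMap Itm.lap, V p.1 = V p.2 := by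
        intro g hg p hp
        exact h p (List.mem_append_left _ (List.mem_flatMap.2 ⟨g, hg, hp⟩))
      clear h e1 e2
      generalize A.gs = gs at h4 ⊢
      induction gs with
      | nil => exact Le.refl _ _
      | cons g gs ih =>
        rw [List.flatMap_cons, List.flatMap_cons, BU.word_append]
        exact Le.append (le_group (h4 g List.mem_cons_self))
          (ih fun g' hg' => h4 g' (List.mem_cons_of_mem _ hg'))
    · exact le_rd fun p hp => h p (List.mem_append_right _ hp)

end Pool.Agent.MP42.U
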